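import Pool.Agent.Lib.MP_c2b80f_alE.ArDefs

/-!
# Base change: elementary formulas (job ArA)
-/

open Matrix

namespace WCn

variable {m r : ℕ} {ι : Type} {R R' : Type*} [CommRing R] [CommRing R']

theorem evR_eq_evM (X : Matrix (Fin m) (Fin m) ℂ) (P : MvPolynomial (Fin m × Fin m) ℂ) : evR X P = evM X P := by
  rfl

theorem dR_eq_dP (X : Matrix (Fin m) (Fin m) ℂ) (P : MvPolynomial (Fin m × Fin m) ℂ) : dR P X = dP P X := by
  rfl

theorem evR_map (f : R →+* R') (X : Matrix (Fin m) (Fin m) R) (P : MvPolynomial (Fin m × Fin m) R) :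
    evR (X.map f) (MvPolynomial.map f P) = f (evR X P) := by
  unfold evR
  rw [MvPolynomial.eval_map, MvPolynomial.eval₂_comp]
  rfl

private theorem ArA_one_map (f : R →+* R') : (1 : Matrix (Fin m) (Fin m) R).map f = 1 :=
  Matrix.map_one f (map_zero f) (map_one f)

theorem dR_map (f : R →+* R') (X : Matrix (Fin m) (Fin m) R) (P : MvPolynomial (Fin m × Fin m) R) :
    dR (MvPolynomial.map f P) (X.map f) = f (dR P X) := by
  unfold dR
  rw [map_sum]
  refine Finset.sum_congr rfl fun ij _ => ?_
  rw [MvPolynomial.pderiv_map, ← ArA_one_map f, evR_map, map_mul, Matrix.map_apply]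

theorem dR_add (P : MvPolynomial (Fin m × Fin m) R) (X Y : Matrix (Fin m) (Fin m) R) : dR P (X + Y) = dR P X + dR P Y := by
  unfold dR
  rw [← Finset.sum_add_distrib]
  refine Finset.sum_congr rfl fun ij _ => ?_
  rw [Matrix.add_apply, mul_add]

theorem dR_smul (P : MvPolynomial (Fin m × Fin m) R) (c : R) (X : Matrix (Fin m) (Fin m) R) : dR P (c • X) = c * dR P X := by
  unfold dR
  rw [Finset.mul_sum]
  refine Finset.sum_congr rfl fun ij _ => ?_
  rw [Matrix.smul_apply, smul_eq_mul]
  ring

theorem H_map (D : RD m r ι) (f : R →+* R') (t : Fin r → R) : (D.H t).map f = D.H (fun i => f (t i)) := by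
  unfold RD.H
  rw [Matrix.diagonal_map (map_zero f)]
  congr 1
  funext j
  show f (∑ i, (D.wt j i : R) * t i) = _
  rw [map_sum]
  refine Finset.sum_congr rfl fun i _ => ?_
  rw [map_mul, map_intCast]

theorem H_add (D : RD m r ι) (t t' : Fin r → R) : D.H (fun i => t i + t' i) = D.H t + D.H t' := by
  unfold RD.H
  rw [Matrix.diagonal_add]
  congr 1
  funext j
  rw [← Finset.sum_add_distrib]
  refine Finset.sum_congr rfl fun i _ => ?_
  rw [mul_add]

theorem H_smul (D : RD m r ι) (c : R) (t : Fin r → R) : D.H (fun i => c * t i) = c • D.H t := by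
  unfold RD.H
  rw [← Matrix.diagonal_smul]
  congr 1
  funext j
  rw [Pi.smul_apply, smul_eq_mul, Finset.mul_sum]
  refine Finset.sum_congr rfl fun i _ => ?_
  ring

/-- `H t` in the basis. -/
theorem H_eq_sum (D : RD m r ι) (t : Fin r → R) : D.H t = ∑ i, t i • D.H (Pi.single i (1 : R)) := by
  ext a b
  rw [Matrix.sum_apply]
  unfold RD.H
  simp only [Matrix.smul_apply, smul_eq_mul, Matrix.diagonal_apply]
  by_cases h : a = b
  · simp only [if_pos h]
    refine Finset.sum_congr rfl fun i _ => ?_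
    rw [Finset.sum_eq_single i]
    · rw [Pi.single_eq_same]
      ring
    · intro j _ hj
      rw [Pi.single_eq_of_ne hj, mul_zero]
    · intro h2
      exact absurd (Finset.mem_univ i) h2
  · simp only [if_neg h, mul_zero, Finset.sum_const_zero]

theorem rt_map (D : RD m r ι) (f : R →+* R') (β : ι) (t : Fin r → R) : f (D.rt β t) = D.rt β (fun i => f (t i)) := by
  unfold RD.rt
  rw [map_sum]
  refine Finset.sum_congr rfl fun i _ => ?_
  rw [map_mul, map_intCast]

theorem act_map (w : GL (Fin r) ℤ) (f : R →+* R') (t : Fin r → R) (i : Fin r) : f (act w t i) = act w (fun i => f (t i)) i := by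
  unfold act
  rw [map_sum]
  refine Finset.sum_congr rfl fun j _ => ?_
  rw [map_mul, map_intCast]

theorem b_map (D : RD m r ι) (f : R →+* R') (d : AD m r ι R) (κ : Fin r ⊕ ι) : (d.map f).b D κ = (d.b D κ).map f := by
  rcases κ with i | β
  · show D.H (Pi.single i 1) = (D.H (Pi.single i 1)).map f
    rw [H_map]
    congr 1
    funext j
    by_cases h : j = i
    · rw [h, Pi.single_eq_same, Pi.single_eq_same, map_one]
    · rw [Pi.single_eq_of_ne h, Pi.single_eq_of_ne h, map_zero]
  · rfl

theorem eS_map (D : RD m r ι) (f : R →+* R') (d : AD m r ι R) : (d.map f).eS D = (d.eS D).map f := by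
  unfold AD.eS
  exact (map_sum f.mapMatrix _ _).symm

/-- The value of the section, mapped by a ring homomorphism. -/
theorem Sv_map {R'' : Type*} [CommRing R''] (d : AD m r ι R) (f : R →+* R') (f' : R' →+* R'') (t : Fin r → R') :
    (d.Sv f t).map f' = d.Sv (f'.comp f) (fun i => f' (t i)) := by
  unfold AD.Sv
  ext a b
  exact MvPolynomial.hom_eval₂ _ _ _ _

/-- The same for an arbitrary matrix of polynomials. -/
theorem eval₂_mat_map {σ : Type*} {R'' : Type*} [CommRing R''] (M : Matrix (Fin m) (Fin m) (MvPolynomial σ R)) (f : R →+* R') (f' : R' →+* R'')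
    (t : σ → R') : (M.map (MvPolynomial.eval₂ f t)).map f' = M.map (MvPolynomial.eval₂ (f'.comp f) (fun i => f' (t i))) := by
  ext a b
  exact MvPolynomial.hom_eval₂ _ _ _ _

theorem eval₂_matP_map {R'' : Type*} [CommRing R''] (M : Matrix (Fin m) (Fin m) (Polynomial R)) (f : R →+* R') (f' : R' →+* R'')
    (c : R') : (M.map (Polynomial.eval₂ f c)).map f' = M.map (Polynomial.eval₂ (f'.comp f) (f' c)) := by
  ext a b
  exact Polynomial.hom_eval₂ _ _ _ _

private theorem ArA_dR_X (k : Fin m × Fin m) (X : Matrix (Fin m) (Fin m) R) :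
    dR (MvPolynomial.X k) X = X k.1 k.2 := by
  unfold dR
  rw [Finset.sum_eq_single k]
  · rw [MvPolynomial.pderiv_X_self]
    unfold evR
    rw [map_one, one_mul]
  · intro j _ hj
    rw [MvPolynomial.pderiv_X_of_ne hj.symm]
    unfold evR
    rw [map_zero, zero_mul]
  · intro h
    exact absurd (Finset.mem_univ k) h

private theorem ArA_dR_mul (P Q : MvPolynomial (Fin m × Fin m) R) (X : Matrix (Fin m) (Fin m) R) :
    dR (P * Q) X = dR P X * evR 1 Q + evR 1 P * dR Q X := by
  unfold dR
  rw [Finset.sum_mul, Finset.mul_sum, ← Finset.sum_add_distrib]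
  refine Finset.sum_congr rfl fun ij _ => ?_
  rw [MvPolynomial.pderiv_mul]
  unfold evR
  rw [map_add, map_mul, map_mul]
  ring

/-- Taylor's formula, first order: `P(1 + c X) = P(1) + c dP(X) + c² (...)`. (`MvPolynomial.induction_on`: for `C a`, `X ij` exact; products and sums. Or expand.) -/
theorem evR_taylor (P : MvPolynomial (Fin m × Fin m) R) (X : Matrix (Fin m) (Fin m) R) (c : R) :
    ∃ y : R, evR (1 + c • X) P = evR 1 P + c * dR P X + c ^ 2 * y := by
  induction P using MvPolynomial.induction_on with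
  | C a =>
    refine ⟨0, ?_⟩
    have h1 : dR (MvPolynomial.C a) X = 0 := by
      unfold dR
      refine Finset.sum_eq_zero fun ij _ => ?_
      rw [MvPolynomial.pderiv_C]
      unfold evR
      rw [map_zero, zero_mul]
    rw [h1]
    unfold evR
    rw [MvPolynomial.eval_C, MvPolynomial.eval_C]
    ring
  | add P Q hP hQ =>
    obtain ⟨y, hy⟩ := hP
    obtain ⟨z, hz⟩ := hQ
    refine ⟨y + z, ?_⟩
    have h1 : ∀ (Y : Matrix (Fin m) (Fin m) R) (P Q : MvPolynomial (Fin m × Fin m) R), evR Y (P + Q) = evR Y P + evR Y Q := by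
      intro Y P Q
      unfold evR
      rw [map_add]
    have h2 : dR (P + Q) X = dR P X + dR Q X := by
      unfold dR
      rw [← Finset.sum_add_distrib]
      refine Finset.sum_congr rfl fun ij _ => ?_
      rw [map_add, h1, add_mul]
    rw [h1, h1, h2, hy, hz]
    ring
  | mul_X P k hP =>
    obtain ⟨y, hy⟩ := hP
    refine ⟨y * (1 : Matrix (Fin m) (Fin m) R) k.1 k.2 + dR P X * X k.1 k.2 + c * y * X k.1 k.2, ?_⟩
    have h1 : ∀ Y : Matrix (Fin m) (Fin m) R, evR Y (P * MvPolynomial.X k) = evR Y P * Y k.1 k.2 := by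
      intro Y
      unfold evR
      rw [map_mul, MvPolynomial.eval_X]
    have h2 : evR (1 : Matrix (Fin m) (Fin m) R) (MvPolynomial.X k) = (1 : Matrix (Fin m) (Fin m) R) k.1 k.2 := by
      unfold evR
      rw [MvPolynomial.eval_X]
    rw [h1, h1, ArA_dR_mul, ArA_dR_X, h2, hy, Matrix.add_apply, Matrix.smul_apply, smul_eq_mul]
    ring

end WCn
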