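import Pool.Agent.Lib.MP_c2b80f_alE.UDefs
import Pool.Agent.Lib.MP_c2b80f_alC.HomZ
import Pool.Agent.Lib.MP_c2b80f_alC.ReachDefs

/-!
# Algebraic data over a ring

All the data which are needed at the primes, over a ring `R`, with base change. In the applications `R` is a countable subring `A` of `ℂ`, `ℤ_p`, the field with `p` elements, a finite field, and the Witt vectors.
-/

open Matrix

namespace WCn

variable {m r : ℕ} {ι : Type}

/-- The value of a polynomial in the entries, over any ring. -/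
noncomputable def evR {R : Type*} [CommRing R] (X : Matrix (Fin m) (Fin m) R) (P : MvPolynomial (Fin m × Fin m) R) : R :=
  MvPolynomial.eval (fun ij : Fin m × Fin m => X ij.1 ij.2) P

/-- The differential at `1` of `P` in the direction `X`. -/
noncomputable def dR {R : Type*} [CommRing R] (P : MvPolynomial (Fin m × Fin m) R) (X : Matrix (Fin m) (Fin m) R) : R :=
  ∑ ij : Fin m × Fin m, evR 1 (MvPolynomial.pderiv ij P) * X ij.1 ij.2

/-- Data over a ring `R`. `P`: equations of the group. `K`: see `Ok.proj`. `e`: root vectors. `z`: dual functionals `tr(z κ · )`. `S`, `U`, `V`: section. `x`: root groups. `E`, `F`: conjugation of `e + H(t)` to `H(t)`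
(polynomials in `t` and in the inverses of the roots). -/
structure AD (m r : ℕ) (ι : Type) (R : Type*) [CommRing R] where
  N : ℕ
  P : Fin N → MvPolynomial (Fin m × Fin m) R
  K : Fin N → Matrix (Fin m) (Fin m) R
  e : ι → Matrix (Fin m) (Fin m) R
  z : Fin r ⊕ ι → Matrix (Fin m) (Fin m) R
  S : Matrix (Fin m) (Fin m) (MvPolynomial (Fin r) R)
  x : ι → Matrix (Fin m) (Fin m) (Polynomial R)
  U : Matrix (Fin m) (Fin m) (MvPolynomial (Fin r) R)
  V : Matrix (Fin m) (Fin m) (MvPolynomial (Fin r) R)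
  E : Matrix (Fin m) (Fin m) (MvPolynomial (Fin r ⊕ ι) R)
  F : Matrix (Fin m) (Fin m) (MvPolynomial (Fin r ⊕ ι) R)

namespace AD

variable {R R' : Type*} [CommRing R] [CommRing R']

/-- Base change. -/
noncomputable def map (f : R →+* R') (d : AD m r ι R) : AD m r ι R' where
  N := d.N
  P i := MvPolynomial.map f (d.P i)
  K i := (d.K i).map f
  e β := (d.e β).map f
  z κ := (d.z κ).map f
  S := d.S.map (MvPolynomial.map f)
  x β := (d.x β).map (Polynomial.map f)
  U := d.U.map (MvPolynomial.map f)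
  V := d.V.map (MvPolynomial.map f)
  E := d.E.map (MvPolynomial.map f)
  F := d.F.map (MvPolynomial.map f)

/-- The basis of the Lie algebra: the diagonal matrices of the simple coroots, and the root vectors. -/
def b (D : RD m r ι) (d : AD m r ι R) : Fin r ⊕ ι → Matrix (Fin m) (Fin m) R
  | Sum.inl i => D.H (Pi.single i 1)
  | Sum.inr β => d.e β

/-- The Lie algebra over `R`. -/
def L (D : RD m r ι) (d : AD m r ι R) : Submodule R (Matrix (Fin m) (Fin m) R) := Submodule.span R (Set.range (d.b D))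

/-- The sum of the simple root vectors. -/
def eS (D : RD m r ι) (d : AD m r ι R) : Matrix (Fin m) (Fin m) R := ∑ i, d.e (D.simple i)

/-- The value of the section at `t`, in a ring `R'` over `R`. -/
noncomputable def Sv (d : AD m r ι R) (f : R →+* R') (t : Fin r → R') : Matrix (Fin m) (Fin m) R' := d.S.map (MvPolynomial.eval₂ f t)

/-- The identities which the data satisfy; they are preserved by base change. -/
structure Ok (D : RD m r ι) [Fintype ι] [DecidableEq ι] (d : AD m r ι R) : Prop where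
  P_one : ∀ i, evR 1 (d.P i) = 0
  /-- the projection to the Lie algebra -/
  proj : ∀ X : Matrix (Fin m) (Fin m) R, X = ∑ κ, (d.z κ * X).trace • d.b D κ + ∑ i, dR (d.P i) X • d.K i
  dual : ∀ κ κ', (d.z κ * d.b D κ').trace = if κ = κ' then 1 else 0
  S_lie : d.S = ∑ κ, ((d.z κ).map MvPolynomial.C * d.S).trace • (d.b D κ).map MvPolynomial.C
  S_inv : ∀ w ∈ D.W, d.S.map (MvPolynomial.bind₁ (act w (fun i => (MvPolynomial.X i : MvPolynomial (Fin r) R)))) = d.S

/-- The data over `A ⊆ ℂ` belong to the group `G` with root datum `D`. -/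
structure Of (G : Subgroup (SLC m)) (D : RD m r ι) [Fintype ι] [DecidableEq ι] {A : Subring ℂ} (d : AD m r ι A) : Prop where
  ok : d.Ok D
  e_eq : ∀ β, (d.e β).map A.subtype = D.e β
  mem_iff : ∀ g : SLC m, g ∈ G ↔ ∀ i, evR g.1 (MvPolynomial.map A.subtype (d.P i)) = 0
  x_zero : ∀ β a b, (d.x β a b).coeff 0 = (1 : Matrix (Fin m) (Fin m) A) a b
  x_one : ∀ β a b, (d.x β a b).coeff 1 = d.e β a b
  x_mem : ∀ β (c : ℂ), ∃ g ∈ G, g.1 = (d.x β).map (Polynomial.eval₂ A.subtype c)
  /-- `U(t) (e + H(t)) U(t)⁻¹ = e + S(t)` -/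
  sec : ∀ t : Fin r → ℂ, ∃ g ∈ G, g.1 = d.U.map (MvPolynomial.eval₂ A.subtype t) ∧ (g⁻¹).1 = d.V.map (MvPolynomial.eval₂ A.subtype t) ∧
    g.1 * (D.eS + D.H t) * (g⁻¹).1 = D.eS + d.Sv A.subtype t
  /-- `E(t, v) (e + H(t)) E(t, v)⁻¹ = H(t)` if `v β` is the inverse of `β(t)` -/
  conj : ∀ (t : Fin r → ℂ) (v : ι → ℂ), (∀ β, D.rt β t * v β = 1) → ∃ g ∈ G, g.1 = d.E.map (MvPolynomial.eval₂ A.subtype (Sum.elim t v)) ∧
    (g⁻¹).1 = d.F.map (MvPolynomial.eval₂ A.subtype (Sum.elim t v)) ∧ g.1 * (D.eS + D.H t) * (g⁻¹).1 = D.H t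

end AD

end WCn
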