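import Pool.Agent.Lib.MP_c2b80f_alE.ArDefs

/-!
# Levels of elements of the group are in the Lie algebra modulo `p` (job LvrD)
-/

open Matrix

namespace WCn

variable {m r : ℕ} {ι : Type}

/-- Values after base change (`MvPolynomial.eval_map`, `MvPolynomial.eval₂_comp_left` or induction). -/
theorem lvr_evR_map {R R' : Type*} [CommRing R] [CommRing R'] (f : R →+* R') (X : Matrix (Fin m) (Fin m) R) (P : MvPolynomial (Fin m × Fin m) R) :
    evR (X.map f) (MvPolynomial.map f P) = f (evR X P) := by
  unfold evR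
  rw [MvPolynomial.eval_map]
  exact (MvPolynomial.eval₂_comp_left f (RingHom.id R) (fun ij : Fin m × Fin m => X ij.1 ij.2) P).symm

/-- Differentials after base change (`MvPolynomial.pderiv_map`). -/
theorem lvr_dR_map {R R' : Type*} [CommRing R] [CommRing R'] (f : R →+* R') (X : Matrix (Fin m) (Fin m) R) (P : MvPolynomial (Fin m × Fin m) R) :
    dR (MvPolynomial.map f P) (X.map f) = f (dR P X) := by
  unfold dR
  rw [map_sum]
  refine Finset.sum_congr rfl fun ij _ => ?_
  rw [map_mul, MvPolynomial.pderiv_map, ← lvr_evR_map f 1, Matrix.map_one _ (map_zero f) (map_one f)]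
  rfl

/-- Taylor's formula at `1` up to second order, by `MvPolynomial.induction_on` (constants, sums, and multiplication by a variable `X_ij`: the value of `X_ij` at `1 + π Y` is `1_ij + π Y_ij`, the derivation property `pderiv_mul`). -/
theorem lvr_taylor {R : Type*} [CommRing R] (π : R) (Y : Matrix (Fin m) (Fin m) R) (P : MvPolynomial (Fin m × Fin m) R) :
    ∃ c : R, evR (1 + π • Y) P = evR 1 P + π * dR P Y + π ^ 2 * c := by
  induction P using MvPolynomial.induction_on with
  | C a =>
    refine ⟨0, ?_⟩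
    simp [evR, dR]
  | add P Q hP hQ =>
    obtain ⟨c, hc⟩ := hP
    obtain ⟨c', hc'⟩ := hQ
    refine ⟨c + c', ?_⟩
    have h1 : ∀ X : Matrix (Fin m) (Fin m) R, evR X (P + Q) = evR X P + evR X Q := fun X => map_add _ _ _
    have h2 : dR (P + Q) Y = dR P Y + dR Q Y := by
      unfold dR
      rw [← Finset.sum_add_distrib]
      refine Finset.sum_congr rfl fun ij _ => ?_
      rw [map_add]
      have h3 : evR 1 (MvPolynomial.pderiv ij P + MvPolynomial.pderiv ij Q) =
        evR 1 (MvPolynomial.pderiv ij P) + evR 1 (MvPolynomial.pderiv ij Q) := map_add _ _ _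
      rw [h3]
      ring
    rw [h1, h1, h2, hc, hc']
    ring
  | mul_X P ij hP =>
    obtain ⟨c, hc⟩ := hP
    have h1 : ∀ X : Matrix (Fin m) (Fin m) R, evR X (P * MvPolynomial.X ij) = evR X P * X ij.1 ij.2 := by
      intro X
      unfold evR
      rw [map_mul, MvPolynomial.eval_X]
    have h2 : dR (P * MvPolynomial.X ij) Y = dR P Y * (1 : Matrix (Fin m) (Fin m) R) ij.1 ij.2 + evR 1 P * Y ij.1 ij.2 := by
      unfold dR
      rw [Finset.sum_mul]
      have h3 : ∀ kl : Fin m × Fin m, evR 1 (MvPolynomial.pderiv kl (P * MvPolynomial.X ij)) * Y kl.1 kl.2 =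
          evR 1 (MvPolynomial.pderiv kl P) * Y kl.1 kl.2 * (1 : Matrix (Fin m) (Fin m) R) ij.1 ij.2 +
            (if kl = ij then evR 1 P * Y ij.1 ij.2 else 0) := by
        intro kl
        rw [Derivation.leibniz, MvPolynomial.pderiv_X]
        unfold evR
        rw [map_add, smul_eq_mul, smul_eq_mul, map_mul, map_mul, MvPolynomial.eval_X]
        by_cases h : kl = ij
        · subst h
          simp
          ring
        · rw [if_neg h]
          simp [Pi.single_apply, h, Ne.symm h]
          ring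
      rw [Finset.sum_congr rfl fun kl _ => h3 kl, Finset.sum_add_distrib, Finset.sum_ite_eq']
      simp
    rw [h1, h1, h2, hc, Matrix.add_apply, Matrix.smul_apply, smul_eq_mul]
    refine ⟨dR P Y * Y ij.1 ij.2 + c * ((1 : Matrix (Fin m) (Fin m) R) ij.1 ij.2 + π * Y ij.1 ij.2), ?_⟩
    ring

/-- The basis after base change. -/
theorem lvr_map_b {R R' : Type*} [CommRing R] [CommRing R'] (f : R →+* R') (D : RD m r ι) (d : AD m r ι R) (κ : Fin r ⊕ ι) :
    (d.map f).b D κ = (d.b D κ).map f := by
  cases κ with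
  | inl i =>
    ext a b
    simp only [AD.b, RD.H, Matrix.map_apply, Matrix.diagonal_apply]
    split_ifs with h
    · rw [map_sum]
      refine Finset.sum_congr rfl fun j _ => ?_
      rw [map_mul, map_intCast]
      congr 1
      simp only [Pi.single_apply]
      split_ifs
      · exact (map_one _).symm
      · exact (map_zero _).symm
    · exact (map_zero _).symm
  | inr β => rfl

variable [Fintype ι] [DecidableEq ι] {G : Subgroup (SLC m)} {D : RD m r ι}

/-- The projection to the Lie algebra after base change. Both sides are additive and homogeneous in `X`, so it is enough to take the matrices `X = Matrix.single a b 1 = (Matrix.single a b 1).map f` (`Matrix.matrix_eq_sum_single`), for which the identity is the image under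
`f` of `Ok.proj`. -/
theorem lvr_proj_map {R R' : Type*} [CommRing R] [CommRing R'] {d : AD m r ι R} (hd : d.Ok D) (f : R →+* R') (X : Matrix (Fin m) (Fin m) R') :
    X = ∑ κ, ((d.map f).z κ * X).trace • (d.map f).b D κ + ∑ i, dR ((d.map f).P i) X • (d.map f).K i := by
  let Φ : Matrix (Fin m) (Fin m) R' →ₗ[R'] Matrix (Fin m) (Fin m) R' :=
    { toFun := fun X => ∑ κ, ((d.map f).z κ * X).trace • (d.map f).b D κ + ∑ i, dR ((d.map f).P i) X • (d.map f).K i
      map_add' := by
        intro X Y
        have h1 : ∀ P : MvPolynomial (Fin m × Fin m) R', dR P (X + Y) = dR P X + dR P Y := by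
          intro P
          unfold dR
          rw [← Finset.sum_add_distrib]
          refine Finset.sum_congr rfl fun ij _ => ?_
          rw [Matrix.add_apply, mul_add]
        simp only [Matrix.mul_add, Matrix.trace_add, add_smul, h1, Finset.sum_add_distrib]
        abel
      map_smul' := by
        intro c X
        have h1 : ∀ P : MvPolynomial (Fin m × Fin m) R', dR P (c • X) = c * dR P X := by
          intro P
          unfold dR
          rw [Finset.mul_sum]
          refine Finset.sum_congr rfl fun ij _ => ?_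
          rw [Matrix.smul_apply, smul_eq_mul]
          ring
        simp only [Matrix.mul_smul, Matrix.trace_smul, smul_eq_mul, h1, mul_smul, ← Finset.smul_sum, ← smul_add, RingHom.id_apply] }
  suffices h : (LinearMap.id : Matrix (Fin m) (Fin m) R' →ₗ[R'] Matrix (Fin m) (Fin m) R') = Φ from LinearMap.congr_fun h X
  refine Matrix.ext_linearMap R' fun a b => ?_
  refine LinearMap.ext_ring ?_
  change Matrix.single a b 1 = Φ (Matrix.single a b 1)
  have h1 := congrArg (fun M : Matrix (Fin m) (Fin m) R => M.map f) (hd.proj (Matrix.single a b 1))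
  beta_reduce at h1
  have h2 : (Matrix.single a b (1 : R)).map f = Matrix.single a b (1 : R') := by
    rw [Matrix.map_single, map_one]
  have h3 : ∀ (X Y : Matrix (Fin m) (Fin m) R), (X + Y).map f = X.map f + Y.map f := fun X Y => Matrix.map_add f (map_add f) X Y
  have h4 : ∀ {κT : Type} (s : Finset κT) (g : κT → Matrix (Fin m) (Fin m) R), (∑ i ∈ s, g i).map f = ∑ i ∈ s, (g i).map f := by
    intro κT s g
    exact map_sum f.mapMatrix g s
  have h5 : ∀ (c : R) (X : Matrix (Fin m) (Fin m) R), (c • X).map f = f c • X.map f := fun c X => Matrix.map_smul' f c X (map_mul f)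
  have h6 : ∀ X : Matrix (Fin m) (Fin m) R, f X.trace = (X.map f).trace := by
    intro X
    simp only [Matrix.trace, Matrix.diag, Matrix.map_apply, map_sum]
  rw [h3, h4, h4, h2] at h1
  refine h1.trans ?_
  change _ = ∑ κ, ((d.map f).z κ * Matrix.single a b 1).trace • (d.map f).b D κ + ∑ i, dR ((d.map f).P i) (Matrix.single a b 1) • (d.map f).K i
  congr 1
  · refine Finset.sum_congr rfl fun κ _ => ?_
    rw [h5, h6, Matrix.map_mul, h2, lvr_map_b]
    rfl
  · refine Finset.sum_congr rfl fun i _ => ?_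
    rw [h5, ← lvr_dR_map, h2]
    rfl

/-- Proof. (1) For `g = ψ γ ∈ G`: `evR g (map A.subtype (P i)) = 0` (`Of.mem_iff`), so `evR (matA ψ A hA γ) (P i) = 0` (`homZ_matA_map`, `lvr_evR_map`, injectivity of `A.subtype`), so `evR (homZ ψ A hA p σ γ).1 (map σ (P i)) = 0` (`homZ` is `(matA ..).map σ`, `rfl`).
(2) `(homZ ..).1 = 1 + p ^ k • Y`, `Y.map toZMod = X`. `lvr_taylor` with `π = p ^ k`; `evR 1 (map σ (P i)) = σ (evR 1 (P i)) = 0` (`Ok.P_one`, `lvr_evR_map`, `Matrix.map_one`). Cancel `π ≠ 0` in the domain `ℤ_[p]`: `dR (map σ (P i)) Y = - π c`, so by reduction modulo `p` (`k ≥ 1`, `lvr_dR_map`,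
`MvPolynomial.map_map`) `dR ((d.map (toZMod.comp σ)).P i) X = 0`.
(3) `lvr_proj_map` gives `X = ∑ κ, tr(z κ X) • b κ`, which is in the span. -/
theorem lvr_lev_mem {A : Subring ℂ} {d : AD m r ι A} (hd : d.Of G D) {T : Type*} [Group T] (ψ : T →* SLC m) (hψ : ψ.range ≤ G)
    (hA : ∀ g i j, (ψ g).1 i j ∈ A) (p : ℕ) [Fact p.Prime] (σ : A →+* ℤ_[p]) (γ : T) {k : ℕ} (hk : 1 ≤ k)
    {X : Matrix (Fin m) (Fin m) (ZMod p)} (h : Lev k (homZ ψ A hA p σ γ) X) :
    X ∈ (d.map ((PadicInt.toZMod (p := p)).comp σ)).L D := by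
  obtain ⟨Y, hY, hYX⟩ := h
  have hgG : ψ γ ∈ G := hψ ⟨γ, rfl⟩
  have h1 : ∀ i, evR (matA ψ A hA γ) (d.P i) = 0 := by
    intro i
    have h2 := (hd.mem_iff (ψ γ)).1 hgG i
    rw [← homZ_matA_map ψ A hA γ, lvr_evR_map] at h2
    exact Subtype.ext h2
  have hp0 : (p : ℤ_[p]) ≠ 0 := by exact_mod_cast (Fact.out (p := p.Prime)).ne_zero
  have hd0 : ∀ i, dR ((d.map ((PadicInt.toZMod (p := p)).comp σ)).P i) X = 0 := by
    intro i
    have h2 : evR (homZ ψ A hA p σ γ).1 (MvPolynomial.map σ (d.P i)) = 0 := by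
      have h3 : (homZ ψ A hA p σ γ).1 = (matA ψ A hA γ).map σ := rfl
      rw [h3, lvr_evR_map, h1 i, map_zero]
    rw [hY] at h2
    obtain ⟨c, hc⟩ := lvr_taylor ((p : ℤ_[p]) ^ k) Y (MvPolynomial.map σ (d.P i))
    have h4 : evR (1 : Matrix (Fin m) (Fin m) ℤ_[p]) (MvPolynomial.map σ (d.P i)) = 0 := by
      have h5 := lvr_evR_map σ 1 (d.P i)
      rw [Matrix.map_one _ (map_zero σ) (map_one σ), hd.ok.P_one i, map_zero] at h5
      exact h5
    rw [h2, h4, zero_add] at hc
    have h6 : dR (MvPolynomial.map σ (d.P i)) Y = - ((p : ℤ_[p]) ^ k * c) := by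
      have h7 : (p : ℤ_[p]) ^ k * (dR (MvPolynomial.map σ (d.P i)) Y + (p : ℤ_[p]) ^ k * c) = 0 := by
        rw [mul_add, ← mul_assoc, ← pow_two]
        exact hc.symm
      have h8 := (mul_eq_zero.1 h7).resolve_left (pow_ne_zero k hp0)
      exact eq_neg_of_add_eq_zero_left h8
    have h9 := congrArg (PadicInt.toZMod (p := p)) h6
    rw [← lvr_dR_map, hYX, MvPolynomial.map_map, map_neg, map_mul, map_pow, map_natCast, ZMod.natCast_self,
      zero_pow (by omega), zero_mul, neg_zero] at h9
    exact h9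
  rw [lvr_proj_map hd.ok ((PadicInt.toZMod (p := p)).comp σ) X]
  have h10 : ∑ i, dR ((d.map ((PadicInt.toZMod (p := p)).comp σ)).P i) X • (d.map ((PadicInt.toZMod (p := p)).comp σ)).K i = 0 :=
    Finset.sum_eq_zero fun i _ => by rw [hd0 i, zero_smul]
  rw [h10, add_zero]
  exact Submodule.sum_mem _ fun κ _ => Submodule.smul_mem _ _ (Submodule.subset_span ⟨κ, rfl⟩)

end WCn
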