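import Pool.Agent.Lib.MP_c2b80f_alE.LvrS
import Pool.Agent.Lib.MP_c2b80f_alC.ReachA
import Pool.Agent.Lib.MP_c2b80f_alC.ReachB

/-!
# All elements of the Lie algebra modulo `p` are reachable (job LvrE)
-/

open Matrix

namespace WCn

variable {m r : ℕ} {ι : Type} [Fintype ι] [DecidableEq ι] {T : Type*} [Group T] [TopologicalSpace T] [IsTopologicalGroup T]
  {κT : Type*} [Fintype κT] [DecidableEq κT] (p : κT → ℕ) [hp : ∀ i, Fact (p i).Prime]
  (φ : ∀ i, T →* SLZ m (p i))

/-- Proof (compare `reach_allG` in `MP_c2b80f_alD/LvC.lean`). Let `X₀ ≠ 0` be reachable at level `k ≥ 1` (`exists_reach`); `X₀ ∈ span b` by `hlev` (applied to one of the elements), `X₀ = ∑ κ, x κ • b κ` (`Submodule.mem_span_range_iff_exists_fun`) with `x κ' ≠ 0` for some `κ'`.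
By `SpanR` for `κ κ'` (linearity in the third argument), `Reach.conj`, `Reach.smul`, `Reach.sum` the element `x κ' • b κ` is reachable at level `k`, so `b κ` is, for all `κ`; these span (`Submodule.span_induction`). -/
theorem reach_allR (hpinj : Function.Injective p) (s : ℕ) (hs : ∀ j (g : SLZ m (p j)), Cong 1 (g ^ s)) (γ₀ : T)
    (h0 : ∀ N : Subgroup T, N.FiniteIndex → γ₀ ∈ closure (N : Set T)) (i : κT) (hne : φ i (γ₀ ^ s) ≠ 1)
    (b : Fin r ⊕ ι → Matrix (Fin m) (Fin m) (ZMod (p i)))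
    (hlev : ∀ (γ : T) (k : ℕ) (X : Matrix (Fin m) (Fin m) (ZMod (p i))), 1 ≤ k → Lev k (φ i γ) X → X ∈ Submodule.span (ZMod (p i)) (Set.range b))
    (hspan : SpanR p φ i b) :
    ∃ k : ℕ, 1 ≤ k ∧ ∀ X ∈ Submodule.span (ZMod (p i)) (Set.range b), Reach p φ i k X := by
  classical
  obtain ⟨k, X₀, hk, hX₀, hR⟩ := exists_reach p φ hpinj s hs γ₀ h0 i hne
  refine ⟨k, hk, ?_⟩
  obtain ⟨γ, -, -, hL⟩ := hR Set.univ Filter.univ_mem 0
  have hX₀L := hlev γ k X₀ hk hL
  obtain ⟨x, hx⟩ := (Submodule.mem_span_range_iff_exists_fun (ZMod (p i))).1 hX₀L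
  obtain ⟨κ', hκ'⟩ : ∃ κ', x κ' ≠ 0 := by
    by_contra hcon
    push Not at hcon
    apply hX₀
    rw [← hx]
    refine Finset.sum_eq_zero fun κ _ => ?_
    rw [hcon κ, zero_smul]
  have h1 : ∀ κ, Reach p φ i k (b κ) := by
    intro κ
    obtain ⟨t, c, hc⟩ := hspan κ κ'
    have h2 : Reach p φ i k (x κ' • b κ) := by
      have h3 : ∑ γ ∈ t, c γ • ((red (φ i γ)).1 * X₀ * ((red (φ i γ))⁻¹).1) = x κ' • b κ := by
        have h4 : ∀ γ ∈ t, c γ • ((red (φ i γ)).1 * X₀ * ((red (φ i γ))⁻¹).1) =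
            ∑ κ'', x κ'' • (c γ • ((red (φ i γ)).1 * b κ'' * ((red (φ i γ))⁻¹).1)) := by
          intro γ _
          rw [← hx, Matrix.mul_sum, Matrix.sum_mul, Finset.smul_sum]
          refine Finset.sum_congr rfl fun κ'' _ => ?_
          rw [Matrix.mul_smul, Matrix.smul_mul, smul_comm]
        rw [Finset.sum_congr rfl h4, Finset.sum_comm]
        have h5 : ∀ κ'', ∑ γ ∈ t, x κ'' • (c γ • ((red (φ i γ)).1 * b κ'' * ((red (φ i γ))⁻¹).1)) =
            if κ' = κ'' then x κ' • b κ else 0 := by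
          intro κ''
          rw [← Finset.smul_sum, hc κ'']
          split_ifs with h
          · rw [h]
          · rw [smul_zero]
        rw [Finset.sum_congr rfl fun κ'' _ => h5 κ'', Finset.sum_ite_eq]
        simp
      rw [← h3]
      exact Reach.sum p φ hk t _ fun δ _ => Reach.smul p φ hk (Reach.conj p φ hR δ) (c δ)
    have h3 := Reach.smul p φ hk h2 (x κ')⁻¹
    rwa [smul_smul, inv_mul_cancel₀ hκ', one_smul] at h3
  intro X hX
  induction hX using Submodule.span_induction with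
  | mem y hy =>
    obtain ⟨κ, rfl⟩ := hy
    exact h1 κ
  | zero => exact Reach.zero p φ i k
  | add x y _ _ hx hy => exact Reach.add p φ hk hx hy
  | smul a x _ hx => exact Reach.smul p φ hk hx a

end WCn
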