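import Mathlib

/-!
# Finitely generated rings are countable (job LvrF)
-/

namespace WCn

/-- `Subring.closure A₁` is the range of `MvPolynomial.aeval` on `MvPolynomial A₁ ℤ` (`Algebra.adjoin_int`, `Algebra.adjoin_range_eq_range_aeval`, `Subtype.range_coe`), and polynomials over `ℤ` in finitely many variables are countable (`AddMonoidAlgebra`, `Finsupp.countable`; unfold `MvPolynomial`). -/
theorem lvr_countable (A₁ : Finset ℂ) : Countable (Subring.closure (A₁ : Set ℂ)) := by
  have h1 : Algebra.adjoin ℤ (A₁ : Set ℂ) = subalgebraOfSubring (Subring.closure (A₁ : Set ℂ)) := Algebra.adjoin_int _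
  have h2 : Algebra.adjoin ℤ (A₁ : Set ℂ) = (MvPolynomial.aeval (fun a : A₁ => (a : ℂ)) : MvPolynomial A₁ ℤ →ₐ[ℤ] ℂ).range := by
    rw [← Algebra.adjoin_range_eq_range_aeval]
    congr 1
    ext x
    simp
  have h3 : Countable (MvPolynomial A₁ ℤ) := by
    have h7 : Function.Injective (AddMonoidAlgebra.coeff : AddMonoidAlgebra ℤ (A₁ →₀ ℕ) → ((A₁ →₀ ℕ) →₀ ℤ)) := by
      intro P Q h
      cases P
      cases Q
      exact congrArg _ h
    exact Function.Injective.countable h7
  have h4 : (Set.range (MvPolynomial.aeval (fun a : A₁ => (a : ℂ)) : MvPolynomial A₁ ℤ →ₐ[ℤ] ℂ)).Countable := Set.countable_range _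
  have h5 : (Subring.closure (A₁ : Set ℂ) : Set ℂ).Countable := by
    have h8 : ((subalgebraOfSubring (Subring.closure (A₁ : Set ℂ)) : Subalgebra ℤ ℂ) : Set ℂ).Countable := by
      rw [← h1, h2]
      exact h4
    exact h8
  exact h5.to_subtype

end WCn
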