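import Pool.Agent.Lib.MP_c2b80f_alC.EmbC

/-!
# Different primes (job LvrG)
-/

namespace WCn

/-- Different primes with embeddings, indexed by a finite type.
Proof (as in `exists_levels`, file `MP_c2b80f_alD/LvE.lean`). `choose pr hpr hgt σ hσ using exists_padic_embedding A₁`; `q 0 = P₀`, `q (n + 1) = pr (q n)`; `q` is strictly increasing. Let `e : J ≃ Fin n` (`Finite.exists_equiv_fin`) and `p j = pr (q (e j))`. -/
theorem lvr_primes (A₁ : Finset ℂ) (P₀ : ℕ) (J : Type) [Finite J] :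
    ∃ (p : J → ℕ) (_ : ∀ j, Fact (p j).Prime) (σ : ∀ j, Subring.closure (A₁ : Set ℂ) →+* ℤ_[p j]),
      Function.Injective p ∧ (∀ j, P₀ < p j) ∧ ∀ j, Function.Injective (σ j) := by
  choose pr hpr hgt σ hσ using exists_padic_embedding A₁
  obtain ⟨q, hq0, hq1⟩ : ∃ q : ℕ → ℕ, q 0 = P₀ ∧ ∀ n, q (n + 1) = pr (q n) :=
    ⟨fun n => Nat.rec P₀ (fun _ x => pr x) n, rfl, fun _ => rfl⟩
  have hqm : StrictMono q := strictMono_nat_of_lt_succ fun n => by
    rw [hq1]
    exact hgt (q n)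
  have hqge : ∀ n, P₀ ≤ q n := fun n => by
    rw [← hq0]
    exact hqm.monotone (Nat.zero_le n)
  obtain ⟨n, ⟨e⟩⟩ := Finite.exists_equiv_fin J
  refine ⟨fun j => pr (q (e j)), fun j => hpr (q (e j)), fun j => σ (q (e j)), ?_, fun j => (hqge _).trans_lt (hgt _), fun j => hσ _⟩
  intro i j hij
  have h1 : q ((e i : ℕ) + 1) = q ((e j : ℕ) + 1) := by
    rw [hq1, hq1]
    exact hij
  have h2 := hqm.injective h1
  exact e.injective (Fin.ext (by omega))

end WCn
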