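import Pool.Agent.Lib.MP_c2b80f_alC.HomZ
import Pool.Agent.Lib.MP_c2b80f_alC.ReachS
import Pool.Agent.Lib.MP_c2b80f_alC.LevB

/-!
# Levels in an open set (job LvrH)
-/

open Matrix

namespace WCn

variable {m : ℕ}

/-- Proof (the last part of `exists_levels`, file `MP_c2b80f_alD/LvE.lean`). Let `N ≤ T` be the subgroup of finite index of all `γ` with `Cong (k i + 1) (φ i γ)` for all `i` (`congSub`, `Subgroup.comap`, `Subgroup.finiteIndex_iInf`); choose `δ ∈ U ∩ N`. The set `{v | δ * v ∈ U}` is a neighbourhood of `1`;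
`Reach.simultaneous` gives `v` in it with the levels `X i`; put `γ = δ * v` (`lev_of_cong`, `Lev.mul`). -/
theorem lvr_open {T : Type*} [Group T] [TopologicalSpace T] [IsTopologicalGroup T] {κT : Type*} [Finite κT] (p : κT → ℕ)
    [hp : ∀ i, Fact (p i).Prime] (φ : ∀ i, T →* SLZ m (p i)) (k : κT → ℕ) (hk : ∀ i, 1 ≤ k i)
    (X : ∀ i, Matrix (Fin m) (Fin m) (ZMod (p i))) (hR : ∀ i, Reach p φ i (k i) (X i))
    (U : Set T) (hUo : IsOpen U) (hU : ∀ N : Subgroup T, N.FiniteIndex → ∃ δ ∈ U, δ ∈ N) :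
    ∃ γ ∈ U, ∀ i, Lev (k i) (φ i γ) (X i) := by
  classical
  have hft : Fintype κT := Fintype.ofFinite κT
  have hfin : ∀ i : κT, ((congSub m (p i) (k i + 1)).comap (φ i)).FiniteIndex := fun i => by
    have h1 := congSub_finiteIndex (m := m) (p := p i) (k i + 1)
    rw [Subgroup.finiteIndex_iff, Subgroup.index_comap]
    exact fun h => h1.index_ne_zero (Subgroup.index_eq_zero_of_relIndex_eq_zero h)
  obtain ⟨δ, hδU, hδN⟩ := hU (⨅ i : κT, (congSub m (p i) (k i + 1)).comap (φ i)) (Subgroup.finiteIndex_iInf hfin)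
  have hnh : {v : T | δ * v ∈ U} ∈ nhds (1 : T) := by
    have h1 : Continuous fun v : T => δ * v := continuous_const.mul continuous_id
    refine (hUo.preimage h1).mem_nhds ?_
    change δ * 1 ∈ U
    rw [mul_one]
    exact hδU
  obtain ⟨v, hv, hlv⟩ := Reach.simultaneous p φ k hk X hR {v : T | δ * v ∈ U} hnh
  refine ⟨δ * v, hv, fun i => ?_⟩
  have h1 : Lev (k i) (φ i δ) 0 := by
    apply lev_of_cong
    rw [← mem_congSub]
    have h2 := (Subgroup.mem_iInf.1 hδN) i
    exact Subgroup.mem_comap.1 h2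
  have h3 := Lev.mul (hk i) h1 (hlv i)
  rw [zero_add] at h3
  rw [map_mul]
  exact h3

/-- One exponent for finitely many primes: the product of the numbers of `exists_expo`. -/
theorem lvr_expo {κT : Type*} [Finite κT] (p : κT → ℕ) [hp : ∀ i, Fact (p i).Prime] :
    ∃ s : ℕ, 0 < s ∧ ∀ i (g : SLZ m (p i)), Cong 1 (g ^ s) := by
  classical
  have hft : Fintype κT := Fintype.ofFinite κT
  choose e he0 he using fun i : κT => exists_expo m (p i)
  refine ⟨∏ i, e i, Finset.prod_pos fun i _ => he0 i, fun j g => ?_⟩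
  obtain ⟨t, ht⟩ : e j ∣ ∏ i, e i := Finset.dvd_prod_of_mem e (Finset.mem_univ j)
  rw [ht, mul_comm, pow_mul]
  exact he j _

end WCn
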