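import Pool.Agent.Lib.MP_c2b80f_alE.LvrB

/-!
# A finite set of coefficients (job LvrC)
-/

open Matrix

namespace WCn

variable {m r : ℕ} {ι : Type}

/-- The basis of the Lie algebra given by the root datum. -/
def RD.bL (D : RD m r ι) : Fin r ⊕ ι → Matrix (Fin m) (Fin m) ℂ
  | Sum.inl i => D.H (Pi.single i 1)
  | Sum.inr β => D.e β

variable [Fintype ι] [DecidableEq ι] {G : Subgroup (SLC m)} {D : RD m r ι}

/-- `∑ κ, x κ • bC κ = H t + ∑ β, y β • e β` (`Fintype.sum_sum_type`; `D.H` is linear in `t`: `∑ i, t i • D.H (Pi.single i 1) = D.H t`). -/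
theorem lvr_bC_sum (D : RD m r ι) (x : Fin r ⊕ ι → ℂ) :
    ∑ κ, x κ • D.bL κ = D.H (fun i => x (Sum.inl i)) + ∑ β, x (Sum.inr β) • D.e β := by
  rw [Fintype.sum_sum_type]
  congr 1
  ext a b
  simp only [RD.bL, RD.H, Matrix.sum_apply, Matrix.smul_apply, Matrix.diagonal_apply, smul_eq_mul]
  split_ifs with h
  · refine Finset.sum_congr rfl fun i _ => ?_
    rw [Finset.sum_eq_single i]
    · rw [Pi.single_eq_same]
      ring
    · intro j _ hj
      rw [Pi.single_eq_of_ne hj, mul_zero]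
    · intro h
      exact absurd (Finset.mem_univ i) h
  · simp

/-- The `bC κ` are a basis of the Lie algebra (`IsRD.mem_iff`, `IsRD.indep`, `lvr_bC_sum`): `Basis.mk` in the space `tanG G`. -/
theorem lvr_basis (hD : IsRD G D) : ∃ b : Module.Basis (Fin r ⊕ ι) ℂ (tanG G), ∀ κ, (b κ).1 = D.bL κ := by
  classical
  have hmem : ∀ κ, D.bL κ ∈ tanG G := by
    intro κ
    have h1 := lvr_bC_sum D (Pi.single κ 1)
    rw [Finset.sum_eq_single κ (fun κ' _ h => by rw [Pi.single_eq_of_ne h, zero_smul]) (fun h => absurd (Finset.mem_univ κ) h),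
      Pi.single_eq_same, one_smul] at h1
    exact (hD.mem_iff _).2 ⟨_, _, h1⟩
  let v : Fin r ⊕ ι → tanG G := fun κ => ⟨D.bL κ, hmem κ⟩
  have hv : LinearIndependent ℂ v := by
    rw [Fintype.linearIndependent_iff]
    intro x hx κ
    have h1 : ∑ κ, x κ • D.bL κ = 0 := by
      have h2 := congrArg (fun y : tanG G => (y : Matrix (Fin m) (Fin m) ℂ)) hx
      simp only [AddSubmonoidClass.coe_finsetSum] at h2
      exact h2
    rw [lvr_bC_sum] at h1
    obtain ⟨h3, h4⟩ := hD.indep _ _ h1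
    cases κ with
    | inl i => exact congrFun h3 i
    | inr β => exact congrFun h4 β
  have hs : ⊤ ≤ Submodule.span ℂ (Set.range v) := by
    rintro ⟨X, hX⟩ -
    obtain ⟨t, x, h1⟩ := (hD.mem_iff X).1 hX
    rw [Submodule.mem_span_range_iff_exists_fun]
    refine ⟨Sum.elim t x, ?_⟩
    apply Subtype.ext
    rw [AddSubmonoidClass.coe_finsetSum]
    have h2 := lvr_bC_sum D (Sum.elim t x)
    simp only [Sum.elim_inl, Sum.elim_inr] at h2
    exact h2.trans h1.symm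
  refine ⟨Module.Basis.mk hv hs, fun κ => ?_⟩
  rw [Module.Basis.mk_apply]

/-- Operators of rank one: from `lvr_basis` and `lvr_AdS` with `f = b.constr` (`f (b κ'') = if κ' = κ'' then b κ else 0`). -/
theorem lvr_op (hG : AlmostSimple G) (hD : IsRD G D) (κ κ' : Fin r ⊕ ι) :
    ∃ T ∈ AdS (G : Set (SLC m)), ∀ κ'', T (D.bL κ'') = if κ' = κ'' then D.bL κ else 0 := by
  obtain ⟨b, hb⟩ := lvr_basis hD
  obtain ⟨T, hT, h1⟩ := lvr_AdS hG (b.constr ℂ (fun κ'' => if κ' = κ'' then b κ else 0))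
  refine ⟨T, hT, fun κ'' => ?_⟩
  have h2 := h1 (b κ'')
  rw [Module.Basis.constr_basis, hb] at h2
  rw [h2]
  split_ifs
  · exact hb κ
  · rfl

/-- `T ∈ AdS G = AdS Γ` (`AdS_of_zDenseIn`) is a finite sum `∑ c g • Ad g`, `g ∈ Γ`; put the coefficients for all (finitely many) pairs `κ κ'` into `A₁`. Copy the proof of `exists_ringG` in `MP_c2b80f_alD/LvR.lean`. -/
theorem exists_coeffR {Γ : Subgroup (SLC m)} (hG : AlmostSimple G) (hD : IsRD G D) (hz : ZDenseIn G Γ) (A₀ : Finset ℂ) :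
    ∃ A₁ : Finset ℂ, A₀ ⊆ A₁ ∧ ∀ κ κ', ∃ (s : Finset (SLC m)) (c : SLC m → ℂ), (∀ g ∈ s, g ∈ Γ ∧ c g ∈ A₁) ∧
      ∀ κ'', ∑ g ∈ s, c g • (g.1 * D.bL κ'' * (g⁻¹).1) = if κ' = κ'' then D.bL κ else 0 := by
  classical
  have hex : ∀ q : (Fin r ⊕ ι) × (Fin r ⊕ ι), ∃ (s : Finset (SLC m)) (c : SLC m → ℂ), (∀ g ∈ s, g ∈ Γ) ∧
      ∀ κ'', ∑ g ∈ s, c g • (g.1 * D.bL κ'' * (g⁻¹).1) = if q.2 = κ'' then D.bL q.1 else 0 := by
    intro q
    obtain ⟨T, hT, h3⟩ := lvr_op hG hD q.1 q.2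
    rw [← AdS_of_zDenseIn hz] at hT
    unfold AdS at hT
    rw [Finsupp.mem_span_image_iff_linearCombination] at hT
    obtain ⟨l, hl, hsum⟩ := hT
    refine ⟨l.support, l, fun g hg => (Finsupp.mem_supported ℂ l).1 hl hg, fun κ'' => ?_⟩
    have h4 := congrArg (fun T : Matrix (Fin m) (Fin m) ℂ →ₗ[ℂ] Matrix (Fin m) (Fin m) ℂ => T (D.bL κ'')) hsum
    simp only [Finsupp.linearCombination_apply, Finsupp.sum, LinearMap.sum_apply, LinearMap.smul_apply] at h4
    rw [h3 κ''] at h4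
    exact h4
  choose s c hs hc using hex
  refine ⟨A₀ ∪ Finset.univ.biUnion (fun q => (s q).image (c q)), Finset.subset_union_left, ?_⟩
  intro κ κ'
  refine ⟨s (κ, κ'), c (κ, κ'), fun g hg => ⟨hs _ g hg, ?_⟩, hc (κ, κ')⟩
  apply Finset.mem_union_right
  rw [Finset.mem_biUnion]
  exact ⟨(κ, κ'), Finset.mem_univ _, Finset.mem_image_of_mem _ hg⟩

end WCn
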