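import Pool.Agent.Lib.MP_c2b80f_alE.ArDefs
import Pool.Agent.Lib.MP_c2b80f_alE.LvrC
import Pool.Agent.Lib.MP_c2b80f_alE.LvrD

/-!
# Reduction modulo `p` (job LvrS)
-/

open Matrix

namespace WCn

variable {m r : ℕ} {ι : Type}

private theorem LvrS_sum {R S : Type*} [CommRing R] [CommRing S] (f : R →+* S) {κT : Type*} (s : Finset κT) (c : κT → R)
    (g h : κT → Matrix (Fin m) (Fin m) R) (Y : Matrix (Fin m) (Fin m) R) :
    f.mapMatrix (∑ a ∈ s, c a • (g a * Y * h a)) =
      ∑ a ∈ s, f (c a) • (f.mapMatrix (g a) * f.mapMatrix Y * f.mapMatrix (h a)) := by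
  rw [map_sum]
  refine Finset.sum_congr rfl fun a _ => ?_
  rw [← map_mul, ← map_mul]
  exact Matrix.map_smul' f (c a) _ (map_mul f)

/-- The conjugations by the reductions of the elements of `T` span the operators of rank one in the basis `b`. -/
def SpanR {T : Type*} [Group T] {κT : Type*} (p : κT → ℕ) [hp : ∀ i, Fact (p i).Prime] (φ : ∀ i, T →* SLZ m (p i)) (i : κT)
    (b : Fin r ⊕ ι → Matrix (Fin m) (Fin m) (ZMod (p i))) : Prop :=
  ∀ κ κ', ∃ (s : Finset T) (c : T → ZMod (p i)), ∀ κ'',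
    ∑ γ ∈ s, c γ • ((red (φ i γ)).1 * b κ'' * ((red (φ i γ))⁻¹).1) = (open Classical in if κ' = κ'' then b κ else 0)

variable [Fintype ι] [DecidableEq ι] {G : Subgroup (SLC m)} {D : RD m r ι}

/-- The basis over `A` becomes the basis over `ℂ`. -/
theorem lvr_b_map {A : Subring ℂ} {d : AD m r ι A} (hd : d.Of G D) (κ : Fin r ⊕ ι) : (d.b D κ).map A.subtype = D.bL κ := by
  cases κ with
  | inl i =>
    ext a b
    simp only [AD.b, RD.bL, RD.H, Matrix.map_apply, Matrix.diagonal_apply]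
    split_ifs with h
    · rw [map_sum]
      refine Finset.sum_congr rfl fun j _ => ?_
      rw [map_mul, map_intCast]
      congr 1
      simp only [Pi.single_apply]
      split_ifs
      · exact map_one _
      · exact map_zero _
    · exact map_zero _
  | inr β => exact hd.e_eq β

/-- Proof. As `spanG_of_ring` in `MP_c2b80f_alD/LvS.lean`: the identity `∑ c g • (g (bC κ'') g⁻¹) = if .. then bC κ else 0` is an identity between matrices with entries in `A` (`lvr_b_map`, `matA`); apply the ring homomorphism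
`PadicInt.toZMod ∘ σ i` (`lvr_map_b`). -/
theorem spanR_of_ring {T : Type*} [Group T] (ψ : T →* SLC m) {κT : Type*} (p : κT → ℕ) [hp : ∀ i, Fact (p i).Prime]
    (A : Subring ℂ) (hA : ∀ g i j, (ψ g).1 i j ∈ A) (d : AD m r ι A) (hd : d.Of G D)
    (hop : ∀ κ κ', ∃ (s : Finset (SLC m)) (c : SLC m → ℂ), (∀ g ∈ s, g ∈ ψ.range ∧ c g ∈ A) ∧
      ∀ κ'', ∑ g ∈ s, c g • (g.1 * D.bL κ'' * (g⁻¹).1) = if κ' = κ'' then D.bL κ else 0)
    (σ : ∀ i, A →+* ℤ_[p i]) (i : κT) :
    SpanR p (fun i => homZ ψ A hA (p i) (σ i)) i ((d.map ((PadicInt.toZMod (p := p i)).comp (σ i))).b D) := by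
  classical
  intro κ κ'
  obtain ⟨s, c, hs, hid⟩ := hop κ κ'
  obtain ⟨τ, hτ⟩ : ∃ τ : A →+* ZMod (p i), τ = (PadicInt.toZMod (p := p i)).comp (σ i) := ⟨_, rfl⟩
  have hsec : ∀ g : SLC m, ∃ γ : T, g ∈ s → ψ γ = g := by
    intro g
    by_cases hg : g ∈ s
    · obtain ⟨γ, hγ⟩ := (hs g hg).1
      exact ⟨γ, fun _ => hγ⟩
    · exact ⟨1, fun h => absurd h hg⟩
  choose sec hsec using hsec
  have hcA : ∀ g : SLC m, ∃ z : A, g ∈ s → (z : ℂ) = c g := by
    intro g
    by_cases hg : g ∈ s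
    · exact ⟨⟨c g, (hs g hg).2⟩, fun _ => rfl⟩
    · exact ⟨0, fun h => absurd h hg⟩
  choose cA hcA using hcA
  have hmat : ∀ γ : T, A.subtype.mapMatrix (matA ψ _ hA γ) = (ψ γ).1 := by
    intro γ
    ext a b
    rfl
  have hred : ∀ γ : T, (red (homZ ψ A hA (p i) (σ i) γ)).1 = τ.mapMatrix (matA ψ _ hA γ) := by
    intro γ
    ext a b
    rw [hτ]
    change PadicInt.toZMod ((homZ ψ A hA (p i) (σ i) γ).1 a b) = _
    rw [homZ_apply]
    rfl
  have hred' : ∀ γ : T, ((red (homZ ψ A hA (p i) (σ i) γ))⁻¹).1 = τ.mapMatrix (matA ψ _ hA γ⁻¹) := by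
    intro γ
    rw [← hred, map_inv]
    congr 1
    exact (map_inv (Matrix.SpecialLinearGroup.map (PadicInt.toZMod (p := p i))) _).symm
  have hbC : ∀ κ : Fin r ⊕ ι, A.subtype.mapMatrix (d.b D κ) = D.bL κ := fun κ => lvr_b_map hd κ
  have hidA : ∀ κ'', ∑ g ∈ s, cA g • (matA ψ _ hA (sec g) * d.b D κ'' * matA ψ _ hA (sec g)⁻¹) =
      if κ' = κ'' then d.b D κ else 0 := by
    intro κ''
    have hinj : Function.Injective (A.subtype.mapMatrix (m := Fin m)) := by
      intro M N hMN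
      ext a b
      exact congrFun (congrFun hMN a) b
    apply hinj
    have h1 : A.subtype.mapMatrix (if κ' = κ'' then d.b D κ else 0) = if κ' = κ'' then D.bL κ else 0 := by
      split_ifs
      · exact hbC κ
      · exact map_zero _
    rw [LvrS_sum, hbC, h1, ← hid κ'']
    refine Finset.sum_congr rfl fun g hg => ?_
    rw [hmat, hmat, map_inv, hsec g hg]
    rw [← hcA g hg]
    rfl
  refine ⟨s.image sec, fun γ => τ (cA (ψ γ)), fun κ'' => ?_⟩
  rw [Finset.sum_image (fun g hg g' hg' h => by rw [← hsec g hg, ← hsec g' hg', h])]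
  have h2 := congrArg (fun M => τ.mapMatrix M) (hidA κ'')
  beta_reduce at h2
  rw [LvrS_sum] at h2
  have h3 : τ.mapMatrix (if κ' = κ'' then d.b D κ else 0) =
      if κ' = κ'' then (d.map ((PadicInt.toZMod (p := p i)).comp (σ i))).b D κ else 0 := by
    split_ifs
    · rw [lvr_map_b, hτ]
      rfl
    · exact map_zero _
  rw [h3] at h2
  refine Eq.trans ?_ (h2.trans ?_)
  · refine Finset.sum_congr rfl fun g hg => ?_
    beta_reduce
    rw [hred, hred', hsec g hg, lvr_map_b, ← hτ]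
    rfl
  · split_ifs
    · rfl
    · rfl

end WCn
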