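import Pool.Agent.Lib.MP_c2b80f_alE.JhB
import Pool.Agent.Lib.MP_c2b80f_alE.LvrS
import Pool.Agent.Lib.MP_c2b80f_alE.LvrD
import Pool.Agent.Lib.MP_c2b80f_alE.LvrE
import Pool.Agent.Lib.MP_c2b80f_alE.LvrF
import Pool.Agent.Lib.MP_c2b80f_alE.LvrG
import Pool.Agent.Lib.MP_c2b80f_alE.LvrH

/-!
# Existence of elements with prescribed levels (job LvrI)
-/

open Matrix

namespace WCn

variable {m r : ℕ} {ι : Type} [Fintype ι] [DecidableEq ι] {G : Subgroup (SLC m)} {D : RD m r ι}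

/-- `exists_levelsR` with `exists_data` as a hypothesis.
Proof (compare `exists_levels` in `MP_c2b80f_alD/LvE.lean`). `exists_coeffR` for `Γ = ψ.range` gives `A₁`; `hdata` for `A₁` gives `A₂ ⊇ A₁` and `d`. `A' = Subring.closure A₂`. `IsRD.weyl_finite`, `lvr_primes` (`J = D.W`). `φ w = homZ ψ A' _ (p w) (σ w)`, injective (`homZ_injective`).
`lvr_expo` gives `s`, `h0 s` gives `γ₀`; `reach_allR` with `b = (d.map _).b D` (`AD.L` is the span of its range by definition), `hlev` = `lvr_lev_mem`, `hspan` = `spanR_of_ring`. Then `lvr_open`. -/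
theorem exists_levelsR' (hG : AlmostSimple G) (hD : IsRD G D)
    (hdata : ∀ A₀ : Finset ℂ, ∃ A₁ : Finset ℂ, A₀ ⊆ A₁ ∧ ∃ d : AD m r ι (Subring.closure (A₁ : Set ℂ)), d.Of G D)
    (T : Type) [Group T] [TopologicalSpace T] [IsTopologicalGroup T] (ψ : T →* SLC m) (hψ : Function.Injective ψ)
    (hz : ZDenseIn G ψ.range) (A₀ : Finset ℂ) (hA : ∀ g i j, (ψ g).1 i j ∈ Subring.closure (A₀ : Set ℂ))
    (h0 : ∀ s : ℕ, 0 < s → ∃ γ₀ : T, γ₀ ^ s ≠ 1 ∧ ∀ N : Subgroup T, N.FiniteIndex → γ₀ ∈ closure (N : Set T))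
    (U : Set T) (hUo : IsOpen U) (hU : ∀ N : Subgroup T, N.FiniteIndex → ∃ δ ∈ U, δ ∈ N) (P₀ : ℕ) :
    ∃ (A' : Subring ℂ) (_ : Subring.closure (A₀ : Set ℂ) ≤ A') (_ : Countable A') (d : AD m r ι A') (_ : d.Of G D)
      (hA' : ∀ g i j, (ψ g).1 i j ∈ A') (p : D.W → ℕ)
      (_ : ∀ w, Fact (p w).Prime) (σ : ∀ w, A' →+* ℤ_[p w]), (∀ w, P₀ < p w) ∧ (∀ w, Function.Injective (σ w)) ∧
      ∀ X : ∀ w, Matrix (Fin m) (Fin m) (ZMod (p w)), (∀ w, X w ∈ (d.map ((PadicInt.toZMod (p := p w)).comp (σ w))).L D) →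
        ∃ k : D.W → ℕ, (∀ w, 1 ≤ k w) ∧ ∃ γ ∈ U, ∀ w, Lev (k w) (homZ ψ A' hA' (p w) (σ w) γ) (X w) := by
  classical
  obtain ⟨A₁, hA01, hop⟩ := exists_coeffR (Γ := ψ.range) hG hD hz A₀
  obtain ⟨A₂, hA12, d, hd⟩ := hdata A₁
  have hsub : Subring.closure (A₀ : Set ℂ) ≤ Subring.closure (A₂ : Set ℂ) :=
    Subring.closure_mono fun a ha => hA12 (hA01 ha)
  have hA' : ∀ g i j, (ψ g).1 i j ∈ Subring.closure (A₂ : Set ℂ) := fun g i j => hsub (hA g i j)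
  have hcount : Countable (Subring.closure (A₂ : Set ℂ)) := lvr_countable A₂
  have hWfin : Finite D.W := hD.weyl_finite
  have hWft : Fintype D.W := Fintype.ofFinite _
  obtain ⟨p, hp, σ, hpinj, hpP, hσ⟩ := lvr_primes A₂ P₀ D.W
  refine ⟨Subring.closure (A₂ : Set ℂ), hsub, hcount, d, hd, hA', p, hp, σ, hpP, hσ, ?_⟩
  intro X hX
  obtain ⟨s, hs0, hs⟩ := lvr_expo (m := m) p
  obtain ⟨γ₀, hγs, hγN⟩ := h0 s hs0
  have hop' : ∀ κ κ', ∃ (s : Finset (SLC m)) (c : SLC m → ℂ), (∀ g ∈ s, g ∈ ψ.range ∧ c g ∈ Subring.closure (A₂ : Set ℂ)) ∧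
      ∀ κ'', ∑ g ∈ s, c g • (g.1 * D.bL κ'' * (g⁻¹).1) = if κ' = κ'' then D.bL κ else 0 := by
    intro κ κ'
    obtain ⟨s, c, h1, h2⟩ := hop κ κ'
    exact ⟨s, c, fun g hg => ⟨(h1 g hg).1, Subring.subset_closure (hA12 (h1 g hg).2)⟩, h2⟩
  have hreach : ∀ w : D.W, ∃ k : ℕ, 1 ≤ k ∧ ∀ Y ∈ (d.map ((PadicInt.toZMod (p := p w)).comp (σ w))).L D,
      Reach p (fun w => homZ ψ (Subring.closure (A₂ : Set ℂ)) hA' (p w) (σ w)) w k Y := by
    intro w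
    refine reach_allR p (fun w => homZ ψ (Subring.closure (A₂ : Set ℂ)) hA' (p w) (σ w)) hpinj s hs γ₀ hγN w ?_
      ((d.map ((PadicInt.toZMod (p := p w)).comp (σ w))).b D) ?_
      (spanR_of_ring ψ p (Subring.closure (A₂ : Set ℂ)) hA' d hd hop' σ w)
    · intro h
      refine hγs (homZ_injective ψ hψ _ hA' (p w) (σ w) (hσ w) ?_)
      rw [map_one]
      exact h
    · intro γ k Y hk hY
      exact lvr_lev_mem hd ψ hz.1 hA' (p w) (σ w) γ hk hY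
  choose k hk hR using hreach
  refine ⟨k, hk, ?_⟩
  exact lvr_open p (fun w => homZ ψ (Subring.closure (A₂ : Set ℂ)) hA' (p w) (σ w)) k hk X (fun w => hR w (X w) (hX w)) U hUo hU

end WCn
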