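import Pool.Agent.Lib.MP_c2b80f_alE.JhI
import Pool.Agent.Lib.MP_c2b80f_alE.LvrI
import Pool.Agent.Lib.MP_c2b80f_alC.LevC

/-!
# Groups with a root datum have generic elements (job LvrJ)
-/

open Matrix

namespace WCn

variable {m r : ℕ} {ι : Type} [Fintype ι] [DecidableEq ι] {G : Subgroup (SLC m)} {D : RD m r ι}

/-- Elements with a nonzero level have infinite order: `Lev.pow_ne_one`, `isOfFinOrder_iff_pow_eq_one`. -/
theorem not_isOfFinOrder_of_lev' {p : ℕ} [Fact p.Prime] {T : Type} [Group T] (φ : T →* SLZ m p) (γ : T) {k : ℕ} (hk : 1 ≤ k)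
    (hp : 2 < p) {X : Matrix (Fin m) (Fin m) (ZMod p)} (hX : X ≠ 0) (h : Lev k (φ γ) X) : ¬ IsOfFinOrder γ := by
  intro hfin
  have h1 : IsOfFinOrder (φ γ) := MonoidHom.isOfFinOrder φ hfin
  rw [isOfFinOrder_iff_pow_eq_one] at h1
  obtain ⟨n, hn, h2⟩ := h1
  exact Lev.pow_ne_one (by omega) hk hX h n hn h2

/-- Groups with a root datum have generic elements (with `exists_data` and `exists_target` as hypotheses).
Proof. `P₀` from `htarget`; `exists_levelsR'` with `max P₀ 2`. For `w : D.W` let `X w` be the `X₀` of `htarget` (`choose`). This gives `γ ∈ U` with the levels `X w`. `ψ γ` is not of finite order (`not_isOfFinOrder_of_lev'` at the prime for `w = 1`, and `ψ` injective: `MonoidHom.isOfFinOrder` or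
`isOfFinOrder_iff_pow_eq_one`). `PlaceAt G D A' (ψ γ) w` for all `w ∈ D.W` by the property of `X₀`. Apply `genEl_of_places'` with `A = Subring.closure A₀`. -/
theorem hasGen_of_isRD' (hG : AlmostSimple G) (hD : IsRD G D)
    (hdata : ∀ A₀ : Finset ℂ, ∃ A₁ : Finset ℂ, A₀ ⊆ A₁ ∧ ∃ d : AD m r ι (Subring.closure (A₁ : Set ℂ)), d.Of G D)
    (htarget : ∃ P₀ : ℕ, ∀ (A : Subring ℂ) [Countable A] (d : AD m r ι A), d.Of G D → ∀ (p : ℕ) [Fact p.Prime], P₀ < p →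
      ∀ σ : A →+* ℤ_[p], Function.Injective σ → ∀ w ∈ D.W,
        ∃ X₀ ∈ (d.map ((PadicInt.toZMod (p := p)).comp σ)).L D, X₀ ≠ 0 ∧
          ∀ (T : Type) [Group T] (ψ : T →* SLC m), ψ.range ≤ G → ∀ (hA : ∀ g i j, (ψ g).1 i j ∈ A) (γ : T) (k : ℕ), 1 ≤ k →
            Lev k (homZ ψ A hA p σ γ) X₀ → PlaceAt G D A (ψ γ) w) : HasGen r G := by
  obtain ⟨P₀, hP⟩ := htarget
  intro T _ _ _ ψ hψ hz A₀ hA h0 U hUo hU
  obtain ⟨A', hAA, hcount, d, hd, hA', p, hp, σ, hpP, hσ, hlev⟩ :=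
    exists_levelsR' hG hD hdata T ψ hψ hz A₀ hA h0 U hUo hU (max P₀ 2)
  have hex : ∀ w : D.W, ∃ X₀ ∈ (d.map ((PadicInt.toZMod (p := p w)).comp (σ w))).L D, X₀ ≠ 0 ∧
      ∀ (T : Type) [Group T] (ψ : T →* SLC m), ψ.range ≤ G → ∀ (hA : ∀ g i j, (ψ g).1 i j ∈ A') (γ : T) (k : ℕ), 1 ≤ k →
        Lev k (homZ ψ A' hA (p w) (σ w) γ) X₀ → PlaceAt G D A' (ψ γ) w := fun w =>
    hP A' d hd (p w) ((le_max_left _ _).trans_lt (hpP w)) (σ w) (hσ w) w.1 w.2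
  choose X hXL hX0 hXP using hex
  obtain ⟨k, hk, γ, hγU, hγ⟩ := hlev X hXL
  refine ⟨γ, hγU, ?_⟩
  refine genEl_of_places' hG hD _ A' hAA (ψ γ) (fun i j => hA' γ i j) ?_ ?_
  · intro hfin
    have h1 : IsOfFinOrder γ := (hψ.isOfFinOrder_iff (f := ψ)).1 hfin
    exact not_isOfFinOrder_of_lev' (homZ ψ A' hA' (p 1) (σ 1)) γ (hk 1) ((le_max_right _ _).trans_lt (hpP 1)) (hX0 1) (hγ 1) h1
  · intro w hw
    exact hXP ⟨w, hw⟩ T ψ hz.1 hA' γ (k ⟨w, hw⟩) (hk _) (hγ ⟨w, hw⟩)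

end WCn
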