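import Pool.Agent.Lib.MP_c2b80f_alE.HsD

/-!
# The Hensel argument: the limit (job HsE)
-/

open Matrix

namespace WCn

variable {m r : ℕ} {ι : Type} [Fintype ι] [DecidableEq ι] {G : Subgroup (SLC m)} {D : RD m r ι} {p : ℕ} [Fact p.Prime] {A : Subring ℂ} {σ : A →+* ℤ_[p]}
  {O k : Type} [CommRing O] [IsDomain O] [Field k] [Algebra (ZMod p) k]

/-- Start with `g₀` and `z i = 1 + p ^ l t i` (`unit_one_add`, `Tz_one_add`), iterate `hensel_step` for `n = 0, 1, 2, ...`. The matrices converge to an element `g` of `G(O)` (`cg_limit`, `GO_limit`), the `z i` to elements of `O` (`compl`) which are congruent to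
`1` modulo `p`, so units (`res_unit`), with the same congruence (`n ≥ l`). `γ g = g Tz z`: modulo `p ^ (n + 1)` both sides are congruent to `γ g_n`, `g_n Tz z_n` (`Tz_congr`), and `γ g_n = g_n (g_n⁻¹ γ g_n)`; `cg_sep`. -/
theorem WD.hensel (W : WD p A σ O k) (hG : ZClosed G) (hD : IsRD G D) {d : AD m r ι A} (hd : d.Of G D) {l : ℕ} (hl : 1 ≤ l)
    {γ : Matrix.SpecialLinearGroup (Fin m) O} (hγ : γ ∈ W.GO G) (t : Fin r → O) (v : ι → O) (hv : ∀ β, D.rt β t * v β = 1)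
    {g₀ : Matrix.SpecialLinearGroup (Fin m) O} (hg₀ : g₀ ∈ W.GO G) (h : Cg p (l + 1) (g₀⁻¹ * γ * g₀).1 (1 + (p : O) ^ l • D.H t)) :
    ∃ g ∈ W.GO G, ∃ z : Fin r → Oˣ, (∀ i, ∃ y, (z i : O) = 1 + (p : O) ^ l * t i + (p : O) ^ (l + 1) * y) ∧ γ.1 * g.1 = g.1 * D.Tz z := by
  classical
  let St : ℕ → Type := fun n => {x : Matrix.SpecialLinearGroup (Fin m) O × (Fin r → Oˣ) //
    x.1 ∈ W.GO G ∧ (∀ i, ∃ y, (x.2 i : O) = 1 + (p : O) ^ l * t i + (p : O) ^ (l + 1) * y) ∧ Cg p (l + n + 1) (x.1⁻¹ * γ * x.1).1 (D.Tz x.2)}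
  have hstep : ∀ n (x : St n), ∃ x' : St (n + 1), Cg p (n + 1) x'.1.1.1 x.1.1.1 ∧ ∀ i, ∃ y, (x'.1.2 i : O) = x.1.2 i + (p : O) ^ (n + 1) * y := by
    rintro n ⟨⟨g, z⟩, hg, hz, hc⟩
    obtain ⟨g', hg', z', hz', h1, h2, h3⟩ := W.hensel_step hG hD hd hl hγ t v hv hg z hz hc
    exact ⟨⟨⟨g', z'⟩, hg', hz', h3⟩, h1, h2⟩
  choose nx hnx1 hnx2 using hstep
  have hex : ∀ i, ∃ u : Oˣ, (u : O) = 1 + (p : O) ^ l * t i := fun i => W.unit_one_add hl (t i)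
  choose z₀ hz₀ using hex
  have hz₀' : ∀ i, ∃ y, (z₀ i : O) = 1 + (p : O) ^ l * t i + (p : O) ^ (l + 1) * y := fun i => ⟨0, by rw [hz₀, mul_zero, add_zero]⟩
  let x₀ : St 0 := ⟨⟨g₀, z₀⟩, hg₀, hz₀', h.trans (W.Tz_one_add D hl t z₀ hz₀').symm⟩
  let u : ∀ n, St n := fun n => Nat.rec x₀ (fun n x => nx n x) n
  have hu : ∀ n, u (n + 1) = nx n (u n) := fun n => rfl
  have hc1 : ∀ n, Cg p (n + 1) (u (n + 1)).1.1.1 (u n).1.1.1 := fun n => by
    rw [hu]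
    exact hnx1 n (u n)
  have hc2 : ∀ n i, ∃ y, ((u (n + 1)).1.2 i : O) - (u n).1.2 i = (p : O) ^ (n + 1) * y := fun n i => by
    rw [hu]
    obtain ⟨y, hy⟩ := hnx2 n (u n) i
    exact ⟨y, by rw [hy]; ring⟩
  obtain ⟨lm, hlm⟩ := W.cg_limit (fun n => (u n).1.1.1) hc1
  obtain ⟨g, hg, hgl⟩ := W.GO_limit hd (fun n => (u n).1.1) (fun n => (u n).2.1) lm hlm
  have hZ : ∀ i, ∃ L, ∀ n, ∃ y, L - ((u n).1.2 i : O) = (p : O) ^ (n + 1) * y := fun i => W.compl (fun n => ((u n).1.2 i : O)) fun n => hc2 n i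
  choose Z hZ using hZ
  have hZunit : ∀ i, IsUnit (Z i) := by
    intro i
    refine W.res_unit _ ?_
    obtain ⟨y, hy⟩ := hZ i 0
    obtain ⟨y', hy'⟩ := (u 0).2.2.1 i
    have h1 : Z i = 1 + (p : O) ^ l * t i + (p : O) ^ (l + 1) * y' + (p : O) ^ (0 + 1) * y := by
      rw [← hy', ← hy]
      ring
    rw [h1, map_add, map_add, map_add, map_mul, map_mul, map_mul, map_pow, map_pow, map_pow, W.res_p, zero_pow (by omega), zero_pow (by omega),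
      zero_pow (by omega), map_one]
    simp
  obtain ⟨z, hz⟩ : ∃ z : Fin r → Oˣ, ∀ i, (z i : O) = Z i := ⟨fun i => (hZunit i).unit, fun i => rfl⟩
  refine ⟨g, hg, z, ?_, ?_⟩
  · intro i
    obtain ⟨y, hy⟩ := hZ i l
    obtain ⟨y', hy'⟩ := (u l).2.2.1 i
    refine ⟨y' + y, ?_⟩
    rw [hz]
    linear_combination hy + hy'
  · refine W.cg_sep fun n => ?_
    have h1 : Cg p (n + 1) g.1 (u n).1.1.1 := by
      rw [hgl]
      exact hlm n
    have h2 : Cg p (n + 1) (γ.1 * g.1) (γ.1 * (u n).1.1.1) := (Cg.refl _ _ _).mul h1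
    have h3 : γ.1 * (u n).1.1.1 = (u n).1.1.1 * ((u n).1.1⁻¹ * γ * (u n).1.1).1 := by
      rw [← Matrix.SpecialLinearGroup.coe_mul, ← Matrix.SpecialLinearGroup.coe_mul]
      congr 1
      group
    have h4 : Cg p (n + 1) ((u n).1.1⁻¹ * γ * (u n).1.1).1 (D.Tz (u n).1.2) := Cg.mono (by omega) (u n).2.2.2
    have h5 : Cg p (n + 1) (D.Tz z) (D.Tz (u n).1.2) := by
      refine W.Tz_congr D z (u n).1.2 fun i => ?_
      obtain ⟨y, hy⟩ := hZ i n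
      refine ⟨y, ?_⟩
      rw [hz]
      linear_combination hy
    rw [h3] at h2
    have h6 : Cg p (n + 1) (γ.1 * g.1) (g.1 * D.Tz z) :=
      h2.trans (((Cg.refl _ _ _).mul h4).trans (h1.mul h5).symm)
    exact Cg.mono (Nat.le_succ n) h6

end WCn
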