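import Pool.Agent.Lib.MP_c2b80f_alE.HsB

/-!
# The start of the Hensel argument (job HsF)
-/

open Matrix

namespace WCn

variable {m r : ℕ} {ι : Type} [Fintype ι] [DecidableEq ι] {G : Subgroup (SLC m)} {D : RD m r ι} {p : ℕ} [Fact p.Prime] {A : Subring ℂ} {σ : A →+* ℤ_[p]}
  {O k : Type} [CommRing O] [IsDomain O] [Field k] [Algebra (ZMod p) k]

/-- `AD.Of.sec` at the point `J ∘ t` and `AD.Of.conj` at `(J ∘ t, J ∘ v)` give elements of `G(O)` (`exists_GO`, `eval₂_mat_map`, `J_s`; `J (Sum.elim t v x) = Sum.elim (J ∘ t) (J ∘ v) x`), `g₁ (e + H t) g₁⁻¹ = e + S(t)`, `g₂ (e + H t) g₂⁻¹ = H t` over `O`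
(`J` is injective; `H_map`, `Sv_map`; `D.eS` is the image of `d.eS D` by `e_eq`). Put `g₀ = g₁ g₂⁻¹`. -/
theorem WD.exists_g0 (W : WD p A σ O k) {d : AD m r ι A} (hd : d.Of G D) (t : Fin r → O) (v : ι → O) (hv : ∀ β, D.rt β t * v β = 1) :
    ∃ g₀ ∈ W.GO G, (g₀⁻¹).1 * ((d.eS D).map W.s + d.Sv W.s t) * g₀.1 = D.H t := by
  have hmapinj : ∀ M N : Matrix (Fin m) (Fin m) O, M.map W.J = N.map W.J → M = N := by
    intro M N h
    ext a b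
    exact W.J_inj (congrFun (congrFun h a) b)
  have hs : ∀ X : Matrix (Fin m) (Fin m) A, (X.map W.s).map W.J = X.map A.subtype := by
    intro X
    rw [Matrix.map_map, ← W.J_s]
    rfl
  have heS : ((d.eS D).map W.s).map W.J = D.eS := by
    rw [hs]
    unfold AD.eS RD.eS
    have h1 : (∑ i, d.e (D.simple i)).map A.subtype = ∑ i, (d.e (D.simple i)).map A.subtype := map_sum A.subtype.mapMatrix (fun i => d.e (D.simple i)) Finset.univ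
    rw [h1]
    exact Finset.sum_congr rfl fun i _ => hd.e_eq _
  have hadd : ∀ X Y : Matrix (Fin m) (Fin m) O, (X + Y).map W.J = X.map W.J + Y.map W.J := fun X Y => Matrix.map_add W.J (map_add W.J) X Y
  have hconj : ∀ (g : Matrix.SpecialLinearGroup (Fin m) O) (g' : SLC m), g'.1 = g.1.map W.J → ∀ X : Matrix (Fin m) (Fin m) O,
      (g.1 * X * (g⁻¹).1).map W.J = g'.1 * X.map W.J * (g'⁻¹).1 := by
    intro g g' hgg X
    have h1 : Matrix.SpecialLinearGroup.map W.J g = g' := Subtype.ext hgg.symm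
    have h2 : (g⁻¹).1.map W.J = (g'⁻¹).1 := by
      rw [← h1, ← map_inv]
      rfl
    rw [Matrix.map_mul, Matrix.map_mul, h2, hgg]
  obtain ⟨a, ha, ha1, -, ha2⟩ := hd.sec (fun i => W.J (t i))
  have hv' : ∀ β, D.rt β (fun i => W.J (t i)) * W.J (v β) = 1 := by
    intro β
    rw [← rt_map, ← map_mul, hv, map_one]
  obtain ⟨b, hb, hb1, -, hb2⟩ := hd.conj (fun i => W.J (t i)) (fun β => W.J (v β)) hv'
  obtain ⟨g₁, hg₁, hg₁1⟩ := W.exists_GO (d.U.map (MvPolynomial.eval₂ W.s t)) ha (by rw [eval₂_mat_map, W.J_s, ha1])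
  obtain ⟨g₂, hg₂, hg₂1⟩ := W.exists_GO (d.E.map (MvPolynomial.eval₂ W.s (Sum.elim t v))) hb (by
    rw [eval₂_mat_map, W.J_s, hb1]
    congr 2
    funext x
    cases x <;> rfl)
  have h1 : g₁.1 * ((d.eS D).map W.s + D.H t) * (g₁⁻¹).1 = (d.eS D).map W.s + d.Sv W.s t := by
    apply hmapinj
    rw [hconj g₁ a (by rw [hg₁1, eval₂_mat_map, W.J_s, ha1]), hadd, hadd, heS, H_map, Sv_map, W.J_s]
    exact ha2
  have h2 : g₂.1 * ((d.eS D).map W.s + D.H t) * (g₂⁻¹).1 = D.H t := by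
    apply hmapinj
    rw [hconj g₂ b (by
      rw [hg₂1, eval₂_mat_map, W.J_s, hb1]
      congr 2
      funext x
      cases x <;> rfl), hadd, heS, H_map]
    exact hb2
  refine ⟨g₁ * g₂⁻¹, (W.GO G).mul_mem hg₁ ((W.GO G).inv_mem hg₂), ?_⟩
  have h3 : ((g₁ * g₂⁻¹)⁻¹).1 = g₂.1 * (g₁⁻¹).1 := by
    rw [_root_.mul_inv_rev, inv_inv, Matrix.SpecialLinearGroup.coe_mul]
  have h4 : (g₁ * g₂⁻¹).1 = g₁.1 * (g₂⁻¹).1 := Matrix.SpecialLinearGroup.coe_mul _ _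
  have h5 : (g₁⁻¹).1 * g₁.1 = 1 := by
    rw [← Matrix.SpecialLinearGroup.coe_mul, inv_mul_cancel]
    rfl
  rw [h3, h4, ← h1]
  obtain ⟨X, hX⟩ : ∃ X, X = (d.eS D).map W.s + D.H t := ⟨_, rfl⟩
  rw [← hX] at h2 ⊢
  obtain ⟨a1, ha1⟩ : ∃ a1 : Matrix (Fin m) (Fin m) O, a1 = g₁.1 := ⟨_, rfl⟩
  obtain ⟨b1, hb1⟩ : ∃ b1 : Matrix (Fin m) (Fin m) O, b1 = (g₁⁻¹).1 := ⟨_, rfl⟩
  rw [← ha1, ← hb1] at h5 ⊢
  calc g₂.1 * b1 * (a1 * X * b1) * (a1 * (g₂⁻¹).1) = g₂.1 * (b1 * a1) * X * (b1 * a1) * (g₂⁻¹).1 := by simp only [Matrix.mul_assoc]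
    _ = D.H t := by rw [h5, Matrix.mul_one, Matrix.mul_one, h2]

/-- `g₀⁻¹ (1 + p ^ l S₀) g₀ = 1 + p ^ l g₀⁻¹ S₀ g₀`. -/
theorem WD.hensel_base (W : WD p A σ O k) {d : AD m r ι A} (hd : d.Of G D) {l : ℕ}
    {γ : Matrix.SpecialLinearGroup (Fin m) O} (t : Fin r → O) (v : ι → O) (hv : ∀ β, D.rt β t * v β = 1) (S₀ : Matrix (Fin m) (Fin m) O)
    (hγ : γ.1 = 1 + (p : O) ^ l • S₀) (hS : Cg p 1 S₀ ((d.eS D).map W.s + d.Sv W.s t)) :
    ∃ g₀ ∈ W.GO G, Cg p (l + 1) (g₀⁻¹ * γ * g₀).1 (1 + (p : O) ^ l • D.H t) := by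
  obtain ⟨g₀, hg₀, h1⟩ := W.exists_g0 hd t v hv
  refine ⟨g₀, hg₀, ?_⟩
  have h2 : (g₀⁻¹).1 * g₀.1 = 1 := by
    rw [← Matrix.SpecialLinearGroup.coe_mul, inv_mul_cancel]
    rfl
  have h3 : (g₀⁻¹ * γ * g₀).1 = 1 + (p : O) ^ l • ((g₀⁻¹).1 * S₀ * g₀.1) := by
    rw [Matrix.SpecialLinearGroup.coe_mul, Matrix.SpecialLinearGroup.coe_mul, hγ, Matrix.mul_add, Matrix.mul_one, Matrix.add_mul, h2, Matrix.mul_smul, Matrix.smul_mul]
  rw [h3]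
  have h4 : Cg p 1 ((g₀⁻¹).1 * S₀ * g₀.1) (D.H t) := by
    rw [← h1]
    exact ((Cg.refl _ _ _).mul hS).mul (Cg.refl _ _ _)
  exact (Cg.refl _ _ _).add (Cg.smul l h4)

/-- Otherwise `H t ≡ 0` modulo `p` by `exists_g0`, so `t i ≡ 0` (`AD.Ok.trace_H` for `d.map W.s` or `d.map W.q`), so `rt β t ≡ 0` for a root `β` (`IsRD.pos`, `D.simple`), but `rt β t` is a unit. -/
theorem WD.X0_ne (W : WD p A σ O k) (hD : IsRD G D) {d : AD m r ι A} (hd : d.Of G D) (t : Fin r → O) (v : ι → O) (hv : ∀ β, D.rt β t * v β = 1) :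
    ¬ Cg p 1 ((d.eS D).map W.s + d.Sv W.s t) 0 := by
  intro hc
  obtain ⟨g₀, hg₀, h1⟩ := W.exists_g0 hd t v hv
  have h2 : Cg p 1 (D.H t) 0 := by
    rw [← h1]
    have h3 := ((Cg.refl p 1 (g₀⁻¹).1).mul hc).mul (Cg.refl p 1 g₀.1)
    rw [Matrix.mul_zero, Matrix.zero_mul] at h3
    exact h3
  rw [W.cg_one_iff, H_map, Matrix.map_zero _ (map_zero W.res)] at h2
  have h3 : ∀ i, W.res (t i) = 0 := by
    intro i
    have h4 := (hd.ok.map W.q).trace_H (fun i => W.res (t i)) i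
    rw [h2, Matrix.mul_zero, Matrix.trace_zero] at h4
    exact h4.symm
  have h5 := congrArg W.res (hv (D.simple ⟨0, hD.pos⟩))
  rw [map_mul, rt_map, map_one] at h5
  have h6 : D.rt (D.simple ⟨0, hD.pos⟩) (fun i => W.res (t i)) = 0 := by
    unfold RD.rt
    exact Finset.sum_eq_zero fun i _ => by
      beta_reduce
      rw [h3 i, mul_zero]
  rw [h6, zero_mul] at h5
  exact zero_ne_one h5

end WCn
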