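import Pool.Agent.Lib.MP_c2b80f_alE.PlB

/-!
# The datum at a place (job PlC)
-/

open Matrix

set_option linter.unusedSectionVars false

namespace WCn

variable {m r : ℕ} {ι : Type} [Fintype ι] [DecidableEq ι] {G : Subgroup (SLC m)} {D : RD m r ι} {p : ℕ} [Fact p.Prime] {A : Subring ℂ} {σ : A →+* ℤ_[p]}
  {O k : Type} [CommRing O] [IsDomain O] [Field k] [Algebra (ZMod p) k]

private theorem PlC_inv_mul {R : Type*} [CommRing R] (g : Matrix.SpecialLinearGroup (Fin m) R) : (g⁻¹).1 * g.1 = 1 := by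
  rw [← Matrix.SpecialLinearGroup.coe_mul, inv_mul_cancel]
  rfl

private theorem PlC_mul_inv {R : Type*} [CommRing R] (g : Matrix.SpecialLinearGroup (Fin m) R) : g.1 * (g⁻¹).1 = 1 := by
  rw [← Matrix.SpecialLinearGroup.coe_mul, mul_inv_cancel]
  rfl

/-- `n = g⁻¹ φ(g) ∈ G(O)` (`GO_phi`), `Tz z n = n φ(Tz z)` because `γ g = g Tz z` and `φ(γ) = γ`. By `WD.normalizes` and `normalizer_weyl` it acts by some `w' ∈ D.W`; `WD.frob_weights`. In `PlaceAt`: `τ = W.τ` (fixes `A`: `a = J (s a)`, `τ_J`, `φ_f`), the element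
`g` is the image of `g`, `y a` is the image under `J` of `∏ i, z i ^ wt a i`; `y a = y b` implies `res (∑ (wt a i - wt b i) t i) = 0` (`prod_ne_one`), so `wt a = wt b` by `hsep`; the relations: `∏ j, (∏ i, z i ^ wt j i) ^ d j = ∏ i, z i ^ (∑ j, d j * wt j i)`. -/
theorem WD.placeAt (W : WD p A σ O k) (hG : AlmostSimple G) (hD : IsRD G D) {d : AD m r ι A} (hd : d.Of G D) {l : ℕ} (hl : 1 ≤ l) (t : Fin r → O)
    (htr : ∀ β, W.res (D.rt β t) ≠ 0) {w : GL (Fin r) ℤ} (hw : w ∈ D.W)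
    (ht : ∀ i, W.res (t i) ^ p = act w (fun i => W.res (t i)) i) (hst : ∀ w' ∈ D.W, act w' (fun i => W.res (t i)) = (fun i => W.res (t i)) → w' = 1)
    (hsep : ∀ a b, ∑ i, (D.wt a i : k) * W.res (t i) = ∑ i, (D.wt b i : k) * W.res (t i) → D.wt a = D.wt b)
    {γ g : Matrix.SpecialLinearGroup (Fin m) O} (hγφ : Matrix.SpecialLinearGroup.map W.φ γ = γ) (hg : g ∈ W.GO G) (z : Fin r → Oˣ)
    (hz : ∀ i, ∃ y, (z i : O) = 1 + (p : O) ^ l * t i + (p : O) ^ (l + 1) * y) (h : γ.1 * g.1 = g.1 * D.Tz z)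
    (γC : SLC m) (hγC : Matrix.SpecialLinearGroup.map W.J γ = γC) : PlaceAt G D A γC w := by
  classical
  set gφ : Matrix.SpecialLinearGroup (Fin m) O := Matrix.SpecialLinearGroup.map W.φ g with hgφ
  have hgφG : gφ ∈ W.GO G := W.GO_phi hd hg
  have hnG : g⁻¹ * gφ ∈ W.GO G := (W.GO G).mul_mem ((W.GO G).inv_mem hg) hgφG
  have hφ : γ.1 * gφ.1 = gφ.1 * (D.Tz z).map W.φ := by
    have h1 := congrArg (fun M : Matrix (Fin m) (Fin m) O => M.map W.φ) h
    simp only [Matrix.map_mul] at h1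
    have h2 : γ.1.map W.φ = γ.1 := congrArg Subtype.val hγφ
    rw [h2] at h1
    exact h1
  have hTz : D.Tz z = (g⁻¹).1 * γ.1 * g.1 := by
    rw [Matrix.mul_assoc, h, ← Matrix.mul_assoc, PlC_inv_mul, Matrix.one_mul]
  have hT : D.Tz z * (g⁻¹ * gφ).1 = (g⁻¹ * gφ).1 * (D.Tz z).map W.φ := by
    rw [Matrix.SpecialLinearGroup.coe_mul]
    calc D.Tz z * ((g⁻¹).1 * gφ.1) = (g⁻¹).1 * γ.1 * (g.1 * (g⁻¹).1) * gφ.1 := by
          rw [hTz]; simp only [Matrix.mul_assoc]
      _ = (g⁻¹).1 * (γ.1 * gφ.1) := by rw [PlC_mul_inv, Matrix.mul_one, Matrix.mul_assoc]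
      _ = (g⁻¹).1 * gφ.1 * (D.Tz z).map W.φ := by rw [hφ, Matrix.mul_assoc]
  have hN := fun s : Fin r → ℂ => W.normalizes hD hl t htr z hz hnG hT s
  obtain ⟨w', hw', hact⟩ := normalizer_weyl hG hD (Matrix.SpecialLinearGroup.map W.J (g⁻¹ * gφ)) hnG hN
  have hfrob := W.frob_weights hd hl t z hz hw ht hst hT hw' hact
  refine ⟨W.τ, Matrix.SpecialLinearGroup.map W.J g, fun a => Units.map (W.J : O →* ℂ) (∏ i, z i ^ D.wt a i), hg, ?_, ?_, ?_, ?_, ?_⟩
  · intro a ha
    have h1 := W.J_f ⟨a, ha⟩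
    have h2 : W.τ (W.J (W.f (σ ⟨a, ha⟩))) = W.J (W.f (σ ⟨a, ha⟩)) := by rw [W.τ_J, W.φ_f]
    rw [h1] at h2
    exact h2
  · have h1 := congrArg (fun M : Matrix (Fin m) (Fin m) O => M.map W.J) h
    simp only [Matrix.map_mul] at h1
    have h2 : γC.1 = γ.1.map W.J := (congrArg Subtype.val hγC).symm
    have h3 : (D.Tz z).map W.J = Matrix.diagonal fun a => ((Units.map (W.J : O →* ℂ) (∏ i, z i ^ D.wt a i) : ℂˣ) : ℂ) := by
      unfold RD.Tz
      rw [Matrix.diagonal_map (map_zero W.J)]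
      rfl
    rw [h3] at h1
    calc γC.1 = γ.1.map W.J * ((Matrix.SpecialLinearGroup.map W.J g).1 * ((Matrix.SpecialLinearGroup.map W.J g)⁻¹).1) := by
          rw [PlC_mul_inv, Matrix.mul_one, h2]
      _ = (γ.1.map W.J * g.1.map W.J) * ((Matrix.SpecialLinearGroup.map W.J g)⁻¹).1 := by
          rw [← Matrix.mul_assoc]; rfl
      _ = _ := by rw [h1]; rfl
  · intro a b
    constructor
    · intro hab
      have hinj : Function.Injective (Units.map (W.J : O →* ℂ)) := Units.map_injective W.J_inj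
      have h1 := hinj hab
      have h2 : ∏ i, z i ^ (D.wt a i - D.wt b i) = 1 := by
        simp only [_root_.zpow_sub]
        rw [Finset.prod_mul_distrib, Finset.prod_inv_distrib, h1, mul_inv_cancel]
      have h3 : W.res (∑ i, ((D.wt a i - D.wt b i : ℤ) : O) * t i) = 0 := by
        by_contra hne
        exact W.prod_ne_one hl t z hz (fun i => D.wt a i - D.wt b i) hne h2
      apply hsep
      rw [← sub_eq_zero, ← Finset.sum_sub_distrib, ← h3, map_sum]
      refine Finset.sum_congr rfl fun i _ => ?_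
      rw [map_mul, map_intCast, Int.cast_sub, sub_mul]
    · intro hab
      change Units.map (W.J : O →* ℂ) (∏ i, z i ^ D.wt a i) = Units.map (W.J : O →* ℂ) (∏ i, z i ^ D.wt b i)
      rw [hab]
  · intro e he
    have h1 : ∏ j, (∏ i, z i ^ D.wt j i) ^ e j = 1 := by
      have h2 : ∀ j, (∏ i, z i ^ D.wt j i) ^ e j = ∏ i, z i ^ (e j * D.wt j i) := by
        intro j
        rw [← Finset.prod_zpow]
        refine Finset.prod_congr rfl fun i _ => ?_
        rw [← _root_.zpow_mul, mul_comm]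
      rw [Finset.prod_congr rfl fun j _ => h2 j, Finset.prod_comm]
      refine Finset.prod_eq_one fun i _ => ?_
      have h3 : ∏ j, z i ^ (e j * D.wt j i) = z i ^ ∑ j, e j * D.wt j i := by
        have h5 := map_sum (zpowersHom Oˣ (z i)).toAdditiveRight (fun j => e j * D.wt j i) Finset.univ
        exact h5.symm
      rw [h3, he i, _root_.zpow_zero]
    have h4 := congrArg (Units.map (W.J : O →* ℂ)) h1
    rw [map_prod, map_one] at h4
    rw [← h4]
    refine Finset.prod_congr rfl fun j _ => ?_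
    rw [map_zpow]
  · intro a b hab
    change W.τ (W.J ((∏ i, z i ^ D.wt a i : Oˣ) : O)) = W.J ((∏ i, z i ^ D.wt b i : Oˣ) : O)
    rw [W.τ_J, hfrob a b hab]

end WCn
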