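import Pool.Agent.Lib.MP_c2b80f_alE.ArA

/-!
# The identities and base change (job DtM)
-/

open Matrix

set_option linter.unusedSectionVars false

namespace WCn

variable {m r : ℕ} {ι : Type} [Fintype ι] [DecidableEq ι] {D : RD m r ι} {R R' : Type*} [CommRing R] [CommRing R']

private theorem DtM_trace_map {n : Type*} [Fintype n] {S S' : Type*} [CommRing S] [CommRing S'] (f : S →+* S')
    (M : Matrix n n S) : (M.map f).trace = f M.trace := by
  unfold Matrix.trace
  rw [map_sum]
  rfl

private theorem DtM_map_add {S S' : Type*} [CommRing S] [CommRing S'] (f : S →+* S')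
    (M M' : Matrix (Fin m) (Fin m) S) : (M + M').map f = M.map f + M'.map f := by
  ext a b
  simp [Matrix.map_apply, Matrix.add_apply]

private theorem DtM_map_sum {κ : Type*} [Fintype κ] {S S' : Type*} [CommRing S] [CommRing S'] (f : S →+* S')
    (c : κ → S) (M : κ → Matrix (Fin m) (Fin m) S) :
    (∑ k, c k • M k).map f = ∑ k, f (c k) • (M k).map f := by
  ext a b
  simp [Matrix.map_apply, Matrix.sum_apply, Matrix.smul_apply, map_sum, map_mul]

private theorem DtM_one_map {S S' : Type*} [CommRing S] [CommRing S'] (f : S →+* S') :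
    (1 : Matrix (Fin m) (Fin m) S).map f = 1 := Matrix.map_one f (map_zero f) (map_one f)

private theorem DtM_map_inj {S S' : Type*} [CommRing S] [CommRing S'] (f : S →+* S') (hf : Function.Injective f)
    {M M' : Matrix (Fin m) (Fin m) S} (h : M.map f = M'.map f) : M = M' := by
  ext a b
  exact hf (congrFun (congrFun h a) b)

private theorem DtM_P (d : AD m r ι R) (f : R →+* R') (i : Fin d.N) :
    evR 1 ((d.map f).P i) = f (evR 1 (d.P i)) := by
  rw [← evR_map, DtM_one_map]
  rfl

private theorem DtM_proj (d : AD m r ι R) (f : R →+* R') (X : Matrix (Fin m) (Fin m) R) :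
    (∑ κ, (d.z κ * X).trace • d.b D κ + ∑ i, dR (d.P i) X • d.K i).map f =
      ∑ κ, ((d.map f).z κ * X.map f).trace • (d.map f).b D κ +
        ∑ i : Fin (d.map f).N, dR ((d.map f).P i) (X.map f) • (d.map f).K i := by
  rw [DtM_map_add, DtM_map_sum, DtM_map_sum]
  refine congrArg₂ _ (Finset.sum_congr rfl fun κ _ => ?_) (Finset.sum_congr rfl fun i _ => ?_)
  · rw [b_map]
    change _ = ((d.z κ).map f * X.map f).trace • _
    rw [← Matrix.map_mul, DtM_trace_map]
  · change _ = dR (MvPolynomial.map f (d.P i)) (X.map f) • (d.K i).map f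
    rw [dR_map]

private theorem DtM_dual (d : AD m r ι R) (f : R →+* R') (κ κ' : Fin r ⊕ ι) :
    ((d.map f).z κ * (d.map f).b D κ').trace = f ((d.z κ * d.b D κ').trace) := by
  rw [b_map]
  change ((d.z κ).map f * _).trace = _
  rw [← Matrix.map_mul, DtM_trace_map]

private theorem DtM_C (f : R →+* R') (M : Matrix (Fin m) (Fin m) R) :
    (M.map (MvPolynomial.C : R →+* MvPolynomial (Fin r) R)).map (MvPolynomial.map f) =
      (M.map f).map (MvPolynomial.C : R' →+* MvPolynomial (Fin r) R') := by
  ext1 a b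
  change MvPolynomial.map f (MvPolynomial.C (M a b)) = MvPolynomial.C (f (M a b))
  rw [MvPolynomial.map_C]

private theorem DtM_lie (d : AD m r ι R) (f : R →+* R') :
    (∑ κ, ((d.z κ).map MvPolynomial.C * d.S).trace • (d.b D κ).map MvPolynomial.C :
        Matrix (Fin m) (Fin m) (MvPolynomial (Fin r) R)).map (MvPolynomial.map f) =
      (∑ κ, (((d.map f).z κ).map MvPolynomial.C * (d.map f).S).trace • ((d.map f).b D κ).map MvPolynomial.C :
        Matrix (Fin m) (Fin m) (MvPolynomial (Fin r) R')) := by
  rw [DtM_map_sum]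
  refine Finset.sum_congr rfl fun κ _ => ?_
  rw [b_map, DtM_C, ← DtM_trace_map, Matrix.map_mul, DtM_C]
  rfl

private theorem DtM_inv (d : AD m r ι R) (f : R →+* R') (w : GL (Fin r) ℤ) :
    (d.S.map (MvPolynomial.bind₁ (act w (fun i => (MvPolynomial.X i : MvPolynomial (Fin r) R))))).map
      (MvPolynomial.map f) =
    ((d.map f).S).map (MvPolynomial.bind₁ (act w (fun i => (MvPolynomial.X i : MvPolynomial (Fin r) R')))) := by
  ext1 a b
  change MvPolynomial.map f (MvPolynomial.bind₁ (act w (fun i => (MvPolynomial.X i : MvPolynomial (Fin r) R)))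
    (d.S a b)) = MvPolynomial.bind₁ (act w (fun i => (MvPolynomial.X i : MvPolynomial (Fin r) R')))
      (MvPolynomial.map f (d.S a b))
  rw [MvPolynomial.map_bind₁]
  have h1 : (fun i : Fin r => MvPolynomial.map f (act w (fun i => (MvPolynomial.X i : MvPolynomial (Fin r) R)) i)) =
      act w (fun i => (MvPolynomial.X i : MvPolynomial (Fin r) R')) := by
    funext i
    rw [act_map]
    simp only [MvPolynomial.map_X]
  rw [h1]

private theorem DtM_dR_zero (P : MvPolynomial (Fin m × Fin m) R) : dR P 0 = 0 := by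
  have h1 := dR_smul P 0 (0 : Matrix (Fin m) (Fin m) R)
  rw [zero_smul, zero_mul] at h1
  exact h1

private theorem DtM_lin (d : AD m r ι R) :
    ∃ Φ : Matrix (Fin m) (Fin m) R →ₗ[R] Matrix (Fin m) (Fin m) R,
      ∀ X, Φ X = ∑ κ, (d.z κ * X).trace • d.b D κ + ∑ i, dR (d.P i) X • d.K i := by
  refine ⟨{ toFun := fun X => ∑ κ, (d.z κ * X).trace • d.b D κ + ∑ i, dR (d.P i) X • d.K i
            map_add' := fun X Y => ?_
            map_smul' := fun c X => ?_ }, fun X => rfl⟩
  · simp only [Matrix.mul_add, Matrix.trace_add, dR_add, add_smul, Finset.sum_add_distrib]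
    abel
  · simp only [Matrix.mul_smul, Matrix.trace_smul, dR_smul, smul_eq_mul, mul_smul, Finset.smul_sum, smul_add,
      RingHom.id_apply]

/-- `proj`: both sides are additive and compatible with scalars in `X`, and `X` is a linear combination of the matrices `Matrix.single a b 1`, which are images of matrices over `R`. `S_lie`, `S_inv`: apply `MvPolynomial.map f`
(`MvPolynomial.map_bind₁`; `act w (fun i => X i)` is mapped to the same expression, `act_map`). -/
theorem AD.Ok.map {d : AD m r ι R} (h : d.Ok D) (f : R →+* R') : (d.map f).Ok D := by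
  refine ⟨fun i => ?_, fun X => ?_, fun κ κ' => ?_, ?_, fun w hw => ?_⟩
  · have h1 := DtM_P d f i
    exact h1.trans ((congrArg f (h.P_one i)).trans (map_zero f))
  · obtain ⟨Φ, hΦ⟩ := DtM_lin (D := D) (d.map f)
    rw [← hΦ]
    have h1 : ∀ Y : Matrix (Fin m) (Fin m) R, Φ (Y.map f) = Y.map f := by
      intro Y
      have h2 := congrArg (fun Z : Matrix (Fin m) (Fin m) R => Z.map f) (h.proj Y)
      rw [hΦ]
      exact (DtM_proj d f Y).symm.trans h2.symm
    have h3 : ∀ (a b : Fin m) (x : R'), Φ (Matrix.single a b x) = Matrix.single a b x := by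
      intro a b x
      have h4 : Matrix.single a b x = x • (Matrix.single a b (1 : R)).map f := by
        rw [Matrix.map_single, map_one, Matrix.smul_single, smul_eq_mul, mul_one]
      rw [h4, map_smul, h1]
    refine Matrix.induction_on' (P := fun X => X = Φ X) X ?_ ?_ ?_
    · rw [map_zero]
    · intro Y Z hY hZ
      rw [map_add, ← hY, ← hZ]
    · intro a b x
      exact (h3 a b x).symm
  · rw [DtM_dual, h.dual, apply_ite f, map_one, map_zero]
  · have h1 := congrArg (fun Z : Matrix (Fin m) (Fin m) (MvPolynomial (Fin r) R) => Z.map (MvPolynomial.map f)) h.S_lie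
    exact h1.trans (DtM_lie d f)
  · have h1 := congrArg (fun Z : Matrix (Fin m) (Fin m) (MvPolynomial (Fin r) R) => Z.map (MvPolynomial.map f))
      (h.S_inv w hw)
    exact (DtM_inv d f w).symm.trans h1

/-- The identities descend along injective homomorphisms. -/
theorem AD.Ok.of_map {d : AD m r ι R} (f : R →+* R') (hf : Function.Injective f) (h : (d.map f).Ok D) : d.Ok D := by
  refine ⟨fun i => ?_, fun X => ?_, fun κ κ' => ?_, ?_, fun w hw => ?_⟩
  · apply hf
    rw [map_zero, ← DtM_P d f i]
    exact h.P_one i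
  · apply DtM_map_inj f hf
    exact (h.proj (X.map f)).trans (DtM_proj d f X).symm
  · apply hf
    rw [← DtM_dual, h.dual, apply_ite f, map_one, map_zero]
  · apply DtM_map_inj (MvPolynomial.map f) (MvPolynomial.map_injective f hf)
    exact h.S_lie.trans (DtM_lie d f).symm
  · apply DtM_map_inj (MvPolynomial.map f) (MvPolynomial.map_injective f hf)
    exact (DtM_inv d f w).trans (h.S_inv w hw)

/-- Elements with vanishing differentials are in the Lie algebra. -/
theorem AD.Ok.mem_L {d : AD m r ι R} (h : d.Ok D) {X : Matrix (Fin m) (Fin m) R} (hX : ∀ i, dR (d.P i) X = 0) :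
    X = ∑ κ, (d.z κ * X).trace • d.b D κ ∧ X ∈ d.L D := by
  have h1 : X = ∑ κ, (d.z κ * X).trace • d.b D κ := by
    have h2 := h.proj X
    have h3 : ∑ i, dR (d.P i) X • d.K i = 0 := Finset.sum_eq_zero fun i _ => by rw [hX, zero_smul]
    rw [h3, add_zero] at h2
    exact h2
  refine ⟨h1, ?_⟩
  rw [h1]
  exact Submodule.sum_mem _ fun κ _ => Submodule.smul_mem _ _ (Submodule.subset_span ⟨κ, rfl⟩)

/-- `H` is injective (`dual`: `tr(z (inl i) H t) = t i`, `H_eq_sum`). -/
theorem AD.Ok.trace_H {d : AD m r ι R} (h : d.Ok D) (t : Fin r → R) (i : Fin r) : (d.z (Sum.inl i) * D.H t).trace = t i := by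
  rw [H_eq_sum, Matrix.mul_sum, Matrix.trace_sum]
  have h1 : ∀ j : Fin r, (d.z (Sum.inl i) * t j • D.H (Pi.single j (1 : R))).trace =
      if i = j then t j else 0 := by
    intro j
    rw [Matrix.mul_smul, Matrix.trace_smul, smul_eq_mul]
    have h2 := h.dual (Sum.inl i) (Sum.inl j)
    change (d.z (Sum.inl i) * D.H (Pi.single j 1)).trace = _ at h2
    rw [h2]
    by_cases hij : i = j
    · rw [if_pos hij, if_pos (by rw [hij]), mul_one]
    · rw [if_neg hij, if_neg (fun h3 => hij (Sum.inl_injective h3)), mul_zero]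
  rw [Finset.sum_congr rfl fun j _ => h1 j, Finset.sum_ite_eq, if_pos (Finset.mem_univ _)]

end WCn
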