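import Pool.Agent.Lib.MP_c2b80f_alE.ArA
import Pool.Agent.Lib.MP_c2b80f_alE.DtM

/-!
# The target modulo `p` is defined over the prime field (job SpX)
-/

open Matrix

namespace WCn

variable {m r : ℕ} {ι : Type} [Fintype ι] [DecidableEq ι] {D : RD m r ι}

/-- An element of a field of characteristic `p` with `a ^ p = a` is in the prime field (`X ^ p - X` has the `p` roots in the image of `ZMod p`). -/
theorem mem_prime_field {p : ℕ} [Fact p.Prime] {k : Type} [Field k] [Algebra (ZMod p) k] {a : k} (ha : a ^ p = a) : ∃ b : ZMod p, algebraMap (ZMod p) k b = a := by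
  have hcp : CharP k p := charP_of_injective_algebraMap (algebraMap (ZMod p) k).injective p
  have h1 : (Polynomial.X ^ p - Polynomial.X : Polynomial (ZMod p)) = ∏ b : ZMod p, (Polynomial.X - Polynomial.C b) := by
    have hq : Fintype.card (ZMod p) = p := ZMod.card p
    have h2 := FiniteField.roots_X_pow_card_sub_X (ZMod p)
    rw [hq] at h2
    have h3 : (Polynomial.X ^ p - Polynomial.X : Polynomial (ZMod p)).Monic :=
      Polynomial.monic_X_pow_sub (by
        rw [Polynomial.degree_X]
        exact_mod_cast (Fact.out : p.Prime).one_lt)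
    have h4 : Multiset.card (Polynomial.X ^ p - Polynomial.X : Polynomial (ZMod p)).roots =
        (Polynomial.X ^ p - Polynomial.X : Polynomial (ZMod p)).natDegree := by
      rw [h2, FiniteField.X_pow_card_sub_X_natDegree_eq _ (Fact.out : p.Prime).one_lt]
      exact hq
    have h5 := Polynomial.prod_multiset_X_sub_C_of_monic_of_roots_card_eq h3 h4
    rw [h2] at h5
    exact h5.symm
  have h2 := congrArg (Polynomial.aeval a) h1
  rw [map_sub, map_pow, Polynomial.aeval_X, ha, sub_self, map_prod] at h2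
  obtain ⟨b, -, hb⟩ := Finset.prod_eq_zero_iff.1 h2.symm
  rw [map_sub, Polynomial.aeval_X, Polynomial.aeval_C] at hb
  exact ⟨b, (sub_eq_zero.1 hb).symm⟩

private theorem SpX_smul {R R' : Type*} [CommRing R] [CommRing R'] (F : R →+* R') (c : R) (M : Matrix (Fin m) (Fin m) R) :
    (c • M).map F = F c • M.map F := by
  ext a b
  rw [Matrix.map_apply, Matrix.smul_apply, Matrix.smul_apply, Matrix.map_apply, smul_eq_mul, smul_eq_mul, map_mul]

private theorem SpX_trace {R R' : Type*} [CommRing R] [CommRing R'] (F : R →+* R') (M : Matrix (Fin m) (Fin m) R) :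
    F M.trace = (M.map F).trace := by
  unfold Matrix.trace
  rw [map_sum]
  rfl

/-- `S_inv` evaluated at a point. -/
theorem Sv_act {R R' : Type*} [CommRing R] [CommRing R'] {d : AD m r ι R} (h : d.Ok D) (f : R →+* R') {w : GL (Fin r) ℤ} (hw : w ∈ D.W) (t : Fin r → R') :
    d.Sv f (act w t) = d.Sv f t := by
  have h1 := h.S_inv w hw
  have h2 : ∀ P : MvPolynomial (Fin r) R,
      MvPolynomial.eval₂ f t (MvPolynomial.bind₁ (act w (fun i => (MvPolynomial.X i : MvPolynomial (Fin r) R))) P) =
        MvPolynomial.eval₂ f (act w t) P := by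
    intro P
    have h3 := MvPolynomial.eval₂Hom_bind₁ f t (act w (fun i => (MvPolynomial.X i : MvPolynomial (Fin r) R))) P
    have h4 : (fun i => MvPolynomial.eval₂Hom f t (act w (fun i => (MvPolynomial.X i : MvPolynomial (Fin r) R)) i)) =
        act w t := by
      funext i
      rw [act_map]
      congr 1
      funext j
      exact MvPolynomial.eval₂Hom_X' f t j
    rw [h4] at h3
    exact h3
  unfold AD.Sv
  rw [← h1, Matrix.map_map, Matrix.map_map]
  ext a b
  rw [Matrix.map_apply, Matrix.map_apply]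
  change MvPolynomial.eval₂ f (act w t) (MvPolynomial.bind₁ _ (d.S a b)) = MvPolynomial.eval₂ f t (MvPolynomial.bind₁ _ (d.S a b))
  have h5 : MvPolynomial.bind₁ (act w (fun i => (MvPolynomial.X i : MvPolynomial (Fin r) R))) (d.S a b) = d.S a b := by
    have h6 := congrFun (congrFun h1 a) b
    rw [Matrix.map_apply] at h6
    exact h6
  rw [h5, ← h2 (d.S a b), h5]

/-- `S_lie` evaluated at a point. -/
theorem Sv_lie {R R' : Type*} [CommRing R] [CommRing R'] {d : AD m r ι R} (h : d.Ok D) (f : R →+* R') (t : Fin r → R') :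
    d.Sv f t = ∑ κ, ((d.map f).z κ * d.Sv f t).trace • (d.map f).b D κ := by
  have h1 := h.S_lie
  obtain ⟨F, hF⟩ : ∃ F : MvPolynomial (Fin r) R →+* R', F = MvPolynomial.eval₂Hom f t := ⟨_, rfl⟩
  have hFC : ∀ x : R, F (MvPolynomial.C x) = f x := fun x => by rw [hF, MvPolynomial.eval₂Hom_C]
  have hS : d.Sv f t = d.S.map F := by rw [hF]; rfl
  have hmap : ∀ M : Matrix (Fin m) (Fin m) R, (M.map (MvPolynomial.C : R →+* MvPolynomial (Fin r) R)).map F = M.map f := by
    intro M
    ext a b
    rw [Matrix.map_apply, Matrix.map_apply, Matrix.map_apply, hFC]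
  have h2 : d.S.map F = ∑ κ, (((d.z κ).map f) * d.S.map F).trace • (d.b D κ).map f := by
    have h3 := congrArg (fun M : Matrix (Fin m) (Fin m) (MvPolynomial (Fin r) R) => M.map F) h1
    refine h3.trans ?_
    change F.mapMatrix (∑ κ, ((d.z κ).map MvPolynomial.C * d.S).trace • (d.b D κ).map MvPolynomial.C) = _
    rw [map_sum]
    refine Finset.sum_congr rfl fun κ _ => ?_
    rw [RingHom.mapMatrix_apply, SpX_smul, SpX_trace, Matrix.map_mul, hmap, hmap]
  rw [hS, h2]
  refine Finset.sum_congr rfl fun κ _ => ?_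
  rw [b_map, ← h2]
  rfl

/-- The entries `x` of `S(t)` satisfy `x ^ p = S(t ^ p) = S(act w t) = S(t)` (Frobenius is a ring homomorphism which fixes `ZMod p`), so they are in the prime field; `S(t) = ∑ tr(z S(t)) b` descends to `ZMod p` because `ZMod p → k` is injective. Add `eS`. -/
theorem exists_X0 {p : ℕ} [Fact p.Prime] {k : Type} [Field k] [Algebra (ZMod p) k] {d : AD m r ι (ZMod p)} (h : d.Ok D) {w : GL (Fin r) ℤ} (hw : w ∈ D.W)
    (t : Fin r → k) (ht : ∀ i, t i ^ p = act w t i) :
    ∃ X₀ ∈ d.L D, X₀.map (algebraMap (ZMod p) k) = (d.eS D).map (algebraMap (ZMod p) k) + d.Sv (algebraMap (ZMod p) k) t := by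
  have hcp : CharP k p := charP_of_injective_algebraMap (algebraMap (ZMod p) k).injective p
  have hcf : (frobenius k p).comp (algebraMap (ZMod p) k) = algebraMap (ZMod p) k := Subsingleton.elim _ _
  have h1 : (d.Sv (algebraMap (ZMod p) k) t).map (frobenius k p) = d.Sv (algebraMap (ZMod p) k) t := by
    rw [Sv_map, hcf]
    have h2 : (fun i => frobenius k p (t i)) = act w t := funext fun i => by rw [frobenius_def, ht]
    rw [h2, Sv_act h _ hw]
  have h2 : ∀ a b, ∃ y : ZMod p, algebraMap (ZMod p) k y = d.Sv (algebraMap (ZMod p) k) t a b := by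
    intro a b
    refine mem_prime_field ?_
    have h3 := congrFun (congrFun h1 a) b
    rw [Matrix.map_apply, frobenius_def] at h3
    exact h3
  choose Y hY using h2
  have hYm : (Matrix.of Y).map (algebraMap (ZMod p) k) = d.Sv (algebraMap (ZMod p) k) t := by
    ext a b
    exact hY a b
  have hYL : Matrix.of Y = ∑ κ, (d.z κ * Matrix.of Y).trace • d.b D κ := by
    have h3 : (algebraMap (ZMod p) k).mapMatrix (Matrix.of Y) =
        (algebraMap (ZMod p) k).mapMatrix (∑ κ, (d.z κ * Matrix.of Y).trace • d.b D κ) := by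
      rw [map_sum, RingHom.mapMatrix_apply, hYm]
      refine (Sv_lie h (algebraMap (ZMod p) k) t).trans ?_
      refine Finset.sum_congr rfl fun κ _ => ?_
      rw [RingHom.mapMatrix_apply, SpX_smul, SpX_trace, Matrix.map_mul, hYm, b_map]
      rfl
    ext a b
    have h4 := congrFun (congrFun h3 a) b
    rw [RingHom.mapMatrix_apply, RingHom.mapMatrix_apply, Matrix.map_apply, Matrix.map_apply] at h4
    exact (algebraMap (ZMod p) k).injective h4
  refine ⟨d.eS D + Matrix.of Y, ?_, ?_⟩
  · refine Submodule.add_mem _ ?_ ?_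
    · unfold AD.eS
      exact Submodule.sum_mem _ fun i _ => Submodule.subset_span ⟨Sum.inr (D.simple i), rfl⟩
    · rw [hYL]
      exact Submodule.sum_mem _ fun κ _ => Submodule.smul_mem _ _ (Submodule.subset_span ⟨κ, rfl⟩)
  · rw [← hYm]
    ext a b
    rw [Matrix.map_apply, Matrix.add_apply, map_add]
    rfl

end WCn
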