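import Mathlib

/-!
# Witt vectors (job WtA)

Mathlib: `Mathlib/RingTheory/WittVector/Complete.lean`, `Compare.lean`, `Frobenius.lean`, `DiscreteValuationRing.lean`.
-/

namespace WCn

variable (p : ℕ) [Fact p.Prime] (k : Type) [Field k] [CharP k p] [PerfectRing k p]

/-- `WittVector.mem_span_p_iff_coeff_zero_eq_zero`, `Ideal.mem_span_singleton`. -/
theorem witt_ker (x : WittVector p k) : WittVector.constantCoeff x = 0 ↔ ∃ y, x = (p : WittVector p k) * y := by
  have h := WittVector.mem_span_p_iff_coeff_zero_eq_zero x
  rw [Ideal.mem_span_singleton] at h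
  exact h.symm

/-- `WittVector.isUnit_of_coeff_zero_ne_zero`. -/
theorem witt_unit (x : WittVector p k) (h : WittVector.constantCoeff x ≠ 0) : IsUnit x := by
  exact WittVector.isUnit_of_coeff_zero_ne_zero x h

theorem witt_surj : Function.Surjective (WittVector.constantCoeff : WittVector p k →+* k) := by
  exact WittVector.constantCoeff_surjective p

/-- `IsPrecomplete` (instance `WittVector.isAdicCompleteIdealSpanP`), applied to the sequence `n ↦ u (n - 1)` (so that the difference of the terms `n` and `n + 1` is divisible by `p ^ n`); `Ideal.span_singleton_pow`, `Ideal.mem_span_singleton`. -/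
theorem witt_compl (u : ℕ → WittVector p k) (h : ∀ n, ∃ y, u (n + 1) - u n = (p : WittVector p k) ^ (n + 1) * y) :
    ∃ l, ∀ n, ∃ y, l - u n = (p : WittVector p k) ^ (n + 1) * y := by
  have key : ∀ m n : ℕ, ∃ y, u (m + n) - u m = (p : WittVector p k) ^ (m + 1) * y := by
    intro m n
    induction n with
    | zero => exact ⟨0, by rw [add_zero, sub_self, mul_zero]⟩
    | succ n ih =>
      obtain ⟨y, hy⟩ := ih
      obtain ⟨z, hz⟩ := h (m + n)
      refine ⟨y + (p : WittVector p k) ^ n * z, ?_⟩
      have e : u (m + (n + 1)) - u m = (u (m + n + 1) - u (m + n)) + (u (m + n) - u m) := by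
        rw [sub_add_sub_cancel, add_assoc]
      rw [e, hy, hz, mul_add, ← mul_assoc, ← pow_add, add_comm]
      have e2 : m + n + 1 = m + 1 + n := by omega
      rw [e2]
  have hmem : ∀ (n : ℕ) (x : WittVector p k), (∃ y, x = (p : WittVector p k) ^ n * y) ↔
      x ∈ (Ideal.span {(p : WittVector p k)} ^ n • ⊤ : Submodule (WittVector p k) (WittVector p k)) := by
    intro n x
    rw [Ideal.span_singleton_pow, smul_eq_mul, Ideal.mul_top]
    exact Ideal.mem_span_singleton.symm
  obtain ⟨l, hl⟩ := IsPrecomplete.prec (I := Ideal.span {(p : WittVector p k)}) (M := WittVector p k) inferInstance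
    (f := fun n => u (n - 1)) (fun {m n} hmn => by
      rw [SModEq.comm, SModEq.sub_mem, ← hmem]
      rcases Nat.eq_zero_or_pos m with h0 | h0
      · exact ⟨u (n - 1) - u (m - 1), by rw [h0, pow_zero, one_mul]⟩
      · obtain ⟨y, hy⟩ := key (m - 1) (n - m)
        have e1 : m - 1 + (n - m) = n - 1 := by omega
        have e2 : m - 1 + 1 = m := by omega
        rw [e1, e2] at hy
        exact ⟨y, hy⟩)
  refine ⟨l, fun n => ?_⟩
  have h1 := hl (n + 1)
  rw [SModEq.comm, SModEq.sub_mem, ← hmem] at h1
  exact h1

/-- `IsHausdorff`. -/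
theorem witt_sep (x : WittVector p k) (h : ∀ n : ℕ, ∃ y, x = (p : WittVector p k) ^ n * y) : x = 0 := by
  have hmem : ∀ (n : ℕ) (x : WittVector p k), (∃ y, x = (p : WittVector p k) ^ n * y) ↔
      x ∈ (Ideal.span {(p : WittVector p k)} ^ n • ⊤ : Submodule (WittVector p k) (WittVector p k)) := by
    intro n x
    rw [Ideal.span_singleton_pow, smul_eq_mul, Ideal.mul_top]
    exact Ideal.mem_span_singleton.symm
  refine IsHausdorff.haus (I := Ideal.span {(p : WittVector p k)}) (M := WittVector p k) inferInstance x fun n => ?_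
  rw [SModEq.zero, ← hmem]
  exact h n

theorem witt_phi (x : WittVector p k) : WittVector.constantCoeff (WittVector.frobenius x) = WittVector.constantCoeff x ^ p := by
  exact WittVector.coeff_frobenius_charP p x 0

/-- `f = (WittVector.map (algebraMap (ZMod p) k)).comp (WittVector.fromPadicInt p)`. The composition `ℤ_p → 𝕎 (ZMod p) → ZMod p` is `PadicInt.toZMod`: both are ring homomorphisms to `ZMod p`, with kernel containing `p`, and
every element of `ℤ_p` is congruent modulo `p` to a natural number (`PadicInt.zmodRepr`, `PadicInt.toZMod_spec` or `PadicInt.exists_mem_range`). Frobenius: `WittVector.frobenius_zmodp` and naturality (`WittVector.map` commutes with `frobenius`).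
Injective: `WittVector.map` of an injective map is injective and `WittVector.equiv`. -/
theorem witt_f [Algebra (ZMod p) k] : ∃ f : ℤ_[p] →+* WittVector p k,
    (∀ a, WittVector.constantCoeff (f a) = algebraMap (ZMod p) k (PadicInt.toZMod a)) ∧
    (∀ a, WittVector.frobenius (f a) = f a) ∧ Function.Injective f := by
  have huniq : ∀ (g : ℤ_[p] →+* ZMod p) (a : ℤ_[p]), g a = (PadicInt.zmodRepr a : ZMod p) := by
    intro g a
    have h1 := (PadicInt.zmodRepr_spec a).2
    rw [PadicInt.maximalIdeal_eq_span_p, Ideal.mem_span_singleton] at h1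
    obtain ⟨b, hb⟩ := h1
    have h2 : g (a - (PadicInt.zmodRepr a : ℤ_[p])) = 0 := by
      rw [hb, map_mul, map_natCast, ZMod.natCast_self, zero_mul]
    rw [map_sub, map_natCast, sub_eq_zero] at h2
    exact h2
  refine ⟨(WittVector.map (algebraMap (ZMod p) k)).comp (WittVector.fromPadicInt p), fun a => ?_, fun a => ?_, ?_⟩
  · show (algebraMap (ZMod p) k) (WittVector.constantCoeff (WittVector.fromPadicInt p a)) = _
    have h1 := huniq (WittVector.constantCoeff.comp (WittVector.fromPadicInt p)) a
    have h2 := huniq PadicInt.toZMod a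
    rw [h2, ← h1]
    rfl
  · ext n
    rw [WittVector.coeff_frobenius_charP]
    show ((algebraMap (ZMod p) k) ((WittVector.fromPadicInt p a).coeff n)) ^ p = (algebraMap (ZMod p) k) ((WittVector.fromPadicInt p a).coeff n)
    rw [← map_pow, ZMod.pow_card]
  · have h1 : Function.Injective (WittVector.fromPadicInt p) := by
      intro a b hab
      have h2 := WittVector.toPadicInt_comp_fromPadicInt_ext p a
      have h3 := WittVector.toPadicInt_comp_fromPadicInt_ext p b
      rw [RingHom.comp_apply] at h2 h3
      rw [hab, h3] at h2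
      exact h2.symm
    exact (WittVector.map_injective (p := p) (algebraMap (ZMod p) k) (algebraMap (ZMod p) k).injective).comp h1

end WCn
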