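import Mathlib

/-!
# Embeddings into the complex numbers (job WtB)
-/

open Cardinal

namespace WCn

/-- Let `L = AlgebraicClosure K`, an algebra over `A` by `s` (injective, so `A` is a countable domain acting faithfully); `#L ≤ continuum`. Let `B ⊆ L` be a transcendence basis of `L` over `A` (`exists_isTranscendenceBasis`), `#B ≤ continuum`, and `T` one of `ℂ` over
`A`: `#T = continuum` by `IsAlgClosed.cardinal_eq_cardinal_transcendence_basis_of_aleph0_lt'` (`#A ≤ ℵ₀`, `Cardinal.mk_complex`). Choose an injection `B → T`; the family `B → T → ℂ` is algebraically independent over `A`, so there is an injective `A`-algebra homomorphism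
`Algebra.adjoin A B ≃ MvPolynomial B A → ℂ`. `L` is algebraic over `Algebra.adjoin A B` (`IsTranscendenceBasis.isAlgebraic`), so it extends to `L` (`IsAlgClosed.lift` with `ℂ` as an algebra over `Algebra.adjoin A B`). Restrict to `K`. -/
theorem exists_embed (K : Type) [Field K] [CharZero K] (hK : #K ≤ 𝔠) (A : Subring ℂ) [Countable A] (s : A →+* K)
    (hs : Function.Injective s) : ∃ j : K →+* ℂ, ∀ a : A, j (s a) = a := by
  let : Algebra A K := s.toAlgebra
  have : FaithfulSMul A K := (faithfulSMul_iff_algebraMap_injective A K).2 hs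
  have : FaithfulSMul A ℂ := (faithfulSMul_iff_algebraMap_injective A ℂ).2 Subtype.val_injective
  obtain ⟨B, hB⟩ := exists_isTranscendenceBasis A K
  obtain ⟨T, hT⟩ := exists_isTranscendenceBasis A ℂ
  have hTc : #ℂ = #T := IsAlgClosed.cardinal_eq_cardinal_transcendence_basis_of_aleph0_lt' _ hT mk_le_aleph0
    (by rw [mk_complex]; exact aleph0_lt_continuum)
  have hBT : #B ≤ #T := by
    rw [← hTc, mk_complex]
    exact (mk_subtype_le B).trans hK
  obtain ⟨i⟩ := hBT
  have hindep : AlgebraicIndependent A (fun b : B => ((i b : T) : ℂ)) := hT.1.comp i i.injective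
  obtain ⟨φ, hφ⟩ : ∃ φ : Algebra.adjoin A (Set.range (Subtype.val : B → K)) →ₐ[A] ℂ, Function.Injective φ :=
    ⟨(MvPolynomial.aeval (fun b : B => ((i b : T) : ℂ))).comp hB.1.aevalEquiv.symm.toAlgHom,
      (show Function.Injective (MvPolynomial.aeval (fun b : B => ((i b : T) : ℂ)) : MvPolynomial B A →ₐ[A] ℂ) from hindep).comp
        hB.1.aevalEquiv.symm.injective⟩
  let : Algebra (Algebra.adjoin A (Set.range (Subtype.val : B → K))) ℂ := φ.toRingHom.toAlgebra
  have : FaithfulSMul (Algebra.adjoin A (Set.range (Subtype.val : B → K))) ℂ := (faithfulSMul_iff_algebraMap_injective _ _).2 hφ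
  have : Algebra.IsAlgebraic (Algebra.adjoin A (Set.range (Subtype.val : B → K))) K := hB.isAlgebraic
  have : Module.IsTorsionFree (Algebra.adjoin A (Set.range (Subtype.val : B → K))) ℂ := inferInstance
  let j : K →ₐ[Algebra.adjoin A (Set.range (Subtype.val : B → K))] ℂ := IsAlgClosed.lift
  refine ⟨j.toRingHom, fun a => ?_⟩
  have h1 : j (algebraMap (Algebra.adjoin A (Set.range (Subtype.val : B → K))) K (algebraMap A _ a)) = φ (algebraMap A _ a) :=
    j.commutes _
  have h2 : φ (algebraMap A _ a) = (a : ℂ) := φ.commutes a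
  exact h1.trans h2

end WCn
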