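import Mathlib

/-!
# Automorphisms of the complex numbers which extend a given automorphism of a subfield (job WtC)
-/

namespace WCn

/-- Make `ℂ` a `K`-algebra by `j` and let `B` be a transcendence basis (`exists_isTranscendenceBasis'`). `φ` extends to the ring automorphism `e` of `Algebra.adjoin K B ≃ MvPolynomial B K` given by `MvPolynomial.mapEquiv B φ`, and `ℂ` is an algebraic closure of
`Algebra.adjoin K B` (`IsAlgClosed.isAlgClosure_of_transcendence_basis`, see `Mathlib/FieldTheory/IsAlgClosed/Classification.lean`); `IsAlgClosure.equivOfEquiv ℂ ℂ e` with `IsAlgClosure.equivOfEquiv_algebraMap` is `τ`. -/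
theorem exists_ext_aut (K : Type) [Field K] (j : K →+* ℂ) (φ : K ≃+* K) : ∃ τ : ℂ ≃+* ℂ, ∀ x, τ (j x) = j (φ x) := by
  letI : Algebra K ℂ := j.toAlgebra
  have hinj : Function.Injective (algebraMap K ℂ) := j.injective
  haveI : FaithfulSMul K ℂ := (faithfulSMul_iff_algebraMap_injective K ℂ).2 hinj
  obtain ⟨s, hs⟩ := exists_isTranscendenceBasis K ℂ
  letI := IsAlgClosed.isAlgClosure_of_transcendence_basis _ hs
  let ε := hs.1.aevalEquiv
  let e : Algebra.adjoin K (Set.range ((↑) : s → ℂ)) ≃+* Algebra.adjoin K (Set.range ((↑) : s → ℂ)) :=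
    ε.symm.toRingEquiv.trans ((MvPolynomial.mapEquiv s φ).trans ε.toRingEquiv)
  refine ⟨IsAlgClosure.equivOfEquiv ℂ ℂ e, fun x => ?_⟩
  have h1 : ∀ y : K, j y = algebraMap (Algebra.adjoin K (Set.range ((↑) : s → ℂ))) ℂ (algebraMap K _ y) :=
    fun y => rfl
  have h2 : e (algebraMap K _ x) = algebraMap K _ (φ x) := by
    change ε (MvPolynomial.map (φ : K →+* K) (ε.symm (algebraMap K _ x))) = _
    rw [AlgEquiv.commutes ε.symm, MvPolynomial.algebraMap_eq, MvPolynomial.map_C, ← MvPolynomial.algebraMap_eq,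
      AlgEquiv.commutes ε]
    rfl
  rw [h1 x, IsAlgClosure.equivOfEquiv_algebraMap, h2, ← h1]

end WCn
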