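import Pool.Agent.Lib.MP_c2b80f_alE.WtDefs
import Pool.Agent.Lib.MP_c2b80f_alE.WtA
import Pool.Agent.Lib.MP_c2b80f_alE.WtB
import Pool.Agent.Lib.MP_c2b80f_alE.WtC

/-!
# Existence of places (job WtE)
-/

open Cardinal

namespace WCn

theorem witt_charZero (p : ℕ) [Fact p.Prime] (k : Type) [Field k] [CharP k p] [PerfectRing k p] : CharZero (FractionRing (WittVector p k)) := by
  let : Algebra (ZMod p) k := ZMod.algebra k p
  obtain ⟨f, -, -, hf⟩ := witt_f p k
  have h1 : CharZero (WittVector p k) := charZero_of_injective_ringHom hf
  exact charZero_of_injective_ringHom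
    (IsFractionRing.injective (WittVector p k) (FractionRing (WittVector p k)))

/-- `WittVector p k` injects into `ℕ → k` (coefficients), and `ℵ₀ ^ ℵ₀ = continuum`; the fraction field is a quotient of pairs. -/
theorem witt_card (p : ℕ) [Fact p.Prime] (k : Type) [Field k] [CharP k p] [Countable k] : #(FractionRing (WittVector p k)) ≤ 𝔠 := by
  have h1 : #(FractionRing (WittVector p k)) ≤ #(WittVector p k) :=
    IsLocalization.cardinalMk_le (R := WittVector p k) (L := FractionRing (WittVector p k))
      (nonZeroDivisors (WittVector p k))
  have h2 : #(WittVector p k) ≤ #(ℕ → k) :=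
    Cardinal.mk_le_of_injective (f := fun x : WittVector p k => x.coeff) fun x y hxy =>
      WittVector.ext fun n => congrFun hxy n
  have h3 : #(ℕ → k) ≤ 𝔠 := by
    rw [← Cardinal.power_def, ← Cardinal.aleph0_power_aleph0, Cardinal.mk_nat]
    exact Cardinal.power_le_power_right Cardinal.mk_le_aleph0
  exact h1.trans (h2.trans h3)

/-- `O = WittVector p k`, `f` from `witt_f`, `res = WittVector.constantCoeff`, `φ = WittVector.frobenius`; `J` is the restriction to `O` of the embedding of `FractionRing O` from `exists_embed` for `s = algebraMap ∘ f ∘ σ`; `τ` from `exists_ext_aut` for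
the automorphism of `FractionRing O` induced by `WittVector.frobeniusEquiv p k` (`IsFractionRing.ringEquivOfRingEquiv` or `IsLocalization.ringEquivOfRingEquiv`). -/
theorem exists_WD (p : ℕ) [Fact p.Prime] (k : Type) [Field k] [CharP k p] [PerfectRing k p] [Countable k] [Algebra (ZMod p) k] (A : Subring ℂ) [Countable A]
    (σ : A →+* ℤ_[p]) (hσ : Function.Injective σ) : Nonempty (WD p A σ (WittVector p k) k) := by
  obtain ⟨f, hf1, hf2, hf3⟩ := witt_f p k
  have h0 : CharZero (FractionRing (WittVector p k)) := witt_charZero p k
  have hinj : Function.Injective (algebraMap (WittVector p k) (FractionRing (WittVector p k))) :=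
    IsFractionRing.injective (WittVector p k) (FractionRing (WittVector p k))
  obtain ⟨j, hj⟩ := exists_embed (FractionRing (WittVector p k)) (witt_card p k) A
    ((algebraMap (WittVector p k) (FractionRing (WittVector p k))).comp (f.comp σ))
    (hinj.comp (hf3.comp hσ))
  obtain ⟨τ, hτ⟩ := exists_ext_aut (FractionRing (WittVector p k)) j
    (IsFractionRing.ringEquivOfRingEquiv (WittVector.frobeniusEquiv p k))
  exact ⟨{
    f := f
    res := WittVector.constantCoeff
    φ := WittVector.frobenius
    J := j.comp (algebraMap (WittVector p k) (FractionRing (WittVector p k)))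
    τ := τ
    res_surj := witt_surj p k
    res_ker := witt_ker p k
    res_unit := witt_unit p k
    res_f := hf1
    φ_f := hf2
    res_φ := witt_phi p k
    J_inj := j.injective.comp hinj
    J_f := hj
    τ_J := fun x => by
      change τ (j (algebraMap (WittVector p k) (FractionRing (WittVector p k)) x)) =
        j (algebraMap (WittVector p k) (FractionRing (WittVector p k)) (WittVector.frobenius x))
      rw [hτ, IsFractionRing.ringEquivOfRingEquiv_algebraMap]
      rfl
    compl := witt_compl p k
    sep := witt_sep p k }⟩

end WCn
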