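import Pool.Agent.Lib.MP_c2b80f_alE.FfB
import Pool.Agent.Lib.MP_c2b80f_alE.WtE
import Pool.Agent.Lib.MP_c2b80f_alE.HsE
import Pool.Agent.Lib.MP_c2b80f_alE.HsF
import Pool.Agent.Lib.MP_c2b80f_alE.SpX
import Pool.Agent.Lib.MP_c2b80f_alE.PlC

/-!
# The target at one prime (job TgA)
-/

open Matrix

namespace WCn

variable {m r : ℕ} {ι : Type} [Fintype ι] [DecidableEq ι] {G : Subgroup (SLC m)} {D : RD m r ι}

private theorem TgA_orderOf (hD : IsRD G D) {w : GL (Fin r) ℤ} (hw : w ∈ D.W) : 0 < orderOf w := by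
  have : Finite D.W := hD.weyl_finite
  have h1 : IsOfFinOrder (⟨w, hw⟩ : D.W) := isOfFinOrder_of_finite _
  have h2 : IsOfFinOrder (D.W.subtype ⟨w, hw⟩) := MonoidHom.isOfFinOrder D.W.subtype h1
  exact h2.orderOf_pos

private theorem TgA_q {p : ℕ} [Fact p.Prime] {A : Subring ℂ} {σ : A →+* ℤ_[p]} {O k : Type} [CommRing O] [IsDomain O] [Field k] [Algebra (ZMod p) k]
    (W : WD p A σ O k) : W.res.comp W.s = (algebraMap (ZMod p) k).comp ((PadicInt.toZMod (p := p)).comp σ) := by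
  ext a
  change W.res (W.f (σ a)) = _
  rw [W.res_f]
  rfl

private theorem TgA_Sv {R R' R'' : Type*} [CommRing R] [CommRing R'] [CommRing R''] (d : AD m r ι R) (f : R →+* R') (f' : R' →+* R'') (t : Fin r → R'') :
    (d.map f).Sv f' t = d.Sv (f'.comp f) t := by
  unfold AD.Sv
  ext a b
  simp only [AD.map, Matrix.map_apply]
  rw [MvPolynomial.eval₂_map]

private theorem TgA_red {p : ℕ} [Fact p.Prime] {A : Subring ℂ} {σ : A →+* ℤ_[p]} {O k : Type} [CommRing O] [IsDomain O] [Field k] [Algebra (ZMod p) k]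
    (W : WD p A σ O k) (d : AD m r ι A) (t : Fin r → O) :
    ((d.eS D).map W.s + d.Sv W.s t).map W.res =
      ((d.map ((PadicInt.toZMod (p := p)).comp σ)).eS D).map (algebraMap (ZMod p) k) +
        (d.map ((PadicInt.toZMod (p := p)).comp σ)).Sv (algebraMap (ZMod p) k) (fun i => W.res (t i)) := by
  rw [Matrix.map_add _ (fun a b => map_add W.res a b), Sv_map, TgA_Sv, TgA_q, eS_map]
  congr 1
  rw [Matrix.map_map, Matrix.map_map]
  ext a b
  have h1 := congrArg (fun f : A →+* k => f (d.eS D a b)) (TgA_q W)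
  exact h1

theorem tg_exists_target (hG : AlmostSimple G) (hD : IsRD G D) :
    ∃ P₀ : ℕ, ∀ (A : Subring ℂ) [Countable A] (d : AD m r ι A), d.Of G D → ∀ (p : ℕ) [Fact p.Prime], P₀ < p →
      ∀ σ : A →+* ℤ_[p], Function.Injective σ → ∀ w ∈ D.W,
        ∃ X₀ ∈ (d.map ((PadicInt.toZMod (p := p)).comp σ)).L D, X₀ ≠ 0 ∧
          ∀ (T : Type) [Group T] (ψ : T →* SLC m), ψ.range ≤ G → ∀ (hA : ∀ g i j, (ψ g).1 i j ∈ A) (γ : T) (k : ℕ), 1 ≤ k →
            Lev k (homZ ψ A hA p σ γ) X₀ → PlaceAt G D A (ψ γ) w := by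
  obtain ⟨P₀, hP₀⟩ := exists_tbar hD
  refine ⟨P₀, ?_⟩
  intro A _ d hd p _ hp σ hσ w hw
  have hM : 0 < orderOf w := TgA_orderOf hD hw
  have hwM : w ^ orderOf w = 1 := pow_orderOf_eq_one w
  have hk : Nat.card (GaloisField p (orderOf w)) = p ^ orderOf w := GaloisField.card p _ hM.ne'
  obtain ⟨tb, htb1, htb2, htb3, htb4⟩ := hP₀ p hp (orderOf w) hM w hwM (GaloisField p (orderOf w)) hk
  obtain ⟨W⟩ := exists_WD p (GaloisField p (orderOf w)) A σ hσ
  choose t ht using fun i => W.res_surj (tb i)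
  have htt : (fun i => W.res (t i)) = tb := funext ht
  have hrt : ∀ β, W.res (D.rt β t) ≠ 0 := by
    intro β
    rw [rt_map, htt]
    exact htb2 β
  have hu : ∀ β, ∃ v, D.rt β t * v = 1 := by
    intro β
    obtain ⟨u, hu⟩ := W.res_unit _ (hrt β)
    exact ⟨((u⁻¹ : (WittVector p (GaloisField p (orderOf w)))ˣ) : WittVector p (GaloisField p (orderOf w))), by rw [← hu]; exact u.mul_inv⟩
  choose v hv using hu
  have hok : (d.map ((PadicInt.toZMod (p := p)).comp σ)).Ok D := hd.ok.map _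
  obtain ⟨X₀, hX₀, hX₀'⟩ := exists_X0 (k := GaloisField p (orderOf w)) hok hw tb (fun i => htb1 i)
  have hred : X₀.map (algebraMap (ZMod p) (GaloisField p (orderOf w))) = ((d.eS D).map W.s + d.Sv W.s t).map W.res := by
    rw [TgA_red, htt, hX₀']
  refine ⟨X₀, hX₀, ?_, ?_⟩
  · intro h0
    apply W.X0_ne hD hd t v hv
    rw [W.cg_one_iff, ← hred, h0]
    ext a b
    simp
  · intro T _ ψ hψ hA γ l hl hlev
    obtain ⟨Y, hY, hYX⟩ := hlev
    set γO : Matrix.SpecialLinearGroup (Fin m) (WittVector p (GaloisField p (orderOf w))) := Matrix.SpecialLinearGroup.map W.f (homZ ψ A hA p σ γ) with hγO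
    have hγφ : Matrix.SpecialLinearGroup.map W.φ γO = γO := by
      apply Subtype.ext
      refine Matrix.ext (fun a b => ?_)
      change W.φ (W.f ((homZ ψ A hA p σ γ).1 a b)) = W.f ((homZ ψ A hA p σ γ).1 a b)
      rw [W.φ_f]
    have hγJ : Matrix.SpecialLinearGroup.map W.J γO = ψ γ := by
      apply Subtype.ext
      ext a b
      change W.J (W.f ((homZ ψ A hA p σ γ).1 a b)) = (ψ γ).1 a b
      rw [homZ_apply, W.J_f]
    have hγG : γO ∈ W.GO G := by
      unfold WD.GO
      rw [Subgroup.mem_comap, hγJ]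
      exact hψ ⟨γ, rfl⟩
    have hγS : γO.1 = 1 + (p : WittVector p (GaloisField p (orderOf w))) ^ l • Y.map W.f := by
      change ((homZ ψ A hA p σ γ).1).map W.f = _
      rw [hY]
      refine Matrix.ext (fun a b => ?_)
      simp only [Matrix.map_apply, Matrix.add_apply, Matrix.smul_apply, smul_eq_mul, map_add, map_mul, map_pow, map_natCast, Matrix.one_apply]
      split_ifs
      · rw [map_one]
      · rw [map_zero]
    have hS : Cg p 1 (Y.map W.f) ((d.eS D).map W.s + d.Sv W.s t) := by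
      rw [W.cg_one_iff, ← hred, ← hYX]
      ext a b
      simp only [Matrix.map_apply]
      exact W.res_f _
    obtain ⟨g₀, hg₀, hg₀'⟩ := W.hensel_base hd (l := l) (γ := γO) t v hv (Y.map W.f) hγS hS
    obtain ⟨g, hg, z, hz, hgz⟩ := W.hensel hG.closed hD hd hl hγG t v hv hg₀ hg₀'
    refine W.placeAt hG hD hd hl t hrt hw ?_ ?_ ?_ hγφ hg z hz hgz (ψ γ) hγJ
    · intro i
      rw [htt, ht]
      exact htb1 i
    · intro w' hw' h
      rw [htt] at h
      exact htb3 w' hw' h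
    · intro a b h
      apply htb4 a b
      have h1 : ∀ c, ∑ i, (D.wt c i : GaloisField p (orderOf w)) * W.res (t i) = ∑ i, (D.wt c i : GaloisField p (orderOf w)) * tb i := by
        intro c
        apply Finset.sum_congr rfl
        intro i _
        rw [ht]
      rw [← h1 a, ← h1 b]
      exact h

end WCn
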