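import Pool.Agent.Lib.MP_c2b80f_alE.DtG
import Pool.Agent.Lib.MP_c2b80f_alE.TgA
import Pool.Agent.Lib.MP_c2b80f_alE.LvrJ

/-!
# Groups with a root datum have generic elements
-/

open Matrix

namespace WCn

variable {m r : ℕ} {ι : Type} [Fintype ι] [DecidableEq ι] {G : Subgroup (SLC m)} {D : RD m r ι}

/-- Groups with a root datum have generic elements. -/
theorem hasGen_of_isRD (hG : AlmostSimple G) (hD : IsRD G D) : HasGen r G :=
  hasGen_of_isRD' hG hD (dt_exists_data hG hD) (tg_exists_target hG hD)

end WCn
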