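import Pool.Agent.Lib.MP_c2b80f_alE.CbDefs

/-!
# Root data in coordinates: roots and coroots (job CbA)
-/

open Matrix Module

namespace WCn

set_option linter.unusedSectionVars false

variable {ι M N : Type} [Finite ι] [AddCommGroup M] [Module ℂ M] [AddCommGroup N] [Module ℂ N] (P : RootPairing ι ℂ M N) [P.IsRootSystem] [P.IsCrystallographic]
  [P.IsReduced] (b : P.Base) {r : ℕ} (σ : Fin r ≃ b.support)

/-- `choose_spec` of `Base.exists_root_eq_sum_int` for the flipped base, and reindexing the sum over `b.support` by `σ`. -/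
theorem coroot_eq_sum (β : ι) : P.coroot β = ∑ i, (corootZ P b σ β i : ℂ) • P.coroot (simZ P b σ i) := by
  have h : P.coroot β = ∑ j ∈ b.support, (b.flip.exists_root_eq_sum_int β).choose j • P.coroot j :=
    (b.flip.exists_root_eq_sum_int β).choose_spec.2.2
  rw [← Finset.sum_coe_sort b.support, ← Equiv.sum_comp σ] at h
  refine h.trans (Finset.sum_congr rfl fun i _ => ?_)
  rw [Int.cast_smul_eq_zsmul]
  rfl

private theorem CbA_rz (β : ι) (i : Fin r) : ((rootZ P b σ β i : ℤ) : ℂ) = P.toLinearMap (P.root β) (P.coroot (simZ P b σ i)) := by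
  rw [P.root_coroot_eq_pairing, ← P.algebraMap_pairingIn ℤ]
  rfl

/-- Pair the root `γ` with `coroot_eq_sum`. -/
theorem pairing_eq_sum (γ β : ι) : P.pairingIn ℤ γ β = ∑ i, rootZ P b σ γ i * corootZ P b σ β i := by
  apply Int.cast_injective (α := ℂ)
  have h1 : ((P.pairingIn ℤ γ β : ℤ) : ℂ) = P.toLinearMap (P.root γ) (P.coroot β) := by
    rw [P.root_coroot_eq_pairing, ← P.algebraMap_pairingIn ℤ]
    rfl
  rw [h1, coroot_eq_sum P b σ β, map_sum]
  push_cast
  refine Finset.sum_congr rfl fun i _ => ?_
  rw [map_smul, smul_eq_mul, CbA_rz, mul_comm]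

/-- The simple coroots are a basis (`Base.toCoweightBasis`, or `linearIndepOn_coroot` and `span_coroot_support`), reindexed. -/
theorem simZ_coroot_indep (t : Fin r → ℂ) (h : ∑ i, t i • P.coroot (simZ P b σ i) = 0) : t = 0 := by
  have h1 : LinearIndependent ℂ (fun i : Fin r => P.coroot (σ i : ι)) :=
    LinearIndependent.comp (v := fun j : b.support => P.coroot (j : ι)) b.linearIndepOn_coroot σ σ.injective
  funext i
  exact Fintype.linearIndependent_iff.1 h1 t h i

theorem simZ_root_indep (t : Fin r → ℂ) (h : ∑ i, t i • P.root (simZ P b σ i) = 0) : t = 0 := by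
  have h1 : LinearIndependent ℂ (fun i : Fin r => P.root (σ i : ι)) :=
    LinearIndependent.comp (v := fun j : b.support => P.root (j : ι)) b.linearIndepOn_root σ σ.injective
  funext i
  exact Fintype.linearIndependent_iff.1 h1 t h i

/-- A root is determined by its values on the simple coroots, which span `N` (perfect pairing). More generally linear relations between roots can be checked in coordinates. -/
theorem eq_zero_of_pairing (v : M) (h : ∀ i, P.toLinearMap v (P.coroot (simZ P b σ i)) = 0) : v = 0 := by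
  have h1 : P.toLinearMap v = 0 := by
    refine b.toCoweightBasis.ext fun i => ?_
    rw [RootPairing.Base.toCoweightBasis_apply, LinearMap.zero_apply]
    have h2 := h (σ.symm i)
    have h3 : simZ P b σ (σ.symm i) = (i : ι) := by
      unfold simZ
      rw [Equiv.apply_symm_apply]
    rwa [h3] at h2
  have h4 : Function.Injective P.toLinearMap := (LinearMap.IsPerfPair.bijective_left P.toLinearMap).1
  apply h4
  rw [h1, map_zero]

/-- Linear relations between roots hold if and only if they hold in coordinates. -/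
theorem root_rel_iff (β γ : ι) (κ : Type) [Fintype κ] (c : κ → ℤ) (δ : κ → ι) (n : ℤ) :
    P.root β = n • P.root γ + ∑ k, c k • P.root (δ k) ↔
      rootZ P b σ β = n • rootZ P b σ γ + ∑ k, c k • rootZ P b σ (δ k) := by
  have key : ∀ i, (((n • rootZ P b σ γ + ∑ k, c k • rootZ P b σ (δ k)) i : ℤ) : ℂ) =
      P.toLinearMap (n • P.root γ + ∑ k, c k • P.root (δ k)) (P.coroot (simZ P b σ i)) := by
    intro i
    rw [map_add, map_sum, map_zsmul, LinearMap.add_apply, LinearMap.sum_apply, LinearMap.smul_apply, ← CbA_rz,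
      Pi.add_apply, Pi.smul_apply, Finset.sum_apply]
    push_cast
    rw [smul_eq_mul, Int.cast_mul, zsmul_eq_mul]
    congr 1
    refine Finset.sum_congr rfl fun k _ => ?_
    rw [map_zsmul, LinearMap.smul_apply, ← CbA_rz, Pi.smul_apply, smul_eq_mul, Int.cast_mul, zsmul_eq_mul]
  constructor
  · intro h
    funext i
    apply Int.cast_injective (α := ℂ)
    rw [key, ← h, CbA_rz]
  · intro h
    rw [← sub_eq_zero]
    refine eq_zero_of_pairing P b σ _ fun i => ?_
    rw [map_sub, LinearMap.sub_apply, ← CbA_rz, ← key, h, sub_self]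

theorem rootZ_injective : Function.Injective (rootZ P b σ) := by
  intro β γ h
  apply P.root.injective
  rw [← sub_eq_zero]
  refine eq_zero_of_pairing P b σ _ fun i => ?_
  rw [map_sub, LinearMap.sub_apply, ← CbA_rz, ← CbA_rz, h, sub_self]

theorem rootZ_ne_zero (β : ι) : rootZ P b σ β ≠ 0 := by
  intro h
  apply P.ne_zero β
  refine eq_zero_of_pairing P b σ _ fun i => ?_
  rw [← CbA_rz, h, Pi.zero_apply, Int.cast_zero]

theorem rootZ_neg (β : ι) : rootZ P b σ (negZ P β) = - rootZ P b σ β := by
  funext i
  rw [Pi.neg_apply]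
  exact P.pairingIn_reflectionPerm_self_left ℤ β (σ i)

private theorem CbA_root_neg (β : ι) : P.root (negZ P β) = - P.root β := by
  unfold negZ
  rw [P.root_reflectionPerm, P.reflection_apply_self]

private theorem CbA_coroot_neg (β : ι) : P.coroot (negZ P β) = - P.coroot β := by
  unfold negZ
  rw [P.coroot_reflectionPerm, P.coreflection_apply_self]

private theorem CbA_coroot_unique (f g : Fin r → ℤ) (h : ∑ i, (f i : ℂ) • P.coroot (simZ P b σ i) =
    ∑ i, (g i : ℂ) • P.coroot (simZ P b σ i)) : f = g := by
  have h1 : (fun i => ((f i : ℂ) - (g i : ℂ))) = 0 := by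
    refine simZ_coroot_indep P b σ _ ?_
    simp only [sub_smul]
    rw [Finset.sum_sub_distrib, h, sub_self]
  funext i
  apply Int.cast_injective (α := ℂ)
  exact sub_eq_zero.1 (congrFun h1 i)

theorem corootZ_neg (β : ι) : corootZ P b σ (negZ P β) = - corootZ P b σ β := by
  refine CbA_coroot_unique P b σ _ _ ?_
  rw [← coroot_eq_sum, CbA_coroot_neg, coroot_eq_sum P b σ β, ← Finset.sum_neg_distrib]
  refine Finset.sum_congr rfl fun i _ => ?_
  rw [Pi.neg_apply, Int.cast_neg, neg_smul]

theorem negZ_negZ (β : ι) : negZ P (negZ P β) = β := by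
  apply P.root.injective
  rw [CbA_root_neg, CbA_root_neg, neg_neg]

theorem rootZ_two (β : ι) : ∑ i, rootZ P b σ β i * corootZ P b σ β i = 2 := by
  rw [← pairing_eq_sum, P.pairingIn_same]

theorem corootZ_simple (i : Fin r) : corootZ P b σ (simZ P b σ i) = Pi.single i 1 := by
  refine CbA_coroot_unique P b σ _ _ ?_
  rw [← coroot_eq_sum, Finset.sum_eq_single i]
  · rw [Pi.single_eq_same, Int.cast_one, one_smul]
  · intro j _ hj
    rw [Pi.single_eq_of_ne hj, Int.cast_zero, zero_smul]
  · intro h
    exact absurd (Finset.mem_univ i) h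

end WCn
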