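import Pool.Agent.Lib.MP_c2b80f_alE.CbA

/-!
# Root data in coordinates: reflections, heights (job CbB)
-/

open Matrix Module

namespace WCn

variable {ι M N : Type} [Finite ι] [AddCommGroup M] [Module ℂ M] [AddCommGroup N] [Module ℂ N] (P : RootPairing ι ℂ M N) [P.IsRootSystem] [P.IsCrystallographic]
  [P.IsReduced] (b : P.Base) {r : ℕ} (σ : Fin r ≃ b.support)

omit [Finite ι] [P.IsRootSystem] [P.IsReduced] in
theorem CbB_cast (β γ : ι) : ((P.pairingIn ℤ β γ : ℤ) : ℂ) = P.pairing β γ := by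
  rw [← P.algebraMap_pairingIn ℤ β γ, eq_intCast]

omit [Finite ι] [P.IsRootSystem] [P.IsReduced] in
theorem CbB_root (β γ : ι) : P.root (P.reflectionPerm β γ) = P.root γ - P.pairingIn ℤ γ β • P.root β := by
  rw [P.root_reflectionPerm, P.reflection_apply_root, ← CbB_cast, Int.cast_smul_eq_zsmul]

omit [Finite ι] [P.IsRootSystem] [P.IsReduced] in
theorem CbB_coroot (β γ : ι) : P.coroot (P.reflectionPerm β γ) = P.coroot γ - P.pairingIn ℤ β γ • P.coroot β := by
  rw [P.coroot_reflectionPerm, P.coreflection_apply_coroot, ← CbB_cast, Int.cast_smul_eq_zsmul]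

/-- `reflectionPerm β γ` in coordinates (`root_reflectionPerm`, `coroot_reflectionPerm`, `pairing_eq_sum`, and uniqueness of the coordinates). -/
theorem rootZ_refl (β γ : ι) : rootZ P b σ (P.reflectionPerm β γ) = rootZ P b σ γ - (∑ i, rootZ P b σ γ i * corootZ P b σ β i) • rootZ P b σ β ∧
    corootZ P b σ (P.reflectionPerm β γ) = corootZ P b σ γ - (∑ i, rootZ P b σ β i * corootZ P b σ γ i) • corootZ P b σ β := by
  rw [← pairing_eq_sum, ← pairing_eq_sum]
  constructor
  · have h1 := (root_rel_iff P b σ (P.reflectionPerm β γ) γ Unit (fun _ => -P.pairingIn ℤ γ β) (fun _ => β) 1).1 (by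
      rw [CbB_root, Fintype.sum_unique, one_smul, neg_smul, sub_eq_add_neg])
    rw [h1, Fintype.sum_unique, one_smul, neg_smul, sub_eq_add_neg]
  · have h1 := CbB_coroot P β γ
    have h2 : ∑ i, ((corootZ P b σ (P.reflectionPerm β γ) i - (corootZ P b σ γ i - P.pairingIn ℤ β γ * corootZ P b σ β i) : ℤ) : ℂ) •
        P.coroot (simZ P b σ i) = 0 := by
      have h3 : ∀ i, ((corootZ P b σ (P.reflectionPerm β γ) i - (corootZ P b σ γ i - P.pairingIn ℤ β γ * corootZ P b σ β i) : ℤ) : ℂ) •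
          P.coroot (simZ P b σ i) = (corootZ P b σ (P.reflectionPerm β γ) i : ℂ) • P.coroot (simZ P b σ i) -
            ((corootZ P b σ γ i : ℂ) • P.coroot (simZ P b σ i) -
              P.pairingIn ℤ β γ • ((corootZ P b σ β i : ℂ) • P.coroot (simZ P b σ i))) := by
        intro i
        push_cast
        rw [sub_smul, sub_smul, mul_smul, Int.cast_smul_eq_zsmul ℂ (P.pairingIn ℤ β γ)]
      rw [Finset.sum_congr rfl fun i _ => h3 i, Finset.sum_sub_distrib, Finset.sum_sub_distrib, ← Finset.smul_sum,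
        ← coroot_eq_sum, ← coroot_eq_sum, ← coroot_eq_sum, h1, sub_self]
    have h4 := simZ_coroot_indep P b σ _ h2
    funext i
    have h5 := congrFun h4 i
    simp only [Pi.zero_apply, Int.cast_eq_zero] at h5
    rw [Pi.sub_apply, Pi.smul_apply, smul_eq_mul]
    exact sub_eq_zero.1 h5

/-- `Base.sub_notMem_range_root` (and `rootZ_injective`, `root_rel_iff`). -/
theorem rootZ_simple_diff (i j : Fin r) (β : ι) (hij : i ≠ j) : rootZ P b σ β ≠ rootZ P b σ (simZ P b σ i) - rootZ P b σ (simZ P b σ j) := by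
  intro h
  have h1 := (root_rel_iff P b σ β (simZ P b σ i) Unit (fun _ => -1) (fun _ => simZ P b σ j) 1).2 (by
    rw [h, Fintype.sum_unique, one_smul, neg_smul, one_smul, sub_eq_add_neg])
  rw [Fintype.sum_unique, one_smul, neg_smul, one_smul, ← sub_eq_add_neg] at h1
  exact b.sub_notMem_range_root (σ i).2 (σ j).2 ⟨β, h1⟩

omit [Finite ι] [P.IsRootSystem] [P.IsCrystallographic] [P.IsReduced] in
theorem CbB_sum {V : Type} [AddCommMonoid V] (F : ι → V) : ∑ j ∈ b.support, F j = ∑ i, F (simZ P b σ i) := by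
  rw [← Finset.sum_coe_sort b.support F]
  exact (Equiv.sum_comp σ fun j : b.support => F j).symm

/-- `Base.exists_root_eq_sum_int`, `Base.height_eq_sum`. -/
theorem rootZ_ht_sum (β : ι) : ∃ f : Fin r → ℤ, ((∀ i, 0 ≤ f i) ∨ (∀ i, f i ≤ 0)) ∧ rootZ P b σ β = ∑ i, f i • rootZ P b σ (simZ P b σ i) ∧ b.height β = ∑ i, f i := by
  obtain ⟨f, -, h1, h2⟩ := b.exists_root_eq_sum_int β
  refine ⟨fun i => f (simZ P b σ i), ?_, ?_, ?_⟩
  · rcases h1 with h1 | h1
    · exact Or.inl fun i => h1.le _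
    · exact Or.inr fun i => h1.le _
  · have h3 := (root_rel_iff P b σ β β (Fin r) (fun i => f (simZ P b σ i)) (simZ P b σ) 0).1 (by
      rw [zero_smul, zero_add, ← CbB_sum P b σ fun j => f j • P.root j]
      exact h2)
    rw [zero_smul, zero_add] at h3
    exact h3
  · rw [RootPairing.Base.height_eq_sum h2, CbB_sum P b σ]

theorem rootZ_ht_simple (i : Fin r) : b.height (simZ P b σ i) = 1 :=
  RootPairing.Base.height_one_of_mem_support (σ i).2

theorem rootZ_ht_neg (β : ι) : b.height (negZ P β) = - b.height β :=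
  b.height_reflectionPerm_self β

theorem rootZ_ht_ne (β : ι) : b.height β ≠ 0 := b.height_ne_zero β

/-- The height is linear in the coordinates. Proof. The rational matrix `C j i = rootZ (simZ j) i` is invertible: if `∑ j, x j * C j i = 0` for all `i` with rational `x` then `∑ j, x j • P.root (simZ j) = 0` by `eq_zero_of_pairing`, so `x = 0` by `simZ_root_indep`. Choose `c` with `∑ i, C j i * c i = 1` for
all `j`, and use `rootZ_ht_sum`. -/
theorem rootZ_ht_lin : ∃ c : Fin r → ℚ, ∀ β, (b.height β : ℚ) = ∑ i, (rootZ P b σ β i : ℚ) * c i := by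
  classical
  set C : Matrix (Fin r) (Fin r) ℚ := Matrix.of fun j i => (rootZ P b σ (simZ P b σ j) i : ℚ) with hC
  have hdet : C.det ≠ 0 := by
    intro h0
    obtain ⟨v, hv, hvC⟩ := Matrix.exists_vecMul_eq_zero_iff.2 h0
    apply hv
    have h1 : ∑ j, (v j : ℂ) • P.root (simZ P b σ j) = 0 := by
      refine eq_zero_of_pairing P b σ _ fun i => ?_
      rw [map_sum, LinearMap.sum_apply]
      have h2 := congrFun hvC i
      have h3 : ((∑ j, v j * (rootZ P b σ (simZ P b σ j) i : ℚ) : ℚ) : ℂ) = 0 := by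
        have h4 : ∑ j, v j * (rootZ P b σ (simZ P b σ j) i : ℚ) = 0 := h2
        rw [h4, Rat.cast_zero]
      push_cast at h3
      rw [← h3]
      refine Finset.sum_congr rfl fun j _ => ?_
      rw [map_smul, LinearMap.smul_apply, P.root_coroot_eq_pairing, smul_eq_mul, ← CbB_cast]
      rfl
    have h2 := simZ_root_indep P b σ _ h1
    funext j
    have h3 := congrFun h2 j
    simpa using h3
  have hu : IsUnit C.det := isUnit_iff_ne_zero.2 hdet
  have hc : C *ᵥ (C⁻¹ *ᵥ fun _ => 1) = fun _ => 1 := by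
    rw [Matrix.mulVec_mulVec, Matrix.mul_nonsing_inv C hu, Matrix.one_mulVec]
  refine ⟨C⁻¹ *ᵥ fun _ => 1, fun β => ?_⟩
  set c := C⁻¹ *ᵥ fun _ => (1 : ℚ) with hcd
  obtain ⟨f, -, h1, h2⟩ := rootZ_ht_sum P b σ β
  rw [h2, h1]
  have h3 : ∀ i, (((∑ j, f j • rootZ P b σ (simZ P b σ j)) i : ℤ) : ℚ) * c i = ∑ j, (f j : ℚ) * (C j i * c i) := by
    intro i
    rw [Finset.sum_apply, Int.cast_sum, Finset.sum_mul]
    refine Finset.sum_congr rfl fun j _ => ?_
    rw [Pi.smul_apply, smul_eq_mul, Int.cast_mul, mul_assoc]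
    rfl
  rw [Finset.sum_congr rfl fun i _ => h3 i, Finset.sum_comm, Int.cast_sum]
  refine Finset.sum_congr rfl fun j _ => ?_
  rw [← Finset.mul_sum]
  have h4 : ∑ i, C j i * c i = 1 := congrFun hc j
  rw [h4, mul_one]

end WCn
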