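import Pool.Agent.Lib.MP_c2b80f_alE.CbB

/-!
# The Weyl group is generated by the simple reflections (job CbC)
-/

open Matrix Module

namespace WCn

variable {ι M N : Type} [Finite ι] [AddCommGroup M] [Module ℂ M] [AddCommGroup N] [Module ℂ N] (P : RootPairing ι ℂ M N) [P.IsRootSystem] [P.IsCrystallographic]
  [P.IsReduced] (b : P.Base) {r : ℕ} (σ : Fin r ≃ b.support)

private theorem CbC_sq {r : ℕ} (c ρ : Fin r → ℤ) (h : ∑ i, ρ i * c i = 2) :
    (1 - Matrix.vecMulVec c ρ) * (1 - Matrix.vecMulVec c ρ) = 1 := by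
  have h1 : Matrix.vecMulVec c ρ * Matrix.vecMulVec c ρ = Matrix.vecMulVec c ρ + Matrix.vecMulVec c ρ := by
    ext a b
    rw [Matrix.mul_apply, Matrix.add_apply]
    simp only [Matrix.vecMulVec_apply]
    have h2 : ∀ j, c a * ρ j * (c j * ρ b) = (ρ j * c j) * (c a * ρ b) := fun j => by ring
    rw [Finset.sum_congr rfl fun j _ => h2 j, ← Finset.sum_mul, h]
    ring
  have h3 : (1 - Matrix.vecMulVec c ρ) * (1 - Matrix.vecMulVec c ρ) =
      1 - (Matrix.vecMulVec c ρ + Matrix.vecMulVec c ρ) + Matrix.vecMulVec c ρ * Matrix.vecMulVec c ρ := by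
    noncomm_ring
  rw [h3, h1]
  abel

private theorem CbC_conj {r : ℕ} (c ρ c' ρ' : Fin r → ℤ) (h : ∑ i, ρ i * c i = 2) :
    (1 - Matrix.vecMulVec c ρ) * (1 - Matrix.vecMulVec c' ρ') * (1 - Matrix.vecMulVec c ρ) =
      1 - Matrix.vecMulVec (c' - (∑ i, ρ i * c' i) • c) (ρ' - (∑ i, ρ' i * c i) • ρ) := by
  have h1 : (1 - Matrix.vecMulVec c ρ) * (1 - Matrix.vecMulVec c' ρ') * (1 - Matrix.vecMulVec c ρ) =
      (1 - Matrix.vecMulVec c ρ) * (1 - Matrix.vecMulVec c ρ) -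
        ((1 - Matrix.vecMulVec c ρ) * Matrix.vecMulVec c' ρ') * (1 - Matrix.vecMulVec c ρ) := by
    noncomm_ring
  rw [h1, CbC_sq c ρ h]
  congr 1
  have h2 : (1 - Matrix.vecMulVec c ρ) * Matrix.vecMulVec c' ρ' =
      Matrix.vecMulVec (c' - (∑ i, ρ i * c' i) • c) ρ' := by
    rw [Matrix.sub_mul, Matrix.one_mul]
    ext a b
    rw [Matrix.sub_apply, Matrix.mul_apply]
    simp only [Matrix.vecMulVec_apply, Pi.sub_apply, Pi.smul_apply, smul_eq_mul]
    have h3 : ∀ j, c a * ρ j * (c' j * ρ' b) = (ρ j * c' j) * (c a * ρ' b) := fun j => by ring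
    rw [Finset.sum_congr rfl fun j _ => h3 j, ← Finset.sum_mul]
    ring
  rw [h2, Matrix.mul_sub, Matrix.mul_one]
  ext a b
  rw [Matrix.sub_apply, Matrix.mul_apply]
  simp only [Matrix.vecMulVec_apply, Pi.sub_apply, Pi.smul_apply, smul_eq_mul]
  have h3 : ∀ j, (c' a - (∑ i, ρ i * c' i) * c a) * ρ' j * (c j * ρ b) =
      (ρ' j * c j) * ((c' a - (∑ i, ρ i * c' i) * c a) * ρ b) := fun j => by ring
  rw [Finset.sum_congr rfl fun j _ => h3 j, ← Finset.sum_mul]
  ring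

/-- Proof by `Base.induction_reflect`, for the predicate on `β`: all `w` with matrix `1 - coroot β ⊗ root β` are in the closure. The matrix for the index `reflectionPerm β β` is the same (both signs change). For the simple roots it is one of the generators. If `j = simZ i` and `δ = reflectionPerm j β` then by
`rootZ_refl` the matrix of `δ` is `s_j s_β s_j`, where `s_j`, `s_β` are the matrices of `j`, `β`, which are invertible because their squares are `1` (`rootZ_two`; `GL (Fin r) ℤ` consists of the units of the ring of matrices). -/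
theorem rootZ_gen (β : ι) (w : GL (Fin r) ℤ) (hw : w.1 = 1 - Matrix.vecMulVec (corootZ P b σ β) (rootZ P b σ β)) :
    w ∈ Subgroup.closure {w : GL (Fin r) ℤ | ∃ i, w.1 = 1 - Matrix.vecMulVec (corootZ P b σ (simZ P b σ i)) (rootZ P b σ (simZ P b σ i))} := by
  revert w
  have hsim : ∀ j ∈ b.support, ∃ i, j = simZ P b σ i := by
    intro j hj
    refine ⟨σ.symm ⟨j, hj⟩, ?_⟩
    show j = ((σ (σ.symm ⟨j, hj⟩) : b.support) : ι)
    rw [Equiv.apply_symm_apply]
  refine b.induction_reflect β (p := fun β => ∀ w : GL (Fin r) ℤ,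
    w.1 = 1 - Matrix.vecMulVec (corootZ P b σ β) (rootZ P b σ β) →
    w ∈ Subgroup.closure {w : GL (Fin r) ℤ | ∃ i, w.1 = 1 - Matrix.vecMulVec (corootZ P b σ (simZ P b σ i)) (rootZ P b σ (simZ P b σ i))})
    ?_ ?_ ?_
  · intro i hi w hw
    refine hi w ?_
    have h1 : rootZ P b σ (P.reflectionPerm i i) = - rootZ P b σ i := rootZ_neg P b σ i
    have h2 : corootZ P b σ (P.reflectionPerm i i) = - corootZ P b σ i := corootZ_neg P b σ i
    rw [hw, h1, h2]
    congr 1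
    ext a c
    simp only [Matrix.vecMulVec_apply, Pi.neg_apply, neg_mul_neg]
  · intro j hj w hw
    obtain ⟨i, rfl⟩ := hsim j hj
    exact Subgroup.subset_closure ⟨i, hw⟩
  · intro i j hi hj w hw
    obtain ⟨h1, h2⟩ := rootZ_refl P b σ j i
    have sj := CbC_sq (corootZ P b σ j) (rootZ P b σ j) (rootZ_two P b σ j)
    have si := CbC_sq (corootZ P b σ i) (rootZ P b σ i) (rootZ_two P b σ i)
    obtain ⟨Wj, hWj⟩ : ∃ Wj : GL (Fin r) ℤ, Wj.1 = 1 - Matrix.vecMulVec (corootZ P b σ j) (rootZ P b σ j) :=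
      ⟨⟨_, _, sj, sj⟩, rfl⟩
    obtain ⟨Wi, hWi⟩ : ∃ Wi : GL (Fin r) ℤ, Wi.1 = 1 - Matrix.vecMulVec (corootZ P b σ i) (rootZ P b σ i) :=
      ⟨⟨_, _, si, si⟩, rfl⟩
    have e1 : w = Wj * Wi * Wj := by
      apply Units.ext
      have e2 : (Wj * Wi * Wj).1 = Wj.1 * Wi.1 * Wj.1 := rfl
      refine Eq.trans ?_ e2.symm
      rw [hWj, hWi, CbC_conj _ _ _ _ (rootZ_two P b σ j), ← h1, ← h2]
      exact hw
    have hj' : Wj ∈ Subgroup.closure {w : GL (Fin r) ℤ | ∃ i, w.1 = 1 - Matrix.vecMulVec (corootZ P b σ (simZ P b σ i)) (rootZ P b σ (simZ P b σ i))} := by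
      obtain ⟨i', rfl⟩ := hsim j hj
      exact Subgroup.subset_closure ⟨i', hWj⟩
    rw [e1]
    exact Subgroup.mul_mem _ (Subgroup.mul_mem _ hj' (hi Wi hWi)) hj'

end WCn
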