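import Pool.Agent.Lib.MP_c2b80f_alE.CbB

/-!
# Irreducibility in rational coordinates (job CbD)
-/

open Matrix Module

namespace WCn

variable {ι M N : Type} [Finite ι] [AddCommGroup M] [Module ℂ M] [AddCommGroup N] [Module ℂ N] (P : RootPairing ι ℂ M N) [P.IsRootSystem] [P.IsCrystallographic]
  [P.IsReduced] (b : P.Base) {r : ℕ} (σ : Fin r ≃ b.support)

/-- Coordinates on `M`: `v ↦ (v(coroot i))_i` is a linear isomorphism `M ≃ ℂ^r` (perfect pairing, the simple coroots are a basis of `N`); the reflection in `β` becomes `v ↦ v - (∑ i, v i * corootZ β i) • rootZ β`. -/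
theorem exists_coordM : ∃ E : M ≃ₗ[ℂ] (Fin r → ℂ), (∀ v i, E v i = P.toLinearMap v (P.coroot (simZ P b σ i))) ∧
    ∀ β v, E (P.reflection β v) = E v - (∑ i, E v i * (corootZ P b σ β i : ℂ)) • (fun i => (rootZ P b σ β i : ℂ)) := by
  have hfin : Module.Finite ℂ M := Module.Finite.of_basis b.toWeightBasis
  set L : M →ₗ[ℂ] (Fin r → ℂ) := LinearMap.pi fun i => P.toLinearMap.flip (P.coroot (simZ P b σ i)) with hL
  have hLa : ∀ v i, L v i = P.toLinearMap v (P.coroot (simZ P b σ i)) := fun v i => rfl
  have hinj : Function.Injective L := by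
    rw [injective_iff_map_eq_zero]
    intro v hv
    refine eq_zero_of_pairing P b σ v fun i => ?_
    rw [← hLa, hv]
    rfl
  have hdim : Module.finrank ℂ M = Module.finrank ℂ (Fin r → ℂ) := by
    rw [Module.finrank_eq_card_basis b.toWeightBasis, Module.finrank_fin_fun, ← Fintype.card_congr σ,
      Fintype.card_fin]
  refine ⟨LinearMap.linearEquivOfInjective L hinj hdim, fun v i => ?_, fun β v => ?_⟩
  · rw [LinearMap.linearEquivOfInjective_apply, hLa]
  · rw [LinearMap.linearEquivOfInjective_apply, LinearMap.linearEquivOfInjective_apply, P.reflection_apply, map_sub,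
      map_smul]
    have h1 : P.coroot' β v = ∑ i, L v i * (corootZ P b σ β i : ℂ) := by
      have h2 : P.coroot' β v = P.toLinearMap v (P.coroot β) := rfl
      rw [h2, coroot_eq_sum P b σ β, map_sum]
      refine Finset.sum_congr rfl fun i _ => ?_
      rw [map_smul, smul_eq_mul, mul_comm, hLa]
    have h3 : L (P.root β) = fun i => (rootZ P b σ β i : ℂ) := by
      funext i
      rw [hLa, P.root_coroot_eq_pairing, ← CbB_cast]
      rfl
    rw [h1, h3]

/-- Proof. Let `q ≤ ℚ^r` be stable under all reflections, and `Q ≤ ℂ^r` its complex span. `E⁻¹ Q ≤ M` is stable under all reflections of `P`, so it is `⊥` or `⊤` (`IsIrreducible.eq_top_of_invtSubmodule_reflection`). If `Q = ⊥` then `q = ⊥`. If `Q = ⊤` then `q = ⊤`: otherwise some nonzero rational linear form vanishes on `q`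
(`Submodule.exists_le_ker_of_notMem` or duality), hence on `Q`. -/
theorem rootZ_irr [P.IsIrreducible] (q : Submodule ℚ (Fin r → ℚ))
    (hq : ∀ β, ∀ v ∈ q, v - (∑ i, v i * (corootZ P b σ β i : ℚ)) • (fun i => (rootZ P b σ β i : ℚ)) ∈ q) : q = ⊥ ∨ q = ⊤ := by
  obtain ⟨E, -, hE⟩ := exists_coordM P b σ
  set cv : (Fin r → ℚ) → (Fin r → ℂ) := fun v i => (v i : ℂ) with hcv
  set Q : Submodule ℂ (Fin r → ℂ) := Submodule.span ℂ (cv '' q) with hQ
  set S : Submodule ℂ M := Q.comap E.toLinearMap with hS
  have hmem : ∀ v ∈ q, cv v ∈ Q := fun v hv => Submodule.subset_span ⟨v, hv, rfl⟩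
  have hT : ∀ β, ∀ w ∈ Q, w - (∑ i, w i * (corootZ P b σ β i : ℂ)) • (fun i => (rootZ P b σ β i : ℂ)) ∈ Q := by
    intro β w hw
    induction hw using Submodule.span_induction with
    | mem w hw =>
      obtain ⟨v, hv, rfl⟩ := hw
      have h1 := hmem _ (hq β v hv)
      have h2 : cv (v - (∑ i, v i * (corootZ P b σ β i : ℚ)) • (fun i => (rootZ P b σ β i : ℚ))) =
          cv v - (∑ i, cv v i * (corootZ P b σ β i : ℂ)) • (fun i => (rootZ P b σ β i : ℂ)) := by
        funext i
        simp only [hcv, Pi.sub_apply, Pi.smul_apply, smul_eq_mul]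
        push_cast
        rfl
      rw [h2] at h1
      exact h1
    | zero =>
      have h1 : (0 : Fin r → ℂ) - (∑ i, (0 : Fin r → ℂ) i * (corootZ P b σ β i : ℂ)) • (fun i => (rootZ P b σ β i : ℂ)) = 0 := by
        simp
      rw [h1]
      exact Q.zero_mem
    | add x y _ _ hx hy =>
      have h1 : (x + y) - (∑ i, (x + y) i * (corootZ P b σ β i : ℂ)) • (fun i => (rootZ P b σ β i : ℂ)) =
          (x - (∑ i, x i * (corootZ P b σ β i : ℂ)) • (fun i => (rootZ P b σ β i : ℂ))) +
            (y - (∑ i, y i * (corootZ P b σ β i : ℂ)) • (fun i => (rootZ P b σ β i : ℂ))) := by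
        have h2 : ∑ i, (x + y) i * (corootZ P b σ β i : ℂ) = (∑ i, x i * (corootZ P b σ β i : ℂ)) +
            ∑ i, y i * (corootZ P b σ β i : ℂ) := by
          rw [← Finset.sum_add_distrib]
          refine Finset.sum_congr rfl fun i _ => ?_
          rw [Pi.add_apply, add_mul]
        rw [h2, add_smul]
        abel
      rw [h1]
      exact Q.add_mem hx hy
    | smul a x _ hx =>
      have h1 : a • x - (∑ i, (a • x) i * (corootZ P b σ β i : ℂ)) • (fun i => (rootZ P b σ β i : ℂ)) =
          a • (x - (∑ i, x i * (corootZ P b σ β i : ℂ)) • (fun i => (rootZ P b σ β i : ℂ))) := by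
        have h2 : ∑ i, (a • x) i * (corootZ P b σ β i : ℂ) = a * ∑ i, x i * (corootZ P b σ β i : ℂ) := by
          rw [Finset.mul_sum]
          refine Finset.sum_congr rfl fun i _ => ?_
          rw [Pi.smul_apply, smul_eq_mul, mul_assoc]
        rw [h2, smul_sub, smul_smul]
      rw [h1]
      exact Q.smul_mem a hx
  have hinv : ∀ β, S ∈ Module.End.invtSubmodule (P.reflection β).toLinearMap := by
    intro β
    rw [Module.End.mem_invtSubmodule_iff_forall_mem_of_mem]
    intro v hv
    have h1 : E v ∈ Q := hv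
    have h2 := hT β (E v) h1
    rw [← hE β v] at h2
    exact h2
  by_cases hb : S = ⊥
  · left
    rw [Submodule.eq_bot_iff]
    intro v hv
    have h1 : E.symm (cv v) ∈ S := by
      show E (E.symm (cv v)) ∈ Q
      rw [E.apply_symm_apply]
      exact hmem v hv
    rw [hb, Submodule.mem_bot] at h1
    have h2 : cv v = 0 := by
      rw [← E.apply_symm_apply (cv v), h1, map_zero]
    funext i
    have h3 := congrFun h2 i
    simpa [hcv] using h3
  · right
    have htop : S = ⊤ := RootPairing.IsIrreducible.eq_top_of_invtSubmodule_reflection S hinv hb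
    by_contra hne
    obtain ⟨v, hv⟩ : ∃ v, v ∉ q := by
      by_contra hcon
      apply hne
      rw [Submodule.eq_top_iff']
      intro x
      by_contra hx
      exact hcon ⟨x, hx⟩
    obtain ⟨f, hfv, hpf⟩ := Submodule.exists_le_ker_of_notMem hv
    set a : Fin r → ℚ := fun i => f (fun j => if i = j then 1 else 0) with ha
    have hf : ∀ u, f u = ∑ i, u i * a i := fun u => by
      rw [LinearMap.pi_apply_eq_sum_univ f u]
      rfl
    have hF : ∀ u, ∑ i, cv u i * (a i : ℂ) = (f u : ℂ) := fun u => by
      rw [hf u]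
      push_cast
      rfl
    have hz : ∀ w ∈ Q, ∑ i, w i * (a i : ℂ) = 0 := by
      intro w hw
      induction hw using Submodule.span_induction with
      | mem w hw =>
        obtain ⟨u, hu, rfl⟩ := hw
        have h1 : f u = 0 := hpf hu
        rw [hF, h1, Rat.cast_zero]
      | zero => simp
      | add x y _ _ hx hy =>
        rw [← add_zero (0 : ℂ), ← hx]
        nth_rw 2 [hx]
        rw [← hy, ← Finset.sum_add_distrib]
        refine Finset.sum_congr rfl fun i _ => ?_
        rw [Pi.add_apply, add_mul]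
      | smul c x _ hx =>
        rw [← mul_zero c, ← hx, Finset.mul_sum]
        refine Finset.sum_congr rfl fun i _ => ?_
        rw [Pi.smul_apply, smul_eq_mul, mul_assoc]
    have h1 : E.symm (cv v) ∈ S := by
      rw [htop]
      exact Submodule.mem_top
    have h2 : cv v ∈ Q := by
      have h3 : E (E.symm (cv v)) ∈ Q := h1
      rw [E.apply_symm_apply] at h3
      exact h3
    have h3 := hz _ h2
    rw [hF] at h3
    exact hfv (by exact_mod_cast h3)

end WCn
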