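import Mathlib

/-!
# Root data in coordinates: definitions
-/

open Matrix Module

namespace WCn

/-- The combinatorial properties of a root datum in coordinates: `root β i` is the value of the root `β` at the `i`-th simple coroot, `coroot β i` the `i`-th coordinate of the coroot of `β` in the basis of the simple coroots. -/
structure RComb {r : ℕ} {ι : Type} (root coroot : ι → Fin r → ℤ) (neg : ι → ι) (simple : Fin r → ι) (ht : ι → ℤ) : Prop where
  root_inj : Function.Injective root
  root_ne : ∀ β, root β ≠ 0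
  neg_neg : ∀ β, neg (neg β) = β
  root_neg : ∀ β, root (neg β) = - root β
  coroot_neg : ∀ β, coroot (neg β) = - coroot β
  two : ∀ β, ∑ i, root β i * coroot β i = 2
  refl : ∀ β γ, ∃ δ, root δ = root γ - (∑ i, root γ i * coroot β i) • root β ∧
    coroot δ = coroot γ - (∑ i, root β i * coroot γ i) • coroot β
  pos : 0 < r
  simple_coroot : ∀ i, coroot (simple i) = Pi.single i 1
  simple_diff : ∀ i j β, i ≠ j → root β ≠ root (simple i) - root (simple j)
  ht_sum : ∀ β, ∃ f : Fin r → ℤ, ((∀ i, 0 ≤ f i) ∨ (∀ i, f i ≤ 0)) ∧ root β = ∑ i, f i • root (simple i) ∧ ht β = ∑ i, f i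
  ht_simple : ∀ i, ht (simple i) = 1
  ht_neg : ∀ β, ht (neg β) = - ht β
  ht_ne : ∀ β, ht β ≠ 0
  ht_lin : ∃ c : Fin r → ℚ, ∀ β, (ht β : ℚ) = ∑ i, (root β i : ℚ) * c i
  gen : ∀ (β : ι) (w : GL (Fin r) ℤ), w.1 = 1 - Matrix.vecMulVec (coroot β) (root β) →
    w ∈ Subgroup.closure {w : GL (Fin r) ℤ | ∃ i, w.1 = 1 - Matrix.vecMulVec (coroot (simple i)) (root (simple i))}
  irr : ∀ q : Submodule ℚ (Fin r → ℚ), (∀ β, ∀ v ∈ q, v - (∑ i, v i * (coroot β i : ℚ)) • (fun i => (root β i : ℚ)) ∈ q) → q = ⊥ ∨ q = ⊤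

section

variable {ι M N : Type} [AddCommGroup M] [Module ℂ M] [AddCommGroup N] [Module ℂ N] (P : RootPairing ι ℂ M N) [P.IsCrystallographic]
  (b : P.Base) {r : ℕ} (σ : Fin r ≃ b.support)

/-- The value of the root `β` at the `i`-th simple coroot. -/
noncomputable def rootZ (β : ι) (i : Fin r) : ℤ := P.pairingIn ℤ β (σ i)

/-- The `i`-th coordinate of the coroot of `β` in the basis of the simple coroots. -/
noncomputable def corootZ (β : ι) (i : Fin r) : ℤ := (b.flip.exists_root_eq_sum_int β).choose (σ i)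

/-- The index of the opposite root. -/
def negZ (β : ι) : ι := P.reflectionPerm β β

/-- The index of the `i`-th simple root. -/
def simZ (i : Fin r) : ι := (σ i : ι)

end

end WCn
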