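import Pool.Agent.Lib.MP_c2b80f_alE.CbC
import Pool.Agent.Lib.MP_c2b80f_alE.CbD

/-!
# Root data in coordinates: summary (job CbE)
-/

open Matrix Module

namespace WCn

variable {ι M N : Type} [Finite ι] [AddCommGroup M] [Module ℂ M] [AddCommGroup N] [Module ℂ N] (P : RootPairing ι ℂ M N) [P.IsRootSystem] [P.IsCrystallographic]
  [P.IsReduced] (b : P.Base) {r : ℕ} (σ : Fin r ≃ b.support)

/-- All fields are proved in CbA, CbB, CbC, CbD. `pos`: if `r = 0` then `b.support` is empty and `M = 0` by `simZ_root_indep` / `span_root_support`, against `IsIrreducible.nontrivial` (or `Base.support_nonempty`, `ι` is nonempty). -/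
theorem rComb_of_base [P.IsIrreducible] : RComb (rootZ P b σ) (corootZ P b σ) (negZ P) (simZ P b σ) b.height := by
  have hpos : 0 < r := by
    rcases Nat.eq_zero_or_pos r with h | h
    · exfalso
      subst h
      obtain ⟨E, _, _⟩ := exists_coordM P b σ
      have h1 : Nontrivial M := RootPairing.IsIrreducible.nontrivial (P := P)
      obtain ⟨x, y, hxy⟩ := h1
      exact hxy (E.injective (Subsingleton.elim _ _))
    · exact h
  exact
    { root_inj := rootZ_injective P b σ
      root_ne := rootZ_ne_zero P b σ
      neg_neg := negZ_negZ P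
      root_neg := rootZ_neg P b σ
      coroot_neg := corootZ_neg P b σ
      two := rootZ_two P b σ
      refl := fun β γ => ⟨P.reflectionPerm β γ, rootZ_refl P b σ β γ⟩
      pos := hpos
      simple_coroot := corootZ_simple P b σ
      simple_diff := rootZ_simple_diff P b σ
      ht_sum := rootZ_ht_sum P b σ
      ht_simple := rootZ_ht_simple P b σ
      ht_neg := rootZ_ht_neg P b
      ht_ne := rootZ_ht_ne P b
      ht_lin := rootZ_ht_lin P b σ
      gen := rootZ_gen P b σ
      irr := rootZ_irr P b σ }

end WCn
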