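import Pool.Agent.Lib.MP_c2b80f_alE.TnC

/-!
# The torus generated by a semisimple element (job RkT)
-/

open Matrix

namespace WCn

variable {m : ℕ}

/-- Sums of powers determine all functions of the bases. -/
private theorem RkT_lagrange {κ : Type*} (s : Finset κ) (c v w : κ → ℂ) (hvw : ∀ a ∈ s, ∀ b ∈ s, v a = v b → w a = w b)
    (h : ∀ k : ℕ, ∑ a ∈ s, c a * v a ^ k = 0) : ∑ a ∈ s, c a * w a = 0 := by
  obtain ⟨L, hL⟩ := (Polynomial.exists_eval_eq_iff (fun a : s => v a) (fun a : s => w a)).2 fun a b hab => hvw a a.2 b b.2 hab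
  have h1 : ∀ a ∈ s, w a = L.eval (v a) := fun a ha => (hL ⟨a, ha⟩).symm
  calc ∑ a ∈ s, c a * w a = ∑ a ∈ s, ∑ k ∈ Finset.range (L.natDegree + 1), L.coeff k * (c a * v a ^ k) := by
        refine Finset.sum_congr rfl fun a ha => ?_
        rw [h1 a ha, Polynomial.eval_eq_sum_range, Finset.mul_sum]
        refine Finset.sum_congr rfl fun k _ => ?_
        ring
    _ = ∑ k ∈ Finset.range (L.natDegree + 1), L.coeff k * ∑ a ∈ s, c a * v a ^ k := by
        rw [Finset.sum_comm]
        refine Finset.sum_congr rfl fun k _ => ?_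
        rw [Finset.mul_sum]
    _ = 0 := Finset.sum_eq_zero fun k _ => by rw [h k, mul_zero]

/-- `MRel` for one family: all multiplicative relations of `x` hold for `z`. Let `h ∈ G`, `h = p diag(x) p⁻¹`. Then `p diag(z) p⁻¹` is in `G`.
Proof. `det h = 1` is the relation `(1, …, 1)`, so `∏ z j = 1` and `p diag(z) p⁻¹` is the matrix of an element of `SL_m`. Let `P ∈ vanI G`. The function `t ↦ P (p diag(t) p⁻¹)` is a polynomial `Q ∈ ℂ[t_1, …, t_m]` (substitution). `Q(x ^ k) = P(h ^ k) = 0` for all natural `k`. Write `Q = ∑_a c_a t^a` and group the monomials by the value `x^a`: for the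
different values `v` let `C_v = ∑_{x^a = v} c_a`; then `∑_v C_v v^k = 0` for all `k`, so all `C_v = 0` (Vandermonde; or linear independence of the different monoid homomorphisms `k ↦ v^k`, `linearIndependent_monoidHom`). If `x^a = x^b` then `a - b` is a relation of `x`, so `z^a = z^b`; so `Q(z) = ∑_v C_v z^(v) = 0`. As `G` is Zariski closed the claim follows. -/
theorem torus_mem {G : Subgroup (SLC m)} (hG : ZClosed G) (h : SLC m) (hh : h ∈ G) (p : GL (Fin m) ℂ) (x : Fin m → ℂˣ) (hx : DiagBy h p x)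
    (z : Fin m → ℂˣ) (hz : ∀ d : Fin m → ℤ, ∏ j, x j ^ d j = 1 → ∏ j, z j ^ d j = 1) :
    ∃ g ∈ G, DiagBy g p z := by
  have hp1 : p.1 * (p⁻¹).1 = 1 := by rw [← Units.val_mul, mul_inv_cancel, Units.val_one]
  have hp2 : (p⁻¹).1 * p.1 = 1 := by rw [← Units.val_mul, inv_mul_cancel, Units.val_one]
  have hdet : ∀ t : Fin m → ℂ, (p.1 * Matrix.diagonal t * (p⁻¹).1).det = ∏ j, t j := by
    intro t
    have h1 : p.1.det * (p⁻¹).1.det = 1 := by rw [← Matrix.det_mul, hp1, Matrix.det_one]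
    rw [Matrix.det_mul, Matrix.det_mul, Matrix.det_diagonal]
    linear_combination (∏ j, t j) * h1
  have hx' : h.1 = p.1 * Matrix.diagonal (fun j => (x j : ℂ)) * (p⁻¹).1 := hx
  have hx1 : ∏ j, x j = 1 := by
    apply Units.ext
    rw [Units.coe_prod, Units.val_one, ← hdet, ← hx']
    exact h.2
  have hz1 : ∏ j, z j = 1 := by
    have h1 := hz (fun _ => 1) (by simpa using hx1)
    simpa using h1
  have hzdet : (p.1 * Matrix.diagonal (fun j => (z j : ℂ)) * (p⁻¹).1).det = 1 := by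
    rw [hdet]
    have h1 := congrArg (Units.val) hz1
    rwa [Units.coe_prod, Units.val_one] at h1
  refine ⟨⟨p.1 * Matrix.diagonal (fun j => (z j : ℂ)) * (p⁻¹).1, hzdet⟩, hG _ fun P hP => ?_, rfl⟩
  -- the polynomial in the torus coordinates
  obtain ⟨Q, hQ⟩ : ∃ Q : MvPolynomial (Fin m) ℂ, ∀ t : Fin m → ℂ, MvPolynomial.eval t Q = evM (p.1 * Matrix.diagonal t * (p⁻¹).1) P := by
    refine ⟨MvPolynomial.bind₁ (fun ij : Fin m × Fin m => ∑ k, MvPolynomial.C (p.1 ij.1 k * (p⁻¹).1 k ij.2) * MvPolynomial.X k) P, fun t => ?_⟩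
    unfold evM
    rw [MvPolynomial.eval, MvPolynomial.eval₂Hom_bind₁, MvPolynomial.eval]
    congr 2
    funext ij
    rw [map_sum, Matrix.mul_apply]
    refine Finset.sum_congr rfl fun k _ => ?_
    rw [map_mul, MvPolynomial.eval₂Hom_C, MvPolynomial.eval₂Hom_X', RingHom.id_apply, Matrix.mul_diagonal]
    ring
  show evM (p.1 * Matrix.diagonal (fun j => (z j : ℂ)) * (p⁻¹).1) P = 0
  rw [← hQ]
  have hpow : ∀ k : ℕ, MvPolynomial.eval (fun j => (x j : ℂ) ^ k) Q = 0 := by
    intro k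
    rw [hQ]
    have h1 : p.1 * Matrix.diagonal (fun j => (x j : ℂ) ^ k) * (p⁻¹).1 = (h ^ k : SLC m).1 := by
      rw [Matrix.SpecialLinearGroup.coe_pow, hx']
      induction k with
      | zero =>
        simp only [pow_zero]
        rw [show (Matrix.diagonal fun _ : Fin m => (1 : ℂ)) = 1 from Matrix.diagonal_one, Matrix.mul_one, hp1]
      | succ k ih =>
        rw [pow_succ (p.1 * Matrix.diagonal (fun j => (x j : ℂ)) * (p⁻¹).1), ← ih]
        calc p.1 * Matrix.diagonal (fun j => (x j : ℂ) ^ (k + 1)) * (p⁻¹).1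
            = p.1 * (Matrix.diagonal (fun j => (x j : ℂ) ^ k) * Matrix.diagonal (fun j => (x j : ℂ))) * (p⁻¹).1 := by
              rw [Matrix.diagonal_mul_diagonal]
              simp only [pow_succ]
          _ = p.1 * Matrix.diagonal (fun j => (x j : ℂ) ^ k) * ((p⁻¹).1 * p.1) * Matrix.diagonal (fun j => (x j : ℂ)) * (p⁻¹).1 := by
              rw [hp2, Matrix.mul_one]
              simp only [Matrix.mul_assoc]
          _ = _ := by simp only [Matrix.mul_assoc]
    rw [h1]
    exact hP _ (G.pow_mem hh k)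
  rw [MvPolynomial.eval_eq']
  refine RkT_lagrange Q.support (fun a => Q.coeff a) (fun a => ∏ j, (x j : ℂ) ^ a j) (fun a => ∏ j, (z j : ℂ) ^ a j) ?_ ?_
  · intro a _ b _ hab
    have h1 : ∏ j, x j ^ ((a j : ℤ) - (b j : ℤ)) = 1 := by
      have h2 : ∏ j, x j ^ a j = ∏ j, x j ^ b j := by
        apply Units.ext
        rw [Units.coe_prod, Units.coe_prod]
        simpa using hab
      simp only [_root_.zpow_sub, zpow_natCast, Finset.prod_mul_distrib, Finset.prod_inv_distrib]
      rw [h2, mul_inv_cancel]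
    have h2 := hz _ h1
    simp only [_root_.zpow_sub, zpow_natCast, Finset.prod_mul_distrib, Finset.prod_inv_distrib] at h2
    have h3 := congrArg Units.val (mul_inv_eq_one.1 h2)
    rw [Units.coe_prod, Units.coe_prod] at h3
    simpa using h3
  · intro k
    have h1 := hpow k
    rw [MvPolynomial.eval_eq'] at h1
    rw [← h1]
    refine Finset.sum_congr rfl fun a _ => ?_
    congr 1
    rw [← Finset.prod_pow]
    refine Finset.prod_congr rfl fun j _ => ?_
    rw [← pow_mul, ← pow_mul, mul_comm]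

/-- Proof. `exp (t X) = p diag(exp (t θ j)) p⁻¹` (`Matrix.exp_units_conj` or similar, `Matrix.exp_diagonal`), and `z j = exp (t θ j)` satisfies the relations of `x`. Use `torus_mem` and `mem_tanG_iff`. -/
theorem torus_tan {G : Subgroup (SLC m)} (hG : ZClosed G) (h : SLC m) (hh : h ∈ G) (p : GL (Fin m) ℂ) (x : Fin m → ℂˣ) (hx : DiagBy h p x)
    (θ : Fin m → ℂ) (hθ : ∀ d : Fin m → ℤ, ∏ j, x j ^ d j = 1 → ∑ j, (d j : ℂ) * θ j = 0) :
    p.1 * Matrix.diagonal θ * (p⁻¹).1 ∈ tanG G := by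
  rw [mem_tanG_iff hG]
  intro t
  obtain ⟨g, hg, hgd⟩ := torus_mem hG h hh p x hx (fun j => Units.mk0 (Complex.exp ((t : ℂ) * θ j)) (Complex.exp_ne_zero _)) (by
    intro d hd
    have h1 := hθ d hd
    apply Units.ext
    rw [Units.coe_prod, Units.val_one]
    simp only [Units.val_zpow_eq_zpow_val, Units.val_mk0]
    have h2 : ∀ j, Complex.exp ((t : ℂ) * θ j) ^ d j = Complex.exp ((d j : ℂ) * ((t : ℂ) * θ j)) := fun j => by
      rw [Complex.exp_int_mul]
    simp only [h2]
    rw [← Complex.exp_sum]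
    have h3 : ∑ j, (d j : ℂ) * ((t : ℂ) * θ j) = (t : ℂ) * ∑ j, (d j : ℂ) * θ j := by
      rw [Finset.mul_sum]
      refine Finset.sum_congr rfl fun j _ => ?_
      ring
    rw [h3, h1, mul_zero, Complex.exp_zero])
  refine ⟨g, hg, ?_⟩
  have h4 : (t : ℂ) • (p.1 * Matrix.diagonal θ * (p⁻¹).1) = p.1 * Matrix.diagonal (fun j => (t : ℂ) * θ j) * (p⁻¹).1 := by
    rw [← Matrix.smul_mul, ← Matrix.mul_smul, ← Matrix.diagonal_smul]
    rfl
  rw [h4, Matrix.exp_units_conj, Matrix.exp_diagonal]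
  have h5 : g.1 = p.1 * Matrix.diagonal (fun j => Complex.exp ((t : ℂ) * θ j)) * (p⁻¹).1 := hgd
  rw [h5]
  congr 3
  funext j
  rw [Pi.coe_exp, Complex.exp_eq_exp_ℂ]

end WCn
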