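import Pool.Agent.Lib.MP_c2b80f_alE.RkD
import Pool.Agent.Lib.MP_c2b80f_alE.RkT
import Pool.Agent.Lib.MP_c2b80f_alD.GDefs

/-!
# The rank of semisimple elements (job RkF)
-/

open Matrix

namespace WCn

variable {m : ℕ}

/-- The complex solutions of the rational linear equations given by a space `S` of dimension `s` have dimension `m - s`. (Choose a basis of `S` over `ℚ`; the rank of the matrix of the basis vectors is the same over `ℂ`; or: linearly independent rational vectors are linearly independent over `ℂ`, and use the dual annihilator.) -/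
theorem finrank_solutions (S : Submodule ℚ (Fin m → ℚ)) (E : Submodule ℂ (Fin m → ℂ)) (hE : ∀ θ, θ ∈ E ↔ ∀ d ∈ S, ∑ j, ((d j : ℚ) : ℂ) * θ j = 0) :
    Module.finrank ℂ E + Module.finrank ℚ S = m := by
  obtain ⟨b⟩ : Nonempty (Module.Basis (Fin (Module.finrank ℚ S)) ℚ S) := ⟨Module.finBasis ℚ S⟩
  obtain ⟨v, hv⟩ : ∃ v : Fin (Module.finrank ℚ S) → Fin m → ℂ, v = fun i => algebraMap ℚ ℂ ∘ (b i : Fin m → ℚ) := ⟨_, rfl⟩
  have hb : LinearIndependent ℚ (fun i => (b i : Fin m → ℚ)) := by
    have h := b.linearIndependent.map' S.subtype (Submodule.ker_subtype S)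
    exact h
  have hv1 : LinearIndependent ℂ v := by
    rw [hv]
    exact linearIndependent_algebraMap_comp_iff.2 hb
  have hrk : (Matrix.of v).rank = Module.finrank ℚ S := by
    have h := LinearIndependent.rank_matrix (M := Matrix.of v) hv1
    rw [h, Fintype.card_fin]
  have hker : LinearMap.ker (Matrix.of v).mulVecLin = E := by
    ext θ
    rw [LinearMap.mem_ker, hE]
    constructor
    · intro h d hd
      have h1 : ∀ i, ∑ j, v i j * θ j = 0 := fun i => congrFun h i
      have h2 : d = ∑ i, b.repr ⟨d, hd⟩ i • (b i : Fin m → ℚ) := by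
        have h3 := congrArg (fun z : S => (z : Fin m → ℚ)) (b.sum_repr ⟨d, hd⟩)
        simp only [Submodule.coe_sum, Submodule.coe_smul] at h3
        exact h3.symm
      calc ∑ j, ((d j : ℚ) : ℂ) * θ j = ∑ j, ∑ i, ((b.repr ⟨d, hd⟩ i : ℚ) : ℂ) * (v i j * θ j) := by
            refine Finset.sum_congr rfl fun j _ => ?_
            have h4 : d j = ∑ i, b.repr ⟨d, hd⟩ i * (b i : Fin m → ℚ) j := by
              have h5 := congrFun h2 j
              rw [Finset.sum_apply] at h5
              exact h5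
            rw [h4, Rat.cast_sum, Finset.sum_mul]
            refine Finset.sum_congr rfl fun i _ => ?_
            rw [Rat.cast_mul, mul_assoc, hv]
            rfl
        _ = ∑ i, ((b.repr ⟨d, hd⟩ i : ℚ) : ℂ) * ∑ j, v i j * θ j := by
            rw [Finset.sum_comm]
            refine Finset.sum_congr rfl fun i _ => ?_
            rw [Finset.mul_sum]
        _ = 0 := by
            refine Finset.sum_eq_zero fun i _ => ?_
            rw [h1 i, mul_zero]
    · intro h
      funext i
      have h1 := h (b i : Fin m → ℚ) (b i).2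
      change ∑ j, v i j * θ j = 0
      rw [hv]
      exact h1
  have hrn := LinearMap.finrank_range_add_finrank_ker (Matrix.of v).mulVecLin
  rw [hker, Module.finrank_pi, Fintype.card_fin] at hrn
  rw [Matrix.rank] at hrk
  omega

/-- If the Lie algebra has an element `X` with `gker G X ≤ r` then all semisimple elements have rank at most `r`. Proof. Let `h = p diag(x) p⁻¹`. Let `S` be the space of the rational relations of `x`, that is `(relQ x y).comap inl`. The space `𝔱` of the matrices `p diag(θ) p⁻¹`, `θ` a solution of the equations of `S`, is contained in `tanG G`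
(`torus_tan`; integral relations `d` of `x` are in `S`) and has dimension `m - finrank S` (`finrank_solutions`; `θ ↦ p diag(θ) p⁻¹` is injective). By `finrank_le_gker` it is at most `gker G X ≤ r`. -/
theorem rankLe_of_gker {G : Subgroup (SLC m)} (hG : ZClosed G) (r : ℕ) (X : Matrix (Fin m) (Fin m) ℂ) (hX : X ∈ tanG G) (hr : gker G X ≤ r)
    (h : SLC m) (hh : h ∈ G) : RankLe r h := by
  intro p x hx k y
  obtain ⟨S, hS⟩ : ∃ S : Submodule ℚ (Fin m → ℚ),
    S = (relQ x y).comap (LinearMap.inl ℚ (Fin m → ℚ) (Fin k → ℚ)) := ⟨_, rfl⟩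
  rw [← hS]
  obtain ⟨E, hE⟩ : ∃ E : Submodule ℂ (Fin m → ℂ), ∀ θ, θ ∈ E ↔ ∀ d ∈ S, ∑ j, ((d j : ℚ) : ℂ) * θ j = 0 := by
    refine ⟨⟨⟨⟨{θ | ∀ d ∈ S, ∑ j, ((d j : ℚ) : ℂ) * θ j = 0}, ?_⟩, ?_⟩, ?_⟩, fun θ => Iff.rfl⟩
    · intro θ θ' h1 h2 d hd
      have h3 := h1 d hd
      have h4 := h2 d hd
      simp only [Pi.add_apply, mul_add, Finset.sum_add_distrib]
      rw [h3, h4, add_zero]
    · intro d hd
      simp
    · intro c θ h1 d hd
      have h3 := h1 d hd
      have h4 : ∑ j, ((d j : ℚ) : ℂ) * (c • θ) j = c * ∑ j, ((d j : ℚ) : ℂ) * θ j := by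
        rw [Finset.mul_sum]
        refine Finset.sum_congr rfl fun j _ => ?_
        rw [Pi.smul_apply, smul_eq_mul]
        ring
      rw [h4, h3, mul_zero]
  have hfin := finrank_solutions S E hE
  obtain ⟨L, hL⟩ : ∃ L : (Fin m → ℂ) →ₗ[ℂ] Matrix (Fin m) (Fin m) ℂ, ∀ θ, L θ = p.1 * Matrix.diagonal θ * (p⁻¹).1 := by
    refine ⟨⟨⟨fun θ => p.1 * Matrix.diagonal θ * (p⁻¹).1, ?_⟩, ?_⟩, fun θ => rfl⟩
    · intro θ θ'
      have h1 : Matrix.diagonal (θ + θ') = Matrix.diagonal θ + Matrix.diagonal θ' := (Matrix.diagonal_add θ θ').symm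
      rw [h1, Matrix.mul_add, Matrix.add_mul]
    · intro c θ
      have h1 : Matrix.diagonal (c • θ) = c • Matrix.diagonal θ := (Matrix.diagonal_smul c θ)
      simp only [RingHom.id_apply]
      rw [h1, Matrix.mul_smul, Matrix.smul_mul]
  have hLi : Function.Injective L := by
    intro θ θ' h1
    rw [hL, hL] at h1
    have hpp : (p⁻¹).1 * p.1 = 1 := by
      have h2 : (p⁻¹ * p : GL (Fin m) ℂ) = 1 := inv_mul_cancel p
      have h3 := congrArg (fun z : GL (Fin m) ℂ => (z : Matrix (Fin m) (Fin m) ℂ)) h2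
      exact h3
    have h4 : ∀ η : Fin m → ℂ, (p⁻¹).1 * (p.1 * Matrix.diagonal η * (p⁻¹).1) * p.1 = Matrix.diagonal η := by
      intro η
      calc (p⁻¹).1 * (p.1 * Matrix.diagonal η * (p⁻¹).1) * p.1
          = ((p⁻¹).1 * p.1) * Matrix.diagonal η * ((p⁻¹).1 * p.1) := by simp only [Matrix.mul_assoc]
        _ = Matrix.diagonal η := by rw [hpp, Matrix.one_mul, Matrix.mul_one]
    have h5 := h4 θ
    rw [h1, h4 θ'] at h5
    exact (Matrix.diagonal_injective h5).symm
  have h𝔱 : E.map L ≤ tanG G := by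
    rintro _ ⟨θ, hθ, rfl⟩
    rw [hL]
    refine torus_tan hG h hh p x hx θ fun d hd => ?_
    have h1 : (fun j => (d j : ℚ)) ∈ S := by
      rw [hS, Submodule.mem_comap]
      refine ⟨1, d, fun _ => 0, Nat.one_pos, fun i => ?_, fun j => ?_, ?_⟩
      · simp
      · simp
      · simp only [MRel, zpow_zero, Finset.prod_const_one, hd, mul_one]
    have h2 := (hE θ).1 hθ _ h1
    rw [← h2]
    refine Finset.sum_congr rfl fun j _ => ?_
    push_cast
    rfl
  have h1 := finrank_le_gker hG (E.map L) h𝔱 p (by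
    rintro _ ⟨θ, _, rfl⟩
    exact ⟨θ, hL θ⟩) X hX
  have h2 := (Submodule.equivMapOfInjective L hLi E).finrank_eq
  omega

end WCn
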