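import Pool.Agent.Lib.MP_c2b80f_alE.TnI
import Pool.Agent.Lib.MP_c2b80f_alD.LvAd

/-!
# Zariski dense subgroups act irreducibly on the Lie algebra (job TnJ)
-/

open Matrix

namespace WCn

variable {m : ℕ}

/-- Proof. Let `W ≤ tanG G` be nonzero and stable under conjugation by `Γ`, Zariski dense in `G`. For `Y ∈ W` and a linear functional `ℓ` vanishing on `W`, `ℓ (g Y g⁻¹)` is a polynomial in the entries of `g` (`g⁻¹` is the adjugate; or use `exists_poly_of_functional` as in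
`MP_c2b80f_alD/LvAd.lean`, `AdS_of_zDenseIn`), which vanishes on `Γ`, hence on `G`. So `W` is stable under conjugation by `G`, under the brackets by `lie_of_conj`, and `W = tanG G` by `eq_of_lie`. -/
theorem AlmostSimple.adIrr {G : Subgroup (SLC m)} (hG : AlmostSimple G) : AdIrr G (tanG G) := by
  intro Γ hz W hW hW0 hst
  have hall : ∀ T ∈ AdS (Γ : Set (SLC m)), ∀ Y ∈ W, T Y ∈ W := by
    intro T hT
    refine Submodule.span_induction (p := fun T _ => ∀ Y ∈ W, T Y ∈ W) ?_ ?_ ?_ ?_ hT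
    · rintro _ ⟨g, hg, rfl⟩ Y hY
      exact hst g hg Y hY
    · intro Y _
      rw [LinearMap.zero_apply]
      exact W.zero_mem
    · intro T₁ T₂ _ _ h1 h2 Y hY
      rw [LinearMap.add_apply]
      exact W.add_mem (h1 Y hY) (h2 Y hY)
    · intro c T₁ _ h1 Y hY
      rw [LinearMap.smul_apply]
      exact W.smul_mem c (h1 Y hY)
  have hGst : ∀ g ∈ G, ∀ Y ∈ W, g.1 * Y * (g⁻¹).1 ∈ W := by
    intro g hg Y hY
    have h0 : ∃ T ∈ AdS (G : Set (SLC m)), ∀ Y, T Y = g.1 * Y * (g⁻¹).1 :=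
      ⟨_, Submodule.subset_span ⟨g, hg, rfl⟩, fun _ => rfl⟩
    obtain ⟨T, hT, hTY⟩ := h0
    rw [← AdS_of_zDenseIn hz] at hT
    rw [← hTY]
    exact hall T hT Y hY
  exact hG.eq_of_lie W hW hW0 fun X hX Y hY => lie_of_conj hG.closed W hGst hX hY

/-- `exists_pow_ne_one_in` (`MP_c2b80f_alD/LvAd.lean`) with `AlmostSimple.exists_pow`. -/
theorem AlmostSimple.pw {G : Subgroup (SLC m)} (hG : AlmostSimple G) (Γ : Subgroup (SLC m)) (hz : ZDenseIn G Γ) (k : ℕ) (hk : 0 < k) :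
    ∃ g ∈ Γ, g ^ k ≠ 1 := by
  exact exists_pow_ne_one_in hz k (hG.exists_pow k hk)

end WCn
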