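import Pool.Agent.Lib.MP_c2b80f_alE.MtH
import Pool.Agent.Lib.MP_c2b80f_alE.RkF
import Pool.Agent.Lib.MP_c2b80f_alE.TnJ
import Pool.Agent.Lib.MP_c2b80f_alE.ArI

/-!
# Almost simple groups have the properties `Cls`
-/

open Matrix

namespace WCn

variable {m : ℕ}

theorem cls_of_isRD {r : ℕ} {ι : Type} [Fintype ι] [DecidableEq ι] {G : Subgroup (SLC m)} {D : RD m r ι} (hG : AlmostSimple G) (hD : IsRD G D) :
    Cls r G (tanG G) where
  pos := hD.pos
  closed := hG.closed.isClosed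
  rank := by
    intro h hh
    obtain ⟨t, ht⟩ := hD.exists_gker_le
    refine rankLe_of_gker hG.closed r (D.H t) ?_ ht h hh
    rw [hD.mem_iff]
    exact ⟨t, 0, by simp⟩
  gen := hasGen_of_isRD hG hD
  pw := hG.pw
  irr := hG.adIrr
  lie := fun X h => (mem_tanG_iff hG.closed X).2 h

theorem map_cj_inv (P : GL (Fin m) ℂ) (G : Subgroup (SLC m)) :
    (G.map (cj P).toMonoidHom).map (cj P⁻¹).toMonoidHom = G := by
  have h : ∀ x, (cj P⁻¹) ((cj P) x) = x := by
    intro x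
    apply Subtype.ext
    change (P⁻¹).1 * (P.1 * x.1 * (P⁻¹).1) * (P⁻¹⁻¹).1 = x.1
    rw [inv_inv]
    exact cjB_cancel P x.1
  ext g
  constructor
  · rintro ⟨_, ⟨x, hx, rfl⟩, rfl⟩
    have h1 : (cj P⁻¹).toMonoidHom ((cj P).toMonoidHom x) = x := h x
    rw [h1]
    exact hx
  · intro hg
    exact ⟨(cj P).toMonoidHom g, ⟨g, hg, rfl⟩, h g⟩

/-- Every almost simple group has a rank and generic elements. -/
theorem AlmostSimple.exists_cls {G : Subgroup (SLC m)} (hG : AlmostSimple G) : ∃ r, Cls r G (tanG G) := by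
  obtain ⟨P, r, ι, _, _, D, hG', hD⟩ := hG.exists_isRD
  have h1 := cls_cj P⁻¹ (cls_of_isRD hG' hD)
  rw [← tanG_cj, map_cj_inv] at h1
  exact ⟨r, h1⟩

end WCn
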