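import Pool.Agent.Lib.MP_c2b80f_alC.CartD
import Pool.Agent.Lib.MP_c2b80f_alC.CartL

/-!
# Small elements of a complement of the tangent space (job CpA)
-/

open NormedSpace

namespace WCn

variable {𝔸 : Type*} [NormedRing 𝔸] [NormedAlgebra ℝ 𝔸] [CompleteSpace 𝔸]

/-- Let `S` be closed and a group of units, and `W` a subspace which meets `tang S` only in `0`. If `Z ∈ W` is small and `exp Z ∈ S` then `Z = 0`. Proof (compare the proof of `exists_tang` in `MP_c2b80f_alC/CartD.lean`). Otherwise there are `Z k ∈ W`, `Z k ≠ 0`, `‖Z k‖ < 1 / (k + 1)`, `exp (Z k) ∈ S`. The unit vectors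
`‖Z k‖⁻¹ • Z k` have a convergent subsequence (finite dimension, compact unit sphere), the limit `Z₀` is a unit vector in `W` (closed), and in `tang S` by `tang_of_limit`: contradiction. -/
theorem exp_small_eq_zero [NormOneClass 𝔸] [FiniteDimensional ℝ 𝔸] (S : Set 𝔸) (hS : IsUnitGroup S) (hc : IsClosed S)
    (W : Submodule ℝ 𝔸) (hW : ∀ X ∈ W, X ∈ tang S → X = 0) :
    ∃ δ : ℝ, 0 < δ ∧ ∀ Z ∈ W, ‖Z‖ < δ → exp Z ∈ S → Z = 0 := by
  by_contra hcon
  push Not at hcon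
  have hstep : ∀ k : ℕ, ∃ Z ∈ W, ‖Z‖ < 1 / ((k : ℝ) + 1) ∧ Z ≠ 0 ∧ exp Z ∈ S := by
    intro k
    obtain ⟨Z, hZW, hZn, hZS, hZ0⟩ := hcon (1 / ((k : ℝ) + 1)) (by positivity)
    exact ⟨Z, hZW, hZn, hZ0, hZS⟩
  choose Z hZW hZn hZ0 hZS using hstep
  have hZnorm : ∀ k, 0 < ‖Z k‖ := fun k => norm_pos_iff.mpr (hZ0 k)
  have hu : ∀ k, (fun k => ‖Z k‖⁻¹ • Z k) k ∈ Metric.sphere (0 : 𝔸) 1 := by
    intro k
    simp only [mem_sphere_iff_norm, sub_zero]
    rw [norm_smul, norm_inv, norm_norm]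
    exact inv_mul_cancel₀ (hZnorm k).ne'
  have : ProperSpace 𝔸 := FiniteDimensional.proper ℝ 𝔸
  obtain ⟨Z₀, hZ₀, φ, hφ, hlim⟩ := (isCompact_sphere (0 : 𝔸) 1).tendsto_subseq hu
  have h0 : Filter.Tendsto Z Filter.atTop (nhds 0) := by
    rw [tendsto_zero_iff_norm_tendsto_zero]
    refine squeeze_zero (fun k => norm_nonneg _) (fun k => (hZn k).le) ?_
    exact tendsto_one_div_add_atTop_nhds_zero_nat
  have hT : Z₀ ∈ tang S :=
    tang_of_limit S hS hc (fun k => Z (φ k)) Z₀ (h0.comp hφ.tendsto_atTop) (fun k => hZ0 _)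
      (fun k => hZS _) hlim
  have hWm : Z₀ ∈ W := by
    have hWc : IsClosed (W : Set 𝔸) := W.closed_of_finiteDimensional
    refine hWc.mem_of_tendsto hlim (Filter.Eventually.of_forall fun k => ?_)
    exact W.smul_mem _ (hZW _)
  rw [mem_sphere_iff_norm, sub_zero, hW Z₀ hWm hT, norm_zero] at hZ₀
  exact zero_ne_one hZ₀

end WCn
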