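import Pool.Agent.Lib.MP_c2b80f_alE.CpA

/-!
# Elements of `S` near `exp X₀` are conjugate into a torus (job CpB)
-/

open NormedSpace

namespace WCn

variable {𝔸 : Type*} [NormedRing 𝔸] [NormedAlgebra ℝ 𝔸] [CompleteSpace 𝔸]

/-- Proof. Let `W` be a complement of `V` in `𝔸`. The map `Φ : V × T × W → 𝔸`, `Φ(Y, Z, w) = exp Y * exp X₀ * exp Z * exp (-Y) * exp w` has at `0` the strict derivative `(Y, Z, w) ↦ Y g₀ - g₀ Y + g₀ Z + g₀ w`, `g₀ = exp X₀` (`hasStrictFDerivAt_exp_zero`, product rule; compare `MP_c2b80f_alC/CartC.lean`). It is surjective: `𝔸 = g₀ 𝔸`, and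
every element of `𝔸` is `X + w` with `X ∈ V`, `X = g₀⁻¹ Y g₀ - Y + Z` by `hdec`. So every `g` close to `g₀` is `Φ(Y, Z, w)` with small `Y, Z, w` (`HasStrictFDerivAt.map_nhds_eq_of_surj`). If `g ∈ S` then `exp w ∈ S` (the other factors are in `S`: `exp (t X) ∈ S` for `X ∈ V`), so `w = 0` by `exp_small_eq_zero`. Finally
`exp X₀ * exp Z = exp (X₀ + Z)` because `X₀` and `Z` commute. -/
theorem exists_conj_tang [NormOneClass 𝔸] [FiniteDimensional ℝ 𝔸] (S : Set 𝔸) (hS : IsUnitGroup S) (hc : IsClosed S)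
    (V T : Submodule ℝ 𝔸) (hV : ∀ X, X ∈ V ↔ X ∈ tang S) (hT : T ≤ V) (hcomm : ∀ X ∈ T, ∀ Y ∈ T, X * Y = Y * X) (X₀ : 𝔸) (hX₀ : X₀ ∈ T)
    (hdec : ∀ X ∈ V, ∃ Y ∈ V, ∃ Z ∈ T, X = exp (-X₀) * Y * exp X₀ - Y + Z) :
    ∃ ε : ℝ, 0 < ε ∧ ∀ g ∈ S, ‖g - exp X₀‖ < ε → ∃ Y ∈ V, ∃ Z ∈ T, g = exp Y * exp (X₀ + Z) * exp (-Y) := by
  classical
  let : NormedAlgebra ℚ 𝔸 := NormedAlgebra.restrictScalars ℚ ℝ 𝔸
  obtain ⟨W, hVW⟩ := V.exists_isCompl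
  have hW0 : ∀ X ∈ W, X ∈ tang S → X = 0 := by
    intro X hX hXt
    have h1 : X ∈ V ⊓ W := ⟨(hV X).2 hXt, hX⟩
    rw [hVW.inf_eq_bot] at h1
    exact (Submodule.mem_bot ℝ).1 h1
  obtain ⟨δ, hδ, hsmall⟩ := exp_small_eq_zero S hS hc W hW0
  obtain ⟨g₀, hg₀⟩ : ∃ g₀ : 𝔸, g₀ = exp X₀ := ⟨_, rfl⟩
  have hinv : g₀ * exp (-X₀) = 1 := by
    rw [hg₀, ← exp_add_of_commute (Commute.refl X₀).neg_right, add_neg_cancel, exp_zero]
  let pV : (V × (T × W)) →L[ℝ] 𝔸 := V.subtypeL.comp (ContinuousLinearMap.fst ℝ V (T × W))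
  let pT : (V × (T × W)) →L[ℝ] 𝔸 :=
    T.subtypeL.comp ((ContinuousLinearMap.fst ℝ T W).comp (ContinuousLinearMap.snd ℝ V (T × W)))
  let pW : (V × (T × W)) →L[ℝ] 𝔸 :=
    W.subtypeL.comp ((ContinuousLinearMap.snd ℝ T W).comp (ContinuousLinearMap.snd ℝ V (T × W)))
  let M : 𝔸 →L[ℝ] 𝔸 := ContinuousLinearMap.mul ℝ 𝔸 g₀
  let M' : 𝔸 →L[ℝ] 𝔸 := (ContinuousLinearMap.mul ℝ 𝔸).flip g₀
  let L : (V × (T × W)) →L[ℝ] 𝔸 := M'.comp pV - M.comp pV + M.comp pT + M.comp pW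
  have hL : ∀ x : V × (T × W), L x =
      (x.1 : 𝔸) * g₀ - g₀ * (x.1 : 𝔸) + g₀ * (x.2.1 : 𝔸) + g₀ * (x.2.2 : 𝔸) := fun x => rfl
  have hexp : ∀ p : (V × (T × W)) →L[ℝ] 𝔸,
      HasStrictFDerivAt (fun x : V × (T × W) => exp (p x)) p 0 := by
    intro p
    have h1 : HasStrictFDerivAt (exp : 𝔸 → 𝔸) (1 : 𝔸 →L[ℝ] 𝔸) (p 0) := by
      rw [map_zero]
      exact hasStrictFDerivAt_exp_zero
    have h2 := h1.comp (0 : V × (T × W)) p.hasStrictFDerivAt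
    exact h2
  have hconst : HasStrictFDerivAt (fun _ : V × (T × W) => g₀)
      (0 : (V × (T × W)) →L[ℝ] 𝔸) 0 := hasStrictFDerivAt_const g₀ 0
  have hmul := ((((hexp pV).mul' hconst).mul' (hexp pT)).mul' (hexp (-pV))).mul' (hexp pW)
  have hder : HasStrictFDerivAt
      (fun x : V × (T × W) => exp (pV x) * g₀ * exp (pT x) * exp ((-pV) x) * exp (pW x)) L 0 := by
    refine hmul.congr_fderiv ?_
    refine ContinuousLinearMap.ext fun x => ?_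
    rw [hL x]
    simp [pV, pT, pW, NormedSpace.exp_zero]
    abel
  have hrange : (L : (V × (T × W)) →ₗ[ℝ] 𝔸).range = ⊤ := by
    rw [LinearMap.range_eq_top]
    intro u
    have h1 : exp (-X₀) * u ∈ V ⊔ W := by
      rw [hVW.sup_eq_top]
      exact Submodule.mem_top
    obtain ⟨X, hX, w, hw, hXw⟩ := Submodule.mem_sup.1 h1
    obtain ⟨Y, hY, Z, hZ, hXYZ⟩ := hdec X hX
    refine ⟨(⟨Y, hY⟩, (⟨Z, hZ⟩, ⟨w, hw⟩)), ?_⟩
    show L (⟨Y, hY⟩, (⟨Z, hZ⟩, ⟨w, hw⟩)) = u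
    rw [hL]
    show Y * g₀ - g₀ * Y + g₀ * Z + g₀ * w = u
    have h2 : u = g₀ * (X + w) := by
      rw [hXw, ← mul_assoc, hinv, one_mul]
    rw [h2, hXYZ, ← hg₀, mul_add, mul_add, mul_sub]
    rw [← mul_assoc, ← mul_assoc, hinv, one_mul]
  have hnh := hder.map_nhds_eq_of_surj hrange
  have hball : {x : V × (T × W) | ‖x.2.2‖ < δ} ∈ nhds (0 : V × (T × W)) := by
    have h1 : Metric.ball (0 : V × (T × W)) δ ∈ nhds (0 : V × (T × W)) :=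
      Metric.ball_mem_nhds _ hδ
    refine Filter.mem_of_superset h1 fun x hx => ?_
    rw [Metric.mem_ball, dist_zero_right, Prod.norm_def, max_lt_iff, Prod.norm_def,
      max_lt_iff] at hx
    exact hx.2.2
  have h3 := Filter.image_mem_map
    (m := fun x : V × (T × W) => exp (pV x) * g₀ * exp (pT x) * exp ((-pV) x) * exp (pW x)) hball
  rw [hnh] at h3
  have h4 : exp (pV 0) * g₀ * exp (pT 0) * exp ((-pV) 0) * exp (pW 0) = g₀ := by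
    simp [NormedSpace.exp_zero]
  rw [h4] at h3
  obtain ⟨ε, hε, hsub⟩ := Metric.mem_nhds_iff.1 h3
  refine ⟨ε, hε, fun g hg hgn => ?_⟩
  have hg' : g ∈ Metric.ball g₀ ε := by
    rw [Metric.mem_ball, dist_eq_norm, hg₀]
    exact hgn
  obtain ⟨⟨⟨Y, hY⟩, ⟨⟨Z, hZ⟩, ⟨w, hw⟩⟩⟩, hx, hxg⟩ := hsub hg'
  have hwn : ‖w‖ < δ := hx
  have hxg2 : exp Y * g₀ * exp Z * exp (-Y) * exp w = g := hxg
  have hmem : ∀ X ∈ V, exp X ∈ S := by
    intro X hX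
    have h5 := (hV X).1 hX 1
    rwa [one_smul] at h5
  have he : exp Y * g₀ * exp Z * exp (-Y) ∈ S := by
    refine hS.mul _ (hS.mul _ (hS.mul _ (hmem Y hY) _ ?_) _ (hmem Z (hT hZ))) _
      (hmem (-Y) (V.neg_mem hY))
    rw [hg₀]
    exact hmem X₀ (hT hX₀)
  obtain ⟨b, hb, -, hb2⟩ := hS.inv _ he
  have hwS : exp w ∈ S := by
    have h6 : exp w = b * g := by
      rw [← hxg2, ← mul_assoc, hb2, one_mul]
    rw [h6]
    exact hS.mul _ hb _ hg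
  have hw0 : w = 0 := hsmall w hw hwn hwS
  refine ⟨Y, hY, Z, hZ, ?_⟩
  rw [exp_add_of_commute (hcomm X₀ hX₀ Z hZ), ← hg₀, ← hxg2, hw0, exp_zero, mul_one]
  simp only [mul_assoc]

end WCn
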