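import Mathlib

/-!
# Decomposition of a real subspace under a diagonalisable conjugation (job CpC)
-/

open Matrix

namespace WCn

variable {m : ℕ}

/-- If `g = p diag(c) p⁻¹` is invertible and `Z` commutes with `g` and `g Z = Y g - g Y`, then `Z = 0`. -/
private theorem CpC_zero (g h : Matrix (Fin m) (Fin m) ℂ) (hgh : g * h = 1)
    (p : GL (Fin m) ℂ) (c : Fin m → ℂ) (hg : g = p.1 * Matrix.diagonal c * (p⁻¹).1)
    (Y Z : Matrix (Fin m) (Fin m) ℂ) (h1 : g * Z = Z * g) (h2 : g * Z = Y * g - g * Y) : Z = 0 := by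
  have hp1 : (p⁻¹).1 * p.1 = 1 := by
    rw [← Units.val_mul, inv_mul_cancel, Units.val_one]
  have hp2 : p.1 * (p⁻¹).1 = 1 := by
    rw [← Units.val_mul, mul_inv_cancel, Units.val_one]
  -- all `c a` are nonzero
  have hc : ∀ a, c a ≠ 0 := by
    intro a ha
    have hdet : g.det * h.det = 1 := by
      rw [← Matrix.det_mul, hgh, Matrix.det_one]
    have hg0 : g.det = 0 := by
      rw [hg, Matrix.det_mul, Matrix.det_mul, Matrix.det_diagonal, Finset.prod_eq_zero (Finset.mem_univ a) ha]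
      ring
    rw [hg0, zero_mul] at hdet
    exact zero_ne_one hdet
  obtain ⟨Z', hZ'⟩ : ∃ Z' : Matrix (Fin m) (Fin m) ℂ, Z' = (p⁻¹).1 * Z * p.1 := ⟨_, rfl⟩
  obtain ⟨Y', hY'⟩ : ∃ Y' : Matrix (Fin m) (Fin m) ℂ, Y' = (p⁻¹).1 * Y * p.1 := ⟨_, rfl⟩
  have conj1 : ∀ W : Matrix (Fin m) (Fin m) ℂ, (p⁻¹).1 * (g * W) * p.1 = Matrix.diagonal c * ((p⁻¹).1 * W * p.1) := by
    intro W
    rw [hg]
    calc (p⁻¹).1 * (p.1 * Matrix.diagonal c * (p⁻¹).1 * W) * p.1
        = ((p⁻¹).1 * p.1) * (Matrix.diagonal c * ((p⁻¹).1 * W * p.1)) := by simp only [Matrix.mul_assoc]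
      _ = Matrix.diagonal c * ((p⁻¹).1 * W * p.1) := by rw [hp1, Matrix.one_mul]
  have conj2 : ∀ W : Matrix (Fin m) (Fin m) ℂ, (p⁻¹).1 * (W * g) * p.1 = ((p⁻¹).1 * W * p.1) * Matrix.diagonal c := by
    intro W
    rw [hg]
    calc (p⁻¹).1 * (W * (p.1 * Matrix.diagonal c * (p⁻¹).1)) * p.1
        = ((p⁻¹).1 * W * p.1) * Matrix.diagonal c * ((p⁻¹).1 * p.1) := by simp only [Matrix.mul_assoc]
      _ = ((p⁻¹).1 * W * p.1) * Matrix.diagonal c := by rw [hp1, Matrix.mul_one]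
  have e1 : Matrix.diagonal c * Z' = Z' * Matrix.diagonal c := by
    rw [hZ', ← conj1, ← conj2, h1]
  have e2 : Matrix.diagonal c * Z' = Y' * Matrix.diagonal c - Matrix.diagonal c * Y' := by
    rw [hZ', hY', ← conj1, ← conj1, ← conj2, h2, Matrix.mul_sub, Matrix.sub_mul]
  have hZ0 : Z' = 0 := by
    ext a b
    have f1 := congrFun (congrFun e1 a) b
    have f2 := congrFun (congrFun e2 a) b
    rw [Matrix.diagonal_mul, Matrix.mul_diagonal] at f1
    rw [Matrix.sub_apply, Matrix.diagonal_mul, Matrix.diagonal_mul, Matrix.mul_diagonal] at f2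
    change Z' a b = 0
    by_cases hab : c a = c b
    · have f3 : c a * Z' a b = 0 := by
        rw [f2, hab]
        ring
      exact (mul_eq_zero.1 f3).resolve_left (hc a)
    · have f3 : (c a - c b) * Z' a b = 0 := by
        linear_combination f1
      exact (mul_eq_zero.1 f3).resolve_left (sub_ne_zero.2 hab)
  calc Z = (p.1 * (p⁻¹).1) * Z * (p.1 * (p⁻¹).1) := by rw [hp2, Matrix.one_mul, Matrix.mul_one]
    _ = p.1 * ((p⁻¹).1 * Z * p.1) * (p⁻¹).1 := by simp only [Matrix.mul_assoc]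
    _ = p.1 * Z' * (p⁻¹).1 := by rw [hZ']
    _ = 0 := by rw [hZ0, Matrix.mul_zero, Matrix.zero_mul]

/-- Let `g = p diag(c) p⁻¹` with all `c j ≠ 0`, `V` a real subspace of the matrices stable under `A : Y ↦ g⁻¹ Y g` (`h = g⁻¹`), and `T ≤ V` contain all elements of `V` commuting with `g`. Then `V = (A - 1) V + T`. Proof. `(A - 1)² Y = 0` implies `(A - 1) Y = 0` for all matrices `Y` (the entries of `p⁻¹ Y p` are multiplied by
`c b / c a - 1`). So on the finite dimensional real space `V` the operator `B = A - 1` satisfies `ker B ∩ im B = 0`, hence `V = im B ⊕ ker B` by dimensions (`LinearMap.finrank_range_add_finrank_ker`), and `ker B ≤ T`. -/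
theorem real_dec (V T : Submodule ℝ (Matrix (Fin m) (Fin m) ℂ)) (hT : T ≤ V) (g h : Matrix (Fin m) (Fin m) ℂ) (hgh : g * h = 1)
    (p : GL (Fin m) ℂ) (c : Fin m → ℂ) (hg : g = p.1 * Matrix.diagonal c * (p⁻¹).1) (hst : ∀ Y ∈ V, h * Y * g ∈ V)
    (hcT : ∀ Y ∈ V, g * Y = Y * g → Y ∈ T) (X : Matrix (Fin m) (Fin m) ℂ) (hX : X ∈ V) :
    ∃ Y ∈ V, ∃ Z ∈ T, X = h * Y * g - Y + Z := by
  classical
  have _ := hT
  have hgY : ∀ W : Matrix (Fin m) (Fin m) ℂ, g * (h * W * g) = W * g := by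
    intro W
    rw [Matrix.mul_assoc h W g, ← Matrix.mul_assoc g h, hgh, Matrix.one_mul]
  let B : V →ₗ[ℝ] V :=
    { toFun := fun Y => ⟨h * Y.1 * g - Y.1, V.sub_mem (hst Y.1 Y.2) Y.2⟩
      map_add' := by
        intro Y Z
        apply Subtype.ext
        change h * (Y.1 + Z.1) * g - (Y.1 + Z.1) = (h * Y.1 * g - Y.1) + (h * Z.1 * g - Z.1)
        rw [Matrix.mul_add, Matrix.add_mul]
        abel
      map_smul' := by
        intro r Y
        apply Subtype.ext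
        change h * (r • Y.1) * g - r • Y.1 = r • (h * Y.1 * g - Y.1)
        rw [Matrix.mul_smul, Matrix.smul_mul, smul_sub] }
  have hB : ∀ Y : V, (B Y).1 = h * Y.1 * g - Y.1 := fun Y => rfl
  have hker : ∀ Z : V, B Z = 0 → g * Z.1 = Z.1 * g := by
    intro Z hZ
    have h1 : h * Z.1 * g - Z.1 = 0 := by
      rw [← hB Z, hZ]
      rfl
    have h2 : h * Z.1 * g = Z.1 := sub_eq_zero.1 h1
    calc g * Z.1 = g * (h * Z.1 * g) := by rw [h2]
      _ = Z.1 * g := hgY Z.1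
  have hdisj : Disjoint (LinearMap.range B) (LinearMap.ker B) := by
    rw [Submodule.disjoint_def]
    intro Z hZr hZk
    obtain ⟨Y, hY⟩ := hZr
    have h1 := hker Z (LinearMap.mem_ker.1 hZk)
    have h3 : Z.1 = h * Y.1 * g - Y.1 := by
      rw [← hY]
      rfl
    have h2 : g * Z.1 = Y.1 * g - g * Y.1 := by
      rw [h3, Matrix.mul_sub, hgY]
    exact Subtype.ext (CpC_zero g h hgh p c hg Y.1 Z.1 h1 h2)
  have htop : LinearMap.range B ⊔ LinearMap.ker B = ⊤ := by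
    refine Submodule.eq_top_of_disjoint _ _ ?_ hdisj
    exact (LinearMap.finrank_range_add_finrank_ker B).symm.le
  have hXt : (⟨X, hX⟩ : V) ∈ LinearMap.range B ⊔ LinearMap.ker B := by
    rw [htop]
    exact Submodule.mem_top
  obtain ⟨U, ⟨Y, hY⟩, Z, hZ, hUZ⟩ := Submodule.mem_sup.1 hXt
  refine ⟨Y.1, Y.2, Z.1, hcT Z.1 Z.2 (hker Z (LinearMap.mem_ker.1 hZ)), ?_⟩
  rw [← hB Y, hY]
  exact (congrArg Subtype.val hUZ).symm

end WCn
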