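import Pool.Agent.Lib.MP_c2b80f_alE.MtB
import Pool.Agent.Lib.MP_c2b80f_alC.Defs

/-!
# Bounded one parameter groups (job CpD)
-/

open Matrix

namespace WCn

variable {m : ℕ}

private theorem CpD_bd (X : Matrix (Fin m) (Fin m) ℂ) (C : ℝ)
    (hC : ∀ (t : ℝ) (i j : Fin m), ‖(NormedSpace.exp ((t : ℂ) • X)) i j‖ ≤ C) (u : Fin m → ℂ) (t : ℝ) (i : Fin m) :
    ‖(NormedSpace.exp ((t : ℂ) • X) *ᵥ u) i‖ ≤ ∑ j, C * ‖u j‖ := by
  have h1 : (NormedSpace.exp ((t : ℂ) • X) *ᵥ u) i = ∑ j, (NormedSpace.exp ((t : ℂ) • X)) i j * u j := rfl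
  rw [h1]
  refine (norm_sum_le _ _).trans (Finset.sum_le_sum fun j _ => ?_)
  rw [norm_mul]
  exact mul_le_mul_of_nonneg_right (hC t i j) (norm_nonneg _)

private theorem CpD_zero (a B : ℝ) (h : ∀ t : ℝ, Real.exp (t * a) ≤ B) : a = 0 := by
  by_contra h0
  have h1 := h (B / a)
  rw [div_mul_cancel₀ _ h0] at h1
  have h2 := Real.add_one_le_exp B
  linarith

private theorem CpD_norm (t : ℝ) (μ : ℂ) : ‖Complex.exp ((t : ℂ) * μ)‖ = Real.exp (t * μ.re) := by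
  rw [Complex.norm_exp, Complex.re_ofReal_mul]

private theorem CpD_re (X : Matrix (Fin m) (Fin m) ℂ) (C : ℝ)
    (hC : ∀ (t : ℝ) (i j : Fin m), ‖(NormedSpace.exp ((t : ℂ) • X)) i j‖ ≤ C) (μ : ℂ) (v : Fin m → ℂ) (hv : v ≠ 0)
    (hX : X *ᵥ v = μ • v) : μ.re = 0 := by
  obtain ⟨i, hi⟩ := Function.ne_iff.1 hv
  have hi' : 0 < ‖v i‖ := norm_pos_iff.2 hi
  refine CpD_zero _ ((∑ j, C * ‖v j‖) / ‖v i‖) fun t => ?_
  have h1 := exp_mulVec_jordan X μ v 0 (by rw [Matrix.mulVec_zero, smul_zero]) (by rw [add_zero, hX]) (t : ℂ)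
  have h2 := CpD_bd X C hC v t i
  rw [h1, smul_zero, add_zero, Pi.smul_apply, smul_eq_mul, norm_mul, CpD_norm] at h2
  rwa [le_div_iff₀ hi']

private theorem CpD_ss (X : Matrix (Fin m) (Fin m) ℂ) (C : ℝ)
    (hC : ∀ (t : ℝ) (i j : Fin m), ‖(NormedSpace.exp ((t : ℂ) • X)) i j‖ ≤ C) (μ : ℂ) (v w : Fin m → ℂ)
    (hw : X *ᵥ w = μ • w) (hv : X *ᵥ v = μ • v + w) : w = 0 := by
  by_contra h0
  have hre := CpD_re X C hC μ w h0 hw
  obtain ⟨i, hi⟩ := Function.ne_iff.1 h0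
  have hi' : 0 < ‖w i‖ := norm_pos_iff.2 hi
  have h1 : ∀ t : ℝ, ‖v i + (t : ℂ) * w i‖ ≤ ∑ j, C * ‖v j‖ := by
    intro t
    have h2 := CpD_bd X C hC v t i
    rw [exp_mulVec_jordan X μ v w hw hv (t : ℂ), Pi.smul_apply, smul_eq_mul, norm_mul, CpD_norm, hre, mul_zero,
      Real.exp_zero, one_mul] at h2
    exact h2
  have h3 : ∀ t : ℝ, 0 ≤ t → t * ‖w i‖ ≤ (∑ j, C * ‖v j‖) + ‖v i‖ := by
    intro t ht
    have h4 : (t : ℂ) * w i = (v i + (t : ℂ) * w i) - v i := by ring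
    have h5 : ‖(t : ℂ) * w i‖ ≤ ‖v i + (t : ℂ) * w i‖ + ‖v i‖ := by
      conv_lhs => rw [h4]
      exact norm_sub_le _ _
    rw [norm_mul, Complex.norm_real, Real.norm_of_nonneg ht] at h5
    exact h5.trans (add_le_add_left (h1 t) _)
  have h6 : 0 ≤ (∑ j, C * ‖v j‖) + ‖v i‖ := (mul_nonneg (le_refl 0) (norm_nonneg (w i))).trans (h3 0 (le_refl 0))
  have h7 := h3 (((∑ j, C * ‖v j‖) + ‖v i‖ + 1) / ‖w i‖) (div_nonneg (by linarith) hi'.le)
  rw [div_mul_cancel₀ _ hi'.ne'] at h7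
  linarith

/-- Proof. Let `X w = μ w` and `X v = μ v + w`. By `exp_mulVec_jordan` `exp (t X) v = exp (t μ) (v + t w)`. If `v ≠ 0`, `w = 0` boundedness for `t → ∞` and `t → -∞` gives `Re μ = 0`. If `w ≠ 0` then `Re μ = 0` (apply this to `w`) and `‖v + t w‖` is unbounded: contradiction. So the generalised eigenspaces are the eigenspaces
(`Module.End.iSup_maxGenEigenspace_eq_top`). -/
theorem diag_of_bounded (X : Matrix (Fin m) (Fin m) ℂ) (C : ℝ) (hC : ∀ (t : ℝ) (i j : Fin m), ‖(NormedSpace.exp ((t : ℂ) • X)) i j‖ ≤ C) :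
    (⨆ μ : ℂ, Module.End.eigenspace (Matrix.toLin' X) μ = ⊤) ∧ ∀ (μ : ℂ) (v : Fin m → ℂ), v ≠ 0 → X *ᵥ v = μ • v → μ.re = 0 := by
  refine ⟨?_, fun μ v hv hX => CpD_re X C hC μ v hv hX⟩
  rw [eq_top_iff, ← Module.End.iSup_maxGenEigenspace_eq_top (Matrix.toLin' X)]
  refine iSup_mono fun μ => ?_
  intro v hv
  obtain ⟨k, hk⟩ := (Module.End.mem_maxGenEigenspace _ _ _).1 hv
  obtain ⟨g, hg⟩ : ∃ g : Module.End ℂ (Fin m → ℂ), g = Matrix.toLin' X - μ • (1 : Module.End ℂ (Fin m → ℂ)) := ⟨_, rfl⟩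
  have hg1 : ∀ u, g u = X *ᵥ u - μ • u := fun u => by
    rw [hg, LinearMap.sub_apply, Matrix.toLin'_apply, LinearMap.smul_apply, Module.End.one_apply]
  have hg2 : ∀ u, g (g u) = 0 → g u = 0 := by
    intro u hu
    refine CpD_ss X C hC μ u (g u) ?_ ?_
    · rw [hg1 (g u)] at hu
      exact sub_eq_zero.1 hu
    · rw [hg1 u, add_sub_cancel]
  have hg3 : ∀ (k : ℕ) (u : Fin m → ℂ), (g ^ (k + 1)) u = 0 → g u = 0 := by
    intro k
    induction k with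
    | zero =>
      intro u hu
      rwa [zero_add, pow_one] at hu
    | succ k ih =>
      intro u hu
      rw [pow_succ, Module.End.mul_apply] at hu
      exact hg2 u (ih _ hu)
  rw [← hg] at hk
  have h4 : g v = 0 := hg3 k v (by rw [pow_succ', Module.End.mul_apply, hk, map_zero])
  rw [hg1] at h4
  rw [Module.End.mem_eigenspace_iff, Matrix.toLin'_apply]
  exact sub_eq_zero.1 h4

/-- The powers of `γ = exp(Y) exp(X) exp(-Y)` are bounded, also the negative ones, and `γ ^ k = p diag(y ^ k) p⁻¹`; so the `‖y j‖ ^ k` are bounded for all integers `k`. -/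
theorem norm_eig_of_bounded (γ : SLC m) (p : GL (Fin m) ℂ) (y : Fin m → ℂˣ) (hd : DiagBy γ p y) (X Y : Matrix (Fin m) (Fin m) ℂ)
    (hγ : γ.1 = NormedSpace.exp Y * NormedSpace.exp X * NormedSpace.exp (-Y))
    (C : ℝ) (hC : ∀ (t : ℝ) (i j : Fin m), ‖(NormedSpace.exp ((t : ℂ) • X)) i j‖ ≤ C) (j : Fin m) : ‖(y j : ℂ)‖ = 1 := by
  have hY : NormedSpace.exp (-Y) * NormedSpace.exp Y = (1 : Matrix (Fin m) (Fin m) ℂ) := by
    rw [← Matrix.exp_add_of_commute _ _ (Commute.neg_left (Commute.refl Y)), neg_add_cancel, NormedSpace.exp_zero]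
  have hY' : NormedSpace.exp Y * NormedSpace.exp (-Y) = (1 : Matrix (Fin m) (Fin m) ℂ) := by
    rw [← Matrix.exp_add_of_commute _ _ (Commute.neg_right (Commute.refl Y)), add_neg_cancel, NormedSpace.exp_zero]
  have hp : (p⁻¹).1 * p.1 = (1 : Matrix (Fin m) (Fin m) ℂ) := p.inv_mul
  obtain ⟨v, hv⟩ : ∃ v : Fin m → ℂ, v = p.1 *ᵥ Pi.single j 1 := ⟨_, rfl⟩
  have hpv : (p⁻¹).1 *ᵥ v = Pi.single j 1 := by
    rw [hv, Matrix.mulVec_mulVec, hp, Matrix.one_mulVec]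
  have h1 : γ.1 *ᵥ v = (y j : ℂ) • v := by
    have h2 : γ.1 = p.1 * Matrix.diagonal (fun i => (y i : ℂ)) * (p⁻¹).1 := hd
    rw [h2, ← Matrix.mulVec_mulVec, hpv, ← Matrix.mulVec_mulVec, hv, ← Matrix.mulVec_smul]
    congr 1
    ext i
    rw [Matrix.mulVec_diagonal, Pi.smul_apply, smul_eq_mul]
    by_cases h3 : i = j
    · rw [h3]
    · rw [Pi.single_eq_of_ne h3, mul_zero, mul_zero]
  obtain ⟨u, hu⟩ : ∃ u : Fin m → ℂ, u = NormedSpace.exp (-Y) *ᵥ v := ⟨_, rfl⟩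
  have hu0 : u ≠ 0 := by
    intro h0
    have h2 : NormedSpace.exp Y *ᵥ u = v := by
      rw [hu, Matrix.mulVec_mulVec, hY', Matrix.one_mulVec]
    rw [h0, Matrix.mulVec_zero] at h2
    rw [← h2, Matrix.mulVec_zero] at hpv
    have h3 := congrFun hpv j
    rw [Pi.single_eq_same] at h3
    exact zero_ne_one h3
  have h2 : NormedSpace.exp X *ᵥ u = (y j : ℂ) • u := by
    have h3 : NormedSpace.exp X *ᵥ u = NormedSpace.exp (-Y) *ᵥ (γ.1 *ᵥ v) := by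
      rw [hγ, hu, Matrix.mulVec_mulVec, Matrix.mulVec_mulVec]
      congr 1
      rw [← Matrix.mul_assoc, ← Matrix.mul_assoc, hY, Matrix.one_mul]
    rw [h3, h1, Matrix.mulVec_smul, ← hu]
  have hXX : NormedSpace.exp (-X) * NormedSpace.exp X = (1 : Matrix (Fin m) (Fin m) ℂ) := by
    rw [← Matrix.exp_add_of_commute _ _ (Commute.neg_left (Commute.refl X)), neg_add_cancel, NormedSpace.exp_zero]
  have hy0 : (y j : ℂ) ≠ 0 := (y j).ne_zero
  have h3 : NormedSpace.exp (-X) *ᵥ u = (y j : ℂ)⁻¹ • u := by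
    have h4 : u = (y j : ℂ)⁻¹ • (NormedSpace.exp X *ᵥ u) := by
      rw [h2, smul_smul, inv_mul_cancel₀ hy0, one_smul]
    conv_lhs => rw [h4]
    rw [Matrix.mulVec_smul, Matrix.mulVec_mulVec, hXX, Matrix.one_mulVec]
  have hpow : ∀ (M : Matrix (Fin m) (Fin m) ℂ) (a : ℂ), M *ᵥ u = a • u → ∀ k : ℕ, (M ^ k) *ᵥ u = a ^ k • u := by
    intro M a hM k
    induction k with
    | zero => rw [pow_zero, pow_zero, Matrix.one_mulVec, one_smul]
    | succ k ih => rw [pow_succ, ← Matrix.mulVec_mulVec, hM, Matrix.mulVec_smul, ih, smul_smul, ← pow_succ']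
  obtain ⟨i, hi⟩ := Function.ne_iff.1 hu0
  have hi' : 0 < ‖u i‖ := norm_pos_iff.2 hi
  have hB : ∀ k : ℕ, ‖(y j : ℂ)‖ ^ k * ‖u i‖ ≤ ∑ l, C * ‖u l‖ := by
    intro k
    have h4 := CpD_bd X C hC u (k : ℝ) i
    have h5 : NormedSpace.exp (((k : ℝ) : ℂ) • X) = NormedSpace.exp X ^ k := by
      rw [← Matrix.exp_nsmul, Complex.ofReal_natCast, Nat.cast_smul_eq_nsmul]
    rw [h5, hpow _ _ h2, Pi.smul_apply, smul_eq_mul, norm_mul, norm_pow] at h4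
    exact h4
  have hB' : ∀ k : ℕ, ‖(y j : ℂ)‖⁻¹ ^ k * ‖u i‖ ≤ ∑ l, C * ‖u l‖ := by
    intro k
    have h4 := CpD_bd X C hC u (-(k : ℝ)) i
    have h5 : NormedSpace.exp (((-(k : ℝ) : ℝ) : ℂ) • X) = NormedSpace.exp (-X) ^ k := by
      rw [← Matrix.exp_nsmul, Complex.ofReal_neg, Complex.ofReal_natCast, neg_smul, smul_neg, Nat.cast_smul_eq_nsmul]
    rw [h5, hpow _ _ h3, Pi.smul_apply, smul_eq_mul, norm_mul, norm_pow, norm_inv] at h4
    exact h4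
  have hlim : ∀ a : ℝ, (∀ k : ℕ, a ^ k * ‖u i‖ ≤ ∑ l, C * ‖u l‖) → a ≤ 1 := by
    intro a ha
    by_contra h0
    rw [not_le] at h0
    obtain ⟨k, hk⟩ := pow_unbounded_of_one_lt ((∑ l, C * ‖u l‖) / ‖u i‖) h0
    rw [div_lt_iff₀ hi'] at hk
    exact absurd (ha k) (not_le.2 hk)
  have hpos : 0 < ‖(y j : ℂ)‖ := norm_pos_iff.2 hy0
  refine le_antisymm (hlim _ hB) ?_
  exact (inv_le_one₀ hpos).1 (hlim _ hB')

end WCn
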