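import Mathlib

/-!
# Integrality of the eigenvalues, simultaneous diagonalisation (job MtC)
-/

open Matrix

namespace WCn

variable {m : ℕ}

private theorem MtC_pow {V : Type*} [AddCommGroup V] [Module ℂ V] (h e : Module.End ℂ V)
    (he : h * e - e * h = (2 : ℂ) • e) (v : V) (μ : ℂ) (hμ : h v = μ • v) (k : ℕ) :
    h ((e ^ k) v) = (μ + 2 * k) • (e ^ k) v := by
  induction k with
  | zero =>
    rw [pow_zero, Nat.cast_zero, mul_zero, add_zero]
    exact hμ
  | succ k ih =>
    have h1 : h * e = e * h + (2 : ℂ) • e := by rw [← he]; abel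
    have h2 : h (e ((e ^ k) v)) = e (h ((e ^ k) v)) + (2 : ℂ) • e ((e ^ k) v) :=
      LinearMap.congr_fun h1 ((e ^ k) v)
    rw [pow_succ', Module.End.mul_apply, h2, ih, map_smul, ← add_smul]
    congr 1
    push_cast
    ring

section

attribute [local instance 100] LieRing.ofAssociativeRing

private theorem MtC_int {V : Type} [AddCommGroup V] [Module ℂ V] [FiniteDimensional ℂ V] (h e f : Module.End ℂ V)
    (he : h * e - e * h = (2 : ℂ) • e) (hf : h * f - f * h = -((2 : ℂ) • f)) (hef : e * f - f * e = h)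
    (v : V) (hv : v ≠ 0) (μ : ℂ) (hμ : h v = μ • v) : ∃ n : ℤ, μ = n := by
  by_cases h0 : h = 0
  · refine ⟨0, ?_⟩
    rw [h0, LinearMap.zero_apply] at hμ
    have h1 := (smul_eq_zero.1 hμ.symm).resolve_right hv
    rw [h1, Int.cast_zero]
  have ht : IsSl2Triple h e f :=
    ⟨h0, by rw [Ring.lie_def]; exact hef,
      by rw [Ring.lie_def, he, two_smul, two_nsmul], by rw [Ring.lie_def, hf, two_smul, two_nsmul]⟩
  have hex : ∃ k : ℕ, (e ^ k) v = 0 := by
    by_contra hcon
    push Not at hcon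
    have h1 : Set.Infinite {ν : ℂ | h.HasEigenvalue ν} := by
      have h2 : (Set.range fun k : ℕ => μ + 2 * (k : ℂ)).Infinite := by
        refine Set.infinite_range_of_injective fun a b hab => ?_
        have h3 : μ + 2 * (a : ℂ) = μ + 2 * (b : ℂ) := hab
        have h4 : (a : ℂ) = b := by
          have h5 := add_left_cancel h3
          exact mul_left_cancel₀ two_ne_zero h5
        exact_mod_cast h4
      refine h2.mono ?_
      rintro _ ⟨k, rfl⟩
      exact Module.End.hasEigenvalue_of_hasEigenvector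
        (Module.End.hasEigenvector_iff.2 ⟨Module.End.mem_eigenspace_iff.2 (MtC_pow h e he v μ hμ k), hcon k⟩)
    exact h1 (Module.End.finite_hasEigenvalue h)
  obtain ⟨k, hk1, hk2⟩ := Nat.exists_not_and_succ_of_not_zero_of_exists (p := fun k => (e ^ k) v = 0)
    (by rw [pow_zero]; exact hv) hex
  have hp : IsSl2Triple.HasPrimitiveVectorWith ht ((e ^ k) v) (μ + 2 * (k : ℂ)) :=
    { ne_zero := hk1
      lie_h := MtC_pow h e he v μ hμ k
      lie_e := by
        rw [pow_succ'] at hk2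
        exact hk2 }
  obtain ⟨n, hn⟩ := hp.exists_nat
  refine ⟨(n : ℤ) - 2 * k, ?_⟩
  push_cast
  rw [← hn]
  ring

end

/-- Integrality of the eigenvalues of `h` in an `sl_2` triple of matrices. Proof. If `h = 0` then `μ = 0`. Otherwise this is an `IsSl2Triple h e f` in the Lie ring of matrices (local instance `LieRing.ofAssociativeRing`) acting on `Fin m → ℂ`. `e ^ k v` is zero or an eigenvector with eigenvalue `μ + 2 k`, so `e ^ k v = 0` for
some `k` (finitely many eigenvalues); let `k` be maximal with `w = e ^ k v ≠ 0`: `IsSl2Triple.HasPrimitiveVectorWith` and `exists_nat` give `μ + 2 k = n`. -/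
theorem int_eigenvalue (h e f : Matrix (Fin m) (Fin m) ℂ) (he : h * e - e * h = (2 : ℂ) • e) (hf : h * f - f * h = -((2 : ℂ) • f))
    (hef : e * f - f * e = h) (v : Fin m → ℂ) (hv : v ≠ 0) (μ : ℂ) (hμ : h *ᵥ v = μ • v) : ∃ n : ℤ, μ = n := by
  have h1 : ∀ A B : Matrix (Fin m) (Fin m) ℂ, Matrix.toLin' A * Matrix.toLin' B = Matrix.toLin' (A * B) := fun A B =>
    (Matrix.toLin'_mul A B).symm
  refine MtC_int (Matrix.toLin' h) (Matrix.toLin' e) (Matrix.toLin' f) ?_ ?_ ?_ v hv μ ?_
  · rw [h1, h1, ← map_sub, he, map_smul]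
  · rw [h1, h1, ← map_sub, hf, map_neg, map_smul]
  · rw [h1, h1, ← map_sub, hef]
  · rw [Matrix.toLin'_apply]
    exact hμ

private theorem MtC_max {V : Type*} [AddCommGroup V] [Module ℂ V] (f : Module.End ℂ V)
    (hf : ⨆ μ : ℂ, f.eigenspace μ = ⊤) (ν : ℂ) : f.maxGenEigenspace ν = f.eigenspace ν := by
  have hle : ∀ μ, f.eigenspace μ ≤ f.maxGenEigenspace μ := fun μ => by
    intro x hx
    rw [Module.End.mem_maxGenEigenspace]
    refine ⟨1, ?_⟩
    rw [pow_one, LinearMap.sub_apply, Module.End.mem_eigenspace_iff.1 hx]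
    exact sub_self _
  have hind := f.independent_maxGenEigenspace ν
  have hS : (⨆ μ, ⨆ (_ : μ ≠ ν), f.eigenspace μ) ≤ ⨆ μ, ⨆ (_ : μ ≠ ν), f.maxGenEigenspace μ :=
    iSup₂_mono fun μ _ => hle μ
  have htop : f.eigenspace ν ⊔ (⨆ μ, ⨆ (_ : μ ≠ ν), f.eigenspace μ) = ⊤ := by
    rw [eq_top_iff, ← hf]
    refine iSup_le fun μ => ?_
    by_cases hμ : μ = ν
    · rw [hμ]
      exact le_sup_left
    · exact (le_iSup₂ (f := fun (μ : ℂ) (_ : μ ≠ ν) => f.eigenspace μ) μ hμ).trans le_sup_right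
  refine le_antisymm ?_ (hle ν)
  calc f.maxGenEigenspace ν = (f.eigenspace ν ⊔ (⨆ μ, ⨆ (_ : μ ≠ ν), f.eigenspace μ)) ⊓ f.maxGenEigenspace ν := by
        rw [htop, top_inf_eq]
    _ = f.eigenspace ν ⊔ ((⨆ μ, ⨆ (_ : μ ≠ ν), f.eigenspace μ) ⊓ f.maxGenEigenspace ν) :=
        sup_inf_assoc_of_le _ (hle ν)
    _ ≤ f.eigenspace ν := by
        refine sup_le le_rfl ?_
        have h1 : (⨆ μ, ⨆ (_ : μ ≠ ν), f.eigenspace μ) ⊓ f.maxGenEigenspace ν ≤ ⊥ :=
          (hind.symm.mono_left hS).le_bot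
        exact h1.trans bot_le

/-- Simultaneous diagonalisation of finitely many commuting diagonalisable matrices. Proof by induction on the number of matrices, or with `Module.End.iSup_iInf_maxGenEigenspace_eq_top_of_forall_mapsTo` (or a similar statement of Mathlib, `LinearAlgebra/Eigenspace/Pi.lean`): the simultaneous eigenspaces are independent and span;
choose a basis of each (`DirectSum.IsInternal.collectedBasis`), reindex by `Fin m`, and let `p` be the matrix with these columns. -/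
theorem exists_diag_family {r : ℕ} (h : Fin r → Matrix (Fin m) (Fin m) ℂ) (hc : ∀ i j, h i * h j = h j * h i)
    (hd : ∀ i, ⨆ μ : ℂ, Module.End.eigenspace (Matrix.toLin' (h i)) μ = ⊤) :
    ∃ (p : GL (Fin m) ℂ) (wt : Fin m → Fin r → ℂ), ∀ i, h i = p.1 * Matrix.diagonal (fun j => wt j i) * (p⁻¹).1 := by
  classical
  let F : Fin r → Module.End ℂ (Fin m → ℂ) := fun i => Matrix.toLin' (h i)
  have hF : ∀ i (v : Fin m → ℂ), F i v = h i *ᵥ v := fun i v => Matrix.toLin'_apply (h i) v
  have hmax : ∀ i ν, (F i).maxGenEigenspace ν = (F i).eigenspace ν := fun i ν => MtC_max (F i) (hd i) ν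
  have hcomm : ∀ i j, Commute (F i) (F j) := by
    intro i j
    change F i * F j = F j * F i
    change Matrix.toLin' (h i) * Matrix.toLin' (h j) = Matrix.toLin' (h j) * Matrix.toLin' (h i)
    have h1 : ∀ A B : Matrix (Fin m) (Fin m) ℂ, Matrix.toLin' A * Matrix.toLin' B = Matrix.toLin' (A * B) :=
      fun A B => (Matrix.toLin'_mul A B).symm
    rw [h1, h1, hc]
  let W : (Fin r → ℂ) → Submodule ℂ (Fin m → ℂ) := fun χ => ⨅ i, (F i).maxGenEigenspace (χ i)
  have hind : iSupIndep W := Module.End.independent_iInf_maxGenEigenspace_of_forall_mapsTo F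
    fun i j φ => Module.End.mapsTo_maxGenEigenspace_of_comm (hcomm j i) φ
  have htop : ⨆ χ, W χ = ⊤ :=
    Module.End.iSup_iInf_maxGenEigenspace_eq_top_of_iSup_maxGenEigenspace_eq_top_of_commute F
      (fun i j _ => hcomm i j) fun i => by
        simp only [hmax]
        exact hd i
  have hint : DirectSum.IsInternal W := DirectSum.isInternal_submodule_of_iSupIndep_of_iSup_eq_top hind htop
  let B₀ := hint.collectedBasis fun χ => Module.Basis.ofVectorSpace ℂ (W χ)
  let σ := B₀.indexEquiv (Pi.basisFun ℂ (Fin m))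
  let B : Module.Basis (Fin m) ℂ (Fin m → ℂ) := B₀.reindex σ
  have hB : ∀ j, B j ∈ W (σ.symm j).1 := by
    intro j
    change B₀.reindex σ j ∈ _
    rw [Module.Basis.reindex_apply]
    exact hint.collectedBasis_mem _ _
  have hB' : ∀ j i, h i *ᵥ B j = (σ.symm j).1 i • B j := by
    intro j i
    have h1 : B j ∈ (F i).maxGenEigenspace ((σ.symm j).1 i) := (Submodule.mem_iInf _).1 (hB j) i
    rw [hmax, Module.End.mem_eigenspace_iff] at h1
    exact h1
  let b : Module.Basis (Fin m) ℂ (Fin m → ℂ) := Pi.basisFun ℂ (Fin m)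
  let p : GL (Fin m) ℂ := ⟨b.toMatrix B, B.toMatrix b, b.toMatrix_mul_toMatrix_flip B, B.toMatrix_mul_toMatrix_flip b⟩
  refine ⟨p, fun j i => (σ.symm j).1 i, fun i => ?_⟩
  have hp : ∀ a j, p.1 a j = B j a := fun a j => rfl
  have h2 : h i * p.1 = p.1 * Matrix.diagonal (fun j => (σ.symm j).1 i) := by
    ext a j
    rw [Matrix.mul_diagonal, Matrix.mul_apply, hp]
    have h3 := congrFun (hB' j i) a
    rw [Pi.smul_apply, smul_eq_mul, mul_comm] at h3
    rw [← h3]
    rfl
  rw [← h2, mul_assoc]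
  have h4 : p.1 * (p⁻¹).1 = 1 := by
    rw [← Units.val_mul, mul_inv_cancel, Units.val_one]
  rw [h4, mul_one]

end WCn
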