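import Pool.Agent.Lib.MP_c2b80f_alE.CpD
import Pool.Agent.Lib.MP_c2b80f_alE.MtC

/-!
# A regular element of a compact torus (job CpE)
-/

open Matrix

namespace WCn

variable {m : ℕ}

/-- If `exp (I x) = exp (I y)` with `x y` real and `|x|, |y| ≤ 1`, then `x = y`. -/
private theorem CpE_inj (x y : ℝ) (hx : |x| ≤ 1) (hy : |y| ≤ 1)
    (h : Complex.exp ((x : ℂ) * Complex.I) = Complex.exp ((y : ℂ) * Complex.I)) : x = y := by
  obtain ⟨n, hn⟩ := Complex.exp_eq_exp_iff_exists_int.1 h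
  have h1 : x = y + n * (2 * Real.pi) := by
    have h2 := congrArg Complex.im hn
    simpa using h2
  have hpi := Real.pi_gt_three
  have hx' := abs_le.1 hx
  have hy' := abs_le.1 hy
  have hn0 : n = 0 := by
    by_contra hne
    rcases lt_or_gt_of_ne hne with h3 | h3
    · have h4 : (n : ℝ) ≤ -1 := by
        have : n ≤ -1 := by omega
        exact_mod_cast this
      have h5 : (n : ℝ) * (2 * Real.pi) ≤ -1 * (2 * Real.pi) :=
        mul_le_mul_of_nonneg_right h4 (by linarith)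
      linarith [hx'.1, hx'.2, hy'.1, hy'.2]
    · have h4 : (1 : ℝ) ≤ n := by
        have : 1 ≤ n := by omega
        exact_mod_cast this
      have h5 : 1 * (2 * Real.pi) ≤ (n : ℝ) * (2 * Real.pi) :=
        mul_le_mul_of_nonneg_right h4 (by linarith)
      linarith [hx'.1, hx'.2, hy'.1, hy'.2]
  rw [hn0, Int.cast_zero, zero_mul, add_zero] at h1
  exact h1

/-- A vector which separates finitely many distinct linear forms. -/
private theorem CpE_sep {k : ℕ} (θ : Fin m → Fin k → ℝ) :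
    ∃ r : Fin k → ℝ, ∀ a b, ∑ l, r l * θ a l = ∑ l, r l * θ b l → θ a = θ b := by
  classical
  let ι' := {q : Fin m × Fin m // θ q.1 ≠ θ q.2}
  let F : ι' → Module.Dual ℝ (Fin k → ℝ) := fun q =>
    ∑ l, (θ q.1.1 l - θ q.1.2 l) • (LinearMap.proj l : (Fin k → ℝ) →ₗ[ℝ] ℝ)
  have hF : ∀ (q : ι') (r : Fin k → ℝ), F q r = ∑ l, (θ q.1.1 l - θ q.1.2 l) * r l := by
    intro q r
    change (∑ l, (θ q.1.1 l - θ q.1.2 l) • (LinearMap.proj l : (Fin k → ℝ) →ₗ[ℝ] ℝ)) r = _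
    rw [LinearMap.sum_apply]
    rfl
  obtain ⟨r, hr⟩ := Module.Dual.exists_forall_ne_zero_of_forall_exists F (by
    intro q
    obtain ⟨l, hl⟩ : ∃ l, θ q.1.1 l ≠ θ q.1.2 l := by
      by_contra hcon
      push Not at hcon
      exact q.2 (funext hcon)
    refine ⟨Pi.single l 1, ?_⟩
    rw [hF, Finset.sum_eq_single l]
    · rw [Pi.single_eq_same, mul_one]
      exact sub_ne_zero.2 hl
    · intro l' _ hl'
      rw [Pi.single_eq_of_ne hl', mul_zero]
    · intro hl'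
      exact absurd (Finset.mem_univ l) hl')
  refine ⟨r, fun a b hab => ?_⟩
  by_contra hne
  refine hr ⟨(a, b), hne⟩ ?_
  rw [hF]
  change ∑ l, (θ a l - θ b l) * r l = 0
  have h1 : ∀ l, (θ a l - θ b l) * r l = r l * θ a l - r l * θ b l := fun l => by ring
  rw [Finset.sum_congr rfl fun l _ => h1 l, Finset.sum_sub_distrib, hab, sub_self]

/-- Proof. Let `X_1, …, X_k` be a basis of `T` over `ℝ`. By `diag_of_bounded` and `exists_diag_family` there is `p` with `X_l = p diag(i θ_l) p⁻¹`, `θ_l : Fin m → ℝ` real. So all `X ∈ T` are `p diag(i θ(X)) p⁻¹` with real linear forms `θ_a` on `T`. Choose `X₁ ∈ T` such that `θ_a(X₁) ≠ θ_b(X₁)` for all `a b` with `θ_a ≠ θ_b`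
(`Module.Dual.exists_forall_mem_ne_zero_of_forall_exists`), and `X₀ = s X₁` with `s > 0` so small that `|s θ_a(X₁)| < π / 2` for all `a`. If `Y` commutes with `exp X₀ = p diag(exp(i s θ_a(X₁))) p⁻¹` then the entry `a b` of `p⁻¹ Y p` is zero unless `exp(i s θ_a(X₁)) = exp(i s θ_b(X₁))`, and then `θ_a(X₁) = θ_b(X₁)`, `θ_a = θ_b`;
so `Y` commutes with `T`. -/
theorem exists_regular_cpt (T : Submodule ℝ (Matrix (Fin m) (Fin m) ℂ)) (hcomm : ∀ X ∈ T, ∀ Y ∈ T, X * Y = Y * X)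
    (hb : ∀ X ∈ T, ∃ C : ℝ, ∀ (t : ℝ) (i j : Fin m), ‖(NormedSpace.exp ((t : ℂ) • X)) i j‖ ≤ C) :
    ∃ X₀ ∈ T, (∃ (p : GL (Fin m) ℂ) (c : Fin m → ℂ), NormedSpace.exp X₀ = p.1 * Matrix.diagonal c * (p⁻¹).1) ∧
      ∀ Y : Matrix (Fin m) (Fin m) ℂ, NormedSpace.exp X₀ * Y = Y * NormedSpace.exp X₀ → ∀ X ∈ T, X * Y = Y * X := by
  classical
  obtain ⟨k, hk⟩ : ∃ k : ℕ, k = Module.finrank ℝ T := ⟨_, rfl⟩
  obtain ⟨bas⟩ : Nonempty (Module.Basis (Fin k) ℝ T) := by
    rw [hk]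
    exact ⟨Module.finBasis ℝ T⟩
  obtain ⟨p, wt, hwt⟩ := exists_diag_family (fun i => (bas i).1) (fun i j => hcomm _ (bas i).2 _ (bas j).2)
    (fun i => by
      obtain ⟨C, hC⟩ := hb _ (bas i).2
      exact (diag_of_bounded _ C hC).1)
  have hp1 : (p⁻¹).1 * p.1 = 1 := by
    rw [← Units.val_mul, inv_mul_cancel, Units.val_one]
  have hp2 : p.1 * (p⁻¹).1 = 1 := by
    rw [← Units.val_mul, mul_inv_cancel, Units.val_one]
  -- the eigenvalues are imaginary
  have hre : ∀ j i, (wt j i).re = 0 := by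
    intro j i
    obtain ⟨C, hC⟩ := hb _ (bas i).2
    refine (diag_of_bounded _ C hC).2 (wt j i) (p.1 *ᵥ Pi.single j 1) ?_ ?_
    · intro h0
      have h1 : (p⁻¹).1 *ᵥ (p.1 *ᵥ (Pi.single j 1 : Fin m → ℂ)) = 0 := by
        rw [h0, Matrix.mulVec_zero]
      rw [Matrix.mulVec_mulVec, hp1, Matrix.one_mulVec] at h1
      have h2 := congrFun h1 j
      rw [Pi.single_eq_same] at h2
      exact one_ne_zero h2
    · have h1 : (bas i).1 = p.1 * Matrix.diagonal (fun j => wt j i) * (p⁻¹).1 := hwt i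
      have h2 : Matrix.diagonal (fun j => wt j i) *ᵥ (Pi.single j 1 : Fin m → ℂ) = wt j i • (Pi.single j 1 : Fin m → ℂ) := by
        ext a
        rw [Matrix.mulVec_diagonal, Pi.smul_apply, smul_eq_mul]
        by_cases ha : a = j
        · rw [ha]
        · rw [Pi.single_eq_of_ne ha, mul_zero, mul_zero]
      rw [h1, Matrix.mulVec_mulVec, Matrix.mul_assoc, hp1, Matrix.mul_one, ← Matrix.mulVec_mulVec, h2, Matrix.mulVec_smul]
  have hwtI : ∀ j i, wt j i = ((wt j i).im : ℂ) * Complex.I := by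
    intro j i
    apply Complex.ext
    · simp [hre j i]
    · simp
  obtain ⟨r, hr⟩ := CpE_sep (m := m) (fun j i => (wt j i).im)
  -- all elements of `T` are diagonalised by `p`
  have hlin : ∀ c : Fin k → ℝ, (∑ i, c i • (bas i).1 : Matrix (Fin m) (Fin m) ℂ) =
      p.1 * Matrix.diagonal (fun j => ((∑ i, c i * (wt j i).im : ℝ) : ℂ) * Complex.I) * (p⁻¹).1 := by
    intro c
    have h1 : Matrix.diagonal (fun j => ((∑ i, c i * (wt j i).im : ℝ) : ℂ) * Complex.I) =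
        ∑ i, c i • Matrix.diagonal (fun j => wt j i) := by
      ext a b
      rw [Matrix.sum_apply]
      by_cases hab : a = b
      · subst hab
        rw [Matrix.diagonal_apply_eq, Complex.ofReal_sum, Finset.sum_mul]
        refine Finset.sum_congr rfl fun i _ => ?_
        rw [Matrix.smul_apply, Matrix.diagonal_apply_eq, Complex.real_smul, Complex.ofReal_mul, mul_assoc, ← hwtI a i]
      · rw [Matrix.diagonal_apply_ne _ hab]
        refine (Finset.sum_eq_zero fun i _ => ?_).symm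
        rw [Matrix.smul_apply, Matrix.diagonal_apply_ne _ hab, smul_zero]
    rw [h1, Finset.mul_sum, Finset.sum_mul]
    refine Finset.sum_congr rfl fun i _ => ?_
    rw [Matrix.mul_smul, Matrix.smul_mul, ← hwt i]
  have hall : ∀ X ∈ T, ∃ c : Fin k → ℝ, X = ∑ i, c i • (bas i).1 := by
    intro X hX
    refine ⟨fun i => bas.repr ⟨X, hX⟩ i, ?_⟩
    have h1 := congrArg Subtype.val (bas.sum_repr ⟨X, hX⟩)
    rw [AddSubmonoidClass.coe_finsetSum] at h1
    exact h1.symm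
  obtain ⟨M, hM⟩ : ∃ M : ℝ, M = ∑ a, |∑ i, r i * (wt a i).im| + 1 := ⟨_, rfl⟩
  have hM0 : 0 < M := by
    rw [hM]
    have : 0 ≤ ∑ a, |∑ i, r i * (wt a i).im| := Finset.sum_nonneg fun a _ => abs_nonneg _
    linarith
  have hMa : ∀ a, |∑ i, r i * (wt a i).im| ≤ M := by
    intro a
    rw [hM]
    have := Finset.single_le_sum (f := fun a => |∑ i, r i * (wt a i).im|) (fun a _ => abs_nonneg _) (Finset.mem_univ a)
    exact this.trans (by linarith)
  obtain ⟨s, hs⟩ : ∃ s : Fin k → ℝ, s = fun i => M⁻¹ * r i := ⟨_, rfl⟩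
  have hsum : ∀ a, ∑ i, s i * (wt a i).im = M⁻¹ * ∑ i, r i * (wt a i).im := by
    intro a
    rw [hs, Finset.mul_sum]
    exact Finset.sum_congr rfl fun i _ => mul_assoc _ _ _
  have habs : ∀ a, |∑ i, s i * (wt a i).im| ≤ 1 := by
    intro a
    rw [hsum, abs_mul, abs_of_pos (inv_pos.2 hM0), inv_mul_le_iff₀ hM0, mul_one]
    exact hMa a
  have hexp : NormedSpace.exp (∑ i, s i • (bas i).1 : Matrix (Fin m) (Fin m) ℂ) =
      p.1 * Matrix.diagonal (fun j => Complex.exp (((∑ i, s i * (wt j i).im : ℝ) : ℂ) * Complex.I)) * (p⁻¹).1 := by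
    rw [hlin s, Matrix.exp_units_conj, Matrix.exp_diagonal, Pi.exp_def]
    congr 3
    funext j
    rw [Complex.exp_eq_exp_ℂ]
  refine ⟨∑ i, s i • (bas i).1, ?_, ⟨p, _, hexp⟩, ?_⟩
  · exact Submodule.sum_mem _ fun i _ => T.smul_mem _ (bas i).2
  · intro Y hY X hX
    rw [hexp] at hY
    obtain ⟨c, hc⟩ := hall X hX
    obtain ⟨d, hd⟩ : ∃ d : Fin m → ℂ, d = fun j => Complex.exp (((∑ i, s i * (wt j i).im : ℝ) : ℂ) * Complex.I) := ⟨_, rfl⟩
    rw [← hd] at hY
    obtain ⟨Y', hY'⟩ : ∃ Y' : Matrix (Fin m) (Fin m) ℂ, Y' = (p⁻¹).1 * Y * p.1 := ⟨_, rfl⟩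
    have hYp : Y = p.1 * Y' * (p⁻¹).1 := by
      rw [hY']
      calc Y = (p.1 * (p⁻¹).1) * Y * (p.1 * (p⁻¹).1) := by rw [hp2, Matrix.one_mul, Matrix.mul_one]
        _ = p.1 * ((p⁻¹).1 * Y * p.1) * (p⁻¹).1 := by simp only [Matrix.mul_assoc]
    have mulc : ∀ A B : Matrix (Fin m) (Fin m) ℂ, (p.1 * A * (p⁻¹).1) * (p.1 * B * (p⁻¹).1) = p.1 * (A * B) * (p⁻¹).1 := by
      intro A B
      calc (p.1 * A * (p⁻¹).1) * (p.1 * B * (p⁻¹).1) = p.1 * A * ((p⁻¹).1 * p.1) * B * (p⁻¹).1 := by simp only [Matrix.mul_assoc]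
        _ = p.1 * (A * B) * (p⁻¹).1 := by rw [hp1, Matrix.mul_one, Matrix.mul_assoc p.1 A B]
    have canc : ∀ A B : Matrix (Fin m) (Fin m) ℂ, p.1 * A * (p⁻¹).1 = p.1 * B * (p⁻¹).1 → A = B := by
      intro A B hAB
      calc A = ((p⁻¹).1 * p.1) * A * ((p⁻¹).1 * p.1) := by rw [hp1, Matrix.one_mul, Matrix.mul_one]
        _ = (p⁻¹).1 * (p.1 * A * (p⁻¹).1) * p.1 := by simp only [Matrix.mul_assoc]
        _ = (p⁻¹).1 * (p.1 * B * (p⁻¹).1) * p.1 := by rw [hAB]
        _ = ((p⁻¹).1 * p.1) * B * ((p⁻¹).1 * p.1) := by simp only [Matrix.mul_assoc]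
        _ = B := by rw [hp1, Matrix.one_mul, Matrix.mul_one]
    have hY2 : Matrix.diagonal d * Y' = Y' * Matrix.diagonal d := by
      apply canc
      rw [← mulc, ← mulc, ← hYp, hY]
    rw [hc, hlin c, hYp, mulc, mulc]
    congr 2
    ext a b
    rw [Matrix.diagonal_mul, Matrix.mul_diagonal]
    by_cases hab : Y' a b = 0
    · rw [hab, mul_zero, zero_mul]
    · have h1 := congrFun (congrFun hY2 a) b
      rw [Matrix.diagonal_mul, Matrix.mul_diagonal, mul_comm (Y' a b)] at h1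
      have h2 : d a = d b := mul_right_cancel₀ hab h1
      have h3 : ∑ i, s i * (wt a i).im = ∑ i, s i * (wt b i).im := by
        refine CpE_inj _ _ (habs a) (habs b) ?_
        rw [hd] at h2
        exact h2
      have h4 : ∑ i, r i * (wt a i).im = ∑ i, r i * (wt b i).im := by
        rw [hsum, hsum] at h3
        exact mul_left_cancel₀ (inv_ne_zero hM0.ne') h3
      have h5 : (fun i => (wt a i).im) = fun i => (wt b i).im := hr a b h4
      have h6 : ∀ i, (wt a i).im = (wt b i).im := fun i => congrFun h5 i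
      have h7 : ∑ i, c i * (wt a i).im = ∑ i, c i * (wt b i).im :=
        Finset.sum_congr rfl fun i _ => by rw [h6 i]
      rw [h7, mul_comm]

end WCn
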