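import Pool.Agent.Lib.MP_c2b80f_alE.TnDefs

/-!
# Chain rule for polynomials in the entries (job TnA)
-/

open Matrix

namespace WCn

variable {m : ℕ}

section TnA

attribute [local instance] Matrix.linftyOpNormedRing Matrix.linftyOpNormedAlgebra
  Matrix.linftyOpNormedAddCommGroup Matrix.linftyOpNormedSpace

private theorem TnA_exp (X : Matrix (Fin m) (Fin m) ℂ) (z : ℂ) (i j : Fin m) :
    HasDerivAt (fun w : ℂ => (NormedSpace.exp (w • X)) i j) ((NormedSpace.exp (z • X) * X) i j) z := by
  have h1 := hasDerivAt_exp_smul_const (𝕂 := ℂ) X z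
  obtain ⟨L, hL⟩ : ∃ L : Matrix (Fin m) (Fin m) ℂ →L[ℂ] ℂ, ∀ M, L M = M i j :=
    ⟨LinearMap.toContinuousLinearMap (Matrix.entryLinearMap ℂ ℂ i j), fun M => rfl⟩
  have h2 := L.hasFDerivAt.comp_hasDerivAt z h1
  simp only [Function.comp_def, hL] at h2
  exact h2.congr_deriv (hL _)

end TnA

theorem evM_lder (g X : Matrix (Fin m) (Fin m) ℂ) (P : MvPolynomial (Fin m × Fin m) ℂ) :
    evM g (lder X P) = ∑ ij : Fin m × Fin m, evM g (MvPolynomial.pderiv ij P) * (g * X) ij.1 ij.2 := by
  unfold lder evM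
  rw [map_sum]
  refine Finset.sum_congr rfl fun ij _ => ?_
  rw [map_mul, map_sum, mul_comm, Matrix.mul_apply]
  congr 1
  refine Finset.sum_congr rfl fun k _ => ?_
  rw [map_mul, MvPolynomial.eval_C, MvPolynomial.eval_X, mul_comm]

/-- Chain rule. Proof by `MvPolynomial.induction_on` (constants, sums, products with a variable; `pderiv` is a derivation). -/
theorem evM_hasDerivAt (A : ℂ → Matrix (Fin m) (Fin m) ℂ) (A' : Matrix (Fin m) (Fin m) ℂ) (z : ℂ)
    (h : ∀ i j, HasDerivAt (fun w => A w i j) (A' i j) z) (P : MvPolynomial (Fin m × Fin m) ℂ) :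
    HasDerivAt (fun w => evM (A w) P) (∑ ij : Fin m × Fin m, evM (A z) (MvPolynomial.pderiv ij P) * A' ij.1 ij.2) z := by
  induction P using MvPolynomial.induction_on with
  | C a =>
    have h1 : (fun w => evM (A w) (MvPolynomial.C a)) = fun _ => a := by
      funext w
      unfold evM
      exact MvPolynomial.eval_C a
    have h2 : ∑ ij : Fin m × Fin m, evM (A z) (MvPolynomial.pderiv ij (MvPolynomial.C a)) * A' ij.1 ij.2 = 0 := by
      refine Finset.sum_eq_zero fun ij _ => ?_
      unfold evM
      rw [MvPolynomial.pderiv_C, map_zero, zero_mul]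
    rw [h1, h2]
    exact hasDerivAt_const z a
  | add p q hp hq =>
    have h1 : (fun w => evM (A w) (p + q)) = fun w => evM (A w) p + evM (A w) q := by
      funext w
      unfold evM
      exact map_add _ _ _
    have h2 : ∑ ij : Fin m × Fin m, evM (A z) (MvPolynomial.pderiv ij (p + q)) * A' ij.1 ij.2 =
        ∑ ij : Fin m × Fin m, evM (A z) (MvPolynomial.pderiv ij p) * A' ij.1 ij.2 +
        ∑ ij : Fin m × Fin m, evM (A z) (MvPolynomial.pderiv ij q) * A' ij.1 ij.2 := by
      rw [← Finset.sum_add_distrib]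
      refine Finset.sum_congr rfl fun ij _ => ?_
      unfold evM
      rw [map_add, map_add, add_mul]
    rw [h1, h2]
    exact hp.fun_add hq
  | mul_X p n hp =>
    have h1 : (fun w => evM (A w) (p * MvPolynomial.X n)) = fun w => evM (A w) p * A w n.1 n.2 := by
      funext w
      unfold evM
      rw [map_mul, MvPolynomial.eval_X]
    have h2 : ∑ ij : Fin m × Fin m, evM (A z) (MvPolynomial.pderiv ij (p * MvPolynomial.X n)) * A' ij.1 ij.2 =
        (∑ ij : Fin m × Fin m, evM (A z) (MvPolynomial.pderiv ij p) * A' ij.1 ij.2) * A z n.1 n.2 +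
        evM (A z) p * A' n.1 n.2 := by
      rw [Finset.sum_mul]
      have h3 : evM (A z) p * A' n.1 n.2 = ∑ ij : Fin m × Fin m, if ij = n then evM (A z) p * A' ij.1 ij.2 else 0 := by
        rw [Finset.sum_ite_eq' Finset.univ n, if_pos (Finset.mem_univ _)]
      rw [h3, ← Finset.sum_add_distrib]
      refine Finset.sum_congr rfl fun ij _ => ?_
      unfold evM
      rw [Derivation.leibniz, smul_eq_mul, smul_eq_mul, map_add, map_mul, map_mul, MvPolynomial.eval_X,
        MvPolynomial.pderiv_X]
      by_cases h4 : ij = n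
      · rw [h4, if_pos rfl, Pi.single_eq_same, map_one]
        ring
      · rw [if_neg h4, Pi.single_eq_of_ne (fun h5 => h4 h5.symm), map_zero]
        ring
    rw [h1, h2]
    exact hp.fun_mul (h n.1 n.2)

/-- The entries of `exp (z X)` (`hasDerivAt_exp_smul_const` for the normed algebra of matrices, local instances as in `MP_c2b80f_alD/CtA.lean`, and a coordinate projection, which is continuous linear). -/
theorem hasDerivAt_exp_entry (X : Matrix (Fin m) (Fin m) ℂ) (z : ℂ) (i j : Fin m) :
    HasDerivAt (fun w : ℂ => (NormedSpace.exp (w • X)) i j) ((NormedSpace.exp (z • X) * X) i j) z := by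
  exact TnA_exp X z i j

/-- From `evM_hasDerivAt`, `hasDerivAt_exp_entry`, `evM_lder`. -/
theorem hasDerivAt_evM_exp (X : Matrix (Fin m) (Fin m) ℂ) (P : MvPolynomial (Fin m × Fin m) ℂ) (z : ℂ) :
    HasDerivAt (fun w : ℂ => evM (NormedSpace.exp (w • X)) P) (evM (NormedSpace.exp (z • X)) (lder X P)) z := by
  rw [evM_lder]
  exact evM_hasDerivAt (fun w : ℂ => NormedSpace.exp (w • X)) (NormedSpace.exp (z • X) * X) z
    (fun i j => hasDerivAt_exp_entry X z i j) P

end WCn
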