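import Pool.Agent.Lib.MP_c2b80f_alD.GDefs
import Pool.Agent.Lib.MP_c2b80f_alD.CtB
import Pool.Agent.Lib.MP_c2b80f_alE.TnA

/-!
# The tangent space of the closure of a real group (job CpF)
-/

open Matrix

namespace WCn

variable {m : ℕ}

/-- The elements of the closure of a group of real matrices are real; differentiate `exp (t X)` at `t = 0` (`hasDerivAt_exp_entry`, along the real line; the imaginary part of the entry is zero for all real `t`). -/
theorem tangent_real (Γ : Subgroup (SLC m)) (V : Submodule ℝ (Matrix (Fin m) (Fin m) ℂ))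
    (hV : ∀ X, X ∈ V ↔ ∀ t : ℝ, ∃ g ∈ Γ.topologicalClosure, g.1 = NormedSpace.exp ((t : ℂ) • X))
    (hΓ : ∀ g ∈ Γ, ∀ i j, (g.1 i j).im = 0) (X : Matrix (Fin m) (Fin m) ℂ) (hX : X ∈ V) (i j : Fin m) : (X i j).im = 0 := by
  have hcl : ∀ g ∈ Γ.topologicalClosure, ∀ i j, (g.1 i j).im = 0 := by
    intro g hg i j
    have hc : Continuous fun g : SLC m => (g.1 i j).im :=
      Complex.continuous_im.comp ((continuous_subtype_val (p := fun A : Matrix (Fin m) (Fin m) ℂ => A.det = 1)).matrix_elem i j)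
    exact closure_minimal (fun g hg => hΓ g hg i j) (isClosed_eq hc continuous_const) hg
  have h1 : ∀ t : ℝ, ((NormedSpace.exp ((t : ℂ) • X)) i j).im = 0 := by
    intro t
    obtain ⟨g, hg, hg1⟩ := (hV X).1 hX t
    rw [← hg1]
    exact hcl g hg i j
  have h2 : HasDerivAt (fun w : ℂ => (NormedSpace.exp (w • X)) i j) (X i j) ((0 : ℝ) : ℂ) := by
    have h3 := hasDerivAt_exp_entry X 0 i j
    rw [zero_smul, NormedSpace.exp_zero, one_mul] at h3
    rw [Complex.ofReal_zero]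
    exact h3
  have h4 := h2.comp_ofReal
  have h5 : HasDerivAt (fun t : ℝ => ((NormedSpace.exp ((t : ℂ) • X)) i j).im) ((X i j).im) 0 := by
    have h7 := HasFDerivAt.comp_hasDerivAt (l := fun z : ℂ => z.im) (l' := Complex.imCLM) (0 : ℝ)
      Complex.imCLM.hasFDerivAt h4
    exact h7
  have h6 : (fun t : ℝ => ((NormedSpace.exp ((t : ℂ) • X)) i j).im) = fun _ => 0 := funext h1
  rw [h6] at h5
  exact h5.unique (hasDerivAt_const (0 : ℝ) (0 : ℝ))

/-- As `mem_tangent` (`MP_c2b80f_alD/CtC.lean`): the complex subspace `{a + i b | a b ∈ V}` is everything; for a real `X = a + i b` with real `a b` the matrix `i b` is real and imaginary, so `b = 0`. -/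
theorem mem_tangent_real {G Γ : Subgroup (SLC m)} {𝔤 : Submodule ℂ (Matrix (Fin m) (Fin m) ℂ)} (hG : AdIrr G 𝔤) (hz : ZDenseIn G Γ)
    (V : Submodule ℝ (Matrix (Fin m) (Fin m) ℂ)) (hne : ∃ Y ∈ V, Y ≠ 0) (hle : ∀ X ∈ V, X ∈ 𝔤)
    (hconj : ∀ g ∈ Γ, ∀ X ∈ V, g.1 * X * (g⁻¹).1 ∈ V) (hreal : ∀ X ∈ V, ∀ i j, (X i j).im = 0)
    (X : Matrix (Fin m) (Fin m) ℂ) (hX : X ∈ 𝔤) (hXr : ∀ i j, (X i j).im = 0) : X ∈ V := by
  let W : Submodule ℂ (Matrix (Fin m) (Fin m) ℂ) :=
    { carrier := {Z | ∃ a ∈ V, ∃ b ∈ V, Z = a + Complex.I • b}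
      add_mem' := by
        rintro _ _ ⟨a, ha, b, hb, rfl⟩ ⟨a', ha', b', hb', rfl⟩
        refine ⟨a + a', V.add_mem ha ha', b + b', V.add_mem hb hb', ?_⟩
        rw [smul_add]
        abel
      zero_mem' := ⟨0, V.zero_mem, 0, V.zero_mem, by rw [smul_zero, add_zero]⟩
      smul_mem' := by
        rintro c _ ⟨a, ha, b, hb, rfl⟩
        refine ⟨c.re • a - c.im • b, V.sub_mem (V.smul_mem _ ha) (V.smul_mem _ hb),
          c.re • b + c.im • a, V.add_mem (V.smul_mem _ hb) (V.smul_mem _ ha), ?_⟩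
        ext i j
        have hc : (c.re : ℂ) + (c.im : ℂ) * Complex.I = c := Complex.re_add_im c
        have hI : Complex.I * Complex.I = -1 := Complex.I_mul_I
        simp only [Matrix.smul_apply, Matrix.add_apply, Matrix.sub_apply, smul_eq_mul, Complex.real_smul]
        linear_combination (-(a i j + Complex.I * b i j)) * hc + (c.im : ℂ) * b i j * hI }
  have hVW : ∀ a ∈ V, a ∈ W := fun a ha => ⟨a, ha, 0, V.zero_mem, by rw [smul_zero, add_zero]⟩
  have hW : W = 𝔤 := by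
    refine hG Γ hz W ?_ ?_ ?_
    · rintro _ ⟨a, ha, b, hb, rfl⟩
      exact 𝔤.add_mem (hle a ha) (𝔤.smul_mem _ (hle b hb))
    · intro h0
      obtain ⟨Y, hY, hY0⟩ := hne
      apply hY0
      have h1 := hVW Y hY
      rw [h0] at h1
      exact (Submodule.mem_bot ℂ).1 h1
    · rintro g hg _ ⟨a, ha, b, hb, rfl⟩
      refine ⟨_, hconj g hg a ha, _, hconj g hg b hb, ?_⟩
      rw [Matrix.mul_add, Matrix.add_mul, Matrix.mul_smul, Matrix.smul_mul]
  rw [← hW] at hX
  obtain ⟨a, ha, b, hb, hab⟩ := hX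
  have h9 : b = 0 := by
    ext i j
    have h1 := hXr i j
    have h2 := hreal a ha i j
    have h3 := hreal b hb i j
    rw [hab, Matrix.add_apply, Matrix.smul_apply, smul_eq_mul, Complex.add_im, h2, Complex.mul_im, Complex.I_re,
      Complex.I_im, zero_mul, one_mul, zero_add, zero_add] at h1
    exact Complex.ext h1 h3
  rw [hab, h9, smul_zero, add_zero]
  exact ha

end WCn
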