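import Pool.Agent.Lib.MP_c2b80f_alD.MainC

/-!
# Generic elements in an open set where the eigenvalues have absolute value one
-/

open Matrix Polynomial

namespace WCn

variable {n m : ℕ}

theorem main_open {r₁ r₂ : ℕ} (G₁ : Subgroup (SLC n)) (G₂ : Subgroup (SLC m)) {𝔤₁ : Submodule ℂ (Matrix (Fin n) (Fin n) ℂ)}
    {𝔤₂ : Submodule ℂ (Matrix (Fin m) (Fin m) ℂ)} (hG₁ : Cls r₁ G₁ 𝔤₁) (hG₂ : Cls r₂ G₂ 𝔤₂)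
    (Γ₁ : Subgroup (SLC n)) (Γ₂ : Subgroup (SLC m))
    (h₁ : Γ₁.FG) (hd : DiscreteTopology Γ₁) (hz₁ : ZDenseIn G₁ Γ₁) (h₂ : Γ₂.FG) (hz₂ : ZDenseIn G₂ Γ₂) (hnd : ¬ DiscreteTopology Γ₂)
    (V₀ : Set (SLC m)) (hopen : IsOpen V₀) (hN : ∀ N : Subgroup (SLC m), N ≤ Γ₂ → N.relIndex Γ₂ ≠ 0 → ∃ δ ∈ V₀, δ ∈ N)
    (hnorm : ∀ γ ∈ Γ₂, γ ∈ V₀ → ∀ (p : GL (Fin m) ℂ) (y : Fin m → ℂˣ), DiagBy γ p y → ∀ j, ‖(y j : ℂ)‖ = 1)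
    (hwc₁ : ∀ g ∈ Γ₁, IsSs g → ¬ IsOfFinOrder g → ∃ h ∈ Γ₂, IsSs h ∧ ¬ IsOfFinOrder h ∧ WComm g h)
    (hwc₂ : ∀ g ∈ Γ₂, IsSs g → ¬ IsOfFinOrder g → ∃ h ∈ Γ₁, IsSs h ∧ ¬ IsOfFinOrder h ∧ WComm g h) :
    False := by
  classical
  obtain ⟨A₁, hA₁⟩ := exists_entries Γ₁ h₁
  obtain ⟨A₂, hA₂⟩ := exists_entries Γ₂ h₂
  have he1 : ∀ g ∈ Γ₁, ∀ i j, g.1 i j ∈ Subring.closure ((A₁ ∪ A₂ : Finset ℂ) : Set ℂ) := by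
    intro g hg i j
    refine Subring.closure_mono ?_ (hA₁ g hg i j)
    intro w hw
    exact Finset.mem_coe.2 (Finset.mem_union_left _ (Finset.mem_coe.1 hw))
  have he2 : ∀ g ∈ Γ₂, ∀ i j, g.1 i j ∈ Subring.closure ((A₁ ∪ A₂ : Finset ℂ) : Set ℂ) := by
    intro g hg i j
    refine Subring.closure_mono ?_ (hA₂ g hg i j)
    intro w hw
    exact Finset.mem_coe.2 (Finset.mem_union_right _ (Finset.mem_coe.1 hw))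
  have hr : r₁ ≤ r₂ := rank_le hG₁ G₂ hG₂.rank Γ₁ hz₁ Γ₂ hz₂.1 (A₁ ∪ A₂) he1 he2 hwc₁
  obtain ⟨γ, hγ, hγV, hgen⟩ := exists_genG_open hG₂ Γ₂ hz₂ hnd (A₁ ∪ A₂) he2 V₀ hopen hN
  obtain ⟨h, hh, _, hinf, hw⟩ := hwc₂ γ hγ hgen.1 hgen.2.1
  obtain ⟨p, y, q, x, a, b, hd1, hd2, hab, hne1⟩ := hw
  have hy1 : ∀ j, ‖(y j : ℂ)‖ = 1 := hnorm γ hγ hγV p y hd1
  obtain ⟨β, hβ, hid⟩ := (pairG hG₂.pos (Subring.closure ((A₁ ∪ A₂ : Finset ℂ) : Set ℂ)) γ hgen h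
    (hG₁.rank h (hz₁.1 hh)) (fun i => charpoly_coeff_mem _ h.1 (he1 h hh) i) q x p y hd2 hd1 b a hab.symm
    (fun h1 => hne1 (hab.trans h1))).2 hr
  have hcomp := compat_log (absOn_norm ⊤) x y (fun i => Subfield.mem_top _) (fun j => Subfield.mem_top _)
  have hsum := hid _ _ hcomp
  have hzero : ∑ i, Real.log ‖(x i : ℂ)‖ ^ 2 = 0 := by
    have h1 : ∑ j, Real.log ‖(y j : ℂ)‖ ^ 2 = 0 := by
      refine Finset.sum_eq_zero fun j _ => ?_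
      rw [hy1 j, Real.log_one]
      norm_num
    calc ∑ i, Real.log ‖(x i : ℂ)‖ ^ 2 = β * ∑ j, Real.log ‖(y j : ℂ)‖ ^ 2 := hsum
      _ = 0 := by rw [h1, mul_zero]
  have hx1 : ∀ i, ‖(x i : ℂ)‖ = 1 := by
    intro i
    have h1 := (Finset.sum_eq_zero_iff_of_nonneg (fun i _ => sq_nonneg (Real.log ‖(x i : ℂ)‖))).1 hzero i
      (Finset.mem_univ i)
    have h2 : Real.log ‖(x i : ℂ)‖ = 0 := by simpa using h1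
    have h3 : 0 < ‖(x i : ℂ)‖ := norm_pos_iff.2 (x i).ne_zero
    rcases Real.log_eq_zero.1 h2 with h4 | h4 | h4
    · linarith
    · exact h4
    · linarith
  exact hinf (not_discrete_of_norm_one Γ₁ hd h hh q x hd2 hx1)

end WCn
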