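import Pool.Agent.Lib.MP_c2b80f_alE.CpB
import Pool.Agent.Lib.MP_c2b80f_alD.CtA

/-!
# Conjugation into a torus for matrices (job CpI)
-/

open Matrix

namespace WCn

variable {m : ℕ}

section CpI

attribute [local instance] Matrix.linftyOpNormedRing Matrix.linftyOpNormedAlgebra
  Matrix.linftyOpNormedAddCommGroup Matrix.linftyOpNormedSpace

private theorem CpI_main {m : ℕ} (hm : 0 < m) (S : Set (Matrix (Fin m) (Fin m) ℂ))
    (h1 : (1 : Matrix (Fin m) (Fin m) ℂ) ∈ S) (h2 : ∀ a ∈ S, ∀ b ∈ S, a * b ∈ S)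
    (h3 : ∀ a ∈ S, ∃ b ∈ S, a * b = 1 ∧ b * a = 1) (hc : IsClosed S)
    (V T : Submodule ℝ (Matrix (Fin m) (Fin m) ℂ)) (hV : ∀ X, X ∈ V ↔ ∀ t : ℝ, NormedSpace.exp (t • X) ∈ S)
    (hT : T ≤ V) (hcomm : ∀ X ∈ T, ∀ Y ∈ T, X * Y = Y * X) (X₀ : Matrix (Fin m) (Fin m) ℂ) (hX₀ : X₀ ∈ T)
    (hdec : ∀ X ∈ V, ∃ Y ∈ V, ∃ Z ∈ T, X = NormedSpace.exp (-X₀) * Y * NormedSpace.exp X₀ - Y + Z) :
    ∃ ε : ℝ, 0 < ε ∧ ∀ g ∈ S, (∀ i j, ‖(g - NormedSpace.exp X₀) i j‖ < ε) →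
      ∃ Y ∈ V, ∃ Z ∈ T, g = NormedSpace.exp Y * NormedSpace.exp (X₀ + Z) * NormedSpace.exp (-Y) := by
  have : Nonempty (Fin m) := ⟨⟨0, hm⟩⟩
  have hS : IsUnitGroup S := ⟨h1, h2, h3⟩
  have hm' : (0 : ℝ) < m := by exact_mod_cast hm
  obtain ⟨ε, hε, h⟩ := exists_conj_tang (𝔸 := Matrix (Fin m) (Fin m) ℂ) S hS hc V T hV hT hcomm X₀ hX₀ hdec
  refine ⟨ε / m, by positivity, fun g hg hg1 => ?_⟩
  exact h g hg (cartA_norm_lt hm hε _ hg1)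

end CpI

/-- `exists_conj_tang` for the algebra of complex matrices (norm `Matrix.linftyOpNormedRing` as a real algebra, local instances) and `S` the set of the matrices of the elements of the closure of `Γ`; everything as in `MP_c2b80f_alD/CtA.lean` (`exists_tangent`): `S` is closed and `IsUnitGroup`, `V = tang S`, entrywise closeness implies
closeness in norm (`cartA_norm_lt`). The case `m = 0` is trivial. -/
theorem exists_conj_near (Γ : Subgroup (SLC m)) (V T : Submodule ℝ (Matrix (Fin m) (Fin m) ℂ))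
    (hV : ∀ X, X ∈ V ↔ ∀ t : ℝ, ∃ g ∈ Γ.topologicalClosure, g.1 = NormedSpace.exp ((t : ℂ) • X)) (hT : T ≤ V)
    (hcomm : ∀ X ∈ T, ∀ Y ∈ T, X * Y = Y * X) (X₀ : Matrix (Fin m) (Fin m) ℂ) (hX₀ : X₀ ∈ T)
    (hdec : ∀ X ∈ V, ∃ Y ∈ V, ∃ Z ∈ T, X = NormedSpace.exp (-X₀) * Y * NormedSpace.exp X₀ - Y + Z) :
    ∃ ε : ℝ, 0 < ε ∧ ∀ g ∈ Γ.topologicalClosure, (∀ i j, ‖g.1 i j - (NormedSpace.exp X₀) i j‖ < ε) →
      ∃ Y ∈ V, ∃ Z ∈ T, g.1 = NormedSpace.exp Y * NormedSpace.exp (X₀ + Z) * NormedSpace.exp (-Y) := by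
  rcases Nat.eq_zero_or_pos m with rfl | hm
  · exact ⟨1, one_pos, fun g _ _ => ⟨0, V.zero_mem, 0, T.zero_mem, Subsingleton.elim _ _⟩⟩
  · obtain ⟨H, hHd⟩ : ∃ H : Subgroup (SLC m), H = Γ.topologicalClosure := ⟨_, rfl⟩
    have hH : IsClosed (H : Set (SLC m)) := by
      rw [hHd]
      exact Γ.isClosed_topologicalClosure
    rw [← hHd]
    rw [← hHd] at hV
    obtain ⟨S, hSd⟩ : ∃ S : Set (Matrix (Fin m) (Fin m) ℂ),
        S = (Subtype.val : SLC m → Matrix (Fin m) (Fin m) ℂ) '' (H : Set (SLC m)) := ⟨_, rfl⟩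
    have s1 : (1 : Matrix (Fin m) (Fin m) ℂ) ∈ S := by
      rw [hSd]
      exact ⟨(1 : SLC m), H.one_mem, rfl⟩
    have s2 : ∀ a ∈ S, ∀ b ∈ S, a * b ∈ S := by
      rw [hSd]
      rintro _ ⟨(a : SLC m), ha, rfl⟩ _ ⟨(b : SLC m), hb, rfl⟩
      exact ⟨(a * b : SLC m), H.mul_mem ha hb, rfl⟩
    have s3 : ∀ a ∈ S, ∃ b ∈ S, a * b = 1 ∧ b * a = 1 := by
      rw [hSd]
      rintro _ ⟨(a : SLC m), ha, rfl⟩
      exact ⟨(a⁻¹ : SLC m).1, ⟨(a⁻¹ : SLC m), H.inv_mem ha, rfl⟩,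
        congrArg Subtype.val (mul_inv_cancel a), congrArg Subtype.val (inv_mul_cancel a)⟩
    have hc : IsClosed S := by
      have h1 : IsClosed {A : Matrix (Fin m) (Fin m) ℂ | A.det = 1} :=
        isClosed_eq (continuous_id.matrix_det) continuous_const
      rw [hSd]
      exact h1.isClosedEmbedding_subtypeVal.isClosedMap _ hH
    have hsm : ∀ (t : ℝ) (X : Matrix (Fin m) (Fin m) ℂ), (t : ℂ) • X = t • X := by
      intro t X
      ext i j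
      simp
    have hV' : ∀ X, X ∈ V ↔ ∀ t : ℝ, NormedSpace.exp (t • X) ∈ S := by
      intro X
      refine (hV X).trans ⟨fun h1 t => ?_, fun h1 t => ?_⟩
      · obtain ⟨g, hg, hg'⟩ := h1 t
        rw [hsm] at hg'
        rw [hSd]
        exact ⟨g, hg, hg'⟩
      · have h2 := h1 t
        rw [hSd] at h2
        obtain ⟨g, hg, hg'⟩ := h2
        refine ⟨g, hg, ?_⟩
        rw [hsm]
        exact hg'
    obtain ⟨ε, hε, h⟩ := CpI_main hm S s1 s2 s3 hc V T hV' hT hcomm X₀ hX₀ hdec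
    exact ⟨ε, hε, fun g hg hn => h g.1 (by rw [hSd]; exact ⟨g, hg, rfl⟩) fun i j => hn i j⟩

end WCn
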