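import Pool.Agent.Lib.MP_c2b80f_alE.CpC
import Pool.Agent.Lib.MP_c2b80f_alE.CpE
import Pool.Agent.Lib.MP_c2b80f_alE.CpF
import Pool.Agent.Lib.MP_c2b80f_alE.CpI
import Pool.Agent.Lib.MP_c2b80f_alE.CpG
import Pool.Agent.Lib.MP_c2b80f_alE.TnJ

/-!
# The open set of elliptic elements (job CpH)
-/

open Matrix

namespace WCn

variable {m : ℕ}

private theorem CpH_mul {A B : Matrix (Fin m) (Fin m) ℂ} (hA : ∀ i j, (A i j).im = 0) (hB : ∀ i j, (B i j).im = 0) (i j : Fin m) :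
    ((A * B) i j).im = 0 := by
  rw [Matrix.mul_apply, Complex.im_sum]
  refine Finset.sum_eq_zero fun k _ => ?_
  rw [Complex.mul_im, hA, hB, mul_zero, zero_mul, add_zero]

private theorem CpH_closure (Γ : Subgroup (SLC m)) (hΓ : ∀ g ∈ Γ, ∀ i j, (g.1 i j).im = 0) (g : SLC m) (hg : g ∈ Γ.topologicalClosure)
    (i j : Fin m) : (g.1 i j).im = 0 := by
  have h1 : IsClosed {g : SLC m | (g.1 i j).im = 0} :=
    isClosed_eq (Complex.continuous_im.comp (continuous_subtype_val.matrix_elem i j)) continuous_const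
  have h2 : (Γ : Set (SLC m)) ⊆ {g : SLC m | (g.1 i j).im = 0} := fun g hg => hΓ g hg i j
  have h3 := closure_minimal h2 h1
  exact h3 (by rw [← Subgroup.topologicalClosure_coe]; exact hg)

/-- Let `G` be almost simple, `Γ` a Zariski dense subgroup of real matrices which is not discrete, and `T` the Lie algebra of a compact Cartan subgroup of the real group. There is an open set which meets all subgroups of finite index of `Γ` and such that all semisimple elements of `Γ` in it have only eigenvalues of absolute value one.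
Proof. `V` from `exists_tangent Γ`; by `tangent_real`, `tangent_conj`, `tangent_ne_bot`, `mem_tangent_real` and `mem_tanG_iff` (elements of `V` are in `tanG G` because `G` is closed) `V` is the space of the real matrices in `tanG G`; in particular `T ≤ V`. Take `X₀` from `exists_regular_cpt`. `hdec` of `exists_conj_near` is `real_dec` with
`g = exp X₀`, `h = exp (-X₀)`: `V` is stable under `Y ↦ exp (-X₀) Y exp X₀` (these matrices are real, and in `tanG G` by `tanG_conj`), and a `Y ∈ V` which commutes with `exp X₀` commutes with `T`, hence is in `T` by `hmax`. Take `ε` from `exists_conj_near` and `V₀ = {g | all |g i j - (exp X₀) i j| < ε}`, an open set. It meets all subgroups of finite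
index by `exp_mem_closure` (as in the proof of `main_cpt` in `MP_c2b80f_alD/MainC.lean`). If `γ ∈ Γ ∩ V₀` then `γ = exp Y exp (X₀ + Z) exp (-Y)` with `X₀ + Z ∈ T`; use `norm_eig_of_bounded`. -/
theorem exists_elliptic {G : Subgroup (SLC m)} (hG : AlmostSimple G) (Γ : Subgroup (SLC m)) (hz : ZDenseIn G Γ) (hnd : ¬ DiscreteTopology Γ)
    (hΓ : ∀ g ∈ Γ, ∀ i j, (g.1 i j).im = 0)
    (T : Submodule ℝ (Matrix (Fin m) (Fin m) ℂ)) (hTr : ∀ X ∈ T, ∀ i j, (X i j).im = 0)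
    (hTG : ∀ X ∈ T, ∀ t : ℝ, ∃ g ∈ G, g.1 = NormedSpace.exp ((t : ℂ) • X))
    (hcomm : ∀ X ∈ T, ∀ Y ∈ T, X * Y = Y * X)
    (hb : ∀ X ∈ T, ∃ C : ℝ, ∀ (t : ℝ) (i j : Fin m), ‖(NormedSpace.exp ((t : ℂ) • X)) i j‖ ≤ C)
    (hmax : ∀ X : Matrix (Fin m) (Fin m) ℂ, (∀ i j, (X i j).im = 0) → (∀ t : ℝ, ∃ g ∈ G, g.1 = NormedSpace.exp ((t : ℂ) • X)) →
      (∀ Y ∈ T, X * Y = Y * X) → X ∈ T) :
    ∃ V₀ : Set (SLC m), IsOpen V₀ ∧ (∀ N : Subgroup (SLC m), N ≤ Γ → N.relIndex Γ ≠ 0 → ∃ δ ∈ V₀, δ ∈ N) ∧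
      ∀ γ ∈ Γ, γ ∈ V₀ → ∀ (p : GL (Fin m) ℂ) (y : Fin m → ℂˣ), DiagBy γ p y → ∀ j, ‖(y j : ℂ)‖ = 1 := by
  classical
  obtain ⟨V, hV, hV2⟩ := exists_tangent Γ
  have hclG : IsClosed (G : Set (SLC m)) := hG.closed.isClosed
  have hconj := tangent_conj Γ V hV
  have hne := tangent_ne_bot Γ V hV2 hnd
  have hle : ∀ X ∈ V, X ∈ tanG G := by
    intro X hX
    rw [mem_tanG_iff hG.closed]
    intro t
    obtain ⟨g, hg, hg1⟩ := (hV X).1 hX t
    exact ⟨g, Subgroup.topologicalClosure_minimal Γ hz.1 hclG hg, hg1⟩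
  have hreal : ∀ X ∈ V, ∀ i j, (X i j).im = 0 := fun X hX i j => tangent_real Γ V hV hΓ X hX i j
  have hmem : ∀ X, X ∈ tanG G → (∀ i j, (X i j).im = 0) → X ∈ V := fun X h1 h2 =>
    mem_tangent_real hG.adIrr hz V hne hle (fun g hg X hX => hconj g hg X hX) hreal X h1 h2
  have hTV : T ≤ V := fun X hX => hmem X ((mem_tanG_iff hG.closed X).2 (hTG X hX)) (hTr X hX)
  obtain ⟨X₀, hX₀, ⟨p, c, hpc⟩, hreg⟩ := exists_regular_cpt T hcomm hb
  obtain ⟨g₀, hg₀, hg₀e⟩ := (hV X₀).1 (hTV hX₀) 1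
  rw [Complex.ofReal_one, one_smul] at hg₀e
  have hg₀i : (g₀⁻¹).1 = NormedSpace.exp (-X₀) := coe_inv_of_exp hg₀e
  have hexpinv : NormedSpace.exp X₀ * NormedSpace.exp (-X₀) = 1 := by
    rw [← hg₀e, ← hg₀i, ← Matrix.SpecialLinearGroup.coe_mul, mul_inv_cancel]
    rfl
  have hst : ∀ Y ∈ V, NormedSpace.exp (-X₀) * Y * NormedSpace.exp X₀ ∈ V := by
    intro Y hY
    refine hmem _ ?_ ?_
    · have h1 := tanG_conj (hle Y hY) (g := g₀⁻¹) (inv_mem (Subgroup.topologicalClosure_minimal Γ hz.1 hclG hg₀))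
      rw [inv_inv, hg₀e, hg₀i] at h1
      exact h1
    · refine CpH_mul (CpH_mul ?_ (hreal Y hY)) ?_
      · rw [← hg₀i]
        exact CpH_closure Γ hΓ _ (inv_mem hg₀)
      · rw [← hg₀e]
        exact CpH_closure Γ hΓ _ hg₀
  have hcT : ∀ Y ∈ V, NormedSpace.exp X₀ * Y = Y * NormedSpace.exp X₀ → Y ∈ T := fun Y hY h =>
    hmax Y (hreal Y hY) ((mem_tanG_iff hG.closed Y).1 (hle Y hY)) fun X hX => (hreg Y h X hX).symm
  obtain ⟨ε, hε, hnear⟩ := exists_conj_near Γ V T hV hTV hcomm X₀ hX₀ fun X hX =>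
    real_dec V T hTV (NormedSpace.exp X₀) (NormedSpace.exp (-X₀)) hexpinv p c hpc hst hcT X hX
  have hopen : IsOpen {g : SLC m | ∀ i j, ‖g.1 i j - (NormedSpace.exp X₀) i j‖ < ε} := by
    simp only [Set.ofPred_forall]
    refine isOpen_iInter_of_finite fun i => isOpen_iInter_of_finite fun j => ?_
    have hc : Continuous fun g : SLC m => ‖g.1 i j - (NormedSpace.exp X₀) i j‖ :=
      ((continuous_subtype_val.matrix_elem i j).sub continuous_const).norm
    exact isOpen_lt hc continuous_const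
  refine ⟨{g : SLC m | ∀ i j, ‖g.1 i j - (NormedSpace.exp X₀) i j‖ < ε}, hopen, ?_, ?_⟩
  · intro N hN hfi
    have hcl := exp_mem_closure Γ X₀ (fun s => (hV X₀).1 (hTV hX₀) s) g₀ hg₀e N hN hfi
    rw [mem_closure_iff] at hcl
    obtain ⟨δ, hδ1, hδ2⟩ := hcl _ hopen (by
      intro i j
      rw [hg₀e, sub_self, norm_zero]
      exact hε)
    exact ⟨δ, hδ1, hδ2⟩
  · intro γ hγ hγV q y hd j
    obtain ⟨Y, -, Z, hZ, e⟩ := hnear γ (Γ.le_topologicalClosure hγ) hγV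
    obtain ⟨C, hC⟩ := hb (X₀ + Z) (T.add_mem hX₀ hZ)
    exact norm_eig_of_bounded γ q y hd (X₀ + Z) Y e C hC j

end WCn
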