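import Pool.Agent.Lib.MP_c2b80f_alE.CpH

/-!
# The open set of elliptic elements for closed subgroups with a compact Cartan subgroup (job CpK)

`L` is a closed subgroup of `G(ℂ)` (for instance the group of the real points, or a real form) whose Lie algebra has a compact Cartan subalgebra `T`.
-/

open Matrix

namespace WCn

variable {m : ℕ}

private theorem CpK_exp_conj (g : SLC m) (X : Matrix (Fin m) (Fin m) ℂ) (t : ℝ) :
    NormedSpace.exp ((t : ℂ) • (g.1 * X * (g⁻¹).1)) = g.1 * NormedSpace.exp ((t : ℂ) • X) * (g⁻¹).1 := by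
  have h1 : (g⁻¹).1 * g.1 = 1 := by
    rw [← Matrix.SpecialLinearGroup.coe_mul, inv_mul_cancel]
    rfl
  have hg2 : (g⁻¹).1 = (g.1)⁻¹ := (Matrix.inv_eq_left_inv h1).symm
  have hu : IsUnit g.1 := by
    rw [Matrix.isUnit_iff_isUnit_det, g.2]
    exact isUnit_one
  rw [hg2, ← Matrix.exp_conj _ _ hu, Matrix.mul_smul, Matrix.smul_mul]

/-- The Lie algebra of a closed group is stable under conjugation by the group. -/
theorem lie_conj_mem (L : Subgroup (SLC m)) (g : SLC m) (hg : g ∈ L) (X : Matrix (Fin m) (Fin m) ℂ)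
    (hX : ∀ t : ℝ, ∃ h ∈ L, h.1 = NormedSpace.exp ((t : ℂ) • X)) (t : ℝ) :
    ∃ h ∈ L, h.1 = NormedSpace.exp ((t : ℂ) • (g.1 * X * (g⁻¹).1)) := by
  obtain ⟨h, hh, e⟩ := hX t
  refine ⟨g * h * g⁻¹, mul_mem (mul_mem hg hh) (inv_mem hg), ?_⟩
  rw [CpK_exp_conj, ← e]
  rfl

/-- A matrix such that `exp (t X)` and `exp (t i X)` are bounded is zero. -/
theorem zero_of_bounded (X : Matrix (Fin m) (Fin m) ℂ) (C C' : ℝ) (hC : ∀ (t : ℝ) (i j : Fin m), ‖(NormedSpace.exp ((t : ℂ) • X)) i j‖ ≤ C)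
    (hC' : ∀ (t : ℝ) (i j : Fin m), ‖(NormedSpace.exp ((t : ℂ) • (Complex.I • X))) i j‖ ≤ C') : X = 0 := by
  obtain ⟨h1, h2⟩ := diag_of_bounded X C hC
  obtain ⟨-, h3⟩ := diag_of_bounded (Complex.I • X) C' hC'
  have h4 : ∀ μ : ℂ, Module.End.eigenspace (Matrix.toLin' X) μ ≤ Module.End.eigenspace (Matrix.toLin' X) 0 := by
    intro μ v hv
    rcases eq_or_ne v 0 with rfl | hv0
    · exact Submodule.zero_mem _
    · have h5 : X *ᵥ v = μ • v := by
        rw [Module.End.mem_eigenspace_iff, Matrix.toLin'_apply] at hv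
        exact hv
      have h6 : μ.re = 0 := h2 μ v hv0 h5
      have h7 : (Complex.I * μ).re = 0 := h3 (Complex.I * μ) v hv0 (by rw [Matrix.smul_mulVec, h5, smul_smul])
      have h8 : μ = 0 := by
        apply Complex.ext h6
        simpa using h7
      rw [← h8]
      exact hv
  have h5 : Module.End.eigenspace (Matrix.toLin' X) 0 = ⊤ := by
    rw [eq_top_iff, ← h1]
    exact iSup_le h4
  have h6 : Matrix.toLin' X = 0 := by
    apply LinearMap.ext
    intro v
    have h7 : v ∈ Module.End.eigenspace (Matrix.toLin' X) 0 := by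
      rw [h5]
      exact Submodule.mem_top
    rw [Module.End.mem_eigenspace_iff, zero_smul] at h7
    rw [h7]
    rfl
  exact (LinearEquiv.map_eq_zero_iff (Matrix.toLin' (R := ℂ) (m := Fin m) (n := Fin m))).1 h6

/-- Let `G` be almost simple, `L` a closed subgroup of `G` with a compact Cartan subalgebra `T`, and `Γ ≤ L` Zariski dense in `G` and not discrete. There is an open set which meets all subgroups of finite index of `Γ` and such that all semisimple elements of `Γ` in it have only eigenvalues of absolute value one.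
Proof. Let `V` be the Lie algebra of the closure of `Γ` and `𝔩` that of `L`. `𝔩 ∩ i 𝔩` is a complex subspace stable under `Γ`. If it is the Lie algebra of `G` then `T` is a complex space, and `T = 0` by `zero_of_bounded`; then all elements of `𝔩` are in `T`: contradiction. So `𝔩 ∩ i 𝔩 = 0`. `V + i V` is the Lie algebra of `G`. So `V = 𝔩`. The rest is as in `exists_elliptic`. -/
theorem exists_elliptic_cl {G : Subgroup (SLC m)} (hG : AlmostSimple G) (L : Subgroup (SLC m)) (hLG : L ≤ G) (hLc : IsClosed (L : Set (SLC m)))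
    (Γ : Subgroup (SLC m)) (hΓL : Γ ≤ L) (hz : ZDenseIn G Γ) (hnd : ¬ DiscreteTopology Γ)
    (T : Submodule ℝ (Matrix (Fin m) (Fin m) ℂ))
    (hTL : ∀ X ∈ T, ∀ t : ℝ, ∃ g ∈ L, g.1 = NormedSpace.exp ((t : ℂ) • X))
    (hcomm : ∀ X ∈ T, ∀ Y ∈ T, X * Y = Y * X)
    (hb : ∀ X ∈ T, ∃ C : ℝ, ∀ (t : ℝ) (i j : Fin m), ‖(NormedSpace.exp ((t : ℂ) • X)) i j‖ ≤ C)
    (hmax : ∀ X : Matrix (Fin m) (Fin m) ℂ, (∀ t : ℝ, ∃ g ∈ L, g.1 = NormedSpace.exp ((t : ℂ) • X)) →
      (∀ Y ∈ T, X * Y = Y * X) → X ∈ T) :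
    ∃ V₀ : Set (SLC m), IsOpen V₀ ∧ (∀ N : Subgroup (SLC m), N ≤ Γ → N.relIndex Γ ≠ 0 → ∃ δ ∈ V₀, δ ∈ N) ∧
      ∀ γ ∈ Γ, γ ∈ V₀ → ∀ (p : GL (Fin m) ℂ) (y : Fin m → ℂˣ), DiagBy γ p y → ∀ j, ‖(y j : ℂ)‖ = 1 := by
  classical
  obtain ⟨V, hV, hV2⟩ := exists_tangent Γ
  obtain ⟨U, hU, -⟩ := exists_tangent L
  have hLcl : L.topologicalClosure = L := by
    apply SetLike.coe_injective
    rw [Subgroup.topologicalClosure_coe]
    exact hLc.closure_eq
  rw [hLcl] at hU
  have hΓcl : Γ.topologicalClosure ≤ L := Subgroup.topologicalClosure_minimal Γ hΓL hLc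
  have hclG : IsClosed (G : Set (SLC m)) := hG.closed.isClosed
  have hconj := tangent_conj Γ V hV
  have hne := tangent_ne_bot Γ V hV2 hnd
  have hVU : ∀ X ∈ V, X ∈ U := by
    intro X hX
    rw [hU]
    intro t
    obtain ⟨g, hg, hg1⟩ := (hV X).1 hX t
    exact ⟨g, hΓcl hg, hg1⟩
  have hUG : ∀ X ∈ U, X ∈ tanG G := by
    intro X hX
    rw [mem_tanG_iff hG.closed]
    intro t
    obtain ⟨g, hg, hg1⟩ := (hU X).1 hX t
    exact ⟨g, hLG hg, hg1⟩
  have hle : ∀ X ∈ V, X ∈ tanG G := fun X hX => hUG X (hVU X hX)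
  have hUconj : ∀ g ∈ L, ∀ X ∈ U, g.1 * X * (g⁻¹).1 ∈ U := by
    intro g hg X hX
    rw [hU]
    exact lie_conj_mem L g hg X ((hU X).1 hX)
  have hI : Complex.I * Complex.I = -1 := Complex.I_mul_I
  -- the largest complex subspace of `U` is zero
  have hcx : ∀ X, X ∈ U → Complex.I • X ∈ U → X = 0 := by
    let W : Submodule ℂ (Matrix (Fin m) (Fin m) ℂ) :=
      { carrier := {X | X ∈ U ∧ Complex.I • X ∈ U}
        add_mem' := by
          rintro a b ⟨ha, ha'⟩ ⟨hb, hb'⟩
          exact ⟨U.add_mem ha hb, by rw [smul_add]; exact U.add_mem ha' hb'⟩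
        zero_mem' := ⟨U.zero_mem, by rw [smul_zero]; exact U.zero_mem⟩
        smul_mem' := by
          rintro c a ⟨ha, ha'⟩
          have key : ∀ (d : ℂ), d • a ∈ U := by
            intro d
            have h1 : d • a = d.re • a + d.im • (Complex.I • a) := by
              ext i j
              have hc : (d.re : ℂ) + (d.im : ℂ) * Complex.I = d := Complex.re_add_im d
              simp only [Matrix.smul_apply, Matrix.add_apply, smul_eq_mul, Complex.real_smul]
              linear_combination (-(a i j)) * hc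
            rw [h1]
            exact U.add_mem (U.smul_mem _ ha) (U.smul_mem _ ha')
          exact ⟨key c, by rw [smul_smul]; exact key _⟩ }
    have hW0 : W = ⊥ := by
      by_contra hW
      have hWG : W = tanG G := by
        refine hG.adIrr Γ hz W (fun X hX => hUG X hX.1) hW ?_
        rintro g hg X ⟨hX, hX'⟩
        refine ⟨hUconj g (hΓL hg) X hX, ?_⟩
        have h1 := hUconj g (hΓL hg) _ hX'
        rw [Matrix.mul_smul, Matrix.smul_mul] at h1
        exact h1
      have hT0 : ∀ X ∈ T, X = 0 := by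
        intro X hX
        have h1 : X ∈ W := by
          rw [hWG]
          exact hUG X ((hU X).2 (hTL X hX))
        have h2 : Complex.I • X ∈ T := by
          refine hmax _ ((hU _).1 h1.2) fun Y hY => ?_
          rw [Matrix.smul_mul, Matrix.mul_smul, hcomm X hX Y hY]
        obtain ⟨C, hC⟩ := hb X hX
        obtain ⟨C', hC'⟩ := hb _ h2
        exact zero_of_bounded X C C' hC hC'
      obtain ⟨Y, hY, hY0⟩ := hne
      refine hY0 (hT0 Y (hmax Y ((hU Y).1 (hVU Y hY)) fun Z hZ => ?_))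
      rw [hT0 Z hZ, Matrix.mul_zero, Matrix.zero_mul]
    intro X hX hX'
    have h1 : X ∈ W := ⟨hX, hX'⟩
    rw [hW0] at h1
    exact (Submodule.mem_bot ℂ).1 h1
  -- `V = U`
  have hmem : ∀ X ∈ U, X ∈ V := by
    let W : Submodule ℂ (Matrix (Fin m) (Fin m) ℂ) :=
      { carrier := {Z | ∃ a ∈ V, ∃ b ∈ V, Z = a + Complex.I • b}
        add_mem' := by
          rintro _ _ ⟨a, ha, b, hb, rfl⟩ ⟨a', ha', b', hb', rfl⟩
          refine ⟨a + a', V.add_mem ha ha', b + b', V.add_mem hb hb', ?_⟩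
          rw [smul_add]
          abel
        zero_mem' := ⟨0, V.zero_mem, 0, V.zero_mem, by rw [smul_zero, add_zero]⟩
        smul_mem' := by
          rintro c _ ⟨a, ha, b, hb, rfl⟩
          refine ⟨c.re • a - c.im • b, V.sub_mem (V.smul_mem _ ha) (V.smul_mem _ hb),
            c.re • b + c.im • a, V.add_mem (V.smul_mem _ hb) (V.smul_mem _ ha), ?_⟩
          ext i j
          have hc : (c.re : ℂ) + (c.im : ℂ) * Complex.I = c := Complex.re_add_im c
          simp only [Matrix.smul_apply, Matrix.add_apply, Matrix.sub_apply, smul_eq_mul, Complex.real_smul]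
          linear_combination (-(a i j + Complex.I * b i j)) * hc + (c.im : ℂ) * b i j * hI }
    have hVW : ∀ a ∈ V, a ∈ W := fun a ha => ⟨a, ha, 0, V.zero_mem, by rw [smul_zero, add_zero]⟩
    have hW : W = tanG G := by
      refine hG.adIrr Γ hz W ?_ ?_ ?_
      · rintro _ ⟨a, ha, b, hb, rfl⟩
        exact (tanG G).add_mem (hle a ha) ((tanG G).smul_mem _ (hle b hb))
      · intro h0
        obtain ⟨Y, hY, hY0⟩ := hne
        apply hY0
        have h1 := hVW Y hY
        rw [h0] at h1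
        exact (Submodule.mem_bot ℂ).1 h1
      · rintro g hg _ ⟨a, ha, b, hb, rfl⟩
        refine ⟨_, hconj g hg a ha, _, hconj g hg b hb, ?_⟩
        rw [Matrix.mul_add, Matrix.add_mul, Matrix.mul_smul, Matrix.smul_mul]
    intro X hX
    have h1 : X ∈ W := by
      rw [hW]
      exact hUG X hX
    obtain ⟨a, ha, b, hb, hab⟩ := h1
    have h2 : Complex.I • b ∈ U := by
      have h3 : Complex.I • b = X - a := by
        rw [hab]
        abel
      rw [h3]
      exact U.sub_mem hX (hVU a ha)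
    have h3 : b = 0 := hcx b (hVU b hb) h2
    rw [hab, h3, smul_zero, add_zero]
    exact ha
  have hTV : T ≤ V := fun X hX => hmem X ((hU X).2 (hTL X hX))
  obtain ⟨X₀, hX₀, ⟨p, c, hpc⟩, hreg⟩ := exists_regular_cpt T hcomm hb
  obtain ⟨g₀, hg₀, hg₀e⟩ := (hV X₀).1 (hTV hX₀) 1
  rw [Complex.ofReal_one, one_smul] at hg₀e
  have hg₀i : (g₀⁻¹).1 = NormedSpace.exp (-X₀) := coe_inv_of_exp hg₀e
  have hexpinv : NormedSpace.exp X₀ * NormedSpace.exp (-X₀) = 1 := by
    rw [← hg₀e, ← hg₀i, ← Matrix.SpecialLinearGroup.coe_mul, mul_inv_cancel]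
    rfl
  have hst : ∀ Y ∈ V, NormedSpace.exp (-X₀) * Y * NormedSpace.exp X₀ ∈ V := by
    intro Y hY
    refine hmem _ ?_
    have h1 := hUconj g₀⁻¹ (inv_mem (hΓcl hg₀)) Y (hVU Y hY)
    rw [inv_inv, hg₀e, hg₀i] at h1
    exact h1
  have hcT : ∀ Y ∈ V, NormedSpace.exp X₀ * Y = Y * NormedSpace.exp X₀ → Y ∈ T := fun Y hY h =>
    hmax Y ((hU Y).1 (hVU Y hY)) fun X hX => (hreg Y h X hX).symm
  obtain ⟨ε, hε, hnear⟩ := exists_conj_near Γ V T hV hTV hcomm X₀ hX₀ fun X hX =>
    real_dec V T hTV (NormedSpace.exp X₀) (NormedSpace.exp (-X₀)) hexpinv p c hpc hst hcT X hX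
  have hopen : IsOpen {g : SLC m | ∀ i j, ‖g.1 i j - (NormedSpace.exp X₀) i j‖ < ε} := by
    simp only [Set.ofPred_forall]
    refine isOpen_iInter_of_finite fun i => isOpen_iInter_of_finite fun j => ?_
    have hc : Continuous fun g : SLC m => ‖g.1 i j - (NormedSpace.exp X₀) i j‖ :=
      ((continuous_subtype_val.matrix_elem i j).sub continuous_const).norm
    exact isOpen_lt hc continuous_const
  refine ⟨{g : SLC m | ∀ i j, ‖g.1 i j - (NormedSpace.exp X₀) i j‖ < ε}, hopen, ?_, ?_⟩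
  · intro N hN hfi
    have hcl := exp_mem_closure Γ X₀ (fun s => (hV X₀).1 (hTV hX₀) s) g₀ hg₀e N hN hfi
    rw [mem_closure_iff] at hcl
    obtain ⟨δ, hδ1, hδ2⟩ := hcl _ hopen (by
      intro i j
      rw [hg₀e, sub_self, norm_zero]
      exact hε)
    exact ⟨δ, hδ1, hδ2⟩
  · intro γ hγ hγV q y hd j
    obtain ⟨Y, -, Z, hZ, e⟩ := hnear γ (Γ.le_topologicalClosure hγ) hγV
    obtain ⟨C, hC⟩ := hb (X₀ + Z) (T.add_mem hX₀ hZ)
    exact norm_eig_of_bounded γ q y hd (X₀ + Z) Y e C hC j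

end WCn
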