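import Pool.Agent.Lib.MP_c2b80f_alE.UDefs

/-!
# Finitely many equations of a group (job DtA)
-/

open Matrix

namespace WCn

variable {m : ℕ} {G : Subgroup (SLC m)}

private theorem DtA_ev_zero (Y : Matrix (Fin m) (Fin m) ℂ) : evM Y 0 = 0 := by
  unfold evM
  rw [map_zero]

private theorem DtA_ev_add (Y : Matrix (Fin m) (Fin m) ℂ) (P Q : MvPolynomial (Fin m × Fin m) ℂ) :
    evM Y (P + Q) = evM Y P + evM Y Q := by
  unfold evM
  rw [map_add]

private theorem DtA_ev_mul (Y : Matrix (Fin m) (Fin m) ℂ) (P Q : MvPolynomial (Fin m × Fin m) ℂ) :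
    evM Y (P * Q) = evM Y P * evM Y Q := by
  unfold evM
  rw [map_mul]

private theorem DtA_d_zero (X : Matrix (Fin m) (Fin m) ℂ) : dP 0 X = 0 := by
  unfold dP
  refine Finset.sum_eq_zero fun ij _ => ?_
  rw [map_zero, DtA_ev_zero, zero_mul]

private theorem DtA_d_add (X : Matrix (Fin m) (Fin m) ℂ) (P Q : MvPolynomial (Fin m × Fin m) ℂ) :
    dP (P + Q) X = dP P X + dP Q X := by
  unfold dP
  rw [← Finset.sum_add_distrib]
  refine Finset.sum_congr rfl fun ij _ => ?_
  rw [map_add, DtA_ev_add, add_mul]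

private theorem DtA_d_mul (X : Matrix (Fin m) (Fin m) ℂ) (Q P : MvPolynomial (Fin m × Fin m) ℂ) :
    dP (Q * P) X = evM 1 Q * dP P X + evM 1 P * dP Q X := by
  unfold dP
  rw [Finset.mul_sum, Finset.mul_sum, ← Finset.sum_add_distrib]
  refine Finset.sum_congr rfl fun ij _ => ?_
  rw [Derivation.leibniz, smul_eq_mul, smul_eq_mul, DtA_ev_add, DtA_ev_mul, DtA_ev_mul]
  ring

/-- `MvPolynomial (Fin m × Fin m) ℂ` is a Noetherian ring. -/
theorem exists_gens (G : Subgroup (SLC m)) : ∃ (N : ℕ) (P : Fin N → MvPolynomial (Fin m × Fin m) ℂ), Ideal.span (Set.range P) = vanI G := by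
  have h1 : (vanI G).FG := IsNoetherian.noetherian (vanI G)
  exact Submodule.fg_iff_exists_fin_generating_family.1 h1

/-- `ZClosed`, and: if all `P i` vanish at `g` then all elements of the ideal do (`Submodule.span_induction`, or: the polynomials which vanish at `g` are an ideal). -/
theorem mem_iff_gens (hG : ZClosed G) {N : ℕ} {P : Fin N → MvPolynomial (Fin m × Fin m) ℂ} (hP : Ideal.span (Set.range P) = vanI G) (g : SLC m) :
    g ∈ G ↔ ∀ i, evM g.1 (P i) = 0 := by
  have hmem : ∀ i, P i ∈ vanI G := by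
    intro i
    rw [← hP]
    exact Ideal.subset_span ⟨i, rfl⟩
  constructor
  · intro hg i
    exact hmem i g hg
  · intro h
    refine hG g fun Q hQ => ?_
    rw [← hP] at hQ
    refine Submodule.span_induction (p := fun Q _ => evM g.1 Q = 0) ?_ ?_ ?_ ?_ hQ
    · rintro _ ⟨i, rfl⟩
      exact h i
    · exact DtA_ev_zero _
    · intro a b _ _ ha hb
      rw [DtA_ev_add, ha, hb, add_zero]
    · intro a b _ hb
      rw [smul_eq_mul, DtA_ev_mul, hb, mul_zero]

/-- `dP (Q * P) X = evM 1 Q * dP P X + evM 1 P * dP Q X`, and `evM 1 P = 0` for `P ∈ vanI G`. -/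
theorem tan_iff_gens {N : ℕ} {P : Fin N → MvPolynomial (Fin m × Fin m) ℂ} (hP : Ideal.span (Set.range P) = vanI G) (X : Matrix (Fin m) (Fin m) ℂ) :
    X ∈ tanG G ↔ ∀ i, dP (P i) X = 0 := by
  have hmem : ∀ i, P i ∈ vanI G := by
    intro i
    rw [← hP]
    exact Ideal.subset_span ⟨i, rfl⟩
  constructor
  · intro hX i
    exact hX (P i) (hmem i)
  · intro h Q hQ
    rw [← hP] at hQ
    refine (Submodule.span_induction (p := fun Q _ => evM 1 Q = 0 ∧ dP Q X = 0) ?_ ?_ ?_ ?_ hQ).2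
    · rintro _ ⟨i, rfl⟩
      exact ⟨hmem i 1 G.one_mem, h i⟩
    · exact ⟨DtA_ev_zero _, DtA_d_zero X⟩
    · intro a b _ _ ha hb
      exact ⟨by rw [DtA_ev_add, ha.1, hb.1, add_zero], by rw [DtA_d_add, ha.2, hb.2, add_zero]⟩
    · intro a b _ hb
      exact ⟨by rw [smul_eq_mul, DtA_ev_mul, hb.1, mul_zero], by
        rw [smul_eq_mul, DtA_d_mul, hb.1, hb.2, mul_zero, zero_mul, add_zero]⟩

end WCn
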