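import Pool.Agent.Lib.MP_c2b80f_alE.UDefs

/-!
# Projection to the Lie algebra (job DtB)
-/

open Matrix

namespace WCn

variable {m r : ℕ} {ι : Type} [Fintype ι] [DecidableEq ι] {G : Subgroup (SLC m)} {D : RD m r ι}

/-- The basis of the Lie algebra. -/
def RD.bC (D : RD m r ι) : Fin r ⊕ ι → Matrix (Fin m) (Fin m) ℂ
  | Sum.inl i => D.H (Pi.single i (1 : ℂ))
  | Sum.inr β => D.e β

omit [Fintype ι] [DecidableEq ι] in
private theorem DtB_H (D : RD m r ι) (t : Fin r → ℂ) : ∑ i, t i • D.H (Pi.single i (1 : ℂ)) = D.H t := by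
  ext a b
  rw [Matrix.sum_apply]
  unfold RD.H
  by_cases h : a = b
  · rw [h, Matrix.diagonal_apply_eq]
    refine Finset.sum_congr rfl fun i _ => ?_
    rw [Matrix.smul_apply, Matrix.diagonal_apply_eq, smul_eq_mul, Finset.sum_eq_single i, Pi.single_eq_same]
    · ring
    · intro l _ hl
      rw [Pi.single_eq_of_ne hl, mul_zero]
    · intro hc
      exact absurd (Finset.mem_univ i) hc
  · rw [Matrix.diagonal_apply_ne _ h]
    refine Finset.sum_eq_zero fun i _ => ?_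
    rw [Matrix.smul_apply, Matrix.diagonal_apply_ne _ h, smul_zero]

omit [DecidableEq ι] in
private theorem DtB_sum (D : RD m r ι) (a : Fin r ⊕ ι → ℂ) :
    ∑ κ, a κ • D.bC κ = D.H (fun i => a (Sum.inl i)) + ∑ β, a (Sum.inr β) • D.e β := by
  rw [Fintype.sum_sum_type, ← DtB_H]
  rfl

/-- From `IsRD.indep`: `∑ a (inl i) • H (Pi.single i 1) = H (fun i => a (inl i))`. -/
theorem bC_indep (hD : IsRD G D) : LinearIndependent ℂ D.bC := by
  rw [Fintype.linearIndependent_iff]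
  intro a ha
  rw [DtB_sum] at ha
  obtain ⟨h1, h2⟩ := hD.indep _ _ ha
  rintro (i | β)
  · exact congrFun h1 i
  · exact congrFun h2 β

theorem bC_span (hD : IsRD G D) (X : Matrix (Fin m) (Fin m) ℂ) : X ∈ tanG G ↔ ∃ a : Fin r ⊕ ι → ℂ, X = ∑ κ, a κ • D.bC κ := by
  rw [hD.mem_iff]
  constructor
  · rintro ⟨t, x, hx⟩
    refine ⟨Sum.elim t x, ?_⟩
    rw [DtB_sum]
    exact hx
  · rintro ⟨a, ha⟩
    rw [DtB_sum] at ha
    exact ⟨_, _, ha⟩

/-- Every linear functional on matrices is `X ↦ tr(z X)` (`z b a = l (Matrix.single a b 1)`). -/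
theorem functional_trace (l : Matrix (Fin m) (Fin m) ℂ →ₗ[ℂ] ℂ) : ∃ z : Matrix (Fin m) (Fin m) ℂ, ∀ X, l X = (z * X).trace := by
  refine ⟨Matrix.of fun b a => l (Matrix.single a b 1), fun X => ?_⟩
  have h1 : l X = ∑ a, ∑ b, X a b * l (Matrix.single a b 1) := by
    nth_rewrite 1 [Matrix.matrix_eq_sum_single X]
    rw [map_sum]
    refine Finset.sum_congr rfl fun a _ => ?_
    rw [map_sum]
    refine Finset.sum_congr rfl fun b _ => ?_
    have h2 : Matrix.single a b (X a b) = X a b • Matrix.single a b (1 : ℂ) := by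
      rw [Matrix.smul_single, smul_eq_mul, mul_one]
    rw [h2, map_smul, smul_eq_mul]
  rw [h1, Matrix.trace, Finset.sum_comm]
  refine Finset.sum_congr rfl fun b _ => ?_
  rw [Matrix.diag_apply, Matrix.mul_apply]
  refine Finset.sum_congr rfl fun a _ => ?_
  rw [Matrix.of_apply, mul_comm]

/-- Let `l κ` be linear functionals with `l κ (b κ') = δ` (extend the coordinates of the linearly independent family `bC`: `LinearIndependent` and `LinearMap.exists_extend`, or `exists_leftInverse_of_injective` for the map `(κ → ℂ) → Matrix`, `a ↦ ∑ a κ • bC κ`).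
The linear map `X ↦ X - ∑ l κ X • bC κ` vanishes on `span bC = tanG G`, which is the kernel of `Φ : X ↦ (dP (P i) X)_i`; so it factors through `Φ`: there is a linear `Λ : (Fin N → ℂ) → Matrix` with `Λ ∘ Φ` equal to it
(`LinearMap.exists_extend` on the range of `Φ`, or Mathlib `LinearMap.exists_eq_comp`-like; e.g. take a right inverse of `Φ` on its range). `K i = Λ (Pi.single i 1)`. -/
theorem exists_Kz (hD : IsRD G D) {N : ℕ} (P : Fin N → MvPolynomial (Fin m × Fin m) ℂ) (hP : ∀ X, X ∈ tanG G ↔ ∀ i, dP (P i) X = 0) :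
    ∃ (K : Fin N → Matrix (Fin m) (Fin m) ℂ) (z : Fin r ⊕ ι → Matrix (Fin m) (Fin m) ℂ),
      (∀ X : Matrix (Fin m) (Fin m) ℂ, X = ∑ κ, (z κ * X).trace • D.bC κ + ∑ i, dP (P i) X • K i) ∧
      ∀ κ κ', (z κ * D.bC κ').trace = if κ = κ' then 1 else 0 := by
  obtain ⟨L, hL⟩ : ∃ L : (Fin r ⊕ ι → ℂ) →ₗ[ℂ] Matrix (Fin m) (Fin m) ℂ, L = Fintype.linearCombination ℂ D.bC := ⟨_, rfl⟩
  have hLa : ∀ a, L a = ∑ κ, a κ • D.bC κ := by
    intro a
    rw [hL, Fintype.linearCombination_apply]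
  obtain ⟨π, hπ⟩ := LinearMap.exists_leftInverse_of_injective L (by
    rw [hL]
    exact LinearMap.ker_eq_bot_of_injective
      (linearIndependent_iff_injective_fintypeLinearCombination.1 (bC_indep hD)))
  have hπL : ∀ a, π (L a) = a := fun a => LinearMap.congr_fun hπ a
  obtain ⟨Φ, hΦ⟩ : ∃ Φ : Matrix (Fin m) (Fin m) ℂ →ₗ[ℂ] (Fin N → ℂ), ∀ X i, Φ X i = dP (P i) X := by
    refine ⟨LinearMap.pi fun i => { toFun := fun X => dP (P i) X, map_add' := ?_, map_smul' := ?_ }, fun X i => rfl⟩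
    · intro X Y
      unfold dP
      rw [← Finset.sum_add_distrib]
      refine Finset.sum_congr rfl fun ij _ => ?_
      rw [Matrix.add_apply, mul_add]
    · intro a X
      unfold dP
      rw [smul_eq_mul, RingHom.id_apply, Finset.mul_sum]
      refine Finset.sum_congr rfl fun ij _ => ?_
      rw [Matrix.smul_apply, smul_eq_mul]
      ring
  obtain ⟨Ψ, hΨ⟩ : ∃ Ψ : Matrix (Fin m) (Fin m) ℂ →ₗ[ℂ] Matrix (Fin m) (Fin m) ℂ, ∀ X, Ψ X = X - L (π X) :=
    ⟨LinearMap.id - L ∘ₗ π, fun X => rfl⟩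
  have hker : ∀ X, Φ X = 0 → Ψ X = 0 := by
    intro X hX
    have h1 : X ∈ tanG G := by
      rw [hP]
      intro i
      rw [← hΦ, hX]
      rfl
    obtain ⟨a, ha⟩ := (bC_span hD X).1 h1
    rw [← hLa] at ha
    rw [hΨ, ha, hπL, sub_self]
  obtain ⟨s, hs⟩ := LinearMap.exists_rightInverse_of_surjective Φ.rangeRestrict
    (LinearMap.range_eq_top.2 Φ.surjective_rangeRestrict)
  obtain ⟨Λ, hΛ⟩ := LinearMap.exists_extend (Ψ ∘ₗ s)
  have hΛΦ : ∀ X, Λ (Φ X) = Ψ X := by
    intro X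
    have h1 : Λ (Φ X) = (Ψ ∘ₗ s) (Φ.rangeRestrict X) := by
      rw [← hΛ]
      rfl
    have h2 : Φ (s (Φ.rangeRestrict X)) = Φ X := congrArg Subtype.val (LinearMap.congr_fun hs (Φ.rangeRestrict X))
    have h3 := hker (s (Φ.rangeRestrict X) - X) (by rw [map_sub, h2, sub_self])
    rw [map_sub, sub_eq_zero] at h3
    rw [h1, LinearMap.comp_apply, h3]
  have hΛs : ∀ v : Fin N → ℂ, Λ v = ∑ i, v i • Λ (Pi.single i 1) := by
    intro v
    have h1 := LinearMap.pi_apply_eq_sum_univ Λ v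
    rw [h1]
    refine Finset.sum_congr rfl fun i _ => ?_
    congr 2
    funext j
    rw [Pi.single_apply]
    by_cases h : i = j
    · rw [if_pos h, if_pos h.symm]
    · rw [if_neg h, if_neg (fun h' => h h'.symm)]
  have hz := fun κ : Fin r ⊕ ι => functional_trace ((LinearMap.proj κ : (Fin r ⊕ ι → ℂ) →ₗ[ℂ] ℂ) ∘ₗ π)
  choose z hz using hz
  have hz' : ∀ κ X, (z κ * X).trace = π X κ := fun κ X => (hz κ X).symm
  refine ⟨fun i => Λ (Pi.single i 1), z, ?_, ?_⟩
  · intro X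
    have h1 : ∑ i, dP (P i) X • Λ (Pi.single i 1) = Ψ X := by
      rw [← hΛΦ, hΛs (Φ X)]
      exact Finset.sum_congr rfl fun i _ => by rw [hΦ]
    rw [h1, hΨ, hLa, Finset.sum_congr rfl fun κ _ => by rw [hz' κ X]]
    abel
  · intro κ κ'
    rw [hz']
    have h1 : D.bC κ' = L (Pi.single κ' 1) := by
      rw [hL, Fintype.linearCombination_apply_single, one_smul]
    rw [h1, hπL, Pi.single_apply]

end WCn
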