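import Pool.Agent.Lib.MP_c2b80f_alE.KwD

/-!
# Root groups as matrices of polynomials (job DtC)
-/

open Matrix

namespace WCn

variable {m r : ℕ} {ι : Type} [Fintype ι] [DecidableEq ι] {G : Subgroup (SLC m)} {D : RD m r ι}

/-- The root group, a matrix of polynomials. -/
noncomputable def RD.xP (D : RD m r ι) (β : ι) : Matrix (Fin m) (Fin m) (Polynomial ℂ) := Eb (D.e β) Polynomial.X

omit [Fintype ι] [DecidableEq ι] in
private theorem DtC_coeff (D : RD m r ι) (β : ι) (a b : Fin m) (k : ℕ) :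
    (D.xP β a b).coeff k = if k < m then ((k.factorial : ℂ))⁻¹ * (D.e β ^ k) a b else 0 := by
  unfold RD.xP Eb
  rw [Matrix.sum_apply, Polynomial.finset_sum_coeff]
  have h1 : ∀ n ∈ Finset.range m, (((algebraMap ℂ (Polynomial ℂ) ((n.factorial : ℂ)⁻¹) * Polynomial.X ^ n) •
      (D.e β ^ n).map (algebraMap ℂ (Polynomial ℂ))) a b).coeff k =
      if k = n then ((n.factorial : ℂ))⁻¹ * (D.e β ^ n) a b else 0 := by
    intro n _
    rw [Matrix.smul_apply, Matrix.map_apply, smul_eq_mul, Polynomial.algebraMap_eq, Polynomial.coeff_mul_C,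
      Polynomial.coeff_C_mul_X_pow]
    by_cases h : k = n
    · rw [if_pos h, if_pos h]
    · rw [if_neg h, if_neg h, zero_mul]
  rw [Finset.sum_congr rfl h1, Finset.sum_ite_eq]
  simp only [Finset.mem_range]

theorem xP_eval (D : RD m r ι) (β : ι) (c : ℂ) : (D.xP β).map (Polynomial.eval c) = Eb (D.e β) c := by
  ext a b
  unfold RD.xP Eb
  rw [Matrix.map_apply, Matrix.sum_apply, Matrix.sum_apply, Polynomial.eval_finset_sum]
  refine Finset.sum_congr rfl fun n _ => ?_
  rw [Matrix.smul_apply, Matrix.smul_apply, Matrix.map_apply, Matrix.map_apply, smul_eq_mul, smul_eq_mul,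
    Polynomial.algebraMap_eq, Polynomial.eval_mul, Polynomial.eval_mul, Polynomial.eval_C, Polynomial.eval_pow,
    Polynomial.eval_X, Polynomial.eval_C]
  rfl

/-- For `m = 0` trivial. -/
theorem xP_zero (D : RD m r ι) (β : ι) (a b : Fin m) : (D.xP β a b).coeff 0 = (1 : Matrix (Fin m) (Fin m) ℂ) a b := by
  have hm : 0 < m := Fin.pos a
  rw [DtC_coeff, if_pos hm, Nat.factorial_zero, Nat.cast_one, inv_one, one_mul, pow_zero]

/-- For `m = 1`, `e β = 0` (`IsRD.supp`, `root_ne`). -/
theorem xP_one (hD : IsRD G D) (β : ι) (a b : Fin m) : (D.xP β a b).coeff 1 = D.e β a b := by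
  rw [DtC_coeff]
  by_cases h1 : 1 < m
  · rw [if_pos h1, Nat.factorial_one, Nat.cast_one, inv_one, one_mul, pow_one]
  · rw [if_neg h1]
    by_contra h2
    have h3 : a = b := by
      have h4 := a.isLt
      have h5 := b.isLt
      exact Fin.ext (by omega)
    apply hD.root_ne β
    funext i
    rw [← hD.supp β a b (fun h => h2 h.symm) i, h3, sub_self, Pi.zero_apply]

end WCn
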