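import Pool.Agent.Lib.MP_c2b80f_alE.KwDefs

/-!
# The grading of the Lie algebra (job KwB)

`h = D.hq c`, where `c` satisfies `D.HtC c`. Every element of the Lie algebra is `X = H t + ∑ x β e β` (`IsRD.mem_iff`); `H t` has degree `0`, `e β` has degree `ht β ≠ 0` (`IsRD.supp`, `HtC`), so the component of
degree `k` of `X` is the sum of the terms of degree `k`, an element of the Lie algebra. Keep this file independent of `KwA` (all lemmas needed are entrywise and short; private copies are fine).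
-/

open Matrix

namespace WCn

variable {m r : ℕ} {ι : Type} [Fintype ι] [DecidableEq ι] {G : Subgroup (SLC m)} {D : RD m r ι} {c : Fin r → ℚ}

omit [Fintype ι] [DecidableEq ι] in
private theorem KwB_H_add (D : RD m r ι) (t t' : Fin r → ℂ) : D.H (t + t') = D.H t + D.H t' := by
  unfold RD.H
  rw [Matrix.diagonal_add]
  congr 1
  funext j
  rw [← Finset.sum_add_distrib]
  refine Finset.sum_congr rfl fun i _ => ?_
  rw [Pi.add_apply, mul_add]

omit [Fintype ι] [DecidableEq ι] in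
private theorem KwB_H_smul (D : RD m r ι) (a : ℂ) (t : Fin r → ℂ) : D.H (a • t) = a • D.H t := by
  unfold RD.H
  rw [← Matrix.diagonal_smul]
  congr 1
  funext j
  rw [Pi.smul_apply, smul_eq_mul, Finset.mul_sum]
  refine Finset.sum_congr rfl fun i _ => ?_
  rw [Pi.smul_apply, smul_eq_mul]
  ring

omit [Fintype ι] [DecidableEq ι] in
private theorem KwB_H_zero (D : RD m r ι) : D.H (0 : Fin r → ℂ) = 0 := by
  have h1 := KwB_H_smul D 0 0
  rw [zero_smul, zero_smul] at h1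
  exact h1

private theorem KwB_cmp_hg {h : Fin m → ℚ} {k : ℚ} {X : Matrix (Fin m) (Fin m) ℂ} (hX : X ∈ Hg h k) : cmp h k X = X := by
  ext a b
  have h0 : cmp h k X a b = if h a - h b = k then X a b else 0 := rfl
  rw [h0]
  by_cases h1 : h a - h b = k
  · rw [if_pos h1]
  · rw [if_neg h1, hX a b h1]

private theorem KwB_cmp_ne {h : Fin m → ℚ} {d k : ℚ} {X : Matrix (Fin m) (Fin m) ℂ} (hX : X ∈ Hg h d) (hk : k ≠ d) :
    cmp h k X = 0 := by
  ext a b
  have h0 : cmp h k X a b = if h a - h b = k then X a b else 0 := rfl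
  rw [h0]
  by_cases h1 : h a - h b = k
  · rw [if_pos h1, hX a b (by rw [h1]; exact hk)]
    rfl
  · rw [if_neg h1]
    rfl

theorem e_mem (hD : IsRD G D) (β : ι) : D.e β ∈ tanG G := by
  refine (hD.mem_iff _).2 ⟨0, Pi.single β 1, ?_⟩
  rw [KwB_H_zero, zero_add, Finset.sum_eq_single β]
  · rw [Pi.single_eq_same, one_smul]
  · intro γ _ hγ
    rw [Pi.single_eq_of_ne hγ, zero_smul]
  · intro hc
    exact absurd (Finset.mem_univ β) hc

theorem H_mem (hD : IsRD G D) (t : Fin r → ℂ) : D.H t ∈ tanG G := by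
  refine (hD.mem_iff _).2 ⟨t, 0, ?_⟩
  rw [Finset.sum_eq_zero, add_zero]
  intro β _
  rw [Pi.zero_apply, zero_smul]

theorem eS_mem (hD : IsRD G D) : D.eS ∈ tanG G := by
  exact Submodule.sum_mem _ fun i _ => e_mem hD _

theorem e_hg (hD : IsRD G D) (hc : D.HtC c) (β : ι) : D.e β ∈ Hg (D.hq c) (D.ht β) := by
  intro a b hab
  by_contra h1
  apply hab
  have h2 := hD.supp β a b h1
  rw [hc β]
  unfold RD.hq
  rw [← Finset.sum_sub_distrib]
  refine Finset.sum_congr rfl fun i _ => ?_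
  rw [← h2 i, Int.cast_sub]
  ring

theorem H_hg (D : RD m r ι) (c : Fin r → ℚ) (t : Fin r → ℂ) : D.H t ∈ Hg (D.hq c) 0 := by
  intro a b hab
  refine Matrix.diagonal_apply_ne _ ?_
  rintro rfl
  exact hab (sub_self _)

theorem eS_hg (hD : IsRD G D) (hc : D.HtC c) : D.eS ∈ Hg (D.hq c) 1 := by
  refine Submodule.sum_mem _ fun i _ => ?_
  have h1 := e_hg hD hc (D.simple i)
  rw [hD.ht_simple i, Int.cast_one] at h1
  exact h1

/-- `[H t, e β] = β(t) e β`: the entry `a b` of the left side is `∑ i, (wt a i - wt b i) t i` times the entry of `e β`. -/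
theorem H_comm (hD : IsRD G D) (t : Fin r → ℂ) (β : ι) : D.H t * D.e β - D.e β * D.H t = D.rt β t • D.e β := by
  ext a b
  rw [Matrix.sub_apply, Matrix.smul_apply, smul_eq_mul]
  unfold RD.H
  rw [Matrix.diagonal_mul, Matrix.mul_diagonal]
  by_cases h1 : D.e β a b = 0
  · rw [h1]
    ring
  · have h2 := hD.supp β a b h1
    have h3 : D.rt β t = ∑ i, (D.wt a i : ℂ) * t i - ∑ i, (D.wt b i : ℂ) * t i := by
      unfold RD.rt
      rw [← Finset.sum_sub_distrib]
      refine Finset.sum_congr rfl fun i _ => ?_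
      rw [← h2 i, Int.cast_sub]
      ring
    rw [h3]
    ring

theorem tan_cmp (hD : IsRD G D) (hc : D.HtC c) {X : Matrix (Fin m) (Fin m) ℂ} (hX : X ∈ tanG G) (k : ℚ) : cmp (D.hq c) k X ∈ tanG G := by
  obtain ⟨t, x, hx⟩ := (hD.mem_iff X).1 hX
  rw [hx, map_add, map_sum]
  refine Submodule.add_mem _ ?_ (Submodule.sum_mem _ fun β _ => ?_)
  · by_cases h1 : k = 0
    · rw [KwB_cmp_hg (by rw [h1]; exact H_hg D c t)]
      exact H_mem hD t
    · rw [KwB_cmp_ne (H_hg D c t) h1]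
      exact Submodule.zero_mem _
  · rw [map_smul]
    refine Submodule.smul_mem _ _ ?_
    by_cases h1 : k = D.ht β
    · rw [KwB_cmp_hg (by rw [h1]; exact e_hg hD hc β)]
      exact e_mem hD β
    · rw [KwB_cmp_ne (e_hg hD hc β) h1]
      exact Submodule.zero_mem _

/-- The degrees in the Lie algebra are integers. -/
theorem tan_cmp_int (hD : IsRD G D) (hc : D.HtC c) {X : Matrix (Fin m) (Fin m) ℂ} (hX : X ∈ tanG G) {k : ℚ} (hk : cmp (D.hq c) k X ≠ 0) :
    ∃ j : ℤ, k = j := by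
  by_contra hno
  push Not at hno
  apply hk
  obtain ⟨t, x, hx⟩ := (hD.mem_iff X).1 hX
  rw [hx, map_add, map_sum, KwB_cmp_ne (H_hg D c t) (by
    have h1 := hno 0
    rw [Int.cast_zero] at h1
    exact h1), zero_add]
  refine Finset.sum_eq_zero fun β _ => ?_
  rw [map_smul, KwB_cmp_ne (e_hg hD hc β) (hno _), smul_zero]

/-- Elements of degree `j ≠ 0`. (Apply `cmp j` to `X = H t + ∑ x β e β`.) -/
theorem tan_hg (hD : IsRD G D) (hc : D.HtC c) {X : Matrix (Fin m) (Fin m) ℂ} (hX : X ∈ tanG G) {j : ℤ} (hj : j ≠ 0) (hXj : X ∈ Hg (D.hq c) j) :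
    ∃ x : ι → ℂ, (∀ β, D.ht β ≠ j → x β = 0) ∧ X = ∑ β, x β • D.e β := by
  obtain ⟨t, x, hx⟩ := (hD.mem_iff X).1 hX
  refine ⟨fun β => if D.ht β = j then x β else 0, fun β hβ => if_neg hβ, ?_⟩
  have h1 : cmp (D.hq c) j X = X := KwB_cmp_hg hXj
  have h2 : ((j : ℤ) : ℚ) ≠ 0 := Int.cast_ne_zero.2 hj
  rw [← h1]
  nth_rewrite 1 [hx]
  rw [map_add, map_sum, KwB_cmp_ne (H_hg D c t) h2, zero_add]
  refine Finset.sum_congr rfl fun β _ => ?_
  rw [map_smul]
  show x β • (cmp (D.hq c) ((j : ℤ) : ℚ)) (D.e β) = (if D.ht β = j then x β else 0) • D.e β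
  by_cases h3 : D.ht β = j
  · rw [if_pos h3, KwB_cmp_hg (by
      have h4 := e_hg hD hc β
      rw [h3] at h4
      exact h4)]
  · rw [if_neg h3, KwB_cmp_ne (e_hg hD hc β) (fun h4 => h3 (Int.cast_injective h4).symm), smul_zero, zero_smul]

/-- The components of degree different from `0` and `1` of two elements: independence of the `e β` (`IsRD.indep` with `t = 0`). -/
theorem e_indep (hD : IsRD G D) {x y : ι → ℂ} (hxy : ∑ β, x β • D.e β = ∑ β, y β • D.e β) : x = y := by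
  have h1 : D.H (0 : Fin r → ℂ) + ∑ β, (x - y) β • D.e β = 0 := by
    rw [KwB_H_zero, zero_add]
    simp only [Pi.sub_apply, sub_smul, Finset.sum_sub_distrib]
    rw [hxy, sub_self]
  exact sub_eq_zero.1 (hD.indep _ _ h1).2

/-- The multiplicity form of the decomposition: linear coordinates on the Lie algebra. (`IsRD.mem_iff` and `IsRD.indep` say that `(t, x) ↦ H t + ∑ x β e β` is an injective linear map with range `tanG G`; take a linear left inverse,
`LinearMap.exists_leftInverse_of_injective`.) -/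
theorem exists_coordE (hD : IsRD G D) : ∃ (τ : Fin r → (Matrix (Fin m) (Fin m) ℂ →ₗ[ℂ] ℂ)) (x : ι → (Matrix (Fin m) (Fin m) ℂ →ₗ[ℂ] ℂ)),
    (∀ X ∈ tanG G, X = D.H (fun i => τ i X) + ∑ β, x β X • D.e β) ∧
    (∀ (t : Fin r → ℂ) (y : ι → ℂ), (∀ i, τ i (D.H t + ∑ β, y β • D.e β) = t i) ∧ ∀ β, x β (D.H t + ∑ β, y β • D.e β) = y β) := by
  obtain ⟨L, hL⟩ : ∃ L : ((Fin r → ℂ) × (ι → ℂ)) →ₗ[ℂ] Matrix (Fin m) (Fin m) ℂ,
      ∀ (t : Fin r → ℂ) (y : ι → ℂ), L (t, y) = D.H t + ∑ β, y β • D.e β :=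
    ⟨{ toFun := fun p => D.H p.1 + ∑ β, p.2 β • D.e β
       map_add' := by
         intro p q
         rw [Prod.fst_add, Prod.snd_add, KwB_H_add]
         simp only [Pi.add_apply, add_smul, Finset.sum_add_distrib]
         abel
       map_smul' := by
         intro a p
         rw [Prod.smul_fst, Prod.smul_snd, KwB_H_smul, RingHom.id_apply, smul_add, Finset.smul_sum]
         congr 1
         refine Finset.sum_congr rfl fun β _ => ?_
         rw [Pi.smul_apply, smul_eq_mul, mul_smul] }, fun t y => rfl⟩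
  obtain ⟨π, hπ⟩ := LinearMap.exists_leftInverse_of_injective L (by
    rw [LinearMap.ker_eq_bot']
    intro p hp
    have h1 : L (p.1, p.2) = 0 := hp
    rw [hL] at h1
    have h2 := hD.indep _ _ h1
    exact Prod.ext h2.1 h2.2)
  have hπ1 : ∀ (t : Fin r → ℂ) (y : ι → ℂ), π (D.H t + ∑ β, y β • D.e β) = (t, y) := by
    intro t y
    rw [← hL]
    exact LinearMap.congr_fun hπ (t, y)
  refine ⟨fun i => (LinearMap.proj i ∘ₗ LinearMap.fst ℂ (Fin r → ℂ) (ι → ℂ)) ∘ₗ π,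
    fun β => (LinearMap.proj β ∘ₗ LinearMap.snd ℂ (Fin r → ℂ) (ι → ℂ)) ∘ₗ π, ?_, ?_⟩
  · intro X hX
    obtain ⟨t, x, hx⟩ := (hD.mem_iff X).1 hX
    have h1 : π X = (t, x) := by
      rw [hx]
      exact hπ1 t x
    have h2 : (fun i => ((LinearMap.proj i ∘ₗ LinearMap.fst ℂ (Fin r → ℂ) (ι → ℂ)) ∘ₗ π) X) = t := by
      funext i
      have h3 : ((LinearMap.proj i ∘ₗ LinearMap.fst ℂ (Fin r → ℂ) (ι → ℂ)) ∘ₗ π) X = (π X).1 i := rfl
      rw [h3, h1]
    have h4 : ∀ β, ((LinearMap.proj β ∘ₗ LinearMap.snd ℂ (Fin r → ℂ) (ι → ℂ)) ∘ₗ π) X = x β := by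
      intro β
      have h3 : ((LinearMap.proj β ∘ₗ LinearMap.snd ℂ (Fin r → ℂ) (ι → ℂ)) ∘ₗ π) X = (π X).2 β := rfl
      rw [h3, h1]
    rw [h2, Finset.sum_congr rfl fun β _ => by rw [h4 β]]
    exact hx
  · intro t y
    constructor
    · intro i
      have h3 : ((LinearMap.proj i ∘ₗ LinearMap.fst ℂ (Fin r → ℂ) (ι → ℂ)) ∘ₗ π) (D.H t + ∑ β, y β • D.e β) =
        (π (D.H t + ∑ β, y β • D.e β)).1 i := rfl
      rw [h3, hπ1]
    · intro β
      have h3 : ((LinearMap.proj β ∘ₗ LinearMap.snd ℂ (Fin r → ℂ) (ι → ℂ)) ∘ₗ π) (D.H t + ∑ β, y β • D.e β) =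
        (π (D.H t + ∑ β, y β • D.e β)).2 β := rfl
      rw [h3, hπ1]

end WCn
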