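import Pool.Agent.Lib.MP_c2b80f_alE.KwA
import Pool.Agent.Lib.MP_c2b80f_alE.KwB

/-!
# The leading term of a unipotent element (job KwI)
-/

open Matrix

namespace WCn

variable {m r : ℕ} {ι : Type} [Fintype ι] [DecidableEq ι] {G : Subgroup (SLC m)} {D : RD m r ι} {c : Fin r → ℚ}

private theorem KwI_eps {ε : ℕ → ℝ} (hε0 : Filter.Tendsto ε Filter.atTop (nhds 0)) :
    Filter.Tendsto (fun n => (ε n : ℂ)) Filter.atTop (nhds 0) := by
  have h1 : Filter.Tendsto (fun n => (ε n : ℂ)) Filter.atTop (nhds ((0 : ℝ) : ℂ)) :=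
    (Complex.continuous_ofReal.tendsto 0).comp hε0
  rwa [Complex.ofReal_zero] at h1

private theorem KwI_dP_mul_X (P : MvPolynomial (Fin m × Fin m) ℂ) (i : Fin m × Fin m) (Y : Matrix (Fin m) (Fin m) ℂ) :
    dP (P * MvPolynomial.X i) Y = dP P Y * (1 : Matrix (Fin m) (Fin m) ℂ) i.1 i.2 + evM 1 P * Y i.1 i.2 := by
  unfold dP evM
  have h1 : ∀ ij : Fin m × Fin m, MvPolynomial.eval (fun ij : Fin m × Fin m => (1 : Matrix (Fin m) (Fin m) ℂ) ij.1 ij.2)
      (MvPolynomial.pderiv ij (P * MvPolynomial.X i)) * Y ij.1 ij.2 =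
      (MvPolynomial.eval (fun ij : Fin m × Fin m => (1 : Matrix (Fin m) (Fin m) ℂ) ij.1 ij.2)
        (MvPolynomial.pderiv ij P) * Y ij.1 ij.2) * (1 : Matrix (Fin m) (Fin m) ℂ) i.1 i.2 +
      (if ij = i then MvPolynomial.eval (fun ij : Fin m × Fin m => (1 : Matrix (Fin m) (Fin m) ℂ) ij.1 ij.2) P *
        Y ij.1 ij.2 else 0) := by
    intro ij
    rw [MvPolynomial.pderiv_mul, map_add, map_mul, map_mul, MvPolynomial.eval_X, MvPolynomial.pderiv_X]
    by_cases hij : ij = i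
    · subst hij
      rw [Pi.single_eq_same, map_one, if_pos rfl]
      ring
    · rw [Pi.single_eq_of_ne (Ne.symm hij), map_zero, if_neg hij]
      ring
  rw [Finset.sum_congr rfl fun ij _ => h1 ij, Finset.sum_add_distrib, ← Finset.sum_mul, Finset.sum_ite_eq',
    if_pos (Finset.mem_univ _)]

private theorem KwI_quot (ε : ℕ → ℝ) (hε : ∀ n, 0 < ε n) (hε0 : Filter.Tendsto ε Filter.atTop (nhds 0))
    (Z : ℕ → Matrix (Fin m) (Fin m) ℂ) (Y : Matrix (Fin m) (Fin m) ℂ)
    (hZ : ∀ a b, Filter.Tendsto (fun n => Z n a b) Filter.atTop (nhds (Y a b))) (P : MvPolynomial (Fin m × Fin m) ℂ) :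
    Filter.Tendsto (fun n => (ε n : ℂ)⁻¹ * (evM (1 + (ε n : ℂ) • Z n) P - evM 1 P)) Filter.atTop (nhds (dP P Y)) := by
  induction P using MvPolynomial.induction_on with
  | C a =>
    have h1 : (fun n => (ε n : ℂ)⁻¹ * (evM (1 + (ε n : ℂ) • Z n) (MvPolynomial.C a) -
        evM (m := m) 1 (MvPolynomial.C a))) = fun _ => 0 := by
      funext n
      unfold evM
      rw [MvPolynomial.eval_C, MvPolynomial.eval_C, sub_self, mul_zero]
    have h2 : dP (MvPolynomial.C a : MvPolynomial (Fin m × Fin m) ℂ) Y = 0 := by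
      unfold dP
      refine Finset.sum_eq_zero fun ij _ => ?_
      rw [MvPolynomial.pderiv_C]
      unfold evM
      rw [map_zero, zero_mul]
    rw [h1, h2]
    exact tendsto_const_nhds
  | add P Q hP hQ =>
    have h1 : (fun n => (ε n : ℂ)⁻¹ * (evM (1 + (ε n : ℂ) • Z n) (P + Q) - evM 1 (P + Q))) =
        fun n => (ε n : ℂ)⁻¹ * (evM (1 + (ε n : ℂ) • Z n) P - evM 1 P) +
          (ε n : ℂ)⁻¹ * (evM (1 + (ε n : ℂ) • Z n) Q - evM 1 Q) := by
      funext n
      unfold evM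
      rw [map_add, map_add]
      ring
    have h2 : dP (P + Q) Y = dP P Y + dP Q Y := by
      unfold dP evM
      rw [← Finset.sum_add_distrib]
      refine Finset.sum_congr rfl fun ij _ => ?_
      rw [map_add, map_add, add_mul]
    rw [h1, h2]
    exact hP.add hQ
  | mul_X P i hP =>
    have h1 : (fun n => (ε n : ℂ)⁻¹ * (evM (1 + (ε n : ℂ) • Z n) (P * MvPolynomial.X i) - evM 1 (P * MvPolynomial.X i))) =
        fun n => (ε n : ℂ)⁻¹ * (evM (1 + (ε n : ℂ) • Z n) P - evM 1 P) *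
          ((1 : Matrix (Fin m) (Fin m) ℂ) i.1 i.2 + (ε n : ℂ) * Z n i.1 i.2) + evM 1 P * Z n i.1 i.2 := by
      funext n
      have h4 : (ε n : ℂ) ≠ 0 := by
        have := (hε n).ne'
        exact_mod_cast this
      unfold evM
      rw [map_mul, map_mul, MvPolynomial.eval_X, MvPolynomial.eval_X, Matrix.add_apply, Matrix.smul_apply, smul_eq_mul]
      field_simp
      ring
    rw [h1, KwI_dP_mul_X]
    have h2 : Filter.Tendsto (fun n => (1 : Matrix (Fin m) (Fin m) ℂ) i.1 i.2 + (ε n : ℂ) * Z n i.1 i.2) Filter.atTop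
        (nhds ((1 : Matrix (Fin m) (Fin m) ℂ) i.1 i.2 + 0 * Y i.1 i.2)) :=
      tendsto_const_nhds.add ((KwI_eps hε0).mul (hZ i.1 i.2))
    rw [zero_mul, add_zero] at h2
    exact (hP.mul h2).add (tendsto_const_nhds.mul (hZ i.1 i.2))

/-- If `P (1 + ε Z_ε) = 0` for `ε` tending to `0` and `Z_ε` tends to `Y`, then `dP P Y = 0`. Stated for sequences. (`X ↦ evM X P` has the derivative `dP P` at `1`, by induction on `P` or from Taylor's formula for `MvPolynomial`; little-o.) -/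
theorem dP_of_limit (P : MvPolynomial (Fin m × Fin m) ℂ) (ε : ℕ → ℝ) (hε : ∀ n, 0 < ε n) (hε0 : Filter.Tendsto ε Filter.atTop (nhds 0))
    (Z : ℕ → Matrix (Fin m) (Fin m) ℂ) (Y : Matrix (Fin m) (Fin m) ℂ) (hZ : ∀ a b, Filter.Tendsto (fun n => Z n a b) Filter.atTop (nhds (Y a b)))
    (h0 : ∀ n, evM (1 + (ε n : ℂ) • Z n) P = 0) : dP P Y = 0 := by
  have hT := KwI_quot ε hε hε0 Z Y hZ P
  have h1 : evM 1 P = 0 := by
    have h2 : Filter.Tendsto (fun n => (ε n : ℂ) * ((ε n : ℂ)⁻¹ * (evM (1 + (ε n : ℂ) • Z n) P - evM 1 P)))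
        Filter.atTop (nhds (0 * dP P Y)) := (KwI_eps hε0).mul hT
    have h3 : (fun n => (ε n : ℂ) * ((ε n : ℂ)⁻¹ * (evM (1 + (ε n : ℂ) • Z n) P - evM 1 P))) = fun _ => - evM 1 P := by
      funext n
      have h4 : (ε n : ℂ) ≠ 0 := by
        have := (hε n).ne'
        exact_mod_cast this
      rw [h0 n, zero_sub, ← mul_assoc, mul_inv_cancel₀ h4, one_mul]
    rw [h3, zero_mul] at h2
    have h5 := tendsto_nhds_unique tendsto_const_nhds h2
    exact neg_eq_zero.1 h5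
  have h3 : (fun n => (ε n : ℂ)⁻¹ * (evM (1 + (ε n : ℂ) • Z n) P - evM 1 P)) = fun _ => 0 := by
    funext n
    rw [h0 n, h1, sub_zero, mul_zero]
  rw [h3] at hT
  exact (tendsto_nhds_unique tendsto_const_nhds hT).symm

/-- The diagonal matrix with entries `exp (s * hq c a)`, `s` real, is in `G`: it is `exp (s H(c))` (`tanG_exp`, `H_mem`; `Matrix.exp_diagonal`). -/
theorem diag_mem (hG : ZClosed G) (hD : IsRD G D) (c : Fin r → ℚ) (s : ℝ) :
    ∃ g ∈ G, g.1 = Matrix.diagonal (fun a => ((Real.exp (s * (D.hq c a : ℝ)) : ℝ) : ℂ)) ∧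
      (g⁻¹).1 = Matrix.diagonal (fun a => ((Real.exp (-(s * (D.hq c a : ℝ))) : ℝ) : ℂ)) := by
  obtain ⟨g, hg, h1⟩ := tanG_exp hG (H_mem hD (fun i => (c i : ℂ))) (s : ℂ)
  have h2 : g.1 = Matrix.diagonal (fun a => ((Real.exp (s * (D.hq c a : ℝ)) : ℝ) : ℂ)) := by
    rw [h1]
    have h3 : (s : ℂ) • (D.H (fun i => (c i : ℂ)) : Matrix (Fin m) (Fin m) ℂ) =
        Matrix.diagonal fun a => (((s * (D.hq c a : ℝ)) : ℝ) : ℂ) := by
      unfold RD.H RD.hq
      rw [← Matrix.diagonal_smul]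
      congr 1
      funext a
      rw [Pi.smul_apply, smul_eq_mul]
      push_cast
      rfl
    rw [h3, Matrix.exp_diagonal]
    congr 1
    funext a
    rw [Pi.coe_exp, ← Complex.exp_eq_exp_ℂ, Complex.ofReal_exp]
  refine ⟨g, hg, h2, ?_⟩
  have h4 : g.1 * Matrix.diagonal (fun a => ((Real.exp (-(s * (D.hq c a : ℝ))) : ℝ) : ℂ)) = 1 := by
    rw [h2, Matrix.diagonal_mul_diagonal, ← Matrix.diagonal_one]
    congr 1
    funext a
    rw [← Complex.ofReal_mul, ← Real.exp_add, add_neg_cancel, Real.exp_zero, Complex.ofReal_one]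
  have h5 : (g⁻¹).1 * g.1 = 1 := by
    have h6 : ((g⁻¹ * g : SLC m)).1 = (1 : SLC m).1 := by rw [inv_mul_cancel]
    exact h6
  calc (g⁻¹).1 = (g⁻¹).1 * (g.1 * Matrix.diagonal (fun a => ((Real.exp (-(s * (D.hq c a : ℝ))) : ℝ) : ℂ))) := by
        rw [h4, mul_one]
    _ = _ := by rw [← mul_assoc, h5, one_mul]

/-- The leading component of a unipotent element of `G` is in the Lie algebra. Let `h = D.hq c`, `ν = g.1 - 1`. Conjugating by `diag_mem` with `s = n` (natural numbers): the entry `a b` of `g_n g g_n⁻¹ - 1` is `exp (n (h a - h b)) ν a b`. With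
`ε n = exp (-(n k))` it is `ε n * Z n a b`, `Z n a b = exp (n (h a - h b + k)) ν a b`, which is `ν a b` if `h a - h b = -k`, `0` if `h a - h b > -k`, and tends to `0` if `h a - h b < -k`. So `Z n` tends to `cmp h (-k) ν`. -/
theorem lead_tan (hG : ZClosed G) (hD : IsRD G D) {g : SLC m} (hg : g ∈ G) {k : ℚ} (hk : 0 < k)
    (hlow : g.1 - 1 ∈ Low (D.hq c) (-k)) : cmp (D.hq c) (-k) (g.1 - 1) ∈ tanG G := by
  have hk' : (0 : ℝ) < (k : ℝ) := by exact_mod_cast hk
  intro P hP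
  refine dP_of_limit P (fun n => Real.exp (-((n : ℝ) * k))) (fun n => Real.exp_pos _) ?_
    (fun n => Matrix.of fun a b => ((Real.exp ((n : ℝ) * ((D.hq c a : ℝ) - D.hq c b + k)) : ℝ) : ℂ) * (g.1 - 1) a b) _ ?_ ?_
  · refine Real.tendsto_exp_neg_atTop_nhds_zero.comp ?_
    exact Filter.Tendsto.atTop_mul_const hk' tendsto_natCast_atTop_atTop
  · intro a b
    show Filter.Tendsto (fun n : ℕ => ((Real.exp ((n : ℝ) * ((D.hq c a : ℝ) - D.hq c b + k)) : ℝ) : ℂ) * (g.1 - 1) a b)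
      Filter.atTop (nhds (if D.hq c a - D.hq c b = -k then (g.1 - 1) a b else 0))
    rcases lt_trichotomy (D.hq c a - D.hq c b) (-k) with h | h | h
    · rw [if_neg h.ne]
      have h1 : (D.hq c a : ℝ) - D.hq c b + k < 0 := by
        have h2 : ((D.hq c a - D.hq c b : ℚ) : ℝ) < ((-k : ℚ) : ℝ) := by exact_mod_cast h
        push_cast at h2
        linarith
      have h2 : Filter.Tendsto (fun n : ℕ => Real.exp ((n : ℝ) * ((D.hq c a : ℝ) - D.hq c b + k))) Filter.atTop (nhds 0) :=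
        Real.tendsto_exp_atBot.comp (Filter.Tendsto.atTop_mul_const_of_neg h1 tendsto_natCast_atTop_atTop)
      have h3 := (KwI_eps h2).mul (tendsto_const_nhds (x := (g.1 - 1) a b))
      rwa [zero_mul] at h3
    · rw [if_pos h]
      have h1 : (D.hq c a : ℝ) - D.hq c b + k = 0 := by
        have h2 : ((D.hq c a - D.hq c b : ℚ) : ℝ) = ((-k : ℚ) : ℝ) := by rw [h]
        push_cast at h2
        linarith
      simp only [h1, mul_zero, Real.exp_zero, Complex.ofReal_one, one_mul]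
      exact tendsto_const_nhds
    · rw [if_neg h.ne', hlow a b h]
      simp only [mul_zero]
      exact tendsto_const_nhds
  · intro n
    obtain ⟨gn, hgn, e1, e2⟩ := diag_mem hG hD c (n : ℝ)
    have h1 : gn * g * gn⁻¹ ∈ G := G.mul_mem (G.mul_mem hgn hg) (G.inv_mem hgn)
    have h2 : (gn * g * gn⁻¹).1 = 1 + ((Real.exp (-((n : ℝ) * k)) : ℝ) : ℂ) •
        Matrix.of fun a b => ((Real.exp ((n : ℝ) * ((D.hq c a : ℝ) - D.hq c b + k)) : ℝ) : ℂ) * (g.1 - 1) a b := by
      have h3 : (gn * g * gn⁻¹).1 = gn.1 * g.1 * (gn⁻¹).1 := rfl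
      rw [h3, e1, e2]
      ext a b
      rw [Matrix.mul_diagonal, Matrix.diagonal_mul, Matrix.add_apply, Matrix.smul_apply, Matrix.of_apply, smul_eq_mul,
        ← mul_assoc, ← Complex.ofReal_mul, ← Real.exp_add, Matrix.sub_apply]
      by_cases hab : a = b
      · subst hab
        rw [Matrix.one_apply_eq]
        have h4 : -((n : ℝ) * k) + (n : ℝ) * ((D.hq c a : ℝ) - D.hq c a + k) = 0 := by ring
        rw [h4, Real.exp_zero, Complex.ofReal_one, one_mul, mul_right_comm, ← Complex.ofReal_mul, ← Real.exp_add,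
          add_neg_cancel, Real.exp_zero, Complex.ofReal_one, one_mul]
        ring
      · rw [Matrix.one_apply_ne hab, sub_zero, zero_add, mul_right_comm, ← Complex.ofReal_mul, ← Real.exp_add]
        congr 3
        ring
    rw [← h2]
    exact hP _ h1

end WCn
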