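import Pool.Agent.Lib.MP_c2b80f_alE.KwF
import Pool.Agent.Lib.MP_c2b80f_alE.KwI

/-!
# Uniqueness in the slice (job KwJ)
-/

open Matrix

namespace WCn

variable {m r : ℕ} {ι : Type} [Fintype ι] [DecidableEq ι] {G : Subgroup (SLC m)} {D : RD m r ι} {c : Fin r → ℚ}

/-- If `u ∈ G` is strictly lower unipotent and `u (e + S) = (e + S') u` with `S`, `S'` in the slice, then `S = S'`.
If `u = 1` this is clear. Otherwise let `ν = u - 1`, `h = D.hq c`, `k > 0` the lowest drop (`exists_drop`) and `Y = cmp h (-k) ν ≠ 0`; `Y ∈ tanG G` by `lead_tan`, so `k` is an integer (`tan_cmp_int` for `Y`, `cmp_of_hg`), `k = j + 1` with `j : ℕ`.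
Apply `cmp h (1 - k)` to `S + ν e + ν S = S' + e ν + S' ν`: `cmp h (1 - k) (ν e) = Y e`, `cmp h (1 - k) (e ν) = e Y` (`cmp_mul_hg`, `cmp_hg_mul`, `eS_hg`), and `ν S`, `S' ν` have degree at most `-k < 1 - k`. So
`cmp h (-j) S - cmp h (-j) S' = e Y - Y e`, and `ξ j β (e Y - Y e) = 0` for all `β`, so `Y = 0` by `IsXi.inv`: contradiction. -/
theorem slice_unique (hG : ZClosed G) (hD : IsRD G D) (hc : D.HtC c) {ξ : ℕ → ι → (Matrix (Fin m) (Fin m) ℂ →ₗ[ℂ] ℂ)} (hξ : IsXi G D c ξ)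
    {u : SLC m} (hu : u ∈ G) (hu1 : u.1 - 1 ∈ Slow (D.hq c)) {S S' : Matrix (Fin m) (Fin m) ℂ} (hS : ∀ n, Sl G D c ξ n S)
    (hS' : ∀ n, Sl G D c ξ n S') (h : u.1 * (D.eS + S) = (D.eS + S') * u.1) : S = S' := by
  by_cases hu0 : u.1 = 1
  · rw [hu0, Matrix.one_mul, Matrix.mul_one] at h
    exact add_left_cancel h
  exfalso
  obtain ⟨k, hk, hlow, hY0⟩ := exists_drop hu1 hu0
  obtain ⟨ν, hν⟩ : ∃ ν, u.1 - 1 = ν := ⟨_, rfl⟩
  have hYt : cmp (D.hq c) (-k) (u.1 - 1) ∈ tanG G := lead_tan hG hD hu hk hlow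
  have hu2 : u.1 = 1 + ν := by
    rw [← hν]
    abel
  rw [hν] at hlow hY0 hYt
  obtain ⟨z, hz⟩ := tan_cmp_int hD hc hYt (k := -k) (by
    rw [cmp_of_hg cmp_mem_hg]
    exact hY0)
  have hz0 : z < 0 := by
    have h1 : (z : ℚ) < 0 := by
      rw [← hz]
      linarith
    exact_mod_cast h1
  obtain ⟨j, hj⟩ : ∃ j : ℕ, z = -((j : ℤ) + 1) := ⟨(-z - 1).toNat, by omega⟩
  have hkj : -k = -((j : ℚ) + 1) := by
    rw [hz, hj]
    push_cast
    rfl
  have hkj2 : -k = -(j : ℚ) - 1 := by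
    rw [hkj]
    ring
  have he := eS_hg hD hc
  have h1 : S + ν * D.eS + ν * S = S' + D.eS * ν + S' * ν := by
    rw [hu2, Matrix.add_mul, Matrix.one_mul, Matrix.mul_add, Matrix.mul_add, Matrix.mul_one, Matrix.add_mul] at h
    have h2 : D.eS + (S + ν * D.eS + ν * S) = D.eS + (S' + D.eS * ν + S' * ν) := by
      calc D.eS + (S + ν * D.eS + ν * S) = D.eS + S + (ν * D.eS + ν * S) := by abel
        _ = D.eS + S' + (D.eS * ν + S' * ν) := h
        _ = D.eS + (S' + D.eS * ν + S' * ν) := by abel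
    exact add_left_cancel h2
  have h2 := congrArg (cmp (D.hq c) (-(j : ℚ))) h1
  rw [map_add, map_add, map_add, map_add, cmp_mul_hg he, cmp_hg_mul he,
    cmp_of_low (low_mul hlow (hS 0).low) (by rw [hkj2]; linarith),
    cmp_of_low (low_mul (hS' 0).low hlow) (by rw [hkj2]; linarith), add_zero, add_zero, ← hkj2] at h2
  have h3 : D.eS * cmp (D.hq c) (-k) ν - cmp (D.hq c) (-k) ν * D.eS =
      cmp (D.hq c) (-(j : ℚ)) S - cmp (D.hq c) (-(j : ℚ)) S' := by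
    rw [sub_eq_sub_iff_add_eq_add, add_comm, ← h2]
  have hYh : cmp (D.hq c) (-k) ν ∈ Hg (D.hq c) (-((j : ℚ) + 1)) := hkj ▸ cmp_mem_hg
  have h4 := hξ.inv j _ hYt hYh
  refine hY0 ?_
  rw [← h4]
  refine Finset.sum_eq_zero fun β _ => ?_
  rw [h3, map_sub, (hS (j + 1)).ker j (Nat.lt_succ_self j) β, (hS' (j + 1)).ker j (Nat.lt_succ_self j) β, sub_zero, zero_smul]

end WCn
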