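import Pool.Agent.Lib.MP_c2b80f_alE.KwDefs

/-!
# Brackets with the negative simple root vectors (job KwB2)
-/

open Matrix

namespace WCn

variable {m r : ℕ} {ι : Type} [Fintype ι] [DecidableEq ι] {G : Subgroup (SLC m)} {D : RD m r ι} {c : Fin r → ℚ}

/-- The entries `a b` of an element of the Lie algebra are supported where `wt a - wt b` is zero or a root. So if all nonzero entries `a b` of `X` have `wt a - wt b = ρ`, where `ρ` is neither zero nor a root, then `X = 0`.
(Compare entries of `X = H t + ∑ x β e β`: where `wt a - wt b = ρ` the right side is zero, `IsRD.supp`; everywhere else `X a b = 0`.) -/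
theorem eq_zero_of_supp (hD : IsRD G D) {X : Matrix (Fin m) (Fin m) ℂ} (hX : X ∈ tanG G) (ρ : Fin r → ℤ) (hρ : ρ ≠ 0)
    (hr : ∀ β, D.root β ≠ ρ) (hs : ∀ a b, X a b ≠ 0 → ∀ i, D.wt a i - D.wt b i = ρ i) : X = 0 := by
  obtain ⟨t, x, hXe⟩ := (hD.mem_iff X).1 hX
  ext a b
  rw [Matrix.zero_apply]
  by_contra h
  have h1 := hs a b h
  have hab : a ≠ b := by
    rintro rfl
    refine hρ (funext fun i => ?_)
    rw [← h1 i, sub_self]
    rfl
  refine h ?_
  rw [hXe, Matrix.add_apply, Matrix.sum_apply]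
  have h2 : D.H t a b = 0 := by
    unfold RD.H
    exact Matrix.diagonal_apply_ne _ hab
  rw [h2, zero_add]
  refine Finset.sum_eq_zero fun β _ => ?_
  rw [Matrix.smul_apply, smul_eq_mul]
  have h3 : D.e β a b = 0 := by
    by_contra h4
    refine hr β (funext fun i => ?_)
    rw [← h1 i, hD.supp β a b h4 i]
  rw [h3, mul_zero]

private theorem KwB2_mem (hD : IsRD G D) (β : ι) : D.e β ∈ tanG G := by
  refine (hD.mem_iff _).2 ⟨0, Pi.single β 1, ?_⟩
  have h1 : D.H (0 : Fin r → ℂ) = 0 := by
    unfold RD.H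
    simp
  rw [h1, zero_add, Finset.sum_eq_single β]
  · rw [Pi.single_eq_same, one_smul]
  · intro γ _ hγ
    rw [Pi.single_eq_of_ne hγ, zero_smul]
  · intro h
    exact absurd (Finset.mem_univ β) h

private theorem KwB2_mul (hD : IsRD G D) (β γ : ι) {a b : Fin m} (h : (D.e β * D.e γ) a b ≠ 0) (i : Fin r) :
    D.wt a i - D.wt b i = D.root β i + D.root γ i := by
  rw [Matrix.mul_apply] at h
  obtain ⟨c, -, hc⟩ := Finset.exists_ne_zero_of_sum_ne_zero h
  have h1 := hD.supp β a c (left_ne_zero_of_mul hc) i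
  have h2 := hD.supp γ c b (right_ne_zero_of_mul hc) i
  omega

private theorem KwB2_inj (hD : IsRD G D) {i j : Fin r} (h : D.simple i = D.simple j) : i = j := by
  have h1 := hD.simple_coroot i
  rw [h, hD.simple_coroot j] at h1
  by_contra hij
  have h2 := congrFun h1 j
  rw [Pi.single_eq_same, Pi.single_eq_of_ne (Ne.symm hij)] at h2
  exact one_ne_zero h2

/-- `[e (α_i), e (-α_j)] = 0` for `i ≠ j`: it is in the Lie algebra (`tanG_lie`), its weight is `α_i - α_j`, which is not a root (`IsRD.simple_diff`) and not zero (`root_inj`: `α_i = α_j` would give `simple i = simple j`, so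
`coroot (simple i) = coroot (simple j)`, so `i = j` by `simple_coroot`). -/
theorem simple_bracket (hG : ZClosed G) (hD : IsRD G D) {i j : Fin r} (hij : i ≠ j) :
    D.e (D.simple i) * D.e (D.neg (D.simple j)) - D.e (D.neg (D.simple j)) * D.e (D.simple i) = 0 := by
  refine eq_zero_of_supp hD (tanG_lie hG (KwB2_mem hD _) (KwB2_mem hD _)) (D.root (D.simple i) - D.root (D.simple j)) ?_
    (fun β => hD.simple_diff i j β hij) ?_
  · intro h
    exact hij (KwB2_inj hD (hD.root_inj (sub_eq_zero.1 h)))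
  · intro a b hab k
    have h1 : D.root (D.neg (D.simple j)) k = -D.root (D.simple j) k := by
      rw [hD.root_neg]
      rfl
    rw [Pi.sub_apply]
    by_cases h2 : (D.e (D.simple i) * D.e (D.neg (D.simple j))) a b = 0
    · have h3 : (D.e (D.neg (D.simple j)) * D.e (D.simple i)) a b ≠ 0 := by
        intro h4
        refine hab ?_
        rw [Matrix.sub_apply, h2, h4, sub_zero]
      have h5 := KwB2_mul hD _ _ h3 k
      omega
    · have h5 := KwB2_mul hD _ _ h2 k
      omega

/-- `[e, e (-α_i)] = α_i^∨` (`IsRD.bracket`, `simple_coroot`). -/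
theorem eS_bracket (hG : ZClosed G) (hD : IsRD G D) (i : Fin r) :
    D.eS * D.e (D.neg (D.simple i)) - D.e (D.neg (D.simple i)) * D.eS = D.H (Pi.single i (1 : ℂ)) := by
  unfold RD.eS
  rw [Finset.sum_mul, Finset.mul_sum, ← Finset.sum_sub_distrib, Finset.sum_eq_single i]
  · rw [hD.bracket, hD.simple_coroot]
    congr 1
    funext k
    by_cases hk : k = i
    · subst hk
      rw [Pi.single_eq_same, Pi.single_eq_same, Int.cast_one]
    · rw [Pi.single_eq_of_ne hk, Pi.single_eq_of_ne hk, Int.cast_zero]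
  · intro j _ hj
    exact simple_bracket hG hD hj
  · intro h
    exact absurd (Finset.mem_univ i) h

/-- `eS ≠ 0` (independence of the `e β`, `0 < r`). -/
theorem eS_ne_zero (hD : IsRD G D) : D.eS ≠ 0 := by
  intro h
  have h1 : D.H (0 : Fin r → ℂ) = 0 := by
    unfold RD.H
    simp
  have h2 : ∑ β, (∑ i, (Pi.single (D.simple i) (1 : ℂ) : ι → ℂ)) β • D.e β = D.eS := by
    unfold RD.eS
    simp only [Finset.sum_apply, Finset.sum_smul]
    rw [Finset.sum_comm]
    refine Finset.sum_congr rfl fun i _ => ?_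
    rw [Finset.sum_eq_single (D.simple i)]
    · rw [Pi.single_eq_same, one_smul]
    · intro γ _ hγ
      rw [Pi.single_eq_of_ne hγ, zero_smul]
    · intro h
      exact absurd (Finset.mem_univ _) h
  have h3 := (hD.indep 0 (∑ i, (Pi.single (D.simple i) (1 : ℂ) : ι → ℂ)) (by rw [h1, h2, h, zero_add])).2
  have h4 := congrFun h3 (D.simple ⟨0, hD.pos⟩)
  rw [Finset.sum_apply, Finset.sum_eq_single (⟨0, hD.pos⟩ : Fin r)] at h4
  · rw [Pi.single_eq_same] at h4
    exact one_ne_zero h4
  · intro j _ hj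
    rw [Pi.single_eq_of_ne fun h5 => hj (KwB2_inj hD h5).symm]
  · intro h
    exact absurd (Finset.mem_univ _) h

end WCn
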