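import Pool.Agent.Lib.MP_c2b80f_alE.KwD
import Pool.Agent.Lib.MP_c2b80f_alE.KwB2

/-!
# Simple reflections (job KwK)
-/

open Matrix

namespace WCn

variable {m r : ℕ} {ι : Type} [Fintype ι] [DecidableEq ι] {G : Subgroup (SLC m)} {D : RD m r ι} {c : Fin r → ℚ}

/-- Let `A`, `K`, `f` be matrices with `f A - A f = K`, `f K - K f = -2 f`. Then `exp(z f) A = (A + z K - z² f) exp(z f)`. (With `F(z)` the difference of the two sides: `F 0 = 0` and `F' = f F`, so `F = 0`; or directly from the power series: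
`f ^ n A = A f ^ n + n K f ^ (n - 1) - n (n - 1) f ^ (n - 1)`.) -/
theorem exp_conj_two (A K f : Matrix (Fin m) (Fin m) ℂ) (h1 : f * A - A * f = K) (h2 : f * K - K * f = -(2 : ℂ) • f) (z : ℂ) :
    NormedSpace.exp (z • f) * A = (A + z • K - (z ^ 2) • f) * NormedSpace.exp (z • f) := by
  have hinv : NormedSpace.exp (z • f) * NormedSpace.exp (z • (-f)) = 1 := by
    have hcom : Commute (z • f) (z • (-f)) := (((Commute.refl f).neg_right).smul_left z).smul_right z
    rw [← Matrix.exp_add_of_commute _ _ hcom, smul_neg, add_neg_cancel, NormedSpace.exp_zero]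
  letI : NormedRing (Matrix (Fin m) (Fin m) ℂ) := Matrix.linftyOpNormedRing
  letI : NormedAlgebra ℂ (Matrix (Fin m) (Fin m) ℂ) := Matrix.linftyOpNormedAlgebra
  have hB : ∀ z : ℂ, HasDerivAt (fun z : ℂ => A + z • K - (z ^ 2) • f) (K - (2 * z) • f) z := by
    intro z
    have h3 : HasDerivAt (fun z : ℂ => z • K) K z := by
      have h4 := (hasDerivAt_id z).smul_const K
      rw [one_smul] at h4
      exact h4
    have h5 : HasDerivAt (fun z : ℂ => (z ^ 2) • f) ((2 * z) • f) z := by
      have h6 := (hasDerivAt_pow 2 z).smul_const f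
      have e : ((2 : ℕ) : ℂ) * z ^ (2 - 1) = 2 * z := by norm_num
      rw [e] at h6
      exact h6
    exact (h3.const_add A).sub h5
  have hG : ∀ z : ℂ, HasDerivAt (fun z : ℂ => NormedSpace.exp (z • (-f)) * (A + z • K - (z ^ 2) • f) *
      NormedSpace.exp (z • f)) 0 z := by
    intro z
    have h3 := hasDerivAt_exp_smul_const (𝕂 := ℂ) (-f) z
    have h4 := hasDerivAt_exp_smul_const' (𝕂 := ℂ) f z
    have h5 := (h3.mul (hB z)).mul h4
    have e : (NormedSpace.exp (z • (-f)) * (-f) * (A + z • K - (z ^ 2) • f) +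
          NormedSpace.exp (z • (-f)) * (K - (2 * z) • f)) * NormedSpace.exp (z • f) +
        NormedSpace.exp (z • (-f)) * (A + z • K - (z ^ 2) • f) * (f * NormedSpace.exp (z • f)) = 0 := by
      have e1 : (-f) * (A + z • K - (z ^ 2) • f) + (K - (2 * z) • f) + (A + z • K - (z ^ 2) • f) * f = 0 := by
        have e2 : (-f) * (A + z • K - (z ^ 2) • f) + (K - (2 * z) • f) + (A + z • K - (z ^ 2) • f) * f
            = - (f * A - A * f) - z • (f * K - K * f) + (K - (2 * z) • f) := by
          rw [Matrix.neg_mul, Matrix.mul_sub, Matrix.mul_add, Matrix.sub_mul, Matrix.add_mul, Matrix.mul_smul,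
            Matrix.mul_smul, Matrix.smul_mul, Matrix.smul_mul, smul_sub]
          abel
        rw [e2, h1, h2, smul_smul, show z * -(2 : ℂ) = -(2 * z) by ring, neg_smul]
        abel
      calc (NormedSpace.exp (z • (-f)) * (-f) * (A + z • K - (z ^ 2) • f) +
            NormedSpace.exp (z • (-f)) * (K - (2 * z) • f)) * NormedSpace.exp (z • f) +
          NormedSpace.exp (z • (-f)) * (A + z • K - (z ^ 2) • f) * (f * NormedSpace.exp (z • f))
          = NormedSpace.exp (z • (-f)) * ((-f) * (A + z • K - (z ^ 2) • f) + (K - (2 * z) • f) +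
            (A + z • K - (z ^ 2) • f) * f) * NormedSpace.exp (z • f) := by
            simp only [mul_add, add_mul, mul_assoc]
        _ = 0 := by rw [e1, mul_zero, zero_mul]
    rw [← e]
    exact h5
  have hconst := is_const_of_deriv_eq_zero (fun z => (hG z).differentiableAt) (fun z => (hG z).deriv) z 0
  have h0 : NormedSpace.exp (z • (-f)) * (A + z • K - (z ^ 2) • f) * NormedSpace.exp (z • f) = A := by
    rw [hconst]
    simp
  calc NormedSpace.exp (z • f) * A = NormedSpace.exp (z • f) *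
        (NormedSpace.exp (z • (-f)) * (A + z • K - (z ^ 2) • f) * NormedSpace.exp (z • f)) := by rw [h0]
    _ = (NormedSpace.exp (z • f) * NormedSpace.exp (z • (-f))) * (A + z • K - (z ^ 2) • f) * NormedSpace.exp (z • f) := by
        simp only [mul_assoc]
    _ = (A + z • K - (z ^ 2) • f) * NormedSpace.exp (z • f) := by rw [hinv, one_mul]

private theorem KwK_act_s {R : Type*} [CommRing R] {w : GL (Fin r) ℤ} {β : ι} (hw : w.1 = D.s β) (t : Fin r → R) :
    act w t = t - D.rt β t • fun i => (D.coroot β i : R) := by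
  funext i
  unfold act RD.rt
  rw [hw]
  unfold RD.s
  have h1 : ∀ j, (((1 - Matrix.vecMulVec (D.coroot β) (D.root β) : Matrix (Fin r) (Fin r) ℤ) i j : ℤ) : R) * t j
      = (if i = j then t j else 0) - ((D.root β j : R) * t j) * (D.coroot β i : R) := by
    intro j
    rw [Matrix.sub_apply, Matrix.vecMulVec_apply, Matrix.one_apply]
    split_ifs
    · push_cast
      ring
    · push_cast
      ring
  rw [Finset.sum_congr rfl fun j _ => h1 j, Finset.sum_sub_distrib, Finset.sum_ite_eq, if_pos (Finset.mem_univ i),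
    ← Finset.sum_mul]
  rfl

private theorem KwK_H_sub (D : RD m r ι) (t t' : Fin r → ℂ) (z : ℂ) : D.H (t - z • t') = D.H t - z • D.H t' := by
  unfold RD.H
  ext a b
  rw [Matrix.sub_apply, Matrix.smul_apply, Matrix.diagonal_apply, Matrix.diagonal_apply, Matrix.diagonal_apply]
  split_ifs
  · rw [smul_eq_mul, Finset.mul_sum, ← Finset.sum_sub_distrib]
    refine Finset.sum_congr rfl fun i _ => ?_
    rw [Pi.sub_apply, Pi.smul_apply, smul_eq_mul]
    ring
  · rw [smul_zero, sub_zero]

private theorem KwK_rt_neg (hD : IsRD G D) (β : ι) (t : Fin r → ℂ) : D.rt (D.neg β) t = - D.rt β t := by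
  unfold RD.rt
  rw [← Finset.sum_neg_distrib]
  refine Finset.sum_congr rfl fun i _ => ?_
  rw [hD.root_neg, Pi.neg_apply]
  push_cast
  ring

/-- Let `α = simple i`, `f = e (neg α)`, `z = α(t)`, `K = [f, e + H t] = -H (Pi.single i 1) + z f` (`eS_bracket`, `H_comm`, `root_neg`); `[f, H (Pi.single i 1)] = 2 f` because `root α i = 2` (`two`, `simple_coroot`). So by `exp_conj_two`
`exp(z f) (e + H t) = (e + H t - z H (Pi.single i 1)) exp(z f)`, and `act w t = t - z Pi.single i 1` (`D.s (simple i) = 1 - vecMulVec (Pi.single i 1) (root α)`). -/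
theorem refl_conj (hG : ZClosed G) (hD : IsRD G D) (i : Fin r) (t : Fin r → ℂ) (w : GL (Fin r) ℤ) (hw : w.1 = D.s (D.simple i)) :
    Eb (D.e (D.neg (D.simple i))) (D.rt (D.simple i) t) * (D.eS + D.H t) =
      (D.eS + D.H (act w t)) * Eb (D.e (D.neg (D.simple i))) (D.rt (D.simple i) t) := by
  obtain ⟨f, hf⟩ : ∃ f, f = D.e (D.neg (D.simple i)) := ⟨_, rfl⟩
  obtain ⟨z, hz⟩ : ∃ z, z = D.rt (D.simple i) t := ⟨_, rfl⟩
  have hcor : (fun j => (D.coroot (D.simple i) j : ℂ)) = Pi.single i 1 := by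
    rw [hD.simple_coroot i]
    funext j
    by_cases h : j = i
    · rw [h, Pi.single_eq_same, Pi.single_eq_same, Int.cast_one]
    · rw [Pi.single_eq_of_ne h, Pi.single_eq_of_ne h, Int.cast_zero]
  have htwo : D.rt (D.simple i) (Pi.single i (1 : ℂ)) = 2 := by
    have h1 := hD.two (D.simple i)
    have h2 : ((∑ j, D.root (D.simple i) j * D.coroot (D.simple i) j : ℤ) : ℂ) = 2 := by
      rw [h1]
      norm_num
    rw [← h2]
    unfold RD.rt
    push_cast
    refine Finset.sum_congr rfl fun j _ => ?_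
    rw [← congrFun hcor j]
  have h1 : f * (D.eS + D.H t) - (D.eS + D.H t) * f = -(D.H (Pi.single i (1 : ℂ))) + z • f := by
    have e1 : f * (D.eS + D.H t) - (D.eS + D.H t) * f = -(D.eS * f - f * D.eS) - (D.H t * f - f * D.H t) := by
      rw [Matrix.mul_add, Matrix.add_mul]
      abel
    rw [e1, hf, eS_bracket hG hD, H_comm hD, KwK_rt_neg hD, ← hz, neg_smul, sub_neg_eq_add]
  have h2 : f * (-(D.H (Pi.single i (1 : ℂ))) + z • f) - (-(D.H (Pi.single i (1 : ℂ))) + z • f) * f = -(2 : ℂ) • f := by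
    have e1 : f * (-(D.H (Pi.single i (1 : ℂ))) + z • f) - (-(D.H (Pi.single i (1 : ℂ))) + z • f) * f
        = D.H (Pi.single i (1 : ℂ)) * f - f * D.H (Pi.single i (1 : ℂ)) := by
      rw [Matrix.mul_add, Matrix.add_mul, Matrix.mul_smul, Matrix.smul_mul, Matrix.mul_neg, Matrix.neg_mul]
      abel
    rw [e1, hf, H_comm hD, KwK_rt_neg hD, htwo]
  have h3 := exp_conj_two (D.eS + D.H t) _ f h1 h2 z
  have h4 : D.eS + D.H t + z • (-(D.H (Pi.single i (1 : ℂ))) + z • f) - (z ^ 2) • f = D.eS + D.H (act w t) := by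
    rw [KwK_act_s hw, ← hz, hcor, KwK_H_sub, smul_add, smul_smul, smul_neg, pow_two]
    abel
  rw [← hf, ← hz, Eb_eq_exp (by rw [hf]; exact e_pow_zero hD _), h3, h4]

private theorem KwK_act {R : Type*} [CommRing R] (w : GL (Fin r) ℤ) (t : Fin r → R) :
    act w t = (w.1.map (Int.castRingHom R)).mulVec t := rfl

theorem kwK_act_one (t : Fin r → ℂ) : act (1 : GL (Fin r) ℤ) t = t := by
  rw [KwK_act, Units.val_one, Matrix.map_one _ (map_zero _) (map_one _), Matrix.one_mulVec]

theorem kwK_act_mul (w w' : GL (Fin r) ℤ) (t : Fin r → ℂ) : act (w * w') t = act w (act w' t) := by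
  rw [KwK_act, KwK_act, KwK_act, Units.val_mul, Matrix.map_mul, Matrix.mulVec_mulVec]

end WCn
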