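import Pool.Agent.Lib.MP_c2b80f_alE.KwH
import Pool.Agent.Lib.MP_c2b80f_alE.KwJ
import Pool.Agent.Lib.MP_c2b80f_alE.KwK

/-!
# The section (job KwL)
-/

open Matrix

namespace WCn

variable {m r : ℕ} {ι : Type} [Fintype ι] [DecidableEq ι] {G : Subgroup (SLC m)} {D : RD m r ι} {c : Fin r → ℚ}

/-- The section. `c` from `IsRD.ht_lin`, `ξ` from `exists_xi`, `N` from `exists_bound`, `U, V, S` from `section_rec` with `n = N` (`sl_all`). For a simple reflection `w`: `u = U(w t) E V(t)`, `E = Eb (e (neg (simple i))) (rt (simple i) t)`, is an element of `G`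
with `u - 1 ∈ Slow` (`slow_mul_sub_one`, `Eb_low`: `e (neg (simple i))` has degree `-1`), and `u (e + S(t)) = (e + S(w t)) u` by `refl_conj`; so `S(w t) = S(t)` by `slice_unique`. For all `w ∈ D.W`: `IsRD.gen` and
`Subgroup.closure_induction` (`kwK_act_mul`, `kwK_act_one`; for inverses put `t = act w t'`; the inverse of an element with `w.1 = D.s (simple i)`). -/
theorem kw_section (hG : AlmostSimple G) (hD : IsRD G D) :
    ∃ U V S : Matrix (Fin m) (Fin m) (MvPolynomial (Fin r) ℂ), U * V = 1 ∧ V * U = 1 ∧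
      U * (D.eS.map MvPolynomial.C + D.H (fun i => MvPolynomial.X i)) = (D.eS.map MvPolynomial.C + S) * U ∧
      (∀ t : Fin r → ℂ, ∃ g ∈ G, g.1 = U.map (MvPolynomial.eval t) ∧ (g⁻¹).1 = V.map (MvPolynomial.eval t)) ∧
      (∀ t : Fin r → ℂ, S.map (MvPolynomial.eval t) ∈ tanG G) ∧
      (∀ w ∈ D.W, ∀ t : Fin r → ℂ, S.map (MvPolynomial.eval (act w t)) = S.map (MvPolynomial.eval t)) := by
  obtain ⟨c, hc⟩ := hD.ht_lin
  obtain ⟨ξ, hξ⟩ := exists_xi hG.closed hD hc
  obtain ⟨N, _, hN⟩ := exists_bound (D.hq c)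
  obtain ⟨U, V, S, hUV, hVU, hconj, hg, hS⟩ := section_rec hG.closed hD hc hξ N
  refine ⟨U, V, S, hUV, hVU, hconj, ?_, fun t => (hS t).mem, ?_⟩
  · intro t
    obtain ⟨g, h1, h2, h3, _⟩ := hg t
    exact ⟨g, h1, h2, h3⟩
  -- the relation at a point
  have hat : ∀ t : Fin r → ℂ, U.map (MvPolynomial.eval t) * (D.eS + D.H t) =
      (D.eS + S.map (MvPolynomial.eval t)) * U.map (MvPolynomial.eval t) := by
    intro t
    have h1 := congrArg (fun A : Matrix (Fin m) (Fin m) (MvPolynomial (Fin r) ℂ) => A.map (MvPolynomial.eval t)) hconj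
    simp only [Matrix.map_mul] at h1
    rw [eSH_eval] at h1
    have h2 : (D.eS.map MvPolynomial.C + S).map (MvPolynomial.eval t) = D.eS + S.map (MvPolynomial.eval t) := by
      ext a b
      simp only [Matrix.map_apply, Matrix.add_apply, map_add, MvPolynomial.eval_C]
    rw [h2] at h1
    exact h1
  have hVUt : ∀ t : Fin r → ℂ, V.map (MvPolynomial.eval t) * U.map (MvPolynomial.eval t) = 1 := by
    intro t
    rw [← Matrix.map_mul, hVU]
    ext a b
    rw [Matrix.map_apply, Matrix.one_apply, Matrix.one_apply]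
    split_ifs
    · exact map_one _
    · exact map_zero _
  have hUVt : ∀ t : Fin r → ℂ, U.map (MvPolynomial.eval t) * V.map (MvPolynomial.eval t) = 1 := by
    intro t
    rw [← Matrix.map_mul, hUV]
    ext a b
    rw [Matrix.map_apply, Matrix.one_apply, Matrix.one_apply]
    split_ifs
    · exact map_one _
    · exact map_zero _
  have hVat : ∀ t : Fin r → ℂ, V.map (MvPolynomial.eval t) * (D.eS + S.map (MvPolynomial.eval t)) =
      (D.eS + D.H t) * V.map (MvPolynomial.eval t) := by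
    intro t
    calc V.map (MvPolynomial.eval t) * (D.eS + S.map (MvPolynomial.eval t)) =
        V.map (MvPolynomial.eval t) * ((D.eS + S.map (MvPolynomial.eval t)) * U.map (MvPolynomial.eval t)) *
          V.map (MvPolynomial.eval t) := by
          rw [Matrix.mul_assoc, Matrix.mul_assoc, hUVt, Matrix.mul_one]
      _ = V.map (MvPolynomial.eval t) * U.map (MvPolynomial.eval t) * (D.eS + D.H t) * V.map (MvPolynomial.eval t) := by
          rw [← hat, ← Matrix.mul_assoc]
      _ = _ := by rw [hVUt, Matrix.one_mul]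
  have hsimple : ∀ w : GL (Fin r) ℤ, (∃ i, w.1 = D.s (D.simple i)) → ∀ t : Fin r → ℂ,
      S.map (MvPolynomial.eval (act w t)) = S.map (MvPolynomial.eval t) := by
    rintro w ⟨i, hw⟩ t
    obtain ⟨g1, hg1, hU1, -, hs1, -⟩ := hg (act w t)
    obtain ⟨g2, hg2, -, hV2, -, hs2⟩ := hg t
    obtain ⟨g3, hg3, hE3, -⟩ := Eb_mem hG.closed hD (D.neg (D.simple i)) (D.rt (D.simple i) t)
    have hu : g1 * g3 * g2⁻¹ ∈ G := G.mul_mem (G.mul_mem hg1 hg3) (G.inv_mem hg2)
    have hval : (g1 * g3 * g2⁻¹ : SLC m).1 = U.map (MvPolynomial.eval (act w t)) *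
        Eb (D.e (D.neg (D.simple i))) (D.rt (D.simple i) t) * V.map (MvPolynomial.eval t) := by
      rw [← hU1, ← hE3, ← hV2]
      rfl
    have hE1 : Eb (D.e (D.neg (D.simple i))) (D.rt (D.simple i) t) - 1 ∈ Slow (D.hq c) := by
      have h1 := e_hg hD hc (D.neg (D.simple i))
      rw [hD.ht_neg, hD.ht_simple] at h1
      refine low_le_slow (d := ((-1 : ℤ) : ℚ)) (by norm_num) (Eb_low (by norm_num) h1 _)
    have hu1 : (g1 * g3 * g2⁻¹ : SLC m).1 - 1 ∈ Slow (D.hq c) := by
      rw [hval]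
      exact slow_mul_sub_one (slow_mul_sub_one hs1 hE1) hs2
    have hrel : (g1 * g3 * g2⁻¹ : SLC m).1 * (D.eS + S.map (MvPolynomial.eval t)) =
        (D.eS + S.map (MvPolynomial.eval (act w t))) * (g1 * g3 * g2⁻¹ : SLC m).1 := by
      rw [hval, Matrix.mul_assoc, hVat, ← Matrix.mul_assoc, Matrix.mul_assoc (U.map _), refl_conj hG.closed hD i t w hw,
        ← Matrix.mul_assoc, hat, Matrix.mul_assoc, Matrix.mul_assoc, Matrix.mul_assoc]
    exact (slice_unique hG.closed hD hc hξ hu hu1 (fun n => sl_all ξ hN (hS t) n) (fun n => sl_all ξ hN (hS (act w t)) n) hrel).symm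
  intro w hw
  rw [hD.gen] at hw
  induction hw using Subgroup.closure_induction with
  | mem w hw => exact hsimple w hw
  | one =>
    intro t
    rw [kwK_act_one]
  | mul w w' _ _ h1 h2 =>
    intro t
    rw [kwK_act_mul, h1, h2]
  | inv w _ h1 =>
    intro t
    have h2 := h1 (act w⁻¹ t)
    rw [← kwK_act_mul, mul_inv_cancel, kwK_act_one] at h2
    exact h2.symm

end WCn
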