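import Pool.Agent.Lib.MP_c2b80f_alE.KwM

/-!
# `e + H(t)` is conjugate to `H(t)`, by a matrix which is polynomial in `t` and in the inverses of the roots (job KwN)
-/

open Matrix

namespace WCn

variable {m r : ℕ} {ι : Type} [Fintype ι] [DecidableEq ι] {G : Subgroup (SLC m)} {D : RD m r ι} {c : Fin r → ℚ}

omit [Fintype ι] [DecidableEq ι] in
private theorem KwN_H_map (D : RD m r ι) (t : Fin r → ℂ) (v : ι → ℂ) :
    (D.H (fun i => (MvPolynomial.X (Sum.inl i) : MvPolynomial (Fin r ⊕ ι) ℂ))).map (MvPolynomial.eval (Sum.elim t v)) = D.H t := by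
  unfold RD.H
  rw [Matrix.diagonal_map (map_zero _)]
  congr 1
  funext j
  simp only [map_sum, map_mul, map_intCast, MvPolynomial.eval_X, Sum.elim_inl]

omit [Fintype ι] [DecidableEq ι] in
private theorem KwN_C_map (X : Matrix (Fin m) (Fin m) ℂ) (t : Fin r → ℂ) (v : ι → ℂ) :
    (X.map (MvPolynomial.C : ℂ →+* MvPolynomial (Fin r ⊕ ι) ℂ)).map (MvPolynomial.eval (Sum.elim t v)) = X := by
  ext a b
  simp only [Matrix.map_apply, MvPolynomial.eval_C]

omit [Fintype ι] [DecidableEq ι] in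
private theorem KwN_one (w : Fin r ⊕ ι → ℂ) : ((1 : Matrix (Fin m) (Fin m) (MvPolynomial (Fin r ⊕ ι) ℂ))).map (MvPolynomial.eval w) = 1 :=
  Matrix.map_one _ (map_zero _) (map_one _)

/-- Induction on `n ≥ 1` (start `n = 1`: `U = V = 1`, `B = eS`, of degree `1`; step `n` to `n + 1`: `conj_step` with `z β = funR (x β) B * X (inr β)`, `P = D.prE (D.lstP n) z`, `P' = D.prE' (D.lstP n) z`; `P U`, `V P'`, `P (H + B) P' - H`). -/
theorem conj_rec (hG : ZClosed G) (hD : IsRD G D) (hc : D.HtC c) (n : ℕ) (hn : 1 ≤ n) :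
    ∃ U V B : Matrix (Fin m) (Fin m) (MvPolynomial (Fin r ⊕ ι) ℂ), U * V = 1 ∧ V * U = 1 ∧
      U * (D.eS.map MvPolynomial.C + D.H (fun i => MvPolynomial.X (Sum.inl i))) = (D.H (fun i => MvPolynomial.X (Sum.inl i)) + B) * U ∧
      (∀ (t : Fin r → ℂ) (v : ι → ℂ), ∃ g ∈ G, g.1 = U.map (MvPolynomial.eval (Sum.elim t v)) ∧ (g⁻¹).1 = V.map (MvPolynomial.eval (Sum.elim t v))) ∧
      (∀ (t : Fin r → ℂ) (v : ι → ℂ), (∀ β, D.rt β t * v β = 1) → B.map (MvPolynomial.eval (Sum.elim t v)) ∈ tanG G ∧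
        B.map (MvPolynomial.eval (Sum.elim t v)) ∈ Low (fun a => -D.hq c a) (-(n : ℚ))) := by
  obtain ⟨τ, x, hx, -⟩ := exists_coordE hD
  induction n, hn using Nat.le_induction with
  | base =>
    refine ⟨1, 1, D.eS.map MvPolynomial.C, one_mul _, one_mul _, ?_, ?_, ?_⟩
    · rw [Matrix.one_mul, Matrix.mul_one, add_comm]
    · intro t v
      refine ⟨1, G.one_mem, ?_, ?_⟩
      · rw [KwN_one]
        rfl
      · rw [KwN_one, inv_one]
        rfl
    · intro t v _
      rw [KwN_C_map]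
      refine ⟨eS_mem hD, ?_⟩
      intro a b hab
      refine eS_hg hD hc a b ?_
      intro h1
      have h2 : -((1 : ℕ) : ℚ) < -D.hq c a - -D.hq c b := hab
      push_cast at h2
      linarith
  | succ n hn ih =>
    obtain ⟨U, V, B, hUV, hVU, hE, hg, hB⟩ := ih
    obtain ⟨z, hz⟩ : ∃ z : ι → MvPolynomial (Fin r ⊕ ι) ℂ, z = fun β => funR (x β) B * MvPolynomial.X (Sum.inr β) :=
      ⟨_, rfl⟩
    obtain ⟨P, hP⟩ : ∃ P, P = D.prE (D.lstP n) z := ⟨_, rfl⟩
    obtain ⟨P', hP'⟩ : ∃ P', P' = D.prE' (D.lstP n) z := ⟨_, rfl⟩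
    obtain ⟨hPP, hPP'⟩ := prE_mul hG hD (D.lstP n) z
    rw [← hP, ← hP'] at hPP hPP'
    have hzev : ∀ (t : Fin r → ℂ) (v : ι → ℂ), (fun β => MvPolynomial.eval (Sum.elim t v) (z β)) =
        fun β => x β (B.map (MvPolynomial.eval (Sum.elim t v))) * v β := by
      intro t v
      funext β
      rw [hz, map_mul, funR_eval, MvPolynomial.eval_X, Sum.elim_inr]
    have hPe : ∀ (t : Fin r → ℂ) (v : ι → ℂ), P.map (MvPolynomial.eval (Sum.elim t v)) =
        D.prE (D.lstP n) (fun β => x β (B.map (MvPolynomial.eval (Sum.elim t v))) * v β) := by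
      intro t v
      rw [hP, (prE_eval D (D.lstP n) z (Sum.elim t v)).1, hzev]
    have hPe' : ∀ (t : Fin r → ℂ) (v : ι → ℂ), P'.map (MvPolynomial.eval (Sum.elim t v)) =
        D.prE' (D.lstP n) (fun β => x β (B.map (MvPolynomial.eval (Sum.elim t v))) * v β) := by
      intro t v
      rw [hP', (prE_eval D (D.lstP n) z (Sum.elim t v)).2, hzev]
    refine ⟨P * U, V * P', P * (D.H (fun i => MvPolynomial.X (Sum.inl i)) + B) * P' - D.H (fun i => MvPolynomial.X (Sum.inl i)),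
      ?_, ?_, ?_, ?_, ?_⟩
    · calc P * U * (V * P') = P * (U * V) * P' := by simp only [Matrix.mul_assoc]
        _ = 1 := by rw [hUV, Matrix.mul_one, hPP]
    · calc V * P' * (P * U) = V * (P' * P) * U := by simp only [Matrix.mul_assoc]
        _ = 1 := by rw [hPP', Matrix.mul_one, hVU]
    · rw [add_sub_cancel]
      calc P * U * (D.eS.map MvPolynomial.C + D.H (fun i => MvPolynomial.X (Sum.inl i))) =
          P * (U * (D.eS.map MvPolynomial.C + D.H (fun i => MvPolynomial.X (Sum.inl i)))) := by rw [Matrix.mul_assoc]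
        _ = P * (D.H (fun i => MvPolynomial.X (Sum.inl i)) + B) * (P' * P) * U := by
          rw [hE, hPP', Matrix.mul_one, Matrix.mul_assoc]
        _ = _ := by simp only [Matrix.mul_assoc]
    · intro t v
      obtain ⟨g, hgG, h1, h2⟩ := hg t v
      obtain ⟨p, hpG, h3, h4⟩ := prE_mem hG hD (D.lstP n) (fun β => x β (B.map (MvPolynomial.eval (Sum.elim t v))) * v β)
      refine ⟨p * g, G.mul_mem hpG hgG, ?_, ?_⟩
      · have e : (p * g).1 = p.1 * g.1 := rfl
        rw [e, h3, h1, Matrix.map_mul, hPe]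
      · have e : ((p * g)⁻¹).1 = (g⁻¹).1 * (p⁻¹).1 := by
          rw [_root_.mul_inv_rev]
          rfl
        rw [e, h4, h2, Matrix.map_mul, hPe']
    · intro t v hv
      obtain ⟨hB1, hB2⟩ := hB t v hv
      have e : (P * (D.H (fun i => MvPolynomial.X (Sum.inl i)) + B) * P' - D.H (fun i => MvPolynomial.X (Sum.inl i))).map
          (MvPolynomial.eval (Sum.elim t v)) =
          D.prE (D.lstP n) (fun β => x β (B.map (MvPolynomial.eval (Sum.elim t v))) * v β) *
            (D.H t + B.map (MvPolynomial.eval (Sum.elim t v))) *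
            D.prE' (D.lstP n) (fun β => x β (B.map (MvPolynomial.eval (Sum.elim t v))) * v β) - D.H t := by
        rw [Matrix.map_sub _ (map_sub _), Matrix.map_mul, Matrix.map_mul, Matrix.map_add _ (map_add _), KwN_H_map, hPe, hPe']
      rw [e]
      have h5 := conj_step hG hD hc hx hn hv hB1 hB2
      refine ⟨h5.1, ?_⟩
      have e2 : (-((n + 1 : ℕ) : ℚ)) = -((n : ℚ) + 1) := by push_cast; ring
      rw [e2]
      exact h5.2

/-- `n` large: all `h a - h b < n` (`exists_bound` for `-h`), so `B(t, v) = 0`. -/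
theorem kw_conj_poly (hG : AlmostSimple G) (hD : IsRD G D) :
    ∃ U V : Matrix (Fin m) (Fin m) (MvPolynomial (Fin r ⊕ ι) ℂ), U * V = 1 ∧ V * U = 1 ∧
      ∀ (t : Fin r → ℂ) (v : ι → ℂ), (∀ β, D.rt β t * v β = 1) →
        ∃ u ∈ G, u.1 = U.map (MvPolynomial.eval (Sum.elim t v)) ∧ (u⁻¹).1 = V.map (MvPolynomial.eval (Sum.elim t v)) ∧
          u.1 * (D.eS + D.H t) * (u⁻¹).1 = D.H t := by
  obtain ⟨c, hc⟩ := hD.ht_lin
  obtain ⟨N, hN, hb⟩ := exists_bound (fun a => -D.hq c a)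
  obtain ⟨U, V, B, hUV, hVU, hE, hg, hB⟩ := conj_rec hG.closed hD hc N hN
  refine ⟨U, V, hUV, hVU, fun t v hv => ?_⟩
  obtain ⟨g, hgG, h1, h2⟩ := hg t v
  refine ⟨g, hgG, h1, h2, ?_⟩
  have hB0 : B.map (MvPolynomial.eval (Sum.elim t v)) = 0 := by
    ext a b
    exact (hB t v hv).2 a b (hb a b)
  have e := congrArg (fun M => M.map (MvPolynomial.eval (Sum.elim t v))) hE
  have e' : g.1 * (D.eS + D.H t) = D.H t * g.1 := by
    have e2 : (U * (D.eS.map MvPolynomial.C + D.H (fun i => MvPolynomial.X (Sum.inl i)))).map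
        (MvPolynomial.eval (Sum.elim t v)) = g.1 * (D.eS + D.H t) := by
      rw [Matrix.map_mul, Matrix.map_add _ (map_add _), KwN_H_map, KwN_C_map, h1]
    have e3 : ((D.H (fun i => MvPolynomial.X (Sum.inl i)) + B) * U).map
        (MvPolynomial.eval (Sum.elim t v)) = D.H t * g.1 := by
      rw [Matrix.map_mul, Matrix.map_add _ (map_add _), KwN_H_map, hB0, add_zero, h1]
    rw [← e2, ← e3]
    exact e
  rw [e', Matrix.mul_assoc]
  have e4 : g.1 * (g⁻¹).1 = 1 := congrArg Subtype.val (mul_inv_cancel g)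
  rw [e4, Matrix.mul_one]

theorem kw_conj_H (hG : AlmostSimple G) (hD : IsRD G D) (t : Fin r → ℂ) (ht : ∀ β, D.rt β t ≠ 0) :
    ∃ u ∈ G, u.1 * (D.eS + D.H t) * (u⁻¹).1 = D.H t := by
  obtain ⟨U, V, -, -, h⟩ := kw_conj_poly hG hD
  obtain ⟨u, hu, -, -, h3⟩ := h t (fun β => (D.rt β t)⁻¹) fun β => mul_inv_cancel₀ (ht β)
  exact ⟨u, hu, h3⟩

end WCn
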