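import Pool.Agent.Lib.MP_c2b80f_alE.ArA
import Pool.Agent.Lib.MP_c2b80f_alE.DtA
import Pool.Agent.Lib.MP_c2b80f_alE.DtB
import Pool.Agent.Lib.MP_c2b80f_alE.DtC
import Pool.Agent.Lib.MP_c2b80f_alE.KwL
import Pool.Agent.Lib.MP_c2b80f_alE.KwN

/-!
# The data over the complex numbers (job DtD)
-/

open Matrix

set_option linter.unusedSectionVars false

namespace WCn

variable {m r : ℕ} {ι : Type} [Fintype ι] [DecidableEq ι] {G : Subgroup (SLC m)} {D : RD m r ι}

/-- The data over `ℂ` belong to the group `G` with root datum `D`. -/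
structure AD.OfC (G : Subgroup (SLC m)) (D : RD m r ι) (d : AD m r ι ℂ) : Prop where
  ok : d.Ok D
  e_eq : ∀ β, d.e β = D.e β
  mem_iff : ∀ g : SLC m, g ∈ G ↔ ∀ i, evR g.1 (d.P i) = 0
  x_zero : ∀ β a b, (d.x β a b).coeff 0 = (1 : Matrix (Fin m) (Fin m) ℂ) a b
  x_one : ∀ β a b, (d.x β a b).coeff 1 = d.e β a b
  x_mem : ∀ β (c : ℂ), ∃ g ∈ G, g.1 = (d.x β).map (Polynomial.eval c)
  sec : ∀ t : Fin r → ℂ, ∃ g ∈ G, g.1 = d.U.map (MvPolynomial.eval t) ∧ (g⁻¹).1 = d.V.map (MvPolynomial.eval t) ∧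
    g.1 * (D.eS + D.H t) * (g⁻¹).1 = D.eS + d.S.map (MvPolynomial.eval t)
  conj : ∀ (t : Fin r → ℂ) (v : ι → ℂ), (∀ β, D.rt β t * v β = 1) → ∃ g ∈ G, g.1 = d.E.map (MvPolynomial.eval (Sum.elim t v)) ∧
    (g⁻¹).1 = d.F.map (MvPolynomial.eval (Sum.elim t v)) ∧ g.1 * (D.eS + D.H t) * (g⁻¹).1 = D.H t

private theorem DtD_trace_map {S S' : Type*} [CommRing S] [CommRing S'] (f : S →+* S')
    (M : Matrix (Fin m) (Fin m) S) : (M.map f).trace = f M.trace := by
  unfold Matrix.trace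
  rw [map_sum]
  rfl

private theorem DtD_map_add {S S' : Type*} [CommRing S] [CommRing S'] (f : S →+* S')
    (M M' : Matrix (Fin m) (Fin m) S) : (M + M').map f = M.map f + M'.map f := by
  ext a b
  simp [Matrix.map_apply, Matrix.add_apply]

private theorem DtD_map_sum {κ : Type*} [Fintype κ] {S S' : Type*} [CommRing S] [CommRing S'] (f : S →+* S')
    (c : κ → S) (M : κ → Matrix (Fin m) (Fin m) S) :
    (∑ k, c k • M k).map f = ∑ k, f (c k) • (M k).map f := by
  ext a b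
  simp [Matrix.map_apply, Matrix.sum_apply, Matrix.smul_apply, map_sum, map_mul]

private theorem DtD_C {σ : Type} (t : σ → ℂ) (M : Matrix (Fin m) (Fin m) ℂ) :
    (M.map (MvPolynomial.C : ℂ →+* MvPolynomial σ ℂ)).map (MvPolynomial.eval t) = M := by
  ext1 a b
  change MvPolynomial.eval t (MvPolynomial.C (M a b)) = M a b
  rw [MvPolynomial.eval_C]

private theorem DtD_bind (q : Fin r → MvPolynomial (Fin r) ℂ) (t : Fin r → ℂ) (P : MvPolynomial (Fin r) ℂ) :
    MvPolynomial.eval t (MvPolynomial.bind₁ q P) = MvPolynomial.eval (fun i => MvPolynomial.eval t (q i)) P := by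
  induction P using MvPolynomial.induction_on with
  | C a => rw [MvPolynomial.bind₁_C_right, MvPolynomial.eval_C, MvPolynomial.eval_C]
  | add p q hp hq => rw [map_add, map_add, map_add, hp, hq]
  | mul_X p i hp => rw [map_mul, map_mul, map_mul, hp, MvPolynomial.bind₁_X_right, MvPolynomial.eval_X]

/-- Elements of the Lie algebra in terms of `z`: if `X ∈ tanG G` then `X = ∑ κ, tr(z κ X) b κ` (`hz`, and `dP (P i) X = 0`). For a matrix `S` of polynomials with `S(t) ∈ tanG G` for all `t` this gives the identity of polynomials (`mat_funext`). -/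
theorem S_lie_of_tan {N : ℕ} {P : Fin N → MvPolynomial (Fin m × Fin m) ℂ} (hP : ∀ X, X ∈ tanG G ↔ ∀ i, dP (P i) X = 0)
    {K : Fin N → Matrix (Fin m) (Fin m) ℂ} {z : Fin r ⊕ ι → Matrix (Fin m) (Fin m) ℂ}
    (hz : ∀ X : Matrix (Fin m) (Fin m) ℂ, X = ∑ κ, (z κ * X).trace • D.bC κ + ∑ i, dP (P i) X • K i)
    (S : Matrix (Fin m) (Fin m) (MvPolynomial (Fin r) ℂ)) (hS : ∀ t : Fin r → ℂ, S.map (MvPolynomial.eval t) ∈ tanG G) :
    S = ∑ κ, ((z κ).map MvPolynomial.C * S).trace • (D.bC κ).map MvPolynomial.C := by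
  refine mat_funext fun t => ?_
  have h1 := hz (S.map (MvPolynomial.eval t))
  have h2 : ∑ i, dP (P i) (S.map (MvPolynomial.eval t)) • K i = 0 :=
    Finset.sum_eq_zero fun i _ => by rw [(hP _).1 (hS t) i, zero_smul]
  rw [h2, add_zero] at h1
  refine h1.trans ?_
  rw [DtD_map_sum]
  refine Finset.sum_congr rfl fun κ _ => ?_
  rw [DtD_C, ← DtD_trace_map, Matrix.map_mul, DtD_C]

/-- Pointwise invariance gives the identity of polynomials (`mat_funext`; `MvPolynomial.eval t (bind₁ q P) = eval (fun i => eval t (q i)) P`). -/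
theorem S_inv_of_pt (S : Matrix (Fin m) (Fin m) (MvPolynomial (Fin r) ℂ)) (w : GL (Fin r) ℤ)
    (hS : ∀ t : Fin r → ℂ, S.map (MvPolynomial.eval (act w t)) = S.map (MvPolynomial.eval t)) :
    S.map (MvPolynomial.bind₁ (act w (fun i => (MvPolynomial.X i : MvPolynomial (Fin r) ℂ)))) = S := by
  refine mat_funext fun t => ?_
  refine Eq.trans ?_ (hS t)
  ext1 a b
  change MvPolynomial.eval t (MvPolynomial.bind₁ _ (S a b)) = MvPolynomial.eval (act w t) (S a b)
  rw [DtD_bind]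
  have h1 : (fun i => MvPolynomial.eval t (act w (fun i => (MvPolynomial.X i : MvPolynomial (Fin r) ℂ)) i)) =
      act w t := by
    funext i
    rw [act_map]
    simp only [MvPolynomial.eval_X]
  rw [h1]

/-- Take `P` from `exists_gens`, `K`, `z` from `exists_Kz`, `U, V, S` from `kw_section`, `E, F` from `kw_conj_poly` (`U, V` there), `x β = D.xP β` (`Eb_mem`, `xP_eval`), `e = D.e`. `P_one`: `1 ∈ G`. -/
theorem exists_dataC (hG : AlmostSimple G) (hD : IsRD G D) : ∃ d : AD m r ι ℂ, d.OfC G D := by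
  obtain ⟨N, P, hP⟩ := exists_gens G
  have htan := tan_iff_gens hP
  have hmem := mem_iff_gens hG.closed hP
  obtain ⟨K, z, hz, hdual⟩ := exists_Kz hD P htan
  obtain ⟨U, V, S, hUV, hVU, hU, hUm, hS, hSi⟩ := kw_section hG hD
  obtain ⟨E, F, hEF, hFE, hconj⟩ := kw_conj_poly hG hD
  let d : AD m r ι ℂ := ⟨N, P, K, D.e, z, S, D.xP, U, V, E, F⟩
  have hb : ∀ κ, d.b D κ = D.bC κ := by
    intro κ
    rcases κ with i | β <;> rfl
  refine ⟨d, ⟨⟨?_, ?_, ?_, ?_, ?_⟩, fun β => rfl, ?_, ?_, ?_, ?_, ?_, ?_⟩⟩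
  · intro i
    rw [evR_eq_evM]
    exact (hmem 1).1 G.one_mem i
  · intro X
    have h1 : ∑ i : Fin d.N, dR (d.P i) X • d.K i = ∑ i, dP (P i) X • K i :=
      Finset.sum_congr rfl fun i _ => by rw [dR_eq_dP]
    rw [h1]
    simp only [hb]
    exact hz X
  · intro κ κ'
    rw [hb]
    exact hdual κ κ'
  · simp only [hb]
    exact S_lie_of_tan htan hz S hS
  · intro w hw
    exact S_inv_of_pt S w fun t => hSi w hw t
  · intro g
    rw [hmem]
    exact forall_congr' fun i => by rw [evR_eq_evM]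
  · intro β a b
    exact xP_zero D β a b
  · intro β a b
    exact xP_one hD β a b
  · intro β c
    obtain ⟨g, hg, h1, -⟩ := Eb_mem hG.closed hD β c
    exact ⟨g, hg, h1.trans (xP_eval D β c).symm⟩
  · intro t
    obtain ⟨g, hg, h1, h2⟩ := hUm t
    refine ⟨g, hg, h1, h2, ?_⟩
    have h3 := congrArg (fun M : Matrix (Fin m) (Fin m) (MvPolynomial (Fin r) ℂ) => M.map (MvPolynomial.eval t)) hU
    simp only [Matrix.map_mul, DtD_map_add, DtD_C, H_map, MvPolynomial.eval_X] at h3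
    have h4 : g.1 * (g⁻¹).1 = 1 := by
      have h5 := congrArg Subtype.val (mul_inv_cancel g)
      exact h5
    have h6 : g.1 * (D.eS + D.H t) = (D.eS + S.map (MvPolynomial.eval t)) * g.1 := by
      rw [h1]
      exact h3
    change g.1 * (D.eS + D.H t) * (g⁻¹).1 = D.eS + S.map (MvPolynomial.eval t)
    rw [h6, mul_assoc, h4, mul_one]
  · intro t v hv
    exact hconj t v hv

end WCn
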