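import Pool.Agent.Lib.MP_c2b80f_alE.ArDefs

/-!
# Descent to a finitely generated ring (job DtE)

A polynomial over `ℂ` whose coefficients are in the subring `A` is the image of a polynomial over `A` (for `MvPolynomial`: `MvPolynomial.mem_range_map_iff_coeffs_subset`-like statements, or build it from the coefficients; for `Polynomial`:
`Polynomial.lifts_iff_coeff_lifts` / `Polynomial.mem_lifts`). All coefficients of the data are a finite set of complex numbers.
-/

open Matrix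

namespace WCn

variable {m r : ℕ} {ι : Type}

theorem lift_mv {σ : Type} (P : MvPolynomial σ ℂ) (A : Subring ℂ) (h : ∀ c ∈ P.support, MvPolynomial.coeff c P ∈ A) :
    ∃ Q : MvPolynomial σ A, MvPolynomial.map A.subtype Q = P := by
  refine ⟨∑ c ∈ P.support.attach, MvPolynomial.monomial c.1 (⟨MvPolynomial.coeff c.1 P, h c.1 c.2⟩ : A), ?_⟩
  rw [map_sum]
  have h1 : ∀ c ∈ P.support.attach, MvPolynomial.map A.subtype (MvPolynomial.monomial c.1 (⟨MvPolynomial.coeff c.1 P, h c.1 c.2⟩ : A)) =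
      MvPolynomial.monomial c.1 (MvPolynomial.coeff c.1 P) := by
    intro c _
    rw [MvPolynomial.map_monomial]
    rfl
  rw [Finset.sum_congr rfl h1, Finset.sum_attach P.support (fun c => MvPolynomial.monomial c (MvPolynomial.coeff c P))]
  exact P.support_sum_monomial_coeff

theorem lift_pol (P : Polynomial ℂ) (A : Subring ℂ) (h : ∀ n ∈ P.support, P.coeff n ∈ A) : ∃ Q : Polynomial A, Q.map A.subtype = P := by
  refine ⟨∑ n ∈ P.support.attach, Polynomial.monomial n.1 (⟨P.coeff n.1, h n.1 n.2⟩ : A), ?_⟩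
  rw [Polynomial.map_sum]
  have h1 : ∀ n ∈ P.support.attach, (Polynomial.monomial n.1 (⟨P.coeff n.1, h n.1 n.2⟩ : A)).map A.subtype =
      Polynomial.monomial n.1 (P.coeff n.1) := by
    intro n _
    rw [Polynomial.map_monomial]
    rfl
  rw [Finset.sum_congr rfl h1, Finset.sum_attach P.support (fun n => Polynomial.monomial n (P.coeff n))]
  exact P.as_sum_support.symm

private theorem DtE_mv {σ : Type} (P : MvPolynomial σ ℂ) :
    ∃ B : Finset ℂ, ∀ A : Subring ℂ, (∀ b ∈ B, b ∈ A) → ∃ Q : MvPolynomial σ A, MvPolynomial.map A.subtype Q = P := by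
  classical
  refine ⟨P.support.image fun c => MvPolynomial.coeff c P, fun A h => lift_mv P A fun c hc => h _ ?_⟩
  exact Finset.mem_image_of_mem (fun c => MvPolynomial.coeff c P) hc

private theorem DtE_pol (P : Polynomial ℂ) :
    ∃ B : Finset ℂ, ∀ A : Subring ℂ, (∀ b ∈ B, b ∈ A) → ∃ Q : Polynomial A, Q.map A.subtype = P := by
  classical
  refine ⟨P.support.image fun c => P.coeff c, fun A h => lift_pol P A fun c hc => h _ ?_⟩
  exact Finset.mem_image_of_mem (fun c => P.coeff c) hc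

/-- A common finite set for a finite family. -/
private theorem DtE_fam {κ : Type} [Finite κ] (Q : κ → Subring ℂ → Prop) (h : ∀ k, ∃ B : Finset ℂ, ∀ A : Subring ℂ, (∀ b ∈ B, b ∈ A) → Q k A) :
    ∃ B : Finset ℂ, ∀ A : Subring ℂ, (∀ b ∈ B, b ∈ A) → ∀ k, Q k A := by
  classical
  have : Fintype κ := Fintype.ofFinite κ
  choose B hB using h
  refine ⟨Finset.univ.biUnion B, fun A hA k => hB k A fun b hb => hA b ?_⟩
  exact Finset.mem_biUnion.2 ⟨k, Finset.mem_univ k, hb⟩

/-- Finite version for matrices of polynomials: there is a finite set of complex numbers such that the matrix lifts to every subring containing it. -/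
theorem lift_mat_mv {σ : Type} (M : Matrix (Fin m) (Fin m) (MvPolynomial σ ℂ)) :
    ∃ B : Finset ℂ, ∀ A : Subring ℂ, (∀ b ∈ B, b ∈ A) → ∃ M' : Matrix (Fin m) (Fin m) (MvPolynomial σ A), M'.map (MvPolynomial.map A.subtype) = M := by
  obtain ⟨B, hB⟩ := DtE_fam (κ := Fin m × Fin m) (fun k A => ∃ Q : MvPolynomial σ A, MvPolynomial.map A.subtype Q = M k.1 k.2)
    fun k => DtE_mv (M k.1 k.2)
  refine ⟨B, fun A hA => ?_⟩
  choose Q hQ using hB A hA
  refine ⟨Matrix.of fun a b => Q (a, b), ?_⟩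
  ext1 a b
  exact hQ (a, b)

theorem lift_mat_pol (M : Matrix (Fin m) (Fin m) (Polynomial ℂ)) :
    ∃ B : Finset ℂ, ∀ A : Subring ℂ, (∀ b ∈ B, b ∈ A) → ∃ M' : Matrix (Fin m) (Fin m) (Polynomial A), M'.map (Polynomial.map A.subtype) = M := by
  obtain ⟨B, hB⟩ := DtE_fam (κ := Fin m × Fin m) (fun k A => ∃ Q : Polynomial A, Q.map A.subtype = M k.1 k.2)
    fun k => DtE_pol (M k.1 k.2)
  refine ⟨B, fun A hA => ?_⟩
  choose Q hQ using hB A hA
  refine ⟨Matrix.of fun a b => Q (a, b), ?_⟩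
  ext1 a b
  exact hQ (a, b)

theorem lift_mat (M : Matrix (Fin m) (Fin m) ℂ) :
    ∃ B : Finset ℂ, ∀ A : Subring ℂ, (∀ b ∈ B, b ∈ A) → ∃ M' : Matrix (Fin m) (Fin m) A, M'.map A.subtype = M := by
  classical
  refine ⟨Finset.univ.image fun k : Fin m × Fin m => M k.1 k.2, fun A hA => ?_⟩
  refine ⟨Matrix.of fun a b => (⟨M a b, hA _ ?_⟩ : A), ?_⟩
  · exact Finset.mem_image_of_mem (fun k : Fin m × Fin m => M k.1 k.2) (Finset.mem_univ (a, b))
  · ext1 a b
    rfl

/-- The union of the finite sets for the finitely many matrices and polynomials of the data, and `A₀`. -/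
theorem exists_descend [Finite ι] (d : AD m r ι ℂ) (A₀ : Finset ℂ) :
    ∃ A₁ : Finset ℂ, A₀ ⊆ A₁ ∧ ∃ d' : AD m r ι (Subring.closure (A₁ : Set ℂ)), d'.map (Subring.closure (A₁ : Set ℂ)).subtype = d := by
  classical
  obtain ⟨BP, hP⟩ := DtE_fam (fun k A => ∃ Q : MvPolynomial (Fin m × Fin m) A, MvPolynomial.map A.subtype Q = d.P k) fun k => DtE_mv (d.P k)
  obtain ⟨BK, hK⟩ := DtE_fam (fun k A => ∃ Q : Matrix (Fin m) (Fin m) A, Q.map A.subtype = d.K k) fun k => lift_mat (d.K k)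
  obtain ⟨Be, he⟩ := DtE_fam (fun k A => ∃ Q : Matrix (Fin m) (Fin m) A, Q.map A.subtype = d.e k) fun k => lift_mat (d.e k)
  obtain ⟨Bz, hz⟩ := DtE_fam (fun k A => ∃ Q : Matrix (Fin m) (Fin m) A, Q.map A.subtype = d.z k) fun k => lift_mat (d.z k)
  obtain ⟨Bx, hx⟩ := DtE_fam (fun k A => ∃ Q : Matrix (Fin m) (Fin m) (Polynomial A), Q.map (Polynomial.map A.subtype) = d.x k)
    fun k => lift_mat_pol (d.x k)
  obtain ⟨BS, hS⟩ := lift_mat_mv d.S
  obtain ⟨BU, hU⟩ := lift_mat_mv d.U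
  obtain ⟨BV, hV⟩ := lift_mat_mv d.V
  obtain ⟨BE, hE⟩ := lift_mat_mv d.E
  obtain ⟨BF, hF⟩ := lift_mat_mv d.F
  obtain ⟨A₁, hA₁⟩ : ∃ A₁ : Finset ℂ, A₁ = A₀ ∪ (BP ∪ (BK ∪ (Be ∪ (Bz ∪ (Bx ∪ (BS ∪ (BU ∪ (BV ∪ (BE ∪ BF))))))))) := ⟨_, rfl⟩
  have hmem : ∀ B : Finset ℂ, B ⊆ A₁ → ∀ b ∈ B, b ∈ Subring.closure (A₁ : Set ℂ) := fun B hB b hb => Subring.subset_closure (hB hb)
  refine ⟨A₁, ?_, ?_⟩
  · intro b hb
    rw [hA₁]
    exact Finset.mem_union_left _ hb
  choose P' hP' using hP _ (hmem BP fun b hb => by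
    rw [hA₁]
    simp only [Finset.mem_union]
    tauto)
  choose K' hK' using hK _ (hmem BK fun b hb => by
    rw [hA₁]
    simp only [Finset.mem_union]
    tauto)
  choose e' he' using he _ (hmem Be fun b hb => by
    rw [hA₁]
    simp only [Finset.mem_union]
    tauto)
  choose z' hz' using hz _ (hmem Bz fun b hb => by
    rw [hA₁]
    simp only [Finset.mem_union]
    tauto)
  choose x' hx' using hx _ (hmem Bx fun b hb => by
    rw [hA₁]
    simp only [Finset.mem_union]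
    tauto)
  obtain ⟨S', hS'⟩ := hS _ (hmem BS fun b hb => by
    rw [hA₁]
    simp only [Finset.mem_union]
    tauto)
  obtain ⟨U', hU'⟩ := hU _ (hmem BU fun b hb => by
    rw [hA₁]
    simp only [Finset.mem_union]
    tauto)
  obtain ⟨V', hV'⟩ := hV _ (hmem BV fun b hb => by
    rw [hA₁]
    simp only [Finset.mem_union]
    tauto)
  obtain ⟨E', hE'⟩ := hE _ (hmem BE fun b hb => by
    rw [hA₁]
    simp only [Finset.mem_union]
    tauto)
  obtain ⟨F', hF'⟩ := hF _ (hmem BF fun b hb => by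
    rw [hA₁]
    simp only [Finset.mem_union]
    tauto)
  refine ⟨⟨d.N, P', K', e', z', S', x', U', V', E', F'⟩, ?_⟩
  obtain ⟨N, P, K, e, z, S, x, U, V, E, F⟩ := d
  unfold AD.map
  simp only [hP', hK', he', hz', hx', hS', hU', hV', hE', hF']

end WCn
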