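import Pool.Agent.Lib.MP_c2b80f_alE.DtD
import Pool.Agent.Lib.MP_c2b80f_alE.DtE
import Pool.Agent.Lib.MP_c2b80f_alE.DtM

/-!
# Existence of the data over a finitely generated ring (job DtG)
-/

open Matrix

namespace WCn

variable {m r : ℕ} {ι : Type} [Fintype ι] [DecidableEq ι] {G : Subgroup (SLC m)} {D : RD m r ι}

/-- From `exists_dataC`, `exists_descend` and `AD.Ok.of_map` (`Subtype.val_injective`). `MvPolynomial.eval₂ f t P = eval t (map f P)`. For `x_zero`, `x_one` use injectivity of `A.subtype` on coefficients. -/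
theorem dt_exists_data (hG : AlmostSimple G) (hD : IsRD G D) (A₀ : Finset ℂ) :
    ∃ A₁ : Finset ℂ, A₀ ⊆ A₁ ∧ ∃ d : AD m r ι (Subring.closure (A₁ : Set ℂ)), d.Of G D := by
  obtain ⟨dC, hdC⟩ := exists_dataC hG hD
  obtain ⟨A₁, hA, d, hd⟩ := exists_descend dC A₀
  refine ⟨A₁, hA, d, ?_⟩
  subst hd
  have hmv : ∀ {σ : Type} (M : Matrix (Fin m) (Fin m) (MvPolynomial σ (Subring.closure (A₁ : Set ℂ)))) (t : σ → ℂ),
      (M.map (MvPolynomial.map (Subring.closure (A₁ : Set ℂ)).subtype)).map (MvPolynomial.eval t) =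
        M.map (MvPolynomial.eval₂ (Subring.closure (A₁ : Set ℂ)).subtype t) := by
    intro σ M t
    ext a b
    simp only [Matrix.map_apply]
    exact MvPolynomial.eval_map _ _ _
  refine ⟨AD.Ok.of_map (Subring.closure (A₁ : Set ℂ)).subtype Subtype.val_injective hdC.ok, hdC.e_eq, hdC.mem_iff, ?_, ?_, ?_, ?_, ?_⟩
  · intro β a b
    apply Subtype.val_injective
    have h1 := hdC.x_zero β a b
    have h2 : (((d.map (Subring.closure (A₁ : Set ℂ)).subtype).x β a b).coeff 0) = (((d.x β a b).coeff 0 : Subring.closure (A₁ : Set ℂ)) : ℂ) := by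
      show ((d.x β a b).map (Subring.closure (A₁ : Set ℂ)).subtype).coeff 0 = _
      rw [Polynomial.coeff_map]
      rfl
    rw [h2] at h1
    rw [h1]
    by_cases hab : a = b
    · subst hab
      rw [Matrix.one_apply_eq, Matrix.one_apply_eq]
      rfl
    · rw [Matrix.one_apply_ne hab, Matrix.one_apply_ne hab]
      rfl
  · intro β a b
    apply Subtype.val_injective
    have h1 := hdC.x_one β a b
    have h2 : (((d.map (Subring.closure (A₁ : Set ℂ)).subtype).x β a b).coeff 1) = (((d.x β a b).coeff 1 : Subring.closure (A₁ : Set ℂ)) : ℂ) := by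
      show ((d.x β a b).map (Subring.closure (A₁ : Set ℂ)).subtype).coeff 1 = _
      rw [Polynomial.coeff_map]
      rfl
    rw [h2] at h1
    rw [h1]
    rfl
  · intro β c
    obtain ⟨g, hg, e⟩ := hdC.x_mem β c
    refine ⟨g, hg, ?_⟩
    rw [e]
    ext a b
    simp only [Matrix.map_apply]
    show Polynomial.eval c ((d.x β a b).map (Subring.closure (A₁ : Set ℂ)).subtype) = _
    rw [Polynomial.eval_map]
  · intro t
    obtain ⟨g, hg, e1, e2, e3⟩ := hdC.sec t
    refine ⟨g, hg, ?_, ?_, ?_⟩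
    · rw [e1]
      exact hmv d.U t
    · rw [e2]
      exact hmv d.V t
    · rw [e3]
      have h1 : (d.map (Subring.closure (A₁ : Set ℂ)).subtype).S.map (MvPolynomial.eval t) =
          d.Sv (Subring.closure (A₁ : Set ℂ)).subtype t := hmv d.S t
      rw [h1]
  · intro t v htv
    obtain ⟨g, hg, e1, e2, e3⟩ := hdC.conj t v htv
    refine ⟨g, hg, ?_, ?_, e3⟩
    · rw [e1]
      exact hmv d.E (Sum.elim t v)
    · rw [e2]
      exact hmv d.F (Sum.elim t v)

end WCn
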