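import Pool.Agent.Lib.MP_c2b80f_alE.UDefs

/-!
# Twisted points over finite fields (job FfA)
-/

open Matrix

namespace WCn

variable {r : ℕ}

/-- An integral vector outside finitely many hyperplanes. (For instance `h = (1, x, x², ...)` with `x` not a root of the finitely many nonzero polynomials `∑ ν i X ^ i`; or induction.) -/
theorem exists_generic_int (𝒩 : Finset (Fin r → ℤ)) (h𝒩 : ∀ ν ∈ 𝒩, ν ≠ 0) : ∃ h : Fin r → ℤ, ∀ ν ∈ 𝒩, ∑ i, ν i * h i ≠ 0 := by
  classical
  let P : (Fin r → ℤ) → Polynomial ℤ := fun ν => ∑ i : Fin r, Polynomial.C (ν i) * Polynomial.X ^ (i : ℕ)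
  have hco : ∀ (ν : Fin r → ℤ) (i : Fin r), (P ν).coeff i = ν i := by
    intro ν i
    change (∑ j : Fin r, Polynomial.C (ν j) * Polynomial.X ^ (j : ℕ)).coeff i = ν i
    rw [Polynomial.finsetSum_coeff, Finset.sum_eq_single i]
    · rw [Polynomial.coeff_C_mul_X_pow, if_pos rfl]
    · intro j _ hj
      rw [Polynomial.coeff_C_mul_X_pow, if_neg]
      intro h
      exact hj (Fin.ext h.symm)
    · intro h
      exact absurd (Finset.mem_univ i) h
  have hP : ∀ ν ∈ 𝒩, P ν ≠ 0 := by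
    intro ν hν h0
    apply h𝒩 ν hν
    funext i
    rw [← hco ν i, h0, Polynomial.coeff_zero, Pi.zero_apply]
  have hQ : (∏ ν ∈ 𝒩, P ν) ≠ 0 := Finset.prod_ne_zero_iff.2 hP
  obtain ⟨x, hx⟩ : ∃ x : ℤ, (∏ ν ∈ 𝒩, P ν).eval x ≠ 0 := by
    by_contra h
    push Not at h
    exact hQ (Polynomial.funext fun y => by rw [h y, Polynomial.eval_zero])
  refine ⟨fun i => x ^ (i : ℕ), fun ν hν h0 => hx ?_⟩
  rw [Polynomial.eval_prod]
  refine Finset.prod_eq_zero hν ?_
  change (∑ j : Fin r, Polynomial.C (ν j) * Polynomial.X ^ (j : ℕ)).eval x = 0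
  rw [Polynomial.eval_finsetSum, ← h0]
  refine Finset.sum_congr rfl fun i _ => ?_
  rw [Polynomial.eval_mul, Polynomial.eval_C, Polynomial.eval_pow, Polynomial.eval_X]

/-- In a finite field with `q = p ^ M` elements (`M ≥ 1`, characteristic `p`), finitely many nonzero polynomials of the form `∑ j < M, c j X ^ (p ^ j)` have a common non-zero: each has at most `p ^ (M - 1)` roots, and the number of the polynomials is less than `p`. -/
theorem exists_common_nonroot {p : ℕ} [Fact p.Prime] (k : Type) [Field k] [Finite k] [Algebra (ZMod p) k] {M : ℕ} (hM : 0 < M)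
    (hk : Nat.card k = p ^ M) {κ : Type} [Fintype κ] (hκ : Fintype.card κ < p) (c : κ → ℕ → k) (hc : ∀ x, c x 0 ≠ 0) :
    ∃ a : k, ∀ x, ∑ j ∈ Finset.range M, c x j * a ^ (p ^ j) ≠ 0 := by
  classical
  have hp : 1 < p := (Fact.out : p.Prime).one_lt
  let Q : κ → Polynomial k := fun x => ∑ j ∈ Finset.range M, Polynomial.C (c x j) * Polynomial.X ^ (p ^ j)
  have hQ0 : ∀ x, Q x ≠ 0 := by
    intro x h0
    apply hc x
    have h1 : (Q x).coeff 1 = c x 0 := by
      change (∑ j ∈ Finset.range M, Polynomial.C (c x j) * Polynomial.X ^ (p ^ j)).coeff 1 = c x 0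
      rw [Polynomial.finsetSum_coeff, Finset.sum_eq_single 0]
      · rw [Polynomial.coeff_C_mul_X_pow, if_pos (by rw [pow_zero])]
      · intro j _ hj
        rw [Polynomial.coeff_C_mul_X_pow, if_neg]
        intro h
        exact hj (Nat.pow_right_injective hp (h.symm.trans (pow_zero p).symm))
      · intro h
        exact absurd (Finset.mem_range.2 hM) h
    rw [← h1, h0, Polynomial.coeff_zero]
  have hQd : ∀ x, (Q x).natDegree ≤ p ^ (M - 1) := by
    intro x
    refine Polynomial.natDegree_sum_le_of_forall_le _ _ fun j hj => ?_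
    refine (Polynomial.natDegree_C_mul_X_pow_le _ _).trans ?_
    exact Nat.pow_le_pow_right (by omega) (by have := Finset.mem_range.1 hj; omega)
  have hP0 : (∏ x, Q x) ≠ 0 := Finset.prod_ne_zero_iff.2 fun x _ => hQ0 x
  have hPd : (∏ x, Q x).natDegree < p ^ M := by
    refine lt_of_le_of_lt (Polynomial.natDegree_prod_le _ _) ?_
    refine lt_of_le_of_lt (Finset.sum_le_sum fun x _ => hQd x) ?_
    rw [Finset.sum_const, smul_eq_mul, Finset.card_univ]
    obtain ⟨M', rfl⟩ : ∃ M', M = M' + 1 := ⟨M - 1, by omega⟩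
    rw [Nat.add_sub_cancel, pow_succ, mul_comm]
    exact Nat.mul_lt_mul_of_pos_left hκ (by positivity)
  obtain ⟨a, ha⟩ : ∃ a, (∏ x, Q x).eval a ≠ 0 := by
    refine Polynomial.exists_eval_ne_zero_of_natDegree_lt_card _ hP0 ?_
    rw [← Nat.cast_card, hk]
    exact_mod_cast hPd
  refine ⟨a, fun x h0 => ha ?_⟩
  rw [Polynomial.eval_prod]
  refine Finset.prod_eq_zero (Finset.mem_univ x) ?_
  change (∑ j ∈ Finset.range M, Polynomial.C (c x j) * Polynomial.X ^ (p ^ j)).eval a = 0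
  rw [Polynomial.eval_finsetSum, ← h0]
  refine Finset.sum_congr rfl fun i _ => ?_
  rw [Polynomial.eval_mul, Polynomial.eval_C, Polynomial.eval_pow, Polynomial.eval_X]

private theorem ffA_act_one {R : Type*} [CommRing R] (t : Fin r → R) : act (1 : GL (Fin r) ℤ) t = t := by
  funext i
  unfold act
  rw [Finset.sum_eq_single i]
  · rw [Units.val_one, Matrix.one_apply_eq, Int.cast_one, one_mul]
  · intro j _ hj
    rw [Units.val_one, Matrix.one_apply_ne (Ne.symm hj), Int.cast_zero, zero_mul]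
  · intro h
    exact absurd (Finset.mem_univ i) h

private theorem ffA_act_mul {R : Type*} [CommRing R] (w w' : GL (Fin r) ℤ) (t : Fin r → R) :
    act (w * w') t = act w (act w' t) := by
  funext i
  unfold act
  simp only [Units.val_mul, Matrix.mul_apply, Int.cast_sum, Int.cast_mul, Finset.sum_mul,
    Finset.mul_sum]
  rw [Finset.sum_comm]
  refine Finset.sum_congr rfl fun j _ => Finset.sum_congr rfl fun l _ => ?_
  ring

private theorem ffA_act_cast {R : Type*} [CommRing R] (w : GL (Fin r) ℤ) (h : Fin r → ℤ) :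
    act w (fun i => (h i : R)) = fun i => ((act w h i : ℤ) : R) := by
  funext i
  unfold act
  rw [Int.cast_sum]
  refine Finset.sum_congr rfl fun j _ => ?_
  rw [Int.cast_mul, Int.cast_id]

private theorem ffA_act_sum {R : Type*} [CommRing R] (w : GL (Fin r) ℤ) (M : ℕ) (b : ℕ → R)
    (g : ℕ → Fin r → R) (i : Fin r) :
    act w (fun l => ∑ j ∈ Finset.range M, b j * g j l) i = ∑ j ∈ Finset.range M, b j * act w (g j) i := by
  unfold act
  simp only [Finset.mul_sum]
  rw [Finset.sum_comm]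
  refine Finset.sum_congr rfl fun j _ => Finset.sum_congr rfl fun l _ => ?_
  ring

/-- Let `h` be as in `exists_generic_int`, `P₀ = |𝒩| + ∑ |∑ ν i h i|` (so these numbers are not divisible by `p > P₀`). For `a ∈ k` put `t = ∑ j < M, a ^ (p ^ j) • act (w⁻¹ ^ j) h` (`h` in `k`). Then `t i ^ p = act w t i` because `a ^ (p ^ M) = a`, `w ^ M = 1` (reindex;
`frobenius` is additive, integers are fixed by it), and `∑ ν i t i = ∑ j, a ^ (p ^ j) * c j` with `c 0 = ∑ ν i h i ≠ 0` in `k`; choose `a` by `exists_common_nonroot`. -/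
theorem exists_twisted (𝒩 : Finset (Fin r → ℤ)) (h𝒩 : ∀ ν ∈ 𝒩, ν ≠ 0) :
    ∃ P₀ : ℕ, ∀ (p : ℕ) [Fact p.Prime], P₀ < p → ∀ (M : ℕ), 0 < M → ∀ w : GL (Fin r) ℤ, w ^ M = 1 →
      ∀ (k : Type) [Field k] [Finite k] [Algebra (ZMod p) k], Nat.card k = p ^ M →
        ∃ t : Fin r → k, (∀ i, t i ^ p = act w t i) ∧ ∀ ν ∈ 𝒩, ∑ i, (ν i : k) * t i ≠ 0 := by
  obtain ⟨h, hh⟩ := exists_generic_int 𝒩 h𝒩
  refine ⟨𝒩.card + ∑ ν ∈ 𝒩, (∑ i, ν i * h i).natAbs, ?_⟩
  intro p _ hp M hM w hw k _ _ _ hk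
  have : CharP k p := charP_of_injective_algebraMap (algebraMap (ZMod p) k).injective p
  have hn : ∀ ν ∈ 𝒩, ((∑ i, ν i * h i : ℤ) : k) ≠ 0 := by
    intro ν hν h0
    rw [CharP.intCast_eq_zero_iff k p] at h0
    have h1 := Nat.le_of_dvd (Int.natAbs_pos.2 (hh ν hν)) (Int.natCast_dvd.1 h0)
    have h2 : (∑ i, ν i * h i).natAbs ≤ ∑ ν ∈ 𝒩, (∑ i, ν i * h i).natAbs :=
      Finset.single_le_sum (f := fun ν : Fin r → ℤ => (∑ i, ν i * h i).natAbs) (fun _ _ => Nat.zero_le _) hν
    omega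
  have hpk : ∀ a : k, a ^ (p ^ M) = a := by
    intro a
    have := Fintype.ofFinite k
    have h1 := FiniteField.pow_card a
    rw [Fintype.card_eq_nat_card, hk] at h1
    exact h1
  let G : ℕ → Fin r → ℤ := fun j => act (w⁻¹ ^ j) h
  have hG0 : G 0 = h := by
    change act (w⁻¹ ^ 0) h = h
    rw [pow_zero, ffA_act_one]
  have hGs : ∀ j, act w (G (j + 1)) = G j := by
    intro j
    change act w (act (w⁻¹ ^ (j + 1)) h) = act (w⁻¹ ^ j) h
    rw [← ffA_act_mul, pow_succ', ← mul_assoc, mul_inv_cancel, one_mul]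
  obtain ⟨a, ha⟩ := exists_common_nonroot (p := p) k hM hk (κ := {ν // ν ∈ 𝒩})
    (by rw [Fintype.card_coe]; omega) (fun ν j => ((∑ i, ν.1 i * G j i : ℤ) : k)) (by
      intro ν
      rw [hG0]
      exact hn ν.1 ν.2)
  refine ⟨fun i => ∑ j ∈ Finset.range M, a ^ (p ^ j) * (G j i : k), fun i => ?_, fun ν hν h0 => ?_⟩
  · have h1 : act w (fun i => ∑ j ∈ Finset.range M, a ^ (p ^ j) * (G j i : k)) i =
        ∑ j ∈ Finset.range M, a ^ (p ^ j) * ((act w (G j) i : ℤ) : k) := by
      rw [ffA_act_sum w M (fun j => a ^ (p ^ j)) (fun j i => (G j i : k)) i]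
      refine Finset.sum_congr rfl fun j _ => ?_
      rw [ffA_act_cast]
    have h2 : (∑ j ∈ Finset.range M, a ^ (p ^ j) * (G j i : k)) ^ p =
        ∑ j ∈ Finset.range M, a ^ (p ^ (j + 1)) * (G j i : k) := by
      have h3 := map_sum (frobenius k p) (fun j => a ^ (p ^ j) * (G j i : k)) (Finset.range M)
      rw [frobenius_def] at h3
      rw [h3]
      refine Finset.sum_congr rfl fun j _ => ?_
      rw [map_mul, map_intCast, frobenius_def, ← pow_mul, ← pow_succ]
    rw [h1, h2]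
    obtain ⟨M', rfl⟩ : ∃ M', M = M' + 1 := ⟨M - 1, by omega⟩
    rw [Finset.sum_range_succ, Finset.sum_range_succ', hpk]
    have h4 : G M' = act w (G 0) := by
      change act (w⁻¹ ^ M') h = act w (act (w⁻¹ ^ 0) h)
      have h5 : w⁻¹ ^ M' = w := by
        have h6 : w⁻¹ ^ (M' + 1) = 1 := by rw [inv_pow, hw, inv_one]
        rw [pow_succ] at h6
        exact mul_inv_eq_one.1 h6
      rw [h5, pow_zero, ffA_act_one]
    rw [h4, pow_zero, pow_one]
    refine congrArg (· + a * ((act w (G 0) i : ℤ) : k)) (Finset.sum_congr rfl fun j _ => ?_)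
    rw [hGs j]
  · apply ha ⟨ν, hν⟩
    rw [← h0]
    simp only [Finset.mul_sum, Int.cast_sum, Finset.sum_mul, Int.cast_mul]
    rw [Finset.sum_comm]
    refine Finset.sum_congr rfl fun i _ => Finset.sum_congr rfl fun j _ => ?_
    ring

end WCn
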