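import Pool.Agent.Lib.MP_c2b80f_alE.NwD

/-!
# Weights and the Weyl group (job JhB)
-/

open Matrix

namespace WCn

variable {m r : ℕ} {ι : Type}

/-- Pairing of weights with `act w t`. -/
theorem wt_act {R : Type*} [CommRing R] {D : RD m r ι} (w : GL (Fin r) ℤ) {a b : Fin m} (h : ∀ i, D.wt b i = ∑ l, D.wt a l * w.1 l i) (t : Fin r → R) :
    ∑ i, (D.wt a i : R) * act w t i = ∑ i, (D.wt b i : R) * t i := by
  unfold act
  simp only [Finset.mul_sum]
  rw [Finset.sum_comm]
  refine Finset.sum_congr rfl fun i _ => ?_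
  rw [h i]
  push_cast
  rw [Finset.sum_mul]
  exact Finset.sum_congr rfl fun l _ => (mul_assoc _ _ _).symm

private theorem JhB_act_single (w : GL (Fin r) ℤ) (i j : Fin r) :
    act w (Pi.single j (1 : ℂ)) i = ((w.1 i j : ℤ) : ℂ) := by
  unfold act
  rw [Finset.sum_eq_single j]
  · rw [Pi.single_eq_same, mul_one]
  · intro l _ hl
    rw [Pi.single_eq_of_ne hl, mul_zero]
  · intro h
    exact absurd (Finset.mem_univ _) h

variable [Fintype ι] [DecidableEq ι] {G : Subgroup (SLC m)} {D : RD m r ι}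

/-- `w ↦ q` (`IsRD.weyl_perm`, `Classical.choose`) is injective: if `root β ᵥ* w = root β ᵥ* w'` for all `β` then `w = w'` since the roots span `ℚ^r` (`roots_span`; or: `D.rt β (act w t) = D.rt β (act w' t)` for all `β`, `t : Fin r → ℂ`, `eq_zero_of_rt`, then
`t = Pi.single j 1`). So `D.W` embeds into the finite type `Equiv.Perm ι` (`Finite.of_injective`). -/
theorem IsRD.weyl_finite (hD : IsRD G D) : Finite D.W := by
  have hq : ∀ w : D.W, ∃ q : Equiv.Perm ι, ∀ β, Matrix.vecMul (D.root β) w.1.1 = D.root (q β) :=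
    fun w => hD.weyl_perm w.2
  choose q hq using hq
  refine Finite.of_injective q fun w w' h => ?_
  have h1 : ∀ t : Fin r → ℂ, act w.1 t = act w'.1 t := by
    intro t
    have h2 : act w.1 t + (-1 : ℂ) • act w'.1 t = 0 := by
      refine hD.eq_zero_of_rt _ fun β => ?_
      rw [RD.rt_add, RD.rt_smul, rt_act w.1 (hq w β) t, rt_act w'.1 (hq w' β) t, h]
      ring
    rw [neg_one_smul, ← sub_eq_add_neg] at h2
    exact sub_eq_zero.1 h2
  refine Subtype.ext (Units.ext (Matrix.ext fun i j => ?_))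
  have h3 := congrFun (h1 (Pi.single j (1 : ℂ))) i
  rw [JhB_act_single, JhB_act_single] at h3
  exact Int.cast_injective h3

/-- The weights span: `D.H t = 0` implies `t = 0` (`H_inj`). -/
theorem IsRD.wt_sep (hD : IsRD G D) (t : Fin r → ℂ) (h : ∀ a, ∑ i, (D.wt a i : ℂ) * t i = 0) : t = 0 := by
  refine hD.H_inj ?_
  unfold RD.H
  refine congrArg Matrix.diagonal (funext fun a => ?_)
  rw [h a]
  simp only [Pi.zero_apply, mul_zero, Finset.sum_const_zero]

/-- If `n H(t) n⁻¹ = H(w t)` for all `t` and the entry `n a b` is not zero then `wt b = wt a ∘ w`.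
Proof. `n H(t) = H(w t) n`; entry `(a, b)`: `n a b * (∑ wt b i * t i) = (∑ wt a l * (act w t) l) * n a b`. Cancel `n a b` and take `t = Pi.single i 1`; cast to integers. -/
theorem wt_of_entry {D : RD m r ι} {n : SLC m} {w : GL (Fin r) ℤ} (hw : ∀ t : Fin r → ℂ, n.1 * D.H t * (n⁻¹).1 = D.H (act w t)) {a b : Fin m} (hab : n.1 a b ≠ 0) :
    ∀ i, D.wt b i = ∑ l, D.wt a l * w.1 l i := by
  intro i
  have h1 := hw (Pi.single i (1 : ℂ))
  have hinv : (n⁻¹).1 * n.1 = 1 := congrArg Subtype.val (inv_mul_cancel n)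
  have h2 : n.1 * D.H (Pi.single i (1 : ℂ)) = D.H (act w (Pi.single i (1 : ℂ))) * n.1 := by
    rw [← h1, Matrix.mul_assoc, hinv, Matrix.mul_one]
  have h3 := congrFun (congrFun h2 a) b
  unfold RD.H at h3
  rw [Matrix.mul_diagonal, Matrix.diagonal_mul, mul_comm] at h3
  have h4 := mul_right_cancel₀ hab h3
  have h5 : ∑ l, (D.wt b l : ℂ) * (Pi.single i (1 : ℂ) : Fin r → ℂ) l = (D.wt b i : ℂ) := by
    rw [Finset.sum_eq_single i]
    · rw [Pi.single_eq_same, mul_one]
    · intro l _ hl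
      rw [Pi.single_eq_of_ne hl, mul_zero]
    · intro h
      exact absurd (Finset.mem_univ _) h
  have h6 : ∑ l, (D.wt a l : ℂ) * act w (Pi.single i (1 : ℂ)) l =
      ((∑ l, D.wt a l * w.1 l i : ℤ) : ℂ) := by
    push_cast
    exact Finset.sum_congr rfl fun l _ => by rw [JhB_act_single]
  rw [h5, h6] at h4
  exact Int.cast_injective h4

/-- The rows of an invertible matrix are not zero. -/
theorem exists_entry_ne (n : SLC m) (a : Fin m) : ∃ b, n.1 a b ≠ 0 := by
  by_contra h
  have h1 : ∀ b, n.1 a b = 0 := fun b => by_contra fun hb => h ⟨b, hb⟩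
  have h2 : n.1.det = 0 := Matrix.det_eq_zero_of_row_eq_zero a h1
  rw [n.2] at h2
  exact one_ne_zero h2

/-- The weights are stable under the Weyl group: `exists_of_weyl`, `exists_entry_ne`, `wt_of_entry`. -/
theorem wt_stable (hG : AlmostSimple G) (hD : IsRD G D) {w : GL (Fin r) ℤ} (hw : w ∈ D.W) (a : Fin m) : ∃ b, ∀ i, D.wt b i = ∑ l, D.wt a l * w.1 l i := by
  obtain ⟨n, _, hn⟩ := exists_of_weyl hG hD hw
  obtain ⟨b, hb⟩ := exists_entry_ne n a
  exact ⟨b, wt_of_entry hn hb⟩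

end WCn
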