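import Pool.Agent.Lib.MP_c2b80f_alE.NwC

/-!
# The Weyl group in coordinates (job NwW)

`D.s β = 1 - vecMulVec (D.coroot β) (D.root β)`, `D.W = closure {w | ∃ β, w.1 = D.s β}`, `act w t i = ∑ j, (w.1 i j : R) * t j`.
-/

open Matrix

namespace WCn

variable {m r : ℕ} {ι : Type}

private theorem NwW_act {R : Type*} [CommRing R] (w : GL (Fin r) ℤ) (t : Fin r → R) :
    act w t = (w.1.map (Int.castRingHom R)).mulVec t := rfl

theorem act_one {R : Type*} [CommRing R] (t : Fin r → R) : act (1 : GL (Fin r) ℤ) t = t := by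
  rw [NwW_act, Units.val_one, Matrix.map_one _ (map_zero _) (map_one _), Matrix.one_mulVec]

theorem act_mul {R : Type*} [CommRing R] (w w' : GL (Fin r) ℤ) (t : Fin r → R) : act (w * w') t = act w (act w' t) := by
  rw [NwW_act, NwW_act, NwW_act, Units.val_mul, Matrix.map_mul, Matrix.mulVec_mulVec]

theorem act_add {R : Type*} [CommRing R] (w : GL (Fin r) ℤ) (t t' : Fin r → R) : act w (t + t') = act w t + act w t' := by
  rw [NwW_act, NwW_act, NwW_act, Matrix.mulVec_add]

theorem act_smul {R : Type*} [CommRing R] (w : GL (Fin r) ℤ) (c : R) (t : Fin r → R) : act w (c • t) = c • act w t := by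
  rw [NwW_act, NwW_act, Matrix.mulVec_smul]

theorem act_s {R : Type*} [CommRing R] {D : RD m r ι} {w : GL (Fin r) ℤ} {β : ι} (hw : w.1 = D.s β) (t : Fin r → R) (i : Fin r) :
    act w t i = t i - D.rt β t * (D.coroot β i : R) := by
  unfold act RD.rt
  rw [hw]
  unfold RD.s
  have h1 : ∀ j, (((1 - Matrix.vecMulVec (D.coroot β) (D.root β) : Matrix (Fin r) (Fin r) ℤ) i j : ℤ) : R) * t j
      = (if i = j then t j else 0) - ((D.root β j : R) * t j) * (D.coroot β i : R) := by
    intro j
    rw [Matrix.sub_apply, Matrix.vecMulVec_apply, Matrix.one_apply]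
    split_ifs
    · push_cast
      ring
    · push_cast
      ring
  rw [Finset.sum_congr rfl fun j _ => h1 j, Finset.sum_sub_distrib, Finset.sum_ite_eq, if_pos (Finset.mem_univ i),
    ← Finset.sum_mul]

/-- If `γ = β ∘ w` as integral row vectors then `β(w t) = γ(t)`. -/
theorem rt_act {R : Type*} [CommRing R] {D : RD m r ι} (w : GL (Fin r) ℤ) {β γ : ι} (h : Matrix.vecMul (D.root β) w.1 = D.root γ) (t : Fin r → R) :
    D.rt β (act w t) = D.rt γ t := by
  unfold act RD.rt
  have h1 : ∀ j, ((D.root γ j : ℤ) : R) = ∑ i, (D.root β i : R) * (w.1 i j : R) := by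
    intro j
    rw [← congrFun h j]
    show ((∑ i, D.root β i * w.1 i j : ℤ) : R) = _
    push_cast
    rfl
  simp only [h1, Finset.mul_sum, Finset.sum_mul]
  rw [Finset.sum_comm]
  refine Finset.sum_congr rfl fun j _ => Finset.sum_congr rfl fun i _ => ?_
  ring

private theorem NwW_vecMul (D : RD m r ι) (v : Fin r → ℤ) (β : ι) :
    Matrix.vecMul v (D.s β) = v - (∑ i, v i * D.coroot β i) • D.root β := by
  unfold RD.s
  rw [Matrix.vecMul_sub, Matrix.vecMul_one, Matrix.vecMul_vecMulVec]
  rfl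

variable [Fintype ι] [DecidableEq ι] {G : Subgroup (SLC m)} {D : RD m r ι}

/-- `D.s β * D.s β = 1` by `IsRD.two`. -/
theorem IsRD.exists_s (hD : IsRD G D) (β : ι) : ∃ w : GL (Fin r) ℤ, w.1 = D.s β ∧ w ∈ D.W := by
  have h : D.s β * D.s β = 1 := by
    unfold RD.s
    have h1 : Matrix.vecMulVec (D.coroot β) (D.root β) * Matrix.vecMulVec (D.coroot β) (D.root β)
        = (2 : ℤ) • Matrix.vecMulVec (D.coroot β) (D.root β) := by
      ext i j
      rw [Matrix.mul_apply, Matrix.smul_apply, ← hD.two β, smul_eq_mul, Finset.sum_mul]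
      refine Finset.sum_congr rfl fun k _ => ?_
      rw [Matrix.vecMulVec_apply, Matrix.vecMulVec_apply, Matrix.vecMulVec_apply]
      ring
    rw [Matrix.sub_mul, Matrix.mul_sub, Matrix.mul_sub, Matrix.one_mul, Matrix.mul_one, Matrix.one_mul, h1, two_smul]
    abel
  refine ⟨⟨D.s β, D.s β, h, h⟩, rfl, Subgroup.subset_closure ⟨β, rfl⟩⟩

/-- The reflection `s β` permutes the roots: `root γ ᵥ* s β = root γ - (∑ root γ i * coroot β i) • root β` is the root `q γ` (`IsRD.refl`); `q` is injective since `s β` is invertible and `root` is injective. -/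
theorem IsRD.s_perm (hD : IsRD G D) (β : ι) : ∃ q : Equiv.Perm ι, ∀ γ, Matrix.vecMul (D.root γ) (D.s β) = D.root (q γ) ∧
    D.root (q γ) = D.root γ - (∑ i, D.root γ i * D.coroot β i) • D.root β := by
  have h : ∀ γ, ∃ δ, D.root δ = D.root γ - (∑ i, D.root γ i * D.coroot β i) • D.root β := fun γ =>
    ⟨_, (hD.refl β γ).choose_spec.1⟩
  choose q hq using h
  obtain ⟨w, hw, -⟩ := hD.exists_s β
  have hinj : Function.Injective q := by
    intro γ γ' hg
    apply hD.root_inj
    have h1 : Matrix.vecMul (D.root γ) (D.s β) = Matrix.vecMul (D.root γ') (D.s β) := by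
      rw [NwW_vecMul, NwW_vecMul, ← hq, ← hq, hg]
    have h2 : ∀ v : Fin r → ℤ, Matrix.vecMul (Matrix.vecMul v (D.s β)) (w⁻¹).1 = v := by
      intro v
      rw [Matrix.vecMul_vecMul, ← hw, Units.mul_inv, Matrix.vecMul_one]
    rw [← h2 (D.root γ), h1, h2]
  refine ⟨Equiv.ofBijective q (Finite.injective_iff_bijective.1 hinj), fun γ => ⟨?_, hq γ⟩⟩
  rw [NwW_vecMul]
  exact (hq γ).symm

/-- `Subgroup.closure_induction`: generators `s_perm`; products: `vecMul` and `q'' = q' ∘ q`; inverses. -/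
theorem IsRD.weyl_perm (hD : IsRD G D) {w : GL (Fin r) ℤ} (hw : w ∈ D.W) : ∃ q : Equiv.Perm ι, ∀ β, Matrix.vecMul (D.root β) w.1 = D.root (q β) := by
  unfold RD.W at hw
  induction hw using Subgroup.closure_induction with
  | mem x hx =>
    obtain ⟨β, hβ⟩ := hx
    obtain ⟨q, hq⟩ := hD.s_perm β
    exact ⟨q, fun γ => by rw [hβ]; exact (hq γ).1⟩
  | one =>
    exact ⟨1, fun γ => by rw [Units.val_one, Matrix.vecMul_one]; rfl⟩
  | mul x y _ _ hx hy =>
    obtain ⟨q, hq⟩ := hx
    obtain ⟨q', hq'⟩ := hy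
    exact ⟨q.trans q', fun γ => by rw [Units.val_mul, ← Matrix.vecMul_vecMul, hq, hq']; rfl⟩
  | inv x _ hx =>
    obtain ⟨q, hq⟩ := hx
    refine ⟨q.symm, fun γ => ?_⟩
    have h1 := hq (q.symm γ)
    rw [Equiv.apply_symm_apply] at h1
    rw [← h1, Matrix.vecMul_vecMul, Units.mul_inv, Matrix.vecMul_one]

/-- `IsRD.irr` for the span of the roots; it is not zero (`IsRD.pos`, `IsRD.root_ne`). -/
theorem IsRD.roots_span (hD : IsRD G D) : Submodule.span ℚ (Set.range fun β => fun i => (D.root β i : ℚ)) = ⊤ := by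
  refine (hD.irr _ ?_).resolve_left ?_
  · intro β v hv
    exact Submodule.sub_mem _ hv (Submodule.smul_mem _ _ (Submodule.subset_span ⟨β, rfl⟩))
  · intro h
    have h1 : (fun i => (D.root (D.simple ⟨0, hD.pos⟩) i : ℚ)) ∈
        Submodule.span ℚ (Set.range fun β => fun i => (D.root β i : ℚ)) := Submodule.subset_span ⟨_, rfl⟩
    rw [h, Submodule.mem_bot] at h1
    apply hD.root_ne (D.simple ⟨0, hD.pos⟩)
    funext i
    have h2 := congrFun h1 i
    rw [Pi.zero_apply] at h2 ⊢
    exact_mod_cast h2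

/-- The unit vectors are rational combinations of the roots (`roots_span`): the set of `v : Fin r → ℚ` with `∑ i, (v i : ℂ) * t i = 0` is a subspace which contains all roots, so everything. -/
theorem IsRD.eq_zero_of_rt (hD : IsRD G D) (t : Fin r → ℂ) (h : ∀ β, D.rt β t = 0) : t = 0 := by
  have key : ∀ v ∈ Submodule.span ℚ (Set.range fun β => fun i => (D.root β i : ℚ)), ∑ i, ((v i : ℚ) : ℂ) * t i = 0 := by
    intro v hv
    induction hv using Submodule.span_induction with
    | mem x hx =>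
      obtain ⟨β, rfl⟩ := hx
      have h1 := h β
      unfold RD.rt at h1
      rw [← h1]
      refine Finset.sum_congr rfl fun i _ => ?_
      push_cast
      rfl
    | zero =>
      refine Finset.sum_eq_zero fun i _ => ?_
      rw [Pi.zero_apply, Rat.cast_zero, zero_mul]
    | add x y _ _ hx hy =>
      have h1 : ∑ i, (((x + y) i : ℚ) : ℂ) * t i = (∑ i, ((x i : ℚ) : ℂ) * t i) + ∑ i, ((y i : ℚ) : ℂ) * t i := by
        rw [← Finset.sum_add_distrib]
        refine Finset.sum_congr rfl fun i _ => ?_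
        rw [Pi.add_apply, Rat.cast_add, add_mul]
      rw [h1, hx, hy, add_zero]
    | smul c x _ hx =>
      have h1 : ∑ i, (((c • x) i : ℚ) : ℂ) * t i = (c : ℂ) * ∑ i, ((x i : ℚ) : ℂ) * t i := by
        rw [Finset.mul_sum]
        refine Finset.sum_congr rfl fun i _ => ?_
        rw [Pi.smul_apply, smul_eq_mul, Rat.cast_mul, mul_assoc]
      rw [h1, hx, mul_zero]
  funext i
  have h1 := key (Pi.single i 1) (by rw [hD.roots_span]; exact Submodule.mem_top)
  rw [Finset.sum_eq_single i] at h1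
  · rw [Pi.single_eq_same, Rat.cast_one, one_mul] at h1
    exact h1
  · intro j _ hj
    rw [Pi.single_eq_of_ne hj, Rat.cast_zero, zero_mul]
  · intro h2
    exact absurd (Finset.mem_univ i) h2

/-- Proof. Let `q` be the permutation of `s_perm` for the simple root `α = simple i`; `coroot α = Pi.single i 1` (`IsRD.simple_coroot`), so `root (q β) = root β - (root β i) • root α`, `root α i = 2` (`IsRD.two`), so `root (q β) i = - root β i`,
and `ht (q β) = ht β - root β i` (`IsRD.ht_lin`, `IsRD.ht_simple`). Let `S = ∑ β, root β i * ht β = ∑ β, root (q β) i * ht (q β) = - S + ∑ β, (root β i)^2`. So `2 S = ∑ β, (root β i)^2 ≥ (root α i)^2 = 4`. -/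
theorem IsRD.pairing_pos (hD : IsRD G D) (i : Fin r) : 0 < ∑ β, D.root β i * D.ht β := by
  obtain ⟨q, hq⟩ := hD.s_perm (D.simple i)
  have h1 : ∀ v : Fin r → ℤ, ∑ j, v j * D.coroot (D.simple i) j = v i := by
    intro v
    rw [hD.simple_coroot, Finset.sum_eq_single i]
    · rw [Pi.single_eq_same, mul_one]
    · intro j _ hj
      rw [Pi.single_eq_of_ne hj, mul_zero]
    · intro h2
      exact absurd (Finset.mem_univ i) h2
  have h2 : D.root (D.simple i) i = 2 := by
    rw [← h1 (D.root (D.simple i))]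
    exact hD.two _
  have h3 : ∀ γ, D.root (q γ) = D.root γ - D.root γ i • D.root (D.simple i) := by
    intro γ
    rw [(hq γ).2, h1]
  have h4 : ∀ γ, D.root (q γ) i = - D.root γ i := by
    intro γ
    rw [h3, Pi.sub_apply, Pi.smul_apply, smul_eq_mul, h2]
    ring
  have h5 : ∀ γ, D.ht (q γ) = D.ht γ - D.root γ i := by
    intro γ
    obtain ⟨c, hc⟩ := hD.ht_lin
    have h6 : (D.ht (q γ) : ℚ) = D.ht γ - D.root γ i * D.ht (D.simple i) := by
      rw [hc, hc, hc, h3, Finset.mul_sum, ← Finset.sum_sub_distrib]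
      refine Finset.sum_congr rfl fun j _ => ?_
      rw [Pi.sub_apply, Pi.smul_apply, smul_eq_mul]
      push_cast
      ring
    rw [hD.ht_simple, Int.cast_one, mul_one] at h6
    exact_mod_cast h6
  have h6 : ∑ β, D.root β i * D.ht β = - (∑ β, D.root β i * D.ht β) + ∑ β, D.root β i ^ 2 := by
    calc ∑ β, D.root β i * D.ht β = ∑ β, D.root (q β) i * D.ht (q β) :=
          (Equiv.sum_comp q fun β => D.root β i * D.ht β).symm
      _ = ∑ β, (- (D.root β i * D.ht β) + D.root β i ^ 2) := by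
          refine Finset.sum_congr rfl fun β _ => ?_
          rw [h4, h5]
          ring
      _ = - (∑ β, D.root β i * D.ht β) + ∑ β, D.root β i ^ 2 := by
          rw [Finset.sum_add_distrib, Finset.sum_neg_distrib]
  have h7 : D.root (D.simple i) i ^ 2 ≤ ∑ β, D.root β i ^ 2 :=
    Finset.single_le_sum (f := fun β => D.root β i ^ 2) (fun β _ => sq_nonneg _) (Finset.mem_univ _)
  rw [h2] at h7
  linarith

end WCn
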