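import Pool.Agent.Lib.MP_c2b80f_alE.FfA
import Pool.Agent.Lib.MP_c2b80f_alE.JhB
import Pool.Agent.Lib.MP_c2b80f_alE.NwW

/-!
# Regular twisted points (job FfB)
-/

open Matrix

namespace WCn

variable {m r : ℕ} {ι : Type} [Fintype ι] [DecidableEq ι] {G : Subgroup (SLC m)} {D : RD m r ι}

/-- Apply `exists_twisted` to the finite set of all `root β` (nonzero by `IsRD.root_ne`), all nonzero `wt a - wt b`, and for every `w' ∈ D.W`, `w' ≠ 1` (finitely many by `IsRD.weyl_finite`), one nonzero row of the matrix `w'.1 - 1`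
(if `act w' t = t` then all rows `ν` of `w'.1 - 1` satisfy `∑ ν i t i = 0`). -/
theorem exists_tbar (hD : IsRD G D) :
    ∃ P₀ : ℕ, ∀ (p : ℕ) [Fact p.Prime], P₀ < p → ∀ (M : ℕ), 0 < M → ∀ w : GL (Fin r) ℤ, w ^ M = 1 →
      ∀ (k : Type) [Field k] [Finite k] [Algebra (ZMod p) k], Nat.card k = p ^ M →
        ∃ t : Fin r → k, (∀ i, t i ^ p = act w t i) ∧ (∀ β, D.rt β t ≠ 0) ∧ (∀ w' ∈ D.W, act w' t = t → w' = 1) ∧
          ∀ a b, ∑ i, (D.wt a i : k) * t i = ∑ i, (D.wt b i : k) * t i → D.wt a = D.wt b := by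
  classical
  have hfin : Finite D.W := hD.weyl_finite
  let : Fintype D.W := Fintype.ofFinite _
  let 𝒩 : Finset (Fin r → ℤ) := ((Finset.univ.image D.root ∪
    (Finset.univ : Finset (Fin m × Fin m)).image (fun q => D.wt q.1 - D.wt q.2)) ∪
    (Finset.univ : Finset (D.W × Fin r)).image (fun q => (q.1.1.1 - 1 : Matrix (Fin r) (Fin r) ℤ) q.2)).filter (fun ν => ν ≠ 0)
  have h𝒩 : ∀ ν ∈ 𝒩, ν ≠ 0 := fun ν hν => (Finset.mem_filter.1 hν).2
  have h1 : ∀ β, D.root β ∈ 𝒩 := fun β => Finset.mem_filter.2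
    ⟨Finset.mem_union_left _ (Finset.mem_union_left _ (Finset.mem_image_of_mem _ (Finset.mem_univ β))), hD.root_ne β⟩
  have h2 : ∀ a b, D.wt a - D.wt b ≠ 0 → D.wt a - D.wt b ∈ 𝒩 := fun a b hab => Finset.mem_filter.2
    ⟨Finset.mem_union_left _ (Finset.mem_union_right _ (Finset.mem_image.2 ⟨(a, b), Finset.mem_univ _, rfl⟩)), hab⟩
  have h3 : ∀ w' ∈ D.W, ∀ i : Fin r, (w'.1 - 1 : Matrix (Fin r) (Fin r) ℤ) i ≠ 0 →
      (w'.1 - 1 : Matrix (Fin r) (Fin r) ℤ) i ∈ 𝒩 := fun w' hw' i hi => Finset.mem_filter.2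
    ⟨Finset.mem_union_right _ (Finset.mem_image.2 ⟨(⟨w', hw'⟩, i), Finset.mem_univ _, rfl⟩), hi⟩
  obtain ⟨P₀, hP⟩ := exists_twisted 𝒩 h𝒩
  refine ⟨P₀, fun p _ hp M hM w hw k _ _ _ hk => ?_⟩
  obtain ⟨t, ht, hν⟩ := hP p hp M hM w hw k hk
  refine ⟨t, ht, fun β => hν _ (h1 β), fun w' hw' hact => ?_, fun a b hab => ?_⟩
  · by_contra hne
    have h4 : (w'.1 - 1 : Matrix (Fin r) (Fin r) ℤ) ≠ 0 := by
      intro h5
      exact hne (Units.ext (sub_eq_zero.1 h5))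
    obtain ⟨i, hi⟩ : ∃ i, (w'.1 - 1 : Matrix (Fin r) (Fin r) ℤ) i ≠ 0 := by
      by_contra hcon
      push Not at hcon
      exact h4 (funext hcon)
    refine hν _ (h3 w' hw' i hi) ?_
    have h5 : ∀ j, (((w'.1 - 1 : Matrix (Fin r) (Fin r) ℤ) i j : ℤ) : k) * t j =
        (w'.1 i j : k) * t j - (if i = j then t j else 0) := by
      intro j
      rw [Matrix.sub_apply, Matrix.one_apply]
      split_ifs
      · push_cast
        ring
      · push_cast
        ring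
    simp only [h5]
    rw [Finset.sum_sub_distrib, Finset.sum_ite_eq, if_pos (Finset.mem_univ _)]
    have h6 := congrFun hact i
    change ∑ j, (w'.1 i j : k) * t j = t i at h6
    rw [h6, sub_self]
  · by_contra hne
    refine hν _ (h2 a b (sub_ne_zero.2 hne)) ?_
    have h5 : ∀ j, (((D.wt a - D.wt b) j : ℤ) : k) * t j = (D.wt a j : k) * t j - (D.wt b j : k) * t j := by
      intro j
      rw [Pi.sub_apply]
      push_cast
      ring
    simp only [h5]
    rw [Finset.sum_sub_distrib, hab, sub_self]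

end WCn
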