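import Pool.Agent.Lib.MP_c2b80f_alE.ClU
import Pool.Agent.Lib.MP_c2b80f_alE.CpK
import Pool.Agent.Lib.MP_c2b80f_alD.MainL

/-!
# The main theorems for all almost simple groups
-/

open Matrix

namespace WCn

theorem final_logU (n m : ℕ) (G₁ : Subgroup (SLC n)) (G₂ : Subgroup (SLC m)) (hG₁ : AlmostSimple G₁) (hG₂ : AlmostSimple G₂)
    (Γ₁ : Subgroup (SLC n)) (Γ₂ : Subgroup (SLC m))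
    (h₁ : ∃ Λ : Subgroup (SLC n), Γ₁ ≤ Λ ∧ LogExpr Λ) (hz₁ : ZDenseIn G₁ Γ₁) (h₂ : Γ₂.FG) (hz₂ : ZDenseIn G₂ Γ₂)
    (hwc₁ : ∀ g ∈ Γ₁, IsSs g → ¬ IsOfFinOrder g → ∃ h ∈ Γ₂, IsSs h ∧ ¬ IsOfFinOrder h ∧ WComm g h)
    (hwc₂ : ∀ g ∈ Γ₂, IsSs g → ¬ IsOfFinOrder g → ∃ h ∈ Γ₁, IsSs h ∧ ¬ IsOfFinOrder h ∧ WComm g h) :
    DiscreteTopology Γ₂ := by
  obtain ⟨r₁, hC₁⟩ := hG₁.exists_cls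
  obtain ⟨r₂, hC₂⟩ := hG₂.exists_cls
  exact main_log G₁ G₂ hC₁ hC₂ Γ₁ Γ₂ h₁ hz₁ h₂ hz₂ hwc₁ hwc₂

/-- `L` is a closed subgroup of `G₂` with a compact Cartan subalgebra `T`. -/
theorem final_cptL (n m : ℕ) (G₁ : Subgroup (SLC n)) (G₂ : Subgroup (SLC m)) (hG₁ : AlmostSimple G₁) (hG₂ : AlmostSimple G₂)
    (L : Subgroup (SLC m)) (hLG : L ≤ G₂) (hLc : IsClosed (L : Set (SLC m)))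
    (T : Submodule ℝ (Matrix (Fin m) (Fin m) ℂ))
    (hTL : ∀ X ∈ T, ∀ t : ℝ, ∃ g ∈ L, g.1 = NormedSpace.exp ((t : ℂ) • X))
    (hcomm : ∀ X ∈ T, ∀ Y ∈ T, X * Y = Y * X)
    (hb : ∀ X ∈ T, ∃ C : ℝ, ∀ (t : ℝ) (i j : Fin m), ‖(NormedSpace.exp ((t : ℂ) • X)) i j‖ ≤ C)
    (hmax : ∀ X : Matrix (Fin m) (Fin m) ℂ, (∀ t : ℝ, ∃ g ∈ L, g.1 = NormedSpace.exp ((t : ℂ) • X)) →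
      (∀ Y ∈ T, X * Y = Y * X) → X ∈ T)
    (Γ₁ : Subgroup (SLC n)) (Γ₂ : Subgroup (SLC m))
    (h₁ : Γ₁.FG) (hd : DiscreteTopology Γ₁) (hz₁ : ZDenseIn G₁ Γ₁) (h₂ : Γ₂.FG) (hΓL : Γ₂ ≤ L) (hz₂ : ZDenseIn G₂ Γ₂)
    (hwc₁ : ∀ g ∈ Γ₁, IsSs g → ¬ IsOfFinOrder g → ∃ h ∈ Γ₂, IsSs h ∧ ¬ IsOfFinOrder h ∧ WComm g h)
    (hwc₂ : ∀ g ∈ Γ₂, IsSs g → ¬ IsOfFinOrder g → ∃ h ∈ Γ₁, IsSs h ∧ ¬ IsOfFinOrder h ∧ WComm g h) :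
    DiscreteTopology Γ₂ := by
  by_contra hnd
  obtain ⟨r₁, hC₁⟩ := hG₁.exists_cls
  obtain ⟨r₂, hC₂⟩ := hG₂.exists_cls
  obtain ⟨V₀, ho, hN, hnorm⟩ := exists_elliptic_cl hG₂ L hLG hLc Γ₂ hΓL hz₂ hnd T hTL hcomm hb hmax
  exact main_open G₁ G₂ hC₁ hC₂ Γ₁ Γ₂ h₁ hd hz₁ h₂ hz₂ hnd V₀ ho hN hnorm hwc₁ hwc₂

end WCn
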