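import Pool.Agent.Lib.MP_c2b80f_alE.WtDefs

/-!
# Congruences of matrices over the Witt vectors (job HsA)
-/

open Matrix

namespace WCn

variable {m : ℕ} {O : Type} [CommRing O] {q n n' : ℕ} {X Y Z X' Y' : Matrix (Fin m) (Fin m) O}

theorem Cg.refl (q n : ℕ) (X : Matrix (Fin m) (Fin m) O) : Cg q n X X := by
  exact ⟨0, by rw [smul_zero, add_zero]⟩

theorem Cg.symm (h : Cg q n X Y) : Cg q n Y X := by
  obtain ⟨Q, hQ⟩ := h
  refine ⟨-Q, ?_⟩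
  rw [hQ, smul_neg, add_neg_cancel_right]

theorem Cg.trans (h : Cg q n X Y) (h' : Cg q n Y Z) : Cg q n X Z := by
  obtain ⟨Q, hQ⟩ := h
  obtain ⟨Q', hQ'⟩ := h'
  refine ⟨Q' + Q, ?_⟩
  rw [hQ, hQ', smul_add, add_assoc]

theorem Cg.mono (hn : n' ≤ n) (h : Cg q n X Y) : Cg q n' X Y := by
  obtain ⟨Q, hQ⟩ := h
  refine ⟨(q : O) ^ (n - n') • Q, ?_⟩
  rw [hQ, smul_smul, ← pow_add, Nat.add_sub_cancel' hn]

theorem Cg.add (h : Cg q n X Y) (h' : Cg q n X' Y') : Cg q n (X + X') (Y + Y') := by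
  obtain ⟨Q, hQ⟩ := h
  obtain ⟨Q', hQ'⟩ := h'
  refine ⟨Q + Q', ?_⟩
  rw [hQ, hQ', smul_add]
  abel

theorem Cg.mul (h : Cg q n X Y) (h' : Cg q n X' Y') : Cg q n (X * X') (Y * Y') := by
  obtain ⟨Q, hQ⟩ := h
  obtain ⟨Q', hQ'⟩ := h'
  refine ⟨Y * Q' + Q * X', ?_⟩
  have h1 : X * X' = Y * X' + (q : O) ^ n • (Q * X') := by
    rw [hQ, Matrix.add_mul, Matrix.smul_mul]
  have h2 : Y * X' = Y * Y' + (q : O) ^ n • (Y * Q') := by
    rw [hQ', Matrix.mul_add, Matrix.mul_smul]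
  rw [h1, h2, smul_add, add_assoc]

/-- `p ^ k X ≡ p ^ k Y` modulo `p ^ (k + n)`. -/
theorem Cg.smul (k : ℕ) (h : Cg q n X Y) : Cg q (k + n) ((q : O) ^ k • X) ((q : O) ^ k • Y) := by
  obtain ⟨Q, hQ⟩ := h
  refine ⟨Q, ?_⟩
  rw [hQ, smul_add, smul_smul, ← pow_add]

/-- Inverses of elements of `SL`. (`g⁻¹ - h⁻¹ = g⁻¹ (h - g) h⁻¹`.) -/
theorem Cg.inv {g h : Matrix.SpecialLinearGroup (Fin m) O} (hgh : Cg q n g.1 h.1) : Cg q n (g⁻¹).1 (h⁻¹).1 := by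
  obtain ⟨Q, hQ⟩ := hgh
  have h1 : (g⁻¹).1 * g.1 = 1 := by
    rw [← Matrix.SpecialLinearGroup.coe_mul, inv_mul_cancel]
    rfl
  have h2 : h.1 * (h⁻¹).1 = 1 := by
    rw [← Matrix.SpecialLinearGroup.coe_mul, mul_inv_cancel]
    rfl
  obtain ⟨a, ha⟩ : ∃ a : Matrix (Fin m) (Fin m) O, a = g.1 := ⟨_, rfl⟩
  obtain ⟨b, hb⟩ : ∃ b : Matrix (Fin m) (Fin m) O, b = h.1 := ⟨_, rfl⟩
  obtain ⟨a', ha'⟩ : ∃ a' : Matrix (Fin m) (Fin m) O, a' = (g⁻¹).1 := ⟨_, rfl⟩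
  obtain ⟨b', hb'⟩ : ∃ b' : Matrix (Fin m) (Fin m) O, b' = (h⁻¹).1 := ⟨_, rfl⟩
  rw [← ha, ← ha'] at h1
  rw [← hb, ← hb'] at h2
  rw [← ha, ← hb] at hQ
  rw [← ha', ← hb']
  refine ⟨-(a' * Q * b'), ?_⟩
  have h3 : a' * a * b' = a' * b * b' + (q : O) ^ n • (a' * Q * b') := by
    rw [hQ, Matrix.mul_add, Matrix.add_mul, Matrix.mul_smul, Matrix.smul_mul]
  rw [h1, Matrix.one_mul, Matrix.mul_assoc a' b, h2, Matrix.mul_one] at h3
  rw [smul_neg]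
  nth_rewrite 1 [h3]
  rw [add_neg_cancel_right]

/-- Ring homomorphisms. -/
theorem Cg.map {O' : Type} [CommRing O'] (φ : O →+* O') (h : Cg q n X Y) : Cg q n (X.map φ) (Y.map φ) := by
  obtain ⟨Q, hQ⟩ := h
  refine ⟨Q.map φ, ?_⟩
  rw [hQ]
  have h1 : (Y + (q : O) ^ n • Q).map φ = Y.map φ + ((q : O) ^ n • Q).map φ := Matrix.map_add φ (map_add φ) _ _
  have h2 : ((q : O) ^ n • Q).map φ = φ ((q : O) ^ n) • Q.map φ := Matrix.map_smul' φ _ _ (map_mul φ)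
  rw [h1, h2, map_pow, map_natCast]

variable {p : ℕ} [Fact p.Prime] {A : Subring ℂ} {σ : A →+* ℤ_[p]} {k : Type} [IsDomain O] [Field k] [Algebra (ZMod p) k]

theorem WD.res_p (W : WD p A σ O k) : W.res (p : O) = 0 := by
  exact (W.res_ker _).2 ⟨1, by rw [mul_one]⟩

/-- `p ≠ 0` in `O` (`J` is injective and `ℂ` has characteristic zero). -/
theorem WD.p_ne (W : WD p A σ O k) : (p : O) ≠ 0 := by
  intro h
  have h1 : W.J (p : O) = 0 := by rw [h, map_zero]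
  rw [map_natCast] at h1
  exact (Fact.out : p.Prime).ne_zero (Nat.cast_eq_zero.1 h1)

theorem WD.cg_one_iff (W : WD p A σ O k) (X Y : Matrix (Fin m) (Fin m) O) : Cg p 1 X Y ↔ X.map W.res = Y.map W.res := by
  constructor
  · rintro ⟨Q, rfl⟩
    ext a b
    rw [Matrix.map_apply, Matrix.map_apply, Matrix.add_apply, Matrix.smul_apply, map_add, smul_eq_mul, map_mul, pow_one, W.res_p, zero_mul, add_zero]
  · intro h
    have h1 : ∀ a b, ∃ y, X a b - Y a b = (p : O) * y := fun a b => by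
      rw [← W.res_ker, map_sub, sub_eq_zero]
      exact congrFun (congrFun h a) b
    choose y hy using h1
    refine ⟨Matrix.of y, ?_⟩
    ext a b
    rw [Matrix.add_apply, Matrix.smul_apply, smul_eq_mul, pow_one, Matrix.of_apply, ← hy]
    ring

/-- Cancellation: if `p ^ k X ≡ p ^ k Y` modulo `p ^ (k + n)` then `X ≡ Y` modulo `p ^ n`. -/
theorem WD.cg_cancel (W : WD p A σ O k) {l n : ℕ} {X Y : Matrix (Fin m) (Fin m) O} (h : Cg p (l + n) ((p : O) ^ l • X) ((p : O) ^ l • Y)) : Cg p n X Y := by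
  obtain ⟨Q, hQ⟩ := h
  refine ⟨Q, ?_⟩
  ext a b
  have h1 := congrFun (congrFun hQ a) b
  rw [Matrix.add_apply, Matrix.smul_apply, Matrix.smul_apply, Matrix.smul_apply, smul_eq_mul, smul_eq_mul, smul_eq_mul, pow_add, mul_assoc,
    ← mul_add] at h1
  have h2 := mul_left_cancel₀ (pow_ne_zero l W.p_ne) h1
  rw [Matrix.add_apply, Matrix.smul_apply, smul_eq_mul]
  exact h2

theorem WD.cg_sep (W : WD p A σ O k) {X Y : Matrix (Fin m) (Fin m) O} (h : ∀ n, Cg p n X Y) : X = Y := by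
  ext a b
  rw [← sub_eq_zero]
  refine W.sep _ fun n => ?_
  obtain ⟨Q, hQ⟩ := h n
  refine ⟨Q a b, ?_⟩
  rw [hQ, Matrix.add_apply, Matrix.smul_apply, smul_eq_mul]
  ring

/-- Limits of matrices, entry by entry. -/
theorem WD.cg_limit (W : WD p A σ O k) (u : ℕ → Matrix (Fin m) (Fin m) O) (h : ∀ n, Cg p (n + 1) (u (n + 1)) (u n)) :
    ∃ l, ∀ n, Cg p (n + 1) l (u n) := by
  have h1 : ∀ a b, ∃ l, ∀ n, ∃ y, l - u n a b = (p : O) ^ (n + 1) * y := fun a b => by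
    refine W.compl (fun n => u n a b) fun n => ?_
    obtain ⟨Q, hQ⟩ := h n
    refine ⟨Q a b, ?_⟩
    rw [hQ, Matrix.add_apply, Matrix.smul_apply, smul_eq_mul]
    ring
  choose l hl using h1
  refine ⟨Matrix.of l, fun n => ?_⟩
  choose y hy using fun a b => hl a b n
  refine ⟨Matrix.of y, ?_⟩
  ext a b
  rw [Matrix.add_apply, Matrix.smul_apply, smul_eq_mul, Matrix.of_apply, Matrix.of_apply, ← hy]
  ring

end WCn
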