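import Pool.Agent.Lib.MP_c2b80f_alE.HsA
import Pool.Agent.Lib.MP_c2b80f_alE.ArA
import Pool.Agent.Lib.MP_c2b80f_alE.DtM

/-!
# Elements of `G` over the Witt vectors (job HsB)

`W.s : A → O`; `W.J.comp W.s = A.subtype` (`J_f`). For `h ∈ SL_m(O)`: `h ∈ W.GO G` means that the matrix `h.1.map W.J` is (the matrix of) an element of `G`.
-/

open Matrix

namespace WCn

variable {m r : ℕ} {ι : Type} [Fintype ι] [DecidableEq ι] {G : Subgroup (SLC m)} {D : RD m r ι} {p : ℕ} [Fact p.Prime] {A : Subring ℂ} {σ : A →+* ℤ_[p]}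
  {O k : Type} [CommRing O] [IsDomain O] [Field k] [Algebra (ZMod p) k]

theorem WD.J_s (W : WD p A σ O k) : W.J.comp W.s = A.subtype := by
  exact RingHom.ext fun a => W.J_f a

theorem WD.mem_GO (W : WD p A σ O k) (h : Matrix.SpecialLinearGroup (Fin m) O) : h ∈ W.GO G ↔ ∃ g ∈ G, g.1 = h.1.map W.J := by
  constructor
  · intro hh
    exact ⟨Matrix.SpecialLinearGroup.map W.J h, hh, rfl⟩
  · rintro ⟨g, hg, hgh⟩
    have h1 : Matrix.SpecialLinearGroup.map W.J h = g := Subtype.ext hgh.symm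
    change Matrix.SpecialLinearGroup.map W.J h ∈ G
    rw [h1]
    exact hg

/-- A matrix over `O` whose image is in `G` is an element of `W.GO G` (determinant: `J` is injective). -/
theorem WD.exists_GO (W : WD p A σ O k) (M : Matrix (Fin m) (Fin m) O) {g : SLC m} (hg : g ∈ G) (h : g.1 = M.map W.J) : ∃ h ∈ W.GO G, h.1 = M := by
  have hdet : M.det = 1 := by
    apply W.J_inj
    rw [map_one, RingHom.map_det]
    have h1 : W.J.mapMatrix M = g.1 := h.symm
    rw [h1]
    exact g.2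
  exact ⟨⟨M, hdet⟩, (W.mem_GO _).2 ⟨g, hg, h⟩, rfl⟩

/-- `AD.Of.mem_iff`, `evR_map`, injectivity of `J`. -/
theorem WD.mem_GO_iff (W : WD p A σ O k) {d : AD m r ι A} (hd : d.Of G D) (h : Matrix.SpecialLinearGroup (Fin m) O) :
    h ∈ W.GO G ↔ ∀ i, evR h.1 (MvPolynomial.map W.s (d.P i)) = 0 := by
  have h1 : ∀ i, evR (Matrix.SpecialLinearGroup.map W.J h).1 (MvPolynomial.map A.subtype (d.P i)) = W.J (evR h.1 (MvPolynomial.map W.s (d.P i))) := by
    intro i
    rw [← evR_map, MvPolynomial.map_map, W.J_s]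
    rfl
  have h2 : h ∈ W.GO G ↔ Matrix.SpecialLinearGroup.map W.J h ∈ G := Iff.rfl
  rw [h2, hd.mem_iff]
  constructor
  · intro h3 i
    apply W.J_inj
    rw [← h1, h3 i, map_zero]
  · intro h3 i
    rw [h1, h3 i, map_zero]

/-- `φ ∘ s = s` (`φ_f`), so the equations are preserved. -/
theorem WD.GO_phi (W : WD p A σ O k) {d : AD m r ι A} (hd : d.Of G D) {h : Matrix.SpecialLinearGroup (Fin m) O} (hh : h ∈ W.GO G) :
    Matrix.SpecialLinearGroup.map W.φ h ∈ W.GO G := by
  rw [W.mem_GO_iff hd] at hh ⊢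
  intro i
  have h1 : W.φ.comp W.s = W.s := RingHom.ext fun a => W.φ_f (σ a)
  have h2 : evR (h.1.map W.φ) (MvPolynomial.map W.φ (MvPolynomial.map W.s (d.P i))) = W.φ (evR h.1 (MvPolynomial.map W.s (d.P i))) := evR_map _ _ _
  rw [MvPolynomial.map_map, h1, hh i, map_zero] at h2
  exact h2

/-- Limits: if `l ≡ h n` modulo `p ^ (n + 1)` with `h n ∈ W.GO G` then `l` has determinant one and satisfies the equations modulo all powers of `p` (`evR` of congruent matrices are congruent), so exactly (`sep`). -/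
theorem WD.GO_limit (W : WD p A σ O k) {d : AD m r ι A} (hd : d.Of G D) (u : ℕ → Matrix.SpecialLinearGroup (Fin m) O) (hu : ∀ n, u n ∈ W.GO G)
    (l : Matrix (Fin m) (Fin m) O) (hl : ∀ n, Cg p (n + 1) l (u n).1) : ∃ h ∈ W.GO G, h.1 = l := by
  have hmap : ∀ n, l.map (Ideal.Quotient.mk (Ideal.span {(p : O) ^ (n + 1)})) = (u n).1.map (Ideal.Quotient.mk (Ideal.span {(p : O) ^ (n + 1)})) := by
    intro n
    obtain ⟨Q, hQ⟩ := hl n
    ext a b
    rw [Matrix.map_apply, Matrix.map_apply, hQ, Matrix.add_apply, Matrix.smul_apply, smul_eq_mul, map_add, map_mul,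
      Ideal.Quotient.eq_zero_iff_mem.2 (Ideal.mem_span_singleton_self _), zero_mul, add_zero]
  have hzero : ∀ x : O, (∀ n, Ideal.Quotient.mk (Ideal.span {(p : O) ^ (n + 1)}) x = 0) → x = 0 := by
    intro x hx
    refine W.sep x fun n => ?_
    have h1 := Ideal.Quotient.eq_zero_iff_mem.1 (hx n)
    obtain ⟨y, hy⟩ := Ideal.mem_span_singleton'.1 h1
    refine ⟨p * y, ?_⟩
    rw [← hy]
    ring
  have hdet : l.det = 1 := by
    rw [← sub_eq_zero]
    refine hzero _ fun n => ?_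
    rw [map_sub, RingHom.map_det, RingHom.mapMatrix_apply, hmap n, map_one]
    have h1 := RingHom.map_det (Ideal.Quotient.mk (Ideal.span {(p : O) ^ (n + 1)})) (u n).1
    rw [RingHom.mapMatrix_apply] at h1
    rw [← h1, (u n).2, map_one, sub_self]
  refine ⟨⟨l, hdet⟩, ?_, rfl⟩
  rw [W.mem_GO_iff hd]
  intro i
  refine hzero _ fun n => ?_
  have h1 := (W.mem_GO_iff hd (u n)).1 (hu n) i
  rw [← evR_map]
  change evR (l.map _) _ = 0
  rw [hmap n, evR_map, h1, map_zero]

/-- The first order term of an element of `G` near `1` is in the Lie algebra modulo `p`. By `evR_taylor`, `0 = P i (1 + p ^ n Y) = 0 + p ^ n dR (P i) Y + p ^ (2 n) (...)`, so `dR (P i) Y` is divisible by `p`, and `res (dR ...) = dR (...) (Y mod p) = 0`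
(`dR_map`); then `AD.Ok.mem_L` for `d.map W.q` (`AD.Ok.map`). -/
theorem WD.GO_lie (W : WD p A σ O k) {d : AD m r ι A} (hd : d.Of G D) {h : Matrix.SpecialLinearGroup (Fin m) O} (hh : h ∈ W.GO G) {n : ℕ} (hn : 1 ≤ n)
    (Y : Matrix (Fin m) (Fin m) O) (hY : h.1 = 1 + (p : O) ^ n • Y) :
    Y.map W.res = ∑ κ, (((d.map W.q).z κ) * Y.map W.res).trace • (d.map W.q).b D κ := by
  have hP := (W.mem_GO_iff hd h).1 hh
  have h1 : ∀ i, dR ((d.map W.q).P i) (Y.map W.res) = 0 := by
    intro i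
    obtain ⟨y, hy⟩ := evR_taylor (MvPolynomial.map W.s (d.P i)) Y ((p : O) ^ n)
    have h2 : evR (1 : Matrix (Fin m) (Fin m) O) (MvPolynomial.map W.s (d.P i)) = 0 := by
      have h3 := evR_map W.s 1 (d.P i)
      rw [Matrix.map_one _ (map_zero _) (map_one _), hd.ok.P_one i, map_zero] at h3
      exact h3
    rw [← hY, hP i, h2, zero_add] at hy
    have h4 : (p : O) ^ n * (dR (MvPolynomial.map W.s (d.P i)) Y + (p : O) ^ n * y) = 0 := by
      rw [mul_add, ← mul_assoc, ← pow_two]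
      exact hy.symm
    have h5 := (mul_eq_zero.1 h4).resolve_left (pow_ne_zero n W.p_ne)
    have h6 := congrArg W.res h5
    rw [map_add, map_mul, map_pow, W.res_p, zero_pow (by omega), zero_mul, add_zero, map_zero, ← dR_map, MvPolynomial.map_map] at h6
    exact h6
  exact ((hd.ok.map W.q).mem_L h1).1

end WCn
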