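import Pool.Agent.Lib.MP_c2b80f_alE.TnA

/-!
# Translations and conjugations of polynomials (job TnB)
-/

open Matrix

namespace WCn

variable {m : ℕ}

/-- The polynomial `Q(x) = P(g x h)` (substitute `x i j ↦ ∑ g i k * X (k, l) * h l j`, `MvPolynomial.bind₁`); its differential at `1`: both sides are the derivative at `z = 0` of `P (g (1 + z X) h) = Q (1 + z X)` (`evM_hasDerivAt` twice and uniqueness of derivatives). -/
theorem exists_transl (g h : Matrix (Fin m) (Fin m) ℂ) (P : MvPolynomial (Fin m × Fin m) ℂ) :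
    ∃ Q : MvPolynomial (Fin m × Fin m) ℂ, (∀ x, evM x Q = evM (g * x * h) P) ∧
      ∀ X, dP Q X = ∑ ij : Fin m × Fin m, evM (g * h) (MvPolynomial.pderiv ij P) * (g * X * h) ij.1 ij.2 := by
  obtain ⟨Q, hQ⟩ : ∃ Q : MvPolynomial (Fin m × Fin m) ℂ, Q = MvPolynomial.bind₁ (fun ij : Fin m × Fin m =>
      ∑ l, (∑ k, MvPolynomial.C (g ij.1 k) * MvPolynomial.X (k, l)) * MvPolynomial.C (h l ij.2)) P := ⟨_, rfl⟩
  have h1 : ∀ x, evM x Q = evM (g * x * h) P := by
    intro x
    rw [hQ]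
    unfold evM
    have h2 := MvPolynomial.eval₂Hom_bind₁ (RingHom.id ℂ) (fun ij : Fin m × Fin m => x ij.1 ij.2)
      (fun ij : Fin m × Fin m => ∑ l, (∑ k, MvPolynomial.C (g ij.1 k) * MvPolynomial.X (k, l)) * MvPolynomial.C (h l ij.2)) P
    refine h2.trans ?_
    change MvPolynomial.eval _ P = MvPolynomial.eval _ P
    congr 2
    funext ij
    change MvPolynomial.eval _ _ = _
    simp only [map_sum, map_mul, MvPolynomial.eval_C, MvPolynomial.eval_X, Matrix.mul_apply]
  refine ⟨Q, h1, fun X => ?_⟩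
  have h3 := evM_hasDerivAt (fun w : ℂ => g * (1 + w • X) * h) (g * X * h) 0 (fun i j => by
    have e1 : (fun w : ℂ => (g * (1 + w • X) * h) i j) = fun w : ℂ => (g * h) i j + w * (g * X * h) i j := by
      funext w
      rw [Matrix.mul_add, Matrix.add_mul, Matrix.mul_one, Matrix.mul_smul, Matrix.smul_mul, Matrix.add_apply,
        Matrix.smul_apply, smul_eq_mul]
    rw [e1]
    have h4 := ((hasDerivAt_id (0 : ℂ)).mul_const ((g * X * h) i j)).const_add ((g * h) i j)
    rw [one_mul] at h4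
    exact h4) P
  have h5 := evM_hasDerivAt (fun w : ℂ => 1 + w • X) X 0 (fun i j => by
    have e1 : (fun w : ℂ => (1 + w • X) i j) = fun w : ℂ => (1 : Matrix (Fin m) (Fin m) ℂ) i j + w * X i j := by
      funext w
      rw [Matrix.add_apply, Matrix.smul_apply, smul_eq_mul]
    rw [e1]
    have h4 := ((hasDerivAt_id (0 : ℂ)).mul_const (X i j)).const_add ((1 : Matrix (Fin m) (Fin m) ℂ) i j)
    rw [one_mul] at h4
    exact h4) Q
  have h6 : (fun w : ℂ => evM (1 + w • X) Q) = fun w : ℂ => evM (g * (1 + w • X) * h) P := by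
    funext w
    exact h1 _
  rw [h6] at h5
  have h7 := h5.unique h3
  simp only [zero_smul, add_zero, Matrix.mul_one] at h7
  exact h7

/-- `lder X` preserves the ideal of `G` for `X` in the Lie algebra. Proof. Let `g ∈ G`, `P ∈ vanI G` and `Q(x) = P(g x)` (`exists_transl` with `h = 1`): `Q ∈ vanI G`, so `0 = dP Q X = evM g (lder X P)` (`evM_lder`). -/
theorem lder_mem {G : Subgroup (SLC m)} {X : Matrix (Fin m) (Fin m) ℂ} (hX : X ∈ tanG G) {P : MvPolynomial (Fin m × Fin m) ℂ}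
    (hP : P ∈ vanI G) : lder X P ∈ vanI G := by
  intro g hg
  obtain ⟨Q, hQ, hQ'⟩ := exists_transl g.1 1 P
  have h1 : Q ∈ vanI G := by
    intro x hx
    rw [hQ, Matrix.mul_one]
    exact hP (g * x) (G.mul_mem hg hx)
  have h2 := hX Q h1
  rw [hQ', Matrix.mul_one, Matrix.mul_one] at h2
  rw [evM_lder]
  exact h2

/-- Proof. For `P ∈ vanI G` let `Q(x) = P(g x g⁻¹)`; `Q ∈ vanI G` and `0 = dP Q X = dP P (g X g⁻¹)`. -/
theorem tanG_conj {G : Subgroup (SLC m)} {X : Matrix (Fin m) (Fin m) ℂ} (hX : X ∈ tanG G) {g : SLC m} (hg : g ∈ G) :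
    g.1 * X * (g⁻¹).1 ∈ tanG G := by
  intro P hP
  obtain ⟨Q, hQ, hQ'⟩ := exists_transl g.1 (g⁻¹).1 P
  have h1 : Q ∈ vanI G := by
    intro x hx
    rw [hQ]
    exact hP (g * x * g⁻¹) (G.mul_mem (G.mul_mem hg hx) (G.inv_mem hg))
  have h2 := hX Q h1
  have h3 : g.1 * (g⁻¹).1 = 1 := by
    have h := congrArg Subtype.val (mul_inv_cancel g)
    exact h
  rw [hQ', h3] at h2
  exact h2

end WCn
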