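import Pool.Agent.Lib.MP_c2b80f_alE.TnB

/-!
# One parameter subgroups (job TnC)
-/

open Matrix

namespace WCn

variable {m : ℕ}

/-- If all derivatives at `0` of an entire function vanish, it is zero: `Complex.taylorSeries_eq_of_entire'` (`iteratedDeriv k (f 0) = f k` by induction). -/
theorem entire_eq_zero {f : ℕ → ℂ → ℂ} (h : ∀ k z, HasDerivAt (f k) (f (k + 1) z) z) (h0 : ∀ k, f k 0 = 0) (z : ℂ) : f 0 z = 0 := by
  have h1 : ∀ k, iteratedDeriv k (f 0) = f k := by
    intro k
    induction k with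
    | zero => exact iteratedDeriv_zero
    | succ k ih =>
      rw [iteratedDeriv_succ, ih]
      funext w
      exact (h k w).deriv
  have h2 := Complex.taylorSeries_eq_of_entire' (c := 0) (z := z) (fun w => (h 0 w).differentiableAt)
  rw [← h2]
  have h3 : ∀ n : ℕ, ((n.factorial : ℂ))⁻¹ * iteratedDeriv n (f 0) 0 * (z - 0) ^ n = 0 := by
    intro n
    rw [h1 n, h0 n, mul_zero, zero_mul]
  rw [tsum_congr h3, tsum_zero]

/-- Proof. For `P ∈ vanI G` all `(lder X)^[k] P` are in `vanI G` (`lder_mem`), so `entire_eq_zero` for `f k z = evM (exp (z X)) ((lder X)^[k] P)` (`hasDerivAt_evM_exp`; at `0`: the value at `1 ∈ G`) gives `P(exp (z X)) = 0`. -/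
theorem evM_exp_eq_zero {G : Subgroup (SLC m)} {X : Matrix (Fin m) (Fin m) ℂ} (hX : X ∈ tanG G) {P : MvPolynomial (Fin m × Fin m) ℂ}
    (hP : P ∈ vanI G) (z : ℂ) : evM (NormedSpace.exp (z • X)) P = 0 := by
  have hmem : ∀ k, (lder X)^[k] P ∈ vanI G := by
    intro k
    induction k with
    | zero => exact hP
    | succ k ih =>
      rw [Function.iterate_succ_apply']
      exact lder_mem hX ih
  refine entire_eq_zero (f := fun k w => evM (NormedSpace.exp (w • X)) ((lder X)^[k] P)) ?_ ?_ z
  · intro k w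
    simp only [Function.iterate_succ_apply']
    exact hasDerivAt_evM_exp X _ w
  · intro k
    rw [zero_smul, NormedSpace.exp_zero]
    exact hmem k 1 G.one_mem

/-- Proof. The polynomial `det - 1` is in `vanI G`; so `det (exp (z X)) = 1` by `evM_exp_eq_zero`, and `exp (z X)` is the matrix of an element of `SL_m`, which is in `G` because `G` is Zariski closed. -/
theorem tanG_exp {G : Subgroup (SLC m)} (hG : ZClosed G) {X : Matrix (Fin m) (Fin m) ℂ} (hX : X ∈ tanG G) (z : ℂ) :
    ∃ g ∈ G, g.1 = NormedSpace.exp (z • X) := by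
  obtain ⟨Q, hQ⟩ : ∃ Q : MvPolynomial (Fin m × Fin m) ℂ, ∀ M : Matrix (Fin m) (Fin m) ℂ, evM M Q = M.det - 1 := by
    refine ⟨(Matrix.of fun i j => (MvPolynomial.X (i, j) : MvPolynomial (Fin m × Fin m) ℂ)).det - 1, fun M => ?_⟩
    unfold evM
    rw [map_sub, map_one, RingHom.map_det]
    congr 2
    ext i j
    rw [RingHom.mapMatrix_apply, Matrix.map_apply, Matrix.of_apply, MvPolynomial.eval_X]
  have h1 : Q ∈ vanI G := by
    intro g _
    rw [hQ, g.2, sub_self]
  have h2 := evM_exp_eq_zero hX h1 z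
  rw [hQ, sub_eq_zero] at h2
  exact ⟨⟨NormedSpace.exp (z • X), h2⟩, hG _ fun P hP => evM_exp_eq_zero hX hP z, rfl⟩

/-- `X` is in the Lie algebra if and only if its one parameter group is in `G`. Proof of the other direction: for `P ∈ vanI G` the function `z ↦ evM (exp (z X)) P` vanishes at the real points; its derivative at `0` is `dP P X` (`evM_hasDerivAt`, `hasDerivAt_exp_entry`),
and it is the limit of difference quotients along real `z`. -/
theorem mem_tanG_iff {G : Subgroup (SLC m)} (hG : ZClosed G) (X : Matrix (Fin m) (Fin m) ℂ) :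
    X ∈ tanG G ↔ ∀ t : ℝ, ∃ g ∈ G, g.1 = NormedSpace.exp ((t : ℂ) • X) := by
  constructor
  · intro hX t
    exact tanG_exp hG hX (t : ℂ)
  · intro h P hP
    have h1 := hasDerivAt_evM_exp X P ((0 : ℝ) : ℂ)
    have h2 := h1.comp_ofReal
    have h3 : (fun t : ℝ => evM (NormedSpace.exp ((t : ℂ) • X)) P) = fun _ => 0 := by
      funext t
      obtain ⟨g, hg, hg'⟩ := h t
      rw [← hg']
      exact hP g hg
    rw [h3] at h2
    have h4 := h2.unique (hasDerivAt_const (0 : ℝ) (0 : ℂ))
    rw [Complex.ofReal_zero, zero_smul, NormedSpace.exp_zero, evM_lder, Matrix.one_mul] at h4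
    exact h4

theorem ZClosed.isClosed {G : Subgroup (SLC m)} (hG : ZClosed G) : IsClosed (G : Set (SLC m)) := by
  have h1 : (G : Set (SLC m)) = ⋂ P ∈ vanI G, {g : SLC m | evM g.1 P = 0} := by
    ext g
    rw [Set.mem_iInter₂]
    constructor
    · intro hg P hP
      exact hP g hg
    · intro hg
      exact hG g hg
  rw [h1]
  refine isClosed_biInter fun P _ => ?_
  refine isClosed_eq ?_ continuous_const
  unfold evM
  refine (MvPolynomial.continuous_eval P).comp (continuous_pi fun ij => ?_)
  exact continuous_subtype_val.matrix_elem ij.1 ij.2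

end WCn
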