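import Pool.Agent.Lib.MP_c2b80f_alE.TnC

/-!
# Conjugation by exponentials and the bracket (job TnD)
-/

open Matrix

namespace WCn

variable {m : ℕ}

private theorem TnD_comm (X : Matrix (Fin m) (Fin m) ℂ) (z : ℂ) :
    NormedSpace.exp (-(z • X)) * X = X * NormedSpace.exp (-(z • X)) := by
  have h1 : Commute (-(z • X)) X := by
    have h2 : (-(z • X)) * X = X * (-(z • X)) := by
      rw [Matrix.neg_mul, Matrix.mul_neg, Matrix.smul_mul, Matrix.mul_smul]
    exact h2
  exact h1.exp_left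

private theorem TnD_inv (X : Matrix (Fin m) (Fin m) ℂ) : NormedSpace.exp X * NormedSpace.exp (-X) = 1 := by
  rw [← Matrix.exp_add_of_commute X (-X) (Commute.neg_right (Commute.refl X)), add_neg_cancel, NormedSpace.exp_zero]

private theorem TnD_fun (l : Matrix (Fin m) (Fin m) ℂ →ₗ[ℂ] ℂ) (F : ℂ → Matrix (Fin m) (Fin m) ℂ) (F' : Matrix (Fin m) (Fin m) ℂ)
    (z : ℂ) (h : ∀ i j, HasDerivAt (fun w => F w i j) (F' i j) z) : HasDerivAt (fun w => l (F w)) (l F') z := by
  have h1 : ∀ A : Matrix (Fin m) (Fin m) ℂ, l A = ∑ i, ∑ j, A i j * l (Matrix.single i j 1) := by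
    intro A
    conv_lhs => rw [Matrix.matrix_eq_sum_single A]
    rw [map_sum]
    refine Finset.sum_congr rfl fun i _ => ?_
    rw [map_sum]
    refine Finset.sum_congr rfl fun j _ => ?_
    rw [← smul_eq_mul, ← map_smul, Matrix.smul_single, smul_eq_mul, mul_one]
  have h2 : (fun w => l (F w)) = fun w => ∑ i, ∑ j, F w i j * l (Matrix.single i j 1) := funext fun w => h1 (F w)
  rw [h2, h1 F']
  refine HasDerivAt.fun_sum fun i _ => HasDerivAt.fun_sum fun j _ => ?_
  exact (h i j).mul_const _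

/-- Derivative of the conjugation of `Y` by `exp (z X)`, entrywise (product rule; `exp (z X)` commutes with `X`). -/
theorem hasDerivAt_conj (X Y : Matrix (Fin m) (Fin m) ℂ) (z : ℂ) (i j : Fin m) :
    HasDerivAt (fun w : ℂ => (NormedSpace.exp (w • X) * Y * NormedSpace.exp (-(w • X))) i j)
      ((NormedSpace.exp (z • X) * (X * Y - Y * X) * NormedSpace.exp (-(z • X))) i j) z := by
  obtain ⟨A, hA⟩ : ∃ A : ℂ → Matrix (Fin m) (Fin m) ℂ, ∀ w, A w = NormedSpace.exp (w • X) := ⟨_, fun _ => rfl⟩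
  obtain ⟨B, hB⟩ : ∃ B : ℂ → Matrix (Fin m) (Fin m) ℂ, ∀ w, B w = NormedSpace.exp (-(w • X)) := ⟨_, fun _ => rfl⟩
  have hA' : ∀ i j, HasDerivAt (fun w => A w i j) ((A z * X) i j) z := by
    intro i j
    have h1 := hasDerivAt_exp_entry X z i j
    simp only [hA]
    exact h1
  have hB' : ∀ i j, HasDerivAt (fun w => B w i j) ((B z * (-X)) i j) z := by
    intro i j
    have h1 := hasDerivAt_exp_entry (-X) z i j
    simp only [smul_neg] at h1
    simp only [hB]
    exact h1
  have hval : NormedSpace.exp (z • X) * (X * Y - Y * X) * NormedSpace.exp (-(z • X)) = A z * X * Y * B z + A z * Y * (B z * (-X)) := by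
    have h1 : B z * (-X) = -(X * B z) := by
      rw [Matrix.mul_neg, hB, TnD_comm]
    rw [h1, ← hA, ← hB, Matrix.mul_neg, Matrix.mul_sub, Matrix.sub_mul, ← sub_eq_add_neg]
    simp only [Matrix.mul_assoc]
  rw [hval]
  have h1 : ∀ w, (NormedSpace.exp (w • X) * Y * NormedSpace.exp (-(w • X))) i j = ∑ k, (∑ l, A w i l * Y l k) * B w k j := by
    intro w
    rw [← hA, ← hB, Matrix.mul_apply]
    refine Finset.sum_congr rfl fun k _ => ?_
    rw [Matrix.mul_apply]
  simp only [h1]
  have h2 : (A z * X * Y * B z + A z * Y * (B z * (-X))) i j =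
      ∑ k, ((∑ l, (A z * X) i l * Y l k) * B z k j + (∑ l, A z i l * Y l k) * (B z * (-X)) k j) := by
    rw [Matrix.add_apply, Matrix.mul_apply, Matrix.mul_apply (M := A z * Y), ← Finset.sum_add_distrib]
    refine Finset.sum_congr rfl fun k _ => ?_
    rw [Matrix.mul_apply (M := A z * X), Matrix.mul_apply (M := A z)]
  rw [h2]
  refine HasDerivAt.fun_sum fun k _ => ?_
  refine HasDerivAt.mul ?_ (hB' k j)
  refine HasDerivAt.fun_sum fun l _ => ?_
  exact (hA' i l).mul_const _

/-- A subspace which is stable under `ad X` is stable under conjugation by `exp (z X)`. Proof. For a linear functional `ℓ` which vanishes on `W` (`Submodule.exists_le_ker_of_notMem`; every `ℓ` is a linear combination of the entries) apply `entire_eq_zero` to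
`f k z = ℓ (exp (z X) * (ad X)^[k] Y * exp (-z X))`. -/
theorem conj_exp_mem (W : Submodule ℂ (Matrix (Fin m) (Fin m) ℂ)) (X : Matrix (Fin m) (Fin m) ℂ) (h : ∀ Y ∈ W, X * Y - Y * X ∈ W)
    (z : ℂ) (Y : Matrix (Fin m) (Fin m) ℂ) (hY : Y ∈ W) : NormedSpace.exp (z • X) * Y * NormedSpace.exp (-(z • X)) ∈ W := by
  by_contra hcon
  obtain ⟨l, hl1, hl2⟩ := Submodule.exists_le_ker_of_notMem hcon
  have hk : ∀ k : ℕ, (fun Z : Matrix (Fin m) (Fin m) ℂ => X * Z - Z * X)^[k] Y ∈ W := by
    intro k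
    induction k with
    | zero => exact hY
    | succ k ih =>
      rw [Function.iterate_succ_apply']
      exact h _ ih
  refine hl1 ?_
  have h1 := entire_eq_zero (f := fun k w => l (NormedSpace.exp (w • X) *
    ((fun Z : Matrix (Fin m) (Fin m) ℂ => X * Z - Z * X)^[k] Y) * NormedSpace.exp (-(w • X)))) ?_ ?_ z
  · exact h1
  · intro k w
    refine TnD_fun l _ _ w fun i j => ?_
    rw [Function.iterate_succ_apply']
    exact hasDerivAt_conj X _ w i j
  · intro k
    show l (NormedSpace.exp ((0 : ℂ) • X) * ((fun Z : Matrix (Fin m) (Fin m) ℂ => X * Z - Z * X)^[k] Y) *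
      NormedSpace.exp (-((0 : ℂ) • X))) = 0
    rw [zero_smul, neg_zero, NormedSpace.exp_zero, Matrix.one_mul, Matrix.mul_one]
    exact hl2 (hk k)

/-- Proof. For a linear functional `ℓ` which vanishes on `W`, the derivative at `0` of `ℓ (exp (z X) Y exp (-z X)) = 0` is `ℓ (X Y - Y X)`. -/
theorem lie_mem_of_conj (W : Submodule ℂ (Matrix (Fin m) (Fin m) ℂ)) (X Y : Matrix (Fin m) (Fin m) ℂ)
    (h : ∀ z : ℂ, NormedSpace.exp (z • X) * Y * NormedSpace.exp (-(z • X)) ∈ W) : X * Y - Y * X ∈ W := by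
  by_contra hcon
  obtain ⟨l, hl1, hl2⟩ := Submodule.exists_le_ker_of_notMem hcon
  refine hl1 ?_
  have h1 := TnD_fun l (fun w : ℂ => NormedSpace.exp (w • X) * Y * NormedSpace.exp (-(w • X)))
    (NormedSpace.exp ((0 : ℂ) • X) * (X * Y - Y * X) * NormedSpace.exp (-((0 : ℂ) • X))) 0 fun i j => hasDerivAt_conj X Y 0 i j
  have h2 : (fun w : ℂ => l (NormedSpace.exp (w • X) * Y * NormedSpace.exp (-(w • X)))) = fun _ => 0 := by
    funext w
    exact hl2 (h w)
  rw [h2, zero_smul, neg_zero, NormedSpace.exp_zero, Matrix.one_mul, Matrix.mul_one] at h1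
  exact h1.unique (hasDerivAt_const (0 : ℂ) (0 : ℂ))

/-- The inverse of the element of `SL_m` with matrix `exp X` has the matrix `exp (-X)`. -/
theorem coe_inv_of_exp {g : SLC m} {X : Matrix (Fin m) (Fin m) ℂ} (h : g.1 = NormedSpace.exp X) : (g⁻¹).1 = NormedSpace.exp (-X) := by
  have h1 : (g⁻¹).1 * g.1 = 1 := by
    have h2 : (g⁻¹ * g).1 = 1 := by
      rw [inv_mul_cancel]
      rfl
    exact h2
  calc (g⁻¹).1 = (g⁻¹).1 * (g.1 * NormedSpace.exp (-X)) := by rw [h, TnD_inv, Matrix.mul_one]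
    _ = NormedSpace.exp (-X) := by rw [← Matrix.mul_assoc, h1, Matrix.one_mul]

/-- From `tanG_exp`, `tanG_conj` and `lie_mem_of_conj` for `W = tanG G`. -/
theorem tanG_lie {G : Subgroup (SLC m)} (hG : ZClosed G) {X Y : Matrix (Fin m) (Fin m) ℂ} (hX : X ∈ tanG G) (hY : Y ∈ tanG G) :
    X * Y - Y * X ∈ tanG G := by
  refine lie_mem_of_conj (tanG G) X Y fun z => ?_
  obtain ⟨g, hg, hgX⟩ := tanG_exp hG hX z
  rw [← coe_inv_of_exp hgX, ← hgX]
  exact tanG_conj hY hg

/-- If a matrix `X` commutes with the matrix `Y` then so does `exp (z X)`; conversely if `exp (z X)` commutes with `Y` for all `z` then `X` commutes with `Y` (`lie_mem_of_conj` with `W = ⊥` applied to `exp (z X) Y exp (-z X) - Y`, or differentiate). -/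
theorem commute_iff_exp (X Y : Matrix (Fin m) (Fin m) ℂ) :
    X * Y = Y * X ↔ ∀ z : ℂ, NormedSpace.exp (z • X) * Y = Y * NormedSpace.exp (z • X) := by
  constructor
  · intro h z
    have h1 : Commute (z • X) Y := by
      have h2 : (z • X) * Y = Y * (z • X) := by
        rw [Matrix.smul_mul, Matrix.mul_smul, h]
      exact h2
    exact h1.exp_left
  · intro h
    have h1 : ∀ w : ℂ, NormedSpace.exp (w • X) * Y * NormedSpace.exp (-(w • X)) = Y := by
      intro w
      rw [h w, Matrix.mul_assoc, TnD_inv, Matrix.mul_one]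
    have h2 : X * Y - Y * X = 0 := by
      ext i j
      have h3 := hasDerivAt_conj X Y 0 i j
      simp only [h1] at h3
      rw [zero_smul, neg_zero, NormedSpace.exp_zero, Matrix.one_mul, Matrix.mul_one] at h3
      exact h3.unique (hasDerivAt_const (0 : ℂ) (Y i j))
    exact sub_eq_zero.1 h2

end WCn
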