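import Pool.Agent.Lib.MP_c2b80f_alE.TnC

/-!
# Elements near the identity are exponentials (job TnE)
-/

open Matrix

namespace WCn

variable {m : ℕ}

/-- Elements of `G` near `1` are exponentials. Proof. `exists_tangent` for the closed subgroup `G` (`ZClosed.isClosed`, so the topological closure of `G` is `G`); the elements of `V` are in `tanG G` by `mem_tanG_iff`. -/
theorem near_exp {G : Subgroup (SLC m)} (hG : ZClosed G) :
    ∃ ε : ℝ, 0 < ε ∧ ∀ g ∈ G, Near ε g → ∃ X ∈ tanG G, g.1 = NormedSpace.exp X := by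
  obtain ⟨V, hV, ε, hε, h⟩ := exists_tangent G
  have hle : G.topologicalClosure ≤ G := G.topologicalClosure_minimal le_rfl hG.isClosed
  refine ⟨ε, hε, fun g hg hn => ?_⟩
  obtain ⟨Y, hY, hgY⟩ := h g (G.le_topologicalClosure hg) hn
  refine ⟨Y, (mem_tanG_iff hG Y).2 fun t => ?_, hgY⟩
  obtain ⟨g', hg', e⟩ := (hV Y).1 hY t
  exact ⟨g', hle hg', e⟩

/-- The elements of `SL_m(ℂ)` with entries close to those of `1` form a neighbourhood of `1` (the topology is induced from the matrices). -/
theorem near_mem_nhds (ε : ℝ) (hε : 0 < ε) : {g : SLC m | Near ε g} ∈ nhds (1 : SLC m) := by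
  have h1 : IsOpen {g : SLC m | Near ε g} := by
    have h2 : {g : SLC m | Near ε g} = ⋂ i : Fin m, ⋂ j : Fin m, {g : SLC m | ‖(g.1 - 1) i j‖ < ε} := by
      ext g
      exact ⟨fun h => Set.mem_iInter.2 fun i => Set.mem_iInter.2 fun j => h i j,
        fun h i j => Set.mem_iInter.1 (Set.mem_iInter.1 h i) j⟩
    rw [h2]
    refine isOpen_iInter_of_finite fun i => isOpen_iInter_of_finite fun j => ?_
    refine isOpen_lt ?_ continuous_const
    have h3 : Continuous fun g : SLC m => g.1 := continuous_subtype_val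
    have h4 : Continuous fun g : SLC m => (g.1 - 1) i j := (h3.sub continuous_const).matrix_elem i j
    exact h4.norm
  refine h1.mem_nhds ?_
  intro i j
  have h5 : ((1 : SLC m).1 - 1) i j = 0 := by
    have h6 : (1 : SLC m).1 = (1 : Matrix (Fin m) (Fin m) ℂ) := rfl
    rw [h6, sub_self, Matrix.zero_apply]
  have h7 : ‖((1 : SLC m).1 - 1) i j‖ < ε := by
    rw [h5, norm_zero]
    exact hε
  exact h7

/-- `G` is generated by exponentials, if it is connected. Proof. Let `H` be the subgroup generated by the elements with matrix `exp X`, `X ∈ tanG G`; `H ≤ G` by `tanG_exp` (with `z = 1`). `H` contains a neighbourhood of `1` in `G` by `near_exp`, `near_mem_nhds`, so it is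
open in `G` (`Subgroup.isOpen_of_mem_nhds` for the subgroup `H.subgroupOf G` of `↥G`), hence open and closed, and `↥G` is connected (`isConnected_iff_connectedSpace`, `IsClopen.eq_univ`). -/
theorem mem_closure_exp {G : Subgroup (SLC m)} (hG : ZClosed G) (hc : IsConnected (G : Set (SLC m))) {g : SLC m} (hg : g ∈ G) :
    g ∈ Subgroup.closure {h : SLC m | ∃ X ∈ tanG G, h.1 = NormedSpace.exp X} := by
  obtain ⟨ε, hε, h⟩ := near_exp hG
  obtain ⟨H, hH⟩ : ∃ H : Subgroup (SLC m), H = Subgroup.closure {h : SLC m | ∃ X ∈ tanG G, h.1 = NormedSpace.exp X} :=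
    ⟨_, rfl⟩
  rw [← hH]
  have h1 : (H.subgroupOf G : Set ↥G) ∈ nhds (1 : ↥G) := by
    have h0 : {g : SLC m | Near ε g} ∈ nhds ((1 : ↥G) : SLC m) := near_mem_nhds ε hε
    have h2 : (Subtype.val : ↥G → SLC m) ⁻¹' {g : SLC m | Near ε g} ∈ nhds (1 : ↥G) :=
      continuous_subtype_val.continuousAt.preimage_mem_nhds h0
    refine Filter.mem_of_superset h2 ?_
    intro g hg
    obtain ⟨X, hX, e⟩ := h g.1 g.2 hg
    have h3 : (g : SLC m) ∈ H := by
      rw [hH]
      exact Subgroup.subset_closure ⟨X, hX, e⟩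
    exact h3
  have h2 : IsOpen (H.subgroupOf G : Set ↥G) := Subgroup.isOpen_of_mem_nhds _ h1
  have h3 : IsClosed (H.subgroupOf G : Set ↥G) := Subgroup.isClosed_of_isOpen _ h2
  have hcs : ConnectedSpace ↥G := isConnected_iff_connectedSpace.1 hc
  have h4 : (H.subgroupOf G : Set ↥G) = Set.univ := IsClopen.eq_univ ⟨h3, h2⟩ ⟨1, (H.subgroupOf G).one_mem⟩
  have h5 : (⟨g, hg⟩ : ↥G) ∈ (H.subgroupOf G : Set ↥G) := by
    rw [h4]
    exact Set.mem_univ _
  exact h5

end WCn
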