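import Pool.Agent.Lib.MP_c2b80f_alE.TnE
import Pool.Agent.Lib.MP_c2b80f_alE.TnA

/-!
# Curves in `G` and the identity principle (job TnF)
-/

open Matrix

namespace WCn

variable {m : ℕ}

private theorem TnF_det (B : ℂ → Matrix (Fin m) (Fin m) ℂ) (h : ∀ i j, Differentiable ℂ fun z => B z i j) :
    Differentiable ℂ fun z => (B z).det := by
  have h1 : (fun z => (B z).det) = fun z => ∑ σ : Equiv.Perm (Fin m), ((Equiv.Perm.sign σ : ℤ) : ℂ) * ∏ i, B z (σ i) i := by
    funext z
    exact Matrix.det_apply' (B z)
  rw [h1]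
  refine Differentiable.fun_sum fun σ _ => ?_
  refine Differentiable.const_mul ?_ _
  exact Differentiable.fun_finsetProd fun i _ => h (σ i) i

private theorem TnF_adj (B : ℂ → Matrix (Fin m) (Fin m) ℂ) (h : ∀ i j, Differentiable ℂ fun z => B z i j) (i j : Fin m) :
    Differentiable ℂ fun z => (B z).adjugate i j := by
  have h1 : (fun z => (B z).adjugate i j) = fun z => ((B z).updateRow j (Pi.single i 1)).det := by
    funext z
    exact Matrix.adjugate_apply (B z) i j
  rw [h1]
  refine TnF_det _ fun k l => ?_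
  by_cases hk : k = j
  · subst hk
    have h2 : (fun z => ((B z).updateRow k (Pi.single i 1)) k l) = fun _ => (Pi.single i 1 : Fin m → ℂ) l := by
      funext z
      rw [Matrix.updateRow_self]
    rw [h2]
    exact differentiable_const _
  · have h2 : (fun z => ((B z).updateRow j (Pi.single i 1)) k l) = fun z => B z k l := by
      funext z
      rw [Matrix.updateRow_ne hk]
    rw [h2]
    exact h k l

/-- Every element of `G` is joined to `1` by an entire curve in `G`. Proof by `Subgroup.closure_induction` from `mem_closure_exp`: for `exp X` take `z ↦ exp (z X)` (`tanG_exp`, `hasDerivAt_exp_entry`), for `1` the constant curve, for products the product; for the inverse of `c` the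
curve `z ↦ (c z)⁻¹`, whose entries are those of the adjugate of `c z` (`Matrix.SpecialLinearGroup.coe_inv`), polynomials in the entries of `c z`. -/
theorem exists_curve {G : Subgroup (SLC m)} (hG : ZClosed G) (hc : IsConnected (G : Set (SLC m))) {g : SLC m} (hg : g ∈ G) :
    ∃ c : ℂ → SLC m, c 0 = 1 ∧ c 1 = g ∧ (∀ z, c z ∈ G) ∧ ∀ i j, Differentiable ℂ fun z => (c z).1 i j := by
  have key := mem_closure_exp hG hc hg
  refine Subgroup.closure_induction (p := fun g _ => ∃ c : ℂ → SLC m, c 0 = 1 ∧ c 1 = g ∧ (∀ z, c z ∈ G) ∧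
    ∀ i j, Differentiable ℂ fun z => (c z).1 i j) ?_ ?_ ?_ ?_ key
  · rintro h ⟨X, hX, hh⟩
    choose c hcG hc1 using fun z => tanG_exp hG hX z
    refine ⟨c, ?_, ?_, hcG, ?_⟩
    · apply Subtype.ext
      rw [hc1, zero_smul, NormedSpace.exp_zero]
      rfl
    · apply Subtype.ext
      rw [hc1, one_smul, hh]
    · intro i j
      have h2 : (fun z => (c z).1 i j) = fun z => (NormedSpace.exp (z • X)) i j := by
        funext z
        rw [hc1]
      rw [h2]
      exact fun z => (hasDerivAt_exp_entry X z i j).differentiableAt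
  · exact ⟨fun _ => 1, rfl, rfl, fun _ => G.one_mem, fun i j => differentiable_const _⟩
  · rintro x y _ _ ⟨c, c0, c1, cG, cD⟩ ⟨d, d0, d1, dG, dD⟩
    refine ⟨fun z => c z * d z, ?_, ?_, fun z => G.mul_mem (cG z) (dG z), fun i j => ?_⟩
    · simp only [c0, d0, mul_one]
    · simp only [c1, d1]
    · have h2 : (fun z => (c z * d z).1 i j) = fun z => ∑ k, (c z).1 i k * (d z).1 k j := by
        funext z
        exact Matrix.mul_apply
      rw [h2]
      exact Differentiable.fun_sum fun k _ => (cD i k).mul (dD k j)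
  · rintro x _ ⟨c, c0, c1, cG, cD⟩
    refine ⟨fun z => (c z)⁻¹, ?_, ?_, fun z => G.inv_mem (cG z), fun i j => ?_⟩
    · simp only [c0, inv_one]
    · simp only [c1]
    · have h2 : (fun z => ((c z)⁻¹).1 i j) = fun z => ((c z).1).adjugate i j := by
        funext z
        rw [← Matrix.SpecialLinearGroup.coe_inv]
      rw [h2]
      exact TnF_adj (fun z => (c z).1) cD i j

/-- Identity principle: a polynomial which vanishes on `G` near `1` vanishes on `G`, if `G` is connected. Proof. Let `g ∈ G` and `c` as in `exists_curve`. The function `z ↦ P (c z)` is entire (`evM_hasDerivAt`), and zero for `z` near `0` by continuity of the entries of `c`; so it is zero at `z = 1`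
(`AnalyticOnNhd.eqOn_zero_of_preconnected_of_eventuallyEq_zero`, `Differentiable.analyticAt`). -/
theorem vanI_of_near {G : Subgroup (SLC m)} (hG : ZClosed G) (hc : IsConnected (G : Set (SLC m)))
    (P : MvPolynomial (Fin m × Fin m) ℂ) (ε : ℝ) (hε : 0 < ε) (hP : ∀ g ∈ G, Near ε g → evM g.1 P = 0) : P ∈ vanI G := by
  intro g hg
  obtain ⟨c, c0, c1, cG, cD⟩ := exists_curve hG hc hg
  have hf : Differentiable ℂ fun z => evM (c z).1 P := by
    intro z
    exact (evM_hasDerivAt (fun z => (c z).1) (fun i j => deriv (fun w => (c w).1 i j) z) z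
      (fun i j => (cD i j z).hasDerivAt) P).differentiableAt
  have h0 : (fun z => evM (c z).1 P) =ᶠ[nhds 0] 0 := by
    have h1 : ∀ᶠ z in nhds (0 : ℂ), ∀ i j, ‖(c z).1 i j - (1 : Matrix (Fin m) (Fin m) ℂ) i j‖ < ε := by
      rw [Filter.eventually_all]
      intro i
      rw [Filter.eventually_all]
      intro j
      have h2 : ContinuousAt (fun z => ‖(c z).1 i j - (1 : Matrix (Fin m) (Fin m) ℂ) i j‖) 0 :=
        (((cD i j).continuous).sub continuous_const).norm.continuousAt
      have h3 : ‖(c 0).1 i j - (1 : Matrix (Fin m) (Fin m) ℂ) i j‖ < ε := by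
        rw [c0]
        have h4 : (1 : SLC m).1 i j = (1 : Matrix (Fin m) (Fin m) ℂ) i j := rfl
        rw [h4, sub_self, norm_zero]
        exact hε
      exact h2.eventually (gt_mem_nhds h3)
    filter_upwards [h1] with z hz
    exact hP (c z) (cG z) hz
  have h1 : AnalyticOnNhd ℂ (fun z => evM (c z).1 P) Set.univ := fun z _ => hf.analyticAt z
  have h2 := h1.eqOn_zero_of_preconnected_of_eventuallyEq_zero isPreconnected_univ (Set.mem_univ 0) h0 (Set.mem_univ (1 : ℂ))
  have h3 : evM (c 1).1 P = 0 := h2
  rw [c1] at h3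
  exact h3

end WCn
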