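import Pool.Agent.Lib.MP_c2b80f_alE.TnD
import Pool.Agent.Lib.MP_c2b80f_alE.TnE

/-!
# Consequences of almost simplicity (job TnG)
-/

open Matrix

namespace WCn

variable {m : ℕ}

/-- If `exp (z X)` takes only finitely many values for real `z` then `X = 0`: the map `t ↦ exp (t X)` from `ℝ` to a finite (hence discrete) set of matrices is continuous, so it is constant, and its derivative at `0` is `X` (`hasDerivAt_exp_entry`). -/
theorem eq_zero_of_finite (N : Set (SLC m)) (hN : N.Finite) (X : Matrix (Fin m) (Fin m) ℂ) (h : ∀ t : ℝ, ∃ g ∈ N, g.1 = NormedSpace.exp ((t : ℂ) • X)) : X = 0 := by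
  ext i j
  have hder := hasDerivAt_exp_entry X 0 i j
  have hcont : Continuous (fun t : ℝ => (NormedSpace.exp ((t : ℂ) • X)) i j) := by
    have h1 : Continuous (fun w : ℂ => (NormedSpace.exp (w • X)) i j) :=
      continuous_iff_continuousAt.2 fun w => (hasDerivAt_exp_entry X w i j).continuousAt
    exact h1.comp Complex.continuous_ofReal
  have hfin : (Set.range (fun t : ℝ => (NormedSpace.exp ((t : ℂ) • X)) i j)).Finite := by
    refine (hN.image (fun g : SLC m => g.1 i j)).subset ?_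
    rintro _ ⟨t, rfl⟩
    obtain ⟨g, hg, he⟩ := h t
    refine ⟨g, hg, ?_⟩
    show g.1 i j = _
    rw [he]
  have hsub : (Set.range (fun t : ℝ => (NormedSpace.exp ((t : ℂ) • X)) i j)).Subsingleton := by
    by_contra hcon
    rw [Set.not_subsingleton_iff] at hcon
    exact (isPreconnected_range hcont).infinite_of_nontrivial hcon hfin
  have hconst : (fun t : ℝ => (NormedSpace.exp ((t : ℂ) • X)) i j) = fun _ => (NormedSpace.exp (((0 : ℝ) : ℂ) • X)) i j := by
    funext t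
    exact hsub ⟨t, rfl⟩ ⟨0, rfl⟩
  have h1 : HasDerivAt (fun t : ℝ => (NormedSpace.exp ((t : ℂ) • X)) i j) ((NormedSpace.exp ((0 : ℂ) • X) * X) i j) 0 := by
    refine HasDerivAt.comp_ofReal (e := fun w : ℂ => (NormedSpace.exp (w • X)) i j) ?_
    rw [Complex.ofReal_zero]
    exact hder
  rw [hconst] at h1
  have h2 := h1.unique (hasDerivAt_const (0 : ℝ) _)
  rw [zero_smul, NormedSpace.exp_zero, Matrix.one_mul] at h2
  rw [h2]
  rfl

/-- Normal Zariski closed subgroups with a nonzero tangent vector are everything: by `AlmostSimple.simple` otherwise `N` is finite, and `tanG_exp` contradicts `eq_zero_of_finite`. -/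
theorem AlmostSimple.eq_of_tan {G : Subgroup (SLC m)} (hG : AlmostSimple G) (N : Subgroup (SLC m)) (hN : N ≤ G) (hNc : ZClosed N)
    (hNn : ∀ g ∈ G, ∀ h ∈ N, g * h * g⁻¹ ∈ N) (X : Matrix (Fin m) (Fin m) ℂ) (hX : X ∈ tanG N) (hX0 : X ≠ 0) : N = G := by
  rcases hG.simple N hN hNc hNn with h | h
  · exact h
  · exfalso
    apply hX0
    refine eq_zero_of_finite (N : Set (SLC m)) h X fun t => ?_
    obtain ⟨g, hg, he⟩ := tanG_exp hNc hX (t : ℂ)
    exact ⟨g, hg, he⟩

/-- The elements of `G` which commute with all matrices of a set `𝒴`. -/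
def comG (G : Subgroup (SLC m)) (𝒴 : Set (Matrix (Fin m) (Fin m) ℂ)) : Subgroup (SLC m) where
  carrier := {g | g ∈ G ∧ ∀ Y ∈ 𝒴, g.1 * Y = Y * g.1}
  mul_mem' := by
    intro g h hg hh
    refine ⟨G.mul_mem hg.1 hh.1, fun Y hY => ?_⟩
    rw [Matrix.SpecialLinearGroup.coe_mul, Matrix.mul_assoc, hh.2 Y hY, ← Matrix.mul_assoc, hg.2 Y hY, Matrix.mul_assoc]
  one_mem' := ⟨G.one_mem, fun Y _ => by simp⟩
  inv_mem' := by
    intro g hg
    refine ⟨G.inv_mem hg.1, fun Y hY => ?_⟩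
    have h1 : g.1 * (g⁻¹).1 = 1 := by
      rw [← Matrix.SpecialLinearGroup.coe_mul, mul_inv_cancel]; rfl
    have h2 : (g⁻¹).1 * g.1 = 1 := by
      rw [← Matrix.SpecialLinearGroup.coe_mul, inv_mul_cancel]; rfl
    calc (g⁻¹).1 * Y = (g⁻¹).1 * Y * (g.1 * (g⁻¹).1) := by rw [h1, Matrix.mul_one]
      _ = (g⁻¹).1 * (Y * g.1) * (g⁻¹).1 := by simp only [Matrix.mul_assoc]
      _ = (g⁻¹).1 * (g.1 * Y) * (g⁻¹).1 := by rw [hg.2 Y hY]
      _ = ((g⁻¹).1 * g.1) * Y * (g⁻¹).1 := by simp only [Matrix.mul_assoc]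
      _ = Y * (g⁻¹).1 := by rw [h2, Matrix.one_mul]

/-- `comG G 𝒴` is Zariski closed if `G` is: the entries of `g Y - Y g` are polynomials in the entries of `g`. -/
theorem comG_closed {G : Subgroup (SLC m)} (hG : ZClosed G) (𝒴 : Set (Matrix (Fin m) (Fin m) ℂ)) : ZClosed (comG G 𝒴) := by
  intro g hg
  refine ⟨hG g fun P hP => hg P fun h hh => hP h hh.1, fun Y hY => ?_⟩
  ext i j
  have key : ∀ x : Matrix (Fin m) (Fin m) ℂ, evM x (∑ k, MvPolynomial.X (i, k) * MvPolynomial.C (Y k j) -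
      ∑ k, MvPolynomial.C (Y i k) * MvPolynomial.X (k, j)) = (x * Y) i j - (Y * x) i j := by
    intro x
    unfold evM
    rw [map_sub, map_sum, map_sum, Matrix.mul_apply, Matrix.mul_apply]
    simp only [map_mul, MvPolynomial.eval_X, MvPolynomial.eval_C]
  have h1 := hg (∑ k, MvPolynomial.X (i, k) * MvPolynomial.C (Y k j) -
      ∑ k, MvPolynomial.C (Y i k) * MvPolynomial.X (k, j)) (by
    intro h hh
    rw [key, hh.2 Y hY, sub_self])
  rw [key] at h1
  exact sub_eq_zero.1 h1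

/-- The tangent vectors of `comG G 𝒴` are those of `G` which commute with `𝒴` (`mem_tanG_iff`, `commute_iff_exp`); this direction is what is needed. -/
theorem mem_tan_comG {G : Subgroup (SLC m)} (hG : ZClosed G) (𝒴 : Set (Matrix (Fin m) (Fin m) ℂ)) (X : Matrix (Fin m) (Fin m) ℂ)
    (hX : X ∈ tanG G) (h : ∀ Y ∈ 𝒴, X * Y = Y * X) : X ∈ tanG (comG G 𝒴) := by
  refine (mem_tanG_iff (comG_closed hG 𝒴) X).2 fun t => ?_
  obtain ⟨g, hg, he⟩ := tanG_exp hG hX (t : ℂ)
  refine ⟨g, ⟨hg, fun Y hY => ?_⟩, he⟩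
  rw [he]
  exact (commute_iff_exp X Y).1 (h Y hY) (t : ℂ)

end WCn
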