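import Pool.Agent.Lib.MP_c2b80f_alE.UDefs
import Pool.Agent.Lib.MP_c2b80f_alE.TnB
import Pool.Agent.Lib.MP_c2b80f_alE.TnC
import Pool.Agent.Lib.MP_c2b80f_alE.TnD
import Pool.Agent.Lib.MP_c2b80f_alE.TnE
import Pool.Agent.Lib.MP_c2b80f_alE.TnF
import Pool.Agent.Lib.MP_c2b80f_alE.TnG
import Pool.Agent.Lib.MP_c2b80f_alE.TnJ

/-!
# The Lie algebra of a Zariski closed group

The statements of this part are `ZClosed.isClosed`, `mem_tanG_iff`, `tanG_exp`, `tanG_conj`, `tanG_lie`, `near_exp`, `mem_closure_exp`, `vanI_of_near`,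
`AlmostSimple.adIrr`, `AlmostSimple.eq_of_tan` in the imported files.
-/
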