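import Pool.Agent.Lib.MP_c2b80f_alE.HsB
import Pool.Agent.Lib.MP_c2b80f_alE.UTan

/-!
# The torus and the root groups over the Witt vectors (job HsC)
-/

open Matrix

namespace WCn

variable {m r : ℕ} {ι : Type} [Fintype ι] [DecidableEq ι] {G : Subgroup (SLC m)} {D : RD m r ι} {p : ℕ} [Fact p.Prime] {A : Subring ℂ} {σ : A →+* ℤ_[p]}
  {O k : Type} [CommRing O] [IsDomain O] [Field k] [Algebra (ZMod p) k]

theorem Tz_mul (D : RD m r ι) (z z' : Fin r → Oˣ) : D.Tz (fun i => z i * z' i) = D.Tz z * D.Tz z' := by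
  unfold RD.Tz
  rw [Matrix.diagonal_mul_diagonal]
  congr 1
  funext a
  rw [← Units.val_mul, ← Finset.prod_mul_distrib]
  congr 1
  refine Finset.prod_congr rfl fun i _ => ?_
  rw [mul_zpow]

/-- Over `ℂ`: `z i = exp (t i)`, and `D.Tz z = exp (D.H t)` is in `G` (`tanG_exp`; `D.H t ∈ tanG G` by `IsRD.mem_iff`; `Matrix.exp_diagonal`). Over `O`: `WD.exists_GO`. -/
theorem WD.Tz_mem (W : WD p A σ O k) (hG : ZClosed G) (hD : IsRD G D) (z : Fin r → Oˣ) : ∃ h ∈ W.GO G, h.1 = D.Tz z := by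
  obtain ⟨t, ht⟩ : ∃ t : Fin r → ℂ, ∀ i, Complex.exp (t i) = W.J (z i) := by
    refine ⟨fun i => Complex.log (W.J (z i)), fun i => Complex.exp_log ?_⟩
    intro h
    have h1 : (z i : O) = 0 := W.J_inj (by rw [h, map_zero])
    exact (z i).ne_zero h1
  have hX : D.H t ∈ tanG G := by
    refine (hD.mem_iff _).2 ⟨t, 0, ?_⟩
    simp
  obtain ⟨g, hg, hg1⟩ := tanG_exp hG hX 1
  refine W.exists_GO (D.Tz z) hg ?_
  rw [hg1, one_smul]
  unfold RD.H RD.Tz
  rw [Matrix.exp_diagonal]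
  ext a b
  rw [Matrix.map_apply, Matrix.diagonal_apply, Matrix.diagonal_apply]
  split_ifs with hab
  · rw [Pi.coe_exp]
    have h1 : W.J ((∏ i, z i ^ D.wt a i : Oˣ) : O) = ((Units.map (W.J : O →* ℂ) (∏ i, z i ^ D.wt a i) : ℂˣ) : ℂ) := rfl
    rw [h1, map_prod, Units.coe_prod, ← Complex.exp_eq_exp_ℂ, Complex.exp_sum]
    refine Finset.prod_congr rfl fun i _ => ?_
    rw [map_zpow, Units.val_zpow_eq_zpow_val, Units.coe_map]
    change _ = (W.J (z i : O)) ^ D.wt a i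
    rw [← ht, ← Complex.exp_int_mul]
  · rw [map_zero]

/-- `1 + p ^ n c` is a unit for `n ≥ 1`. -/
theorem WD.unit_one_add (W : WD p A σ O k) {n : ℕ} (hn : 1 ≤ n) (c : O) : ∃ u : Oˣ, (u : O) = 1 + (p : O) ^ n * c := by
  have h1 : IsUnit (1 + (p : O) ^ n * c) := by
    refine W.res_unit _ ?_
    rw [map_add, map_mul, map_pow, W.res_p, zero_pow (by omega), zero_mul, add_zero, map_one]
    exact one_ne_zero
  exact ⟨h1.unit, rfl⟩

/-- `(1 + p ^ n c) ^ e ≡ 1 + p ^ n e c` modulo `p ^ (n + 1)` for integers `e`, and products. -/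
theorem WD.Tz_one_add (W : WD p A σ O k) (D : RD m r ι) {n : ℕ} (hn : 1 ≤ n) (c : Fin r → O) (z : Fin r → Oˣ) (hz : ∀ i, ∃ y, (z i : O) = 1 + (p : O) ^ n * c i + (p : O) ^ (n + 1) * y) :
    Cg p (n + 1) (D.Tz z) (1 + (p : O) ^ n • D.H c) := by
  obtain ⟨l, rfl⟩ : ∃ l, n = l + 1 := ⟨n - 1, by omega⟩
  let S : Subgroup (Oˣ × Multiplicative O) :=
    { carrier := {x | ∃ y, (x.1 : O) = 1 + (p : O) ^ (l + 1) * Multiplicative.toAdd x.2 + (p : O) ^ (l + 1 + 1) * y}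
      one_mem' := ⟨0, by simp⟩
      mul_mem' := by
        rintro ⟨x, c⟩ ⟨x', c'⟩ ⟨y, hy⟩ ⟨y', hy'⟩
        refine ⟨y + y' + (p : O) ^ l * (Multiplicative.toAdd c * Multiplicative.toAdd c') + (p : O) ^ (l + 1) * (Multiplicative.toAdd c * y' + y * Multiplicative.toAdd c') +
          (p : O) ^ (l + 2) * (y * y'), ?_⟩
        have hy1 : (x : O) = 1 + (p : O) ^ (l + 1) * Multiplicative.toAdd c + (p : O) ^ (l + 1 + 1) * y := hy
        have hy2 : (x' : O) = 1 + (p : O) ^ (l + 1) * Multiplicative.toAdd c' + (p : O) ^ (l + 1 + 1) * y' := hy'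
        change ((x * x' : Oˣ) : O) = 1 + (p : O) ^ (l + 1) * Multiplicative.toAdd (c * c') + _
        rw [Units.val_mul, hy1, hy2, toAdd_mul]
        ring
      inv_mem' := by
        rintro ⟨x, c⟩ ⟨y, hy⟩
        have hy1 : (x : O) = 1 + (p : O) ^ (l + 1) * Multiplicative.toAdd c + (p : O) ^ (l + 1 + 1) * y := hy
        refine ⟨((x⁻¹ : Oˣ) : O) * (-y + (p : O) ^ l * Multiplicative.toAdd c ^ 2 + (p : O) ^ (l + 1) * (Multiplicative.toAdd c * y)), ?_⟩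
        change ((x⁻¹ : Oˣ) : O) = 1 + (p : O) ^ (l + 1) * Multiplicative.toAdd (c⁻¹) + _
        rw [toAdd_inv]
        apply x.isUnit.mul_left_cancel
        have h1 : (x : O) * ((x⁻¹ : Oˣ) : O) = 1 := Units.mul_inv x
        have h2 : (x : O) * (1 + (p : O) ^ (l + 1) * -Multiplicative.toAdd c + (p : O) ^ (l + 1 + 1) * (((x⁻¹ : Oˣ) : O) * (-y + (p : O) ^ l * Multiplicative.toAdd c ^ 2 +
            (p : O) ^ (l + 1) * (Multiplicative.toAdd c * y)))) = (x : O) * (1 - (p : O) ^ (l + 1) * Multiplicative.toAdd c) +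
            ((x : O) * ((x⁻¹ : Oˣ) : O)) * ((p : O) ^ (l + 1 + 1) * (-y + (p : O) ^ l * Multiplicative.toAdd c ^ 2 + (p : O) ^ (l + 1) * (Multiplicative.toAdd c * y))) := by
          ring
        rw [h2, h1, hy1]
        ring }
  have hS : ∀ a, (∏ i, ((z i, Multiplicative.ofAdd (c i)) : Oˣ × Multiplicative O) ^ D.wt a i) ∈ S := by
    intro a
    refine Subgroup.prod_mem _ fun i _ => Subgroup.zpow_mem _ ?_ _
    exact hz i
  have hS' : ∀ a, ∃ y, ((∏ i, z i ^ D.wt a i : Oˣ) : O) = 1 + (p : O) ^ (l + 1) * (∑ i, (D.wt a i : O) * c i) + (p : O) ^ (l + 1 + 1) * y := by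
    intro a
    obtain ⟨y, hy⟩ := hS a
    refine ⟨y, ?_⟩
    rw [Prod.fst_prod, Prod.snd_prod] at hy
    simp only [Prod.pow_fst, Prod.pow_snd] at hy
    rw [hy, toAdd_prod]
    congr 3
    refine Finset.sum_congr rfl fun i _ => ?_
    rw [toAdd_zpow, toAdd_ofAdd, zsmul_eq_mul]
  choose y hy using hS'
  refine ⟨Matrix.diagonal y, ?_⟩
  ext a b
  simp only [RD.Tz, RD.H, Matrix.add_apply, Matrix.smul_apply, Matrix.one_apply, Matrix.diagonal_apply, smul_eq_mul]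
  split_ifs with hab
  · rw [hy]
  · ring

/-- If `z i ≡ z' i` modulo `p ^ n` then `Tz z ≡ Tz z'`. -/
theorem WD.Tz_congr (W : WD p A σ O k) (D : RD m r ι) {n : ℕ} (z z' : Fin r → Oˣ) (hz : ∀ i, ∃ y, (z i : O) = z' i + (p : O) ^ n * y) :
    Cg p n (D.Tz z) (D.Tz z') := by
  let S : Subgroup (Oˣ × Oˣ) :=
    { carrier := {x | ∃ y, (x.1 : O) = x.2 + (p : O) ^ n * y}
      one_mem' := ⟨0, by simp⟩
      mul_mem' := by
        rintro ⟨x, c⟩ ⟨x', c'⟩ ⟨y, hy⟩ ⟨y', hy'⟩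
        refine ⟨(c : O) * y' + y * x', ?_⟩
        have hy1 : (x : O) = c + (p : O) ^ n * y := hy
        have hy2 : (x' : O) = c' + (p : O) ^ n * y' := hy'
        change ((x * x' : Oˣ) : O) = ((c * c' : Oˣ) : O) + _
        rw [Units.val_mul, Units.val_mul, hy1, hy2]
        ring
      inv_mem' := by
        rintro ⟨x, c⟩ ⟨y, hy⟩
        have hy1 : (x : O) = c + (p : O) ^ n * y := hy
        refine ⟨-(((x⁻¹ : Oˣ) : O) * ((c⁻¹ : Oˣ) : O) * y), ?_⟩
        change ((x⁻¹ : Oˣ) : O) = ((c⁻¹ : Oˣ) : O) + _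
        have h1 : (x : O) * ((x⁻¹ : Oˣ) : O) = 1 := Units.mul_inv x
        have h2 : (c : O) * ((c⁻¹ : Oˣ) : O) = 1 := Units.mul_inv c
        linear_combination (-(((x⁻¹ : Oˣ) : O) * ((c⁻¹ : Oˣ) : O))) * hy1 + ((c⁻¹ : Oˣ) : O) * h1 - ((x⁻¹ : Oˣ) : O) * h2 }
  have hS : ∀ a, (∏ i, ((z i, z' i) : Oˣ × Oˣ) ^ D.wt a i) ∈ S := by
    intro a
    refine Subgroup.prod_mem _ fun i _ => Subgroup.zpow_mem _ ?_ _
    exact hz i
  have hS' : ∀ a, ∃ y, ((∏ i, z i ^ D.wt a i : Oˣ) : O) = ((∏ i, z' i ^ D.wt a i : Oˣ) : O) + (p : O) ^ n * y := by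
    intro a
    obtain ⟨y, hy⟩ := hS a
    refine ⟨y, ?_⟩
    rw [Prod.fst_prod, Prod.snd_prod] at hy
    exact hy
  choose y hy using hS'
  refine ⟨Matrix.diagonal y, ?_⟩
  ext a b
  simp only [RD.Tz, Matrix.add_apply, Matrix.smul_apply, Matrix.diagonal_apply, smul_eq_mul]
  split_ifs with hab
  · rw [hy]
  · ring

/-- One root group element: `x β (p ^ n c) ∈ G(O)` (`AD.Of.x_mem`, `eval₂_matP_map`), and it is `≡ 1 + p ^ n c e β` modulo `p ^ (n + 1)` (`x_zero`, `x_one`: `P(y) = P_0 + P_1 y + y² (...)`). -/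
theorem WD.root_mem (W : WD p A σ O k) {d : AD m r ι A} (hd : d.Of G D) (β : ι) {n : ℕ} (hn : 1 ≤ n) (c : O) :
    ∃ h ∈ W.GO G, Cg p (n + 1) h.1 (1 + ((p : O) ^ n * c) • (d.e β).map W.s) := by
  obtain ⟨l, rfl⟩ : ∃ l, n = l + 1 := ⟨n - 1, by omega⟩
  obtain ⟨g, hg, hg1⟩ := hd.x_mem β (W.J ((p : O) ^ (l + 1) * c))
  have h1 : g.1 = ((d.x β).map (Polynomial.eval₂ W.s ((p : O) ^ (l + 1) * c))).map W.J := by
    rw [eval₂_matP_map, W.J_s, hg1]
  obtain ⟨h, hh, hh1⟩ := W.exists_GO _ hg h1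
  refine ⟨h, hh, Matrix.of fun a b => (p : O) ^ l * c ^ 2 * Polynomial.eval₂ W.s ((p : O) ^ (l + 1) * c) (Polynomial.divX (Polynomial.divX (d.x β a b))), ?_⟩
  rw [hh1]
  ext a b
  rw [Matrix.map_apply, Matrix.add_apply, Matrix.add_apply, Matrix.smul_apply, Matrix.smul_apply, Matrix.map_apply, Matrix.of_apply, smul_eq_mul, smul_eq_mul]
  have h2 : d.x β a b = (Polynomial.divX (Polynomial.divX (d.x β a b)) * Polynomial.X + Polynomial.C (d.e β a b)) * Polynomial.X +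
      Polynomial.C ((1 : Matrix (Fin m) (Fin m) A) a b) := by
    rw [← hd.x_one β a b, ← hd.x_zero β a b]
    have h3 : (d.x β a b).coeff 1 = (Polynomial.divX (d.x β a b)).coeff 0 := by rw [Polynomial.coeff_divX]
    rw [h3, Polynomial.divX_mul_X_add, Polynomial.divX_mul_X_add]
  have h4 : W.s ((1 : Matrix (Fin m) (Fin m) A) a b) = (1 : Matrix (Fin m) (Fin m) O) a b := by
    rw [Matrix.one_apply, Matrix.one_apply]
    split_ifs
    · exact map_one _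
    · exact map_zero _
  nth_rewrite 1 [h2]
  rw [Polynomial.eval₂_add, Polynomial.eval₂_mul_X, Polynomial.eval₂_add, Polynomial.eval₂_mul_X, Polynomial.eval₂_C, Polynomial.eval₂_C, h4]
  ring

/-- The product of the root group elements (`Finset.induction_on` over the roots): `(1 + p ^ n X) (1 + p ^ n Y) ≡ 1 + p ^ n (X + Y)`. -/
theorem WD.roots_mem (W : WD p A σ O k) {d : AD m r ι A} (hd : d.Of G D) {n : ℕ} (hn : 1 ≤ n) (c : ι → O) :
    ∃ h ∈ W.GO G, Cg p (n + 1) h.1 (1 + (p : O) ^ n • ∑ β, c β • (d.e β).map W.s) := by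
  classical
  obtain ⟨l, rfl⟩ : ∃ l, n = l + 1 := ⟨n - 1, by omega⟩
  have key : ∀ S : Finset ι, ∃ h ∈ W.GO G, Cg p (l + 1 + 1) h.1 (1 + (p : O) ^ (l + 1) • ∑ β ∈ S, c β • (d.e β).map W.s) := by
    intro S
    induction S using Finset.induction_on with
    | empty =>
      refine ⟨1, (W.GO G).one_mem, ?_⟩
      rw [Finset.sum_empty, smul_zero, add_zero]
      exact Cg.refl _ _ _
    | insert β S hβ ih =>
      obtain ⟨h, hh, h1⟩ := ih
      obtain ⟨h', hh', h2⟩ := W.root_mem hd β (n := l + 1) (by omega) (c β)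
      refine ⟨h' * h, (W.GO G).mul_mem hh' hh, ?_⟩
      rw [Matrix.SpecialLinearGroup.coe_mul]
      refine (h2.mul h1).trans ?_
      rw [Finset.sum_insert hβ]
      refine ⟨(p : O) ^ l • ((c β • (d.e β).map W.s) * ∑ β ∈ S, c β • (d.e β).map W.s), ?_⟩
      simp only [Matrix.add_mul, Matrix.mul_add, Matrix.one_mul, Matrix.mul_one, smul_add, Matrix.smul_mul, Matrix.mul_smul, smul_smul]
      have h3 : (p : O) ^ (l + 1) * ((p : O) ^ (l + 1) * c β) = (p : O) ^ (l + 1 + 1) * ((p : O) ^ l * c β) := by ring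
      have h4 : (p : O) ^ (l + 1) * c β * (p : O) ^ (l + 1) = (p : O) ^ (l + 1 + 1) * ((p : O) ^ l * c β) := by ring
      have h5 : (p : O) ^ (l + 1 + 1) * (p : O) ^ l * c β = (p : O) ^ (l + 1 + 1) * ((p : O) ^ l * c β) := by ring
      simp only [h3]
      abel
  obtain ⟨h, hh, h1⟩ := key Finset.univ
  exact ⟨h, hh, h1⟩

end WCn
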