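import Pool.Agent.Lib.MP_c2b80f_alE.HsC

/-!
# One step of the Hensel argument (job HsD)
-/

open Matrix

namespace WCn

variable {m r : ℕ} {ι : Type} [Fintype ι] [DecidableEq ι] {G : Subgroup (SLC m)} {D : RD m r ι} {p : ℕ} [Fact p.Prime] {A : Subring ℂ} {σ : A →+* ℤ_[p]}
  {O k : Type} [CommRing O] [IsDomain O] [Field k] [Algebra (ZMod p) k]

private theorem HsD_sub {O : Type} [CommRing O] {p n : ℕ} {X Y X' Y' : Matrix (Fin m) (Fin m) O} (h : Cg p n X Y) (h' : Cg p n X' Y') :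
    Cg p n (X - X') (Y - Y') := by
  obtain ⟨Z, hZ⟩ := h
  obtain ⟨Z', hZ'⟩ := h'
  refine ⟨Z - Z', ?_⟩
  rw [hZ, hZ', smul_sub]
  abel

private theorem HsD_sum {O : Type} [CommRing O] {p n : ℕ} {κ : Type} (s : Finset κ) (X Y : κ → Matrix (Fin m) (Fin m) O) (h : ∀ i ∈ s, Cg p n (X i) (Y i)) :
    Cg p n (∑ i ∈ s, X i) (∑ i ∈ s, Y i) := by
  classical
  induction s using Finset.induction_on with
  | empty => exact Cg.refl _ _ _
  | insert a s ha ih =>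
    rw [Finset.sum_insert ha, Finset.sum_insert ha]
    exact (h a (Finset.mem_insert_self a s)).add (ih fun i hi => h i (Finset.mem_insert_of_mem hi))

/-- The effect of a conjugation. `h⁻¹ γ h - γ = h⁻¹ (γ h - h γ) = p ^ l h⁻¹ (S (h - 1) - (h - 1) S)`, `h - 1 ≡ p ^ (n + 1) Z` modulo `p ^ (n + 2)`, `S ≡ H` and `h⁻¹ ≡ 1` modulo `p`. -/
theorem cg_conj {O : Type} [CommRing O] (p : ℕ) {l n : ℕ} {γ h : Matrix.SpecialLinearGroup (Fin m) O} {S H Z : Matrix (Fin m) (Fin m) O}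
    (hγ : γ.1 = 1 + (p : O) ^ l • S) (hS : Cg p 1 S H) (hh : Cg p (n + 2) h.1 (1 + (p : O) ^ (n + 1) • Z)) :
    Cg p (l + n + 2) (h⁻¹ * γ * h).1 (γ.1 + (p : O) ^ (l + n + 1) • (H * Z - Z * H)) := by
  obtain ⟨Q, hQ⟩ := hh
  have h1 : h.1 = 1 + (p : O) ^ (n + 1) • (Z + (p : O) • Q) := by
    rw [hQ, smul_add, smul_smul, ← pow_succ, add_assoc]
  have h2 : Cg p 1 (Z + (p : O) • Q) Z := ⟨Q, by rw [pow_one]⟩
  have hinv : (h⁻¹).1 * h.1 = 1 := by
    rw [← Matrix.SpecialLinearGroup.coe_mul, inv_mul_cancel]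
    rfl
  have h3 : Cg p 1 (h⁻¹).1 1 := by
    have h4 : Cg p 1 h.1 (1 : Matrix.SpecialLinearGroup (Fin m) O).1 := by
      refine ⟨(p : O) ^ n • (Z + (p : O) • Q), ?_⟩
      rw [h1, smul_smul, ← pow_add, add_comm 1 n]
      rfl
    have h5 := Cg.inv h4
    rw [inv_one] at h5
    exact h5
  have h6 : (h⁻¹ * γ * h).1 = γ.1 + (p : O) ^ (l + n + 1) • ((h⁻¹).1 * (S * (Z + (p : O) • Q) - (Z + (p : O) • Q) * S)) := by
    have h7 : γ.1 * h.1 = h.1 * γ.1 + (p : O) ^ (l + n + 1) • (S * (Z + (p : O) • Q) - (Z + (p : O) • Q) * S) := by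
      rw [hγ, h1]
      have h8 : (p : O) ^ (l + n + 1) = (p : O) ^ l * (p : O) ^ (n + 1) := by rw [← pow_add, add_assoc]
      rw [h8]
      simp only [Matrix.add_mul, Matrix.mul_add, Matrix.one_mul, Matrix.mul_one, Matrix.smul_mul, Matrix.mul_smul, smul_sub, smul_add, smul_smul]
      rw [mul_comm ((p : O) ^ (n + 1)) ((p : O) ^ l)]
      have h9 : (p : O) ^ (n + 1) * ((p : O) ^ l * (p : O)) = (p : O) ^ l * (p : O) ^ (n + 1) * (p : O) := by ring
      have h10 : (p : O) ^ l * ((p : O) ^ (n + 1) * (p : O)) = (p : O) ^ l * (p : O) ^ (n + 1) * (p : O) := by ring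
      have h11 : (p : O) ^ (n + 1) * (p : O) * (p : O) ^ l = (p : O) ^ l * (p : O) ^ (n + 1) * (p : O) := by ring
      simp only [h10, h11]
      abel
    rw [Matrix.SpecialLinearGroup.coe_mul, Matrix.SpecialLinearGroup.coe_mul, Matrix.mul_assoc, h7, Matrix.mul_add, ← Matrix.mul_assoc, hinv,
      Matrix.one_mul, Matrix.mul_smul]
  rw [h6]
  have h7 : Cg p 1 ((h⁻¹).1 * (S * (Z + (p : O) • Q) - (Z + (p : O) • Q) * S)) (1 * (H * Z - Z * H)) :=
    h3.mul (HsD_sub (hS.mul h2) (h2.mul hS))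
  rw [Matrix.one_mul] at h7
  have h8 := Cg.smul (l + n + 1) h7
  exact (Cg.refl _ _ _).add h8

/-- `[H t, e β] = β(t) e β` over `O`: the support of `d.e β` is that of `D.e β` (`AD.Of.e_eq`, `IsRD.supp`). -/
theorem WD.H_commO (W : WD p A σ O k) (hD : IsRD G D) {d : AD m r ι A} (hd : d.Of G D) (t : Fin r → O) (β : ι) :
    D.H t * (d.e β).map W.s - (d.e β).map W.s * D.H t = D.rt β t • (d.e β).map W.s := by
  ext a b
  rw [Matrix.sub_apply, Matrix.smul_apply, smul_eq_mul]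
  simp only [RD.H, Matrix.diagonal_mul, Matrix.mul_diagonal, Matrix.map_apply]
  by_cases h0 : d.e β a b = 0
  · rw [h0, map_zero]
    ring
  · have h1 : D.e β a b ≠ 0 := by
      rw [← hd.e_eq β, Matrix.map_apply]
      intro h
      exact h0 (Subtype.ext h)
    have h2 := hD.supp β a b h1
    have h3 : D.rt β t = ∑ i, (D.wt a i : O) * t i - ∑ i, (D.wt b i : O) * t i := by
      unfold RD.rt
      rw [← Finset.sum_sub_distrib]
      refine Finset.sum_congr rfl fun i _ => ?_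
      rw [← h2 i]
      push_cast
      ring
    rw [h3]
    ring

/-- One step. Let `T = D.Tz z` (`Tz_mem`), `γ₁ = g⁻¹ γ g`. `T⁻¹ γ₁ ∈ G(O)` is `1 + p ^ (l + n + 1) Y`, so `γ₁ = T + p ^ (l + n + 1) T Y ≡ T + p ^ (l + n + 1) Y` (`T ≡ 1` modulo `p`). By `GO_lie`, `Y ≡ H c + ∑ y β e β` modulo `p`, where
`c i = tr(z (inl i) Y)`, `y β = tr(z (inr β) Y)` (`z` mapped by `W.s`; `cg_one_iff`; `W.q = W.res.comp W.s`; `H_eq_sum`; split the sum over `Fin r ⊕ ι`). Take `h ≡ 1 + p ^ (n + 1) Z`, `Z = ∑ (-(y β * v β)) e β` (`roots_mem`), `g' = g h`, `z' i = z i (1 + p ^ (l + n + 1) c i)`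
(`unit_one_add`). By `cg_conj` (`γ₁ = 1 + p ^ l S`, `S ≡ H t`, because `Tz z ≡ 1 + p ^ l H t` modulo `p ^ (l + 1)`, `Tz_one_add`; `cg_cancel`) and `H_commO`: `h⁻¹ γ₁ h ≡ γ₁ - p ^ (l + n + 1) ∑ y β e β ≡ T + p ^ (l + n + 1) H c`, and
`Tz z' = Tz z * Tz (1 + p ^ (l + n + 1) c) ≡ T (1 + p ^ (l + n + 1) H c) ≡ T + p ^ (l + n + 1) H c` (`Tz_mul`, `Tz_one_add`). -/
theorem WD.hensel_step (W : WD p A σ O k) (hG : ZClosed G) (hD : IsRD G D) {d : AD m r ι A} (hd : d.Of G D) {l n : ℕ} (hl : 1 ≤ l)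
    {γ : Matrix.SpecialLinearGroup (Fin m) O} (hγ : γ ∈ W.GO G) (t : Fin r → O) (v : ι → O) (hv : ∀ β, D.rt β t * v β = 1)
    {g : Matrix.SpecialLinearGroup (Fin m) O} (hg : g ∈ W.GO G) (z : Fin r → Oˣ) (hz : ∀ i, ∃ y, (z i : O) = 1 + (p : O) ^ l * t i + (p : O) ^ (l + 1) * y)
    (h : Cg p (l + n + 1) (g⁻¹ * γ * g).1 (D.Tz z)) :
    ∃ g' ∈ W.GO G, ∃ z' : Fin r → Oˣ, (∀ i, ∃ y, (z' i : O) = 1 + (p : O) ^ l * t i + (p : O) ^ (l + 1) * y) ∧ Cg p (n + 1) g'.1 g.1 ∧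
      (∀ i, ∃ y, (z' i : O) = z i + (p : O) ^ (n + 1) * y) ∧ Cg p (l + n + 2) (g'⁻¹ * γ * g').1 (D.Tz z') := by
  classical
  obtain ⟨T, hT, hTz⟩ := W.Tz_mem hG hD z
  obtain ⟨γ₁, hγ₁⟩ : ∃ γ₁, γ₁ = g⁻¹ * γ * g := ⟨_, rfl⟩
  have hγ₁G : γ₁ ∈ W.GO G := by
    rw [hγ₁]
    exact (W.GO G).mul_mem ((W.GO G).mul_mem ((W.GO G).inv_mem hg) hγ) hg
  rw [← hγ₁, ← hTz] at h
  obtain ⟨Y₀, hY₀⟩ := h
  have hTT : (T⁻¹).1 * T.1 = 1 := by
    rw [← Matrix.SpecialLinearGroup.coe_mul, inv_mul_cancel]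
    rfl
  have hTT' : T.1 * (T⁻¹).1 = 1 := by
    rw [← Matrix.SpecialLinearGroup.coe_mul, mul_inv_cancel]
    rfl
  obtain ⟨Y, hY⟩ : ∃ Y, Y = (T⁻¹).1 * Y₀ := ⟨_, rfl⟩
  have hTY : T.1 * Y = Y₀ := by rw [hY, ← Matrix.mul_assoc, hTT', Matrix.one_mul]
  have hδ : (T⁻¹ * γ₁).1 = 1 + (p : O) ^ (l + n + 1) • Y := by
    rw [Matrix.SpecialLinearGroup.coe_mul, hY₀, Matrix.mul_add, hTT, Matrix.mul_smul, hY]
  have hlie := W.GO_lie hd ((W.GO G).mul_mem ((W.GO G).inv_mem hT) hγ₁G) (n := l + n + 1) (by omega) Y hδ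
  obtain ⟨c, hc⟩ : ∃ c : Fin r → O, c = fun i => ((d.z (Sum.inl i)).map W.s * Y).trace := ⟨_, rfl⟩
  obtain ⟨y, hy⟩ : ∃ y : ι → O, y = fun β => ((d.z (Sum.inr β)).map W.s * Y).trace := ⟨_, rfl⟩
  have htr : ∀ κ, (((d.map W.q).z κ) * Y.map W.res).trace = W.res ((d.z κ).map W.s * Y).trace := by
    intro κ
    have h1 : W.res ((d.z κ).map W.s * Y).trace = (((d.z κ).map W.s * Y).map W.res).trace := by
      simp only [Matrix.trace, Matrix.diag, Matrix.map_apply, map_sum]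
    rw [h1, Matrix.map_mul, Matrix.map_map]
    rfl
  have hYc : Cg p 1 Y (D.H c + ∑ β, y β • (d.e β).map W.s) := by
    rw [W.cg_one_iff, hlie, Fintype.sum_sum_type]
    have h1 : (D.H c + ∑ β, y β • (d.e β).map W.s).map W.res = (D.H c).map W.res + (∑ β, y β • (d.e β).map W.s).map W.res :=
      Matrix.map_add W.res (map_add W.res) _ _
    have h2 : (∑ β, y β • (d.e β).map W.s).map W.res = ∑ β, (y β • (d.e β).map W.s).map W.res :=
      map_sum W.res.mapMatrix (fun β => y β • (d.e β).map W.s) Finset.univ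
    rw [h1, h2]
    congr 1
    · ext a b
      simp only [htr, Matrix.sum_apply, Matrix.smul_apply, Matrix.map_apply, smul_eq_mul, AD.b, RD.H, Matrix.diagonal_apply]
      split_ifs with hab
      · rw [map_sum]
        refine Finset.sum_congr rfl fun i _ => ?_
        rw [Finset.sum_eq_single i, Pi.single_eq_same, map_mul, map_intCast, hc]
        · ring
        · intro j _ hj
          rw [Pi.single_eq_of_ne hj, mul_zero]
        · intro hi
          exact absurd (Finset.mem_univ i) hi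
      · simp
    · refine Finset.sum_congr rfl fun β _ => ?_
      rw [htr]
      have h3 : (y β • (d.e β).map W.s).map W.res = W.res (y β) • ((d.e β).map W.s).map W.res :=
        Matrix.map_smul' W.res (y β) _ (map_mul W.res)
      rw [h3, Matrix.map_map, hy]
      rfl
  obtain ⟨h, hhG, hh⟩ := W.roots_mem hd (n := n + 1) (by omega) (fun β => -(y β * v β))
  have hex : ∀ i, ∃ u : Oˣ, (u : O) = 1 + (p : O) ^ (l + n + 1) * c i := fun i => W.unit_one_add (by omega) (c i)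
  choose u hu using hex
  have hγ₁T : Cg p (l + n + 2) γ₁.1 (T.1 + (p : O) ^ (l + n + 1) • Y) := by
    have hT1 : Cg p 1 T.1 1 := by
      have h1 := W.Tz_one_add D hl t z hz
      rw [← hTz] at h1
      obtain ⟨Q, hQ⟩ := h1
      obtain ⟨l', rfl⟩ : ∃ l', l = l' + 1 := ⟨l - 1, by omega⟩
      refine ⟨(p : O) ^ l' • D.H t + (p : O) ^ (l' + 1) • Q, ?_⟩
      rw [hQ, smul_add, smul_smul, smul_smul, ← pow_add, ← pow_add, add_comm 1 l', add_comm 1 (l' + 1), add_assoc]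
    have h1 : Cg p 1 (T.1 * Y) (1 * Y) := hT1.mul (Cg.refl _ _ _)
    rw [Matrix.one_mul] at h1
    have h2 := Cg.smul (l + n + 1) h1
    rw [hTY] at h2
    rw [hY₀]
    exact (Cg.refl _ _ _).add h2
  refine ⟨g * h, (W.GO G).mul_mem hg hhG, fun i => z i * u i, ?_, ?_, ?_, ?_⟩
  · intro i
    obtain ⟨x, hx⟩ := hz i
    refine ⟨x + (p : O) ^ n * (c i * z i), ?_⟩
    rw [Units.val_mul, hu, mul_add, mul_one]
    have h1 : (z i : O) * ((p : O) ^ (l + n + 1) * c i) = (p : O) ^ (l + 1) * ((p : O) ^ n * (c i * z i)) := by ring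
    rw [h1]
    nth_rewrite 1 [hx]
    ring
  · obtain ⟨Q, hQ⟩ := hh
    have h1 : Cg p (n + 1) h.1 1 := by
      refine ⟨∑ β, (-(y β * v β)) • (d.e β).map W.s + (p : O) • Q, ?_⟩
      rw [hQ, smul_add, smul_smul, ← pow_succ, add_assoc]
    have h2 := (Cg.refl p (n + 1) g.1).mul h1
    rw [Matrix.mul_one] at h2
    rw [Matrix.SpecialLinearGroup.coe_mul]
    exact h2
  · intro i
    refine ⟨(p : O) ^ l * (c i * z i), ?_⟩
    rw [Units.val_mul, hu]
    ring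
  · have h1 : (g * h)⁻¹ * γ * (g * h) = h⁻¹ * γ₁ * h := by
      rw [hγ₁]
      group
    rw [h1]
    have hTone := W.Tz_one_add D hl t z hz
    rw [← hTz] at hTone
    obtain ⟨Q, hQ⟩ := hTone
    have hS : γ₁.1 = 1 + (p : O) ^ l • (D.H t + (p : O) • Q + (p : O) ^ (n + 1) • Y₀) := by
      rw [hY₀, hQ, smul_add, smul_add, smul_smul, smul_smul, ← pow_succ, ← pow_add, add_assoc, add_assoc, add_assoc, add_assoc]
    have hS1 : Cg p 1 (D.H t + (p : O) • Q + (p : O) ^ (n + 1) • Y₀) (D.H t) := by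
      refine ⟨Q + (p : O) ^ n • Y₀, ?_⟩
      rw [pow_one, smul_add, smul_smul, ← pow_succ', add_assoc]
    have h2 := cg_conj p hS hS1 hh
    have hcomm : D.H t * (∑ β, (-(y β * v β)) • (d.e β).map W.s) - (∑ β, (-(y β * v β)) • (d.e β).map W.s) * D.H t =
        - ∑ β, y β • (d.e β).map W.s := by
      rw [Matrix.mul_sum, Matrix.sum_mul, ← Finset.sum_sub_distrib, ← Finset.sum_neg_distrib]
      refine Finset.sum_congr rfl fun β _ => ?_
      rw [Matrix.mul_smul, Matrix.smul_mul, ← smul_sub, W.H_commO hD hd, smul_smul, ← neg_smul]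
      congr 1
      have h3 := hv β
      linear_combination (-(y β)) * h3
    rw [hcomm] at h2
    refine h2.trans ?_
    have h3 : Cg p (l + n + 2) (γ₁.1 + (p : O) ^ (l + n + 1) • - ∑ β, y β • (d.e β).map W.s)
        (T.1 + (p : O) ^ (l + n + 1) • Y + (p : O) ^ (l + n + 1) • - ∑ β, y β • (d.e β).map W.s) := hγ₁T.add (Cg.refl _ _ _)
    refine h3.trans ?_
    have h4 : T.1 + (p : O) ^ (l + n + 1) • Y + (p : O) ^ (l + n + 1) • - ∑ β, y β • (d.e β).map W.s =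
        T.1 + (p : O) ^ (l + n + 1) • (Y - ∑ β, y β • (d.e β).map W.s) := by
      rw [add_assoc, ← smul_add, sub_eq_add_neg]
    rw [h4]
    have h5 : Cg p 1 (Y - ∑ β, y β • (d.e β).map W.s) (D.H c) := by
      have h6 := HsD_sub hYc (Cg.refl p 1 (∑ β, y β • (d.e β).map W.s))
      rw [add_sub_cancel_right] at h6
      exact h6
    refine ((Cg.refl _ _ _).add (Cg.smul (l + n + 1) h5)).trans ?_
    refine Cg.symm ?_
    rw [Tz_mul, ← hTz]
    have h7 := W.Tz_one_add D (n := l + n + 1) (by omega) c u (fun i => ⟨0, by rw [hu i, mul_zero, add_zero]⟩)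
    have h8 := (Cg.refl p (l + n + 2) T.1).mul h7
    refine h8.trans ?_
    rw [Matrix.mul_add, Matrix.mul_one, Matrix.mul_smul]
    have hT1 : Cg p 1 T.1 1 := by
      obtain ⟨l', rfl⟩ : ∃ l', l = l' + 1 := ⟨l - 1, by omega⟩
      refine ⟨(p : O) ^ l' • D.H t + (p : O) ^ (l' + 1) • Q, ?_⟩
      rw [hQ, smul_add, smul_smul, smul_smul, ← pow_add, ← pow_add, add_comm 1 l', add_comm 1 (l' + 1), add_assoc]
    have h9 : Cg p 1 (T.1 * D.H c) (1 * D.H c) := hT1.mul (Cg.refl _ _ _)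
    rw [Matrix.one_mul] at h9
    exact (Cg.refl _ _ _).add (Cg.smul (l + n + 1) h9)

end WCn
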