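import Mathlib

/-!
# A subgroup of a finite group which meets all conjugacy classes (job JhA)
-/

namespace WCn

/-- Jordan. Proof. Consider the action of `W` on the finite set `X = W ⧸ S` (left cosets). It is transitive (one orbit), and every `w ∈ W` has a fixed point: if `s = v⁻¹ w v ∈ S` then `w • (v S) = v s S = v S`. Burnside's lemma
(`MulAction.sum_card_fixedBy_eq_card_orbits_mul_card_group`): `∑ w, |fixedBy X w| = |W|`. All terms are `≥ 1` and the term of `w = 1` is `|X|`. So `|X| = 1` and `S = ⊤` (`Subgroup.index_eq_one`). (Use `Fintype.ofFinite`, `Nat.card`.) -/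
theorem jordan_conj {W : Type*} [Group W] [Finite W] (S : Subgroup W) (h : ∀ w : W, ∃ v : W, v⁻¹ * w * v ∈ S) : S = ⊤ := by
  classical
  have i1 : Fintype W := Fintype.ofFinite W
  have i2 : Fintype (W ⧸ S) := Fintype.ofFinite (W ⧸ S)
  have i3 : ∀ w : W, Fintype (MulAction.fixedBy (W ⧸ S) w) := fun w => Fintype.ofFinite _
  have i4 : Fintype (Quotient (MulAction.orbitRel W (W ⧸ S))) := Fintype.ofFinite _
  have hB := MulAction.sum_card_fixedBy_eq_card_orbits_mul_card_group W (W ⧸ S)
  have hsub : Subsingleton (Quotient (MulAction.orbitRel W (W ⧸ S))) :=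
    (MulAction.pretransitive_iff_subsingleton_quotient W (W ⧸ S)).1 inferInstance
  have horb : Fintype.card (Quotient (MulAction.orbitRel W (W ⧸ S))) = 1 := by
    rw [Fintype.card_eq_one_iff]
    exact ⟨Quotient.mk _ ((1 : W) : W ⧸ S), fun y => Subsingleton.elim _ _⟩
  rw [horb, one_mul] at hB
  have hge : ∀ w : W, 1 ≤ Fintype.card (MulAction.fixedBy (W ⧸ S) w) := by
    intro w
    obtain ⟨v, hv⟩ := h w
    have hne : Nonempty (MulAction.fixedBy (W ⧸ S) w) := by
      refine ⟨⟨(v : W ⧸ S), ?_⟩⟩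
      rw [MulAction.mem_fixedBy]
      show ((w * v : W) : W ⧸ S) = (v : W ⧸ S)
      refine (QuotientGroup.eq.2 ?_).symm
      rw [← mul_assoc]
      exact hv
    exact Fintype.card_pos_iff.2 hne
  have hone : Fintype.card (MulAction.fixedBy (W ⧸ S) (1 : W)) = Fintype.card (W ⧸ S) := by
    refine Fintype.card_congr ⟨fun x => x.1, fun x => ⟨x, ?_⟩, fun x => rfl, fun x => rfl⟩
    rw [MulAction.mem_fixedBy, one_smul]
  have hcard : Fintype.card (W ⧸ S) ≤ 1 := by
    by_contra hlt
    rw [not_le] at hlt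
    have h1 : ∑ _w : W, 1 < ∑ w : W, Fintype.card (MulAction.fixedBy (W ⧸ S) w) := by
      refine Finset.sum_lt_sum (fun w _ => hge w) ⟨1, Finset.mem_univ _, ?_⟩
      rw [hone]
      exact hlt
    rw [hB, Finset.sum_const, Finset.card_univ, smul_eq_mul, mul_one] at h1
    exact lt_irrefl _ h1
  have hs : Subsingleton (W ⧸ S) := Fintype.card_le_one_iff_subsingleton.1 hcard
  rw [← Subgroup.index_eq_one]
  unfold Subgroup.index
  exact Nat.card_eq_one_iff_unique.2 ⟨hs, ⟨((1 : W) : W ⧸ S)⟩⟩

end WCn
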