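import Pool.Agent.Lib.MP_c2b80f_alE.JhB

/-!
# Two diagonalisations of the same element (job JhC)
-/

open Matrix

namespace WCn

variable {m r : ℕ} {ι : Type} [Fintype ι] [DecidableEq ι] {G : Subgroup (SLC m)} {D : RD m r ι}

private theorem JhC_eq (hD : IsRD G D) (y' : Fin m → ℂˣ) (hy' : ∀ a b, y' a = y' b → D.wt a = D.wt b)
    {X : Matrix (Fin m) (Fin m) ℂ} (hX : X ∈ tanG G)
    (h : X * Matrix.diagonal (fun j => (y' j : ℂ)) = Matrix.diagonal (fun j => (y' j : ℂ)) * X) :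
    ∃ t' : Fin r → ℂ, X = D.H t' := by
  obtain ⟨t', x, hx⟩ := (hD.mem_iff X).1 hX
  have h0 : ∀ β, x β = 0 := by
    intro β
    by_contra hβ
    obtain ⟨a, b, hab⟩ : ∃ a b, D.e β a b ≠ 0 := by
      by_contra hc
      push Not at hc
      exact hD.e_ne β (by
        ext a b
        exact hc a b)
    have hs := hD.supp β a b hab
    have hne : a ≠ b := by
      rintro rfl
      apply hD.root_ne β
      funext i
      rw [← hs i, sub_self, Pi.zero_apply]
    have hγ : ∀ γ, γ ≠ β → D.e γ a b = 0 := by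
      intro γ hγ
      by_contra hc
      apply hγ
      apply hD.root_inj
      funext i
      rw [← hD.supp γ a b hc i, hs i]
    have h1 : X a b = x β * D.e β a b := by
      rw [hx, Matrix.add_apply, Matrix.sum_apply, Finset.sum_eq_single β, Matrix.smul_apply, smul_eq_mul]
      · have h2 : D.H t' a b = 0 := Matrix.diagonal_apply_ne _ hne
        rw [h2, zero_add]
      · intro γ _ hγ'
        rw [Matrix.smul_apply, hγ γ hγ', smul_zero]
      · intro hc
        exact absurd (Finset.mem_univ β) hc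
    have h2 := congrFun (congrFun h a) b
    rw [Matrix.mul_diagonal, Matrix.diagonal_mul] at h2
    have h3 : X a b ≠ 0 := by
      rw [h1]
      exact mul_ne_zero hβ hab
    have h4 : (y' b : ℂ) = y' a := by
      rw [mul_comm] at h2
      exact mul_right_cancel₀ h3 h2
    have h5 : y' a = y' b := Units.ext h4.symm
    apply hD.root_ne β
    funext i
    rw [← hs i, hy' a b h5, sub_self, Pi.zero_apply]
  refine ⟨t', ?_⟩
  rw [hx, Finset.sum_eq_zero, add_zero]
  intro β _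
  rw [h0 β, zero_smul]

/-- Proof. Let `X ∈ tanG G` commute with `diagonal y'`. Write `X = H t' + ∑ x_β e_β` (`IsRD.mem_iff`). If `x_β ≠ 0`, choose an entry `(a, b)` with `e_β a b ≠ 0` (`e_ne`); `wt a - wt b = root β ≠ 0` (`supp`, `root_ne`), so `a ≠ b`, and for `γ ≠ β` `e_γ a b = 0` (`supp`, `root_inj`), and
`(H t') a b = 0`. So `X a b = x_β * e_β a b ≠ 0`; commuting means `y' a * X a b = X a b * y' b`, so `y' a = y' b` and `wt a = wt b` by `hy'`, a contradiction. So `X = H t'`. Apply this to `X = n H(t) n⁻¹` (`tanG_conj`, `H_mem`), which commutes with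
`n (diagonal y) n⁻¹ = diagonal y'` (`h`; diagonal matrices commute). -/
theorem normalizes_of_diag (hD : IsRD G D) {n : SLC m} (hn : n ∈ G) (y y' : Fin m → ℂˣ) (hy' : ∀ a b, y' a = y' b → D.wt a = D.wt b)
    (h : n.1 * Matrix.diagonal (fun j => (y j : ℂ)) = Matrix.diagonal (fun j => (y' j : ℂ)) * n.1) (t : Fin r → ℂ) :
    ∃ t' : Fin r → ℂ, n.1 * D.H t * (n⁻¹).1 = D.H t' := by
  refine JhC_eq hD y' hy' (tanG_conj (hD.H_mem t) hn) ?_
  obtain ⟨Y, hY⟩ : ∃ Y, Y = Matrix.diagonal (fun j => (y j : ℂ)) := ⟨_, rfl⟩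
  obtain ⟨Y', hY'⟩ : ∃ Y', Y' = Matrix.diagonal (fun j => (y' j : ℂ)) := ⟨_, rfl⟩
  rw [← hY, ← hY'] at h
  rw [← hY']
  have h1 : n.1 * (n⁻¹).1 = 1 := congrArg Subtype.val (mul_inv_cancel n)
  have h2 : (n⁻¹).1 * n.1 = 1 := congrArg Subtype.val (inv_mul_cancel n)
  have h3 : (n⁻¹).1 * Y' = Y * (n⁻¹).1 := by
    calc (n⁻¹).1 * Y' = (n⁻¹).1 * (Y' * n.1) * (n⁻¹).1 := by
          rw [Matrix.mul_assoc, Matrix.mul_assoc Y', h1, Matrix.mul_one]
      _ = (n⁻¹).1 * (n.1 * Y) * (n⁻¹).1 := by rw [h]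
      _ = Y * (n⁻¹).1 := by rw [← Matrix.mul_assoc (n⁻¹).1, h2, Matrix.one_mul]
  have h4 : D.H t * Y = Y * D.H t := by
    rw [hY]
    unfold RD.H
    rw [Matrix.diagonal_mul_diagonal, Matrix.diagonal_mul_diagonal]
    congr 1
    funext j
    ring
  calc n.1 * D.H t * (n⁻¹).1 * Y' = n.1 * D.H t * (Y * (n⁻¹).1) := by rw [Matrix.mul_assoc, h3]
    _ = n.1 * (D.H t * Y) * (n⁻¹).1 := by simp only [Matrix.mul_assoc]
    _ = n.1 * Y * D.H t * (n⁻¹).1 := by rw [h4]; simp only [Matrix.mul_assoc]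
    _ = Y' * (n.1 * D.H t * (n⁻¹).1) := by rw [h]; simp only [Matrix.mul_assoc]

/-- Proof. Choose `b'` with `n a b' ≠ 0` (`exists_entry_ne`). Entry `(a, b')` of `h`: `n a b' * y b' = y' a * n a b'`, so `y' a = y b'`. By `wt_of_entry` `wt b' = wt a ∘ w = wt b`, so `y b' = y b`. -/
theorem diag_transport {n : SLC m} {w : GL (Fin r) ℤ} (hw : ∀ t : Fin r → ℂ, n.1 * D.H t * (n⁻¹).1 = D.H (act w t)) (y y' : Fin m → ℂˣ)
    (hy : ∀ a b, D.wt a = D.wt b → y a = y b)
    (h : n.1 * Matrix.diagonal (fun j => (y j : ℂ)) = Matrix.diagonal (fun j => (y' j : ℂ)) * n.1) {a b : Fin m} (hab : ∀ i, D.wt b i = ∑ l, D.wt a l * w.1 l i) :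
    y' a = y b := by
  obtain ⟨b', hb'⟩ := exists_entry_ne n a
  have h1 := wt_of_entry hw hb'
  have h2 : D.wt b' = D.wt b := by
    funext i
    rw [h1 i, hab i]
  have h3 := congrFun (congrFun h a) b'
  rw [Matrix.mul_diagonal, Matrix.diagonal_mul, mul_comm] at h3
  have h4 : (y b' : ℂ) = y' a := mul_right_cancel₀ hb' h3
  rw [← hy b' b h2]
  exact Units.ext h4.symm

end WCn
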