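import Pool.Agent.Lib.MP_c2b80f_alE.UPlace
import Pool.Agent.Lib.MP_c2b80f_alE.JhA
import Pool.Agent.Lib.MP_c2b80f_alE.JhC

/-!
# The automorphisms at all places act on the eigenvalues by the whole Weyl group (job JhD)

Do not use the theorem `normalizer_weyl` of `UPlace` but the hypothesis `hN` (it is the same statement).
-/

open Matrix

namespace WCn

variable {m r : ℕ} {ι : Type} [Fintype ι] [DecidableEq ι] {G : Subgroup (SLC m)} {D : RD m r ι}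

/-- `y` is a labelling of the eigenvalues of `γ` by the weights. -/
def LabelBy (G : Subgroup (SLC m)) (D : RD m r ι) (γ g : SLC m) (y : Fin m → ℂˣ) : Prop :=
  g ∈ G ∧ γ.1 = g.1 * Matrix.diagonal (fun j => (y j : ℂ)) * (g⁻¹).1 ∧ (∀ a b, y a = y b ↔ D.wt a = D.wt b)

omit [Fintype ι] [DecidableEq ι] in
private theorem JhD_iff (w : Matrix (Fin r) (Fin r) ℤ) (a b : Fin m) :
    (∀ i, D.wt b i = ∑ l, D.wt a l * w l i) ↔ D.wt b = Matrix.vecMul (D.wt a) w := by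
  constructor
  · intro h
    funext i
    exact h i
  · intro h i
    rw [h]
    rfl

omit [Fintype ι] [DecidableEq ι] in
private theorem JhD_inv {w : GL (Fin r) ℤ} {a b : Fin m} (h : D.wt b = Matrix.vecMul (D.wt a) (w⁻¹).1) :
    D.wt a = Matrix.vecMul (D.wt b) w.1 := by
  rw [h, Matrix.vecMul_vecMul, ← Units.val_mul, inv_mul_cancel, Units.val_one, Matrix.vecMul_one]

private theorem JhD_comm {γ g g' : SLC m} {y y' : Fin m → ℂˣ}
    (h : γ.1 = g.1 * Matrix.diagonal (fun j => (y j : ℂ)) * (g⁻¹).1)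
    (h' : γ.1 = g'.1 * Matrix.diagonal (fun j => (y' j : ℂ)) * (g'⁻¹).1) :
    (g'⁻¹ * g).1 * Matrix.diagonal (fun j => (y j : ℂ)) = Matrix.diagonal (fun j => (y' j : ℂ)) * (g'⁻¹ * g).1 := by
  have e1 : (g⁻¹).1 * g.1 = 1 := by
    have h1 := congrArg Subtype.val (inv_mul_cancel g)
    exact h1
  have e2 : (g'⁻¹).1 * g'.1 = 1 := by
    have h1 := congrArg Subtype.val (inv_mul_cancel g')
    exact h1
  have e3 : (g'⁻¹ * g).1 = (g'⁻¹).1 * g.1 := rfl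
  have e4 : γ.1 * g.1 = g.1 * Matrix.diagonal (fun j => (y j : ℂ)) := by
    rw [h, Matrix.mul_assoc, e1, Matrix.mul_one]
  have e5 : (g'⁻¹).1 * γ.1 = Matrix.diagonal (fun j => (y' j : ℂ)) * (g'⁻¹).1 := by
    rw [h', ← Matrix.mul_assoc, ← Matrix.mul_assoc, e2, Matrix.one_mul]
  rw [e3, Matrix.mul_assoc, ← e4, ← Matrix.mul_assoc, e5, Matrix.mul_assoc]

/-- Proof. Let `(τ, g', y')` be the datum of `PlaceAt` for `w` and `n = g'⁻¹ g ∈ G`; `n (diagonal y) = (diagonal y') n` (both diagonalise `γ`). By `normalizes_of_diag` and `hN` there is `v ∈ D.W` with `n H(t) n⁻¹ = H(act v t)` for all `t`. Let `a`, `b` with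
`wt b = wt a ∘ (v⁻¹ w v)`. By `wt_stable` (for `v⁻¹`, `v`, ...) there are `a'` with `wt a' = wt a ∘ v⁻¹`, so `wt a = wt a' ∘ v` and `y' a' = y a` (`diag_transport`), and `b'` with `wt b' = wt a' ∘ w`, so `τ (y' a') = y' b'` (`PlaceAt`). `wt b = wt a' ∘ v v⁻¹ w v = wt b' ∘ v`, so
`y' b' = y b` (`diag_transport`). So `τ (y a) = y b`. (Composition: `wt ∘ w` means `Matrix.vecMul (D.wt a) w.1`; it may be convenient to rewrite all hypotheses in this form, `Matrix.vecMul_vecMul`.) -/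
theorem place_conj (hG : AlmostSimple G) (hD : IsRD G D)
    (hN : ∀ n ∈ G, (∀ t : Fin r → ℂ, ∃ t' : Fin r → ℂ, n.1 * D.H t * (n⁻¹).1 = D.H t') → ∃ w ∈ D.W, ∀ t : Fin r → ℂ, n.1 * D.H t * (n⁻¹).1 = D.H (act w t))
    (A' : Subring ℂ) (γ : SLC m) (w : GL (Fin r) ℤ) (hw : w ∈ D.W) (hpl : PlaceAt G D A' γ w) (g : SLC m) (y : Fin m → ℂˣ) (hy : LabelBy G D γ g y) :
    ∃ v ∈ D.W, ∃ τ : ℂ ≃+* ℂ, (∀ a ∈ A', τ a = a) ∧ ∀ a b, (∀ i, D.wt b i = ∑ l, D.wt a l * (v⁻¹ * w * v).1 l i) → τ (y a) = y b := by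
  obtain ⟨τ, g', y', hg', hτ, hd', hiff', -, hperm'⟩ := hpl
  obtain ⟨hg, hd, hiff⟩ := hy
  have hn : g'⁻¹ * g ∈ G := G.mul_mem (G.inv_mem hg') hg
  have hc := JhD_comm hd hd'
  obtain ⟨v, hv, hv'⟩ := hN _ hn (normalizes_of_diag hD hn y y' (fun a b h => (hiff' a b).1 h) hc)
  refine ⟨v, hv, τ, hτ, fun a b hab => ?_⟩
  rw [JhD_iff] at hab
  obtain ⟨a', ha'⟩ := wt_stable hG hD (D.W.inv_mem hv) a
  rw [JhD_iff] at ha'
  have h1 : D.wt a = Matrix.vecMul (D.wt a') v.1 := JhD_inv ha'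
  have h2 : y' a' = y a := diag_transport hv' y y' (fun a b h => (hiff a b).2 h) hc ((JhD_iff _ _ _).2 h1)
  obtain ⟨b', hb'⟩ := wt_stable hG hD hw a'
  have h3 := hperm' a' b' hb'
  rw [JhD_iff] at hb'
  have h4 : D.wt b = Matrix.vecMul (D.wt b') v.1 := by
    rw [hab, hb', ha', Matrix.vecMul_vecMul, Matrix.vecMul_vecMul, ← Units.val_mul, ← Units.val_mul, mul_assoc]
  have h5 : y' b' = y b := diag_transport hv' y y' (fun a b h => (hiff a b).2 h) hc ((JhD_iff _ _ _).2 h4)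
  rw [← h2, h3, h5]

/-- Proof. The set of the `u ∈ D.W` for which there is such a `τ` is a subgroup `S` of `D.W`: one: `τ = 1`, and `wt b = wt a` implies `y a = y b`; product: if `τ₁`, `τ₂` belong to `u₁`, `u₂` then `τ₂ ∘ τ₁` belongs to `u₁ * u₂` (choose the intermediate `b'` with `wt b' = wt a ∘ u₁` by
`wt_stable`: `τ₁ (y a) = y b'`, `τ₂ (y b') = y b`); inverse: `τ⁻¹` belongs to `u⁻¹` (`wt b = wt a ∘ u⁻¹` iff `wt a = wt b ∘ u`, `τ (y b) = y a`). By `place_conj` it meets every conjugacy class of `D.W`; `D.W` is finite (`weyl_finite`), so `S = ⊤` by `jordan_conj`. -/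
theorem exists_tau (hG : AlmostSimple G) (hD : IsRD G D)
    (hN : ∀ n ∈ G, (∀ t : Fin r → ℂ, ∃ t' : Fin r → ℂ, n.1 * D.H t * (n⁻¹).1 = D.H t') → ∃ w ∈ D.W, ∀ t : Fin r → ℂ, n.1 * D.H t * (n⁻¹).1 = D.H (act w t))
    (A' : Subring ℂ) (γ : SLC m) (hpl : ∀ w ∈ D.W, PlaceAt G D A' γ w) (g : SLC m) (y : Fin m → ℂˣ) (hy : LabelBy G D γ g y) (u : GL (Fin r) ℤ) (hu : u ∈ D.W) :
    ∃ τ : ℂ ≃+* ℂ, (∀ a ∈ A', τ a = a) ∧ ∀ a b, (∀ i, D.wt b i = ∑ l, D.wt a l * u.1 l i) → τ (y a) = y b := by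
  let S : Subgroup D.W :=
    { carrier := {u | ∃ τ : ℂ ≃+* ℂ, (∀ a ∈ A', τ a = a) ∧ ∀ a b, (∀ i, D.wt b i = ∑ l, D.wt a l * u.1.1 l i) → τ (y a) = y b}
      mul_mem' := by
        rintro u₁ u₂ ⟨τ₁, h1, h2⟩ ⟨τ₂, h3, h4⟩
        refine ⟨τ₁.trans τ₂, fun a ha => ?_, fun a b hab => ?_⟩
        · rw [RingEquiv.trans_apply, h1 a ha, h3 a ha]
        · obtain ⟨b', hb'⟩ := wt_stable hG hD u₁.2 a
          rw [RingEquiv.trans_apply, h2 a b' hb']
          refine h4 b' b ?_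
          rw [JhD_iff] at hab hb' ⊢
          rw [hab, hb', Matrix.vecMul_vecMul]
          rfl
      one_mem' := by
        refine ⟨RingEquiv.refl ℂ, fun a _ => rfl, fun a b hab => ?_⟩
        rw [JhD_iff] at hab
        have h1 : D.wt b = D.wt a := hab.trans (Matrix.vecMul_one _)
        rw [(hy.2.2 a b).2 h1.symm]
        rfl
      inv_mem' := by
        rintro u ⟨τ, h1, h2⟩
        refine ⟨τ.symm, fun a ha => ?_, fun a b hab => ?_⟩
        · rw [RingEquiv.symm_apply_eq, h1 a ha]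
        · rw [JhD_iff] at hab
          rw [RingEquiv.symm_apply_eq]
          exact (h2 b a ((JhD_iff _ _ _).2 (JhD_inv hab))).symm }
  have hfin : Finite D.W := hD.weyl_finite
  have hS : S = ⊤ := jordan_conj S fun w => by
    obtain ⟨v, hv, τ, h1, h2⟩ := place_conj hG hD hN A' γ w.1 w.2 (hpl w.1 w.2) g y hy
    exact ⟨⟨v, hv⟩, τ, h1, h2⟩
  have h1 : (⟨u, hu⟩ : D.W) ∈ S := by
    rw [hS]
    exact Subgroup.mem_top _
  exact h1

end WCn
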