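import Pool.Agent.Lib.MP_c2b80f_alD.GDefs
import Pool.Agent.Lib.MP_c2b80f_alC.DiagB

/-!
# Automorphisms of the field of complex numbers give symmetries of the relations (job JhE)
-/

open Matrix Polynomial

namespace WCn

variable {n m : ℕ}

/-- Two families with the same multiset of values differ by a permutation. -/
private theorem JhE_perm {α β : Type*} [Fintype α] (f g : α → β)
    (h : (Finset.univ.val : Multiset α).map f = Finset.univ.val.map g) : ∃ π : Equiv.Perm α, ∀ i, f i = g (π i) := by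
  classical
  have hc : ∀ (f : α → β) (y : β), Fintype.card {i // f i = y} = Multiset.count y (Finset.univ.val.map f) :=
    fun f y => by
      rw [Multiset.count_map, Fintype.card_subtype]
      refine congrArg Multiset.card (Multiset.filter_congr fun i _ => ?_)
      exact eq_comm
  have he : ∀ y, Nonempty ({i // f i = y} ≃ {i // g i = y}) := fun y =>
    ⟨Fintype.equivOfCardEq (by rw [hc, hc, h])⟩
  have e := fun y => (he y).some
  refine ⟨(Equiv.sigmaFiberEquiv f).symm.trans ((Equiv.sigmaCongrRight fun y => e y).trans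
    (Equiv.sigmaFiberEquiv g)), fun i => ?_⟩
  exact ((e (f i)) ⟨i, rfl⟩).2.symm

/-- Proof. `τ` fixes the coefficients of `F = ∏ (X - x i)`, so `F.map τ = F`, i.e. `∏ (X - τ (x i)) = ∏ (X - x i)`; compare the multisets of the roots (`Polynomial.roots_multiset_prod_X_sub_C`); two families with the same multiset of values differ by a
permutation (copy the private lemma `galP_perm` of `Pool/Agent/Lib/MP_c2b80f_alC/GalP.lean`; the whole proof is as in `exists_perm` there). -/
theorem exists_perm_of_fix (x : Fin n → ℂˣ) (τ : ℂ ≃+* ℂ) (h : ∀ i, τ ((∏ i, (X - C (x i : ℂ))).coeff i) = (∏ i, (X - C (x i : ℂ))).coeff i) :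
    ∃ π : Equiv.Perm (Fin n), ∀ i, τ (x i) = x (π i) := by
  have h1 : (∏ i, (X - C (x i : ℂ))).map (τ : ℂ →+* ℂ) = ∏ i, (X - C (x i : ℂ)) := by
    refine Polynomial.ext fun i => ?_
    rw [Polynomial.coeff_map]
    exact h i
  have h2 : ∏ i, (X - C (τ (x i : ℂ))) = ∏ i, (X - C (x i : ℂ)) := by
    rw [Polynomial.map_prod] at h1
    refine Eq.trans ?_ h1
    refine Finset.prod_congr rfl fun i _ => ?_
    rw [Polynomial.map_sub, Polynomial.map_X, Polynomial.map_C]
    rfl
  have h3 : ∀ f : Fin n → ℂ, (∏ i, (X - C (f i))).roots = Finset.univ.val.map f := fun f => by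
    have h4 := Polynomial.roots_multiset_prod_X_sub_C (Finset.univ.val.map f)
    rw [Multiset.map_map] at h4
    exact h4
  exact JhE_perm (fun i => τ (x i : ℂ)) (fun i => (x i : ℂ)) (by rw [← h3, ← h3, h2])

/-- Proof. `exists_perm_of_fix` for `x` (the coefficients are in `A ≤ A'`) and for `y` (`∏ (X - y j)` is the characteristic polynomial of `γ`: `diagBy_charpoly` of `alC/DiagB` or `RelA` and its coefficients are polynomials in the entries, so fixed by `τ`: `Matrix.charpoly_map` for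
the ring homomorphism `τ` and `γ.1.map τ = γ.1`). `RelSym`: apply `τ` to `(∏ x i ^ c i) * ∏ y j ^ d j = 1` (`map_prod`, `map_zpow₀`; as in `relSym_of_aut` of `alC/GalP`). -/
theorem exists_relSym_tau (A A' : Subring ℂ) (hAA : A ≤ A') (γ : SLC m) (hγA : ∀ i j, γ.1 i j ∈ A') (q : GL (Fin m) ℂ) (y : Fin m → ℂˣ) (hy : DiagBy γ q y)
    (x : Fin n → ℂˣ) (hx : ∀ i, (∏ i, (X - C (x i : ℂ))).coeff i ∈ A) (τ : ℂ ≃+* ℂ) (hτ : ∀ a ∈ A', τ a = a) :
    ∃ (π : Equiv.Perm (Fin n)) (ρ : Equiv.Perm (Fin m)), RelSym x y π ρ ∧ ∀ j, τ (y j) = y (ρ j) := by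
  obtain ⟨π, hπ⟩ := exists_perm_of_fix x τ (fun i => hτ _ (hAA (hx i)))
  obtain ⟨ρ, hρ⟩ := exists_perm_of_fix y τ (fun i => by
    rw [← diagBy_charpoly hy]
    have h1 : γ.1.map (τ : ℂ →+* ℂ) = γ.1 := by
      ext a b
      exact hτ _ (hγA a b)
    have h2 := Matrix.charpoly_map γ.1 (τ : ℂ →+* ℂ)
    rw [h1] at h2
    have h3 := congrArg (fun P : ℂ[X] => P.coeff i) h2
    simp only [Polynomial.coeff_map] at h3
    exact h3.symm)
  refine ⟨π, ρ, ?_, hρ⟩
  intro c d h
  have hcast : ∀ (u : Fin n → ℂˣ) (v : Fin m → ℂˣ), MRel u v c d ↔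
      (∏ i, (u i : ℂ) ^ c i) * ∏ j, (v j : ℂ) ^ d j = 1 := fun u v => by
    unfold MRel
    rw [← Units.val_inj, Units.val_mul, Units.coe_prod, Units.coe_prod, Units.val_one]
    simp only [Units.val_zpow_eq_zpow_val]
  have h2 := congrArg (fun z => τ z) ((hcast x y).1 h)
  simp only [map_mul, map_prod, map_one, map_zpow₀] at h2
  rw [hcast]
  refine Eq.trans ?_ h2
  refine congrArg₂ (· * ·) (Finset.prod_congr rfl fun i _ => ?_) (Finset.prod_congr rfl fun j _ => ?_)
  · exact congrArg (fun z : ℂ => z ^ c i) (hπ i).symm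
  · exact congrArg (fun z : ℂ => z ^ d j) (hρ j).symm

end WCn
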