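import Pool.Agent.Lib.MP_c2b80f_alE.UDefs

/-!
# The relations between the weights (job JhF)
-/

open Matrix

namespace WCn

variable {m r : ℕ}

/-- The rational relations between the weights `v j`. -/
def relS (v : Fin m → Fin r → ℤ) : Submodule ℚ (Fin m → ℚ) where
  carrier := {d | ∀ i, ∑ j, d j * (v j i : ℚ) = 0}
  add_mem' := by
    intro d d' hd hd' i
    have h1 := hd i
    have h2 := hd' i
    simp only [Pi.add_apply, add_mul, Finset.sum_add_distrib]
    rw [h1, h2, add_zero]
  zero_mem' := by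
    intro i
    simp
  smul_mem' := by
    intro c d hd i
    have h1 := hd i
    simp only [Pi.smul_apply, smul_eq_mul, mul_assoc]
    rw [← Finset.mul_sum, h1, mul_zero]

/-- `d ↦ ∑ d j v j` -/
def relP (v : Fin m → Fin r → ℤ) : (Fin m → ℚ) →ₗ[ℚ] (Fin r → ℚ) where
  toFun d i := ∑ j, d j * (v j i : ℚ)
  map_add' := by
    intro d d'
    funext i
    simp only [Pi.add_apply, add_mul, Finset.sum_add_distrib]
  map_smul' := by
    intro c d
    funext i
    simp only [Pi.smul_apply, smul_eq_mul, mul_assoc, RingHom.id_apply]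
    rw [← Finset.mul_sum]

theorem relS_eq_ker (v : Fin m → Fin r → ℤ) : relS v = LinearMap.ker (relP v) := by
  ext d
  rw [LinearMap.mem_ker]
  constructor
  · intro h
    funext i
    exact h i
  · intro h i
    exact congrFun h i

private theorem JhF_single (v : Fin m → Fin r → ℤ) (j : Fin m) (i : Fin r) :
    relP v (Pi.single j 1) i = (v j i : ℚ) := by
  show ∑ k, (Pi.single j (1 : ℚ) : Fin m → ℚ) k * (v k i : ℚ) = (v j i : ℚ)
  rw [Finset.sum_eq_single j]
  · rw [Pi.single_eq_same, one_mul]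
  · intro k _ hk
    rw [Pi.single_eq_of_ne hk, zero_mul]
  · intro h
    exact absurd (Finset.mem_univ j) h

/-- Proof. Otherwise the range is a proper subspace of `ℚ^r` and there is a nonzero linear form on `ℚ^r` which vanishes on it (`Submodule.exists_le_ker_of_lt_top`), given by a nonzero rational vector `t` (`t i` = value at `Pi.single i 1`); so `∑ i, v j i * t i = 0` for all `j`
(apply it to `relP v (Pi.single j 1) = v j`). Cast to `ℂ`: `t = 0` by `hv`, a contradiction. -/
theorem relP_surj (v : Fin m → Fin r → ℤ) (hv : ∀ t : Fin r → ℂ, (∀ a, ∑ i, (v a i : ℂ) * t i = 0) → t = 0) : Function.Surjective (relP v) := by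
  by_contra hs
  have h1 : LinearMap.range (relP v) < ⊤ := lt_top_iff_ne_top.2 fun h => hs (LinearMap.range_eq_top.1 h)
  obtain ⟨f, hf, hle⟩ := Submodule.exists_le_ker_of_lt_top _ h1
  have hf2 : ∀ u : Fin r → ℚ, f u = ∑ i, u i * f (Pi.single i 1) := by
    intro u
    have h2 : u = ∑ i, u i • (Pi.single i (1 : ℚ) : Fin r → ℚ) := by
      funext k
      rw [Finset.sum_apply, Finset.sum_eq_single k]
      · rw [Pi.smul_apply, Pi.single_eq_same, smul_eq_mul, mul_one]
      · intro j _ hj
        rw [Pi.smul_apply, Pi.single_eq_of_ne (Ne.symm hj), smul_zero]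
      · intro h
        exact absurd (Finset.mem_univ k) h
    conv_lhs => rw [h2]
    rw [map_sum]
    exact Finset.sum_congr rfl fun i _ => by rw [map_smul, smul_eq_mul]
  have h3 : ∀ a, ∑ i, (v a i : ℚ) * f (Pi.single i 1) = 0 := by
    intro a
    have h4 : f (relP v (Pi.single a 1)) = 0 := hle ⟨_, rfl⟩
    rw [hf2] at h4
    rw [← h4]
    exact Finset.sum_congr rfl fun i _ => by rw [JhF_single]
  have h5 := hv (fun i => ((f (Pi.single i 1) : ℚ) : ℂ)) fun a => by
    have h6 := congrArg (fun z : ℚ => (z : ℂ)) (h3 a)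
    push_cast at h6
    exact h6
  refine hf (LinearMap.ext fun u => ?_)
  rw [hf2, LinearMap.zero_apply]
  refine Finset.sum_eq_zero fun i _ => ?_
  have h7 : ((f (Pi.single i 1) : ℚ) : ℂ) = 0 := congrFun h5 i
  have h8 : f (Pi.single i 1) = 0 := by exact_mod_cast h7
  rw [h8, mul_zero]

/-- Rank and nullity. -/
theorem finrank_relS (v : Fin m → Fin r → ℤ) (hv : ∀ t : Fin r → ℂ, (∀ a, ∑ i, (v a i : ℂ) * t i = 0) → t = 0) : Module.finrank ℚ (relS v) + r = m := by
  have h1 := LinearMap.finrank_range_add_finrank_ker (relP v)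
  rw [LinearMap.range_eq_top.2 (relP_surj v hv), finrank_top, Module.finrank_fintype_fun_eq_card,
    Module.finrank_fintype_fun_eq_card, Fintype.card_fin, Fintype.card_fin, ← relS_eq_ker] at h1
  omega

/-- Proof. Choose `s i : Fin m → ℚ` with `relP v (s i) = Pi.single i 1` (`relP_surj`) and put `t i = ∑ k, s i k * w k`. For each `j`, `Pi.single j 1 - ∑ i, v j i • s i` is in `ker (relP v) = relS v`, so `w j = ∑ k, (∑ i, v j i * s i k) * w k = ∑ i, v j i * t i`. -/
theorem relS_perp (v : Fin m → Fin r → ℤ) (hv : ∀ t : Fin r → ℂ, (∀ a, ∑ i, (v a i : ℂ) * t i = 0) → t = 0) (w : Fin m → ℝ)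
    (hw : ∀ d ∈ relS v, ∑ j, (d j : ℝ) * w j = 0) : ∃ t : Fin r → ℝ, ∀ j, w j = ∑ i, (v j i : ℝ) * t i := by
  choose s hs using fun i => relP_surj v hv (Pi.single i (1 : ℚ))
  refine ⟨fun i => ∑ k, (s i k : ℝ) * w k, fun j => ?_⟩
  have h1 : (Pi.single j (1 : ℚ) : Fin m → ℚ) - ∑ i, (v j i : ℚ) • s i ∈ relS v := by
    rw [relS_eq_ker, LinearMap.mem_ker, map_sub, map_sum]
    funext i
    rw [Pi.sub_apply, JhF_single, Finset.sum_apply, Finset.sum_eq_single i]
    · rw [map_smul, hs, Pi.smul_apply, Pi.single_eq_same, smul_eq_mul, mul_one, sub_self]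
      rfl
    · intro k _ hk
      rw [map_smul, hs, Pi.smul_apply, Pi.single_eq_of_ne (Ne.symm hk), smul_zero]
    · intro h
      exact absurd (Finset.mem_univ i) h
  have h2 := hw _ h1
  have h3 : ∀ k, ((((Pi.single j (1 : ℚ) : Fin m → ℚ) - ∑ i, (v j i : ℚ) • s i) k : ℚ) : ℝ) * w k =
      (if k = j then w k else 0) - ∑ i, (v j i : ℝ) * ((s i k : ℝ) * w k) := by
    intro k
    rw [Pi.sub_apply, Finset.sum_apply]
    push_cast
    rw [sub_mul, Finset.sum_mul]
    congr 1
    · split_ifs with h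
      · subst h
        rw [Pi.single_eq_same, Rat.cast_one, one_mul]
      · rw [Pi.single_eq_of_ne h, Rat.cast_zero, zero_mul]
    · refine Finset.sum_congr rfl fun i _ => ?_
      rw [Pi.smul_apply, smul_eq_mul]
      push_cast
      ring
  rw [Finset.sum_congr rfl fun k _ => h3 k, Finset.sum_sub_distrib, Finset.sum_ite_eq' Finset.univ j,
    if_pos (Finset.mem_univ j), Finset.sum_comm, sub_eq_zero] at h2
  rw [h2]
  exact Finset.sum_congr rfl fun i _ => by rw [Finset.mul_sum]

end WCn
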