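import Pool.Agent.Lib.MP_c2b80f_alE.JhF
import Pool.Agent.Lib.MP_c2b80f_alE.NwW

/-!
# Irreducibility (job JhG)
-/

open Matrix

namespace WCn

variable {n m r : ℕ} {ι : Type} [Fintype ι] [DecidableEq ι] {G : Subgroup (SLC m)} {D : RD m r ι}

/-- Proof. Let `S₀ = relS v = ker (relP v)`, `S₀ ≤ U`, `U` stable under `d ↦ d ∘ ρ.symm` for all symmetries `(π, ρ)`. Let `Q = U.map (relP v)`, a subspace of `ℚ^r`. For a root `β` let `u ∈ D.W` be the reflection, `u.1 = D.s β` (`exists_s`), and `(π, ρ)` as in `hsym`. For `d ∈ U`: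
`relP v (d ∘ ρ.symm) i = ∑ j, d (ρ⁻¹ j) v j i = ∑ k, d k v (ρ k) i = ∑ k, d k ∑ l, v k l * u.1 l i = ∑ l, (relP v d) l * u.1 l i = (relP v d) i - (∑ l, (relP v d) l * coroot β l) * root β i`. So `Q` satisfies the hypothesis of `IsRD.irr`, `Q = ⊥` or `Q = ⊤`. Since `ker (relP v) ≤ U`,
`U = Q.comap (relP v)` (`Submodule.comap_map_eq_of_le` or directly); `Q = ⊥` gives `U = ker = S₀`, `Q = ⊤` gives `U = ⊤`. -/
theorem hIrr_of (hD : IsRD G D) (v : Fin m → Fin r → ℤ) (x : Fin n → ℂˣ) (y : Fin m → ℂˣ)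
    (hsym : ∀ u ∈ D.W, ∃ π ρ, RelSym x y π ρ ∧ ∀ a i, v (ρ a) i = ∑ l, v a l * u.1 l i) : HIrr x y (relS v) := by
  intro U hU hst
  have hker : LinearMap.ker (relP v) ≤ U := by
    rw [← relS_eq_ker]
    exact hU
  have hQ : (U.map (relP v)).comap (relP v) = U := by
    rw [Submodule.comap_map_eq, sup_eq_left]
    exact hker
  have hq : ∀ β, ∀ q ∈ U.map (relP v), q - (∑ i, q i * (D.coroot β i : ℚ)) • (fun i => (D.root β i : ℚ)) ∈ U.map (relP v) := by
    rintro β q ⟨d, hd, rfl⟩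
    obtain ⟨u, hu1, hu⟩ := hD.exists_s β
    obtain ⟨π, ρ, hs, hρ⟩ := hsym u hu
    refine ⟨d ∘ ρ.symm, hst π ρ hs d hd, ?_⟩
    funext i
    have h1 : relP v (d ∘ ρ.symm) i = ∑ k, d k * (v (ρ k) i : ℚ) := by
      show ∑ j, d (ρ.symm j) * (v j i : ℚ) = _
      rw [← Equiv.sum_comp ρ]
      simp only [Equiv.symm_apply_apply]
    have h2 : ∀ k, (v (ρ k) i : ℚ) = (v k i : ℚ) - (∑ l, (v k l : ℚ) * (D.coroot β l : ℚ)) * (D.root β i : ℚ) := by
      intro k
      have h3 : v (ρ k) i = v k i - (∑ l, v k l * D.coroot β l) * D.root β i := by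
        rw [hρ k i, hu1, Finset.sum_mul]
        have h4 : ∀ l, v k l * D.s β l i = (if l = i then v k l else 0) - v k l * D.coroot β l * D.root β i := by
          intro l
          show v k l * ((1 : Matrix (Fin r) (Fin r) ℤ) l i - Matrix.vecMulVec (D.coroot β) (D.root β) l i) = _
          rw [Matrix.vecMulVec_apply, Matrix.one_apply]
          split_ifs
          · ring
          · ring
        rw [Finset.sum_congr rfl fun l _ => h4 l, Finset.sum_sub_distrib, Finset.sum_ite_eq' Finset.univ i,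
          if_pos (Finset.mem_univ i)]
      rw [h3]
      push_cast
      rfl
    rw [h1, Pi.sub_apply, Pi.smul_apply, smul_eq_mul]
    have h5 : ∀ l, relP v d l = ∑ k, d k * (v k l : ℚ) := fun l => rfl
    rw [Finset.sum_congr rfl fun k _ => by rw [h2 k, mul_sub], Finset.sum_sub_distrib, h5 i]
    congr 1
    rw [Finset.sum_mul]
    simp only [h5, Finset.sum_mul, Finset.mul_sum]
    rw [Finset.sum_comm]
    refine Finset.sum_congr rfl fun l _ => Finset.sum_congr rfl fun k _ => by ring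
  rcases hD.irr _ hq with h | h
  · left
    rw [← hQ, h, relS_eq_ker]
    rfl
  · right
    rw [← hQ, h, Submodule.comap_top]

end WCn
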