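import Pool.Agent.Lib.MP_c2b80f_alE.JhF
import Pool.Agent.Lib.MP_c2b80f_alE.NwW

/-!
# Schur's lemma (job JhH)
-/

open Matrix

namespace WCn

variable {n m r : ℕ} {ι : Type} [Fintype ι] [DecidableEq ι] {G : Subgroup (SLC m)} {D : RD m r ι}

private theorem JhH_form {R : Type} [CommRing R] {p q p' q' : ℕ} (V : Matrix (Fin p) (Fin q) R) (V' : Matrix (Fin p') (Fin q') R)
    (A : Matrix (Fin p) (Fin p') R) (t : Fin q → R) (u : Fin q' → R) :
    t ⬝ᵥ ((Vᵀ * A * V') *ᵥ u) = (V *ᵥ t) ⬝ᵥ (A *ᵥ (V' *ᵥ u)) := by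
  rw [← Matrix.mulVec_mulVec, ← Matrix.mulVec_mulVec, Matrix.dotProduct_mulVec, Matrix.vecMul_transpose]

private theorem JhH_S (β : ι) (t : Fin r → ℚ) : (D.s β).map (Int.castRingHom ℚ) *ᵥ t =
    t - (∑ i, (D.root β i : ℚ) * t i) • fun i => (D.coroot β i : ℚ) := by
  funext i
  unfold RD.s
  have h1 : ∀ j, ((1 - Matrix.vecMulVec (D.coroot β) (D.root β) : Matrix (Fin r) (Fin r) ℤ).map (Int.castRingHom ℚ)) i j * t j
      = (if i = j then t j else 0) - ((D.root β j : ℚ) * t j) * (D.coroot β i : ℚ) := by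
    intro j
    rw [Matrix.map_apply, Matrix.sub_apply, Matrix.vecMulVec_apply, Matrix.one_apply]
    split_ifs
    · simp only [eq_intCast]
      push_cast
      ring
    · simp only [eq_intCast]
      push_cast
      ring
  show ∑ j, ((1 - Matrix.vecMulVec (D.coroot β) (D.root β) : Matrix (Fin r) (Fin r) ℤ).map (Int.castRingHom ℚ)) i j * t j = _
  rw [Finset.sum_congr rfl fun j _ => h1 j, Finset.sum_sub_distrib, Finset.sum_ite_eq, if_pos (Finset.mem_univ i),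
    ← Finset.sum_mul]
  rfl

private theorem JhH_St (β : ι) (t : Fin r → ℚ) : ((D.s β).map (Int.castRingHom ℚ))ᵀ *ᵥ t =
    t - (∑ i, t i * (D.coroot β i : ℚ)) • fun i => (D.root β i : ℚ) := by
  funext i
  unfold RD.s
  have h1 : ∀ j, ((1 - Matrix.vecMulVec (D.coroot β) (D.root β) : Matrix (Fin r) (Fin r) ℤ).map (Int.castRingHom ℚ))ᵀ i j * t j
      = (if i = j then t j else 0) - (t j * (D.coroot β j : ℚ)) * (D.root β i : ℚ) := by
    intro j
    rw [Matrix.transpose_apply, Matrix.map_apply, Matrix.sub_apply, Matrix.vecMulVec_apply, Matrix.one_apply]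
    by_cases h : i = j
    · rw [if_pos h, if_pos h.symm]
      simp only [eq_intCast]
      push_cast
      ring
    · rw [if_neg h, if_neg (Ne.symm h)]
      simp only [eq_intCast]
      push_cast
      ring
  show ∑ j, ((1 - Matrix.vecMulVec (D.coroot β) (D.root β) : Matrix (Fin r) (Fin r) ℤ).map (Int.castRingHom ℚ))ᵀ i j * t j = _
  rw [Finset.sum_congr rfl fun j _ => h1 j, Finset.sum_sub_distrib, Finset.sum_ite_eq, if_pos (Finset.mem_univ i),
    ← Finset.sum_mul]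
  rfl

private theorem JhH_two (hD : IsRD G D) (β : ι) : ∑ i, (D.root β i : ℚ) * (D.coroot β i : ℚ) = 2 := by
  have h := hD.two β
  have h1 : ((∑ i, D.root β i * D.coroot β i : ℤ) : ℚ) = 2 := by
    rw [h]
    norm_num
  rw [← h1]
  push_cast
  rfl

private theorem JhH_coroot_ne (hD : IsRD G D) (β : ι) : (fun i => (D.coroot β i : ℚ)) ≠ 0 := by
  intro h
  have h1 := JhH_two hD β
  have h2 : ∑ i, (D.root β i : ℚ) * (D.coroot β i : ℚ) = 0 := by
    refine Finset.sum_eq_zero fun i _ => ?_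
    have h3 : (D.coroot β i : ℚ) = 0 := congrFun h i
    rw [h3, mul_zero]
  rw [h2] at h1
  norm_num at h1

private theorem JhH_SS (hD : IsRD G D) (β : ι) (t : Fin r → ℚ) :
    (D.s β).map (Int.castRingHom ℚ) *ᵥ ((D.s β).map (Int.castRingHom ℚ) *ᵥ t) = t := by
  have h1 : ∑ i, (D.root β i : ℚ) * (t - (∑ i, (D.root β i : ℚ) * t i) • fun i => (D.coroot β i : ℚ)) i
      = - ∑ i, (D.root β i : ℚ) * t i := by
    have h2 : ∀ i, (D.root β i : ℚ) * (t - (∑ i, (D.root β i : ℚ) * t i) • fun i => (D.coroot β i : ℚ)) i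
        = (D.root β i : ℚ) * t i - (∑ i, (D.root β i : ℚ) * t i) * ((D.root β i : ℚ) * (D.coroot β i : ℚ)) := by
      intro i
      rw [Pi.sub_apply, Pi.smul_apply, smul_eq_mul]
      ring
    rw [Finset.sum_congr rfl fun i _ => h2 i, Finset.sum_sub_distrib, ← Finset.mul_sum, JhH_two hD]
    ring
  rw [JhH_S, JhH_S, h1, neg_smul, sub_neg_eq_add, sub_add_cancel]

/-- An invariant symmetric form which vanishes on one coroot is zero. (`Sβ` = the reflection matrix over `ℚ`, `Sβ t = t - β(t) β^∨`, `Sβᵀ v = v - v(β^∨) β`.)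
Proof. Let `Q ≤ ℚ^r` be the range of `t ↦ C *ᵥ t`. For `v = C t` and a root `β`: `v - v(β^∨) β = Sβᵀ C t = Sβᵀ C Sβ (Sβ t) = C (Sβ t) ∈ Q` (`Sβ * Sβ = 1`, `IsRD.two`; `hinv`). By `IsRD.irr` `Q = ⊥`, so `C = 0`, or `Q = ⊤`, so `C` is surjective, hence injective, which contradicts
`C *ᵥ coroot β₀ = 0`, `coroot β₀ ≠ 0` (`IsRD.two`). -/
theorem form_zero (hD : IsRD G D) (C : Matrix (Fin r) (Fin r) ℚ)
    (hinv : ∀ β, ((D.s β).map (Int.castRingHom ℚ))ᵀ * C * (D.s β).map (Int.castRingHom ℚ) = C) (β₀ : ι) (h0 : C *ᵥ (fun i => (D.coroot β₀ i : ℚ)) = 0) : C = 0 := by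
  have h1 := hD.irr (LinearMap.range C.mulVecLin) (by
    rintro β v ⟨t, rfl⟩
    rw [← JhH_St]
    refine ⟨(D.s β).map (Int.castRingHom ℚ) *ᵥ t, ?_⟩
    show C *ᵥ ((D.s β).map (Int.castRingHom ℚ) *ᵥ t) = ((D.s β).map (Int.castRingHom ℚ))ᵀ *ᵥ (C *ᵥ t)
    calc C *ᵥ ((D.s β).map (Int.castRingHom ℚ) *ᵥ t)
        = (((D.s β).map (Int.castRingHom ℚ))ᵀ * C * (D.s β).map (Int.castRingHom ℚ)) *ᵥ
          ((D.s β).map (Int.castRingHom ℚ) *ᵥ t) := by rw [hinv]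
      _ = ((D.s β).map (Int.castRingHom ℚ))ᵀ *ᵥ (C *ᵥ t) := by
        rw [← Matrix.mulVec_mulVec, ← Matrix.mulVec_mulVec, JhH_SS hD])
  rcases h1 with h1 | h1
  · ext i j
    have h2 : C.mulVecLin (Pi.single j 1) ∈ LinearMap.range C.mulVecLin := ⟨_, rfl⟩
    rw [h1, Submodule.mem_bot] at h2
    have h3 := congrFun h2 i
    rw [Matrix.mulVecLin_apply, Matrix.mulVec_single_one] at h3
    exact h3
  · exfalso
    have h2 : Function.Surjective C.mulVecLin := LinearMap.range_eq_top.1 h1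
    have h3 : Function.Injective C.mulVecLin := LinearMap.injective_iff_surjective.2 h2
    apply JhH_coroot_ne hD β₀
    apply h3
    rw [map_zero]
    exact h0

/-- Proof. Fix a root `β₀` (`simple ⟨0, pos⟩`), `c = coroot β₀ ≠ 0`, `b = c ⬝ᵥ (B *ᵥ c) > 0`, `lam = (c ⬝ᵥ (C *ᵥ c)) / b`, `E = C - lam • B`. `E` is symmetric, invariant, and `c ⬝ᵥ (E *ᵥ c) = 0`. For a symmetric invariant `E` and `β = β₀`, `S = S_β₀`: `E(t, c) = E(S t, S c) = - E(t - β(t) c, c) = -E(t, c) + β(t) E(c, c)`, so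
`2 E(t, c) = β(t) E(c, c) = 0` for all `t`, i.e. `E *ᵥ c = 0`. By `form_zero` `E = 0`. -/
theorem form_prop (hD : IsRD G D) (B C : Matrix (Fin r) (Fin r) ℚ) (hB : Bᵀ = B) (hC : Cᵀ = C)
    (hBi : ∀ β, ((D.s β).map (Int.castRingHom ℚ))ᵀ * B * (D.s β).map (Int.castRingHom ℚ) = B)
    (hCi : ∀ β, ((D.s β).map (Int.castRingHom ℚ))ᵀ * C * (D.s β).map (Int.castRingHom ℚ) = C)
    (hpos : ∀ t : Fin r → ℚ, t ≠ 0 → 0 < t ⬝ᵥ (B *ᵥ t)) : ∃ lam : ℚ, C = lam • B := by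
  let β₀ := D.simple ⟨0, hD.pos⟩
  let c : Fin r → ℚ := fun i => (D.coroot β₀ i : ℚ)
  have hc : c ≠ 0 := JhH_coroot_ne hD β₀
  have hb := hpos c hc
  let lam : ℚ := (c ⬝ᵥ (C *ᵥ c)) / (c ⬝ᵥ (B *ᵥ c))
  refine ⟨lam, ?_⟩
  have hE0 : C - lam • B = 0 := by
    have hinv : ∀ β, ((D.s β).map (Int.castRingHom ℚ))ᵀ * (C - lam • B) * (D.s β).map (Int.castRingHom ℚ) = C - lam • B := by
      intro β
      rw [Matrix.mul_sub, Matrix.sub_mul, Matrix.mul_smul, Matrix.smul_mul, hBi, hCi]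
    refine form_zero hD _ hinv β₀ ?_
    show (C - lam • B) *ᵥ c = 0
    have hcc : c ⬝ᵥ ((C - lam • B) *ᵥ c) = 0 := by
      rw [Matrix.sub_mulVec, dotProduct_sub, Matrix.smul_mulVec, dotProduct_smul, smul_eq_mul]
      show _ - (c ⬝ᵥ (C *ᵥ c)) / (c ⬝ᵥ (B *ᵥ c)) * (c ⬝ᵥ (B *ᵥ c)) = 0
      rw [div_mul_cancel₀ _ hb.ne', sub_self]
    have hSc : (D.s β₀).map (Int.castRingHom ℚ) *ᵥ c = - c := by
      rw [JhH_S]
      show c - (∑ i, (D.root β₀ i : ℚ) * (D.coroot β₀ i : ℚ)) • c = - c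
      rw [JhH_two hD, two_smul]
      abel
    have hkey : ∀ t : Fin r → ℚ, t ⬝ᵥ ((C - lam • B) *ᵥ c) = 0 := by
      intro t
      have h1 : t ⬝ᵥ ((C - lam • B) *ᵥ c) = - (t ⬝ᵥ ((C - lam • B) *ᵥ c)) := by
        calc t ⬝ᵥ ((C - lam • B) *ᵥ c)
            = t ⬝ᵥ ((((D.s β₀).map (Int.castRingHom ℚ))ᵀ * (C - lam • B) * (D.s β₀).map (Int.castRingHom ℚ)) *ᵥ c) := by
              rw [hinv]
          _ = ((D.s β₀).map (Int.castRingHom ℚ) *ᵥ t) ⬝ᵥ ((C - lam • B) *ᵥ ((D.s β₀).map (Int.castRingHom ℚ) *ᵥ c)) :=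
              JhH_form _ _ _ _ _
          _ = (t - (∑ i, (D.root β₀ i : ℚ) * t i) • c) ⬝ᵥ ((C - lam • B) *ᵥ (- c)) := by
              rw [hSc, JhH_S]
          _ = - (t ⬝ᵥ ((C - lam • B) *ᵥ c)) := by
              rw [Matrix.mulVec_neg, dotProduct_neg, sub_dotProduct, smul_dotProduct, hcc, smul_zero, sub_zero]
      linarith
    funext i
    have h2 := hkey (Pi.single i 1)
    rw [single_one_dotProduct] at h2
    exact h2
  exact sub_eq_zero.1 hE0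

/-- Invariance. Proof. Let `V : Matrix (Fin m) (Fin r) ℚ`, `V j i = v j i`. The form is `Vᵀ * E * V`. For a root `β` let `u ∈ D.W`, `u.1 = D.s β` and `ρ` as in `hsym`: `(V * S_β) j i = ∑ l, v j l * u.1 l i = v (ρ j) i`, i.e. `V * S_β = V.submatrix ρ id`, and
`(V * S_β)ᵀ * E * (V * S_β) = Vᵀ * E * V` by reindexing the sums with `ρ` and `E (ρ j) (ρ l) = E j l`. -/
theorem form_invariant (hD : IsRD G D) (v : Fin m → Fin r → ℤ) (x : Fin n → ℂˣ) (y : Fin m → ℂˣ)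
    (hsym : ∀ u ∈ D.W, ∃ π ρ, RelSym x y π ρ ∧ ∀ a i, v (ρ a) i = ∑ l, v a l * u.1 l i) (E : Matrix (Fin m) (Fin m) ℚ)
    (hE : ∀ π ρ, RelSym x y π ρ → ∀ j l, E (ρ j) (ρ l) = E j l) (β : ι) :
    ((D.s β).map (Int.castRingHom ℚ))ᵀ * ((Matrix.of fun j i => (v j i : ℚ))ᵀ * E * Matrix.of fun j i => (v j i : ℚ)) * (D.s β).map (Int.castRingHom ℚ) =
      (Matrix.of fun j i => (v j i : ℚ))ᵀ * E * Matrix.of fun j i => (v j i : ℚ) := by
  obtain ⟨u, hu, huW⟩ := hD.exists_s β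
  obtain ⟨π, ρ, hrel, hρ⟩ := hsym u huW
  have h1 : (Matrix.of fun j i => (v j i : ℚ)) * (D.s β).map (Int.castRingHom ℚ)
      = (Matrix.of fun j i => (v j i : ℚ)).submatrix ρ id := by
    ext j i
    rw [Matrix.mul_apply, Matrix.submatrix_apply, Matrix.of_apply, id, hρ j i, hu]
    push_cast
    rfl
  have h2 : E = E.submatrix ρ ρ := by
    ext j l
    rw [Matrix.submatrix_apply]
    exact (hE π ρ hrel j l).symm
  calc ((D.s β).map (Int.castRingHom ℚ))ᵀ * ((Matrix.of fun j i => (v j i : ℚ))ᵀ * E * Matrix.of fun j i => (v j i : ℚ)) *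
        (D.s β).map (Int.castRingHom ℚ)
      = ((Matrix.of fun j i => (v j i : ℚ)) * (D.s β).map (Int.castRingHom ℚ))ᵀ * E *
        ((Matrix.of fun j i => (v j i : ℚ)) * (D.s β).map (Int.castRingHom ℚ)) := by
        rw [Matrix.transpose_mul]
        simp only [Matrix.mul_assoc]
    _ = ((Matrix.of fun j i => (v j i : ℚ)).submatrix ρ id)ᵀ * E.submatrix ρ ρ *
        ((Matrix.of fun j i => (v j i : ℚ)).submatrix ρ id) := by
        rw [h1, ← h2]
    _ = (Matrix.of fun j i => (v j i : ℚ))ᵀ * E * Matrix.of fun j i => (v j i : ℚ) := by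
        rw [Matrix.transpose_submatrix, Matrix.submatrix_mul_equiv, Matrix.submatrix_mul_equiv, Matrix.submatrix_id_id]

/-- Proof. Let `V` be as in `form_invariant`, `B = Vᵀ * V` (`E = 1`; positive: `t ⬝ B t = ∑ j, (∑ i, v j i t i)^2`, which is zero only if all `∑ i, v j i t i = 0`, so `t = 0` by `hv` for the complexification of `t`), `C = Vᵀ * E * V` (`E` symmetric). By `form_invariant` (for `E` and for `1`) and `form_prop`
`C = lam • B`. For `w` orthogonal to `relS v` let `t` be as in `relS_perp`: `w j = ∑ i, v j i t i`. Then `∑ j l, E j l w j w l = ∑ i i', C i i' t i t i' = lam ∑ i i', B i i' t i t i' = lam ∑ j, w j ^ 2` (sums over `ℝ` with rational coefficients cast). -/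
theorem hSchur_of (hD : IsRD G D) (v : Fin m → Fin r → ℤ) (hv : ∀ t : Fin r → ℂ, (∀ a, ∑ i, (v a i : ℂ) * t i = 0) → t = 0) (x : Fin n → ℂˣ) (y : Fin m → ℂˣ)
    (hsym : ∀ u ∈ D.W, ∃ π ρ, RelSym x y π ρ ∧ ∀ a i, v (ρ a) i = ∑ l, v a l * u.1 l i) : HSchur x y (relS v) := by
  intro E hEs hEi _
  obtain ⟨V, hV⟩ : ∃ V : Matrix (Fin m) (Fin r) ℚ, V = Matrix.of fun j i => (v j i : ℚ) := ⟨_, rfl⟩
  have hEt : Eᵀ = E := by
    ext j l
    rw [Matrix.transpose_apply]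
    exact (hEs j l).symm
  have hB1 : ∀ β, ((D.s β).map (Int.castRingHom ℚ))ᵀ * (Vᵀ * (1 : Matrix (Fin m) (Fin m) ℚ) * V) * (D.s β).map (Int.castRingHom ℚ) = Vᵀ * (1 : Matrix (Fin m) (Fin m) ℚ) * V := by
    intro β
    rw [hV]
    refine form_invariant hD v x y hsym 1 ?_ β
    intro π ρ _ j l
    rw [Matrix.one_apply, Matrix.one_apply]
    by_cases h : j = l
    · rw [if_pos h, if_pos (congrArg ρ h)]
    · rw [if_neg h, if_neg (fun h' => h (ρ.injective h'))]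
  have hC1 : ∀ β, ((D.s β).map (Int.castRingHom ℚ))ᵀ * (Vᵀ * E * V) * (D.s β).map (Int.castRingHom ℚ) = Vᵀ * E * V := by
    intro β
    rw [hV]
    exact form_invariant hD v x y hsym E hEi β
  have hBt : (Vᵀ * (1 : Matrix (Fin m) (Fin m) ℚ) * V)ᵀ = Vᵀ * (1 : Matrix (Fin m) (Fin m) ℚ) * V := by
    rw [Matrix.mul_one, Matrix.transpose_mul, Matrix.transpose_transpose]
  have hCt : (Vᵀ * E * V)ᵀ = Vᵀ * E * V := by
    rw [Matrix.transpose_mul, Matrix.transpose_mul, Matrix.transpose_transpose, hEt, Matrix.mul_assoc]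
  have hpos : ∀ t : Fin r → ℚ, t ≠ 0 → 0 < t ⬝ᵥ ((Vᵀ * (1 : Matrix (Fin m) (Fin m) ℚ) * V) *ᵥ t) := by
    intro t ht
    rw [JhH_form, Matrix.one_mulVec]
    have h1 : 0 ≤ (V *ᵥ t) ⬝ᵥ (V *ᵥ t) := Finset.sum_nonneg fun j _ => mul_self_nonneg _
    refine lt_of_le_of_ne h1 fun h2 => ht ?_
    have h3 : ∀ j, (V *ᵥ t) j = 0 := by
      intro j
      have h4 := (Finset.sum_eq_zero_iff_of_nonneg fun j _ => mul_self_nonneg ((V *ᵥ t) j)).1 h2.symm j (Finset.mem_univ j)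
      exact mul_self_eq_zero.1 h4
    have h5 := hv (fun i => (t i : ℂ)) (by
      intro a
      have h6 : (((V *ᵥ t) a : ℚ) : ℂ) = 0 := by rw [h3, Rat.cast_zero]
      rw [← h6, hV]
      show _ = ((∑ i, (v a i : ℚ) * t i : ℚ) : ℂ)
      push_cast
      rfl)
    funext i
    have h6 : (t i : ℂ) = 0 := congrFun h5 i
    exact_mod_cast h6
  obtain ⟨lam, hlam⟩ := form_prop hD (Vᵀ * (1 : Matrix (Fin m) (Fin m) ℚ) * V) (Vᵀ * E * V) hBt hCt hB1 hC1 hpos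
  refine ⟨lam, fun w hw => ?_⟩
  obtain ⟨t, ht⟩ := relS_perp v hv w hw
  let F : ℚ →+* ℝ := Rat.castHom ℝ
  have hwV : w = (V.map F) *ᵥ t := by
    funext j
    rw [ht j, hV]
    show _ = ∑ i, ((v j i : ℚ) : ℝ) * t i
    push_cast
    rfl
  have h1 : (V.map F)ᵀ * (E.map F) * (V.map F) = lam • ((V.map F)ᵀ * (1 : Matrix (Fin m) (Fin m) ℝ) * (V.map F)) := by
    have h2 := congrArg (fun M : Matrix (Fin r) (Fin r) ℚ => M.map F) hlam
    have h3 : (Vᵀ * E * V).map F = (V.map F)ᵀ * (E.map F) * (V.map F) := by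
      rw [Matrix.map_mul, Matrix.map_mul, Matrix.transpose_map]
    have h4 : (lam • (Vᵀ * (1 : Matrix (Fin m) (Fin m) ℚ) * V)).map F = lam • ((V.map F)ᵀ * (1 : Matrix (Fin m) (Fin m) ℝ) * (V.map F)) := by
      rw [← Matrix.transpose_map, Matrix.mul_one, Matrix.mul_one, ← Matrix.map_mul]
      ext i j
      rw [Matrix.map_apply, Matrix.smul_apply, Matrix.smul_apply, Matrix.map_apply, smul_eq_mul, map_mul, Rat.smul_def]
      rfl
    rw [← h3, ← h4]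
    exact h2
  have h5 : ∑ j, ∑ l, (E j l : ℝ) * w j * w l = w ⬝ᵥ ((E.map F) *ᵥ w) := by
    show _ = ∑ j, w j * ∑ l, (E j l : ℝ) * w l
    refine Finset.sum_congr rfl fun j _ => ?_
    rw [Finset.mul_sum]
    refine Finset.sum_congr rfl fun l _ => ?_
    ring
  have h6 : ∑ j, w j ^ 2 = w ⬝ᵥ ((1 : Matrix (Fin m) (Fin m) ℝ) *ᵥ w) := by
    rw [Matrix.one_mulVec]
    refine Finset.sum_congr rfl fun j _ => ?_
    ring
  rw [h5, h6, hwV, ← JhH_form, ← JhH_form, h1, Matrix.smul_mulVec, dotProduct_smul, Rat.smul_def]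

end WCn
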