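import Pool.Agent.Lib.MP_c2b80f_alE.NwW

/-!
# A Weyl group element which corrects the positive system (job NwE)
-/

open Matrix

namespace WCn

variable {m r : ℕ} {ι : Type} [Fintype ι] [DecidableEq ι] {G : Subgroup (SLC m)} {D : RD m r ι}

private theorem NwE_rt_sub (D : RD m r ι) (β : ι) (t t' : Fin r → ℂ) : D.rt β (t - t') = D.rt β t - D.rt β t' := by
  unfold RD.rt
  rw [← Finset.sum_sub_distrib]
  refine Finset.sum_congr rfl fun i _ => ?_
  rw [Pi.sub_apply, mul_sub]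

private theorem NwE_rt_sum (D : RD m r ι) (β : ι) (s : Finset ℕ) (t : ℕ → Fin r → ℂ) : D.rt β (∑ k ∈ s, t k) = ∑ k ∈ s, D.rt β (t k) := by
  unfold RD.rt
  rw [Finset.sum_comm]
  refine Finset.sum_congr rfl fun i _ => ?_
  rw [Finset.sum_apply, Finset.mul_sum]

private theorem NwE_ht (hD : IsRD G D) : ∃ cC : Fin r → ℂ, ∀ β, D.rt β cC = (D.ht β : ℂ) := by
  obtain ⟨c, hc⟩ := hD.ht_lin
  refine ⟨fun i => ((c i : ℚ) : ℂ), fun β => ?_⟩
  have h1 := congrArg (fun x : ℚ => (x : ℂ)) (hc β)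
  unfold RD.rt
  push_cast at h1
  exact h1.symm

private theorem NwE_lin (D : RD m r ι) (x : Fin r → ℂ) (f : Fin r → ℤ) (β : ι) (h : D.root β = ∑ i, f i • D.root (D.simple i)) :
    D.rt β x = ∑ i, (f i : ℂ) * D.rt (D.simple i) x := by
  unfold RD.rt
  have h1 : ∀ j, ((D.root β j : ℤ) : ℂ) = ∑ i, (f i : ℂ) * (D.root (D.simple i) j : ℂ) := by
    intro j
    rw [h, Finset.sum_apply]
    push_cast
    refine Finset.sum_congr rfl fun i _ => ?_
    rw [Pi.smul_apply, smul_eq_mul]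
    push_cast
    rfl
  simp only [h1, Finset.sum_mul, Finset.mul_sum]
  rw [Finset.sum_comm]
  refine Finset.sum_congr rfl fun i _ => Finset.sum_congr rfl fun j _ => ?_
  ring

/-- Proof. Let `c` be as in `IsRD.ht_lin` and `cC : Fin r → ℂ` its complexification, so `D.rt β cC = (D.ht β : ℂ)`. Let `S` be the set of the permutations `q` of `ι` for which there is `w ∈ D.W` with `D.rt β (act w (ν t)) = D.rt (q β) t` for all `β`, `t`.
It is not empty: `w = 1`, `q = p⁻¹`. Choose `q ∈ S` with `∑ β, ht (q β) * ht β` maximal (`Finset.exists_max_image`, `Finset.univ.filter`), and `w` for `q`. Let `x = act w (ν cC)`, so `D.rt β x = ht (q β)`.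
(1) `0 < ht (q (simple i))` for all `i`: let `s ∈ D.W` be the reflection of `simple i` (`exists_s`) and `q_i` its permutation (`s_perm`; by `IsRD.simple_coroot` `root (q_i β) = root β - (root β i) • root (simple i)`). Then `s * w` shows that `q * q_i ∈ S`
(`D.rt β (act (s * w) (ν t)) = D.rt (q_i β) (act w (ν t)) = D.rt (q (q_i β)) t`, by `act_mul`, `rt_act`). `ht (q (q_i β)) = D.rt (q_i β) x = D.rt β x - root β i * D.rt (simple i) x = ht (q β) - root β i * ht (q (simple i))` (as integers, cast injective).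
So maximality gives `ht (q (simple i)) * ∑ β, root β i * ht β ≥ 0`, and `pairing_pos`, `IsRD.ht_ne` give `0 < ht (q (simple i))`.
(2) If `0 < ht β`: by `IsRD.ht_sum` `root β = ∑ f_i root (simple i)`, `ht β = ∑ f_i`; all `f_i ≥ 0` (if all are `≤ 0` then `ht β ≤ 0`), some `f_i > 0`, and `ht (q β) = D.rt β x = ∑ f_i ht (q (simple i)) > 0`.
(3) If `ht β < 0`: apply (2) to `neg β` (`IsRD.ht_neg`); `ht (q (neg β)) = D.rt (neg β) x = - D.rt β x = - ht (q β)` (`IsRD.root_neg`), so `ht (q β) < 0`. -/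
theorem exists_weyl_pos (hD : IsRD G D) (ν : (Fin r → ℂ) →ₗ[ℂ] (Fin r → ℂ)) (p : Equiv.Perm ι) (hp : ∀ β t, D.rt (p β) (ν t) = D.rt β t) :
    ∃ w ∈ D.W, ∃ q : Equiv.Perm ι, (∀ β t, D.rt β (act w (ν t)) = D.rt (q β) t) ∧ ∀ β, 0 < D.ht (q β) ↔ 0 < D.ht β := by
  classical
  obtain ⟨cC, hcC⟩ := NwE_ht hD
  let S : Finset (Equiv.Perm ι) := Finset.univ.filter fun q => ∃ w ∈ D.W, ∀ β t, D.rt β (act w (ν t)) = D.rt (q β) t
  have hSne : S.Nonempty := by
    refine ⟨p⁻¹, ?_⟩
    rw [Finset.mem_filter]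
    refine ⟨Finset.mem_univ _, 1, D.W.one_mem, fun β t => ?_⟩
    rw [act_one]
    have h1 := hp (p⁻¹ β) t
    have h2 : p (p⁻¹ β) = β := Equiv.apply_symm_apply p β
    rw [h2] at h1
    exact h1
  obtain ⟨q, hqS, hmax⟩ := Finset.exists_max_image S (fun q => ∑ β, D.ht (q β) * D.ht β) hSne
  rw [Finset.mem_filter] at hqS
  obtain ⟨-, w, hw, hwq⟩ := hqS
  obtain ⟨x, hx⟩ : ∃ x, x = act w (ν cC) := ⟨_, rfl⟩
  have hxr : ∀ β, D.rt β x = (D.ht (q β) : ℂ) := fun β => by
    rw [hx, hwq, hcC]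
  have hsimple : ∀ i, 0 < D.ht (q (D.simple i)) := by
    intro i
    obtain ⟨s, hs, hsW⟩ := hD.exists_s (D.simple i)
    obtain ⟨qi, hqi⟩ := hD.s_perm (D.simple i)
    have hroot : ∀ γ, D.root (qi γ) = D.root γ - D.root γ i • D.root (D.simple i) := by
      intro γ
      rw [(hqi γ).2]
      congr 2
      rw [hD.simple_coroot, Finset.sum_eq_single i]
      · rw [Pi.single_eq_same, mul_one]
      · intro j _ hj
        rw [Pi.single_eq_of_ne hj, mul_zero]
      · intro h
        exact absurd (Finset.mem_univ i) h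
    have hmem : q * qi ∈ S := by
      rw [Finset.mem_filter]
      refine ⟨Finset.mem_univ _, s * w, D.W.mul_mem hsW hw, fun β t => ?_⟩
      rw [act_mul, rt_act s (γ := qi β) (by rw [hs]; exact (hqi β).1), hwq]
      rfl
    have hht : ∀ β, D.ht (q (qi β)) = D.ht (q β) - D.root β i * D.ht (q (D.simple i)) := by
      intro β
      have h1 : D.rt (qi β) x = D.rt β x - (D.root β i : ℂ) * D.rt (D.simple i) x := by
        unfold RD.rt
        rw [hroot, Finset.mul_sum, ← Finset.sum_sub_distrib]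
        refine Finset.sum_congr rfl fun j _ => ?_
        rw [Pi.sub_apply, Pi.smul_apply, smul_eq_mul]
        push_cast
        ring
      rw [hxr, hxr, hxr] at h1
      exact_mod_cast h1
    have h1 := hmax _ hmem
    have h2 : ∑ β, D.ht ((q * qi) β) * D.ht β = ∑ β, D.ht (q β) * D.ht β - D.ht (q (D.simple i)) * ∑ β, D.root β i * D.ht β := by
      rw [Finset.mul_sum, ← Finset.sum_sub_distrib]
      refine Finset.sum_congr rfl fun β _ => ?_
      rw [Equiv.Perm.mul_apply, hht]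
      ring
    beta_reduce at h1
    rw [h2] at h1
    have h3 := hD.pairing_pos i
    have h4 : 0 ≤ D.ht (q (D.simple i)) * ∑ β, D.root β i * D.ht β := by linarith
    have h5 : 0 ≤ D.ht (q (D.simple i)) := nonneg_of_mul_nonneg_left h4 h3
    exact lt_of_le_of_ne h5 (Ne.symm (hD.ht_ne _))
  have hpos : ∀ β, 0 < D.ht β → 0 < D.ht (q β) := by
    intro β hβ
    obtain ⟨f, hf, hroot, hht⟩ := hD.ht_sum β
    have hf0 : ∀ i, 0 ≤ f i := by
      rcases hf with hf | hf
      · exact hf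
      · exfalso
        have h1 : ∑ i, f i ≤ 0 := Finset.sum_nonpos fun i _ => hf i
        rw [← hht] at h1
        exact absurd hβ (not_lt.2 h1)
    have h1 := NwE_lin D x f β hroot
    rw [hxr] at h1
    have h2 : D.ht (q β) = ∑ i, f i * D.ht (q (D.simple i)) := by
      have h3 : ((D.ht (q β) : ℤ) : ℂ) = ((∑ i, f i * D.ht (q (D.simple i)) : ℤ) : ℂ) := by
        rw [h1]
        push_cast
        exact Finset.sum_congr rfl fun i _ => by rw [hxr]
      exact_mod_cast h3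
    have h4 : 0 ≤ D.ht (q β) := by
      rw [h2]
      exact Finset.sum_nonneg fun i _ => mul_nonneg (hf0 i) (hsimple i).le
    exact lt_of_le_of_ne h4 (Ne.symm (hD.ht_ne _))
  refine ⟨w, hw, q, hwq, fun β => ⟨fun h => ?_, hpos β⟩⟩
  by_contra hcon
  have h1 : D.ht β < 0 := lt_of_le_of_ne (not_lt.1 hcon) (hD.ht_ne β)
  have h2 : 0 < D.ht (D.neg β) := by
    rw [hD.ht_neg]
    linarith
  have h3 := hpos _ h2
  have h4 : D.ht (q (D.neg β)) = - D.ht (q β) := by
    have h5 : D.rt (D.neg β) x = - D.rt β x := by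
      unfold RD.rt
      rw [hD.root_neg, ← Finset.sum_neg_distrib]
      refine Finset.sum_congr rfl fun i _ => ?_
      rw [Pi.neg_apply]
      push_cast
      ring
    rw [hxr, hxr] at h5
    exact_mod_cast h5
  rw [h4] at h3
  linarith

/-- Proof. Let `c`, `cC` be as above, `K = orderOf q > 0` and `u = ∑ k ∈ range K, (μ ^ k) cC`. `D.rt β ((μ ^ k) t) = D.rt ((q ^ k) β) t` by induction on `k`, so `μ ^ K = 1` (`IsRD.eq_zero_of_rt` for `(μ ^ K) t - t`). So `μ u = u` (`Finset.sum_range_succ`,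
`Finset.sum_range_succ'`). `D.rt β u = ∑ k, ht ((q ^ k) β)`, and all terms have the same sign as `ht β` (`hpos` and induction, `IsRD.ht_ne`), so the sum is a nonzero integer. -/
theorem exists_fixed (hD : IsRD G D) (μ : (Fin r → ℂ) →ₗ[ℂ] (Fin r → ℂ)) (q : Equiv.Perm ι) (hq : ∀ β t, D.rt β (μ t) = D.rt (q β) t)
    (hpos : ∀ β, 0 < D.ht (q β) ↔ 0 < D.ht β) :
    (∃ K : ℕ, 0 < K ∧ ∀ t, (μ ^ K) t = t) ∧ ∃ u : Fin r → ℂ, μ u = u ∧ ∀ β, ∃ a : ℤ, a ≠ 0 ∧ D.rt β u = a := by
  classical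
  obtain ⟨cC, hcC⟩ := NwE_ht hD
  have hpow : ∀ (k : ℕ) (β : ι) (t : Fin r → ℂ), D.rt β ((μ ^ k) t) = D.rt ((q ^ k) β) t := by
    intro k
    induction k with
    | zero => intro β t; rfl
    | succ k ih =>
      intro β t
      rw [pow_succ, pow_succ', Module.End.mul_apply, ih, hq]
      rfl
  have hposk : ∀ (k : ℕ) (β : ι), 0 < D.ht ((q ^ k) β) ↔ 0 < D.ht β := by
    intro k
    induction k with
    | zero => intro β; rfl
    | succ k ih =>
      intro β
      rw [pow_succ', Equiv.Perm.mul_apply, hpos, ih]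
  have hK : 0 < orderOf q := orderOf_pos q
  have hμK : ∀ t, (μ ^ orderOf q) t = t := by
    intro t
    rw [← sub_eq_zero]
    refine hD.eq_zero_of_rt _ fun β => ?_
    rw [NwE_rt_sub, hpow, pow_orderOf_eq_one]
    exact sub_self _
  refine ⟨⟨orderOf q, hK, hμK⟩, ∑ k ∈ Finset.range (orderOf q), (μ ^ k) cC, ?_, fun β => ?_⟩
  · rw [map_sum]
    have h1 : ∀ k ∈ Finset.range (orderOf q), μ ((μ ^ k) cC) = (μ ^ (k + 1)) cC := by
      intro k _
      rw [pow_succ', Module.End.mul_apply]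
    rw [Finset.sum_congr rfl h1]
    have h2 := Finset.sum_range_succ (fun k => (μ ^ k) cC) (orderOf q)
    have h3 := Finset.sum_range_succ' (fun k => (μ ^ k) cC) (orderOf q)
    rw [h2, hμK] at h3
    have h4 : (μ ^ 0) cC = cC := rfl
    rw [h4] at h3
    exact (add_right_cancel h3).symm
  · refine ⟨∑ k ∈ Finset.range (orderOf q), D.ht ((q ^ k) β), ?_, ?_⟩
    · by_cases h : 0 < D.ht β
      · refine ne_of_gt (Finset.sum_pos (fun k _ => (hposk k β).2 h) ⟨0, Finset.mem_range.2 hK⟩)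
      · refine ne_of_lt (Finset.sum_neg (fun k _ => ?_) ⟨0, Finset.mem_range.2 hK⟩)
        exact lt_of_le_of_ne (not_lt.1 fun h1 => h ((hposk k β).1 h1)) (hD.ht_ne _)
    · rw [NwE_rt_sum, Int.cast_sum]
      exact Finset.sum_congr rfl fun k _ => by rw [hpow, hcC]

end WCn
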