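import Pool.Agent.Lib.MP_c2b80f_alE.UTan

/-!
# The action of the normaliser of the Cartan subalgebra on the root vectors (job NwC)
-/

open Matrix

namespace WCn

variable {m r : ℕ} {ι : Type}

theorem RD.H_add (D : RD m r ι) {R : Type*} [CommRing R] (t t' : Fin r → R) : D.H (t + t') = D.H t + D.H t' := by
  unfold RD.H
  rw [Matrix.diagonal_add]
  congr 1
  funext j
  rw [← Finset.sum_add_distrib]
  refine Finset.sum_congr rfl fun i _ => ?_
  rw [Pi.add_apply, mul_add]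

theorem RD.H_smul (D : RD m r ι) {R : Type*} [CommRing R] (c : R) (t : Fin r → R) : D.H (c • t) = c • D.H t := by
  unfold RD.H
  rw [← Matrix.diagonal_smul]
  congr 1
  funext j
  rw [Pi.smul_apply, smul_eq_mul, Finset.mul_sum]
  refine Finset.sum_congr rfl fun i _ => ?_
  rw [Pi.smul_apply, smul_eq_mul]
  ring

theorem RD.rt_add (D : RD m r ι) {R : Type*} [CommRing R] (β : ι) (t t' : Fin r → R) : D.rt β (t + t') = D.rt β t + D.rt β t' := by
  unfold RD.rt
  rw [← Finset.sum_add_distrib]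
  refine Finset.sum_congr rfl fun i _ => ?_
  rw [Pi.add_apply, mul_add]

theorem RD.rt_smul (D : RD m r ι) {R : Type*} [CommRing R] (β : ι) (c : R) (t : Fin r → R) : D.rt β (c • t) = c * D.rt β t := by
  unfold RD.rt
  rw [Finset.mul_sum]
  refine Finset.sum_congr rfl fun i _ => ?_
  rw [Pi.smul_apply, smul_eq_mul]
  ring

private theorem NwC_H_zero (D : RD m r ι) {R : Type*} [CommRing R] : D.H (0 : Fin r → R) = 0 := by
  have h := D.H_smul (0 : R) 0
  rw [zero_smul, zero_smul] at h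
  exact h

private theorem NwC_rt_single (D : RD m r ι) (β : ι) (i : Fin r) : D.rt β (Pi.single i (1 : ℂ)) = (D.root β i : ℂ) := by
  unfold RD.rt
  rw [Finset.sum_eq_single i]
  · rw [Pi.single_eq_same, mul_one]
  · intro j _ hj
    rw [Pi.single_eq_of_ne hj, mul_zero]
  · intro h
    exact absurd (Finset.mem_univ i) h

private theorem NwC_sum_single [Fintype ι] [DecidableEq ι] (D : RD m r ι) (β : ι) :
    ∑ γ, (Pi.single β (1 : ℂ) : ι → ℂ) γ • D.e γ = D.e β := by
  rw [Finset.sum_eq_single β]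
  · rw [Pi.single_eq_same, one_smul]
  · intro j _ hj
    rw [Pi.single_eq_of_ne hj, zero_smul]
  · intro h
    exact absurd (Finset.mem_univ β) h

private theorem NwC_inv_mul (n : SLC m) : (n⁻¹).1 * n.1 = 1 := by
  have h : n⁻¹ * n = 1 := inv_mul_cancel n
  exact congrArg Subtype.val h

private theorem NwC_conj_mul (n : SLC m) (Y Z : Matrix (Fin m) (Fin m) ℂ) :
    n.1 * (Y * Z) * (n⁻¹).1 = (n.1 * Y * (n⁻¹).1) * (n.1 * Z * (n⁻¹).1) := by
  calc n.1 * (Y * Z) * (n⁻¹).1 = n.1 * Y * 1 * Z * (n⁻¹).1 := by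
        rw [Matrix.mul_one, Matrix.mul_assoc n.1 Y Z]
    _ = n.1 * Y * ((n⁻¹).1 * n.1) * Z * (n⁻¹).1 := by rw [NwC_inv_mul]
    _ = (n.1 * Y * (n⁻¹).1) * (n.1 * Z * (n⁻¹).1) := by simp only [Matrix.mul_assoc]

private theorem NwC_conj_inj (n : SLC m) {Y Z : Matrix (Fin m) (Fin m) ℂ}
    (h : n.1 * Y * (n⁻¹).1 = n.1 * Z * (n⁻¹).1) : Y = Z := by
  have key : ∀ Y : Matrix (Fin m) (Fin m) ℂ, (n⁻¹).1 * (n.1 * Y * (n⁻¹).1) * n.1 = Y := by
    intro Y
    calc (n⁻¹).1 * (n.1 * Y * (n⁻¹).1) * n.1 = ((n⁻¹).1 * n.1) * Y * ((n⁻¹).1 * n.1) := by simp only [Matrix.mul_assoc]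
      _ = Y := by rw [NwC_inv_mul, Matrix.one_mul, Matrix.mul_one]
  rw [← key Y, h, key Z]

variable [Fintype ι] [DecidableEq ι] {G : Subgroup (SLC m)} {D : RD m r ι}

/-- `IsRD.indep` with `x = 0`. -/
theorem IsRD.H_inj (hD : IsRD G D) {t t' : Fin r → ℂ} (h : D.H t = D.H t') : t = t' := by
  have h1 : D.H (t + (-1 : ℂ) • t') + ∑ β, (0 : ι → ℂ) β • D.e β = 0 := by
    rw [D.H_add, D.H_smul, h]
    simp
  have h2 := (hD.indep _ _ h1).1
  rw [neg_one_smul, ← sub_eq_add_neg, sub_eq_zero] at h2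
  exact h2

theorem IsRD.e_ne (hD : IsRD G D) (β : ι) : D.e β ≠ 0 := by
  intro h
  have h1 : D.H (0 : Fin r → ℂ) + ∑ γ, (Pi.single β (1 : ℂ) : ι → ℂ) γ • D.e γ = 0 := by
    rw [NwC_H_zero, NwC_sum_single, h, add_zero]
  have h2 := congrFun (hD.indep _ _ h1).2 β
  rw [Pi.single_eq_same, Pi.zero_apply] at h2
  exact one_ne_zero h2

theorem IsRD.H_mem (hD : IsRD G D) (t : Fin r → ℂ) : D.H t ∈ tanG G := by
  refine (hD.mem_iff _).2 ⟨t, 0, ?_⟩
  simp

theorem IsRD.e_mem (hD : IsRD G D) (β : ι) : D.e β ∈ tanG G := by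
  refine (hD.mem_iff _).2 ⟨0, Pi.single β 1, ?_⟩
  rw [NwC_H_zero, NwC_sum_single, zero_add]

/-- `[H t, e β] = β(t) e β`. Entry `(a, b)`: `(∑ wt a i * t i - ∑ wt b i * t i) * e β a b`; if `e β a b ≠ 0` use `IsRD.supp`. -/
theorem IsRD.comm_e (hD : IsRD G D) (β : ι) (t : Fin r → ℂ) : D.H t * D.e β - D.e β * D.H t = D.rt β t • D.e β := by
  ext a b
  unfold RD.H
  rw [Matrix.sub_apply, Matrix.diagonal_mul, Matrix.mul_diagonal, Matrix.smul_apply, smul_eq_mul]
  by_cases h : D.e β a b = 0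
  · rw [h]
    ring
  · have h1 : D.rt β t = (∑ i, (D.wt a i : ℂ) * t i) - ∑ i, (D.wt b i : ℂ) * t i := by
      unfold RD.rt
      rw [← Finset.sum_sub_distrib]
      refine Finset.sum_congr rfl fun i _ => ?_
      rw [← hD.supp β a b h i]
      push_cast
      ring
    rw [h1]
    ring

/-- `β ≠ 0` as a linear form: two roots which are equal as linear forms on `ℂ^r` are equal (`IsRD.root_inj`; take `t = Pi.single i 1` and cast to integers). -/
theorem IsRD.eq_of_rt (hD : IsRD G D) {β γ : ι} (h : ∀ t : Fin r → ℂ, D.rt β t = D.rt γ t) : β = γ := by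
  apply hD.root_inj
  funext i
  have h1 := h (Pi.single i 1)
  rw [NwC_rt_single, NwC_rt_single] at h1
  exact_mod_cast h1

/-- Elements of `G` which normalise the Cartan subalgebra permute the root vectors up to scalars.
Proof. `ν`: `t'` is unique (`H_inj`), and `t ↦ t'` is linear (`H_add`, `H_smul`, `H_inj`); it is injective (`n` is invertible), so bijective (`LinearMap.injective_iff_surjective`). Fix `β` and put `X = n e_β n⁻¹ ∈ tanG G` (`tanG_conj`), `X ≠ 0`.
By `IsRD.mem_iff` `X = H t₀ + ∑ x_γ e_γ`. Conjugate `comm_e`: `H(ν t) X - X H(ν t) = β(t) X`. The left side is `∑ x_γ γ(ν t) e_γ` (`comm_e`, diagonal matrices commute), so by `IsRD.indep` `β(t) t₀ = 0` and `x_γ (γ(ν t) - β(t)) = 0` for all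
`t` and `γ`. There is `t` with `β(t) ≠ 0` (`IsRD.root_ne`, `t = Pi.single i 1`), so `t₀ = 0`. As `X ≠ 0`, some `x_γ ≠ 0`, and then `γ(ν t) = β(t)` for all `t`; if also `x_γ' ≠ 0` then `γ' (ν t) = γ (ν t)` for all `t`, and `γ' = γ` (`ν` is surjective, `eq_of_rt`).
So `X = x_γ e_γ`; put `p β = γ`, `c β = x_γ`. `p` is injective: `p β = p β'` gives `β(t) = β'(t)` for all `t`, so `β = β'` (`eq_of_rt`); `Equiv.ofBijective` with `Finite.injective_iff_bijective`. -/
theorem exists_action (hD : IsRD G D) {n : SLC m} (hn : n ∈ G) (h : ∀ t : Fin r → ℂ, ∃ t' : Fin r → ℂ, n.1 * D.H t * (n⁻¹).1 = D.H t') :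
    ∃ (ν : (Fin r → ℂ) →ₗ[ℂ] (Fin r → ℂ)) (p : Equiv.Perm ι) (c : ι → ℂ),
      (∀ t, n.1 * D.H t * (n⁻¹).1 = D.H (ν t)) ∧ (∀ β, c β ≠ 0) ∧
      (∀ β, n.1 * D.e β * (n⁻¹).1 = c β • D.e (p β)) ∧ ∀ β t, D.rt (p β) (ν t) = D.rt β t := by
  choose f hf using h
  let ν : (Fin r → ℂ) →ₗ[ℂ] (Fin r → ℂ) :=
    { toFun := f
      map_add' := by
        intro t t'
        apply hD.H_inj
        rw [← hf, D.H_add, D.H_add, Matrix.mul_add, Matrix.add_mul, hf, hf]
      map_smul' := by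
        intro c t
        apply hD.H_inj
        rw [← hf, D.H_smul, RingHom.id_apply, D.H_smul, Matrix.mul_smul, Matrix.smul_mul, hf] }
  have hν : ∀ t, n.1 * D.H t * (n⁻¹).1 = D.H (ν t) := hf
  have hinj : Function.Injective ν := by
    intro t t' htt
    apply hD.H_inj
    apply NwC_conj_inj n
    rw [hν, hν, htt]
  have hsurj : Function.Surjective ν := LinearMap.injective_iff_surjective.1 hinj
  have key : ∀ β, ∃ γ, ∃ c : ℂ, c ≠ 0 ∧ n.1 * D.e β * (n⁻¹).1 = c • D.e γ ∧ ∀ t, D.rt γ (ν t) = D.rt β t := by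
    intro β
    obtain ⟨t0, x, hX⟩ := (hD.mem_iff _).1 (tanG_conj (hD.e_mem β) hn)
    -- the relations
    have h1 : ∀ t, D.H (ν t) * (n.1 * D.e β * (n⁻¹).1) - (n.1 * D.e β * (n⁻¹).1) * D.H (ν t)
        = D.rt β t • (n.1 * D.e β * (n⁻¹).1) := by
      intro t
      rw [← hν, ← NwC_conj_mul, ← NwC_conj_mul, ← Matrix.sub_mul, ← Matrix.mul_sub, hD.comm_e, Matrix.mul_smul,
        Matrix.smul_mul]
    have h2 : ∀ t, D.H (ν t) * (D.H t0 + ∑ γ, x γ • D.e γ) - (D.H t0 + ∑ γ, x γ • D.e γ) * D.H (ν t)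
        = ∑ γ, (x γ * D.rt γ (ν t)) • D.e γ := by
      intro t
      have h3 : D.H (ν t) * D.H t0 = D.H t0 * D.H (ν t) := by
        unfold RD.H
        rw [Matrix.diagonal_mul_diagonal, Matrix.diagonal_mul_diagonal]
        congr 1
        funext j
        ring
      rw [Matrix.mul_add, Matrix.add_mul, h3, add_sub_add_left_eq_sub, Matrix.mul_sum, Matrix.sum_mul,
        ← Finset.sum_sub_distrib]
      refine Finset.sum_congr rfl fun γ _ => ?_
      rw [Matrix.mul_smul, Matrix.smul_mul, ← smul_sub, hD.comm_e, smul_smul]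
    have h4 : ∀ t, D.rt β t • t0 = 0 ∧ ∀ γ, x γ * (D.rt β t - D.rt γ (ν t)) = 0 := by
      intro t
      have h5 : D.H (D.rt β t • t0) + ∑ γ, (fun γ => x γ * (D.rt β t - D.rt γ (ν t))) γ • D.e γ = 0 := by
        have h6 := h1 t
        rw [hX, h2 t, smul_add, Finset.smul_sum, ← D.H_smul] at h6
        have h7 : ∑ γ, (fun γ => x γ * (D.rt β t - D.rt γ (ν t))) γ • D.e γ
            = (∑ γ, D.rt β t • x γ • D.e γ) - ∑ γ, (x γ * D.rt γ (ν t)) • D.e γ := by
          rw [← Finset.sum_sub_distrib]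
          refine Finset.sum_congr rfl fun γ _ => ?_
          rw [smul_smul, ← sub_smul]
          congr 1
          ring
        rw [h7, h6]
        abel
      obtain ⟨h8, h9⟩ := hD.indep _ _ h5
      exact ⟨h8, fun γ => congrFun h9 γ⟩
    have ht0 : t0 = 0 := by
      obtain ⟨i, hi⟩ := Function.ne_iff.1 (hD.root_ne β)
      have h5 := (h4 (Pi.single i 1)).1
      rw [NwC_rt_single] at h5
      refine (smul_eq_zero.1 h5).resolve_left ?_
      rw [Pi.zero_apply] at hi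
      exact_mod_cast hi
    have hx : ∃ γ, x γ ≠ 0 := by
      by_contra hcon
      push Not at hcon
      apply hD.e_ne β
      apply NwC_conj_inj n
      rw [hX, ht0, NwC_H_zero, Matrix.mul_zero, Matrix.zero_mul, zero_add]
      refine Finset.sum_eq_zero fun γ _ => ?_
      rw [hcon γ, zero_smul]
    obtain ⟨γ, hγ⟩ := hx
    have hrt : ∀ γ', x γ' ≠ 0 → ∀ t, D.rt γ' (ν t) = D.rt β t := by
      intro γ' hγ' t
      have h5 := ((mul_eq_zero.1 ((h4 t).2 γ')).resolve_left hγ')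
      exact (sub_eq_zero.1 h5).symm
    refine ⟨γ, x γ, hγ, ?_, hrt γ hγ⟩
    rw [hX, ht0, NwC_H_zero, zero_add, Finset.sum_eq_single γ]
    · intro γ' _ hne
      by_cases h5 : x γ' = 0
      · rw [h5, zero_smul]
      · exfalso
        apply hne
        apply hD.eq_of_rt
        intro t
        obtain ⟨s, rfl⟩ := hsurj t
        rw [hrt γ' h5, hrt γ hγ]
    · intro h5
      exact absurd (Finset.mem_univ γ) h5
  choose p c hc hpc hpt using key
  have hp : Function.Injective p := by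
    intro β β' hb
    apply hD.eq_of_rt
    intro t
    rw [← hpt β t, hb, hpt β' t]
  exact ⟨ν, Equiv.ofBijective p (Finite.injective_iff_bijective.1 hp), c, hν, hc, hpc, hpt⟩

end WCn
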