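import Pool.Agent.Lib.MP_c2b80f_alE.NwB
import Pool.Agent.Lib.MP_c2b80f_alE.NwC

/-!
# Elements of the normaliser with a regular fixed vector act trivially (job NwF)
-/

open Matrix

namespace WCn

variable {m r : ℕ} {ι : Type}

/-- Linear maps of finite order in characteristic zero have no Jordan blocks.
Proof. Induction on `k`; `k = 0`: `t = 0`. Step: let `v = (μ - 1)^k t`... more precisely, if `(μ - 1)^(k+1) t = 0` put `v = (μ - 1) t`; `(μ - 1)^k v = 0` gives `μ v = v` by induction. Then `(μ ^ j) t = t + (j : ℂ) • v` by induction on `j`; `j = K`: `K • v = 0`, so `v = 0`. -/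
theorem finOrder_ker (μ : (Fin r → ℂ) →ₗ[ℂ] (Fin r → ℂ)) (K : ℕ) (hK : 0 < K) (h : ∀ t, (μ ^ K) t = t) (k : ℕ) (t : Fin r → ℂ)
    (ht : (((μ - 1 : Module.End ℂ (Fin r → ℂ))) ^ k) t = 0) : μ t = t := by
  induction k generalizing t with
  | zero =>
    rw [pow_zero] at ht
    have h0 : t = 0 := ht
    rw [h0, map_zero]
  | succ k ih =>
    rw [pow_succ] at ht
    obtain ⟨v, hv⟩ : ∃ v, v = μ t - t := ⟨_, rfl⟩
    have hv1 : ((μ - 1 : Module.End ℂ (Fin r → ℂ))) t = v := by
      rw [hv]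
      rfl
    have ht1 : ((μ - 1 : Module.End ℂ (Fin r → ℂ)) ^ k) v = 0 := by
      rw [← hv1]
      exact ht
    have h1 : μ v = v := ih v ht1
    have h2 : μ t = t + v := by rw [hv]; abel
    have h3 : ∀ j : ℕ, (μ ^ j) t = t + (j : ℂ) • v := by
      intro j
      induction j with
      | zero =>
        rw [pow_zero, Nat.cast_zero, zero_smul, add_zero]
        rfl
      | succ j ihj =>
        rw [pow_succ']
        change μ ((μ ^ j) t) = _
        rw [ihj, map_add, map_smul, h1, h2, Nat.cast_succ, add_smul, one_smul]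
        abel
    have h4 := h3 K
    rw [h t] at h4
    have h5 : (K : ℂ) • v = 0 := by
      have h6 := congrArg (fun z => z - t) h4
      simp only [sub_self, add_sub_cancel_left] at h6
      exact h6.symm
    have hK0 : (K : ℂ) ≠ 0 := Nat.cast_ne_zero.2 hK.ne'
    have h7 : v = 0 := (smul_eq_zero.1 h5).resolve_left hK0
    rw [h2, h7, add_zero]

/-- Monomial matrices. Proof: iterate: `x ((p ^ L) β) = (∏ k ∈ range L, d ((p ^ k) β)) * x β`; with `L = orderOf p` the left side is `x β`. -/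
theorem monomial_inj [Finite ι] (p : Equiv.Perm ι) (d : ι → ℂ) (h : ∀ β, ∏ k ∈ Finset.range (orderOf p), d ((p ^ k) β) ≠ 1) (x : ι → ℂ)
    (hx : ∀ β, x (p β) = d β * x β) : x = 0 := by
  have h1 : ∀ (L : ℕ) (β : ι), x ((p ^ L) β) = (∏ k ∈ Finset.range L, d ((p ^ k) β)) * x β := by
    intro L β
    induction L with
    | zero =>
      rw [Finset.range_zero, Finset.prod_empty, one_mul, pow_zero]
      rfl
    | succ L ih =>
      rw [pow_succ', Equiv.Perm.mul_apply, hx, ih, Finset.prod_range_succ]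
      ring
  funext β
  have h2 := h1 (orderOf p) β
  rw [pow_orderOf_eq_one] at h2
  have h3 : (∏ k ∈ Finset.range (orderOf p), d ((p ^ k) β) - 1) * x β = 0 := by
    rw [sub_mul, one_mul, ← h2]
    exact sub_self _
  exact (mul_eq_zero.1 h3).resolve_left (sub_ne_zero.2 (h β))

variable [Fintype ι] [DecidableEq ι]

/-- Choice of a real number `s`. Proof. `a` is constant on the orbits of `p`, so `∏ k ∈ range L, (exp (s a_β)) c_{p^k β} = exp (L s a_β) C_β` with `L = orderOf p > 0`, `C_β = ∏ c ≠ 0`. If this is `1` then, taking absolute values, `L s a_β + log ‖C_β‖ = 0`, which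
excludes at most one value of `s` for each `β`. The finite set of the excluded values is not everything (`Set.Infinite`, `Set.Finite.exists_notMem` or `Infinite.exists_notMem_finset`). -/
theorem exists_good_s (p : Equiv.Perm ι) (c : ι → ℂ) (hc : ∀ β, c β ≠ 0) (a : ι → ℤ) (ha : ∀ β, a β ≠ 0) (hap : ∀ β, a (p β) = a β) :
    ∃ s : ℝ, ∀ β, ∏ k ∈ Finset.range (orderOf p), (Complex.exp ((s : ℂ) * (a ((p ^ k) β) : ℂ)) * c ((p ^ k) β)) ≠ 1 := by
  have h1 : ∀ (k : ℕ) (β : ι), a ((p ^ k) β) = a β := by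
    intro k β
    induction k with
    | zero => rfl
    | succ k ih => rw [pow_succ', Equiv.Perm.mul_apply, hap, ih]
  obtain ⟨L, hL⟩ : ∃ L, L = orderOf p := ⟨_, rfl⟩
  have hL0 : 0 < L := by
    rw [hL]
    exact orderOf_pos p
  obtain ⟨s, hs⟩ := Infinite.exists_notMem_finset
    (Finset.univ.image fun β : ι => -Real.log ‖∏ k ∈ Finset.range L, c ((p ^ k) β)‖ / ((L : ℝ) * (a β : ℝ)))
  refine ⟨s, fun β hβ => hs ?_⟩
  rw [Finset.mem_image]
  refine ⟨β, Finset.mem_univ β, ?_⟩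
  rw [← hL, Finset.prod_mul_distrib] at hβ
  have h2 : ∏ k ∈ Finset.range L, Complex.exp ((s : ℂ) * (a ((p ^ k) β) : ℂ)) = Complex.exp ((s : ℂ) * (a β : ℂ)) ^ L := by
    rw [Finset.prod_congr rfl (fun k _ => by rw [h1 k β]), Finset.prod_const, Finset.card_range]
  have hC : (∏ k ∈ Finset.range L, c ((p ^ k) β)) ≠ 0 := Finset.prod_ne_zero_iff.2 fun k _ => hc _
  rw [h2] at hβ
  have h3 := congrArg norm hβ
  rw [norm_mul, norm_pow, norm_one, Complex.norm_exp] at h3
  have h4 : ((s : ℂ) * (a β : ℂ)).re = s * (a β : ℝ) := by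
    rw [Complex.re_ofReal_mul, Complex.intCast_re]
  rw [h4] at h3
  have hn : 0 < ‖∏ k ∈ Finset.range L, c ((p ^ k) β)‖ := norm_pos_iff.2 hC
  have h5 := congrArg Real.log h3
  rw [Real.log_mul (pow_pos (Real.exp_pos _) L).ne' hn.ne', Real.log_pow, Real.log_exp, Real.log_one] at h5
  have ha0 : (a β : ℝ) ≠ 0 := Int.cast_ne_zero.2 (ha β)
  have hLr : (L : ℝ) ≠ 0 := Nat.cast_ne_zero.2 hL0.ne'
  rw [div_eq_iff (mul_ne_zero hLr ha0)]
  linarith

variable {G : Subgroup (SLC m)} {D : RD m r ι}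

/-- Conjugation by `exp (s H(u))`. Entries: `exp` of a diagonal matrix is diagonal (`Matrix.exp_diagonal`); the entry `(a, b)` of `g (e β) g⁻¹` is `exp (s (wt_a(u) - wt_b(u))) (e β) a b`, use `IsRD.supp`. (Or use `AdM` and `comm_e`.) Diagonal matrices commute. -/
theorem conj_exp_H (hD : IsRD G D) {g : SLC m} {u : Fin r → ℂ} {s : ℂ} (hg : g.1 = NormedSpace.exp (s • D.H u)) :
    (∀ t : Fin r → ℂ, g.1 * D.H t * (g⁻¹).1 = D.H t) ∧ ∀ β, g.1 * D.e β * (g⁻¹).1 = Complex.exp (s * D.rt β u) • D.e β := by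
  obtain ⟨w, hw⟩ : ∃ w : Fin m → ℂ, w = fun j => ∑ i, (D.wt j i : ℂ) * u i := ⟨_, rfl⟩
  have h1 : s • D.H u = Matrix.diagonal (fun j => s * w j) := by
    unfold RD.H
    rw [hw]
    ext a b
    by_cases hab : a = b
    · rw [hab, Matrix.smul_apply, Matrix.diagonal_apply_eq, Matrix.diagonal_apply_eq, smul_eq_mul]
    · rw [Matrix.smul_apply, Matrix.diagonal_apply_ne _ hab, Matrix.diagonal_apply_ne _ hab, smul_zero]
  have h2 : g.1 = Matrix.diagonal (fun j => Complex.exp (s * w j)) := by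
    rw [hg, h1, Matrix.exp_diagonal]
    congr 1
    funext j
    rw [Pi.coe_exp, Complex.exp_eq_exp_ℂ]
  have h3 : g.1 * (g⁻¹).1 = 1 := by
    have h := congrArg Subtype.val (mul_inv_cancel g)
    exact h
  refine ⟨fun t => ?_, fun β => ?_⟩
  · have h4 : g.1 * D.H t = D.H t * g.1 := by
      rw [h2]
      unfold RD.H
      rw [Matrix.diagonal_mul_diagonal, Matrix.diagonal_mul_diagonal]
      congr 1
      funext j
      rw [mul_comm]
    rw [h4, Matrix.mul_assoc, h3, Matrix.mul_one]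
  · have h4 : g.1 * D.e β = Complex.exp (s * D.rt β u) • (D.e β * g.1) := by
      rw [h2]
      ext a b
      rw [Matrix.diagonal_mul, Matrix.smul_apply, Matrix.mul_diagonal, smul_eq_mul]
      by_cases h0 : D.e β a b = 0
      · rw [h0, mul_zero, zero_mul, mul_zero]
      · have h5 := hD.supp β a b h0
        have h6 : w a = D.rt β u + w b := by
          rw [hw]
          unfold RD.rt
          rw [← Finset.sum_add_distrib]
          refine Finset.sum_congr rfl fun i _ => ?_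
          rw [← h5 i]
          push_cast
          ring
        rw [h6, mul_add, Complex.exp_add]
        ring
    rw [h4, Matrix.smul_mul, Matrix.mul_assoc, h3, Matrix.mul_one]

/-- Proof. `exists_action` for `n` gives `ν`, `p`, `c`; `ν = μ` by `H_inj`. Let `D.rt β u = a β` (integers, nonzero); `a (p β) = a β`: `D.rt (p β) u = D.rt (p β) (μ u) = D.rt β u`. Take `s` from `exists_good_s` and `g₁ ∈ G` with `g₁ = exp (s H(u))` (`tanG_exp`, `H_mem`),
`g = n * g₁ ∈ G`. By `conj_exp_H`: `Ad g (H t) = H (μ t)`, `Ad g (e β) = d β • e (p β)` with `d β = exp (s a_β) * c β`. For `Y = H t + ∑ x_β e_β` (all elements of `tanG G`, `IsRD.mem_iff`): `(Ad g - 1) Y = H ((μ - 1) t) + ∑ ((M - 1) x)_β e_β`,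
`(M x) β = d (p⁻¹ β) * x (p⁻¹ β)`; so `(Ad g - 1)^k Y = 0` implies (`IsRD.indep`) `(μ - 1)^k t = 0` and `(M - 1)^k x = 0`. `M - 1` is injective (`monomial_inj`: `(M x) = x` means `x (p β) = d β * x β`), so `x = 0`; and `μ t = t` by `finOrder_ker`.
So `(AdM g - 1).maxGenEigenspace 0 ⊓ tanG G ≤ {H t | μ t = t}`, the image of `ker (μ - 1)` under the linear map `H` (`Submodule.map`, `Submodule.finrank_map_le`). By `mult_ge`, `r ≤ finrank (ker (μ - 1)) ≤ r`, so `ker (μ - 1) = ⊤` (`Submodule.eq_top_of_finrank_eq`). -/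
theorem act_trivial (hG : AlmostSimple G) (hD : IsRD G D) {n : SLC m} (hn : n ∈ G) (μ : (Fin r → ℂ) →ₗ[ℂ] (Fin r → ℂ))
    (hμ : ∀ t, n.1 * D.H t * (n⁻¹).1 = D.H (μ t)) (hfin : ∃ K : ℕ, 0 < K ∧ ∀ t, (μ ^ K) t = t)
    (u : Fin r → ℂ) (hu : μ u = u) (hreg : ∀ β, ∃ a : ℤ, a ≠ 0 ∧ D.rt β u = a) (t : Fin r → ℂ) : μ t = t := by
  obtain ⟨ν, p, c, h1, h2, h3, h4⟩ := exists_action hD hn (fun t => ⟨μ t, hμ t⟩)
  have hν : ∀ t, ν t = μ t := fun t => hD.H_inj (by rw [← h1, hμ])
  choose a ha ha' using hreg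
  have hap : ∀ β, a (p β) = a β := by
    intro β
    have h5 := h4 β u
    rw [hν, hu, ha', ha'] at h5
    exact_mod_cast h5
  obtain ⟨s, hs⟩ := exists_good_s p c h2 a ha hap
  obtain ⟨g₁, hg₁, hg₁'⟩ := tanG_exp hG.closed (hD.H_mem u) (s : ℂ)
  obtain ⟨c1, c2⟩ := conj_exp_H hD hg₁'
  obtain ⟨g, hg⟩ : ∃ g, g = n * g₁ := ⟨_, rfl⟩
  have hgG : g ∈ G := by
    rw [hg]
    exact G.mul_mem hn hg₁
  have hAd : ∀ Y, AdM g Y = n.1 * (g₁.1 * Y * (g₁⁻¹).1) * (n⁻¹).1 := by
    intro Y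
    rw [hg]
    change (n * g₁).1 * Y * ((n * g₁)⁻¹).1 = _
    rw [_root_.mul_inv_rev]
    change n.1 * g₁.1 * Y * ((g₁⁻¹).1 * (n⁻¹).1) = _
    simp only [Matrix.mul_assoc]
  have hAH : ∀ t, AdM g (D.H t) = D.H (μ t) := by
    intro t
    rw [hAd, c1, hμ]
  obtain ⟨d, hd⟩ : ∃ d : ι → ℂ, d = fun β => Complex.exp ((s : ℂ) * (a β : ℂ)) * c β := ⟨_, rfl⟩
  have hAe : ∀ β, AdM g (D.e β) = d β • D.e (p β) := by
    intro β
    rw [hAd, c2, Matrix.mul_smul, Matrix.smul_mul, h3, smul_smul, ha', hd]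
  have hd1 : ∀ β, ∏ k ∈ Finset.range (orderOf p), d ((p ^ k) β) ≠ 1 := by
    intro β
    rw [hd]
    exact hs β
  let M : Module.End ℂ (ι → ℂ) :=
    { toFun := fun x β => d (p.symm β) * x (p.symm β)
      map_add' := fun x y => by
        funext β
        change d (p.symm β) * (x (p.symm β) + y (p.symm β)) = _
        rw [mul_add]
        rfl
      map_smul' := fun z x => by
        funext β
        change d (p.symm β) * (z * x (p.symm β)) = z * (d (p.symm β) * x (p.symm β))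
        ring }
  have hM : ∀ x β, M x β = d (p.symm β) * x (p.symm β) := fun x β => rfl
  let T : (Fin r → ℂ) → (ι → ℂ) → Matrix (Fin m) (Fin m) ℂ := fun t x => D.H t + ∑ β, x β • D.e β
  have hT : ∀ t x, T t x = D.H t + ∑ β, x β • D.e β := fun t x => rfl
  have hstep : ∀ t x, (AdM g - 1) (T t x) = T ((μ - 1 : Module.End ℂ (Fin r → ℂ)) t) ((M - 1 : Module.End ℂ (ι → ℂ)) x) := by
    intro t x
    have e1 : (AdM g - 1) (T t x) = AdM g (T t x) - T t x := rfl
    have e2 : AdM g (T t x) = T (μ t) (M x) := by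
      rw [hT, hT, map_add, hAH, map_sum]
      congr 1
      rw [← Equiv.sum_comp p (fun β => M x β • D.e β)]
      refine Finset.sum_congr rfl fun β _ => ?_
      rw [_root_.map_smul, hAe, smul_smul, hM, Equiv.symm_apply_apply, mul_comm]
    have e3 : T (μ t) (M x) - T t x = T (μ t - t) (M x - x) := by
      rw [hT, hT, hT]
      have e4 : D.H (μ t) = D.H (μ t - t) + D.H t := by rw [← D.H_add, sub_add_cancel]
      have e5 : ∑ β, M x β • D.e β = ∑ β, (M x - x) β • D.e β + ∑ β, x β • D.e β := by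
        rw [← Finset.sum_add_distrib]
        refine Finset.sum_congr rfl fun β _ => ?_
        rw [← add_smul, Pi.sub_apply, sub_add_cancel]
      rw [e4, e5]
      abel
    rw [e1, e2, e3]
    rfl
  have hpow : ∀ (k : ℕ) t x, ((AdM g - 1) ^ k) (T t x) =
      T (((μ - 1 : Module.End ℂ (Fin r → ℂ)) ^ k) t) (((M - 1 : Module.End ℂ (ι → ℂ)) ^ k) x) := by
    intro k
    induction k with
    | zero =>
      intro t x
      rw [pow_zero, pow_zero, pow_zero]
      rfl
    | succ k ih =>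
      intro t x
      rw [pow_succ, pow_succ, pow_succ]
      change ((AdM g - 1) ^ k) ((AdM g - 1) (T t x)) = _
      rw [hstep, ih]
      rfl
  have hMinj : ∀ x : ι → ℂ, (M - 1 : Module.End ℂ (ι → ℂ)) x = 0 → x = 0 := by
    intro x hx
    refine monomial_inj p d hd1 x fun β => ?_
    have e1 : (M - 1 : Module.End ℂ (ι → ℂ)) x = M x - x := rfl
    rw [e1] at hx
    have e2 := congrFun hx (p β)
    rw [Pi.sub_apply, Pi.zero_apply, hM, Equiv.symm_apply_apply] at e2
    exact (sub_eq_zero.1 e2).symm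
  have hMpow : ∀ (k : ℕ) (x : ι → ℂ), ((M - 1 : Module.End ℂ (ι → ℂ)) ^ k) x = 0 → x = 0 := by
    intro k
    induction k with
    | zero =>
      intro x hx
      rw [pow_zero] at hx
      exact hx
    | succ k ih =>
      intro x hx
      rw [pow_succ] at hx
      exact hMinj x (ih _ hx)
  let Hl : (Fin r → ℂ) →ₗ[ℂ] Matrix (Fin m) (Fin m) ℂ :=
    { toFun := fun t => D.H t
      map_add' := fun t t' => D.H_add t t'
      map_smul' := fun z t => D.H_smul z t }
  obtain ⟨K, hK, hK'⟩ := hfin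
  have hle : (AdM g - 1).maxGenEigenspace 0 ⊓ tanG G ≤
      (LinearMap.ker (μ - 1 : Module.End ℂ (Fin r → ℂ))).map Hl := by
    intro Y hY
    obtain ⟨hY1, hY2⟩ := Submodule.mem_inf.1 hY
    obtain ⟨k, hk⟩ := (Module.End.mem_maxGenEigenspace _ _ _).1 hY1
    rw [zero_smul, sub_zero] at hk
    obtain ⟨t, x, rfl⟩ := (hD.mem_iff Y).1 hY2
    rw [← hT, hpow, hT] at hk
    obtain ⟨k1, k2⟩ := hD.indep _ _ hk
    have hx := hMpow k x k2
    have ht := finOrder_ker μ K hK hK' k t k1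
    refine Submodule.mem_map.2 ⟨t, ?_, ?_⟩
    · rw [LinearMap.mem_ker]
      change μ t - t = 0
      rw [ht, sub_self]
    · rw [hx]
      change D.H t = _
      rw [Finset.sum_eq_zero (fun β _ => by rw [Pi.zero_apply, zero_smul]), add_zero]
  have hr := mult_ge hG hD hgG
  have hr1 := Submodule.finrank_mono hle
  have hr2 := Submodule.finrank_map_le Hl (LinearMap.ker (μ - 1 : Module.End ℂ (Fin r → ℂ)))
  have hr3 : Module.finrank ℂ (Fin r → ℂ) = r := by rw [Module.finrank_fintype_fun_eq_card, Fintype.card_fin]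
  have hr4 := Submodule.finrank_le (LinearMap.ker (μ - 1 : Module.End ℂ (Fin r → ℂ)))
  have htop : LinearMap.ker (μ - 1 : Module.End ℂ (Fin r → ℂ)) = ⊤ := by
    refine Submodule.eq_top_of_finrank_eq ?_
    rw [hr3] at hr4 ⊢
    exact le_antisymm hr4 (hr.trans (hr1.trans hr2))
  have hmem : t ∈ LinearMap.ker (μ - 1 : Module.End ℂ (Fin r → ℂ)) := by
    rw [htop]
    exact Submodule.mem_top
  rw [LinearMap.mem_ker] at hmem
  have hfinal : μ t - t = 0 := hmem
  exact sub_eq_zero.1 hfinal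

end WCn
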