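import Pool.Agent.Lib.MP_c2b80f_alE.NwD
import Pool.Agent.Lib.MP_c2b80f_alE.NwE
import Pool.Agent.Lib.MP_c2b80f_alE.NwF

/-!
# The normaliser acts by the Weyl group (job NwG)
-/

open Matrix

namespace WCn

variable {m r : ℕ} {ι : Type} [Fintype ι] [DecidableEq ι] {G : Subgroup (SLC m)} {D : RD m r ι}

/-- Proof. `exists_action` gives `ν`, `p`. `exists_weyl_pos` gives `w ∈ D.W` and `q`. Let `μ t = act w (ν t)` (a linear map: `act_add`, `act_smul`). `exists_of_weyl` gives `n_w ∈ G` with `n_w H(t) n_w⁻¹ = H(act w t)`, so `n' = n_w n ∈ G` satisfies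
`n' H(t) n'⁻¹ = H(μ t)`. `exists_fixed` and `act_trivial` give `μ t = t`, so `ν t = act w⁻¹ t` (`act_mul`, `act_one`). -/
theorem normalizer_weyl' (hG : AlmostSimple G) (hD : IsRD G D)
    (n : SLC m) (hn : n ∈ G) (h : ∀ t : Fin r → ℂ, ∃ t' : Fin r → ℂ, n.1 * D.H t * (n⁻¹).1 = D.H t') :
    ∃ w ∈ D.W, ∀ t : Fin r → ℂ, n.1 * D.H t * (n⁻¹).1 = D.H (act w t) := by
  obtain ⟨ν, p, c, hν, hc, hce, hp⟩ := exists_action hD hn h
  obtain ⟨w, hw, q, hq, hpos⟩ := exists_weyl_pos hD ν p hp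
  obtain ⟨k, hk, hk'⟩ := exists_of_weyl hG hD hw
  obtain ⟨μ, hμ⟩ : ∃ μ : (Fin r → ℂ) →ₗ[ℂ] (Fin r → ℂ), ∀ t, μ t = act w (ν t) :=
    ⟨{ toFun := fun t => act w (ν t)
       map_add' := fun t t' => by rw [map_add, act_add]
       map_smul' := fun a t => by rw [map_smul, act_smul, RingHom.id_apply] }, fun t => rfl⟩
  have h1 : ∀ t, (k * n).1 * D.H t * ((k * n)⁻¹).1 = D.H (μ t) := by
    intro t
    have h2 : ((k * n)⁻¹).1 = (n⁻¹).1 * (k⁻¹).1 := by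
      rw [_root_.mul_inv_rev]
      rfl
    have h3 : (k * n).1 = k.1 * n.1 := rfl
    rw [h2, h3, hμ, ← hk', ← hν]
    simp only [Matrix.mul_assoc]
  have hq' : ∀ β t, D.rt β (μ t) = D.rt (q β) t := by
    intro β t
    rw [hμ]
    exact hq β t
  obtain ⟨hfin, u, hu, hreg⟩ := exists_fixed hD μ q hq' hpos
  refine ⟨w⁻¹, D.W.inv_mem hw, fun t => ?_⟩
  have h4 : μ t = t := act_trivial hG hD (G.mul_mem hk hn) μ h1 hfin u hu hreg t
  rw [hμ] at h4
  have h5 : ν t = act w⁻¹ t := by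
    have h6 := congrArg (act w⁻¹) h4
    rw [← act_mul, inv_mul_cancel, act_one] at h6
    exact h6
  rw [hν, h5]

end WCn
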