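import Pool.Agent.Lib.MP_c2b80f_alE.JhD
import Pool.Agent.Lib.MP_c2b80f_alE.JhE
import Pool.Agent.Lib.MP_c2b80f_alE.JhG
import Pool.Agent.Lib.MP_c2b80f_alE.JhH
import Pool.Agent.Lib.MP_c2b80f_alE.NwG

/-!
# Genericity from places (job JhI)
-/

open Matrix Polynomial

namespace WCn

variable {m r : ℕ} {ι : Type} [Fintype ι] [DecidableEq ι] {G : Subgroup (SLC m)} {D : RD m r ι}

/-- Proof. `PlaceAt` for `w = 1` gives `g₀ ∈ G` and a labelling `y₀` (`LabelBy`). `IsSs γ`: `DiagBy γ p y₀` with `p` the image of `g₀` in `GL` (`Matrix.SpecialLinearGroup` to `GL`: use the units `⟨g₀.1, (g₀⁻¹).1, _, _⟩`). Let `DiagBy γ q y`; `diagBy_perm` (`alC/DiagB`): `y j = y₀ (κ j)` for a permutation `κ`.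
Let `v j = D.wt (κ j)`. Take `S₀ = relS v`. `hv`: `wt_sep` (reindex). `finrank_relS`. Relations: for `d` with `(d : ℚ) ∈ relS v`, `d' = d ∘ κ.symm` satisfies `∑ j, d' j * D.wt j i = 0` (integers), so `∏ y₀ j ^ d' j = 1` (third property of `PlaceAt`), reindex.
`hsym`: let `u ∈ D.W`; `exists_tau` (with `hN = normalizer_weyl'`) gives `τ`, and `exists_relSym_tau` gives `π`, `ρ` with `RelSym x y π ρ` and `τ (y j) = y (ρ j)`. For `a` let `k` be such that `D.wt k = D.wt (κ a) ∘ u` (`wt_stable`); `τ (y a) = τ (y₀ (κ a)) = y₀ k`, so `y₀ (κ (ρ a)) = y₀ k` and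
`D.wt (κ (ρ a)) = D.wt k`, i.e. `v (ρ a) = v a ∘ u`. Conclude by `hIrr_of`, `hSchur_of`. -/
theorem genEl_of_places' (hG : AlmostSimple G) (hD : IsRD G D)
    (A A' : Subring ℂ) (hAA : A ≤ A') (γ : SLC m) (hγA : ∀ i j, γ.1 i j ∈ A') (hfin : ¬ IsOfFinOrder γ)
    (hpl : ∀ w ∈ D.W, PlaceAt G D A' γ w) : GenEl r A γ := by
  obtain ⟨τ₀, g₀, y₀, hg₀, hτ₀, hd₀, hiff₀, hrel₀, -⟩ := hpl 1 D.W.one_mem
  have hy₀ : LabelBy G D γ g₀ y₀ := ⟨hg₀, hd₀, hiff₀⟩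
  have e1 : g₀.1 * (g₀⁻¹).1 = 1 := by
    have h1 := congrArg Subtype.val (mul_inv_cancel g₀)
    exact h1
  have e2 : (g₀⁻¹).1 * g₀.1 = 1 := by
    have h1 := congrArg Subtype.val (inv_mul_cancel g₀)
    exact h1
  have hD0 : DiagBy γ (⟨g₀.1, (g₀⁻¹).1, e1, e2⟩ : GL (Fin m) ℂ) y₀ := hd₀
  refine ⟨⟨_, y₀, hD0⟩, hfin, fun q y hy n x hx => ?_⟩
  obtain ⟨κ, hκ⟩ := diagBy_perm hD0 hy
  have hv : ∀ t : Fin r → ℂ, (∀ a, ∑ i, (((fun j => D.wt (κ j)) a i : ℤ) : ℂ) * t i = 0) → t = 0 := by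
    intro t ht
    refine hD.wt_sep t fun a => ?_
    have h1 := ht (κ.symm a)
    simp only [Equiv.apply_symm_apply] at h1
    exact h1
  have hsym : ∀ u ∈ D.W, ∃ π ρ, RelSym x y π ρ ∧
      ∀ a i, (fun j => D.wt (κ j)) (ρ a) i = ∑ l, (fun j => D.wt (κ j)) a l * u.1 l i := by
    intro u hu
    obtain ⟨τ, hτ, hτy⟩ := exists_tau hG hD (fun n hn h => normalizer_weyl' hG hD n hn h) A' γ hpl g₀ y₀ hy₀ u hu
    obtain ⟨π, ρ, hs, hρ⟩ := exists_relSym_tau A A' hAA γ hγA q y hy x hx τ hτ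
    refine ⟨π, ρ, hs, fun a i => ?_⟩
    obtain ⟨k, hk⟩ := wt_stable hG hD hu (κ a)
    have h1 := hτy (κ a) k hk
    have h2 := hρ a
    rw [hκ a, hκ (ρ a), h1] at h2
    have h3 : D.wt k = D.wt (κ (ρ a)) := (hiff₀ _ _).1 (Units.ext h2)
    show D.wt (κ (ρ a)) i = _
    rw [← h3]
    exact hk i
  refine ⟨relS fun j => D.wt (κ j), finrank_relS _ hv, fun d hd => ?_, hIrr_of hD _ x y hsym, hSchur_of hD _ hv x y hsym⟩
  have h1 : ∀ i, ∑ j, d (κ.symm j) * D.wt j i = 0 := by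
    intro i
    have h2 : ∑ j, (d j : ℚ) * (D.wt (κ j) i : ℚ) = 0 := hd i
    have h3 : ∑ j, d j * D.wt (κ j) i = 0 := by exact_mod_cast h2
    rw [← h3, ← Equiv.sum_comp κ]
    simp only [Equiv.symm_apply_apply]
  have h4 := hrel₀ (fun j => d (κ.symm j)) h1
  rw [← Equiv.prod_comp κ] at h4
  simp only [Equiv.symm_apply_apply] at h4
  rw [← h4]
  exact Finset.prod_congr rfl fun j _ => by rw [hκ j]

end WCn
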