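import Pool.Agent.Lib.MP_c2b80f_alE.KwDefs

/-!
# Degrees of matrices (job KwA)

Elementary: everything is entrywise. For products: if `(X * Y) a b ≠ 0` there is `e` with `X a e ≠ 0`, `Y e b ≠ 0`, and `h a - h b = (h a - h e) + (h e - h b)`.
-/

open Matrix

namespace WCn

variable {m : ℕ} {h : Fin m → ℚ} {d d' k : ℚ} {X Y : Matrix (Fin m) (Fin m) ℂ}

private theorem KwA_cmp (h : Fin m → ℚ) (k : ℚ) (X : Matrix (Fin m) (Fin m) ℂ) (a b : Fin m) :
    cmp h k X a b = if h a - h b = k then X a b else 0 := rfl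

theorem low_mono (hd : d ≤ d') : Low h d ≤ Low h d' := by
  intro X hX a b hab
  exact hX a b (lt_of_le_of_lt hd hab)

theorem low_mul (hX : X ∈ Low h d) (hY : Y ∈ Low h d') : X * Y ∈ Low h (d + d') := by
  intro a b hab
  rw [Matrix.mul_apply]
  refine Finset.sum_eq_zero fun e _ => ?_
  by_cases h1 : d < h a - h e
  · rw [hX a e h1, zero_mul]
  · have h2 : d' < h e - h b := by linarith
    rw [hY e b h2, mul_zero]

theorem one_mem_low : (1 : Matrix (Fin m) (Fin m) ℂ) ∈ Low h 0 := by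
  intro a b hab
  refine Matrix.one_apply_ne ?_
  rintro rfl
  rw [sub_self] at hab
  exact lt_irrefl _ hab

theorem hg_le_low : Hg h d ≤ Low h d := by
  intro X hX a b hab
  exact hX a b hab.ne'

theorem hg_mul (hX : X ∈ Hg h d) (hY : Y ∈ Hg h d') : X * Y ∈ Hg h (d + d') := by
  intro a b hab
  rw [Matrix.mul_apply]
  refine Finset.sum_eq_zero fun e _ => ?_
  by_cases h1 : h a - h e = d
  · have h2 : h e - h b ≠ d' := by
      intro h2
      apply hab
      rw [← h1, ← h2]
      ring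
    rw [hY e b h2, mul_zero]
  · rw [hX a e h1, zero_mul]

theorem hg_pow (hX : X ∈ Hg h d) (n : ℕ) : X ^ n ∈ Hg h (n * d) := by
  induction n with
  | zero =>
    rw [pow_zero, Nat.cast_zero, zero_mul]
    intro a b hab
    refine Matrix.one_apply_ne ?_
    rintro rfl
    exact hab (sub_self _)
  | succ n ih =>
    have h1 := hg_mul ih hX
    have h2 : (n : ℚ) * d + d = ((n + 1 : ℕ) : ℚ) * d := by
      rw [Nat.cast_add, Nat.cast_one, add_mul, one_mul]
    rw [h2, ← pow_succ] at h1
    exact h1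

theorem hg_neg_iff : X ∈ Hg (fun a => -h a) d ↔ X ∈ Hg h (-d) := by
  constructor
  · intro hX a b hab
    refine hX a b fun h1 => hab ?_
    linarith
  · intro hX a b hab
    refine hX a b fun h1 => hab ?_
    linarith

theorem slow_le_low : Slow h ≤ Low h 0 := by
  intro X hX a b hab
  exact hX a b (by linarith)

theorem low_le_slow (hd : d < 0) : Low h d ≤ Slow h := by
  intro X hX a b hab
  exact hX a b (by linarith)

theorem slow_mul_low (hX : X ∈ Slow h) (hY : Y ∈ Low h 0) : X * Y ∈ Slow h := by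
  intro a b hab
  rw [Matrix.mul_apply]
  refine Finset.sum_eq_zero fun e _ => ?_
  by_cases h1 : h e ≤ h a
  · rw [hX a e h1, zero_mul]
  · have h2 : 0 < h e - h b := by linarith
    rw [hY e b h2, mul_zero]

theorem low_mul_slow (hX : X ∈ Low h 0) (hY : Y ∈ Slow h) : X * Y ∈ Slow h := by
  intro a b hab
  rw [Matrix.mul_apply]
  refine Finset.sum_eq_zero fun e _ => ?_
  by_cases h1 : 0 < h a - h e
  · rw [hX a e h1, zero_mul]
  · have h2 : h b ≤ h e := by linarith
    rw [hY e b h2, mul_zero]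

/-- `X Y - 1 = (X - 1) Y + (Y - 1)` and `Y = 1 + (Y - 1)` has degree at most `0`. -/
theorem slow_mul_sub_one (hX : X - 1 ∈ Slow h) (hY : Y - 1 ∈ Slow h) : X * Y - 1 ∈ Slow h := by
  have h1 : X * Y - 1 = (X - 1) * Y + (Y - 1) := by
    rw [Matrix.sub_mul, Matrix.one_mul]
    abel
  have h2 : Y ∈ Low h 0 := by
    have h3 : Y = 1 + (Y - 1) := by abel
    rw [h3]
    exact Submodule.add_mem _ one_mem_low (slow_le_low hY)
  rw [h1]
  exact Submodule.add_mem _ (slow_mul_low hX h2) hY

theorem cmp_mem_hg : cmp h k X ∈ Hg h k := by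
  intro a b hab
  rw [KwA_cmp, if_neg hab]

theorem cmp_of_hg (hX : X ∈ Hg h k) : cmp h k X = X := by
  ext a b
  rw [KwA_cmp]
  by_cases h1 : h a - h b = k
  · rw [if_pos h1]
  · rw [if_neg h1, hX a b h1]

theorem cmp_of_hg_ne (hX : X ∈ Hg h d) (hk : k ≠ d) : cmp h k X = 0 := by
  ext a b
  rw [KwA_cmp]
  by_cases h1 : h a - h b = k
  · rw [if_pos h1, hX a b (by rw [h1]; exact hk)]
    rfl
  · rw [if_neg h1]
    rfl

theorem cmp_of_low (hX : X ∈ Low h d) (hk : d < k) : cmp h k X = 0 := by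
  ext a b
  rw [KwA_cmp]
  by_cases h1 : h a - h b = k
  · rw [if_pos h1, hX a b (by rw [h1]; exact hk)]
    rfl
  · rw [if_neg h1]
    rfl

theorem low_of_cmp (hX : ∀ k, d < k → cmp h k X = 0) : X ∈ Low h d := by
  intro a b hab
  have h1 := congrFun (congrFun (hX _ hab) a) b
  rw [KwA_cmp, if_pos rfl] at h1
  exact h1

theorem eq_zero_of_cmp (hX : ∀ k, cmp h k X = 0) : X = 0 := by
  ext a b
  have h1 := congrFun (congrFun (hX (h a - h b)) a) b
  rw [KwA_cmp, if_pos rfl] at h1
  exact h1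

theorem cmp_hg_mul (hX : X ∈ Hg h d) : cmp h k (X * Y) = X * cmp h (k - d) Y := by
  ext a b
  rw [KwA_cmp, Matrix.mul_apply, Matrix.mul_apply]
  have h0 : ∀ e, X a e * cmp h (k - d) Y e b = if h a - h b = k then X a e * Y e b else 0 := by
    intro e
    rw [KwA_cmp]
    by_cases h1 : h a - h e = d
    · by_cases h2 : h a - h b = k
      · rw [if_pos h2, if_pos (by linarith)]
      · rw [if_neg h2, if_neg (fun h3 => h2 (by linarith)), mul_zero]
    · rw [hX a e h1, zero_mul, zero_mul]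
      split_ifs <;> rfl
  rw [Finset.sum_congr rfl fun e _ => h0 e]
  by_cases h2 : h a - h b = k
  · simp only [if_pos h2]
  · simp only [if_neg h2, Finset.sum_const_zero]

theorem cmp_mul_hg (hX : X ∈ Hg h d) : cmp h k (Y * X) = cmp h (k - d) Y * X := by
  ext a b
  rw [KwA_cmp, Matrix.mul_apply, Matrix.mul_apply]
  have h0 : ∀ e, cmp h (k - d) Y a e * X e b = if h a - h b = k then Y a e * X e b else 0 := by
    intro e
    rw [KwA_cmp]
    by_cases h1 : h e - h b = d
    · by_cases h2 : h a - h b = k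
      · rw [if_pos h2, if_pos (by linarith)]
      · rw [if_neg h2, if_neg (fun h3 => h2 (by linarith)), zero_mul]
    · rw [hX e b h1, mul_zero, mul_zero]
      split_ifs <;> rfl
  rw [Finset.sum_congr rfl fun e _ => h0 e]
  by_cases h2 : h a - h b = k
  · simp only [if_pos h2]
  · simp only [if_neg h2, Finset.sum_const_zero]

/-- All degrees are larger than `- N` for some `N`. -/
theorem exists_bound (h : Fin m → ℚ) : ∃ N : ℕ, 1 ≤ N ∧ ∀ a b, -(N : ℚ) < h a - h b := by
  obtain ⟨N, hN⟩ := exists_nat_gt (2 * ∑ a, |h a|)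
  have h0 : ∀ a, |h a| ≤ ∑ a, |h a| := fun a =>
    Finset.single_le_sum (f := fun a => |h a|) (fun b _ => abs_nonneg (h b)) (Finset.mem_univ a)
  refine ⟨N + 1, Nat.le_add_left 1 N, fun a b => ?_⟩
  have h1 := h0 a
  have h2 := h0 b
  have h3 := neg_abs_le (h a)
  have h4 := le_abs_self (h b)
  rw [Nat.cast_add, Nat.cast_one]
  linarith

/-- If `X - 1` is not zero and has degree less than zero, it has a lowest drop `k`: `X - 1` has degree at most `-k` and a nonzero component of degree `-k` (`-k` is the maximum of `h a - h b` over the finite set of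
the `a, b` with `(X - 1) a b ≠ 0`). -/
theorem exists_drop (hX : X - 1 ∈ Slow h) (hX1 : X ≠ 1) :
    ∃ k : ℚ, 0 < k ∧ X - 1 ∈ Low h (-k) ∧ cmp h (-k) (X - 1) ≠ 0 := by
  classical
  obtain ⟨T, hT⟩ : ∃ T : Finset (Fin m × Fin m), T = Finset.univ.filter fun p : Fin m × Fin m => (X - 1) p.1 p.2 ≠ 0 :=
    ⟨_, rfl⟩
  have hmem : ∀ a b, (X - 1) a b ≠ 0 → (a, b) ∈ T := by
    intro a b hab
    rw [hT, Finset.mem_filter]
    exact ⟨Finset.mem_univ _, hab⟩
  have hne : T.Nonempty := by
    by_contra hc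
    rw [Finset.not_nonempty_iff_eq_empty] at hc
    apply hX1
    rw [← sub_eq_zero]
    ext a b
    by_contra h1
    have h2 := hmem a b h1
    rw [hc] at h2
    exact absurd h2 (Finset.notMem_empty _)
  obtain ⟨p, hp, hmax⟩ := T.exists_max_image (fun p => h p.1 - h p.2) hne
  rw [hT, Finset.mem_filter] at hp
  have hp2 := hp.2
  refine ⟨-(h p.1 - h p.2), ?_, ?_, ?_⟩
  · by_contra hc
    exact hp2 (hX p.1 p.2 (by linarith))
  · intro a b hab
    by_contra h1
    have h2 := hmax (a, b) (hmem a b h1)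
    simp only at h2
    linarith
  · intro hc
    have h1 := congrFun (congrFun hc p.1) p.2
    rw [KwA_cmp, neg_neg, if_pos rfl] at h1
    exact hp2 h1

end WCn
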