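import Pool.Agent.Lib.MP_c2b80f_alE.KwB
import Pool.Agent.Lib.MP_c2b80f_alE.KwB2
import Mathlib.Algebra.Lie.Sl2

/-!
# `[e, ·]` is injective on matrices of negative degree (job KwC)

Principal `sl₂`: let `c` be as in `HtC`; `∑ i, root (simple j) i * c i = ht (simple j) = 1` for all `j`. Put `hh = D.H (fun i => 2 * c i)`, `e = D.eS`, `f = ∑ i, (2 * c i) • D.e (D.neg (D.simple i))`. Then `[e, f] = ∑ i, 2 c i • H (Pi.single i 1) = hh`
(`eS_bracket`), `[hh, e] = 2 e`, `[hh, f] = -2 f` (`H_comm`; `root_neg`), and `hh ≠ 0` (`[hh, e] = 2 e ≠ 0`, `eS_ne_zero`): this is an `IsSl2Triple hh e f` in the Lie ring of matrices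
(`attribute [local instance 100] LieRing.ofAssociativeRing`; Mathlib file `Mathlib/Algebra/Lie/Sl2.lean`). A matrix `Y` which is homogeneous of degree `-k` satisfies `[hh, Y] = -2 k Y` (`hh` is the diagonal matrix with entries `2 * D.hq c a`).
If `Y ≠ 0` and `[e, Y] = 0` it is a primitive vector of weight `-2 k` of the adjoint module, and `IsSl2Triple.HasPrimitiveVectorWith.exists_nat` says that `-2 k` is a natural number: contradiction.
-/

open Matrix

namespace WCn

variable {m r : ℕ} {ι : Type} [Fintype ι] [DecidableEq ι] {G : Subgroup (SLC m)} {D : RD m r ι} {c : Fin r → ℚ}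

omit [Fintype ι] [DecidableEq ι] in
/-- The diagonal matrix with entries `2 * hq c a` acts on homogeneous matrices by a scalar. -/
theorem H_hq_comm (D : RD m r ι) (c : Fin r → ℚ) {Y : Matrix (Fin m) (Fin m) ℂ} {k : ℚ} (hY : Y ∈ Hg (D.hq c) k) :
    D.H (fun i => 2 * (c i : ℂ)) * Y - Y * D.H (fun i => 2 * (c i : ℂ)) = (2 * (k : ℂ)) • Y := by
  ext a b
  rw [Matrix.sub_apply, Matrix.smul_apply, smul_eq_mul]
  unfold RD.H
  rw [Matrix.diagonal_mul, Matrix.mul_diagonal]
  have hq : ∀ a, ∑ i, (D.wt a i : ℂ) * (2 * (c i : ℂ)) = 2 * ((D.hq c a : ℚ) : ℂ) := by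
    intro a
    unfold RD.hq
    rw [Rat.cast_sum, Finset.mul_sum]
    refine Finset.sum_congr rfl fun i _ => ?_
    rw [Rat.cast_mul, Rat.cast_intCast]
    ring
  rw [hq a, hq b]
  by_cases h : D.hq c a - D.hq c b = k
  · rw [← h, Rat.cast_sub]
    ring
  · rw [hY a b h]
    ring

attribute [local instance 100] LieRing.ofAssociativeRing

theorem ad_eS_inj (hG : ZClosed G) (hD : IsRD G D) (hc : D.HtC c) {Y : Matrix (Fin m) (Fin m) ℂ} {k : ℚ} (hk : 0 < k)
    (hY : Y ∈ Hg (D.hq c) (-k)) (h0 : D.eS * Y - Y * D.eS = 0) : Y = 0 := by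
  by_contra hY0
  have hlie : ∀ X Z : Matrix (Fin m) (Fin m) ℂ, ⁅X, Z⁆ = X * Z - Z * X := fun X Z => rfl
  have hf : (∑ i, (2 * (c i : ℂ)) • D.e (D.neg (D.simple i))) ∈ Hg (D.hq c) (-1) := by
    refine Submodule.sum_mem _ fun i _ => Submodule.smul_mem _ _ ?_
    have h1 := e_hg hD hc (D.neg (D.simple i))
    rw [hD.ht_neg, hD.ht_simple] at h1
    have h2 : (((-1 : ℤ) : ℤ) : ℚ) = -1 := by norm_num
    rw [h2] at h1
    exact h1
  have he1 : D.H (fun i => 2 * (c i : ℂ)) * D.eS - D.eS * D.H (fun i => 2 * (c i : ℂ)) = 2 • D.eS := by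
    rw [H_hq_comm D c (eS_hg hD hc), Rat.cast_one, mul_one, two_smul, two_smul]
  have hf1 : D.H (fun i => 2 * (c i : ℂ)) * (∑ i, (2 * (c i : ℂ)) • D.e (D.neg (D.simple i))) -
      (∑ i, (2 * (c i : ℂ)) • D.e (D.neg (D.simple i))) * D.H (fun i => 2 * (c i : ℂ)) =
      -(2 • (∑ i, (2 * (c i : ℂ)) • D.e (D.neg (D.simple i)))) := by
    rw [H_hq_comm D c hf, Rat.cast_neg, Rat.cast_one, mul_neg, mul_one, neg_smul, two_smul, two_smul]
  have hef : D.eS * (∑ i, (2 * (c i : ℂ)) • D.e (D.neg (D.simple i))) -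
      (∑ i, (2 * (c i : ℂ)) • D.e (D.neg (D.simple i))) * D.eS = D.H (fun i => 2 * (c i : ℂ)) := by
    rw [Finset.mul_sum, Finset.sum_mul, ← Finset.sum_sub_distrib]
    have h1 : ∀ i ∈ Finset.univ, D.eS * ((2 * (c i : ℂ)) • D.e (D.neg (D.simple i))) -
        ((2 * (c i : ℂ)) • D.e (D.neg (D.simple i))) * D.eS = (2 * (c i : ℂ)) • D.H (Pi.single i (1 : ℂ)) := by
      intro i _
      rw [Matrix.mul_smul, Matrix.smul_mul, ← smul_sub, eS_bracket hG hD i]
    rw [Finset.sum_congr rfl h1]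
    unfold RD.H
    ext a b
    rw [Matrix.sum_apply]
    simp only [Matrix.smul_apply, smul_eq_mul]
    by_cases hab : a = b
    · subst hab
      simp only [Matrix.diagonal_apply_eq]
      refine Finset.sum_congr rfl fun i _ => ?_
      rw [Finset.sum_eq_single i]
      · rw [Pi.single_eq_same]
        ring
      · intro j _ hj
        rw [Pi.single_eq_of_ne hj, mul_zero]
      · intro h
        exact absurd (Finset.mem_univ i) h
    · simp only [Matrix.diagonal_apply_ne _ hab, mul_zero, Finset.sum_const_zero]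
  have ht : IsSl2Triple (D.H (fun i => 2 * (c i : ℂ))) D.eS (∑ i, (2 * (c i : ℂ)) • D.e (D.neg (D.simple i))) := by
    refine ⟨?_, ?_, ?_, ?_⟩
    · intro h
      rw [h, Matrix.zero_mul, Matrix.mul_zero, sub_self, eq_comm, two_smul, ← two_smul ℂ, smul_eq_zero] at he1
      exact eS_ne_zero hD (he1.resolve_left two_ne_zero)
    · rw [hlie]
      exact hef
    · rw [hlie]
      exact he1
    · rw [hlie]
      exact hf1
  have hp : IsSl2Triple.HasPrimitiveVectorWith ht Y (2 * ((-k : ℚ) : ℂ)) := by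
    refine ⟨hY0, ?_, ?_⟩
    · rw [hlie]
      exact H_hq_comm D c hY
    · rw [hlie]
      exact h0
  obtain ⟨n, hn⟩ := hp.exists_nat
  have h1 : ((2 * (-k) : ℚ) : ℂ) = ((n : ℚ) : ℂ) := by
    rw [Rat.cast_mul, Rat.cast_natCast, ← hn]
    norm_num
  have h2 : (2 * (-k) : ℚ) = (n : ℚ) := Rat.cast_injective h1
  have h3 : (0 : ℚ) ≤ (n : ℚ) := Nat.cast_nonneg n
  linarith

end WCn
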