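import Pool.Agent.Lib.MP_c2b80f_alE.KwA
import Pool.Agent.Lib.MP_c2b80f_alE.KwB

/-!
# Truncated exponentials (job KwD)
-/

open Matrix

namespace WCn

variable {m r : ℕ} {ι : Type} [Fintype ι] [DecidableEq ι] {G : Subgroup (SLC m)} {D : RD m r ι} {c : Fin r → ℚ}

theorem KwD_supp (hD : IsRD G D) (β : ι) (i : Fin r) : ∀ (n : ℕ) (a b : Fin m), (D.e β ^ n) a b ≠ 0 →
    D.wt a i - D.wt b i = n * D.root β i := by
  intro n
  induction n with
  | zero =>
    intro a b hab
    rw [pow_zero] at hab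
    have h1 : a = b := by
      by_contra h2
      exact hab (Matrix.one_apply_ne h2)
    rw [h1, sub_self, Nat.cast_zero, zero_mul]
  | succ n ih =>
    intro a b hab
    rw [pow_succ, Matrix.mul_apply] at hab
    obtain ⟨k, _, hk⟩ := Finset.exists_ne_zero_of_sum_ne_zero hab
    have h1 := ih a k (left_ne_zero_of_mul hk)
    have h2 := hD.supp β k b (right_ne_zero_of_mul hk) i
    have h3 : D.wt a i - D.wt b i = (D.wt a i - D.wt k i) + (D.wt k i - D.wt b i) := by ring
    rw [h3, h1, h2]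
    push_cast
    ring

theorem KwD_nil (hD : IsRD G D) (β : ι) : IsNilpotent (D.e β) := by
  obtain ⟨i, hi⟩ : ∃ i, D.root β i ≠ 0 := by
    by_contra h
    refine hD.root_ne β (funext fun i => ?_)
    by_contra h1
    exact h ⟨i, h1⟩
  refine ⟨(∑ a : Fin m, ∑ b : Fin m, |D.wt a i - D.wt b i|).toNat + 1, ?_⟩
  ext a b
  by_contra hab
  have h1 := KwD_supp hD β i _ a b hab
  have h2 : |D.wt a i - D.wt b i| ≤ ∑ a : Fin m, ∑ b : Fin m, |D.wt a i - D.wt b i| := by
    refine le_trans ?_ (Finset.single_le_sum (f := fun a : Fin m => ∑ b : Fin m, |D.wt a i - D.wt b i|)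
      (fun a _ => Finset.sum_nonneg fun b _ => abs_nonneg _) (Finset.mem_univ a))
    exact Finset.single_le_sum (f := fun b : Fin m => |D.wt a i - D.wt b i|) (fun b _ => abs_nonneg _) (Finset.mem_univ b)
  have h3 : (0 : ℤ) ≤ ∑ a : Fin m, ∑ b : Fin m, |D.wt a i - D.wt b i| :=
    Finset.sum_nonneg fun a _ => Finset.sum_nonneg fun b _ => abs_nonneg _
  have h4 : 1 ≤ |D.root β i| := Int.one_le_abs hi
  have h5 := congrArg abs h1
  rw [abs_mul] at h5
  push_cast at h5
  rw [Int.toNat_of_nonneg h3] at h5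
  have h6 : |(∑ a : Fin m, ∑ b : Fin m, |D.wt a i - D.wt b i|) + 1| = (∑ a : Fin m, ∑ b : Fin m, |D.wt a i - D.wt b i|) + 1 :=
    abs_of_nonneg (by linarith)
  rw [h6] at h5
  nlinarith

theorem KwD_pow_zero {X : Matrix (Fin m) (Fin m) ℂ} (hX : IsNilpotent X) : X ^ m = 0 := by
  have h1 := Matrix.isNilpotent_charpoly_sub_pow_of_isNilpotent hX
  have h2 : X.charpoly - Polynomial.X ^ (Fintype.card (Fin m)) = 0 := h1.eq_zero
  rw [Fintype.card_fin, sub_eq_zero] at h2
  have h3 := Matrix.aeval_self_charpoly X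
  rw [h2, map_pow, Polynomial.aeval_X] at h3
  exact h3

theorem KwD_eq (X : Matrix (Fin m) (Fin m) ℂ) (z : ℂ) :
    Eb X z = ∑ n ∈ Finset.range m, ((n.factorial : ℂ)⁻¹ * z ^ n) • X ^ n := by
  unfold Eb
  refine Finset.sum_congr rfl fun n _ => ?_
  ext a b
  rfl

theorem KwD_pow_ge {X : Matrix (Fin m) (Fin m) ℂ} (hX : X ^ m = 0) {n : ℕ} (hn : m ≤ n) : X ^ n = 0 := by
  obtain ⟨k, rfl⟩ := Nat.exists_eq_add_of_le hn
  rw [pow_add, hX, zero_mul]

/-- The root vectors are nilpotent, so `(e β) ^ m = 0`. (`(e β) ^ n` is supported on the entries `a b` with `wt a - wt b = n root β`, and `root β ≠ 0`: it is zero for large `n`. A nilpotent `m × m` matrix over a field satisfies `X ^ m = 0`: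
its characteristic polynomial is `X ^ m`, Cayley-Hamilton. Or: in a path `a_0, ..., a_m` two indices agree, and `wt a_i - wt a_j = (j - i) root β`.) -/
theorem e_pow_zero (hD : IsRD G D) (β : ι) : D.e β ^ m = 0 := by
  exact KwD_pow_zero (KwD_nil hD β)

theorem Eb_eq_exp {X : Matrix (Fin m) (Fin m) ℂ} (hX : X ^ m = 0) (z : ℂ) : Eb X z = NormedSpace.exp (z • X) := by
  rw [KwD_eq, NormedSpace.exp_eq_tsum ℂ]
  change _ = ∑' n : ℕ, ((n.factorial : ℂ)⁻¹) • (z • X) ^ n
  rw [tsum_eq_sum (s := Finset.range m)]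
  · refine Finset.sum_congr rfl fun n _ => ?_
    rw [smul_pow, smul_smul]
  · intro n hn
    rw [Finset.mem_range, not_lt] at hn
    rw [smul_pow, KwD_pow_ge hX hn, smul_zero, smul_zero]

theorem Eb_eval {σ : Type} (X : Matrix (Fin m) (Fin m) ℂ) (z : MvPolynomial σ ℂ) (t : σ → ℂ) :
    (Eb X z).map (MvPolynomial.eval t) = Eb X (MvPolynomial.eval t z) := by
  ext a b
  unfold Eb
  rw [Matrix.map_apply, Matrix.sum_apply, Matrix.sum_apply, map_sum]
  refine Finset.sum_congr rfl fun n _ => ?_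
  rw [Matrix.smul_apply, Matrix.smul_apply, Matrix.map_apply, Matrix.map_apply, smul_eq_mul, smul_eq_mul, map_mul,
    map_mul, map_pow, MvPolynomial.algebraMap_eq, MvPolynomial.eval_C, MvPolynomial.eval_C]
  rfl

/-- From `Eb_eq_exp`. -/
theorem Eb_mul_neg {X : Matrix (Fin m) (Fin m) ℂ} (hX : X ^ m = 0) (z : ℂ) : Eb X z * Eb X (-z) = 1 := by
  rw [Eb_eq_exp hX, Eb_eq_exp hX, ← Matrix.exp_add_of_commute]
  · rw [neg_smul, add_neg_cancel, NormedSpace.exp_zero]
  · rw [neg_smul]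
    exact (Commute.refl _).neg_right

/-- `exp (z e β) ∈ G` (`tanG_exp`, `e_mem`). -/
theorem Eb_mem (hG : ZClosed G) (hD : IsRD G D) (β : ι) (z : ℂ) :
    ∃ g ∈ G, g.1 = Eb (D.e β) z ∧ (g⁻¹).1 = Eb (D.e β) (-z) := by
  obtain ⟨g, hg, hg1⟩ := tanG_exp hG (e_mem hD β) z
  have h0 := e_pow_zero hD β
  refine ⟨g, hg, ?_, ?_⟩
  · rw [hg1, Eb_eq_exp h0]
  · have h1 : (g⁻¹).1 * g.1 = 1 := by
      have h := congrArg Subtype.val (inv_mul_cancel g)
      exact h
    have h2 : g.1 = Eb (D.e β) z := by rw [hg1, Eb_eq_exp h0]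
    have h3 := Eb_mul_neg h0 z
    rw [← h2] at h3
    calc (g⁻¹).1 = (g⁻¹).1 * (g.1 * Eb (D.e β) (-z)) := by rw [h3, Matrix.mul_one]
      _ = Eb (D.e β) (-z) := by rw [← Matrix.mul_assoc, h1, Matrix.one_mul]

/-- For `m = 0` everything is trivial; otherwise the term `n = 0` is `1`, and `X ^ n ∈ Hg h (n d)` is in `Low h d` for `n ≥ 1`. -/
theorem Eb_low {h : Fin m → ℚ} {d : ℚ} (hd : d < 0) {X : Matrix (Fin m) (Fin m) ℂ} (hX : X ∈ Hg h d) (z : ℂ) : Eb X z - 1 ∈ Low h d := by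
  rcases Nat.eq_zero_or_pos m with hm | hm
  · subst hm
    rw [Subsingleton.elim (Eb X z - 1) 0]
    exact Submodule.zero_mem _
  obtain ⟨k, hk⟩ : ∃ k, m = k + 1 := ⟨m - 1, by omega⟩
  have hr : Finset.range m = Finset.range (k + 1) := congrArg Finset.range hk
  have h1 : Eb X z - 1 = ∑ n ∈ Finset.range k, (((n + 1).factorial : ℂ)⁻¹ * z ^ (n + 1)) • X ^ (n + 1) := by
    rw [KwD_eq, hr, Finset.sum_range_succ', Nat.factorial_zero, Nat.cast_one, inv_one, pow_zero, one_mul, one_smul,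
      pow_zero, add_sub_cancel_right]
  rw [h1]
  refine Submodule.sum_mem _ fun n _ => Submodule.smul_mem _ _ ?_
  refine low_mono ?_ (hg_le_low (hg_pow hX (n + 1)))
  push_cast
  have h2 : (0 : ℚ) ≤ n := Nat.cast_nonneg n
  nlinarith

/-- For `m ≤ 1` one has `X = 0`. -/
theorem Eb_low2 {h : Fin m → ℚ} {d : ℚ} (hd : d < 0) {X : Matrix (Fin m) (Fin m) ℂ} (hX : X ∈ Hg h d) (z : ℂ) :
    Eb X z - 1 - z • X ∈ Low h (2 * d) := by
  rcases Nat.lt_or_ge m 2 with hm | hm
  · have hX0 : X = 0 := by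
      ext a b
      refine hX a b ?_
      have hab : a = b := by
        apply Fin.ext
        have h1 := a.2
        have h2 := b.2
        omega
      rw [hab, sub_self]
      exact hd.ne'
    have h1 : Eb X z = 1 := by
      rcases Nat.eq_zero_or_pos m with hm0 | hm0
      · subst hm0
        exact Subsingleton.elim _ _
      · have hm1 : m = 1 := by omega
        have hr : Finset.range m = Finset.range 1 := congrArg Finset.range hm1
        rw [KwD_eq, hr, Finset.sum_range_one, Nat.factorial_zero, Nat.cast_one, inv_one, pow_zero, one_mul, one_smul,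
          pow_zero]
    rw [h1, hX0, smul_zero, sub_self, sub_zero]
    exact Submodule.zero_mem _
  obtain ⟨k, hk⟩ : ∃ k, m = k + 1 + 1 := ⟨m - 2, by omega⟩
  have hr : Finset.range m = Finset.range (k + 1 + 1) := congrArg Finset.range hk
  have h1 : Eb X z - 1 - z • X =
      ∑ n ∈ Finset.range k, (((n + 1 + 1).factorial : ℂ)⁻¹ * z ^ (n + 1 + 1)) • X ^ (n + 1 + 1) := by
    rw [KwD_eq, hr, Finset.sum_range_succ', Finset.sum_range_succ', Nat.factorial_zero, Nat.cast_one, inv_one, pow_zero,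
      one_mul, one_smul, pow_zero, zero_add, Nat.factorial_one, Nat.cast_one, inv_one, one_mul, pow_one, pow_one,
      add_sub_cancel_right, add_sub_cancel_right]
  rw [h1]
  refine Submodule.sum_mem _ fun n _ => Submodule.smul_mem _ _ ?_
  refine low_mono ?_ (hg_le_low (hg_pow hX (n + 1 + 1)))
  push_cast
  have h2 : (0 : ℚ) ≤ n := Nat.cast_nonneg n
  nlinarith

/-- Write `Eb X z = 1 + z X + N`, `Eb X (-z) = 1 - z X + N'` with `N, N' ∈ Low h (2 d)`, `X ∈ Low h d`, and multiply out. -/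
theorem step_one {h : Fin m → ℚ} {a d : ℚ} (hd : d < 0) {X A : Matrix (Fin m) (Fin m) ℂ} (hX : X ∈ Hg h d) (hA : A ∈ Low h a) (z : ℂ) :
    Eb X z * A * Eb X (-z) - A - z • (X * A - A * X) ∈ Low h (a + 2 * d) := by
  obtain ⟨P, hP⟩ : ∃ P, P = Eb X z - 1 := ⟨_, rfl⟩
  obtain ⟨P', hP'⟩ : ∃ P', P' = Eb X (-z) - 1 := ⟨_, rfl⟩
  have h1 : P ∈ Low h d := by rw [hP]; exact Eb_low hd hX z
  have h2 : P' ∈ Low h d := by rw [hP']; exact Eb_low hd hX (-z)
  have h3 : P - z • X ∈ Low h (2 * d) := by rw [hP]; exact Eb_low2 hd hX z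
  have h4 : P' + z • X ∈ Low h (2 * d) := by
    have h5 := Eb_low2 hd hX (-z)
    rw [← hP', neg_smul, sub_neg_eq_add] at h5
    exact h5
  have e1 : Eb X z = 1 + P := by rw [hP]; abel
  have e2 : Eb X (-z) = 1 + P' := by rw [hP']; abel
  have e3 : Eb X z * A * Eb X (-z) - A - z • (X * A - A * X) =
      (P - z • X) * A + A * (P' + z • X) + P * A * P' := by
    rw [e1, e2, smul_sub]
    simp only [Matrix.add_mul, Matrix.mul_add, Matrix.sub_mul, Matrix.one_mul, Matrix.mul_one, Matrix.smul_mul,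
      Matrix.mul_smul]
    abel
  rw [e3]
  refine Submodule.add_mem _ (Submodule.add_mem _ ?_ ?_) ?_
  · exact low_mono (by linarith) (low_mul h3 hA)
  · exact low_mul hA h4
  · exact low_mono (by linarith) (low_mul (low_mul h1 hA) h2)

theorem funR_eval {σ : Type} (ξ : Matrix (Fin m) (Fin m) ℂ →ₗ[ℂ] ℂ) (B : Matrix (Fin m) (Fin m) (MvPolynomial σ ℂ)) (t : σ → ℂ) :
    MvPolynomial.eval t (funR ξ B) = ξ (B.map (MvPolynomial.eval t)) := by
  unfold funR
  rw [map_sum]
  conv_rhs => rw [Matrix.matrix_eq_sum_single (B.map (MvPolynomial.eval t)), map_sum]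
  refine Finset.sum_congr rfl fun a _ => ?_
  rw [map_sum, map_sum]
  refine Finset.sum_congr rfl fun b _ => ?_
  rw [map_mul, MvPolynomial.eval_C, Matrix.map_apply]
  have h1 : Matrix.single a b (MvPolynomial.eval t (B a b)) =
      (MvPolynomial.eval t (B a b)) • (Matrix.single a b (1 : ℂ) : Matrix (Fin m) (Fin m) ℂ) := by
    rw [Matrix.smul_single, smul_eq_mul, mul_one]
  rw [h1, _root_.map_smul, smul_eq_mul, mul_comm]

/-- Matrices of polynomials are equal if they are equal at all points (`MvPolynomial.funext`). -/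
theorem mat_funext {σ : Type} {A B : Matrix (Fin m) (Fin m) (MvPolynomial σ ℂ)}
    (h : ∀ t : σ → ℂ, A.map (MvPolynomial.eval t) = B.map (MvPolynomial.eval t)) : A = B := by
  ext1 a b
  refine MvPolynomial.funext fun t => ?_
  have h1 := congrFun (congrFun (h t) a) b
  rw [Matrix.map_apply, Matrix.map_apply] at h1
  exact h1

end WCn
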