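import Pool.Agent.Lib.MP_c2b80f_alE.UTan

/-!
# The Kostant section: definitions

Let `h : Fin m → ℚ`. The entry `a b` of a matrix has degree `h a - h b`. For a root datum `D` with `ht_lin` (an element `c` with `ht β = ∑ root β i * c i`) we use `h = D.hq c`: then `e β` is homogeneous of degree `ht β`
and the diagonal matrices have degree `0`. Often the same lemmas are used for `-h`.
-/

open Matrix

namespace WCn

variable {m : ℕ}

/-- The homogeneous matrices of degree `d`. -/
def Hg (h : Fin m → ℚ) (d : ℚ) : Submodule ℂ (Matrix (Fin m) (Fin m) ℂ) where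
  carrier := {X | ∀ a b, h a - h b ≠ d → X a b = 0}
  add_mem' := by
    intro X Y hX hY a b hab
    rw [Matrix.add_apply, hX a b hab, hY a b hab, add_zero]
  zero_mem' := fun _ _ _ => rfl
  smul_mem' := by
    intro c X hX a b hab
    rw [Matrix.smul_apply, hX a b hab, smul_zero]

/-- The matrices of degree at most `d`. -/
def Low (h : Fin m → ℚ) (d : ℚ) : Submodule ℂ (Matrix (Fin m) (Fin m) ℂ) where
  carrier := {X | ∀ a b, d < h a - h b → X a b = 0}
  add_mem' := by
    intro X Y hX hY a b hab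
    rw [Matrix.add_apply, hX a b hab, hY a b hab, add_zero]
  zero_mem' := fun _ _ _ => rfl
  smul_mem' := by
    intro c X hX a b hab
    rw [Matrix.smul_apply, hX a b hab, smul_zero]

/-- The matrices of degree less than `0`. -/
def Slow (h : Fin m → ℚ) : Submodule ℂ (Matrix (Fin m) (Fin m) ℂ) where
  carrier := {X | ∀ a b, h b ≤ h a → X a b = 0}
  add_mem' := by
    intro X Y hX hY a b hab
    rw [Matrix.add_apply, hX a b hab, hY a b hab, add_zero]
  zero_mem' := fun _ _ _ => rfl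
  smul_mem' := by
    intro c X hX a b hab
    rw [Matrix.smul_apply, hX a b hab, smul_zero]

/-- The component of degree `k`. -/
def cmp (h : Fin m → ℚ) (k : ℚ) : Matrix (Fin m) (Fin m) ℂ →ₗ[ℂ] Matrix (Fin m) (Fin m) ℂ where
  toFun X := Matrix.of fun a b => if h a - h b = k then X a b else 0
  map_add' := by
    intro X Y
    ext a b
    simp only [Matrix.of_apply, Matrix.add_apply]
    split_ifs
    · rfl
    · rw [add_zero]
  map_smul' := by
    intro c X
    ext a b
    simp only [Matrix.of_apply, Matrix.smul_apply, RingHom.id_apply]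
    split_ifs
    · rfl
    · rw [smul_zero]

/-- The height of the index `a`. -/
def RD.hq {r : ℕ} {ι : Type} (D : RD m r ι) (c : Fin r → ℚ) (a : Fin m) : ℚ := ∑ i, (D.wt a i : ℚ) * c i

/-- The element `c` of `IsRD.ht_lin`. -/
def RD.HtC {r : ℕ} {ι : Type} (D : RD m r ι) (c : Fin r → ℚ) : Prop := ∀ β, (D.ht β : ℚ) = ∑ i, (D.root β i : ℚ) * c i

/-- The truncated exponential `∑ n < m, z ^ n / n! X ^ n`. -/
noncomputable def Eb {R : Type*} [CommRing R] [Algebra ℂ R] (X : Matrix (Fin m) (Fin m) ℂ) (z : R) : Matrix (Fin m) (Fin m) R :=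
  ∑ n ∈ Finset.range m, (algebraMap ℂ R ((n.factorial : ℂ)⁻¹) * z ^ n) • (X ^ n).map (algebraMap ℂ R)

/-- The product of the `exp (z β e β)`, `β ∈ l`. -/
noncomputable def RD.prE {r : ℕ} {ι : Type} (D : RD m r ι) {R : Type*} [CommRing R] [Algebra ℂ R] (l : List ι) (z : ι → R) :
    Matrix (Fin m) (Fin m) R := (l.map fun β => Eb (D.e β) (z β)).prod

/-- The inverse of `prE`. -/
noncomputable def RD.prE' {r : ℕ} {ι : Type} (D : RD m r ι) {R : Type*} [CommRing R] [Algebra ℂ R] (l : List ι) (z : ι → R) :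
    Matrix (Fin m) (Fin m) R := (l.reverse.map fun β => Eb (D.e β) (-z β)).prod

/-- A linear functional on matrices, extended to matrices of polynomials. -/
noncomputable def funR {σ : Type} (ξ : Matrix (Fin m) (Fin m) ℂ →ₗ[ℂ] ℂ) (B : Matrix (Fin m) (Fin m) (MvPolynomial σ ℂ)) : MvPolynomial σ ℂ :=
  ∑ a, ∑ b, MvPolynomial.C (ξ (Matrix.single a b 1)) * B a b

/-- The family `ξ j β` describes a left inverse of `[e, ·]` on the matrices of degree `- (j + 1)` in the Lie algebra. -/
structure IsXi {r : ℕ} {ι : Type} [Fintype ι] (G : Subgroup (SLC m)) (D : RD m r ι) (c : Fin r → ℚ)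
    (ξ : ℕ → ι → (Matrix (Fin m) (Fin m) ℂ →ₗ[ℂ] ℂ)) : Prop where
  zero : ∀ (j : ℕ) (β : ι), D.ht β ≠ -((j : ℤ) + 1) → ξ j β = 0
  inv : ∀ (j : ℕ), ∀ Y ∈ tanG G, Y ∈ Hg (D.hq c) (-((j : ℚ) + 1)) → ∑ β, ξ j β (D.eS * Y - Y * D.eS) • D.e β = Y

/-- The slice, up to degree `- n` (excluded): `S` is in the Lie algebra, of degree at most `0`, and the components of degree `-j`, `j < n`, are in the kernels of the `ξ j β`. -/
structure Sl {r : ℕ} {ι : Type} (G : Subgroup (SLC m)) (D : RD m r ι) (c : Fin r → ℚ)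
    (ξ : ℕ → ι → (Matrix (Fin m) (Fin m) ℂ →ₗ[ℂ] ℂ)) (n : ℕ) (S : Matrix (Fin m) (Fin m) ℂ) : Prop where
  mem : S ∈ tanG G
  low : S ∈ Low (D.hq c) 0
  ker : ∀ j < n, ∀ β, ξ j β (cmp (D.hq c) (-(j : ℚ)) S) = 0

end WCn
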