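import Pool.Agent.Lib.MP_c2b80f_alE.KwD

/-!
# Products of exponentials (job KwE)

Inductions on the list `l`.
-/

open Matrix

namespace WCn

variable {m r : ℕ} {ι : Type} [Fintype ι] [DecidableEq ι] {G : Subgroup (SLC m)} {D : RD m r ι} {c : Fin r → ℚ}

private theorem KwE_cons {R : Type*} [CommRing R] [Algebra ℂ R] (D : RD m r ι) (β : ι) (l : List ι) (z : ι → R) :
    D.prE (β :: l) z = Eb (D.e β) (z β) * D.prE l z ∧ D.prE' (β :: l) z = D.prE' l z * Eb (D.e β) (-z β) := by
  refine ⟨?_, ?_⟩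
  · unfold RD.prE
    rw [List.map_cons, List.prod_cons]
  · unfold RD.prE'
    rw [List.reverse_cons, List.map_append, List.prod_append, List.map_singleton, List.prod_singleton]

private theorem KwE_nil {R : Type*} [CommRing R] [Algebra ℂ R] (D : RD m r ι) (z : ι → R) :
    D.prE [] z = 1 ∧ D.prE' [] z = 1 := ⟨rfl, rfl⟩

theorem prE_eval {σ : Type} (D : RD m r ι) (l : List ι) (z : ι → MvPolynomial σ ℂ) (t : σ → ℂ) :
    (D.prE l z).map (MvPolynomial.eval t) = D.prE l (fun β => MvPolynomial.eval t (z β)) ∧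
    (D.prE' l z).map (MvPolynomial.eval t) = D.prE' l (fun β => MvPolynomial.eval t (z β)) := by
  induction l with
  | nil =>
    rw [(KwE_nil D z).1, (KwE_nil D z).2, (KwE_nil D (fun β => MvPolynomial.eval t (z β))).1,
      (KwE_nil D (fun β => MvPolynomial.eval t (z β))).2]
    exact ⟨Matrix.map_one _ (map_zero _) (map_one _), Matrix.map_one _ (map_zero _) (map_one _)⟩
  | cons β l ih =>
    rw [(KwE_cons D β l z).1, (KwE_cons D β l z).2, (KwE_cons D β l (fun β => MvPolynomial.eval t (z β))).1,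
      (KwE_cons D β l (fun β => MvPolynomial.eval t (z β))).2, Matrix.map_mul, Matrix.map_mul, ih.1, ih.2, Eb_eval,
      Eb_eval, map_neg]
    exact ⟨rfl, rfl⟩

theorem prE_mem (hG : ZClosed G) (hD : IsRD G D) (l : List ι) (z : ι → ℂ) :
    ∃ g ∈ G, g.1 = D.prE l z ∧ (g⁻¹).1 = D.prE' l z := by
  induction l with
  | nil =>
    refine ⟨1, G.one_mem, rfl, ?_⟩
    rw [inv_one]
    rfl
  | cons β l ih =>
    obtain ⟨g, hg, h1, h2⟩ := ih
    obtain ⟨g', hg', h1', h2'⟩ := Eb_mem hG hD β (z β)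
    refine ⟨g' * g, G.mul_mem hg' hg, ?_, ?_⟩
    · rw [(KwE_cons D β l z).1, ← h1, ← h1']
      rfl
    · rw [(KwE_cons D β l z).2, ← h2, ← h2', _root_.mul_inv_rev]
      rfl

/-- From `prE_mem`, `prE_eval` and `mat_funext`. -/
theorem prE_mul {σ : Type} (hG : ZClosed G) (hD : IsRD G D) (l : List ι) (z : ι → MvPolynomial σ ℂ) :
    D.prE l z * D.prE' l z = 1 ∧ D.prE' l z * D.prE l z = 1 := by
  have key : ∀ t : σ → ℂ, (D.prE l z).map (MvPolynomial.eval t) * (D.prE' l z).map (MvPolynomial.eval t) = 1 ∧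
      (D.prE' l z).map (MvPolynomial.eval t) * (D.prE l z).map (MvPolynomial.eval t) = 1 := by
    intro t
    obtain ⟨g, -, h1, h2⟩ := prE_mem hG hD l (fun β => MvPolynomial.eval t (z β))
    rw [(prE_eval D l z t).1, (prE_eval D l z t).2, ← h1, ← h2]
    have e1 : (g * g⁻¹).1 = (1 : SLC m).1 := congrArg Subtype.val (mul_inv_cancel g)
    have e2 : (g⁻¹ * g).1 = (1 : SLC m).1 := congrArg Subtype.val (inv_mul_cancel g)
    exact ⟨e1, e2⟩
  have hone : ∀ t : σ → ℂ, (1 : Matrix (Fin m) (Fin m) (MvPolynomial σ ℂ)).map (MvPolynomial.eval t) = 1 :=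
    fun t => Matrix.map_one _ (map_zero _) (map_one _)
  refine ⟨mat_funext fun t => ?_, mat_funext fun t => ?_⟩
  · rw [Matrix.map_mul, (key t).1, hone]
  · rw [Matrix.map_mul, (key t).2, hone]

private theorem KwE_low {h : Fin m → ℚ} {d : ℚ} (hd : d < 0) {X Y : Matrix (Fin m) (Fin m) ℂ} (hX : X - 1 ∈ Low h d)
    (hY : Y - 1 ∈ Low h d) : X * Y - 1 ∈ Low h d := by
  have e1 : X * Y - 1 = (X - 1) * (Y - 1) + ((X - 1) + (Y - 1)) := by noncomm_ring
  rw [e1]
  exact (Low h d).add_mem (low_mono (by linarith) (low_mul hX hY)) ((Low h d).add_mem hX hY)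

theorem prE_low {h : Fin m → ℚ} {d : ℚ} (hd : d < 0) (l : List ι) (hl : ∀ β ∈ l, D.e β ∈ Hg h d) (z : ι → ℂ) :
    D.prE l z - 1 ∈ Low h d ∧ D.prE' l z - 1 ∈ Low h d := by
  induction l with
  | nil =>
    rw [(KwE_nil D z).1, (KwE_nil D z).2, sub_self]
    exact ⟨(Low h d).zero_mem, (Low h d).zero_mem⟩
  | cons β l ih =>
    obtain ⟨h1, h2⟩ := ih fun γ hγ => hl γ (List.mem_cons_of_mem β hγ)
    have h3 := Eb_low hd (hl β List.mem_cons_self) (z β)
    have h4 := Eb_low hd (hl β List.mem_cons_self) (-z β)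
    rw [(KwE_cons D β l z).1, (KwE_cons D β l z).2]
    exact ⟨KwE_low hd h3 h1, KwE_low hd h2 h4⟩

private theorem KwE_low0 {h : Fin m → ℚ} {d : ℚ} (hd : d < 0) {X : Matrix (Fin m) (Fin m) ℂ} (hX : X - 1 ∈ Low h d) :
    X ∈ Low h 0 := by
  have e1 : X = (X - 1) + 1 := by abel
  rw [e1]
  exact (Low h 0).add_mem (low_mono hd.le hX) one_mem_low

/-- Conjugation by a product of exponentials of matrices of degree `d < 0`, up to degree `a + 2 d`. Induction on `l`: for `β :: l` let `A' = prE l z * A * prE' l z`; it is in `Low h a`, and `A' - A ∈ Low h (a + d)`;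
use `step_one` for `A'` and note that `[e β, A' - A] ∈ Low h (a + 2 d)`. -/
theorem prE_step {h : Fin m → ℚ} {a d : ℚ} (hd : d < 0) (l : List ι) (hl : ∀ β ∈ l, D.e β ∈ Hg h d) (z : ι → ℂ)
    {A : Matrix (Fin m) (Fin m) ℂ} (hA : A ∈ Low h a) :
    D.prE l z * A * D.prE' l z - A -
      ((l.map fun β => z β • D.e β).sum * A - A * (l.map fun β => z β • D.e β).sum) ∈ Low h (a + 2 * d) := by
  induction l with
  | nil =>
    rw [(KwE_nil D z).1, (KwE_nil D z).2, List.map_nil, List.sum_nil, zero_mul, mul_zero, one_mul, mul_one, sub_self,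
      sub_self, sub_self]
    exact (Low h (a + 2 * d)).zero_mem
  | cons β l ih =>
    have hl' : ∀ γ ∈ l, D.e γ ∈ Hg h d := fun γ hγ => hl γ (List.mem_cons_of_mem β hγ)
    have h0 := ih hl'
    obtain ⟨h1, h2⟩ := prE_low hd l hl' z
    have hβ : D.e β ∈ Hg h d := hl β List.mem_cons_self
    have hX : (l.map fun β => z β • D.e β).sum ∈ Low h d := by
      refine list_sum_mem ?_
      intro x hx
      obtain ⟨γ, hγ, rfl⟩ := List.mem_map.1 hx
      exact (Low h d).smul_mem _ (hg_le_low (hl' γ hγ))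
    rw [(KwE_cons D β l z).1, (KwE_cons D β l z).2, List.map_cons, List.sum_cons]
    obtain ⟨X, hXe⟩ : ∃ X, X = (l.map fun β => z β • D.e β).sum := ⟨_, rfl⟩
    obtain ⟨P, hP⟩ : ∃ P, P = D.prE l z := ⟨_, rfl⟩
    obtain ⟨P', hP'⟩ : ∃ P', P' = D.prE' l z := ⟨_, rfl⟩
    rw [← hXe] at hX h0 ⊢
    rw [← hP] at h1 h0 ⊢
    rw [← hP'] at h2 h0 ⊢
    have hA' : P * A * P' ∈ Low h a := by
      have e1 := low_mul (low_mul (KwE_low0 hd h1) hA) (KwE_low0 hd h2)
      rw [zero_add, add_zero] at e1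
      exact e1
    have hs := step_one hd hβ hA' (z β)
    have hdif : P * A * P' - A ∈ Low h (a + d) := by
      have e1 : P * A * P' - A = (P * A * P' - A - (X * A - A * X)) + (X * A - A * X) := by abel
      rw [e1]
      have e2 : X * A ∈ Low h (a + d) := by
        have := low_mul hX hA
        rwa [add_comm] at this
      exact (Low h (a + d)).add_mem (low_mono (by linarith) h0) ((Low h (a + d)).sub_mem e2 (low_mul hA hX))
    have hbr : z β • (D.e β * (P * A * P' - A) - (P * A * P' - A) * D.e β) ∈ Low h (a + 2 * d) := by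
      refine (Low h (a + 2 * d)).smul_mem _ ((Low h (a + 2 * d)).sub_mem ?_ ?_)
      · have := low_mul (hg_le_low hβ) hdif
        have e3 : d + (a + d) = a + 2 * d := by ring
        rwa [e3] at this
      · have := low_mul hdif (hg_le_low hβ)
        have e3 : a + d + d = a + 2 * d := by ring
        rwa [e3] at this
    have efin : Eb (D.e β) (z β) * P * A * (P' * Eb (D.e β) (-z β)) - A -
        ((z β • D.e β + X) * A - A * (z β • D.e β + X)) =
        (Eb (D.e β) (z β) * (P * A * P') * Eb (D.e β) (-z β) - P * A * P' -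
          z β • (D.e β * (P * A * P') - (P * A * P') * D.e β)) +
        (z β • (D.e β * (P * A * P' - A) - (P * A * P' - A) * D.e β)) +
        (P * A * P' - A - (X * A - A * X)) := by
      have e4 : z β • (D.e β * (P * A * P' - A) - (P * A * P' - A) * D.e β) =
          z β • (D.e β * (P * A * P') - (P * A * P') * D.e β) - (z β • D.e β * A - A * (z β • D.e β)) := by
        rw [mul_sub, sub_mul, smul_mul_assoc, mul_smul_comm, ← smul_sub, ← smul_sub]
        congr 1
        abel
      rw [e4, add_mul, mul_add]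
      have e5 : Eb (D.e β) (z β) * P * A * (P' * Eb (D.e β) (-z β)) =
          Eb (D.e β) (z β) * (P * A * P') * Eb (D.e β) (-z β) := by noncomm_ring
      rw [e5]
      abel
    rw [efin]
    exact (Low h (a + 2 * d)).add_mem ((Low h (a + 2 * d)).add_mem hs hbr) h0

/-- The sum over the list of a finite set. -/
theorem sum_toList (D : RD m r ι) (p : ι → Prop) [DecidablePred p] (z : ι → ℂ) (hz : ∀ β, ¬ p β → z β = 0) :
    ((Finset.univ.filter p).toList.map fun β => z β • D.e β).sum = ∑ β, z β • D.e β := by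
  rw [Finset.sum_map_toList]
  refine Finset.sum_subset (Finset.filter_subset _ _) ?_
  intro β _ hβ
  have h1 : ¬ p β := fun h => hβ (Finset.mem_filter.2 ⟨Finset.mem_univ β, h⟩)
  rw [hz β h1, zero_smul]

end WCn
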