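import Pool.Agent.Lib.MP_c2b80f_alE.KwA
import Pool.Agent.Lib.MP_c2b80f_alE.KwC

/-!
# The linear functionals which define the slice (job KwF)
-/

open Matrix

namespace WCn

variable {m r : ℕ} {ι : Type} [Fintype ι] [DecidableEq ι] {G : Subgroup (SLC m)} {D : RD m r ι} {c : Fin r → ℚ}

/-- For `j : ℕ` let `V = tanG G ⊓ Hg (D.hq c) (-(j + 1))`; the linear map `V → Matrix`, `Y ↦ [e, Y]` is injective by `ad_eS_inj`; let `ψ : Matrix → V` be a linear left inverse (`LinearMap.exists_leftInverse_of_injective`).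
With the coordinates `x β` of `exists_coordE` put `ξ j β X = x β (ψ X)` if `ht β = -(j + 1)` and `0` otherwise. For `Y ∈ V`: `ψ [e, Y] = Y = ∑ y β e β` with `y β = 0` if `ht β ≠ -(j + 1)` (`tan_hg`), and `x β Y = y β` (`exists_coordE` with `t = 0`;
note `D.H 0 = 0`). -/
theorem exists_xi (hG : ZClosed G) (hD : IsRD G D) (hc : D.HtC c) :
    ∃ ξ : ℕ → ι → (Matrix (Fin m) (Fin m) ℂ →ₗ[ℂ] ℂ), IsXi G D c ξ := by
  obtain ⟨τ, x, _, hx⟩ := exists_coordE hD
  have hψ : ∀ j : ℕ, ∃ ψ : Matrix (Fin m) (Fin m) ℂ →ₗ[ℂ] ↥(tanG G ⊓ Hg (D.hq c) (-((j : ℚ) + 1))),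
      ∀ Y : ↥(tanG G ⊓ Hg (D.hq c) (-((j : ℚ) + 1))), ψ (D.eS * Y.1 - Y.1 * D.eS) = Y := by
    intro j
    have hker : LinearMap.ker ((adM D.eS).comp (tanG G ⊓ Hg (D.hq c) (-((j : ℚ) + 1))).subtype) = ⊥ := by
      rw [LinearMap.ker_eq_bot']
      intro Y hY
      have h1 : D.eS * Y.1 - Y.1 * D.eS = 0 := hY
      have hk : (0 : ℚ) < (j : ℚ) + 1 := by positivity
      exact Subtype.ext (ad_eS_inj hG hD hc hk Y.2.2 h1)
    obtain ⟨ψ, hψ⟩ := LinearMap.exists_leftInverse_of_injective _ hker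
    exact ⟨ψ, fun Y => LinearMap.congr_fun hψ Y⟩
  choose ψ hψ using hψ
  refine ⟨fun j β => if D.ht β = -((j : ℤ) + 1) then
    (x β).comp ((tanG G ⊓ Hg (D.hq c) (-((j : ℚ) + 1))).subtype.comp (ψ j)) else 0, ?_, ?_⟩
  · intro j β hβ
    simp only [if_neg hβ]
  · intro j Y hY hYj
    have hYj' : Y ∈ Hg (D.hq c) (((-((j : ℤ) + 1) : ℤ)) : ℚ) := by
      have h2 : (((-((j : ℤ) + 1) : ℤ)) : ℚ) = -((j : ℚ) + 1) := by push_cast; ring
      rw [h2]
      exact hYj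
    obtain ⟨y, hy0, hYy⟩ := tan_hg hD hc hY (by omega) hYj'
    have h3 : ∀ β, x β Y = y β := by
      intro β
      have h4 := (hx 0 y).2 β
      have h5 : D.H (0 : Fin r → ℂ) = 0 := by
        unfold RD.H
        ext a b
        simp [Matrix.diagonal_apply]
      rw [h5, zero_add, ← hYy] at h4
      exact h4
    have h6 : ψ j (D.eS * Y - Y * D.eS) = ⟨Y, hY, hYj⟩ := hψ j ⟨Y, hY, hYj⟩
    conv_rhs => rw [hYy]
    refine Finset.sum_congr rfl fun β _ => ?_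
    by_cases hβ : D.ht β = -((j : ℤ) + 1)
    · simp only [if_pos hβ, LinearMap.comp_apply]
      rw [h6]
      exact congrArg (fun z => z • D.e β) (h3 β)
    · simp only [if_neg hβ]
      rw [hy0 β hβ]
      rfl

theorem sl_zero (hD : IsRD G D) (ξ : ℕ → ι → (Matrix (Fin m) (Fin m) ℂ →ₗ[ℂ] ℂ)) (t : Fin r → ℂ) : Sl G D c ξ 0 (D.H t) :=
  ⟨H_mem hD t, hg_le_low (H_hg D c t), fun j hj => absurd hj (Nat.not_lt_zero j)⟩

/-- The slice conditions in all degrees follow from those up to a bound: if all `h a - h b > -N` then `cmp h (-j) S = 0` for `j ≥ N`. -/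
theorem sl_all (ξ : ℕ → ι → (Matrix (Fin m) (Fin m) ℂ →ₗ[ℂ] ℂ)) {N : ℕ} (hN : ∀ a b, -(N : ℚ) < D.hq c a - D.hq c b)
    {S : Matrix (Fin m) (Fin m) ℂ} (hS : Sl G D c ξ N S) (n : ℕ) : Sl G D c ξ n S := by
  refine ⟨hS.mem, hS.low, fun j _ β => ?_⟩
  by_cases hj : j < N
  · exact hS.ker j hj β
  · have h0 : cmp (D.hq c) (-(j : ℚ)) S = 0 := by
      ext a b
      have h1 : ¬ D.hq c a - D.hq c b = -(j : ℚ) := by
        intro h2
        have h3 := hN a b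
        rw [h2] at h3
        have h4 : (N : ℚ) ≤ (j : ℚ) := by exact_mod_cast not_lt.mp hj
        linarith
      change (if D.hq c a - D.hq c b = -(j : ℚ) then S a b else 0) = (0 : Matrix (Fin m) (Fin m) ℂ) a b
      rw [if_neg h1]
      rfl
    rw [h0, map_zero]

end WCn
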