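import Pool.Agent.Lib.MP_c2b80f_alE.KwE
import Pool.Agent.Lib.MP_c2b80f_alE.KwF

/-!
# One step of the reduction to the slice (job KwG)
-/

open Matrix

namespace WCn

variable {m r : ℕ} {ι : Type} [Fintype ι] [DecidableEq ι] {G : Subgroup (SLC m)} {D : RD m r ι} {c : Fin r → ℚ}

/-- The roots of height `-(j + 1)`. -/
noncomputable def RD.lst (D : RD m r ι) (j : ℕ) : List ι := (Finset.univ.filter fun β => D.ht β = -((j : ℤ) + 1)).toList

/-- Put `h = D.hq c`, `d = -(j + 1)`, `z β = ξ j β (cmp h (-j) S)` (zero if `ht β ≠ d`, `IsXi.zero`), `Y = ∑ z β e β` (`sum_toList`; `Y ∈ tanG G ⊓ Hg h d`), `A = eS + S ∈ Low h 1`. By `prE_step` (`a = 1`) the new matrix `A' = P A P'` satisfies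
`A' - A - (Y A - A Y) ∈ Low h (1 + 2 d)`, and `1 + 2 d = -2 j - 1 ≤ d`; `Y S - S Y ∈ Low h d`. So `S' = A' - eS = S - (eS Y - Y eS) + (terms of degree ≤ d)`, where `eS Y - Y eS ∈ Hg h (-j)`. Hence `cmp h (-i) S' = cmp h (-i) S` for `i < j`, and
`cmp h (-j) S' = cmp h (-j) S - (eS Y - Y eS)`. `ξ j β` of the last matrix is `z β - ξ j β (eS Y - Y eS)`, and by `IsXi.inv`, `∑ ξ j β (eS Y - Y eS) e β = Y = ∑ z β e β`, so this is `0` (`e_indep`).
`S' ∈ tanG G`: `A' = g A g⁻¹` with `g ∈ G` (`prE_mem`, `tanG_conj`), `eS ∈ tanG G`. -/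
theorem slice_step (hG : ZClosed G) (hD : IsRD G D) (hc : D.HtC c) {ξ : ℕ → ι → (Matrix (Fin m) (Fin m) ℂ →ₗ[ℂ] ℂ)} (hξ : IsXi G D c ξ)
    (j : ℕ) {S : Matrix (Fin m) (Fin m) ℂ} (hS : Sl G D c ξ j S) :
    Sl G D c ξ (j + 1) (D.prE (D.lst j) (fun β => ξ j β (cmp (D.hq c) (-(j : ℚ)) S)) * (D.eS + S) *
      D.prE' (D.lst j) (fun β => ξ j β (cmp (D.hq c) (-(j : ℚ)) S)) - D.eS) := by
  obtain ⟨z, hz⟩ : ∃ z : ι → ℂ, z = fun β => ξ j β (cmp (D.hq c) (-(j : ℚ)) S) := ⟨_, rfl⟩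
  rw [← hz]
  have hz0 : ∀ β, D.ht β ≠ -((j : ℤ) + 1) → z β = 0 := by
    intro β hβ
    rw [hz]
    show ξ j β (cmp (D.hq c) (-(j : ℚ)) S) = 0
    rw [hξ.zero j β hβ, LinearMap.zero_apply]
  have hd : (-((j : ℚ) + 1)) < 0 := by
    have : (0 : ℚ) ≤ j := Nat.cast_nonneg j
    linarith
  have hj0 : (0 : ℚ) ≤ j := Nat.cast_nonneg j
  have hhg : ∀ β, D.ht β = -((j : ℤ) + 1) → D.e β ∈ Hg (D.hq c) (-((j : ℚ) + 1)) := by
    intro β hβ
    have h1 := e_hg hD hc β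
    rw [hβ] at h1
    push_cast at h1
    exact h1
  have hl : ∀ β ∈ D.lst j, D.e β ∈ Hg (D.hq c) (-((j : ℚ) + 1)) := by
    intro β hβ
    unfold RD.lst at hβ
    rw [Finset.mem_toList, Finset.mem_filter] at hβ
    exact hhg β hβ.2
  have heS : D.eS ∈ Low (D.hq c) 1 := hg_le_low (eS_hg hD hc)
  have hA : D.eS + S ∈ Low (D.hq c) 1 := Submodule.add_mem _ heS (low_mono zero_le_one hS.low)
  obtain ⟨Y, hY⟩ : ∃ Y : Matrix (Fin m) (Fin m) ℂ, Y = ∑ β, z β • D.e β := ⟨_, rfl⟩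
  have hYl : ((D.lst j).map fun β => z β • D.e β).sum = Y := by
    rw [hY]
    exact sum_toList D (fun β => D.ht β = -((j : ℤ) + 1)) z hz0
  have hYt : Y ∈ tanG G := by
    rw [hY]
    exact Submodule.sum_mem _ fun β _ => Submodule.smul_mem _ _ (e_mem hD β)
  have hYh : Y ∈ Hg (D.hq c) (-((j : ℚ) + 1)) := by
    rw [hY]
    refine Submodule.sum_mem _ fun β _ => ?_
    by_cases hβ : D.ht β = -((j : ℤ) + 1)
    · exact Submodule.smul_mem _ _ (hhg β hβ)
    · rw [hz0 β hβ, zero_smul]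
      exact Submodule.zero_mem _
  have hstep := prE_step hd (D.lst j) hl z hA
  rw [hYl] at hstep
  -- the remainder
  obtain ⟨T, hT⟩ : ∃ T : Matrix (Fin m) (Fin m) ℂ, T = D.prE (D.lst j) z * (D.eS + S) * D.prE' (D.lst j) z := ⟨_, rfl⟩
  rw [← hT] at hstep ⊢
  have hR : (Y * S - S * Y) + (T - (D.eS + S) - (Y * (D.eS + S) - (D.eS + S) * Y)) ∈ Low (D.hq c) (-((j : ℚ) + 1)) := by
    refine Submodule.add_mem _ (Submodule.sub_mem _ ?_ ?_) (low_mono ?_ hstep)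
    · have h1 := low_mul (hg_le_low hYh) hS.low
      rw [add_zero] at h1
      exact h1
    · have h1 := low_mul hS.low (hg_le_low hYh)
      rw [zero_add] at h1
      exact h1
    · linarith
  have hBr : Y * D.eS - D.eS * Y ∈ Hg (D.hq c) (-(j : ℚ)) := by
    have h1 := hg_mul hYh (eS_hg hD hc)
    have h2 := hg_mul (eS_hg hD hc) hYh
    have e1 : -((j : ℚ) + 1) + 1 = -(j : ℚ) := by ring
    have e2 : 1 + -((j : ℚ) + 1) = -(j : ℚ) := by ring
    rw [e1] at h1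
    rw [e2] at h2
    exact Submodule.sub_mem _ h1 h2
  have hdec : T - D.eS = S + (Y * D.eS - D.eS * Y) +
      ((Y * S - S * Y) + (T - (D.eS + S) - (Y * (D.eS + S) - (D.eS + S) * Y))) := by
    rw [Matrix.mul_add, Matrix.add_mul]
    abel
  refine ⟨?_, ?_, ?_⟩
  · obtain ⟨g, hg, h1, h2⟩ := prE_mem hG hD (D.lst j) z
    have h3 := tanG_conj (Submodule.add_mem _ (eS_mem hD) hS.mem) hg
    rw [h1, h2, ← hT] at h3
    exact Submodule.sub_mem _ h3 (eS_mem hD)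
  · rw [hdec]
    refine Submodule.add_mem _ (Submodule.add_mem _ hS.low ?_) (low_mono hd.le hR)
    exact low_mono (by linarith) (hg_le_low hBr)
  · intro i hi β
    have hij : i ≤ j := Nat.lt_succ_iff.1 hi
    have hij' : (i : ℚ) ≤ j := by exact_mod_cast hij
    rw [hdec, map_add, map_add, cmp_of_low hR (by linarith), map_zero, add_zero, map_add, map_add]
    rcases Nat.lt_or_ge i j with h1 | h1
    · have h2 : (i : ℚ) < j := by exact_mod_cast h1
      rw [hS.ker i h1 β, cmp_of_hg_ne hBr (by intro h3; linarith), map_zero, add_zero]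
    · have h2 : i = j := le_antisymm hij h1
      subst h2
      rw [cmp_of_hg hBr]
      have h3 : (fun β => ξ i β (D.eS * Y - Y * D.eS)) = z := by
        apply e_indep hD
        rw [hξ.inv i Y hYt hYh, hY]
      have h4 : ξ i β (D.eS * Y - Y * D.eS) = ξ i β (cmp (D.hq c) (-(i : ℚ)) S) := by
        have h5 := congrFun h3 β
        rw [hz] at h5
        exact h5
      have h6 : Y * D.eS - D.eS * Y = - (D.eS * Y - Y * D.eS) := by abel
      rw [h6, map_neg, h4, add_neg_cancel]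

end WCn
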