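import Pool.Agent.Lib.MP_c2b80f_alE.KwG

/-!
# The reduction to the slice over a ring of polynomials (job KwH)
-/

open Matrix

namespace WCn

variable {m r : ℕ} {ι : Type} [Fintype ι] [DecidableEq ι] {G : Subgroup (SLC m)} {D : RD m r ι} {c : Fin r → ℚ}

omit [Fintype ι] [DecidableEq ι] in
private theorem KwH_H (D : RD m r ι) (t : Fin r → ℂ) :
    (D.H (fun i => (MvPolynomial.X i : MvPolynomial (Fin r) ℂ))).map (MvPolynomial.eval t) = D.H t := by
  ext a b
  rw [Matrix.map_apply]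
  unfold RD.H
  by_cases h : a = b
  · subst h
    rw [Matrix.diagonal_apply_eq, Matrix.diagonal_apply_eq, map_sum]
    refine Finset.sum_congr rfl fun i _ => ?_
    rw [map_mul, map_intCast, MvPolynomial.eval_X]
  · rw [Matrix.diagonal_apply_ne _ h, Matrix.diagonal_apply_ne _ h, map_zero]

private theorem KwH_e (X : Matrix (Fin m) (Fin m) ℂ) (t : Fin r → ℂ) :
    (X.map (MvPolynomial.C : ℂ → MvPolynomial (Fin r) ℂ)).map (MvPolynomial.eval t) = X := by
  ext a b
  rw [Matrix.map_apply, Matrix.map_apply, MvPolynomial.eval_C]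

theorem eSH_eval (D : RD m r ι) (t : Fin r → ℂ) :
    (D.eS.map MvPolynomial.C + D.H (fun i => (MvPolynomial.X i : MvPolynomial (Fin r) ℂ))).map (MvPolynomial.eval t) = D.eS + D.H t := by
  have h1 := map_add (MvPolynomial.eval t).mapMatrix (D.eS.map (MvPolynomial.C : ℂ → MvPolynomial (Fin r) ℂ))
    (D.H (fun i => (MvPolynomial.X i : MvPolynomial (Fin r) ℂ)))
  refine h1.trans ?_
  rw [RingHom.mapMatrix_apply, RingHom.mapMatrix_apply, KwH_e, KwH_H]

private theorem KwH_pt {U V P P' S E A : Matrix (Fin m) (Fin m) (MvPolynomial (Fin r) ℂ)} (h1 : U * V = 1) (h2 : V * U = 1)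
    (h3 : P * P' = 1) (h4 : P' * P = 1) (h5 : U * A = (E + S) * U) :
    P * U * (V * P') = 1 ∧ V * P' * (P * U) = 1 ∧ P * U * A = (E + (P * (E + S) * P' - E)) * (P * U) := by
  refine ⟨?_, ?_, ?_⟩
  · rw [Matrix.mul_assoc, ← Matrix.mul_assoc U, h1, Matrix.one_mul, h3]
  · rw [Matrix.mul_assoc, ← Matrix.mul_assoc P', h4, Matrix.one_mul, h2]
  · rw [add_sub_cancel, Matrix.mul_assoc P U A, h5, Matrix.mul_assoc (P * (E + S)) P', ← Matrix.mul_assoc P' P U, h4,
      Matrix.one_mul, Matrix.mul_assoc]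

/-- Induction on `n`. `n = 0`: `U = V = 1`, `S = H X` (`sl_zero`). Step: with `z β = funR (ξ n β ∘ₗ cmp (D.hq c) (-n)) S`, `P = D.prE (D.lst n) z`, `P' = D.prE' (D.lst n) z` (`prE_mul`) take `P * U`, `V * P'`, `P * (eS + S) * P' - eS`;
at a point `t` everything is given by `slice_step` (`prE_eval`, `funR_eval`), `prE_mem`, `prE_low` (`d = -(n + 1)`; for `β ∈ D.lst n`, `e β ∈ Hg (D.hq c) d` by `e_hg`), `low_le_slow` and `slow_mul_sub_one`. -/
theorem section_rec (hG : ZClosed G) (hD : IsRD G D) (hc : D.HtC c) {ξ : ℕ → ι → (Matrix (Fin m) (Fin m) ℂ →ₗ[ℂ] ℂ)} (hξ : IsXi G D c ξ) (n : ℕ) :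
    ∃ U V S : Matrix (Fin m) (Fin m) (MvPolynomial (Fin r) ℂ), U * V = 1 ∧ V * U = 1 ∧
      U * (D.eS.map MvPolynomial.C + D.H (fun i => MvPolynomial.X i)) = (D.eS.map MvPolynomial.C + S) * U ∧
      (∀ t : Fin r → ℂ, ∃ g ∈ G, g.1 = U.map (MvPolynomial.eval t) ∧ (g⁻¹).1 = V.map (MvPolynomial.eval t) ∧
        U.map (MvPolynomial.eval t) - 1 ∈ Slow (D.hq c) ∧ V.map (MvPolynomial.eval t) - 1 ∈ Slow (D.hq c)) ∧
      (∀ t : Fin r → ℂ, Sl G D c ξ n (S.map (MvPolynomial.eval t))) := by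
  induction n with
  | zero =>
    refine ⟨1, 1, D.H fun i => MvPolynomial.X i, Matrix.one_mul 1, Matrix.one_mul 1, ?_, fun t => ?_, fun t => ?_⟩
    · rw [Matrix.one_mul, Matrix.mul_one]
    · have h1 : (1 : Matrix (Fin m) (Fin m) (MvPolynomial (Fin r) ℂ)).map (MvPolynomial.eval t) = 1 :=
        map_one (MvPolynomial.eval t).mapMatrix
      rw [h1, sub_self]
      exact ⟨1, G.one_mem, rfl, by rw [inv_one]; rfl, Submodule.zero_mem _, Submodule.zero_mem _⟩
    · rw [KwH_H]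
      exact sl_zero hD ξ t
  | succ n ih =>
    obtain ⟨U, V, S, hUV, hVU, hA, hg, hS⟩ := ih
    obtain ⟨z, hz⟩ : ∃ z : ι → MvPolynomial (Fin r) ℂ, ∀ t : Fin r → ℂ, (fun β => MvPolynomial.eval t (z β)) =
        fun β => ξ n β (cmp (D.hq c) (-(n : ℚ)) (S.map (MvPolynomial.eval t))) :=
      ⟨fun β => funR (ξ n β ∘ₗ cmp (D.hq c) (-(n : ℚ))) S, fun t => funext fun β => by
        rw [funR_eval, LinearMap.comp_apply]⟩
    obtain ⟨hPP, hPP'⟩ := prE_mul hG hD (D.lst n) z
    obtain ⟨k1, k2, k3⟩ := KwH_pt hUV hVU hPP hPP' hA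
    have hd : -((n : ℚ) + 1) < 0 := by
      have h0 : (0 : ℚ) ≤ n := Nat.cast_nonneg n
      linarith
    have hl : ∀ β ∈ D.lst n, D.e β ∈ Hg (D.hq c) (-((n : ℚ) + 1)) := by
      intro β hβ
      have h1 := e_hg hD hc β
      have h2 : D.ht β = -((n : ℤ) + 1) := (Finset.mem_filter.1 (Finset.mem_toList.1 hβ)).2
      rw [h2] at h1
      push_cast at h1
      exact h1
    refine ⟨D.prE (D.lst n) z * U, V * D.prE' (D.lst n) z,
      D.prE (D.lst n) z * (D.eS.map MvPolynomial.C + S) * D.prE' (D.lst n) z - D.eS.map MvPolynomial.C, k1, k2, k3, fun t => ?_,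
      fun t => ?_⟩
    · obtain ⟨g, hgG, hgU, hgV, hU1, hV1⟩ := hg t
      obtain ⟨p, hpG, hp, hp'⟩ := prE_mem hG hD (D.lst n) (fun β => MvPolynomial.eval t (z β))
      obtain ⟨e1, e2⟩ := prE_eval D (D.lst n) z t
      obtain ⟨l1, l2⟩ := prE_low hd (D.lst n) hl (fun β => MvPolynomial.eval t (z β))
      have m1 : (D.prE (D.lst n) z * U).map (MvPolynomial.eval t) =
          D.prE (D.lst n) (fun β => MvPolynomial.eval t (z β)) * U.map (MvPolynomial.eval t) := by
        rw [Matrix.map_mul, e1]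
      have m2 : (V * D.prE' (D.lst n) z).map (MvPolynomial.eval t) =
          V.map (MvPolynomial.eval t) * D.prE' (D.lst n) (fun β => MvPolynomial.eval t (z β)) := by
        rw [Matrix.map_mul, e2]
      rw [m1, m2]
      refine ⟨p * g, G.mul_mem hpG hgG, ?_, ?_, slow_mul_sub_one (low_le_slow hd l1) hU1,
        slow_mul_sub_one hV1 (low_le_slow hd l2)⟩
      · rw [← hp, ← hgU]
        rfl
      · rw [← hp', ← hgV, _root_.mul_inv_rev]
        rfl
    · obtain ⟨e1, e2⟩ := prE_eval D (D.lst n) z t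
      have m1 : (D.prE (D.lst n) z * (D.eS.map MvPolynomial.C + S) * D.prE' (D.lst n) z - D.eS.map MvPolynomial.C).map
          (MvPolynomial.eval t) = D.prE (D.lst n) (fun β => MvPolynomial.eval t (z β)) * (D.eS + S.map (MvPolynomial.eval t)) *
          D.prE' (D.lst n) (fun β => MvPolynomial.eval t (z β)) - D.eS := by
        have h1 := map_sub (MvPolynomial.eval t).mapMatrix
          (D.prE (D.lst n) z * (D.eS.map (MvPolynomial.C : ℂ → MvPolynomial (Fin r) ℂ) + S) * D.prE' (D.lst n) z)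
          (D.eS.map (MvPolynomial.C : ℂ → MvPolynomial (Fin r) ℂ))
        rw [map_mul, map_mul, map_add] at h1
        simp only [RingHom.mapMatrix_apply, KwH_e, e1, e2] at h1
        exact h1
      rw [m1, hz t]
      exact slice_step hG hD hc hξ n (hS t)

end WCn
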