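import Pool.Agent.Lib.MP_c2b80f_alE.KwE

/-!
# One step of the conjugation of `e + H(t)` to `H(t)` (job KwM)
-/

open Matrix

namespace WCn

variable {m r : ℕ} {ι : Type} [Fintype ι] [DecidableEq ι] {G : Subgroup (SLC m)} {D : RD m r ι} {c : Fin r → ℚ}

/-- The roots of height `j`. -/
noncomputable def RD.lstP (D : RD m r ι) (j : ℕ) : List ι := (Finset.univ.filter fun β => D.ht β = (j : ℤ)).toList

/-- Let `h' = -D.hq c` (so degrees are negated: use the lemmas of `KwA`, `KwE` for `h'`), `j ≥ 1`, `B ∈ tanG G` of degree at least `j`, `z β = x β B * v β`, `Y = ∑_{ht β = j} z β e β`, `A = H t + B` (degree at least `0`). By `prE_step` (`a = 0`, `d = -j` for `h'`)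
`A' = P A P'` satisfies `A' = A + [Y, A] + (degree ≥ 2 j)`, `[Y, B]` has degree `≥ 2 j`, `[Y, H t] = -∑ z β rt β t e β = -∑_{ht β = j} x β B e β` (`H_comm`, `hv`), which is minus the component of degree `j` of `B` (`B = ∑ x β B e β` because `B`
has no component of degree `0`: expand `B = H τ + ∑ x β B e β`, `H τ` is its component of degree `0`). So `A' - H t` has degree at least `j + 1` (`low_of_cmp` or entrywise: the degrees of elements of the Lie algebra are integers, `tan_cmp_int`).
`A' - H t ∈ tanG G`: `prE_mem`, `tanG_conj`. -/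
theorem conj_step (hG : ZClosed G) (hD : IsRD G D) (hc : D.HtC c)
    {τ : Fin r → (Matrix (Fin m) (Fin m) ℂ →ₗ[ℂ] ℂ)} {x : ι → (Matrix (Fin m) (Fin m) ℂ →ₗ[ℂ] ℂ)}
    (hx : ∀ X ∈ tanG G, X = D.H (fun i => τ i X) + ∑ β, x β X • D.e β)
    {j : ℕ} (hj : 1 ≤ j) {t : Fin r → ℂ} {v : ι → ℂ} (hv : ∀ β, D.rt β t * v β = 1) {B : Matrix (Fin m) (Fin m) ℂ} (hB : B ∈ tanG G)
    (hBj : B ∈ Low (fun a => -D.hq c a) (-(j : ℚ))) :
    (D.prE (D.lstP j) (fun β => x β B * v β) * (D.H t + B) * D.prE' (D.lstP j) (fun β => x β B * v β) - D.H t) ∈ tanG G ∧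
    (D.prE (D.lstP j) (fun β => x β B * v β) * (D.H t + B) * D.prE' (D.lstP j) (fun β => x β B * v β) - D.H t) ∈
      Low (fun a => -D.hq c a) (-((j : ℚ) + 1)) := by
  obtain ⟨z, hz⟩ : ∃ z : ι → ℂ, z = fun β => x β B * v β := ⟨_, rfl⟩
  rw [← hz]
  have hzv : ∀ β, z β * D.rt β t = x β B := by
    intro β
    rw [hz]
    calc x β B * v β * D.rt β t = x β B * (D.rt β t * v β) := by ring
      _ = x β B := by rw [hv β, mul_one]
  have hHg : ∀ s : Fin r → ℂ, D.H s ∈ Hg (fun a => -D.hq c a) 0 := by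
    intro s
    refine hg_neg_iff.2 ?_
    rw [neg_zero]
    exact H_hg D c s
  have heg : ∀ β, D.e β ∈ Hg (fun a => -D.hq c a) (-(D.ht β : ℚ)) := by
    intro β
    refine hg_neg_iff.2 ?_
    rw [neg_neg]
    exact e_hg hD hc β
  have hl : ∀ β ∈ D.lstP j, D.e β ∈ Hg (fun a => -D.hq c a) (-(j : ℚ)) := by
    intro β hβ
    unfold RD.lstP at hβ
    rw [Finset.mem_toList, Finset.mem_filter] at hβ
    have h1 := heg β
    rw [hβ.2, Int.cast_natCast] at h1
    exact h1
  have hj' : (1 : ℚ) ≤ j := by exact_mod_cast hj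
  have hA : D.H t + B ∈ Low (fun a => -D.hq c a) 0 :=
    Submodule.add_mem _ (hg_le_low (hHg t)) (low_mono (by linarith) hBj)
  have hstep := prE_step (h := fun a => -D.hq c a) (a := 0) (d := -(j : ℚ)) (by linarith) (D.lstP j) hl z hA
  obtain ⟨Y, hY⟩ : ∃ Y, Y = ((D.lstP j).map fun β => z β • D.e β).sum := ⟨_, rfl⟩
  rw [← hY] at hstep
  have hY2 : Y = ∑ β ∈ Finset.univ.filter (fun β => D.ht β = (j : ℤ)), z β • D.e β := by
    rw [hY]
    unfold RD.lstP
    exact Finset.sum_map_toList _ _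
  have hYl : Y ∈ Low (fun a => -D.hq c a) (-(j : ℚ)) := by
    rw [hY2]
    refine Submodule.sum_mem _ fun β hβ => Submodule.smul_mem _ _ (hg_le_low ?_)
    rw [Finset.mem_filter] at hβ
    have h1 := heg β
    rw [hβ.2, Int.cast_natCast] at h1
    exact h1
  have hYH : Y * D.H t - D.H t * Y = -∑ β ∈ Finset.univ.filter (fun β => D.ht β = (j : ℤ)), x β B • D.e β := by
    rw [hY2, Finset.sum_mul, Finset.mul_sum, ← Finset.sum_sub_distrib, ← Finset.sum_neg_distrib]
    refine Finset.sum_congr rfl fun β _ => ?_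
    have h1 := H_comm hD t β
    rw [Matrix.smul_mul, Matrix.mul_smul, ← smul_sub, ← neg_sub, h1, ← hzv β, smul_neg, smul_smul]
  constructor
  · obtain ⟨g, hg, hg1, hg2⟩ := prE_mem hG hD (D.lstP j) z
    rw [← hg1, ← hg2]
    exact Submodule.sub_mem _ (tanG_conj (Submodule.add_mem _ (H_mem hD t) hB) hg) (H_mem hD t)
  · have hsplit : D.prE (D.lstP j) z * (D.H t + B) * D.prE' (D.lstP j) z - D.H t =
        (D.prE (D.lstP j) z * (D.H t + B) * D.prE' (D.lstP j) z - (D.H t + B) - (Y * (D.H t + B) - (D.H t + B) * Y)) +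
        (Y * B - B * Y) + (B + (Y * D.H t - D.H t * Y)) := by
      rw [Matrix.mul_add Y, Matrix.add_mul _ _ Y]
      abel
    rw [hsplit]
    refine Submodule.add_mem _ (Submodule.add_mem _ (low_mono (by linarith) hstep) (Submodule.sub_mem _
      (low_mono (by linarith) (low_mul hYl hBj)) (low_mono (by linarith) (low_mul hBj hYl)))) ?_
    have hBx := hx B hB
    have hB2 : B + (Y * D.H t - D.H t * Y) =
        D.H (fun i => τ i B) + ∑ β, (if D.ht β = (j : ℤ) then 0 else x β B) • D.e β := by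
      rw [hYH]
      nth_rewrite 1 [hBx]
      rw [Finset.sum_filter, add_assoc, ← Finset.sum_neg_distrib, ← Finset.sum_add_distrib]
      congr 1
      refine Finset.sum_congr rfl fun β _ => ?_
      by_cases h1 : D.ht β = (j : ℤ)
      · rw [if_pos h1, if_pos h1, zero_smul]
        exact add_neg_cancel _
      · rw [if_neg h1, if_neg h1, neg_zero, add_zero]
    refine low_of_cmp fun k hk => ?_
    by_cases hkj : -(j : ℚ) < k
    · rw [map_add, cmp_of_low hBj hkj, zero_add, hYH, map_neg, map_sum, Finset.sum_eq_zero, neg_zero]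
      intro β hβ
      rw [Finset.mem_filter] at hβ
      rw [map_smul, cmp_of_hg_ne (heg β) (by
        rw [hβ.2, Int.cast_natCast]
        exact hkj.ne'), smul_zero]
    · rw [hB2, map_add, map_sum, cmp_of_hg_ne (hHg _) (by
        intro h1
        rw [h1] at hkj
        linarith), zero_add]
      refine Finset.sum_eq_zero fun β _ => ?_
      by_cases h1 : D.ht β = (j : ℤ)
      · rw [if_pos h1, zero_smul, map_zero]
      · rw [map_smul, cmp_of_hg_ne (heg β), smul_zero]
        intro h2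
        apply h1
        have h3 : ((j : ℤ) : ℚ) ≤ (D.ht β : ℚ) := by
          rw [Int.cast_natCast]
          linarith
        have h4 : (D.ht β : ℚ) < ((j + 1 : ℤ) : ℚ) := by
          rw [Int.cast_add, Int.cast_natCast, Int.cast_one]
          linarith
        have h5 := Int.cast_le.1 h3
        have h6 := Int.cast_lt.1 h4
        omega

end WCn
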