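import Pool.Agent.Lib.MP_c2b80f_alE.LrDefs
import Pool.Agent.Lib.MP_c2b80f_alE.CbB

/-!
# Root vectors (job LrA)
-/

open Matrix Module LieAlgebra LieAlgebra.IsKilling

namespace WCn

variable {L : Type} [LieRing L] [LieAlgebra ℂ L] [FiniteDimensional ℂ L] [IsKilling ℂ L] (H : LieSubalgebra ℂ L) [H.IsCartanSubalgebra]

private theorem LrA_neg (α : H.root) : (negZ (rootSystem H) α).1 = -α.1 := by
  have h1 : (rootSystem H).root (negZ (rootSystem H) α) = -(rootSystem H).root α :=
    ((rootSystem H).root_reflectionPerm α α).trans ((rootSystem H).reflection_apply_self α)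
  apply LieModule.Weight.ext
  intro x
  have h2 := LinearMap.congr_fun h1 x
  exact h2

omit [IsKilling ℂ L] in
private theorem LrA_nz (α : H.root) : α.1.IsNonZero := LieSubalgebra.isNonZero_coe_root α

/-- Root vectors with `[e α, e (-α)] = α^∨`. Proof. `exists_isSl2Triple_of_weight_isNonZero` gives for every root `α` a triple `(h, e', f')` with `e'` in the root space of `α`, `f'` in that of `-α`, and `h = coroot α` (`IsSl2Triple.h_eq_coroot`), `[e', f'] = h`. Put `e α = e'`, `e (-α) = f'` for the positive roots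
(`b.IsPos`, `0 < b.height α`; exactly one of `α`, `-α` is positive, `rootZ_ht_neg`, `rootZ_ht_ne`), so that `[e (-α), e α] = - coroot α = coroot (-α)`. The weight of `negZ (rootSystem H) α` is `-α`. -/
theorem exists_rootVectors (b : (rootSystem H).Base) : ∃ e : H.root → L, ∀ α : H.root, e α ≠ 0 ∧ e α ∈ rootSpace H (α.1 : H → ℂ) ∧
    ⁅e α, e (negZ (rootSystem H) α)⁆ = ((coroot α.1 : H) : L) := by
  classical
  choose h e' f' ht he hf using fun α : H.root => exists_isSl2Triple_of_weight_isNonZero (LrA_nz H α)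
  have hc : ∀ α, h α = ((coroot α.1 : H) : L) := fun α => (ht α).h_eq_coroot (LrA_nz H α) (he α) (hf α)
  have hnn : ∀ α : H.root, negZ (rootSystem H) (negZ (rootSystem H) α) = α := fun α =>
    negZ_negZ (rootSystem H) α
  have hcn : ∀ α : H.root, ((coroot (negZ (rootSystem H) α).1 : H) : L) = -((coroot α.1 : H) : L) := by
    intro α
    rw [LrA_neg, coroot_neg]
    rfl
  refine ⟨fun α => if 0 < b.height α then e' α else f' (negZ (rootSystem H) α), fun α => ?_⟩
  have h1 : b.height (negZ (rootSystem H) α) = - b.height α := rootZ_ht_neg (rootSystem H) b α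
  have h2 : b.height α ≠ 0 := rootZ_ht_ne (rootSystem H) b α
  by_cases hα : 0 < b.height α
  · have h3 : ¬ 0 < b.height (negZ (rootSystem H) α) := by omega
    simp only [if_pos hα, if_neg h3]
    refine ⟨(ht α).e_ne_zero, he α, ?_⟩
    rw [hnn, (ht α).lie_e_f, hc]
  · have h3 : 0 < b.height (negZ (rootSystem H) α) := by omega
    simp only [if_neg hα, if_pos h3]
    refine ⟨(ht _).f_ne_zero, ?_, ?_⟩
    · have h4 := hf (negZ (rootSystem H) α)
      have h5 : (-((negZ (rootSystem H) α).1 : H → ℂ)) = (α.1 : H → ℂ) := by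
        rw [LrA_neg, LieModule.Weight.coe_neg, neg_neg]
      rw [h5] at h4
      exact h4
    · rw [← lie_skew, (ht _).lie_e_f, hc, hcn, neg_neg]

end WCn
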