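import Pool.Agent.Lib.MP_c2b80f_alE.LrDefs
import Pool.Agent.Lib.MP_c2b80f_alE.CbE

/-!
# The basis of the Lie algebra (job LrB)
-/

open Matrix Module LieAlgebra LieAlgebra.IsKilling

namespace WCn

variable {L : Type} [LieRing L] [LieAlgebra ℂ L] [FiniteDimensional ℂ L] [IsKilling ℂ L] (H : LieSubalgebra ℂ L) [H.IsCartanSubalgebra]
  (b : (rootSystem H).Base) {r : ℕ} (σ : Fin r ≃ b.support) (e : H.root → L)

/-- an element of `H` is a combination of the simple coroots -/
private theorem LrB_H (h : H) : ∃ t : Fin r → ℂ, h = ∑ i, t i • (coroot (simZ (rootSystem H) b σ i).1 : H) := by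
  have h1 : h ∈ Submodule.span ℂ (Set.range fun i => (coroot (simZ (rootSystem H) b σ i).1 : H)) := by
    have h2 : (Set.range fun i => (coroot (simZ (rootSystem H) b σ i).1 : H)) =
        (rootSystem H).coroot '' (b.support : Set H.root) := by
      ext x
      constructor
      · rintro ⟨i, rfl⟩
        exact ⟨σ i, (σ i).2, rfl⟩
      · rintro ⟨β, hβ, rfl⟩
        refine ⟨σ.symm ⟨β, hβ⟩, ?_⟩
        show coroot ((σ (σ.symm ⟨β, hβ⟩) : H.root)).1 = _
        rw [Equiv.apply_symm_apply]
        rfl
    have h3 : (rootSystem H).corootSpan ℂ = ⊤ := RootPairing.IsRootSystem.span_coroot_eq_top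
    rw [h2, b.span_coroot_support, h3]
    exact Submodule.mem_top
  rw [Submodule.mem_span_range_iff_exists_fun] at h1
  obtain ⟨t, ht⟩ := h1
  exact ⟨t, ht.symm⟩

/-- Every element of `L` is a combination of the simple coroots and the root vectors. Proof. `L` is the sum of the weight spaces (`LieModule.iSup_genWeightSpace_eq_top'`); the weight space of `0` is `H` (`rootSpace_zero_eq`), which is spanned by the simple coroots (`Base.toCoweightBasis` or `Base.span_coroot_support`),
and the other weight spaces have dimension one (`finrank_rootSpace_eq_one`). -/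
theorem lr_span (he : ∀ α : H.root, e α ≠ 0 ∧ e α ∈ rootSpace H (α.1 : H → ℂ)) (X : L) :
    ∃ (t : Fin r → ℂ) (x : H.root → ℂ), X = ∑ i, t i • ((coroot (simZ (rootSystem H) b σ i).1 : H) : L) + ∑ β, x β • e β := by
  classical
  obtain ⟨Φ, hΦ⟩ : ∃ Φ : ((Fin r → ℂ) × (H.root → ℂ)) →ₗ[ℂ] L,
      ∀ t x, Φ (t, x) = ∑ i, t i • ((coroot (simZ (rootSystem H) b σ i).1 : H) : L) + ∑ β, x β • e β :=
    ⟨(Fintype.linearCombination ℂ fun i => ((coroot (simZ (rootSystem H) b σ i).1 : H) : L)).coprod
      (Fintype.linearCombination ℂ e), fun t x => rfl⟩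
  have hr : LinearMap.range Φ = ⊤ := by
    rw [eq_top_iff]
    have h1 : (⨆ χ : LieModule.Weight ℂ H L, (LieModule.genWeightSpace L (χ : H → ℂ)).toSubmodule) = ⊤ := by
      rw [← LieSubmodule.iSup_toSubmodule, LieModule.iSup_genWeightSpace_eq_top', LieSubmodule.top_toSubmodule]
    rw [← h1]
    refine iSup_le fun χ => ?_
    intro y hy
    by_cases hχ : χ.IsZero
    · have h2 : (χ : H → ℂ) = 0 := hχ
      rw [h2] at hy
      have h3 : y ∈ rootSpace H (0 : H → ℂ) := hy
      rw [rootSpace_zero_eq] at h3
      obtain ⟨t, ht⟩ := LrB_H H b σ ⟨y, h3⟩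
      refine ⟨(t, 0), ?_⟩
      rw [hΦ]
      have h4 := congrArg (fun h : H => (h : L)) ht
      simp only [Pi.zero_apply, zero_smul, Finset.sum_const_zero, add_zero]
      rw [show y = (((⟨y, h3⟩ : H)) : L) from rfl, h4]
      simp
    · have h2 : χ ∈ H.root := Finset.mem_filter.2 ⟨Finset.mem_univ _, hχ⟩
      have h3 := finrank_rootSpace_eq_one χ hχ
      obtain ⟨he1, he2⟩ := he ⟨χ, h2⟩
      have h4 : (⟨e ⟨χ, h2⟩, he2⟩ : rootSpace H (χ : H → ℂ)) ≠ 0 := fun h => he1 (congrArg Subtype.val h)
      obtain ⟨c, hc⟩ := exists_smul_eq_of_finrank_eq_one h3 h4 ⟨y, hy⟩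
      refine ⟨(0, Pi.single ⟨χ, h2⟩ c), ?_⟩
      rw [hΦ, Finset.sum_eq_single (⟨χ, h2⟩ : H.root)]
      · simp only [Pi.zero_apply, zero_smul, Finset.sum_const_zero, zero_add, Pi.single_eq_same]
        exact congrArg Subtype.val hc
      · intro β _ hβ
        rw [Pi.single_eq_of_ne hβ, zero_smul]
      · intro h
        exact absurd (Finset.mem_univ _) h
  obtain ⟨⟨t, x⟩, h⟩ := LinearMap.range_eq_top.1 hr X
  exact ⟨t, x, by rw [← h, hΦ]⟩

/-- Independence: the weight spaces are independent (`LieModule.iSupIndep_genWeightSpace'`), and the simple coroots are independent. (Or: apply `ad h` for `h ∈ H`: eigenvectors for different characters of `H`.) -/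
theorem lr_indep (he : ∀ α : H.root, e α ≠ 0 ∧ e α ∈ rootSpace H (α.1 : H → ℂ)) (t : Fin r → ℂ) (x : H.root → ℂ)
    (h : ∑ i, t i • ((coroot (simZ (rootSystem H) b σ i).1 : H) : L) + ∑ β, x β • e β = 0) : t = 0 ∧ x = 0 := by
  classical
  let w : Option H.root → (H → ℂ) := fun o => Option.elim o 0 fun β => (β.1 : H → ℂ)
  have hw : Function.Injective w := by
    intro o o' hoo
    cases o with
    | none =>
      cases o' with
      | none => rfl
      | some β =>
        exfalso
        have h1 : β.1.IsNonZero := (Finset.mem_filter.1 β.2).2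
        exact h1 hoo.symm
    | some β =>
      cases o' with
      | none =>
        exfalso
        have h1 : β.1.IsNonZero := (Finset.mem_filter.1 β.2).2
        exact h1 hoo
      | some β' =>
        congr 1
        exact Subtype.ext (DFunLike.coe_injective hoo)
  have hind := (LieModule.iSupIndep_genWeightSpace ℂ H L).comp hw
  rw [← LieSubmodule.iSupIndep_toSubmodule, iSupIndep_iff_finsetSum_eq_zero_imp_eq_zero] at hind
  let v : Option H.root → L := fun o => Option.elim o (∑ i, t i • ((coroot (simZ (rootSystem H) b σ i).1 : H) : L))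
    fun β => x β • e β
  have hv := hind Finset.univ v (by
    intro o _
    cases o with
    | none =>
      show (∑ i, t i • ((coroot (simZ (rootSystem H) b σ i).1 : H) : L)) ∈ rootSpace H (0 : H → ℂ)
      rw [rootSpace_zero_eq]
      exact H.toSubmodule.sum_mem fun i _ => H.toSubmodule.smul_mem _ (coroot (simZ (rootSystem H) b σ i).1).2
    | some β => exact (rootSpace H (β.1 : H → ℂ)).smul_mem _ (he β).2) (by
    rw [Fintype.sum_option]
    exact h)
  have h1 : ∑ i, t i • ((coroot (simZ (rootSystem H) b σ i).1 : H) : L) = 0 := hv none (Finset.mem_univ _)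
  have h2 : ∀ β, x β • e β = 0 := fun β => hv (some β) (Finset.mem_univ _)
  constructor
  · have h3 : ∑ i, t i • (coroot (simZ (rootSystem H) b σ i).1 : H) = 0 := by
      apply Subtype.ext
      refine Eq.trans ?_ h1
      simp
    have h4 : LinearIndependent ℂ fun i => (coroot (simZ (rootSystem H) b σ i).1 : H) := by
      have h5 := b.linearIndepOn_coroot
      have h6 : LinearIndependent ℂ fun β : b.support => (rootSystem H).coroot β.1 := h5
      exact h6.comp σ σ.injective
    rw [Fintype.linearIndependent_iff] at h4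
    exact funext fun i => h4 t h3 i
  · funext β
    exact (smul_eq_zero.1 (h2 β)).resolve_right (he β).1

end WCn
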