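import Pool.Agent.Lib.MP_c2b80f_alE.LrA
import Pool.Agent.Lib.MP_c2b80f_alE.LrB

/-!
# Existence of root data (job LrC)
-/

open Matrix Module LieAlgebra LieAlgebra.IsKilling

namespace WCn

/-- Proof. Let `H` be a Cartan subalgebra (`exists_isCartanSubalgebra_engel`; `H` is triangularizable on `L` because `ℂ` is algebraically closed), `P = rootSystem H`, irreducible because `L` is simple, `b` a base (`RootPairing.nonempty_base`), `r` the number of its elements and `σ : Fin r ≃ b.support`. Take `ι = H.root`,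
`h i = coroot (simZ i)`, `e` from `exists_rootVectors`, the combinatorial data of `rComb_of_base`. `he`: `lie_eq_smul_of_mem_rootSpace`, and `(rootSystem H).pairingIn ℤ β (σ i) = β (coroot (σ i))` in `ℂ` (`rootSystem_pairing_apply`). `hh`: `H` is abelian. `br`: `coroot_eq_sum`. `span`, `indep`: `lr_span`, `lr_indep`. -/
theorem exists_lrd (L : Type) [LieRing L] [LieAlgebra ℂ L] [FiniteDimensional ℂ L] [IsKilling ℂ L] [IsSimple ℂ L] :
    ∃ (r : ℕ) (ι : Type) (_ : Fintype ι) (_ : DecidableEq ι) (d : LRD L r ι), IsLRD d := by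
  classical
  obtain ⟨x0, hx0⟩ := LieAlgebra.exists_isCartanSubalgebra_engel ℂ L
  obtain ⟨H, hH⟩ : ∃ H : LieSubalgebra ℂ L, H.IsCartanSubalgebra := ⟨_, hx0⟩
  obtain ⟨b⟩ := RootPairing.nonempty_base (rootSystem H)
  obtain ⟨r, σ⟩ : ∃ r : ℕ, Nonempty (Fin r ≃ b.support) := ⟨_, ⟨(Finite.equivFin b.support).symm⟩⟩
  obtain ⟨σ⟩ := σ
  obtain ⟨e, he⟩ := exists_rootVectors H b
  refine ⟨r, H.root, inferInstance, inferInstance,
    { h := fun i => ((coroot (simZ (rootSystem H) b σ i).1 : H) : L)
      e := e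
      root := rootZ (rootSystem H) b σ
      coroot := corootZ (rootSystem H) b σ
      neg := negZ (rootSystem H)
      simple := simZ (rootSystem H) b σ
      ht := b.height }, ?_⟩
  have he' : ∀ α : H.root, e α ≠ 0 ∧ e α ∈ rootSpace H (α.1 : H → ℂ) := fun α => ⟨(he α).1, (he α).2.1⟩
  refine ⟨rComb_of_base (rootSystem H) b σ, lr_span H b σ e he', lr_indep H b σ e he', ?_, ?_, ?_⟩
  · intro i j
    have h1 : ⁅(coroot (simZ (rootSystem H) b σ i).1 : H), (coroot (simZ (rootSystem H) b σ j).1 : H)⁆ = 0 :=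
      trivial_lie_zero H H _ _
    have h2 := congrArg (fun z : H => (z : L)) h1
    exact h2
  · intro i β
    have h1 := lie_eq_smul_of_mem_rootSpace (he β).2.1 (coroot (simZ (rootSystem H) b σ i).1)
    have h2 : ((rootZ (rootSystem H) b σ β i : ℤ) : ℂ) = β.1 (coroot (simZ (rootSystem H) b σ i).1) := by
      unfold rootZ
      have h3 := (rootSystem H).algebraMap_pairingIn ℤ β (σ i)
      rw [rootSystem_pairing_apply] at h3
      exact h3
    show ⁅((coroot (simZ (rootSystem H) b σ i).1 : H) : L), e β⁆ = ((rootZ (rootSystem H) b σ β i : ℤ) : ℂ) • e β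
    rw [h2]
    exact h1
  · intro β
    show ⁅e β, e (negZ (rootSystem H) β)⁆ = ∑ i, ((corootZ (rootSystem H) b σ β i : ℤ) : ℂ) •
      ((coroot (simZ (rootSystem H) b σ i).1 : H) : L)
    rw [(he β).2.2]
    have h1 := coroot_eq_sum (rootSystem H) b σ β
    rw [rootSystem_coroot_apply] at h1
    rw [h1]
    simp only [rootSystem_coroot_apply]
    push_cast
    rfl

end WCn
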