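import Pool.Agent.Lib.MP_c2b80f_alE.CbDefs

/-!
# Root data of a Lie algebra: definitions
-/

open Matrix Module

namespace WCn

/-- Data in a Lie algebra `L`: simple coroots `h i`, root vectors `e β`, and the combinatorial data. -/
structure LRD (L : Type) (r : ℕ) (ι : Type) where
  h : Fin r → L
  e : ι → L
  root : ι → Fin r → ℤ
  coroot : ι → Fin r → ℤ
  neg : ι → ι
  simple : Fin r → ι
  ht : ι → ℤ

/-- `d` is a root datum of the Lie algebra `L`. -/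
structure IsLRD {L : Type} [LieRing L] [LieAlgebra ℂ L] {r : ℕ} {ι : Type} [Fintype ι] (d : LRD L r ι) : Prop where
  comb : RComb d.root d.coroot d.neg d.simple d.ht
  span : ∀ X : L, ∃ (t : Fin r → ℂ) (x : ι → ℂ), X = ∑ i, t i • d.h i + ∑ β, x β • d.e β
  indep : ∀ (t : Fin r → ℂ) (x : ι → ℂ), ∑ i, t i • d.h i + ∑ β, x β • d.e β = 0 → t = 0 ∧ x = 0
  hh : ∀ i j, ⁅d.h i, d.h j⁆ = 0
  he : ∀ i β, ⁅d.h i, d.e β⁆ = (d.root β i : ℂ) • d.e β
  br : ∀ β, ⁅d.e β, d.e (d.neg β)⁆ = ∑ i, (d.coroot β i : ℂ) • d.h i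

end WCn
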