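import Mathlib

/-!
# Burnside's theorem (job LvrA)
-/

namespace WCn

/-- Burnside's theorem: a subalgebra `A` of `End V` (`V` finite dimensional over `ℂ`) without invariant subspaces other than `0` and `V` is everything.
Proof. If `V` is trivial, both sides are trivial (`Subsingleton`). Otherwise `V` is a simple module over the ring `A` (`Subalgebra` acts on `V` through `Module.End`; use `Module.compHom` or the instance for subrings of `Module.End`;
an `A`-submodule is a `ℂ`-subspace since the scalars are in `A`: `algebraMap`). Schur: an `A`-linear endomorphism `φ` of `V` is a scalar: it is `ℂ`-linear and has an eigenvalue `μ` (`Module.End.exists_eigenvalue`), the kernel of `φ - μ` is an `A`-submodule and is not zero, so `φ = μ`.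
So every `f : End_ℂ V` commutes with the `A`-linear endomorphisms; `jacobson_density` (file `Mathlib/RingTheory/SimpleModule/Basic.lean`; `s` = the image of a basis) gives `a ∈ A` which agrees with `f` on a basis, so `f = a ∈ A`.
(Alternative without module instances: direct proof of the density theorem by induction on the number of vectors.) -/
theorem lvr_burnside {V : Type*} [AddCommGroup V] [Module ℂ V] [FiniteDimensional ℂ V] (A : Subalgebra ℂ (Module.End ℂ V))
    (h : ∀ W : Submodule ℂ V, (∀ a ∈ A, ∀ v ∈ W, a v ∈ W) → W = ⊥ ∨ W = ⊤) : A = ⊤ := by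
  classical
  rcases subsingleton_or_nontrivial V with hV | hV
  · refine eq_top_iff.2 fun f _ => ?_
    have h1 : f = 0 := LinearMap.ext fun v => Subsingleton.elim _ _
    rw [h1]
    exact A.zero_mem
  have hsc : ∀ (c : ℂ) (v : V), c • v = (⟨algebraMap ℂ (Module.End ℂ V) c, A.algebraMap_mem c⟩ : A) • v := fun c v => rfl
  have hsimple : IsSimpleModule A V := by
    rw [isSimpleModule_iff]
    refine ⟨fun W => ?_⟩
    let W' : Submodule ℂ V :=
      { carrier := W
        add_mem' := fun h1 h2 => W.add_mem h1 h2
        zero_mem' := W.zero_mem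
        smul_mem' := fun c v hv => by
          rw [hsc]
          exact W.smul_mem _ hv }
    have h1 := h W' (fun a ha v hv => W.smul_mem (⟨a, ha⟩ : A) hv)
    rcases h1 with h1 | h1
    · left
      ext v
      have h2 : v ∈ W' ↔ v ∈ (⊥ : Submodule ℂ V) := by rw [h1]
      exact h2
    · right
      ext v
      have h2 : v ∈ W' ↔ v ∈ (⊤ : Submodule ℂ V) := by rw [h1]
      exact h2
  have hschur : ∀ φ : Module.End A V, ∃ μ : ℂ, ∀ v, φ v = μ • v := by
    intro φ
    let φ' : Module.End ℂ V :=
      { toFun := φ
        map_add' := fun v w => map_add φ v w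
        map_smul' := fun c v => by
          rw [RingHom.id_apply, hsc, hsc, map_smul] }
    obtain ⟨μ, hμ⟩ := Module.End.exists_eigenvalue φ'
    refine ⟨μ, ?_⟩
    obtain ⟨v, hv, hv0⟩ := hμ.exists_hasEigenvector
    have h2 := h (φ'.eigenspace μ) (fun a ha w hw => by
      rw [Module.End.mem_eigenspace_iff] at hw ⊢
      have h3 : φ ((⟨a, ha⟩ : A) • w) = (⟨a, ha⟩ : A) • φ w := map_smul φ _ w
      have h4 : φ' (a w) = a (φ' w) := h3
      rw [h4, hw, map_smul])
    rcases h2 with h2 | h2
    · have hv' : v ∈ φ'.eigenspace μ := hv
      rw [h2] at hv'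
      exact absurd ((Submodule.mem_bot ℂ).1 hv') hv0
    · intro w
      have h3 : w ∈ φ'.eigenspace μ := by
        rw [h2]
        exact Submodule.mem_top
      exact Module.End.mem_eigenspace_iff.1 h3
  refine eq_top_iff.2 fun f _ => ?_
  let f' : Module.End (Module.End A V) V :=
    { toFun := f
      map_add' := fun v w => map_add f v w
      map_smul' := fun φ v => by
        obtain ⟨μ, hμ⟩ := hschur φ
        rw [RingHom.id_apply, Module.End.smul_def, Module.End.smul_def, hμ, hμ, map_smul] }
  let b := Module.finBasis ℂ V
  obtain ⟨a, ha⟩ := jacobson_density (R := A) f' (Finset.univ.image b)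
  have h5 : f = a.1 := by
    refine b.ext fun i => ?_
    exact ha (b i) (Finset.mem_image_of_mem _ (Finset.mem_univ i))
  rw [h5]
  exact a.2

end WCn
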