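import Pool.Agent.Lib.MP_c2b80f_alE.ArDefs
import Pool.Agent.Lib.MP_c2b80f_alE.UTan
import Pool.Agent.Lib.MP_c2b80f_alE.LvrA
import Pool.Agent.Lib.MP_c2b80f_alD.LvAd

/-!
# Conjugations span the endomorphisms of the Lie algebra (job LvrB)
-/

open Matrix

namespace WCn

variable {m r : ℕ} {ι : Type} {G : Subgroup (SLC m)}

/-- `AdS G` is closed under composition (`Submodule.span_induction` twice; `Ad g ∘ Ad h = Ad (g * h)`). -/
theorem lvr_AdS_comp (S T : Matrix (Fin m) (Fin m) ℂ →ₗ[ℂ] Matrix (Fin m) (Fin m) ℂ) (hS : S ∈ AdS (G : Set (SLC m)))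
    (hT : T ∈ AdS (G : Set (SLC m))) : S ∘ₗ T ∈ AdS (G : Set (SLC m)) := by
  refine Submodule.span_induction (p := fun S _ => S ∘ₗ T ∈ AdS (G : Set (SLC m))) ?_ ?_ ?_ ?_ hS
  · rintro _ ⟨g, hg, rfl⟩
    refine Submodule.span_induction (p := fun T _ => Ad g ∘ₗ T ∈ AdS (G : Set (SLC m))) ?_ ?_ ?_ ?_ hT
    · rintro _ ⟨h, hh, rfl⟩
      have e : Ad g ∘ₗ Ad h = Ad (g * h) := by
        refine LinearMap.ext fun Y => ?_
        show g.1 * (h.1 * Y * (h⁻¹).1) * (g⁻¹).1 = (g * h).1 * Y * ((g * h)⁻¹).1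
        rw [_root_.mul_inv_rev, Matrix.SpecialLinearGroup.coe_mul, Matrix.SpecialLinearGroup.coe_mul]
        simp only [Matrix.mul_assoc]
      rw [e]
      exact Submodule.subset_span ⟨g * h, G.mul_mem hg hh, rfl⟩
    · rw [LinearMap.comp_zero]
      exact Submodule.zero_mem _
    · intro a b _ _ ha hb
      rw [LinearMap.comp_add]
      exact Submodule.add_mem _ ha hb
    · intro c a _ ha
      rw [LinearMap.comp_smul]
      exact Submodule.smul_mem _ c ha
  · rw [LinearMap.zero_comp]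
    exact Submodule.zero_mem _
  · intro a b _ _ ha hb
    rw [LinearMap.add_comp]
    exact Submodule.add_mem _ ha hb
  · intro c a _ ha
    rw [LinearMap.smul_comp]
    exact Submodule.smul_mem _ c ha

private theorem LvrB_one : Ad (1 : SLC m) = LinearMap.id := by
  refine LinearMap.ext fun Y => ?_
  show (1 : SLC m).1 * Y * ((1 : SLC m)⁻¹).1 = Y
  rw [inv_one]
  show (1 : Matrix (Fin m) (Fin m) ℂ) * Y * (1 : Matrix (Fin m) (Fin m) ℂ) = Y
  rw [Matrix.one_mul, Matrix.mul_one]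

/-- the endomorphisms of the Lie algebra which are induced by elements of the span of the conjugations -/
private noncomputable def LvrB_A (G : Subgroup (SLC m)) : Subalgebra ℂ (Module.End ℂ (tanG G)) where
  carrier := {a | ∃ T ∈ AdS (G : Set (SLC m)), ∀ Y : tanG G, T Y.1 = (a Y).1}
  mul_mem' := by
    rintro a b ⟨T, hT, hTa⟩ ⟨T', hT', hTb⟩
    refine ⟨T ∘ₗ T', lvr_AdS_comp T T' hT hT', fun Y => ?_⟩
    rw [LinearMap.comp_apply, hTb, hTa]
    rfl
  add_mem' := by
    rintro a b ⟨T, hT, hTa⟩ ⟨T', hT', hTb⟩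
    refine ⟨T + T', Submodule.add_mem _ hT hT', fun Y => ?_⟩
    rw [LinearMap.add_apply, hTb, hTa]
    rfl
  algebraMap_mem' := by
    intro c
    refine ⟨c • Ad 1, Submodule.smul_mem _ c (Submodule.subset_span ⟨1, G.one_mem, rfl⟩), fun Y => ?_⟩
    rw [LinearMap.smul_apply, LvrB_one]
    rfl

/-- Every endomorphism of the Lie algebra is induced by an element of `AdS G`.
Proof. Let `A` be the subalgebra of `Module.End ℂ (tanG G)` of all `a` with `∃ T ∈ AdS G, ∀ Y : tanG G, T Y.1 = (a Y).1` (one: `Ad 1`; products: `lvr_AdS_comp`; sums and scalars: `AdS` is a submodule). By `lvr_burnside` it is enough that invariant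
subspaces `W` are `⊥` or `⊤`: let `W' = W.map (tanG G).subtype ≤ tanG G`. For `g ∈ G` the restriction of `Ad g` to `tanG G` (`tanG_conj`) is in `A`, so `W'` is stable under all `Y ↦ g.1 * Y * (g⁻¹).1`, `g ∈ G`; use `hG.adIrr` with `Γ = G` (`ZDenseIn G G` is trivial). -/
theorem lvr_AdS (hG : AlmostSimple G) (f : Module.End ℂ (tanG G)) :
    ∃ T ∈ AdS (G : Set (SLC m)), ∀ Y : tanG G, T Y.1 = (f Y).1 := by
  have hA : LvrB_A G = ⊤ := by
    refine lvr_burnside (LvrB_A G) fun W hW => ?_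
    by_cases h0 : W = ⊥
    · exact Or.inl h0
    right
    have hne : W.map (tanG G).subtype ≠ ⊥ := by
      intro h
      refine h0 ((Submodule.eq_bot_iff _).2 fun w hw => ?_)
      have h1 : (tanG G).subtype w ∈ W.map (tanG G).subtype := Submodule.mem_map_of_mem hw
      rw [h] at h1
      exact Subtype.ext ((Submodule.mem_bot ℂ).1 h1)
    have hle : W.map (tanG G).subtype ≤ tanG G := by
      rintro _ ⟨w, _, rfl⟩
      exact w.2
    have hst : ∀ g ∈ G, ∀ Y ∈ W.map (tanG G).subtype, g.1 * Y * (g⁻¹).1 ∈ W.map (tanG G).subtype := by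
      rintro g hg _ ⟨w, hw, rfl⟩
      have h1 : ((Ad g).restrict fun X hX => tanG_conj hX hg : Module.End ℂ (tanG G)) ∈ LvrB_A G :=
        ⟨Ad g, Submodule.subset_span ⟨g, hg, rfl⟩, fun Y => rfl⟩
      exact ⟨_, hW _ h1 w hw, rfl⟩
    have h2 := hG.adIrr G ⟨le_refl _, fun P hP => hP⟩ _ hle hne hst
    refine (Submodule.eq_top_iff').2 fun Y => ?_
    have h3 : Y.1 ∈ W.map (tanG G).subtype := by
      rw [h2]
      exact Y.2
    obtain ⟨w, hw, hwY⟩ := h3
    have h4 : w = Y := Subtype.ext hwY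
    rw [← h4]
    exact hw
  have hf : f ∈ LvrB_A G := by
    rw [hA]
    exact Algebra.mem_top
  exact hf

end WCn
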