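import Pool.Agent.Lib.MP_c2b80f_alE.TnI
import Pool.Agent.Lib.MP_c2b80f_alE.LrDefs

/-!
# Exponentials of coroots have finite order (job MtA)
-/

open Matrix

namespace WCn

attribute [local instance 100] LieRing.ofAssociativeRing

variable {m : ℕ}

/-- A matrix `Y` with `[H, Y] = c Y` satisfies `exp (z H) Y exp (-z H) = exp (z c) Y` (differentiate `exp (-z c) • (exp (z H) Y exp (-z H))` with `hasDerivAt_conj`; constant). -/
theorem conj_exp_eigen (H Y : Matrix (Fin m) (Fin m) ℂ) (c : ℂ) (h : H * Y - Y * H = c • Y) (z : ℂ) :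
    NormedSpace.exp (z • H) * Y * NormedSpace.exp (-(z • H)) = Complex.exp (z * c) • Y := by
  ext i j
  have hG : ∀ w : ℂ, HasDerivAt (fun w : ℂ => Complex.exp (-(w * c)) * (NormedSpace.exp (w • H) * Y * NormedSpace.exp (-(w • H))) i j) 0 w := by
    intro w
    have h1 := hasDerivAt_conj H Y w i j
    rw [h, Matrix.mul_smul, Matrix.smul_mul, Matrix.smul_apply, smul_eq_mul] at h1
    have h2 : HasDerivAt (fun w : ℂ => Complex.exp (-(w * c))) (Complex.exp (-(w * c)) * (-c)) w := by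
      have h3 : HasDerivAt (fun w : ℂ => -(w * c)) (-c) w := by
        have h4 := ((hasDerivAt_id w).mul_const c).neg
        rw [one_mul] at h4
        exact h4
      exact h3.cexp
    have h3 := h2.mul h1
    have e : Complex.exp (-(w * c)) * (-c) * (NormedSpace.exp (w • H) * Y * NormedSpace.exp (-(w • H))) i j +
        Complex.exp (-(w * c)) * (c * (NormedSpace.exp (w • H) * Y * NormedSpace.exp (-(w • H))) i j) = 0 := by ring
    rw [← e]
    exact h3
  have hconst := is_const_of_deriv_eq_zero (fun w => (hG w).differentiableAt) (fun w => (hG w).deriv) z 0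
  have h0 : Complex.exp (-(z * c)) * (NormedSpace.exp (z • H) * Y * NormedSpace.exp (-(z • H))) i j = Y i j := by
    rw [hconst]
    simp
  rw [Matrix.smul_apply, smul_eq_mul, ← h0, ← mul_assoc, ← Complex.exp_add, add_neg_cancel, Complex.exp_zero, one_mul]

/-- An element of `G` which commutes with all tangent vectors commutes with `G` (`mem_closure_exp`; an element commuting with `X` commutes with `exp X`), so it lies in the centre, a normal Zariski closed subgroup (`comG` for the set of the matrices of `G`) different from `G` (`noncomm`), which is finite. -/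
theorem AlmostSimple.finite_order {G : Subgroup (SLC m)} (hG : AlmostSimple G) {g : SLC m} (hg : g ∈ G)
    (h : ∀ X ∈ tanG G, g.1 * X = X * g.1) : ∃ N : ℕ, 0 < N ∧ g ^ N = 1 := by
  have hcl : Subgroup.closure {h : SLC m | ∃ X ∈ tanG G, h.1 = NormedSpace.exp X} ≤ Subgroup.centralizer {g} := by
    rw [Subgroup.closure_le]
    rintro k ⟨X, hX, hk⟩
    rw [SetLike.mem_coe, Subgroup.mem_centralizer_singleton_iff]
    apply Subtype.ext
    show k.1 * g.1 = g.1 * k.1
    have h1 := (commute_iff_exp X g.1).1 (h X hX).symm 1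
    rw [one_smul] at h1
    rw [hk, h1]
  have hcom : ∀ k ∈ G, k * g = g * k := fun k hk =>
    Subgroup.mem_centralizer_singleton_iff.1 (hcl (mem_closure_exp hG.closed hG.conn hk))
  have hcen : ∀ a ∈ comG G {Y | ∃ k ∈ G, Y = k.1}, ∀ k ∈ G, a * k = k * a := by
    intro a ha k hk
    exact Subtype.ext (ha.2 k.1 ⟨k, hk, rfl⟩)
  have hgZ : g ∈ comG G {Y | ∃ k ∈ G, Y = k.1} := by
    refine ⟨hg, ?_⟩
    rintro _ ⟨k, hk, rfl⟩
    exact (congrArg Subtype.val (hcom k hk)).symm
  rcases hG.simple (comG G {Y | ∃ k ∈ G, Y = k.1}) (fun a ha => ha.1) (comG_closed hG.closed _) (by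
      intro a ha b hb
      have h1 : a * b * a⁻¹ = b := by rw [← hcen b hb a ha, mul_inv_cancel_right]
      rw [h1]
      exact hb) with h1 | h1
  · exfalso
    obtain ⟨a, ha, b, hb, hab⟩ := hG.noncomm
    apply hab
    refine hcen a ?_ b hb
    rw [h1]
    exact ha
  · have hfin : Finite (comG G {Y | ∃ k ∈ G, Y = k.1}) := h1
    have h2 : IsOfFinOrder (⟨g, hgZ⟩ : comG G {Y | ∃ k ∈ G, Y = k.1}) := isOfFinOrder_of_finite _
    obtain ⟨N, hN, h3⟩ := isOfFinOrder_iff_pow_eq_one.1 h2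
    exact ⟨N, hN, congrArg Subtype.val h3⟩

/-- Proof. Let `g ∈ G` have the matrix `exp (2 π i h)`, `h` the matrix of `d.h i` (`tanG_exp`). By `conj_exp_eigen` (`hd.hh`, `hd.he`; `exp (2 π i n) = 1` for integers `n`) `g` commutes with the `d.h j` and the `d.e β`, hence with all tangent vectors (`hd.span`). Use `finite_order` and `exp (A) ^ N = exp (N A)`. -/
theorem exists_exp_pow {G : Subgroup (SLC m)} (hG : AlmostSimple G) {r : ℕ} {ι : Type} [Fintype ι] (d : LRD (lieA hG.closed) r ι)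
    (hd : IsLRD d) (i : Fin r) :
    ∃ N : ℕ, 0 < N ∧ NormedSpace.exp (((N : ℂ) * (2 * Real.pi * Complex.I)) • (d.h i : Matrix (Fin m) (Fin m) ℂ)) = 1 := by
  obtain ⟨g, hg, he⟩ := tanG_exp hG.closed ((mem_lieA hG.closed _).1 (d.h i).2) (2 * Real.pi * Complex.I)
  have hcomm : ∀ (Y : Matrix (Fin m) (Fin m) ℂ) (n : ℤ), (d.h i : Matrix (Fin m) (Fin m) ℂ) * Y - Y * (d.h i : Matrix (Fin m) (Fin m) ℂ) = (n : ℂ) • Y →
      g.1 * Y = Y * g.1 := by
    intro Y n hY
    have h1 := conj_exp_eigen _ Y (n : ℂ) hY (2 * Real.pi * Complex.I)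
    have h2 : Complex.exp (2 * Real.pi * Complex.I * (n : ℂ)) = 1 := by
      rw [mul_comm]
      exact Complex.exp_int_mul_two_pi_mul_I n
    rw [h2, one_smul, ← coe_inv_of_exp he, ← he] at h1
    have h3 : (g⁻¹).1 * g.1 = 1 := by
      have h4 : g⁻¹ * g = 1 := inv_mul_cancel g
      exact congrArg Subtype.val h4
    calc g.1 * Y = g.1 * Y * ((g⁻¹).1 * g.1) := by rw [h3, Matrix.mul_one]
      _ = (g.1 * Y * (g⁻¹).1) * g.1 := by simp only [Matrix.mul_assoc]
      _ = Y * g.1 := by rw [h1]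
  have hall : ∀ X ∈ tanG G, g.1 * X = X * g.1 := by
    intro X hX
    obtain ⟨t, x, h1⟩ := hd.span ⟨X, (mem_lieA hG.closed X).2 hX⟩
    have h2 : X = ∑ j, t j • (d.h j : Matrix (Fin m) (Fin m) ℂ) + ∑ β, x β • (d.e β : Matrix (Fin m) (Fin m) ℂ) := by
      have h3 := congrArg (fun Y : lieA hG.closed => (Y : Matrix (Fin m) (Fin m) ℂ)) h1
      have h4 : ((∑ j, t j • d.h j + ∑ β, x β • d.e β : lieA hG.closed) : Matrix (Fin m) (Fin m) ℂ) =
          ∑ j, t j • (d.h j : Matrix (Fin m) (Fin m) ℂ) + ∑ β, x β • (d.e β : Matrix (Fin m) (Fin m) ℂ) := by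
        push_cast
        rfl
      rw [← h4]
      exact h3
    have h5 : ∀ j, g.1 * (d.h j : Matrix (Fin m) (Fin m) ℂ) = (d.h j : Matrix (Fin m) (Fin m) ℂ) * g.1 := by
      intro j
      refine hcomm _ 0 ?_
      rw [Int.cast_zero, zero_smul, ← coe_lie, hd.hh]
      rfl
    have h6 : ∀ β, g.1 * (d.e β : Matrix (Fin m) (Fin m) ℂ) = (d.e β : Matrix (Fin m) (Fin m) ℂ) * g.1 := by
      intro β
      refine hcomm _ (d.root β i) ?_
      rw [← coe_lie, hd.he]
      rfl
    rw [h2, Matrix.mul_add, Matrix.add_mul, Matrix.mul_sum, Matrix.mul_sum, Matrix.sum_mul, Matrix.sum_mul]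
    congr 1
    · refine Finset.sum_congr rfl fun j _ => ?_
      rw [Matrix.mul_smul, Matrix.smul_mul, h5]
    · refine Finset.sum_congr rfl fun β _ => ?_
      rw [Matrix.mul_smul, Matrix.smul_mul, h6]
  obtain ⟨N, hN, h1⟩ := hG.finite_order hg hall
  refine ⟨N, hN, ?_⟩
  rw [mul_smul, Nat.cast_smul_eq_nsmul ℂ, Matrix.exp_nsmul, ← he]
  have h2 := congrArg Subtype.val h1
  exact h2

end WCn
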