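import Pool.Agent.Lib.MP_c2b80f_alE.TnD

/-!
# Matrices with `exp (c h) = 1` are diagonalisable (job MtB)
-/

open Matrix

namespace WCn

variable {m : ℕ}

section MtB

attribute [local instance] Matrix.linftyOpNormedRing Matrix.linftyOpNormedAlgebra
  Matrix.linftyOpNormedAddCommGroup Matrix.linftyOpNormedSpace

private theorem MtB_neg0 {𝔸 : Type*} [NormedRing 𝔸] [NormedAlgebra ℂ 𝔸] [CompleteSpace 𝔸] (X : 𝔸) :
    NormedSpace.exp X * NormedSpace.exp (-X) = 1 := by
  have hQ := NormedAlgebra.restrictScalars ℚ ℂ 𝔸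
  rw [← NormedSpace.exp_add_of_commute (Commute.neg_right (Commute.refl X)), add_neg_cancel, NormedSpace.exp_zero]

private theorem MtB_neg (X : Matrix (Fin m) (Fin m) ℂ) : NormedSpace.exp X * NormedSpace.exp (-X) = 1 := MtB_neg0 X

end MtB

/-- If `(h - μ) w = 0` and `(h - μ) v = w` then `exp (z h) v = exp (z μ) (v + z w)`. Proof: both sides are entire vector functions `F` of `z` with the same value at `0`; `G(z) = exp (-z h) (exp (z μ) (v + z w))` has derivative `0` (first for `w`: `exp (z h) w = exp (z μ) w`). -/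
theorem exp_mulVec_jordan (h : Matrix (Fin m) (Fin m) ℂ) (μ : ℂ) (v w : Fin m → ℂ) (hw : h *ᵥ w = μ • w) (hv : h *ᵥ v = μ • v + w) (z : ℂ) :
    NormedSpace.exp (z • h) *ᵥ v = Complex.exp (z * μ) • (v + z • w) := by
  obtain ⟨u, hu⟩ : ∃ u : ℂ → Fin m → ℂ, u = fun z => Complex.exp (z * μ) • (v + z • w) := ⟨_, rfl⟩
  obtain ⟨u', hu'⟩ : ∃ u' : ℂ → Fin m → ℂ, u' = fun z => μ • u z + Complex.exp (z * μ) • w := ⟨_, rfl⟩
  have hder : ∀ z j, HasDerivAt (fun z => u z j) (u' z j) z := by
    intro z j
    have h1 : HasDerivAt (fun z : ℂ => Complex.exp (z * μ)) (Complex.exp (z * μ) * μ) z := by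
      have h2 := ((hasDerivAt_id z).mul_const μ).cexp
      simp only [id, one_mul] at h2
      exact h2
    have h3 : HasDerivAt (fun z : ℂ => v j + z * w j) (w j) z := by
      have h4 := ((hasDerivAt_id z).mul_const (w j)).const_add (v j)
      simp only [id, one_mul] at h4
      exact h4
    have h5 := h1.fun_mul h3
    have h6 : (fun z => u z j) = fun z => Complex.exp (z * μ) * (v j + z * w j) := by
      rw [hu]
      rfl
    have h7 : u' z j = Complex.exp (z * μ) * μ * (v j + z * w j) + Complex.exp (z * μ) * w j := by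
      rw [hu', hu]
      show μ * (Complex.exp (z * μ) * (v j + z * w j)) + Complex.exp (z * μ) * w j = _
      ring
    rw [h6, h7]
    exact h5
  have hhu : ∀ z, (-h) *ᵥ u z + u' z = 0 := by
    intro z
    rw [hu', hu, Matrix.neg_mulVec, Matrix.mulVec_smul, Matrix.mulVec_add, Matrix.mulVec_smul, hv, hw]
    funext j
    show -(Complex.exp (z * μ) * ((μ * v j + w j) + z * (μ * w j))) +
      (μ * (Complex.exp (z * μ) * (v j + z * w j)) + Complex.exp (z * μ) * w j) = 0
    ring
  have hF : ∀ i z, HasDerivAt (fun z : ℂ => (NormedSpace.exp (z • (-h)) *ᵥ u z) i) 0 z := by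
    intro i z
    have h1 : HasDerivAt (fun z : ℂ => ∑ j, (NormedSpace.exp (z • (-h))) i j * u z j)
        (∑ j, ((NormedSpace.exp (z • (-h)) * (-h)) i j * u z j + (NormedSpace.exp (z • (-h))) i j * u' z j)) z :=
      HasDerivAt.fun_sum fun j _ => (hasDerivAt_exp_entry (-h) z i j).fun_mul (hder z j)
    have h2 : (∑ j, ((NormedSpace.exp (z • (-h)) * (-h)) i j * u z j + (NormedSpace.exp (z • (-h))) i j * u' z j)) = 0 := by
      have h3 : (NormedSpace.exp (z • (-h)) *ᵥ ((-h) *ᵥ u z + u' z)) i = 0 := by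
        rw [hhu z, Matrix.mulVec_zero]
        rfl
      rw [Matrix.mulVec_add, Matrix.mulVec_mulVec] at h3
      rw [Finset.sum_add_distrib]
      exact h3
    rw [h2] at h1
    exact h1
  have hc : NormedSpace.exp (z • (-h)) *ᵥ u z = v := by
    funext i
    have h1 := is_const_of_deriv_eq_zero (𝕜 := ℂ) (f := fun z : ℂ => (NormedSpace.exp (z • (-h)) *ᵥ u z) i)
      (fun w => (hF i w).differentiableAt) (fun w => (hF i w).deriv) z 0
    have h2 : (NormedSpace.exp (z • (-h)) *ᵥ u z) i = (NormedSpace.exp ((0 : ℂ) • (-h)) *ᵥ u 0) i := h1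
    rw [h2, zero_smul, NormedSpace.exp_zero, Matrix.one_mulVec, hu]
    show Complex.exp (0 * μ) * (v i + 0 * w i) = v i
    rw [zero_mul, zero_mul, Complex.exp_zero, one_mul, add_zero]
  have he : NormedSpace.exp (z • h) * NormedSpace.exp (z • (-h)) = 1 := by
    rw [smul_neg]
    exact MtB_neg (z • h)
  have h3 : NormedSpace.exp (z • h) *ᵥ v = u z := by
    nth_rewrite 1 [← hc]
    rw [Matrix.mulVec_mulVec, he, Matrix.one_mulVec]
  rw [h3, hu]

/-- Proof. By `exp_mulVec_jordan`: if `(h - μ)² v = 0`, `w = (h - μ) v`, then `v = exp (c μ) (v + c w)` and `w = exp (c μ) w`; if `w ≠ 0` then `exp (c μ) = 1` and `c w = 0`, a contradiction. So the generalised eigenspaces are the eigenspaces (`Module.End.genEigenspace` of exponent `k + 1` equals that of exponent `1`, by induction),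
and `Module.End.iSup_maxGenEigenspace_eq_top`. -/
theorem iSup_eigenspace_of_exp (h : Matrix (Fin m) (Fin m) ℂ) (c : ℂ) (hc : c ≠ 0) (hexp : NormedSpace.exp (c • h) = 1) :
    ⨆ μ : ℂ, Module.End.eigenspace (Matrix.toLin' h) μ = ⊤ := by
  have key : ∀ (μ : ℂ) (k : ℕ) (x : Fin m → ℂ), ((Matrix.toLin' h - μ • (1 : Module.End ℂ (Fin m → ℂ))) ^ k) x = 0 →
      (Matrix.toLin' h - μ • (1 : Module.End ℂ (Fin m → ℂ))) x = 0 := by
    intro μ k
    induction k with
    | zero =>
      intro x hx
      have h1 : x = 0 := hx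
      rw [h1, map_zero]
    | succ k ih =>
      intro x hx
      rw [pow_succ, Module.End.mul_apply] at hx
      have h1 := ih _ hx
      obtain ⟨w, hw⟩ : ∃ w, w = (Matrix.toLin' h - μ • (1 : Module.End ℂ (Fin m → ℂ))) x := ⟨_, rfl⟩
      rw [← hw] at h1 ⊢
      rw [LinearMap.sub_apply, LinearMap.smul_apply, Module.End.one_apply, Matrix.toLin'_apply] at h1 hw
      have hw1 : h *ᵥ w = μ • w := sub_eq_zero.1 h1
      have hx1 : h *ᵥ x = μ • x + w := by
        rw [hw]
        abel
      have h2 := exp_mulVec_jordan h μ x w hw1 hx1 c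
      have h3 := exp_mulVec_jordan h μ w 0 (by rw [Matrix.mulVec_zero, smul_zero]) (by rw [hw1, add_zero]) c
      rw [hexp, Matrix.one_mulVec] at h2 h3
      rw [smul_zero, add_zero] at h3
      by_contra hne
      have h4 : Complex.exp (c * μ) = 1 := by
        by_contra h5
        apply hne
        have h6 : (1 - Complex.exp (c * μ)) • w = 0 := by
          rw [sub_smul, one_smul, ← h3, sub_self]
        exact (smul_eq_zero.1 h6).resolve_left (sub_ne_zero.2 (fun h7 => h5 h7.symm))
      rw [h4, one_smul] at h2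
      have h5 : c • w = 0 := by
        have h6 : x + 0 = x + c • w := by
          rw [add_zero]
          exact h2
        exact (add_left_cancel h6).symm
      exact hne ((smul_eq_zero.1 h5).resolve_left hc)
  rw [eq_top_iff, ← Module.End.iSup_maxGenEigenspace_eq_top (Matrix.toLin' h)]
  refine iSup_mono fun μ x hx => ?_
  rw [Module.End.mem_maxGenEigenspace] at hx
  obtain ⟨k, hk⟩ := hx
  rw [Module.End.mem_eigenspace_iff]
  have h1 := key μ k x hk
  rw [LinearMap.sub_apply, LinearMap.smul_apply, Module.End.one_apply] at h1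
  exact sub_eq_zero.1 h1

end WCn
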