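import Pool.Agent.Lib.MP_c2b80f_alE.MtA
import Pool.Agent.Lib.MP_c2b80f_alE.MtB
import Pool.Agent.Lib.MP_c2b80f_alE.MtC

/-!
# The weights are integral (job MtE)
-/

open Matrix

namespace WCn

attribute [local instance 100] LieRing.ofAssociativeRing

variable {m : ℕ}

/-- Proof. The matrices of the `d.h i` commute (`hd.hh`, `coe_lie`) and are diagonalisable (`exists_exp_pow`, `iSup_eigenspace_of_exp`); let `p`, `wt` be as in `exists_diag_family`. The `j`-th column of `p` is an eigenvector of `d.h i` with eigenvalue `wt j i`. For the simple root `β = d.simple i`: `e = d.e β`, `f = d.e (d.neg β)` satisfy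
`[e, f] = ∑ (coroot β) j • h j = h i` (`simple_coroot`), `[h i, e] = 2 e`, `[h i, f] = -2 f` (`two`, `root_neg`), so `wt j i` is an integer by `int_eigenvalue`. -/
theorem exists_weights {G : Subgroup (SLC m)} (hG : AlmostSimple G) {r : ℕ} {ι : Type} [Fintype ι] (d : LRD (lieA hG.closed) r ι)
    (hd : IsLRD d) : ∃ (p : GL (Fin m) ℂ) (wt : Fin m → Fin r → ℤ), ∀ i, (d.h i : Matrix (Fin m) (Fin m) ℂ) =
      p.1 * Matrix.diagonal (fun j => ((wt j i : ℤ) : ℂ)) * (p⁻¹).1 := by
  obtain ⟨H, hH⟩ : ∃ H : Fin r → Matrix (Fin m) (Fin m) ℂ, ∀ i, H i = (d.h i : Matrix (Fin m) (Fin m) ℂ) :=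
    ⟨fun i => (d.h i : Matrix (Fin m) (Fin m) ℂ), fun i => rfl⟩
  have hcomm : ∀ i j, H i * H j = H j * H i := by
    intro i j
    have h1 := congrArg (Subtype.val) (hd.hh i j)
    have h2 : H i * H j - H j * H i = 0 := by
      rw [hH, hH]
      exact h1
    exact sub_eq_zero.1 h2
  have hdiag : ∀ i, ⨆ μ : ℂ, Module.End.eigenspace (Matrix.toLin' (H i)) μ = ⊤ := by
    intro i
    obtain ⟨N, hN, hexp⟩ := exists_exp_pow hG d hd i
    rw [← hH] at hexp
    refine iSup_eigenspace_of_exp (H i) _ ?_ hexp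
    refine mul_ne_zero (Nat.cast_ne_zero.2 hN.ne') (mul_ne_zero (mul_ne_zero two_ne_zero ?_) Complex.I_ne_zero)
    exact Complex.ofReal_ne_zero.2 Real.pi_ne_zero
  obtain ⟨p, wt, hp⟩ := exists_diag_family H hcomm hdiag
  have hpp : (p⁻¹).1 * p.1 = 1 := p.inv_mul
  have hcol : ∀ i j, H i *ᵥ (p.1 *ᵥ Pi.single j 1) = wt j i • (p.1 *ᵥ Pi.single j 1) := by
    intro i j
    rw [hp i, Matrix.mulVec_mulVec, Matrix.mul_assoc, hpp, Matrix.mul_one, ← Matrix.mulVec_mulVec,
      ← Matrix.mulVec_smul]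
    congr 1
    funext a
    rw [Matrix.mulVec_diagonal, Pi.smul_apply, smul_eq_mul]
    by_cases h : a = j
    · rw [h]
    · rw [Pi.single_eq_of_ne h, mul_zero, mul_zero]
  have hcol0 : ∀ j, p.1 *ᵥ Pi.single j (1 : ℂ) ≠ 0 := by
    intro j h
    have h1 := congrArg (fun v => (p⁻¹).1 *ᵥ v) h
    rw [Matrix.mulVec_mulVec, hpp, Matrix.one_mulVec, Matrix.mulVec_zero] at h1
    have h2 := congrFun h1 j
    rw [Pi.single_eq_same, Pi.zero_apply] at h2
    exact one_ne_zero h2
  have hint : ∀ j i, ∃ n : ℤ, wt j i = n := by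
    intro j i
    have hroot : d.root (d.simple i) i = 2 := by
      have h1 := hd.comb.two (d.simple i)
      rw [hd.comb.simple_coroot i, Finset.sum_eq_single i, Pi.single_eq_same, mul_one] at h1
      · exact h1
      · intro l _ hl
        rw [Pi.single_eq_of_ne hl, mul_zero]
      · intro hc
        exact absurd (Finset.mem_univ i) hc
    have hrootn : d.root (d.neg (d.simple i)) i = -2 := by
      rw [hd.comb.root_neg, Pi.neg_apply, hroot]
    refine int_eigenvalue (H i) (d.e (d.simple i) : Matrix (Fin m) (Fin m) ℂ)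
      (d.e (d.neg (d.simple i)) : Matrix (Fin m) (Fin m) ℂ) ?_ ?_ ?_ _ (hcol0 j) (wt j i) (hcol i j)
    · have h1 := congrArg (Subtype.val) (hd.he i (d.simple i))
      rw [hroot] at h1
      rw [hH]
      have h2 : ((2 : ℤ) : ℂ) = 2 := by norm_num
      rw [h2] at h1
      exact h1
    · have h1 := congrArg (Subtype.val) (hd.he i (d.neg (d.simple i)))
      rw [hrootn] at h1
      rw [hH, ← neg_smul]
      have h2 : ((-2 : ℤ) : ℂ) = -2 := by norm_num
      rw [h2] at h1
      exact h1
    · have h1 := hd.br (d.simple i)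
      rw [hd.comb.simple_coroot i, Finset.sum_eq_single i, Pi.single_eq_same, Int.cast_one, one_smul] at h1
      · have h2 := congrArg (Subtype.val) h1
        rw [hH]
        exact h2
      · intro l _ hl
        rw [Pi.single_eq_of_ne hl, Int.cast_zero, zero_smul]
      · intro hc
        exact absurd (Finset.mem_univ i) hc
  choose w hw using hint
  refine ⟨p, w, fun i => ?_⟩
  rw [← hH, hp i]
  simp only [hw]

end WCn
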