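import Pool.Agent.Lib.MP_c2b80f_alE.TnC
import Pool.Agent.Lib.MP_c2b80f_alD.CjB

/-!
# Conjugation of `G` by an element of `GL_m(ℂ)` (job MtF)
-/

open Matrix

namespace WCn

variable {m : ℕ}

private theorem MtF_inv_mul (P : GL (Fin m) ℂ) : (P⁻¹).1 * P.1 = 1 := by
  rw [← Units.val_mul, inv_mul_cancel, Units.val_one]

private theorem MtF_mul_inv (P : GL (Fin m) ℂ) : P.1 * (P⁻¹).1 = 1 := by
  rw [← Units.val_mul, mul_inv_cancel, Units.val_one]

/-- Polynomials which vanish on `G` give polynomials which vanish on the conjugate. -/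
private theorem MtF_van {G : Subgroup (SLC m)} (P : GL (Fin m) ℂ) (Q : MvPolynomial (Fin m × Fin m) ℂ) (hQ : Q ∈ vanI G) :
    ∃ Q' ∈ vanI (G.map (WCn.cj P).toMonoidHom), (∀ x, evM x Q' = evM ((P⁻¹).1 * x * P.1) Q) ∧
      ∀ X, dP Q' X = dP Q ((P⁻¹).1 * X * P.1) := by
  obtain ⟨Q', h1, h2⟩ := exists_transl (P⁻¹).1 P.1 Q
  refine ⟨Q', ?_, h1, fun X => ?_⟩
  · rintro g ⟨g', hg', rfl⟩
    rw [h1]
    have h3 : (P⁻¹).1 * ((WCn.cj P).toMonoidHom g').1 * P.1 = g'.1 := cjB_cancel P g'.1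
    rw [h3]
    exact hQ g' hg'
  · rw [h2, MtF_inv_mul]
    rfl

/-- `P(P⁻¹ x P)` is a polynomial in `x` (`exists_transl`). -/
theorem ZClosed.cj {G : Subgroup (SLC m)} (hG : ZClosed G) (P : GL (Fin m) ℂ) : ZClosed (G.map (WCn.cj P).toMonoidHom) := by
  intro g hg
  refine Subgroup.mem_map_equiv.2 (hG _ fun Q hQ => ?_)
  obtain ⟨Q', hQ', h1, -⟩ := MtF_van P Q hQ
  have h2 := hg Q' hQ'
  rw [h1] at h2
  exact h2

/-- From `exists_transl` with `g = P`, `h = P⁻¹` (both inclusions; no closedness is needed), or from `mem_tanG_iff`. -/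
theorem tanG_cj {G : Subgroup (SLC m)} (P : GL (Fin m) ℂ) : tanG (G.map (WCn.cj P).toMonoidHom) = cjL P (tanG G) := by
  ext X
  constructor
  · intro hX Q hQ
    obtain ⟨Q', hQ', -, h2⟩ := MtF_van P Q hQ
    have h3 := hX Q' hQ'
    rw [h2] at h3
    exact h3
  · intro hX Q hQ
    have hX' : (P⁻¹).1 * X * P.1 ∈ tanG G := hX
    obtain ⟨Q', h1, h2⟩ := exists_transl P.1 (P⁻¹).1 Q
    have h3 : Q' ∈ vanI G := by
      intro g hg
      rw [h1]
      have h5 : evM ((WCn.cj P).toMonoidHom g).1 Q = 0 := hQ ((WCn.cj P).toMonoidHom g) ⟨g, hg, rfl⟩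
      exact h5
    have h4 := hX' Q' h3
    rw [h2, cjB_cancel', MtF_mul_inv] at h4
    exact h4

/-- Conjugation by `P` is an automorphism of the group `SL_m(ℂ)` and a homeomorphism which preserves Zariski closed subgroups (`ZClosed.cj` for `P` and `P⁻¹`). -/
theorem AlmostSimple.cj {G : Subgroup (SLC m)} (hG : AlmostSimple G) (P : GL (Fin m) ℂ) : AlmostSimple (G.map (WCn.cj P).toMonoidHom) where
  closed := hG.closed.cj P
  conn := by
    have hc : Continuous (WCn.cj P) := by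
      refine (Matrix.SpecialLinearGroup.isClosedEmbedding_val (n := Fin m) (R := ℂ)).isEmbedding.isInducing.continuous_iff.2 ?_
      change Continuous fun g : SLC m => P.1 * g.1 * (P⁻¹).1
      exact (continuous_const.mul (Matrix.SpecialLinearGroup.isClosedEmbedding_val (n := Fin m) (R := ℂ)).continuous).mul
        continuous_const
    have h1 : ((G.map (WCn.cj P).toMonoidHom : Subgroup (SLC m)) : Set (SLC m)) = (WCn.cj P) '' (G : Set (SLC m)) := rfl
    rw [h1]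
    exact hG.conn.image _ hc.continuousOn
  noncomm := by
    obtain ⟨g, hg, h, hh, hne⟩ := hG.noncomm
    refine ⟨(WCn.cj P) g, ⟨g, hg, rfl⟩, (WCn.cj P) h, ⟨h, hh, rfl⟩, fun h1 => hne ?_⟩
    rw [← map_mul, ← map_mul] at h1
    exact (WCn.cj P).injective h1
  simple := by
    intro N hN hNc hNn
    have hinv : ∀ x, (WCn.cj P⁻¹) ((WCn.cj P) x) = x := by
      intro x
      apply Subtype.ext
      change (P⁻¹).1 * (P.1 * x.1 * (P⁻¹).1) * (P⁻¹⁻¹).1 = x.1
      rw [inv_inv]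
      exact cjB_cancel P x.1
    have hinv' : ∀ x, (WCn.cj P) ((WCn.cj P⁻¹) x) = x := by
      intro x
      apply Subtype.ext
      change P.1 * ((P⁻¹).1 * x.1 * (P⁻¹⁻¹).1) * (P⁻¹).1 = x.1
      rw [inv_inv]
      exact cjB_cancel' P x.1
    have h1 := hG.simple (N.map (WCn.cj P⁻¹).toMonoidHom) (by
      rintro _ ⟨x, hx, rfl⟩
      obtain ⟨y, hy, rfl⟩ := hN hx
      have h2 : (WCn.cj P⁻¹).toMonoidHom ((WCn.cj P).toMonoidHom y) = y := hinv y
      rw [h2]
      exact hy) (hNc.cj P⁻¹) (by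
      rintro g hg _ ⟨x, hx, rfl⟩
      refine ⟨(WCn.cj P) g * x * ((WCn.cj P) g)⁻¹, hNn _ ⟨g, hg, rfl⟩ x hx, ?_⟩
      change (WCn.cj P⁻¹) ((WCn.cj P) g * x * ((WCn.cj P) g)⁻¹) = g * (WCn.cj P⁻¹) x * g⁻¹
      rw [map_mul, map_mul, map_inv, hinv])
    rcases h1 with h1 | h1
    · left
      rw [← h1]
      ext x
      constructor
      · intro hx
        exact ⟨(WCn.cj P⁻¹) x, ⟨x, hx, rfl⟩, hinv' x⟩
      · rintro ⟨_, ⟨y, hy, rfl⟩, rfl⟩
        have h2 : (WCn.cj P).toMonoidHom ((WCn.cj P⁻¹).toMonoidHom y) = y := hinv' y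
        rw [h2]
        exact hy
    · right
      have h2 : (N : Set (SLC m)) ⊆ (WCn.cj P) '' ((N.map (WCn.cj P⁻¹).toMonoidHom : Subgroup (SLC m)) : Set (SLC m)) := by
        intro x hx
        exact ⟨(WCn.cj P⁻¹) x, ⟨x, hx, rfl⟩, hinv' x⟩
      exact (h1.image _).subset h2

end WCn
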