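import Pool.Agent.Lib.MP_c2b80f_alE.RkA

/-!
# Regular elements are dense (job RkC)
-/

open Matrix

namespace WCn

variable {m : ℕ}

/-- the coefficients of the characteristic polynomial of `A + s B` are polynomials in `s` -/
private theorem RkC_coeff {ι : Type*} [Fintype ι] [DecidableEq ι] (A B : Matrix ι ι ℂ) (j : ℕ) :
    ∃ q : Polynomial ℂ, ∀ s : ℂ, (A + s • B).charpoly.coeff j = q.eval s := by
  refine ⟨(A.map Polynomial.C + (Polynomial.X : Polynomial ℂ) • B.map Polynomial.C).charpoly.coeff j, fun s => ?_⟩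
  have h1 := Matrix.charpoly_map (A.map Polynomial.C + (Polynomial.X : Polynomial ℂ) • B.map Polynomial.C)
    (Polynomial.evalRingHom s)
  have h2 : (A.map Polynomial.C + (Polynomial.X : Polynomial ℂ) • B.map Polynomial.C).map (Polynomial.evalRingHom s) =
      A + s • B := by
    ext a b
    rw [Matrix.map_apply, Matrix.add_apply, Matrix.add_apply, Matrix.smul_apply, Matrix.smul_apply, Matrix.map_apply,
      Matrix.map_apply, smul_eq_mul, smul_eq_mul, Polynomial.coe_evalRingHom, Polynomial.eval_add, Polynomial.eval_mul,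
      Polynomial.eval_X, Polynomial.eval_C, Polynomial.eval_C]
  rw [h2] at h1
  rw [h1, Polynomial.coeff_map]
  rfl

private theorem RkC_nonroot {q : Polynomial ℂ} (hq : q.eval 1 ≠ 0) (ε : ℝ) (hε : 0 < ε) : ∃ s : ℂ, ‖s‖ < ε ∧ q.eval s ≠ 0 := by
  by_contra hc
  have hc' : ∀ s : ℂ, ‖s‖ < ε → q.eval s = 0 := by
    intro s hs
    by_contra h
    exact hc ⟨s, hs, h⟩
  have h1 : Set.Infinite ((fun t : ℝ => (t : ℂ)) '' Set.Ioo 0 ε) :=
    (Set.Ioo_infinite hε).image Complex.ofReal_injective.injOn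
  have h2 : q = 0 := by
    refine Polynomial.eq_zero_of_infinite_isRoot q (h1.mono ?_)
    rintro _ ⟨t, ht, rfl⟩
    refine hc' _ ?_
    rw [Complex.norm_real, Real.norm_eq_abs, abs_of_pos ht.1]
    exact ht.2
  rw [h2, Polynomial.eval_zero] at hq
  exact hq rfl

/-- the restriction of `ad X` to the Lie algebra -/
private noncomputable def RkC_ad {G : Subgroup (SLC m)} (hG : ZClosed G) : tanG G →ₗ[ℂ] Module.End ℂ (tanG G) where
  toFun X := (adM X.1).restrict fun Y hY => tanG_lie hG X.2 hY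
  map_add' X Y := by
    refine LinearMap.ext fun W => Subtype.ext ?_
    show (X.1 + Y.1) * W.1 - W.1 * (X.1 + Y.1) = (X.1 * W.1 - W.1 * X.1) + (Y.1 * W.1 - W.1 * Y.1)
    rw [Matrix.add_mul, Matrix.mul_add]
    abel
  map_smul' c X := by
    refine LinearMap.ext fun W => Subtype.ext ?_
    show (c • X.1) * W.1 - W.1 * (c • X.1) = c • (X.1 * W.1 - W.1 * X.1)
    rw [Matrix.smul_mul, Matrix.mul_smul, smul_sub]

private theorem RkC_gker {G : Subgroup (SLC m)} (hG : ZClosed G) (X : tanG G) :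
    gker G X.1 = (RkC_ad hG X).charpoly.natTrailingDegree := by
  rw [← LinearMap.finrank_maxGenEigenspace_zero_eq]
  unfold gker
  have h1 : (RkC_ad hG X).maxGenEigenspace 0 = ((adM X.1).maxGenEigenspace 0).comap (tanG G).subtype := by
    exact Module.End.genEigenspace_restrict (adM X.1) (tanG G) ⊤ 0 fun Y hY => tanG_lie hG X.2 hY
  rw [h1, ← Submodule.finrank_map_subtype_eq, Submodule.map_comap_subtype, inf_comm]

/-- Let `X₀ Z ∈ tanG G`. Arbitrarily close to `Z` there is `X ∈ tanG G` with `gker G X ≤ gker G X₀`. Proof. Let `f s` be the characteristic polynomial of the restriction of `ad (Z + s (X₀ - Z))` to `𝔤 = tanG G`; its coefficients are polynomials in `s` (write the matrix in a basis of `𝔤`; it is `A + s B`). `gker G X` is the order of vanishing at `0` of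
the characteristic polynomial of `ad X` on `𝔤` (`LinearMap.finrank_maxGenEigenspace_zero_eq` applied to the restriction of `ad X` to `𝔤`, whose maximal generalised eigenspace is the intersection). The coefficient with index `gker G X₀` is a polynomial in `s` which is not zero at `s = 1`, so it has finitely many zeros and is not zero for arbitrarily small
`s`; for these `s` the order of vanishing is at most `gker G X₀`. -/
theorem exists_regular_near {G : Subgroup (SLC m)} (hG : ZClosed G) (X₀ Z : Matrix (Fin m) (Fin m) ℂ) (hX₀ : X₀ ∈ tanG G) (hZ : Z ∈ tanG G)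
    (δ : ℝ) (hδ : 0 < δ) : ∃ X ∈ tanG G, (∀ i j, ‖(X - Z) i j‖ < δ) ∧ gker G X ≤ gker G X₀ := by
  obtain ⟨ε, hε, hεδ⟩ : ∃ ε : ℝ, 0 < ε ∧ ∀ i j, ε * ‖(X₀ - Z) i j‖ < δ := by
    refine ⟨δ / (1 + ∑ i, ∑ j, ‖(X₀ - Z) i j‖), by positivity, fun i j => ?_⟩
    have h1 : ‖(X₀ - Z) i j‖ ≤ ∑ i, ∑ j, ‖(X₀ - Z) i j‖ :=
      (Finset.single_le_sum (f := fun j => ‖(X₀ - Z) i j‖) (fun _ _ => norm_nonneg _) (Finset.mem_univ j)).trans
        (Finset.single_le_sum (f := fun i => ∑ j, ‖(X₀ - Z) i j‖)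
          (fun _ _ => Finset.sum_nonneg fun _ _ => norm_nonneg _) (Finset.mem_univ i))
    have h2 : 0 < 1 + ∑ i, ∑ j, ‖(X₀ - Z) i j‖ := by positivity
    rw [div_mul_eq_mul_div, div_lt_iff₀ h2]
    nlinarith
  obtain ⟨q, hq⟩ := RkC_coeff (LinearMap.toMatrix (Module.finBasis ℂ (tanG G)) (Module.finBasis ℂ (tanG G)) (RkC_ad hG ⟨Z, hZ⟩))
    (LinearMap.toMatrix (Module.finBasis ℂ (tanG G)) (Module.finBasis ℂ (tanG G)) (RkC_ad hG (⟨X₀, hX₀⟩ - ⟨Z, hZ⟩))) (gker G X₀)
  have hq' : ∀ s : ℂ, (RkC_ad hG (⟨Z, hZ⟩ + s • (⟨X₀, hX₀⟩ - ⟨Z, hZ⟩))).charpoly.coeff (gker G X₀) = q.eval s := by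
    intro s
    rw [← LinearMap.charpoly_toMatrix _ (Module.finBasis ℂ (tanG G)), ← hq, map_add, map_smul, map_add, map_smul]
  have h1 : q.eval 1 ≠ 0 := by
    rw [← hq' 1, one_smul, add_sub_cancel]
    have h2 := RkC_gker hG ⟨X₀, hX₀⟩
    rw [show gker G X₀ = _ from h2]
    have h3 : (RkC_ad hG ⟨X₀, hX₀⟩).charpoly ≠ 0 := (LinearMap.charpoly_monic _).ne_zero
    exact Polynomial.trailingCoeff_nonzero_iff_nonzero.2 h3
  obtain ⟨s, hs, hsq⟩ := RkC_nonroot h1 ε hε
  refine ⟨Z + s • (X₀ - Z), (tanG G).add_mem hZ ((tanG G).smul_mem s ((tanG G).sub_mem hX₀ hZ)), fun i j => ?_, ?_⟩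
  · rw [add_sub_cancel_left, Matrix.smul_apply, smul_eq_mul, norm_mul]
    exact lt_of_le_of_lt (mul_le_mul_of_nonneg_right hs.le (norm_nonneg _)) (hεδ i j)
  · have h2 := RkC_gker hG (⟨Z, hZ⟩ + s • (⟨X₀, hX₀⟩ - ⟨Z, hZ⟩))
    have h3 : gker G (Z + s • (X₀ - Z)) = _ := h2
    rw [h3]
    refine Polynomial.natTrailingDegree_le_of_ne_zero ?_
    rw [hq']
    exact hsq

end WCn
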