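import Pool.Agent.Lib.MP_c2b80f_alE.RkB
import Pool.Agent.Lib.MP_c2b80f_alE.RkC

/-!
# Tori have dimension at most the rank (job RkD)
-/

open Matrix

namespace WCn

variable {m : ℕ}

private theorem RkD_cancel (g : SLC m) : (g⁻¹).1 * g.1 = 1 ∧ g.1 * (g⁻¹).1 = 1 := by
  have e1 : (g⁻¹ * g).1 = (1 : SLC m).1 := congrArg Subtype.val (inv_mul_cancel g)
  have e2 : (g * g⁻¹).1 = (1 : SLC m).1 := congrArg Subtype.val (mul_inv_cancel g)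
  exact ⟨e1, e2⟩

private theorem RkD_ad (g : SLC m) (X Y : Matrix (Fin m) (Fin m) ℂ) :
    adM (g.1 * X * (g⁻¹).1) (g.1 * Y * (g⁻¹).1) = g.1 * adM X Y * (g⁻¹).1 := by
  obtain ⟨h1, -⟩ := RkD_cancel g
  change g.1 * X * (g⁻¹).1 * (g.1 * Y * (g⁻¹).1) - g.1 * Y * (g⁻¹).1 * (g.1 * X * (g⁻¹).1) =
    g.1 * (X * Y - Y * X) * (g⁻¹).1
  have e1 : ∀ X Y : Matrix (Fin m) (Fin m) ℂ, g.1 * X * (g⁻¹).1 * (g.1 * Y * (g⁻¹).1) = g.1 * (X * Y) * (g⁻¹).1 := by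
    intro X Y
    calc g.1 * X * (g⁻¹).1 * (g.1 * Y * (g⁻¹).1) = g.1 * X * ((g⁻¹).1 * g.1) * (Y * (g⁻¹).1) := by
          simp only [Matrix.mul_assoc]
      _ = g.1 * (X * Y) * (g⁻¹).1 := by
          rw [h1]
          simp only [Matrix.mul_assoc, Matrix.one_mul]
  rw [e1, e1, Matrix.mul_sub, Matrix.sub_mul]

private theorem RkD_pow (g : SLC m) (X Y : Matrix (Fin m) (Fin m) ℂ) (k : ℕ) :
    (adM (g.1 * X * (g⁻¹).1) ^ k) (g.1 * Y * (g⁻¹).1) = g.1 * (adM X ^ k) Y * (g⁻¹).1 := by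
  induction k generalizing Y with
  | zero => rfl
  | succ k ih =>
    rw [pow_succ, pow_succ, Module.End.mul_apply, Module.End.mul_apply, RkD_ad, ih]

private theorem RkD_mem (g : SLC m) (X Y : Matrix (Fin m) (Fin m) ℂ) (h : Y ∈ (adM X).maxGenEigenspace 0) :
    g.1 * Y * (g⁻¹).1 ∈ (adM (g.1 * X * (g⁻¹).1)).maxGenEigenspace 0 := by
  rw [Module.End.mem_maxGenEigenspace] at h ⊢
  obtain ⟨k, hk⟩ := h
  refine ⟨k, ?_⟩
  rw [zero_smul, sub_zero] at hk ⊢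
  rw [RkD_pow, hk, Matrix.mul_zero, Matrix.zero_mul]

private theorem RkD_le {G : Subgroup (SLC m)} (g : SLC m) (hg : g ∈ G) (X : Matrix (Fin m) (Fin m) ℂ) :
    gker G X ≤ gker G (g.1 * X * (g⁻¹).1) := by
  obtain ⟨h1, h2⟩ := RkD_cancel g
  have hinj : Function.Injective (AdM g) := by
    intro Y Z h
    have h3 : g.1 * Y * (g⁻¹).1 = g.1 * Z * (g⁻¹).1 := h
    have h4 : ∀ Y : Matrix (Fin m) (Fin m) ℂ, (g⁻¹).1 * (g.1 * Y * (g⁻¹).1) * g.1 = Y := by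
      intro Y
      calc (g⁻¹).1 * (g.1 * Y * (g⁻¹).1) * g.1 = ((g⁻¹).1 * g.1) * Y * ((g⁻¹).1 * g.1) := by
            simp only [Matrix.mul_assoc]
        _ = Y := by rw [h1, Matrix.one_mul, Matrix.mul_one]
    rw [← h4 Y, h3, h4 Z]
  have h5 : ((adM X).maxGenEigenspace 0 ⊓ tanG G).map (AdM g) ≤
      (adM (g.1 * X * (g⁻¹).1)).maxGenEigenspace 0 ⊓ tanG G := by
    rintro _ ⟨Y, hY, rfl⟩
    obtain ⟨hY1, hY2⟩ := Submodule.mem_inf.1 hY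
    exact Submodule.mem_inf.2 ⟨RkD_mem g X Y hY1, tanG_conj hY2 hg⟩
  unfold gker
  rw [(Submodule.equivMapOfInjective (AdM g) hinj ((adM X).maxGenEigenspace 0 ⊓ tanG G)).finrank_eq]
  exact Submodule.finrank_mono h5

/-- `Y ↦ g Y g⁻¹` is an isomorphism of `tanG G` which carries `ad X` to `ad (g X g⁻¹)`. -/
theorem gker_conj {G : Subgroup (SLC m)} (g : SLC m) (hg : g ∈ G) (X : Matrix (Fin m) (Fin m) ℂ) : gker G (g.1 * X * (g⁻¹).1) = gker G X := by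
  obtain ⟨h1, h2⟩ := RkD_cancel g
  refine le_antisymm ?_ (RkD_le g hg X)
  have h3 := RkD_le g⁻¹ (G.inv_mem hg) (g.1 * X * (g⁻¹).1)
  rw [inv_inv] at h3
  have h4 : (g⁻¹).1 * (g.1 * X * (g⁻¹).1) * g.1 = X := by
    calc (g⁻¹).1 * (g.1 * X * (g⁻¹).1) * g.1 = ((g⁻¹).1 * g.1) * X * ((g⁻¹).1 * g.1) := by
          simp only [Matrix.mul_assoc]
      _ = X := by rw [h1, Matrix.one_mul, Matrix.mul_one]
  rw [h4] at h3
  exact h3

/-- Proof. Let `Z ∈ 𝔱` be generic (`exists_generic`), `δ` as in `exists_slice`, and `X'` within `δ` of `Z` with `gker G X' ≤ gker G X` (`exists_regular_near`). Then `X' = g (Z + C) g⁻¹` and `C` commutes with `Z`, hence with `𝔱`. So `𝔱` is contained in the kernel of `ad (Z + C)` on `tanG G`, and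
`finrank 𝔱 ≤ gker G (Z + C) = gker G X' ≤ gker G X` (`gker_conj`). -/
theorem finrank_le_gker {G : Subgroup (SLC m)} (hG : ZClosed G) (𝔱 : Submodule ℂ (Matrix (Fin m) (Fin m) ℂ)) (h𝔱 : 𝔱 ≤ tanG G) (p : GL (Fin m) ℂ)
    (hp : ∀ X ∈ 𝔱, ∃ t : Fin m → ℂ, X = p.1 * Matrix.diagonal t * (p⁻¹).1) (X : Matrix (Fin m) (Fin m) ℂ) (hX : X ∈ tanG G) :
    Module.finrank ℂ 𝔱 ≤ gker G X := by
  obtain ⟨Z, hZ, hgen⟩ := exists_generic 𝔱 p hp
  obtain ⟨z, hZp⟩ := hp Z hZ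
  obtain ⟨δ, hδ, hsl⟩ := exists_slice hG p z Z (h𝔱 hZ) hZp
  obtain ⟨X', hX', hclose, hle⟩ := exists_regular_near hG X Z hX (h𝔱 hZ) δ hδ
  obtain ⟨g, hg, C, hC, hcomm, hX'e⟩ := hsl X' hX' hclose
  rw [hX'e, gker_conj g hg (Z + C)] at hle
  refine le_trans ?_ hle
  unfold gker
  refine Submodule.finrank_mono ?_
  intro T hT
  refine Submodule.mem_inf.2 ⟨?_, h𝔱 hT⟩
  rw [Module.End.mem_maxGenEigenspace]
  refine ⟨1, ?_⟩
  rw [zero_smul, sub_zero, pow_one]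
  change (Z + C) * T - T * (Z + C) = 0
  rw [Matrix.add_mul, Matrix.mul_add, hgen Z rfl T hT, hgen C hcomm T hT, sub_self]

end WCn
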