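import Pool.Agent.Lib.MP_c2b80f_alE.MtE
import Pool.Agent.Lib.MP_c2b80f_alE.MtF
import Pool.Agent.Lib.MP_c2b80f_alE.RkD

/-!
# From the Lie algebra to the coordinates of `ℂ^m` (job MtG)
-/

open Matrix

namespace WCn

attribute [local instance 100] LieRing.ofAssociativeRing

variable {m : ℕ}

/-- The root datum of the conjugate group `p⁻¹ G p`. -/
noncomputable def mkRD {G : Subgroup (SLC m)} (hG : AlmostSimple G) {r : ℕ} {ι : Type} (d : LRD (lieA hG.closed) r ι) (p : GL (Fin m) ℂ)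
    (wt : Fin m → Fin r → ℤ) : RD m r ι where
  wt := wt
  e β := (p⁻¹).1 * (d.e β : Matrix (Fin m) (Fin m) ℂ) * p.1
  root := d.root
  coroot := d.coroot
  neg := d.neg
  simple := d.simple
  ht := d.ht

/-- `H(t) = p⁻¹ (∑ t i • h i) p`. -/
theorem mkRD_H {G : Subgroup (SLC m)} (hG : AlmostSimple G) {r : ℕ} {ι : Type} (d : LRD (lieA hG.closed) r ι) (p : GL (Fin m) ℂ)
    (wt : Fin m → Fin r → ℤ) (hp : ∀ i, (d.h i : Matrix (Fin m) (Fin m) ℂ) = p.1 * Matrix.diagonal (fun j => ((wt j i : ℤ) : ℂ)) * (p⁻¹).1)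
    (t : Fin r → ℂ) : (mkRD hG d p wt).H t = (p⁻¹).1 * (∑ i, t i • (d.h i : Matrix (Fin m) (Fin m) ℂ)) * p.1 := by
  have h1 : (p⁻¹).1 * p.1 = 1 := by rw [← Units.val_mul, inv_mul_cancel, Units.val_one]
  have h2 : ∀ i, (p⁻¹).1 * (d.h i : Matrix (Fin m) (Fin m) ℂ) * p.1 = Matrix.diagonal (fun j => ((wt j i : ℤ) : ℂ)) := by
    intro i
    rw [hp i]
    calc (p⁻¹).1 * (p.1 * Matrix.diagonal (fun j => ((wt j i : ℤ) : ℂ)) * (p⁻¹).1) * p.1
        = ((p⁻¹).1 * p.1) * Matrix.diagonal (fun j => ((wt j i : ℤ) : ℂ)) * ((p⁻¹).1 * p.1) := by simp only [Matrix.mul_assoc]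
      _ = _ := by rw [h1, Matrix.one_mul, Matrix.mul_one]
  have h3 : (p⁻¹).1 * (∑ i, t i • (d.h i : Matrix (Fin m) (Fin m) ℂ)) * p.1 = ∑ i, t i • Matrix.diagonal (fun j => ((wt j i : ℤ) : ℂ)) := by
    rw [Matrix.mul_sum, Matrix.sum_mul]
    refine Finset.sum_congr rfl fun i _ => ?_
    rw [Matrix.mul_smul, Matrix.smul_mul, h2]
  rw [h3]
  ext a b
  rw [Matrix.sum_apply]
  unfold RD.H
  by_cases hab : a = b
  · subst hab
    rw [Matrix.diagonal_apply_eq]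
    refine Finset.sum_congr rfl fun i _ => ?_
    rw [Matrix.smul_apply, Matrix.diagonal_apply_eq, smul_eq_mul, mul_comm]
    rfl
  · rw [Matrix.diagonal_apply_ne _ hab]
    symm
    refine Finset.sum_eq_zero fun i _ => ?_
    rw [Matrix.smul_apply, Matrix.diagonal_apply_ne _ hab, smul_zero]

theorem mtG_comb {G : Subgroup (SLC m)} (hG : AlmostSimple G) {r : ℕ} {ι : Type} [Fintype ι] (d : LRD (lieA hG.closed) r ι) (p : GL (Fin m) ℂ)
    (wt : Fin m → Fin r → ℤ) (hp : ∀ i, (d.h i : Matrix (Fin m) (Fin m) ℂ) = p.1 * Matrix.diagonal (fun j => ((wt j i : ℤ) : ℂ)) * (p⁻¹).1)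
    (t : Fin r → ℂ) (x : ι → ℂ) : (mkRD hG d p wt).H t + ∑ β, x β • (mkRD hG d p wt).e β =
      (p⁻¹).1 * (((∑ i, t i • d.h i + ∑ β, x β • d.e β : lieA hG.closed)) : Matrix (Fin m) (Fin m) ℂ) * p.1 := by
  have h1 : (((∑ i, t i • d.h i + ∑ β, x β • d.e β : lieA hG.closed)) : Matrix (Fin m) (Fin m) ℂ) =
      ∑ i, t i • (d.h i : Matrix (Fin m) (Fin m) ℂ) + ∑ β, x β • (d.e β : Matrix (Fin m) (Fin m) ℂ) := by
    have h0 : ∀ a b : lieA hG.closed, ((a + b : lieA hG.closed) : Matrix (Fin m) (Fin m) ℂ) = (a : Matrix (Fin m) (Fin m) ℂ) + (b : Matrix (Fin m) (Fin m) ℂ) := fun _ _ => rfl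
    rw [h0]
    congr 1
    · rw [AddSubmonoidClass.coe_finsetSum]
      rfl
    · rw [AddSubmonoidClass.coe_finsetSum]
      rfl
  rw [h1, mkRD_H hG d p wt hp, Matrix.mul_add, Matrix.add_mul]
  congr 1
  rw [Matrix.mul_sum, Matrix.sum_mul]
  refine Finset.sum_congr rfl fun β _ => ?_
  rw [Matrix.mul_smul, Matrix.smul_mul]
  rfl

theorem mtG_mem {G : Subgroup (SLC m)} (p : GL (Fin m) ℂ) (X : Matrix (Fin m) (Fin m) ℂ) :
    X ∈ tanG (G.map (cj p⁻¹).toMonoidHom) ↔ p.1 * X * (p⁻¹).1 ∈ tanG G := by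
  rw [tanG_cj]
  show (p⁻¹⁻¹).1 * X * (p⁻¹).1 ∈ tanG G ↔ _
  rw [inv_inv]

/-- The fields `mem_iff` and `indep`: `tanG_cj`, `hd.span`, `hd.indep`, `mkRD_H`. -/
theorem mkRD_mem_iff {G : Subgroup (SLC m)} (hG : AlmostSimple G) {r : ℕ} {ι : Type} [Fintype ι] (d : LRD (lieA hG.closed) r ι) (hd : IsLRD d) (p : GL (Fin m) ℂ)
    (wt : Fin m → Fin r → ℤ) (hp : ∀ i, (d.h i : Matrix (Fin m) (Fin m) ℂ) = p.1 * Matrix.diagonal (fun j => ((wt j i : ℤ) : ℂ)) * (p⁻¹).1)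
    (X : Matrix (Fin m) (Fin m) ℂ) : X ∈ tanG (G.map (cj p⁻¹).toMonoidHom) ↔
      ∃ (t : Fin r → ℂ) (x : ι → ℂ), X = (mkRD hG d p wt).H t + ∑ β, x β • (mkRD hG d p wt).e β := by
  rw [mtG_mem]
  constructor
  · intro h
    obtain ⟨t, x, hX⟩ := hd.span ⟨p.1 * X * (p⁻¹).1, h⟩
    refine ⟨t, x, ?_⟩
    rw [mtG_comb hG d p wt hp, ← hX]
    exact (cjB_cancel p X).symm
  · rintro ⟨t, x, hX⟩
    rw [hX, mtG_comb hG d p wt hp, cjB_cancel']
    exact (∑ i, t i • d.h i + ∑ β, x β • d.e β : lieA hG.closed).2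

theorem mkRD_indep {G : Subgroup (SLC m)} (hG : AlmostSimple G) {r : ℕ} {ι : Type} [Fintype ι] (d : LRD (lieA hG.closed) r ι) (hd : IsLRD d) (p : GL (Fin m) ℂ)
    (wt : Fin m → Fin r → ℤ) (hp : ∀ i, (d.h i : Matrix (Fin m) (Fin m) ℂ) = p.1 * Matrix.diagonal (fun j => ((wt j i : ℤ) : ℂ)) * (p⁻¹).1)
    (t : Fin r → ℂ) (x : ι → ℂ) (h : (mkRD hG d p wt).H t + ∑ β, x β • (mkRD hG d p wt).e β = 0) : t = 0 ∧ x = 0 := by
  refine hd.indep t x ?_
  apply Subtype.ext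
  rw [mtG_comb hG d p wt hp] at h
  have h1 := cjB_cancel' p (((∑ i, t i • d.h i + ∑ β, x β • d.e β : lieA hG.closed)) : Matrix (Fin m) (Fin m) ℂ)
  rw [← cjB_cancel' p (((∑ i, t i • d.h i + ∑ β, x β • d.e β : lieA hG.closed)) : Matrix (Fin m) (Fin m) ℂ), h]
  simp

/-- The combinatorial fields are those of `hd.comb`. `supp`: compare the entries `a b` of `[diag (wt · i), e β] = root β i • e β` (conjugate of `hd.he`). `bracket`: conjugate of `hd.br`. `gen`: both inclusions of closures, `comb.gen`. `rank`: `finrank_le_gker` for `𝔱` the space of the matrices `H t` (diagonal, so `p = 1`;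
dimension `r` by `mkRD_indep`) and the group `p⁻¹ G p`, which is Zariski closed (`ZClosed.cj`). -/
theorem isRD_of_lrd {G : Subgroup (SLC m)} (hG : AlmostSimple G) {r : ℕ} {ι : Type} [Fintype ι] [DecidableEq ι] (d : LRD (lieA hG.closed) r ι)
    (hd : IsLRD d) (p : GL (Fin m) ℂ) (wt : Fin m → Fin r → ℤ)
    (hp : ∀ i, (d.h i : Matrix (Fin m) (Fin m) ℂ) = p.1 * Matrix.diagonal (fun j => ((wt j i : ℤ) : ℂ)) * (p⁻¹).1) :
    IsRD (G.map (cj p⁻¹).toMonoidHom) (mkRD hG d p wt) where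
  mem_iff := mkRD_mem_iff hG d hd p wt hp
  indep := mkRD_indep hG d hd p wt hp
  supp := by
    intro β a b hab i
    have h1 : (d.h i : Matrix (Fin m) (Fin m) ℂ) * (d.e β : Matrix (Fin m) (Fin m) ℂ) - (d.e β : Matrix (Fin m) (Fin m) ℂ) * (d.h i : Matrix (Fin m) (Fin m) ℂ) =
        ((d.root β i : ℤ) : ℂ) • (d.e β : Matrix (Fin m) (Fin m) ℂ) := congrArg Subtype.val (hd.he i β)
    have h2 : Matrix.diagonal (fun j => ((wt j i : ℤ) : ℂ)) * (mkRD hG d p wt).e β - (mkRD hG d p wt).e β * Matrix.diagonal (fun j => ((wt j i : ℤ) : ℂ)) =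
        ((d.root β i : ℤ) : ℂ) • (mkRD hG d p wt).e β := by
      have h3 : (p⁻¹).1 * p.1 = 1 := by rw [← Units.val_mul, inv_mul_cancel, Units.val_one]
      have h4 : (p⁻¹).1 * (d.h i : Matrix (Fin m) (Fin m) ℂ) * p.1 = Matrix.diagonal (fun j => ((wt j i : ℤ) : ℂ)) := by
        rw [hp i]
        exact cjB_cancel p _
      have h6 : p.1 * (p⁻¹).1 = 1 := by rw [← Units.val_mul, mul_inv_cancel, Units.val_one]
      rw [← h4]
      show (p⁻¹).1 * (d.h i : Matrix (Fin m) (Fin m) ℂ) * p.1 * ((p⁻¹).1 * (d.e β : Matrix (Fin m) (Fin m) ℂ) * p.1) -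
        (p⁻¹).1 * (d.e β : Matrix (Fin m) (Fin m) ℂ) * p.1 * ((p⁻¹).1 * (d.h i : Matrix (Fin m) (Fin m) ℂ) * p.1) =
        ((d.root β i : ℤ) : ℂ) • ((p⁻¹).1 * (d.e β : Matrix (Fin m) (Fin m) ℂ) * p.1)
      have h5 : ∀ A B : Matrix (Fin m) (Fin m) ℂ, (p⁻¹).1 * A * p.1 * ((p⁻¹).1 * B * p.1) = (p⁻¹).1 * (A * B) * p.1 := by
        intro A B
        calc (p⁻¹).1 * A * p.1 * ((p⁻¹).1 * B * p.1) = (p⁻¹).1 * A * (p.1 * (p⁻¹).1) * B * p.1 := by simp only [Matrix.mul_assoc]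
          _ = _ := by rw [h6, Matrix.mul_one]; simp only [Matrix.mul_assoc]
      rw [h5, h5, ← Matrix.sub_mul, ← Matrix.mul_sub, h1, Matrix.mul_smul, Matrix.smul_mul]
    have h3 := congrFun (congrFun h2 a) b
    rw [Matrix.sub_apply, Matrix.diagonal_mul, Matrix.mul_diagonal, Matrix.smul_apply, smul_eq_mul] at h3
    have h4 : (((wt a i : ℤ) : ℂ) - ((wt b i : ℤ) : ℂ) - ((d.root β i : ℤ) : ℂ)) * (mkRD hG d p wt).e β a b = 0 := by
      linear_combination h3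
    have h5 := (mul_eq_zero.1 h4).resolve_right hab
    have h6 : (wt a i : ℂ) - (wt b i : ℂ) = (d.root β i : ℂ) := sub_eq_zero.1 h5
    show wt a i - wt b i = d.root β i
    exact_mod_cast h6
  root_inj := hd.comb.root_inj
  root_ne := hd.comb.root_ne
  neg_neg := hd.comb.neg_neg
  root_neg := hd.comb.root_neg
  coroot_neg := hd.comb.coroot_neg
  bracket := by
    intro β
    have h1 : (d.e β : Matrix (Fin m) (Fin m) ℂ) * (d.e (d.neg β) : Matrix (Fin m) (Fin m) ℂ) - (d.e (d.neg β) : Matrix (Fin m) (Fin m) ℂ) * (d.e β : Matrix (Fin m) (Fin m) ℂ) =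
        ((∑ i, (d.coroot β i : ℂ) • d.h i : lieA hG.closed) : Matrix (Fin m) (Fin m) ℂ) := congrArg Subtype.val (hd.br β)
    rw [AddSubmonoidClass.coe_finsetSum] at h1
    rw [mkRD_H hG d p wt hp]
    show (p⁻¹).1 * (d.e β : Matrix (Fin m) (Fin m) ℂ) * p.1 * ((p⁻¹).1 * (d.e (d.neg β) : Matrix (Fin m) (Fin m) ℂ) * p.1) -
        (p⁻¹).1 * (d.e (d.neg β) : Matrix (Fin m) (Fin m) ℂ) * p.1 * ((p⁻¹).1 * (d.e β : Matrix (Fin m) (Fin m) ℂ) * p.1) = _
    have h6 : p.1 * (p⁻¹).1 = 1 := by rw [← Units.val_mul, mul_inv_cancel, Units.val_one]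
    have h5 : ∀ A B : Matrix (Fin m) (Fin m) ℂ, (p⁻¹).1 * A * p.1 * ((p⁻¹).1 * B * p.1) = (p⁻¹).1 * (A * B) * p.1 := by
      intro A B
      calc (p⁻¹).1 * A * p.1 * ((p⁻¹).1 * B * p.1) = (p⁻¹).1 * A * (p.1 * (p⁻¹).1) * B * p.1 := by simp only [Matrix.mul_assoc]
        _ = _ := by rw [h6, Matrix.mul_one]; simp only [Matrix.mul_assoc]
    rw [h5, h5, ← Matrix.sub_mul, ← Matrix.mul_sub, h1]
    rfl
  two := hd.comb.two
  refl := hd.comb.refl
  pos := hd.comb.pos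
  simple_coroot := hd.comb.simple_coroot
  simple_diff := hd.comb.simple_diff
  ht_sum := hd.comb.ht_sum
  ht_simple := hd.comb.ht_simple
  ht_neg := hd.comb.ht_neg
  ht_ne := hd.comb.ht_ne
  ht_lin := hd.comb.ht_lin
  gen := by
    apply le_antisymm
    · refine (Subgroup.closure_le _).2 ?_
      rintro w ⟨β, hw⟩
      exact hd.comb.gen β w hw
    · refine Subgroup.closure_mono ?_
      rintro w ⟨i, hw⟩
      exact ⟨d.simple i, hw⟩
  irr := hd.comb.irr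
  rank := by
    intro X hX
    have hcl : ZClosed (G.map (cj p⁻¹).toMonoidHom) := hG.closed.cj p⁻¹
    let Φ : (Fin r → ℂ) →ₗ[ℂ] Matrix (Fin m) (Fin m) ℂ :=
      { toFun := fun t => (mkRD hG d p wt).H t
        map_add' := by
          intro s t
          unfold RD.H
          rw [Matrix.diagonal_add]
          congr 1
          funext j
          simp only [Pi.add_apply, mul_add, Finset.sum_add_distrib]
        map_smul' := by
          intro c t
          unfold RD.H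
          rw [RingHom.id_apply, ← Matrix.diagonal_smul]
          congr 1
          funext j
          simp only [Pi.smul_apply, smul_eq_mul, Finset.mul_sum]
          refine Finset.sum_congr rfl fun i _ => ?_
          ring }
    have hinj : Function.Injective Φ := by
      rw [injective_iff_map_eq_zero]
      intro t ht
      refine (mkRD_indep hG d hd p wt hp t 0 ?_).1
      have h1 : (mkRD hG d p wt).H t = 0 := ht
      rw [h1]
      simp
    have h1 : Module.finrank ℂ (LinearMap.range Φ) = r := by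
      rw [LinearMap.finrank_range_of_inj hinj]
      simp
    have h2 := finrank_le_gker hcl (LinearMap.range Φ) (by
      rintro _ ⟨t, rfl⟩
      rw [mkRD_mem_iff hG d hd p wt hp]
      exact ⟨t, 0, by simp; rfl⟩) 1 (by
      rintro _ ⟨t, rfl⟩
      refine ⟨fun j => ∑ i, (((mkRD hG d p wt).wt j i : ℤ) : ℂ) * t i, ?_⟩
      rw [inv_one, Units.val_one, Matrix.one_mul, Matrix.mul_one]
      rfl) X hX
    rw [h1] at h2
    exact h2

end WCn
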