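import Pool.Agent.Lib.MP_c2b80f_alE.MtG
import Pool.Agent.Lib.MP_c2b80f_alE.LrC

/-!
# Existence of a root datum (job MtH)
-/

open Matrix

namespace WCn

attribute [local instance 100] LieRing.ofAssociativeRing

variable {m : ℕ}

/-- Every almost simple group is conjugate in `GL_m(ℂ)` to one with a root datum in coordinates. Proof: `lieA_isKilling`, `lieA_isSimple`, `exists_lrd`, `exists_weights`, `isRD_of_lrd`, `AlmostSimple.cj`. -/
theorem AlmostSimple.exists_isRD {G : Subgroup (SLC m)} (hG : AlmostSimple G) :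
    ∃ (P : GL (Fin m) ℂ) (r : ℕ) (ι : Type) (_ : Fintype ι) (_ : DecidableEq ι) (D : RD m r ι),
      AlmostSimple (G.map (WCn.cj P).toMonoidHom) ∧ IsRD (G.map (WCn.cj P).toMonoidHom) D := by
  have h1 := lieA_isKilling hG
  have h2 := lieA_isSimple hG
  obtain ⟨r, ι, hF, hE, d, hd⟩ := exists_lrd (lieA hG.closed)
  obtain ⟨p, wt, hp⟩ := exists_weights hG d hd
  exact ⟨p⁻¹, r, ι, hF, hE, mkRD hG d p wt, hG.cj p⁻¹, isRD_of_lrd hG d hd p wt hp⟩

/-- There is a regular element of the Cartan subalgebra. Proof. Choose `t` with `D.rt β t ≠ 0` for all `β` (finitely many nonzero linear forms, `root_ne`). `ad (H t)` maps `H t'` to `0` and `e β` to `D.rt β t • e β` (by `supp`). An element `H t' + ∑ x β • e β` of the generalised kernel has `x = 0`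
(`(D.rt β t) ^ k * x β = 0`), so the generalised kernel on the Lie algebra is `{H t'}`, of dimension at most `r`. -/
theorem IsRD.exists_gker_le {r : ℕ} {ι : Type} [Fintype ι] [DecidableEq ι] {G : Subgroup (SLC m)} {D : RD m r ι} (hD : IsRD G D) :
    ∃ t : Fin r → ℂ, gker G (D.H t) ≤ r := by
  classical
  -- a regular element
  have hform : ∀ β, ∃ f : (Fin r → ℂ) →ₗ[ℂ] ℂ, ∀ t, f t = D.rt β t := by
    intro β
    refine ⟨{ toFun := fun t => D.rt β t, map_add' := ?_, map_smul' := ?_ }, fun t => rfl⟩
    · intro s t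
      unfold RD.rt
      simp only [Pi.add_apply, mul_add, Finset.sum_add_distrib]
    · intro c t
      unfold RD.rt
      rw [RingHom.id_apply, smul_eq_mul, Finset.mul_sum]
      refine Finset.sum_congr rfl fun i _ => ?_
      rw [Pi.smul_apply, smul_eq_mul]
      ring
  choose f hf using hform
  obtain ⟨t, -, ht⟩ := Module.Dual.exists_forall_mem_ne_zero_of_forall_exists (⊤ : Submodule ℂ (Fin r → ℂ)) f (by
    intro β
    obtain ⟨i, hi⟩ : ∃ i, D.root β i ≠ 0 := by
      by_contra hcon
      push Not at hcon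
      exact hD.root_ne β (funext hcon)
    refine ⟨Pi.single i 1, Submodule.mem_top, ?_⟩
    rw [hf]
    unfold RD.rt
    rw [Finset.sum_eq_single i]
    · rw [Pi.single_eq_same, mul_one]
      exact_mod_cast hi
    · intro j _ hj
      rw [Pi.single_eq_of_ne hj, mul_zero]
    · intro h
      exact absurd (Finset.mem_univ i) h)
  have hreg : ∀ β, D.rt β t ≠ 0 := fun β => by
    rw [← hf]
    exact ht β
  refine ⟨t, ?_⟩
  -- the action on root vectors
  have hHH : ∀ s : Fin r → ℂ, D.H t * D.H s - D.H s * D.H t = 0 := by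
    intro s
    unfold RD.H
    rw [Matrix.diagonal_mul_diagonal, Matrix.diagonal_mul_diagonal, sub_eq_zero]
    congr 1
    funext j
    ring
  have hHe : ∀ β, D.H t * D.e β - D.e β * D.H t = D.rt β t • D.e β := by
    intro β
    ext a b
    unfold RD.H
    rw [Matrix.sub_apply, Matrix.diagonal_mul, Matrix.mul_diagonal, Matrix.smul_apply, smul_eq_mul]
    by_cases hab : D.e β a b = 0
    · rw [hab]
      simp
    · have h1 := hD.supp β a b hab
      have h2 : (∑ i, (D.wt a i : ℂ) * t i) - ∑ i, (D.wt b i : ℂ) * t i = D.rt β t := by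
        unfold RD.rt
        rw [← Finset.sum_sub_distrib]
        refine Finset.sum_congr rfl fun i _ => ?_
        rw [← h1 i]
        push_cast
        ring
      rw [← h2]
      ring
  have had : ∀ (s : Fin r → ℂ) (x : ι → ℂ), adM (D.H t) (D.H s + ∑ β, x β • D.e β) = D.H 0 + ∑ β, (D.rt β t * x β) • D.e β := by
    intro s x
    have h0 : D.H (0 : Fin r → ℂ) = 0 := by
      unfold RD.H
      simp
    have h1 : adM (D.H t) (D.H s) = 0 := hHH s
    have h2 : ∀ β, adM (D.H t) (D.e β) = D.rt β t • D.e β := hHe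
    rw [map_add, h1, h0, map_sum]
    congr 1
    refine Finset.sum_congr rfl fun β _ => ?_
    rw [map_smul, h2, smul_smul, mul_comm]
  have hpow : ∀ (k : ℕ) (s : Fin r → ℂ) (x : ι → ℂ), ((adM (D.H t)) ^ (k + 1)) (D.H s + ∑ β, x β • D.e β) =
      D.H 0 + ∑ β, (D.rt β t ^ (k + 1) * x β) • D.e β := by
    intro k
    induction k with
    | zero =>
      intro s x
      rw [zero_add, pow_one, had]
      simp only [pow_one]
    | succ k ih =>
      intro s x
      rw [pow_succ, Module.End.mul_apply, had, ih]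
      congr 1
      refine Finset.sum_congr rfl fun β _ => ?_
      congr 1
      ring
  let Φ : (Fin r → ℂ) →ₗ[ℂ] Matrix (Fin m) (Fin m) ℂ :=
    { toFun := fun t => D.H t
      map_add' := by
        intro s t
        unfold RD.H
        rw [Matrix.diagonal_add]
        congr 1
        funext j
        simp only [Pi.add_apply, mul_add, Finset.sum_add_distrib]
      map_smul' := by
        intro c t
        unfold RD.H
        rw [RingHom.id_apply, ← Matrix.diagonal_smul]
        congr 1
        funext j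
        simp only [Pi.smul_apply, smul_eq_mul, Finset.mul_sum]
        refine Finset.sum_congr rfl fun i _ => ?_
        ring }
  have hle : (adM (D.H t)).maxGenEigenspace 0 ⊓ tanG G ≤ LinearMap.range Φ := by
    rintro X ⟨hX1, hX2⟩
    obtain ⟨s, x, hX⟩ := (hD.mem_iff X).1 hX2
    obtain ⟨k, hk⟩ := (Module.End.mem_maxGenEigenspace _ _ _).1 hX1
    rw [zero_smul, sub_zero] at hk
    have h1 : ((adM (D.H t)) ^ (k + 1)) X = 0 := by
      rw [pow_succ', Module.End.mul_apply, hk, map_zero]
    rw [hX, hpow] at h1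
    have h2 := (hD.indep 0 (fun β => D.rt β t ^ (k + 1) * x β) h1).2
    have h3 : x = 0 := by
      funext β
      have h4 := congrFun h2 β
      exact (mul_eq_zero.1 h4).resolve_left (pow_ne_zero _ (hreg β))
    refine ⟨s, ?_⟩
    rw [hX, h3]
    simp
    rfl
  unfold gker
  calc Module.finrank ℂ ↥((adM (D.H t)).maxGenEigenspace 0 ⊓ tanG G) ≤ Module.finrank ℂ (LinearMap.range Φ) := Submodule.finrank_mono hle
    _ ≤ Module.finrank ℂ (Fin r → ℂ) := LinearMap.finrank_range_le Φ
    _ = r := by simp

end WCn
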