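import Pool.Agent.Lib.MP_c2b80f_alE.UDefs

/-!
# Exponentials and generalised kernels (job NwA)

`adM X Y = X Y - Y X`, `AdM g Y = g Y g⁻¹` (both `rfl`).
-/

open Matrix

namespace WCn

variable {m : ℕ}

theorem adM_apply (X Y : Matrix (Fin m) (Fin m) ℂ) : adM X Y = X * Y - Y * X := rfl

theorem AdM_apply (g : SLC m) (Y : Matrix (Fin m) (Fin m) ℂ) : AdM g Y = g.1 * Y * (g⁻¹).1 := rfl

section NwAode

variable {𝔸 : Type*} [NormedRing 𝔸] [NormedAlgebra ℂ 𝔸] [CompleteSpace 𝔸]

private theorem NwA_ode (X : 𝔸) (d : ℕ → 𝔸) (hd : ∀ k, d (k + 1) = X * d k - d k * X) (N : ℕ) (hN : d (N + 1) = 0) :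
    NormedSpace.exp X * d 0 * NormedSpace.exp (-X) = ∑ k ∈ Finset.range (N + 1), ((k.factorial : ℂ))⁻¹ • d k := by
  have hQ := NormedAlgebra.restrictScalars ℚ ℂ 𝔸
  obtain ⟨p, hp⟩ : ∃ p : ℂ → 𝔸, p = fun s => ∑ k ∈ Finset.range (N + 1), (s ^ k * ((k.factorial : ℂ))⁻¹) • d k := ⟨_, rfl⟩
  have hp1 : ∀ s, HasDerivAt p (X * p s - p s * X) s := by
    intro s
    have h1 : HasDerivAt p (∑ k ∈ Finset.range (N + 1), (((k : ℂ) * s ^ (k - 1)) * ((k.factorial : ℂ))⁻¹) • d k) s := by
      rw [hp]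
      exact HasDerivAt.fun_sum fun k _ => ((hasDerivAt_pow k s).mul_const _).smul_const (d k)
    have h2 : (∑ k ∈ Finset.range (N + 1), (((k : ℂ) * s ^ (k - 1)) * ((k.factorial : ℂ))⁻¹) • d k) =
        ∑ k ∈ Finset.range N, (s ^ k * ((k.factorial : ℂ))⁻¹) • d (k + 1) := by
      rw [Finset.sum_range_succ', Nat.cast_zero, zero_mul, zero_mul, zero_smul, add_zero]
      refine Finset.sum_congr rfl fun k _ => ?_
      have h3 : ((k + 1 : ℕ) : ℂ) ≠ 0 := Nat.cast_ne_zero.2 (Nat.succ_ne_zero k)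
      have h4 : ((k.factorial : ℕ) : ℂ) ≠ 0 := Nat.cast_ne_zero.2 (Nat.factorial_ne_zero k)
      have h5 : ((k + 1 : ℕ) : ℂ) * s ^ (k + 1 - 1) * (((k + 1).factorial : ℕ) : ℂ)⁻¹ = s ^ k * ((k.factorial : ℕ) : ℂ)⁻¹ := by
        rw [Nat.add_sub_cancel, Nat.factorial_succ, Nat.cast_mul]
        field_simp
      rw [h5]
    have h6 : X * p s - p s * X = ∑ k ∈ Finset.range N, (s ^ k * ((k.factorial : ℂ))⁻¹) • d (k + 1) := by
      have h7 : X * p s - p s * X = ∑ k ∈ Finset.range (N + 1), (s ^ k * ((k.factorial : ℂ))⁻¹) • d (k + 1) := by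
        rw [hp]
        simp only
        rw [Finset.mul_sum, Finset.sum_mul, ← Finset.sum_sub_distrib]
        refine Finset.sum_congr rfl fun k _ => ?_
        rw [hd k, smul_sub, mul_smul_comm, smul_mul_assoc]
      rw [h7, Finset.sum_range_succ, hN, smul_zero, add_zero]
    rw [h6, ← h2]
    exact h1
  have hF : ∀ s, HasDerivAt (fun s : ℂ => NormedSpace.exp (s • (-X)) * p s * NormedSpace.exp (s • X)) 0 s := by
    intro s
    have h1 := hasDerivAt_exp_smul_const (𝕂 := ℂ) (-X) s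
    have h2 := hasDerivAt_exp_smul_const' (𝕂 := ℂ) X s
    have h3 := (h1.fun_mul (hp1 s)).fun_mul h2
    have h4 : (NormedSpace.exp (s • (-X)) * (-X) * p s + NormedSpace.exp (s • (-X)) * (X * p s - p s * X)) *
        NormedSpace.exp (s • X) + NormedSpace.exp (s • (-X)) * p s * (X * NormedSpace.exp (s • X)) = 0 := by
      noncomm_ring
    rw [h4] at h3
    exact h3
  have hc := is_const_of_deriv_eq_zero (𝕜 := ℂ) (f := fun s : ℂ => NormedSpace.exp (s • (-X)) * p s * NormedSpace.exp (s • X))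
    (fun s => (hF s).differentiableAt) (fun s => (hF s).deriv) 1 0
  have h0 : p 0 = d 0 := by
    rw [hp]
    simp only
    rw [Finset.sum_range_succ', Finset.sum_eq_zero, zero_add, pow_zero, Nat.factorial_zero, Nat.cast_one, inv_one,
      one_mul, one_smul]
    intro k _
    rw [zero_pow (Nat.succ_ne_zero k), zero_mul, zero_smul]
  have h1 : p 1 = ∑ k ∈ Finset.range (N + 1), ((k.factorial : ℂ))⁻¹ • d k := by
    rw [hp]
    simp only [one_pow, one_mul]
  have hc' : NormedSpace.exp (-X) * p 1 * NormedSpace.exp X = d 0 := by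
    have h2 : NormedSpace.exp ((1 : ℂ) • (-X)) * p 1 * NormedSpace.exp ((1 : ℂ) • X) =
      NormedSpace.exp ((0 : ℂ) • (-X)) * p 0 * NormedSpace.exp ((0 : ℂ) • X) := hc
    rw [one_smul, one_smul, zero_smul, zero_smul, NormedSpace.exp_zero, one_mul, mul_one, h0] at h2
    exact h2
  have he : NormedSpace.exp X * NormedSpace.exp (-X) = 1 := by
    rw [← NormedSpace.exp_add_of_commute (Commute.neg_right (Commute.refl X)), add_neg_cancel, NormedSpace.exp_zero]
  rw [← h1, ← hc']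
  calc NormedSpace.exp X * (NormedSpace.exp (-X) * p 1 * NormedSpace.exp X) * NormedSpace.exp (-X)
      = (NormedSpace.exp X * NormedSpace.exp (-X)) * p 1 * (NormedSpace.exp X * NormedSpace.exp (-X)) := by
        noncomm_ring
    _ = p 1 := by rw [he, one_mul, mul_one]

private theorem NwA_neg (X : 𝔸) : NormedSpace.exp X * NormedSpace.exp (-X) = 1 := by
  have hQ := NormedAlgebra.restrictScalars ℚ ℂ 𝔸
  rw [← NormedSpace.exp_add_of_commute (Commute.neg_right (Commute.refl X)), add_neg_cancel, NormedSpace.exp_zero]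

end NwAode

section NwAmat

attribute [local instance] Matrix.linftyOpNormedRing Matrix.linftyOpNormedAlgebra
  Matrix.linftyOpNormedAddCommGroup Matrix.linftyOpNormedSpace

private theorem NwA_ode' (X : Matrix (Fin m) (Fin m) ℂ) (d : ℕ → Matrix (Fin m) (Fin m) ℂ)
    (hd : ∀ k, d (k + 1) = X * d k - d k * X) (N : ℕ) (hN : d (N + 1) = 0) :
    NormedSpace.exp X * d 0 * NormedSpace.exp (-X) = ∑ k ∈ Finset.range (N + 1), ((k.factorial : ℂ))⁻¹ • d k :=
  NwA_ode X d hd N hN

private theorem NwA_neg' (X : Matrix (Fin m) (Fin m) ℂ) : NormedSpace.exp X * NormedSpace.exp (-X) = 1 :=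
  NwA_neg X

end NwAmat

/-- Proof. `(g⁻¹).1 = exp (-X)` (the inverse of `exp X` is `exp (-X)`, `NormedSpace.exp_neg` or `Matrix.exp_neg`; `g.1 * (g⁻¹).1 = 1`). Let `δ = adM X` and `p(s) = ∑_{k<N} (s^k / k!) δ^k Y` for real `s`. Since `δ^N Y = 0`,
`p'(s) = δ (p(s)) = X p(s) - p(s) X` (shift the index, `Finset.sum_range_succ'`). So the function `F(s) = exp(-s X) p(s) exp(s X)` has derivative
`exp(-sX) (-X p + p' + p X) exp(sX) = 0` (`hasDerivAt_exp_smul_const`, product rule; use the local normed algebra structure on matrices as in `Pool.Agent.Lib.MP_c2b80f_alC.CartA`/`CartT`,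
for instance `open scoped Matrix.Norms.Operator` or `attribute [local instance] Matrix.linftyOpNormedRing Matrix.linftyOpNormedAlgebra`), so it is constant (`is_const_of_deriv_eq_zero`):
`F(1) = F(0) = Y`, i.e. `p(1) = exp(X) Y exp(-X)`. -/
theorem AdM_exp_of_nil {X Y : Matrix (Fin m) (Fin m) ℂ} {g : SLC m} (hg : g.1 = NormedSpace.exp X) (N : ℕ) (hN : ((adM X) ^ N) Y = 0) :
    AdM g Y = ∑ k ∈ Finset.range N, ((k.factorial : ℂ))⁻¹ • ((adM X) ^ k) Y := by
  cases N with
  | zero =>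
    have h1 : Y = 0 := hN
    rw [h1, map_zero, Finset.range_zero, Finset.sum_empty]
  | succ N =>
    have h1 := NwA_ode' X (fun k => ((adM X) ^ k) Y) (by
      intro k
      rw [pow_succ', Module.End.mul_apply, adM_apply]) N hN
    rw [← h1, pow_zero, Module.End.one_apply, AdM_apply, hg]
    have h2 : (g⁻¹).1 * g.1 = 1 := by
      have h3 := congrArg Subtype.val (inv_mul_cancel g)
      exact h3
    rw [hg] at h2
    have h4 : (g⁻¹).1 = NormedSpace.exp (-X) := by
      rw [← Matrix.mul_one (g⁻¹).1, ← NwA_neg' X, ← Matrix.mul_assoc, h2, Matrix.one_mul]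
    rw [h4]

/-- Proof. Let `δ = adM X` and `δ^N Y = 0` (`Module.End.mem_maxGenEigenspace`; `N ≥ 1` without loss of generality). Let `K = LinearMap.ker (δ ^ N)`, a subspace stable under `δ`. By `AdM_exp_of_nil` every `Z ∈ K` satisfies
`(AdM g - 1) Z = δ (u Z)`, with `u = ∑_{k<N-1} ((k+1)!)⁻¹ • δ^k` (a polynomial in `δ`, it commutes with `δ` and maps `K` to `K`). By induction on `j`: `(AdM g - 1)^j Z = δ^j (u^j Z)` for `Z ∈ K`.
So `(AdM g - 1)^N Y = u^N (δ^N Y) = 0`. -/
theorem maxGen_exp {X : Matrix (Fin m) (Fin m) ℂ} {g : SLC m} (hg : g.1 = NormedSpace.exp X) :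
    (adM X).maxGenEigenspace 0 ≤ (AdM g - 1).maxGenEigenspace 0 := by
  have key : ∀ (j : ℕ) (Z : Matrix (Fin m) (Fin m) ℂ), ((adM X) ^ j) Z = 0 → ((AdM g - 1) ^ j) Z = 0 := by
    intro j
    induction j with
    | zero =>
      intro Z hZ
      exact hZ
    | succ j ih =>
      intro Z hZ
      rw [pow_succ, Module.End.mul_apply]
      refine ih _ ?_
      rw [LinearMap.sub_apply, Module.End.one_apply, AdM_exp_of_nil hg (j + 1) hZ, Finset.sum_range_succ', pow_zero,
        Module.End.one_apply, Nat.factorial_zero, Nat.cast_one, inv_one, one_smul, add_sub_cancel_right, map_sum]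
      refine Finset.sum_eq_zero fun k _ => ?_
      rw [map_smul, ← Module.End.mul_apply, ← pow_add]
      have h1 : j + (k + 1) = k + (j + 1) := by omega
      rw [h1, pow_add, Module.End.mul_apply, hZ, map_zero, smul_zero]
  intro Y hY
  rw [Module.End.mem_maxGenEigenspace] at hY ⊢
  obtain ⟨k, hk⟩ := hY
  refine ⟨k, ?_⟩
  rw [zero_smul, sub_zero] at hk ⊢
  exact key k Y hk

end WCn
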