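import Pool.Agent.Lib.MP_c2b80f_alE.UTan
import Pool.Agent.Lib.MP_c2b80f_alE.NwA
import Pool.Agent.Lib.MP_c2b80f_alC.AdB
import Mathlib.LinearAlgebra.Eigenspace.Zero

/-!
# The multiplicity of the eigenvalue one (job NwB)
-/

open Matrix

namespace WCn

variable {m : ℕ}

private theorem NwB_le_iff (p : Polynomial ℂ) (hp : p ≠ 0) (r : ℕ) :
    (∀ k : Fin r, p.coeff k = 0) ↔ r ≤ p.natTrailingDegree := by
  constructor
  · intro h
    by_contra hlt
    have hlt' : p.natTrailingDegree < r := not_le.1 hlt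
    have h1 := h ⟨p.natTrailingDegree, hlt'⟩
    exact (Polynomial.coeff_natTrailingDegree_ne_zero.2 hp) h1
  · intro h k
    exact Polynomial.coeff_eq_zero_of_lt_natTrailingDegree (lt_of_lt_of_le k.2 h)

private theorem NwB_finrank {V : Type*} [AddCommGroup V] [Module ℂ V] [FiniteDimensional ℂ V]
    (f : Module.End ℂ V) (p : Submodule ℂ V) (hf : ∀ x ∈ p, f x ∈ p) :
    Module.finrank ℂ ↥(f.maxGenEigenspace 0 ⊓ p) = (f.restrict hf).charpoly.natTrailingDegree := by
  rw [← LinearMap.finrank_maxGenEigenspace_zero_eq, inf_comm]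
  have h1 : p ⊓ f.maxGenEigenspace 0 =
      (Module.End.maxGenEigenspace (f.restrict hf) 0).map p.subtype :=
    Submodule.inf_genEigenspace f p hf
  rw [h1]
  exact Submodule.finrank_map_subtype_eq p _

/-- Polynomial form of a lower bound for the multiplicity of the eigenvalue one of `Ad g` on an invariant subspace `𝔤`.
Proof. Let `b : Fin N → 𝔤` be a basis of `𝔤` (`Module.finBasis`, `N = finrank 𝔤`), and `π : Matrix → 𝔤` a linear projection (`Submodule.exists_isCompl` / `exists_leftInverse` of `𝔤.subtype`). For `g` with `Ad g 𝔤 ≤ 𝔤`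
let `φ_g : 𝔤 → 𝔤` be the restriction of `AdM g - 1`. Its matrix in the basis `b` has entries `ℓ_ij (AdM g) - δ_ij`, `ℓ_ij T = (b.repr (π (T (b j)))) i`, a linear functional of `T`; by `exists_poly_of_functional` (file `alC/AdB`; `Ad g = AdM g`
by `rfl`) there are polynomials `M_ij` with `evM g.1 M_ij = ℓ_ij (AdM g)`. Let `M` be the matrix `(M_ij) - 1` over the polynomial ring and `P k = M.charpoly.coeff k`. Then `evM g.1 (P k) = (charpoly φ_g).coeff k` (`Matrix.charpoly_map`,
`LinearMap.charpoly_toMatrix`). Finally `(AdM g - 1).maxGenEigenspace 0 ⊓ 𝔤` has the same dimension as `φ_g.maxGenEigenspace 0` (it is the image under `𝔤.subtype`: `Module.End.mem_maxGenEigenspace`, `LinearMap.restrict` powers; a direct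
proof with `Submodule.map` and `Submodule.finrank_map_subtype_eq` or `LinearEquiv.finrank_eq`), which is `(charpoly φ_g).natTrailingDegree` (`LinearMap.finrank_maxGenEigenspace_zero_eq`); and `r ≤ natTrailingDegree` iff the coefficients
`k < r` vanish (`charpoly` is not zero: `Polynomial.le_natTrailingDegree` and `Polynomial.coeff_eq_zero_of_lt_natTrailingDegree`). -/
theorem exists_gen_poly (𝔤 : Submodule ℂ (Matrix (Fin m) (Fin m) ℂ)) (r : ℕ) :
    ∃ P : Fin r → MvPolynomial (Fin m × Fin m) ℂ, ∀ g : SLC m, (∀ Y ∈ 𝔤, AdM g Y ∈ 𝔤) →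
      ((∀ k, evM g.1 (P k) = 0) ↔ r ≤ Module.finrank ℂ ↥((AdM g - 1).maxGenEigenspace 0 ⊓ 𝔤)) := by
  classical
  let b := Module.finBasis ℂ 𝔤
  obtain ⟨π, hπ⟩ := 𝔤.subtype.exists_leftInverse_of_injective 𝔤.ker_subtype
  have hπ' : ∀ y : 𝔤, π y.1 = y := fun y => LinearMap.congr_fun hπ y
  have hℓ : ∀ i j, ∃ Q : MvPolynomial (Fin m × Fin m) ℂ, ∀ g : SLC m,
      b.repr (π (AdM g (b j).1)) i = evM g.1 Q := by
    intro i j
    obtain ⟨Q, hQ⟩ := exists_poly_of_functional ((b.coord i) ∘ₗ π ∘ₗ (LinearMap.applyₗ (b j).1))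
    exact ⟨Q, fun g => hQ g⟩
  choose Q hQ using hℓ
  refine ⟨fun k => (Matrix.of Q - 1).charpoly.coeff k, fun g hg => ?_⟩
  have hf : ∀ x ∈ 𝔤, (AdM g - 1) x ∈ 𝔤 := by
    intro x hx
    have h1 : (AdM g - 1) x = AdM g x - x := rfl
    rw [h1]
    exact 𝔤.sub_mem (hg x hx) hx
  rw [NwB_finrank (AdM g - 1) 𝔤 hf]
  set φ : 𝔤 →ₗ[ℂ] 𝔤 := (AdM g - 1).restrict hf with hφ
  let ev : MvPolynomial (Fin m × Fin m) ℂ →+* ℂ :=
    MvPolynomial.eval (fun ij : Fin m × Fin m => g.1 ij.1 ij.2)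
  have hM : (Matrix.of Q - 1).map ev = LinearMap.toMatrix b b φ := by
    ext i j
    rw [Matrix.map_apply, Matrix.sub_apply, Matrix.of_apply, map_sub, LinearMap.toMatrix_apply]
    have h1 : ev (Q i j) = b.repr (π (AdM g (b j).1)) i := (hQ i j g).symm
    have h2 : φ (b j) = π (AdM g (b j).1) - b j := by
      have h3 : φ (b j) = ⟨AdM g (b j).1, hg _ (b j).2⟩ - b j := by
        apply Subtype.ext
        rfl
      rw [h3]
      congr 1
      exact (hπ' ⟨AdM g (b j).1, hg _ (b j).2⟩).symm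
    rw [h1, h2, map_sub, Finsupp.sub_apply, b.repr_self, Finsupp.single_apply]
    congr 1
    rw [Matrix.one_apply]
    by_cases hij : i = j
    · rw [if_pos hij, if_pos hij.symm, map_one]
    · rw [if_neg hij, if_neg (fun h => hij h.symm), map_zero]
  have hcp : φ.charpoly = (Matrix.of Q - 1).charpoly.map ev := by
    rw [← Matrix.charpoly_map, hM, LinearMap.charpoly_toMatrix]
  have hk : ∀ k : Fin r, evM g.1 ((Matrix.of Q - 1).charpoly.coeff k) = φ.charpoly.coeff k := by
    intro k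
    rw [hcp, Polynomial.coeff_map]
    rfl
  rw [← NwB_le_iff φ.charpoly (LinearMap.charpoly_monic φ).ne_zero r]
  constructor
  · intro h k
    rw [← hk k]
    exact h k
  · intro h k
    rw [hk k]
    exact h k

/-- Proof. Take `P` from `exists_gen_poly (tanG G) r` (`tanG_conj`). For `g` near `1` in `G` we have `g = exp X` with `X ∈ tanG G` (`near_exp`), and by `IsRD.rank` and `maxGen_exp` (`inf_le_inf_right`, `Submodule.finrank_mono`)
`evM g.1 (P k) = 0`. By `vanI_of_near` this is true for all `g ∈ G`. -/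
theorem mult_ge {r : ℕ} {ι : Type} [Fintype ι] [DecidableEq ι] {G : Subgroup (SLC m)} {D : RD m r ι} (hG : AlmostSimple G) (hD : IsRD G D)
    {g : SLC m} (hg : g ∈ G) : r ≤ Module.finrank ℂ ↥((AdM g - 1).maxGenEigenspace 0 ⊓ tanG G) := by
  obtain ⟨P, hP⟩ := exists_gen_poly (tanG G) r
  have hinv : ∀ h ∈ G, ∀ Y ∈ tanG G, AdM h Y ∈ tanG G := fun h hh Y hY => tanG_conj hY hh
  obtain ⟨ε, hε, hexp⟩ := near_exp hG.closed
  have hvan : ∀ k, P k ∈ vanI G := by
    intro k
    refine vanI_of_near hG.closed hG.conn (P k) ε hε (fun h hh hn => ?_)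
    obtain ⟨X, hX, hhX⟩ := hexp h hh hn
    refine (hP h (hinv h hh)).2 ?_ k
    refine (hD.rank X hX).trans ?_
    exact Submodule.finrank_mono (inf_le_inf_right _ (maxGen_exp hhX))
  exact (hP g (hinv g hg)).1 (fun k => hvan k g hg)

end WCn
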