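import Pool.Agent.Lib.MP_c2b80f_alE.NwA
import Pool.Agent.Lib.MP_c2b80f_alE.NwW

/-!
# The Weyl group is realised in the normaliser (job NwD)
-/

open Matrix

namespace WCn

variable {m r : ℕ} {ι : Type} [Fintype ι] [DecidableEq ι] {G : Subgroup (SLC m)} {D : RD m r ι}

private theorem NwD_three {X Y A B : Matrix (Fin m) (Fin m) ℂ} {g : SLC m} (hg : g.1 = NormedSpace.exp X)
    (h1 : X * Y - Y * X = A) (h2 : X * A - A * X = B) (h3 : X * B - B * X = 0) :
    g.1 * Y * (g⁻¹).1 = Y + A + (2 : ℂ)⁻¹ • B := by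
  have e1 : (adM X) Y = A := h1
  have e2 : (adM X) A = B := h2
  have e3 : (adM X) B = 0 := h3
  have hN : ((adM X) ^ 3) Y = 0 := by
    rw [pow_succ, pow_succ, pow_one, Module.End.mul_apply, Module.End.mul_apply, e1, e2, e3]
  have h := AdM_exp_of_nil (Y := Y) hg 3 hN
  rw [AdM_apply, Finset.sum_range_succ, Finset.sum_range_succ, Finset.sum_range_one] at h
  rw [h, pow_zero, pow_one, pow_succ, pow_one, Module.End.mul_apply, e1, e2]
  simp only [Module.End.one_apply, Nat.factorial_zero, Nat.factorial_one, Nat.factorial_two, Nat.cast_one, inv_one, one_smul, Nat.cast_ofNat]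

private theorem NwD_conj (g g' : SLC m) (Y : Matrix (Fin m) (Fin m) ℂ) :
    (g * g').1 * Y * ((g * g')⁻¹).1 = g.1 * (g'.1 * Y * (g'⁻¹).1) * (g⁻¹).1 := by
  rw [_root_.mul_inv_rev]
  have h1 : (g * g').1 = g.1 * g'.1 := rfl
  have h2 : (g'⁻¹ * g⁻¹).1 = (g'⁻¹).1 * (g⁻¹).1 := rfl
  rw [h1, h2]
  simp only [Matrix.mul_assoc]

private theorem NwD_inv (g : SLC m) (Y : Matrix (Fin m) (Fin m) ℂ) :
    (g⁻¹).1 * (g.1 * Y * (g⁻¹).1) * g.1 = Y := by
  have h1 : (g⁻¹).1 * g.1 = 1 := by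
    have h2 : (g⁻¹ * g).1 = (g⁻¹).1 * g.1 := rfl
    rw [← h2, inv_mul_cancel]
    rfl
  calc (g⁻¹).1 * (g.1 * Y * (g⁻¹).1) * g.1 = ((g⁻¹).1 * g.1) * Y * ((g⁻¹).1 * g.1) := by
        simp only [Matrix.mul_assoc]
    _ = Y := by rw [h1, Matrix.one_mul, Matrix.mul_one]

/-- The reflection in `β` is induced by an element of `G`.
Proof. `e = e β`, `f = e (neg β)`, `h = D.H (coroot β) = [e, f]` (`IsRD.bracket`), `[h, e] = 2 e`, `[h, f] = -2 f` (`comm_e`, `IsRD.two`, `IsRD.root_neg`). For `t`, `a = D.rt β t`, `H = D.H t`: `[e, H] = -a e`, `[f, H] = a f`. By `tanG_exp` (with `z = 1`)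
there are `g₁, g₂ ∈ G` with `g₁ = exp e`, `g₂ = exp (-f)` (`-f ∈ tanG G`). By `AdM_exp_of_nil` (`N = 3`, resp. `N = 2`):
`g₁ H g₁⁻¹ = H - a e`; `g₂ (H - a e) g₂⁻¹ = (H - a e) + (-a f - a h) + (1/2) (2 a f) = H - a e - a h` (`ad(-f) (H - a e) = -a f - a h`, as `[-f, H] = -a f`, `[-f, -a e] = a [f, e] = -a h`; `ad(-f) (-a f - a h) = a [f, h] = 2 a f`; `ad(-f) (2 a f) = 0`);
`g₁ (H - a e - a h) g₁⁻¹ = (H - a e) - a e - a (h - 2 e) = H - a h` (`[e, h] = -2 e`). So `n = g₁ g₂ g₁` satisfies `n H n⁻¹ = H - a h = D.H (t - a • coroot β)`. -/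
theorem exists_reflection (hG : AlmostSimple G) (hD : IsRD G D) (β : ι) :
    ∃ n ∈ G, ∀ t : Fin r → ℂ, n.1 * D.H t * (n⁻¹).1 = D.H (fun i => t i - D.rt β t * (D.coroot β i : ℂ)) := by
  obtain ⟨g₁, hg₁, he₁⟩ := tanG_exp hG.closed (hD.e_mem β) 1
  obtain ⟨g₂, hg₂, he₂⟩ := tanG_exp hG.closed ((tanG G).neg_mem (hD.e_mem (D.neg β))) 1
  rw [one_smul] at he₁ he₂
  set e : Matrix (Fin m) (Fin m) ℂ := D.e β with hedef
  set f : Matrix (Fin m) (Fin m) ℂ := D.e (D.neg β) with hfdef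
  set cr : Fin r → ℂ := fun i => (D.coroot β i : ℂ) with hcr
  set h : Matrix (Fin m) (Fin m) ℂ := D.H cr with hhdef
  have hef : e * f - f * e = h := hD.bracket β
  have hr2 : D.rt β cr = 2 := by
    have h1 := hD.two β
    have h2 : ((∑ i, D.root β i * D.coroot β i : ℤ) : ℂ) = 2 := by
      rw [h1]
      norm_num
    rw [Int.cast_sum] at h2
    unfold RD.rt
    rw [← h2]
    refine Finset.sum_congr rfl fun i _ => ?_
    rw [Int.cast_mul]
  have hneg : ∀ t : Fin r → ℂ, D.rt (D.neg β) t = - D.rt β t := by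
    intro t
    unfold RD.rt
    rw [hD.root_neg β, ← Finset.sum_neg_distrib]
    refine Finset.sum_congr rfl fun i _ => ?_
    rw [Pi.neg_apply, Int.cast_neg, neg_mul]
  have hhe : h * e - e * h = (2 : ℂ) • e := by
    have h1 := hD.comm_e β cr
    rw [hr2] at h1
    exact h1
  have hhf : h * f - f * h = (-2 : ℂ) • f := by
    have h1 := hD.comm_e (D.neg β) cr
    rw [hneg, hr2] at h1
    exact h1
  refine ⟨g₁ * (g₂ * g₁), G.mul_mem hg₁ (G.mul_mem hg₂ hg₁), ?_⟩
  intro t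
  have hHe : D.H t * e - e * D.H t = D.rt β t • e := hD.comm_e β t
  have hHf : D.H t * f - f * D.H t = (- D.rt β t) • f := by
    have h1 := hD.comm_e (D.neg β) t
    rw [hneg] at h1
    exact h1
  have hgoal : D.H (fun i => t i - D.rt β t * (D.coroot β i : ℂ)) = D.H t - D.rt β t • h := by
    have h1 : (fun i => t i - D.rt β t * (D.coroot β i : ℂ)) = t + (- D.rt β t) • cr := by
      funext i
      rw [Pi.add_apply, Pi.smul_apply, smul_eq_mul]
      ring
    rw [h1, RD.H_add, RD.H_smul, neg_smul, ← sub_eq_add_neg]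
  rw [hgoal]
  generalize D.rt β t = a at hHe hHf
  generalize D.H t = Y at hHe hHf
  rw [NwD_conj, NwD_conj]
  have eHe : Y * e = e * Y + a • e := by
    rw [← hHe]
    abel
  have eHf : Y * f = f * Y + (-a) • f := by
    rw [← hHf]
    abel
  have ehe : h * e = e * h + (2 : ℂ) • e := by
    rw [← hhe]
    abel
  have ehf : h * f = f * h + (-2 : ℂ) • f := by
    rw [← hhf]
    abel
  have eef : e * f = f * e + h := by
    rw [← hef]
    abel
  have s1 : g₁.1 * Y * (g₁⁻¹).1 = Y - a • e := by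
    rw [NwD_three (A := (-a) • e) (B := 0) he₁ _ _ _]
    · rw [smul_zero, add_zero, neg_smul, ← sub_eq_add_neg]
    · rw [eHe, neg_smul]
      abel
    · rw [Matrix.mul_smul, Matrix.smul_mul, sub_self]
    · rw [Matrix.mul_zero, Matrix.zero_mul, sub_self]
  have s2 : g₂.1 * (Y - a • e) * (g₂⁻¹).1 = Y - a • e - a • h := by
    rw [NwD_three (A := (-a) • f - a • h) (B := (2 * a) • f) he₂ _ _ _]
    · rw [smul_smul, inv_mul_cancel_left₀ (two_ne_zero), neg_smul]
      abel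
    · simp only [neg_mul, mul_neg, mul_sub, sub_mul, Matrix.mul_smul, Matrix.smul_mul, eHf, eef, smul_add, neg_smul]
      abel
    · simp only [neg_mul, mul_neg, mul_sub, sub_mul, Matrix.mul_smul, Matrix.smul_mul, ehf, smul_add, smul_neg, neg_smul, smul_smul]
      rw [mul_comm a 2]
      abel
    · rw [Matrix.mul_smul, Matrix.smul_mul, neg_mul, mul_neg, sub_self]
  have s3 : g₁.1 * (Y - a • e - a • h) * (g₁⁻¹).1 = Y - a • h := by
    rw [NwD_three (A := a • e) (B := 0) he₁ _ _ _]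
    · rw [smul_zero, add_zero]
      abel
    · simp only [mul_sub, sub_mul, Matrix.mul_smul, Matrix.smul_mul, eHe, ehe, smul_add, smul_smul]
      rw [mul_comm a 2, two_mul, add_smul]
      abel
    · rw [Matrix.mul_smul, Matrix.smul_mul, sub_self]
    · rw [Matrix.mul_zero, Matrix.zero_mul, sub_self]
  rw [s1, s2, s3]

/-- `Subgroup.closure_induction` with `exists_reflection`, `act_s`, `act_mul`, `act_one`; for inverses: `n H(t) n⁻¹ = H(w t)` for all `t` gives `n⁻¹ H(t) n = H(w⁻¹ t)`. -/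
theorem exists_of_weyl (hG : AlmostSimple G) (hD : IsRD G D) {w : GL (Fin r) ℤ} (hw : w ∈ D.W) :
    ∃ n ∈ G, ∀ t : Fin r → ℂ, n.1 * D.H t * (n⁻¹).1 = D.H (act w t) := by
  unfold RD.W at hw
  induction hw using Subgroup.closure_induction with
  | mem w hw =>
    obtain ⟨β, hβ⟩ := hw
    obtain ⟨n, hn, h⟩ := exists_reflection hG hD β
    refine ⟨n, hn, fun t => ?_⟩
    rw [h t]
    congr 1
    funext i
    rw [act_s hβ]
  | one =>
    refine ⟨1, G.one_mem, fun t => ?_⟩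
    rw [act_one, inv_one]
    have h1 : (1 : SLC m).1 = 1 := rfl
    rw [h1, Matrix.one_mul, Matrix.mul_one]
  | mul x y _ _ hx hy =>
    obtain ⟨n, hn, h⟩ := hx
    obtain ⟨n', hn', h'⟩ := hy
    refine ⟨n * n', G.mul_mem hn hn', fun t => ?_⟩
    rw [NwD_conj, h', h, act_mul]
  | inv x _ hx =>
    obtain ⟨n, hn, h⟩ := hx
    refine ⟨n⁻¹, G.inv_mem hn, fun t => ?_⟩
    have h1 := h (act x⁻¹ t)
    rw [← act_mul, mul_inv_cancel, act_one] at h1
    rw [← h1, inv_inv]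
    exact NwD_inv n _

end WCn
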