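import Pool.Agent.Lib.MP_c2b80f_alE.HsC

/-!
# The Frobenius of the diagonalising element normalises the torus (job PlA)
-/

open Matrix

namespace WCn

variable {m r : ℕ} {ι : Type} [Fintype ι] [DecidableEq ι] {G : Subgroup (SLC m)} {D : RD m r ι} {p : ℕ} [Fact p.Prime] {A : Subring ℂ} {σ : A →+* ℤ_[p]}
  {O k : Type} [CommRing O] [IsDomain O] [Field k] [Algebra (ZMod p) k]

private theorem PlA_mul {O : Type} [CommRing O] (q : O) {l : ℕ} (hl : 1 ≤ l) {u v c d : O}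
    (hu : ∃ y, u = 1 + q ^ l * c + q ^ (l + 1) * y) (hv : ∃ y, v = 1 + q ^ l * d + q ^ (l + 1) * y) :
    ∃ y, u * v = 1 + q ^ l * (c + d) + q ^ (l + 1) * y := by
  obtain ⟨l, rfl⟩ : ∃ l', l = l' + 1 := ⟨l - 1, by omega⟩
  obtain ⟨y, rfl⟩ := hu
  obtain ⟨y', rfl⟩ := hv
  refine ⟨y + y' + q ^ l * (c + q * y) * (d + q * y'), ?_⟩
  ring

private theorem PlA_inv {O : Type} [CommRing O] (q : O) {l : ℕ} (hl : 1 ≤ l) {u : Oˣ} {c : O}
    (hu : ∃ y, (u : O) = 1 + q ^ l * c + q ^ (l + 1) * y) :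
    ∃ y, ((u⁻¹ : Oˣ) : O) = 1 + q ^ l * (-c) + q ^ (l + 1) * y := by
  obtain ⟨l, rfl⟩ : ∃ l', l = l' + 1 := ⟨l - 1, by omega⟩
  obtain ⟨y, hy⟩ := hu
  have h1 : (u : O) * ((u⁻¹ : Oˣ) : O) = 1 := u.mul_inv
  obtain ⟨v, hv⟩ : ∃ v : O, v = ((u⁻¹ : Oˣ) : O) := ⟨_, rfl⟩
  rw [← hv, hy] at h1
  rw [← hv]
  refine ⟨-y + q ^ l * (c + q * y) * (c + q * y) * v, ?_⟩
  have h2 : v = 1 - (q ^ (l + 1) * c + q ^ (l + 1 + 1) * y) * v := by
    linear_combination h1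
  have h3 : v = 1 - (q ^ (l + 1) * c + q ^ (l + 1 + 1) * y) *
      (1 - (q ^ (l + 1) * c + q ^ (l + 1 + 1) * y) * v) := by
    rw [← h2, ← h2]
  refine h3.trans ?_
  ring

private theorem PlA_zpow {O : Type} [CommRing O] (q : O) {l : ℕ} (hl : 1 ≤ l) {u : Oˣ} {c : O}
    (hu : ∃ y, (u : O) = 1 + q ^ l * c + q ^ (l + 1) * y) (a : ℤ) :
    ∃ y, ((u ^ a : Oˣ) : O) = 1 + q ^ l * ((a : O) * c) + q ^ (l + 1) * y := by
  induction a using Int.induction_on with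
  | zero =>
    refine ⟨0, ?_⟩
    rw [zpow_zero, Units.val_one, Int.cast_zero]
    ring
  | succ n ih =>
    obtain ⟨y, hy⟩ := PlA_mul q hl ih hu
    refine ⟨y, ?_⟩
    rw [_root_.zpow_add_one, Units.val_mul, hy]
    push_cast
    ring
  | pred n ih =>
    obtain ⟨y, hy⟩ := PlA_mul q hl ih (PlA_inv q hl hu)
    refine ⟨y, ?_⟩
    rw [_root_.zpow_sub_one, Units.val_mul, hy]
    push_cast
    ring

/-- `∏ i, z i ^ a i ≡ 1 + p ^ l ∑ a i t i` modulo `p ^ (l + 1)` (see `Tz_one_add`). -/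
theorem WD.prod_cong (W : WD p A σ O k) {l : ℕ} (hl : 1 ≤ l) (t : Fin r → O) (z : Fin r → Oˣ)
    (hz : ∀ i, ∃ y, (z i : O) = 1 + (p : O) ^ l * t i + (p : O) ^ (l + 1) * y) (a : Fin r → ℤ) :
    ∃ y, ((∏ i, z i ^ a i : Oˣ) : O) = 1 + (p : O) ^ l * (∑ i, (a i : O) * t i) + (p : O) ^ (l + 1) * y := by
  classical
  have key : ∀ s : Finset (Fin r), ∃ y, ((∏ i ∈ s, z i ^ a i : Oˣ) : O) =
      1 + (p : O) ^ l * (∑ i ∈ s, (a i : O) * t i) + (p : O) ^ (l + 1) * y := by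
    intro s
    induction s using Finset.induction_on with
    | empty =>
      refine ⟨0, ?_⟩
      rw [Finset.prod_empty, Finset.sum_empty, Units.val_one]
      ring
    | insert i s hi ih =>
      obtain ⟨y, hy⟩ := PlA_mul (p : O) hl (PlA_zpow (p : O) hl (hz i) (a i)) ih
      refine ⟨y, ?_⟩
      rw [Finset.prod_insert hi, Finset.sum_insert hi, Units.val_mul]
      exact hy
  exact key Finset.univ

/-- If `∑ a i t i` is not divisible by `p` then `∏ i, z i ^ a i ≠ 1`. -/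
theorem WD.prod_ne_one (W : WD p A σ O k) {l : ℕ} (hl : 1 ≤ l) (t : Fin r → O) (z : Fin r → Oˣ)
    (hz : ∀ i, ∃ y, (z i : O) = 1 + (p : O) ^ l * t i + (p : O) ^ (l + 1) * y) (a : Fin r → ℤ) (ha : W.res (∑ i, (a i : O) * t i) ≠ 0) :
    ∏ i, z i ^ a i ≠ 1 := by
  intro h
  obtain ⟨y, hy⟩ := W.prod_cong hl t z hz a
  rw [h, Units.val_one] at hy
  refine ha ((W.res_ker _).2 ⟨-y, ?_⟩)
  have hp : (p : O) ^ l ≠ 0 := pow_ne_zero _ W.p_ne
  refine mul_left_cancel₀ hp ?_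
  linear_combination -hy

/-- Over `ℂ`: let `T` be the diagonal matrix with entries `y a = ∏ z i ^ wt a i` with all `∏ z i ^ root β i ≠ 1`. An element `X` of the Lie algebra with `T X = X T` is in the Cartan subalgebra: `X = H t + ∑ x β e β` (`IsRD.mem_iff`),
`T e β = (∏ z i ^ root β i) e β T` (`IsRD.supp`), so `∑ x β (∏ z i ^ root β i - 1) e β T = 0`, and `IsRD.indep`. -/
theorem tan_comm_torus (hD : IsRD G D) (z : Fin r → ℂˣ) (hz : ∀ β, ∏ i, z i ^ D.root β i ≠ 1) {X : Matrix (Fin m) (Fin m) ℂ} (hX : X ∈ tanG G)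
    (h : D.Tz z * X = X * D.Tz z) : ∃ t : Fin r → ℂ, X = D.H t := by
  obtain ⟨t, x, hXe⟩ := (hD.mem_iff X).1 hX
  obtain ⟨y, hy⟩ : ∃ y : Fin m → ℂˣ, y = fun a => ∏ i, z i ^ D.wt a i := ⟨_, rfl⟩
  obtain ⟨χ, hχ⟩ : ∃ χ : ι → ℂˣ, χ = fun β => ∏ i, z i ^ D.root β i := ⟨_, rfl⟩
  have hT : D.Tz z = Matrix.diagonal fun a => (y a : ℂ) := by
    rw [hy]
    rfl
  have hsupp : ∀ β a b, D.e β a b ≠ 0 → (y a : ℂ) = χ β * y b := by
    intro β a b hab
    have h1 := hD.supp β a b hab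
    have h2 : y a = χ β * y b := by
      rw [hy, hχ]
      change ∏ i, z i ^ D.wt a i = (∏ i, z i ^ D.root β i) * ∏ i, z i ^ D.wt b i
      rw [← Finset.prod_mul_distrib]
      refine Finset.prod_congr rfl fun i _ => ?_
      rw [← _root_.zpow_add]
      congr 1
      have := h1 i
      omega
    rw [h2, Units.val_mul]
  have hX0 : ∑ β, (x β * ((χ β : ℂ) - 1)) • D.e β = 0 := by
    ext a b
    rw [Matrix.sum_apply]
    have h1 := congrFun (congrFun h a) b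
    rw [hT, Matrix.diagonal_mul, Matrix.mul_diagonal] at h1
    have h2 : (y b : ℂ) ≠ 0 := (y b).ne_zero
    refine mul_right_cancel₀ h2 ?_
    have h3 : X a b = D.H t a b + ∑ β, x β * D.e β a b := by
      rw [hXe, Matrix.add_apply, Matrix.sum_apply]
      rfl
    have h4 : (y a : ℂ) * D.H t a b = D.H t a b * y b := by
      by_cases hab : a = b
      · rw [hab, mul_comm]
      · have h5 : D.H t a b = 0 := Matrix.diagonal_apply_ne _ hab
        rw [h5, mul_zero, zero_mul]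
    have h6 : (y a : ℂ) * ∑ β, x β * D.e β a b = (∑ β, x β * D.e β a b) * y b := by
      rw [h3] at h1
      linear_combination h1 - h4
    have h7 : (∑ β, ((x β * ((χ β : ℂ) - 1)) • D.e β) a b) * (y b : ℂ) =
        (y a : ℂ) * (∑ β, x β * D.e β a b) - (∑ β, x β * D.e β a b) * y b := by
      rw [Finset.sum_mul, Finset.sum_mul, Finset.mul_sum, ← Finset.sum_sub_distrib]
      refine Finset.sum_congr rfl fun β _ => ?_
      rw [Matrix.smul_apply, smul_eq_mul]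
      by_cases hab : D.e β a b = 0
      · rw [hab]
        ring
      · rw [hsupp β a b hab]
        ring
    rw [h7, h6, sub_self, Matrix.zero_apply, zero_mul]
  have h0 := (hD.indep 0 (fun β => x β * ((χ β : ℂ) - 1)) (by
    have h1 : D.H (0 : Fin r → ℂ) = 0 := by
      unfold RD.H
      simp
    rw [h1, zero_add]
    exact hX0)).2
  have hx : x = 0 := by
    funext β
    have h1 : x β * ((χ β : ℂ) - 1) = 0 := congrFun h0 β
    refine (mul_eq_zero.1 h1).resolve_right fun h2 => ?_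
    refine hz β ?_
    have h3 : χ β = 1 := Units.ext (sub_eq_zero.1 h2)
    rw [hχ] at h3
    exact h3
  refine ⟨t, ?_⟩
  rw [hXe, hx]
  simp

/-- Let `T = Tz z`, `T n = n φ(T)` in `SL_m(O)`. For `s : Fin r → ℂ` the matrix `X = n H(s) n⁻¹` (images in `ℂ`) is in `tanG G` (`tanG_conj`) and commutes with `T`, since `H(s)` commutes with `φ(T)` (both diagonal). Use `tan_comm_torus` and `prod_ne_one`
(the image of `T` in `ℂ` is `D.Tz` of the images of the `z i`). -/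
theorem WD.normalizes (W : WD p A σ O k) (hD : IsRD G D) {l : ℕ} (hl : 1 ≤ l) (t : Fin r → O) (ht : ∀ β, W.res (D.rt β t) ≠ 0) (z : Fin r → Oˣ)
    (hz : ∀ i, ∃ y, (z i : O) = 1 + (p : O) ^ l * t i + (p : O) ^ (l + 1) * y)
    {n : Matrix.SpecialLinearGroup (Fin m) O} (hn : n ∈ W.GO G) (hT : D.Tz z * n.1 = n.1 * (D.Tz z).map W.φ) (s : Fin r → ℂ) :
    ∃ s' : Fin r → ℂ, (Matrix.SpecialLinearGroup.map W.J n).1 * D.H s * ((Matrix.SpecialLinearGroup.map W.J n)⁻¹).1 = D.H s' := by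
  have hg : (Matrix.SpecialLinearGroup.map W.J n) ∈ G := hn
  obtain ⟨g, hge⟩ : ∃ g : SLC m, g = Matrix.SpecialLinearGroup.map W.J n := ⟨_, rfl⟩
  have hg1 : g.1 = n.1.map W.J := by
    rw [hge]
    rfl
  rw [← hge] at hg ⊢
  have hinv : g.1 * (g⁻¹).1 = 1 := congrArg Subtype.val (mul_inv_cancel g)
  have hinv' : (g⁻¹).1 * g.1 = 1 := congrArg Subtype.val (inv_mul_cancel g)
  obtain ⟨zC, hzC⟩ : ∃ zC : Fin r → ℂˣ, zC = fun i => Units.map (W.J : O →* ℂ) (z i) := ⟨_, rfl⟩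
  have hprod : ∀ a : Fin r → ℤ, ∏ i, zC i ^ a i = Units.map (W.J : O →* ℂ) (∏ i, z i ^ a i) := by
    intro a
    rw [map_prod, hzC]
    exact Finset.prod_congr rfl fun i _ => (map_zpow (Units.map (W.J : O →* ℂ)) (z i) (a i)).symm
  have hTz : D.Tz zC = (D.Tz z).map W.J := by
    unfold RD.Tz
    rw [Matrix.diagonal_map (map_zero W.J)]
    congr 1
    funext a
    rw [hprod]
    rfl
  have hne : ∀ β, ∏ i, zC i ^ D.root β i ≠ 1 := by
    intro β h1
    rw [hprod] at h1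
    refine W.prod_ne_one hl t z hz (D.root β) (ht β) ?_
    refine Units.ext (W.J_inj ?_)
    have h2 := congrArg (fun u : ℂˣ => (u : ℂ)) h1
    rw [Units.val_one, map_one]
    exact h2
  have hTC : D.Tz zC * g.1 = g.1 * ((D.Tz z).map W.φ).map W.J := by
    rw [hTz, hg1, ← Matrix.map_mul, ← Matrix.map_mul, hT]
  have hdiag : ((D.Tz z).map W.φ).map W.J * D.H s = D.H s * ((D.Tz z).map W.φ).map W.J := by
    unfold RD.Tz RD.H
    rw [Matrix.diagonal_map (map_zero W.φ), Matrix.diagonal_map (map_zero W.J), Matrix.diagonal_mul_diagonal,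
      Matrix.diagonal_mul_diagonal]
    congr 1
    funext a
    exact mul_comm _ _
  have hH : D.H s ∈ tanG G := (hD.mem_iff _).2 ⟨s, 0, by simp⟩
  refine tan_comm_torus hD zC hne (tanG_conj hH hg) ?_
  have e1 : ((D.Tz z).map W.φ).map W.J * (g⁻¹).1 = (g⁻¹).1 * D.Tz zC := by
    calc ((D.Tz z).map W.φ).map W.J * (g⁻¹).1 = (g⁻¹).1 * g.1 * ((D.Tz z).map W.φ).map W.J * (g⁻¹).1 := by
          rw [hinv', Matrix.one_mul]
      _ = (g⁻¹).1 * (g.1 * ((D.Tz z).map W.φ).map W.J) * (g⁻¹).1 := by simp only [Matrix.mul_assoc]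
      _ = (g⁻¹).1 * (D.Tz zC * g.1) * (g⁻¹).1 := by rw [hTC]
      _ = (g⁻¹).1 * D.Tz zC * (g.1 * (g⁻¹).1) := by simp only [Matrix.mul_assoc]
      _ = (g⁻¹).1 * D.Tz zC := by rw [hinv, Matrix.mul_one]
  calc D.Tz zC * (g.1 * D.H s * (g⁻¹).1) = (D.Tz zC * g.1) * D.H s * (g⁻¹).1 := by simp only [Matrix.mul_assoc]
    _ = g.1 * ((D.Tz z).map W.φ).map W.J * D.H s * (g⁻¹).1 := by rw [hTC]
    _ = g.1 * (((D.Tz z).map W.φ).map W.J * D.H s) * (g⁻¹).1 := by simp only [Matrix.mul_assoc]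
    _ = g.1 * (D.H s * ((D.Tz z).map W.φ).map W.J) * (g⁻¹).1 := by rw [hdiag]
    _ = g.1 * D.H s * (((D.Tz z).map W.φ).map W.J * (g⁻¹).1) := by simp only [Matrix.mul_assoc]
    _ = g.1 * D.H s * ((g⁻¹).1 * D.Tz zC) := by rw [e1]
    _ = g.1 * D.H s * (g⁻¹).1 * D.Tz zC := by simp only [Matrix.mul_assoc]

end WCn
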