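import Pool.Agent.Lib.MP_c2b80f_alE.PlA
import Pool.Agent.Lib.MP_c2b80f_alE.DtM
import Pool.Agent.Lib.MP_c2b80f_alE.NwW

/-!
# Frobenius acts on the eigenvalues like the Weyl group element (job PlB)
-/

open Matrix

set_option linter.unusedSectionVars false

namespace WCn

variable {m r : ℕ} {ι : Type} [Fintype ι] [DecidableEq ι] {G : Subgroup (SLC m)} {D : RD m r ι} {p : ℕ} [Fact p.Prime] {A : Subring ℂ} {σ : A →+* ℤ_[p]}
  {O k : Type} [CommRing O] [IsDomain O] [Field k] [Algebra (ZMod p) k]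

/-- Let `n H(s) n⁻¹ = H(w' s)` over `ℂ` for all `s`. If the entry `a b` of `n` is not zero then `wt b i = ∑ l, wt a l * w' l i` (compare the entries `a b` of `n H(s) = H(w' s) n` for `s = Pi.single i 1`), and in every row `a` there is a nonzero entry. -/
theorem weights_of_normalizer (n : SLC m) (w' : GL (Fin r) ℤ) (h : ∀ s : Fin r → ℂ, n.1 * D.H s * (n⁻¹).1 = D.H (act w' s)) (a : Fin m) :
    ∃ b, n.1 a b ≠ 0 ∧ ∀ i, D.wt b i = ∑ l, D.wt a l * w'.1 l i := by
  have hinv : (n⁻¹).1 * n.1 = 1 := by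
    rw [← Matrix.SpecialLinearGroup.coe_mul, inv_mul_cancel]
    rfl
  have hinv' : n.1 * (n⁻¹).1 = 1 := by
    rw [← Matrix.SpecialLinearGroup.coe_mul, mul_inv_cancel]
    rfl
  have h1 : ∀ s : Fin r → ℂ, n.1 * D.H s = D.H (act w' s) * n.1 := by
    intro s
    rw [← h s, Matrix.mul_assoc (n.1 * D.H s), hinv, Matrix.mul_one]
  have hrow : ∃ b, n.1 a b ≠ 0 := by
    by_contra hcon
    push Not at hcon
    have h2 := congrFun (congrFun hinv' a) a
    rw [Matrix.mul_apply, Matrix.one_apply_eq, Finset.sum_eq_zero] at h2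
    · exact zero_ne_one h2
    · intro b _
      rw [hcon b, zero_mul]
  obtain ⟨b, hb⟩ := hrow
  refine ⟨b, hb, fun i => ?_⟩
  have h3 := congrFun (congrFun (h1 (Pi.single i 1)) a) b
  unfold RD.H at h3
  rw [Matrix.mul_diagonal, Matrix.diagonal_mul, mul_comm] at h3
  have h4 := mul_right_cancel₀ hb h3
  have h5 : ∑ i', (D.wt b i' : ℂ) * (Pi.single i (1 : ℂ) : Fin r → ℂ) i' = (D.wt b i : ℂ) := by
    rw [Finset.sum_eq_single i]
    · rw [Pi.single_eq_same, mul_one]
    · intro i' _ hi'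
      rw [Pi.single_eq_of_ne hi', mul_zero]
    · intro hi
      exact absurd (Finset.mem_univ i) hi
  have h6 : ∀ l, act w' (Pi.single i (1 : ℂ)) l = (w'.1 l i : ℂ) := by
    intro l
    unfold act
    rw [Finset.sum_eq_single i]
    · rw [Pi.single_eq_same, mul_one]
    · intro i' _ hi'
      rw [Pi.single_eq_of_ne hi', mul_zero]
    · intro hi
      exact absurd (Finset.mem_univ i) hi
  rw [h5] at h4
  simp only [h6] at h4
  have h7 : ((D.wt b i : ℤ) : ℂ) = ((∑ l, D.wt a l * w'.1 l i : ℤ) : ℂ) := by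
    rw [h4, Int.cast_sum]
    exact Finset.sum_congr rfl fun l _ => (Int.cast_mul _ _).symm
  exact_mod_cast h7

/-- `∑ i, wt b i t i = ∑ i, wt a i (w t) i` if `wt b = wt a ∘ w`. -/
theorem plB_wt_act {R : Type*} [CommRing R] (w : GL (Fin r) ℤ) {a b : Fin m} (h : ∀ i, D.wt b i = ∑ l, D.wt a l * w.1 l i) (t : Fin r → R) :
    ∑ i, (D.wt b i : R) * t i = ∑ i, (D.wt a i : R) * act w t i := by
  unfold act
  have h1 : ∀ i, (D.wt b i : R) * t i = ∑ l, (D.wt a l : R) * ((w.1 l i : R) * t i) := by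
    intro i
    rw [h i, Int.cast_sum, Finset.sum_mul]
    refine Finset.sum_congr rfl fun l _ => ?_
    rw [Int.cast_mul, mul_assoc]
  rw [Finset.sum_congr rfl fun i _ => h1 i, Finset.sum_comm]
  refine Finset.sum_congr rfl fun l _ => ?_
  rw [Finset.mul_sum]

/-- Frobenius and the Weyl group. Write `y a = ∏ i, z i ^ wt a i : Oˣ`, so `Tz z = diagonal y`. By `weights_of_normalizer`, for every `a` there is `b` with `n a b ≠ 0`, `wt b = wt a ∘ w'`; comparing the entries `a b` of `Tz z n = n φ(Tz z)`: `y a = φ (y b)` (`O` is a domain; `J` is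
injective). Modulo `p ^ (l + 1)` (`prod_cong`): `res (∑ wt a i t i) = res (∑ wt b i φ(t i)) = ∑ wt b i (res t i) ^ p = ∑ wt b i (w t̄) i = ∑ wt a i (w' w t̄) i`. So `H(t̄) = H(w' w t̄)` over `k` and `t̄ = w' w t̄` (`AD.Ok.trace_H` for `d.map W.q`); so `w' * w = 1`.
Now if `wt b = wt a ∘ w` then `wt a = wt b ∘ w'`; let `b'` be the index given by `weights_of_normalizer` for the row `b`: `wt b' = wt b ∘ w' = wt a`, so `y b' = y a` and `y b = φ (y b') = φ (y a)`. -/
theorem WD.frob_weights (W : WD p A σ O k) {d : AD m r ι A} (hd : d.Of G D) {l : ℕ} (hl : 1 ≤ l) (t : Fin r → O) (z : Fin r → Oˣ)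
    (hz : ∀ i, ∃ y, (z i : O) = 1 + (p : O) ^ l * t i + (p : O) ^ (l + 1) * y) {w : GL (Fin r) ℤ} (hw : w ∈ D.W)
    (ht : ∀ i, W.res (t i) ^ p = act w (fun i => W.res (t i)) i) (hst : ∀ w' ∈ D.W, act w' (fun i => W.res (t i)) = (fun i => W.res (t i)) → w' = 1)
    {n : Matrix.SpecialLinearGroup (Fin m) O} (hT : D.Tz z * n.1 = n.1 * (D.Tz z).map W.φ) {w' : GL (Fin r) ℤ} (hw' : w' ∈ D.W)
    (hn : ∀ s : Fin r → ℂ, (Matrix.SpecialLinearGroup.map W.J n).1 * D.H s * ((Matrix.SpecialLinearGroup.map W.J n)⁻¹).1 = D.H (act w' s)) :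
    ∀ a b, (∀ i, D.wt b i = ∑ l, D.wt a l * w.1 l i) → W.φ ((∏ i, z i ^ D.wt a i : Oˣ) : O) = ((∏ i, z i ^ D.wt b i : Oˣ) : O) := by
  -- the value of `φ` at the entries
  have key : ∀ a, ∃ b, (∀ i, D.wt b i = ∑ l, D.wt a l * w'.1 l i) ∧
      ((∏ i, z i ^ D.wt a i : Oˣ) : O) = W.φ ((∏ i, z i ^ D.wt b i : Oˣ) : O) := by
    intro a
    obtain ⟨b, hb, hwt⟩ := weights_of_normalizer (Matrix.SpecialLinearGroup.map W.J n) w' hn a
    refine ⟨b, hwt, ?_⟩
    have hnb : n.1 a b ≠ 0 := by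
      intro h0
      apply hb
      have h1 : (Matrix.SpecialLinearGroup.map W.J n).1 a b = W.J (n.1 a b) := rfl
      rw [h1, h0, map_zero]
    have h2 := congrFun (congrFun hT a) b
    have hmap : (D.Tz z).map W.φ = Matrix.diagonal fun a => W.φ ((∏ i, z i ^ D.wt a i : Oˣ) : O) := by
      unfold RD.Tz
      rw [Matrix.diagonal_map (map_zero W.φ)]
    rw [hmap, Matrix.mul_diagonal] at h2
    unfold RD.Tz at h2
    rw [Matrix.diagonal_mul, mul_comm] at h2
    exact mul_left_cancel₀ hnb h2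
  have hp : (p : O) ≠ 0 := W.p_ne
  -- congruences
  have hcg : ∀ a, ∃ y, ((∏ i, z i ^ D.wt a i : Oˣ) : O) = 1 + (p : O) ^ l * (∑ i, (D.wt a i : O) * t i) + (p : O) ^ (l + 1) * y :=
    fun a => W.prod_cong hl t z hz (D.wt a)
  have hbar : ∀ a, ∑ i, (D.wt a i : k) * W.res (t i) = ∑ i, (D.wt a i : k) * act (w' * w) (fun i => W.res (t i)) i := by
    intro a
    obtain ⟨b, hwt, hab⟩ := key a
    obtain ⟨y, hy⟩ := hcg a
    obtain ⟨y', hy'⟩ := hcg b
    rw [hy, hy', map_add, map_add, map_mul, map_mul, map_pow, map_pow, map_natCast, map_one] at hab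
    have h3 : (p : O) ^ l * ((∑ i, (D.wt a i : O) * t i) + (p : O) * y) =
        (p : O) ^ l * (W.φ (∑ i, (D.wt b i : O) * t i) + (p : O) * W.φ y') := by
      linear_combination hab
    have h4 := mul_left_cancel₀ (pow_ne_zero l hp) h3
    have h5 := congrArg W.res h4
    rw [map_add, map_add, map_mul, map_mul, W.res_p, zero_mul, zero_mul, add_zero, add_zero, W.res_φ] at h5
    have h6 : W.res (∑ i, (D.wt a i : O) * t i) = ∑ i, (D.wt a i : k) * W.res (t i) := by
      rw [map_sum]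
      refine Finset.sum_congr rfl fun i _ => ?_
      rw [map_mul, map_intCast]
    have h7 : W.res (W.φ (∑ i, (D.wt b i : O) * t i)) = ∑ i, (D.wt b i : k) * W.res (t i) ^ p := by
      rw [map_sum, map_sum]
      refine Finset.sum_congr rfl fun i _ => ?_
      rw [map_mul, map_mul, map_intCast, map_intCast, W.res_φ]
    rw [← W.res_φ, h7, h6] at h5
    rw [h5]
    have h8 : ∑ i, (D.wt b i : k) * W.res (t i) ^ p = ∑ i, (D.wt b i : k) * act w (fun i => W.res (t i)) i :=
      Finset.sum_congr rfl fun i _ => by rw [ht i]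
    rw [h8, plB_wt_act w' hwt, ← act_mul]
  have hww : w' * w = 1 := by
    apply hst _ (D.W.mul_mem hw' hw)
    have hH : D.H (fun i => W.res (t i)) = D.H (act (w' * w) (fun i => W.res (t i))) := by
      unfold RD.H
      exact congrArg Matrix.diagonal (funext fun a => hbar a)
    funext i
    have hok : (d.map W.q).Ok D := hd.ok.map W.q
    rw [← hok.trace_H (act (w' * w) (fun i => W.res (t i))) i, ← hH, hok.trace_H]
  have hww' : w * w' = 1 := by
    rw [mul_eq_one_iff_eq_inv] at hww ⊢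
    rw [hww, inv_inv]
  intro a b hab
  obtain ⟨b', hwt, hb⟩ := key b
  have h9 : D.wt b' = D.wt a := by
    funext i
    rw [hwt i]
    have h10 : ∀ l, D.wt b l * w'.1 l i = ∑ c, D.wt a c * (w.1 c l * w'.1 l i) := by
      intro l
      rw [hab l, Finset.sum_mul]
      exact Finset.sum_congr rfl fun c _ => mul_assoc _ _ _
    rw [Finset.sum_congr rfl fun l _ => h10 l, Finset.sum_comm]
    have h11 : ∀ c, ∑ l, D.wt a c * (w.1 c l * w'.1 l i) = D.wt a c * (1 : Matrix (Fin r) (Fin r) ℤ) c i := by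
      intro c
      rw [← Finset.mul_sum]
      have h12 : ∑ l, w.1 c l * w'.1 l i = (w.1 * w'.1) c i := (Matrix.mul_apply).symm
      rw [h12, ← Units.val_mul, hww', Units.val_one]
    rw [Finset.sum_congr rfl fun c _ => h11 c, Finset.sum_eq_single i]
    · rw [Matrix.one_apply_eq, mul_one]
    · intro c _ hc
      rw [Matrix.one_apply_ne hc, mul_zero]
    · intro hi
      exact absurd (Finset.mem_univ i) hi
  rw [hb, h9]

end WCn
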