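import Pool.Agent.Lib.MP_c2b80f_alE.TnD

/-!
# Commuting diagonalisable tangent vectors: a generic element (job RkA)
-/

open Matrix

namespace WCn

variable {m : ℕ}

/-- The dimension of the generalised kernel of `ad X` on the Lie algebra of `G`. -/
noncomputable def gker (G : Subgroup (SLC m)) (X : Matrix (Fin m) (Fin m) ℂ) : ℕ :=
  Module.finrank ℂ ↥((adM X).maxGenEigenspace 0 ⊓ tanG G)

private theorem RkA_inv1 (p : GL (Fin m) ℂ) : (p⁻¹).1 * p.1 = 1 := p.inv_mul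

private theorem RkA_inv2 (p : GL (Fin m) ℂ) : p.1 * (p⁻¹).1 = 1 := p.mul_inv

private theorem RkA_cancel (p : GL (Fin m) ℂ) (A : Matrix (Fin m) (Fin m) ℂ) : (p⁻¹).1 * (p.1 * A * (p⁻¹).1) * p.1 = A := by
  calc (p⁻¹).1 * (p.1 * A * (p⁻¹).1) * p.1 = ((p⁻¹).1 * p.1) * A * ((p⁻¹).1 * p.1) := by simp only [Matrix.mul_assoc]
    _ = A := by rw [RkA_inv1, Matrix.one_mul, Matrix.mul_one]

private theorem RkA_cancel' (p : GL (Fin m) ℂ) (A : Matrix (Fin m) (Fin m) ℂ) : p.1 * ((p⁻¹).1 * A * p.1) * (p⁻¹).1 = A := by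
  calc p.1 * ((p⁻¹).1 * A * p.1) * (p⁻¹).1 = (p.1 * (p⁻¹).1) * A * (p.1 * (p⁻¹).1) := by simp only [Matrix.mul_assoc]
    _ = A := by rw [RkA_inv2, Matrix.one_mul, Matrix.mul_one]

private theorem RkA_conj_mul (p : GL (Fin m) ℂ) (A B : Matrix (Fin m) (Fin m) ℂ) :
    (p.1 * A * (p⁻¹).1) * (p.1 * B * (p⁻¹).1) = p.1 * (A * B) * (p⁻¹).1 := by
  calc (p.1 * A * (p⁻¹).1) * (p.1 * B * (p⁻¹).1) = p.1 * A * ((p⁻¹).1 * p.1) * B * (p⁻¹).1 := by simp only [Matrix.mul_assoc]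
    _ = p.1 * (A * B) * (p⁻¹).1 := by
      rw [RkA_inv1, Matrix.mul_one]
      simp only [Matrix.mul_assoc]

/-- Let `𝔱` be a space of simultaneously diagonalisable matrices. There is `Z ∈ 𝔱` such that every matrix which commutes with `Z` commutes with all of `𝔱`. Proof. For `a b` such that `t a ≠ t b` for some `X = p diag(t) p⁻¹ ∈ 𝔱` the linear form `t a - t b` is not zero on `𝔱`; choose `Z = p diag(z) p⁻¹ ∈ 𝔱` on which none of these finitely many
forms vanishes (`Module.Dual.exists_forall_mem_ne_zero_of_forall_exists`, as in `MP_c2b80f_alD/RkA.lean`). If `Y` commutes with `Z` then the entry `a b` of `p⁻¹ Y p` is zero unless `z a = z b`, and then `t a = t b` for all elements of `𝔱`. -/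
theorem exists_generic (𝔱 : Submodule ℂ (Matrix (Fin m) (Fin m) ℂ)) (p : GL (Fin m) ℂ)
    (hp : ∀ X ∈ 𝔱, ∃ t : Fin m → ℂ, X = p.1 * Matrix.diagonal t * (p⁻¹).1) :
    ∃ Z ∈ 𝔱, ∀ Y : Matrix (Fin m) (Fin m) ℂ, Z * Y = Y * Z → ∀ X ∈ 𝔱, X * Y = Y * X := by
  classical
  obtain ⟨L, hL⟩ : ∃ L : Fin m → (Matrix (Fin m) (Fin m) ℂ →ₗ[ℂ] ℂ), ∀ a X, L a X = ((p⁻¹).1 * X * p.1) a a :=
    ⟨fun a =>
      { toFun := fun X => ((p⁻¹).1 * X * p.1) a a
        map_add' := fun X Y => by rw [Matrix.mul_add, Matrix.add_mul, Matrix.add_apply]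
        map_smul' := fun c X => by rw [Matrix.mul_smul, Matrix.smul_mul, Matrix.smul_apply, RingHom.id_apply] }, fun _ _ => rfl⟩
  obtain ⟨Z, hZ, hZ'⟩ := Module.Dual.exists_forall_mem_ne_zero_of_forall_exists 𝔱
    (fun q : {q : Fin m × Fin m // ∃ X ∈ 𝔱, (L q.1 - L q.2) X ≠ 0} => (L q.1.1 - L q.1.2 : Module.Dual ℂ (Matrix (Fin m) (Fin m) ℂ)))
    (fun q => q.2)
  refine ⟨Z, hZ, fun Y hY X hX => ?_⟩
  obtain ⟨z, hz⟩ := hp Z hZ
  obtain ⟨t, ht⟩ := hp X hX
  obtain ⟨Y', hY'⟩ : ∃ Y' : Matrix (Fin m) (Fin m) ℂ, Y = p.1 * Y' * (p⁻¹).1 := ⟨(p⁻¹).1 * Y * p.1, (RkA_cancel' p Y).symm⟩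
  have h1 : Matrix.diagonal z * Y' = Y' * Matrix.diagonal z := by
    rw [hz, hY', RkA_conj_mul, RkA_conj_mul] at hY
    have h2 := congrArg (fun A => (p⁻¹).1 * A * p.1) hY
    simp only [RkA_cancel] at h2
    exact h2
  have h3 : Matrix.diagonal t * Y' = Y' * Matrix.diagonal t := by
    ext a b
    rw [Matrix.diagonal_mul, Matrix.mul_diagonal]
    by_cases h4 : Y' a b = 0
    · rw [h4, mul_zero, zero_mul]
    · have h5 := congrFun (congrFun h1 a) b
      rw [Matrix.diagonal_mul, Matrix.mul_diagonal, mul_comm] at h5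
      have h6 : z a = z b := mul_left_cancel₀ h4 h5
      have h7 : t a = t b := by
        by_contra h8
        have h9 : (L a - L b) X ≠ 0 := by
          rw [LinearMap.sub_apply, hL, hL, ht, RkA_cancel, Matrix.diagonal_apply_eq, Matrix.diagonal_apply_eq]
          exact sub_ne_zero.2 h8
        refine hZ' ⟨(a, b), X, hX, h9⟩ ?_
        change (L a - L b) Z = 0
        rw [LinearMap.sub_apply, hL, hL, hz, RkA_cancel, Matrix.diagonal_apply_eq, Matrix.diagonal_apply_eq, h6, sub_self]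
      rw [h7, mul_comm]
  rw [ht, hY', RkA_conj_mul, RkA_conj_mul, h3]

/-- Polynomials in `ad Z`. -/
private theorem RkA_aeval (p : GL (Fin m) ℂ) (z : Fin m → ℂ) (Z : Matrix (Fin m) (Fin m) ℂ)
    (hZ : Z = p.1 * Matrix.diagonal z * (p⁻¹).1) (R : Polynomial ℂ) (A : Matrix (Fin m) (Fin m) ℂ) :
    (Polynomial.aeval (adM Z) R) (p.1 * A * (p⁻¹).1) = p.1 * (Matrix.of fun a b => R.eval (z a - z b) * A a b) * (p⁻¹).1 := by
  have hstep : ∀ A : Matrix (Fin m) (Fin m) ℂ, adM Z (p.1 * A * (p⁻¹).1) = p.1 * (Matrix.of fun a b => (z a - z b) * A a b) * (p⁻¹).1 := by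
    intro A
    show Z * (p.1 * A * (p⁻¹).1) - (p.1 * A * (p⁻¹).1) * Z = _
    rw [hZ, RkA_conj_mul, RkA_conj_mul, ← Matrix.sub_mul, ← Matrix.mul_sub]
    congr 2
    ext a b
    rw [Matrix.sub_apply, Matrix.diagonal_mul, Matrix.mul_diagonal, Matrix.of_apply]
    ring
  induction R using Polynomial.induction_on' with
  | add R S hR hS =>
    rw [map_add, LinearMap.add_apply, hR, hS, ← Matrix.add_mul, ← Matrix.mul_add]
    congr 2
    ext a b
    rw [Matrix.add_apply, Matrix.of_apply, Matrix.of_apply, Matrix.of_apply, Polynomial.eval_add, add_mul]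
  | monomial n c =>
    have hn : ∀ n : ℕ, ((adM Z) ^ n) (p.1 * A * (p⁻¹).1) = p.1 * (Matrix.of fun a b => (z a - z b) ^ n * A a b) * (p⁻¹).1 := by
      intro n
      induction n with
      | zero =>
        rw [pow_zero, Module.End.one_apply]
        congr 2
        ext a b
        rw [Matrix.of_apply, pow_zero, one_mul]
      | succ n ih =>
        rw [pow_succ', Module.End.mul_apply, ih, hstep]
        congr 2
        ext a b
        rw [Matrix.of_apply, Matrix.of_apply, Matrix.of_apply]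
        ring
    rw [Polynomial.aeval_monomial, Module.End.mul_apply, hn, Module.algebraMap_end_apply, ← Matrix.smul_mul, ← Matrix.mul_smul]
    congr 2
    ext a b
    rw [Matrix.smul_apply, Matrix.of_apply, Matrix.of_apply, Polynomial.eval_monomial, smul_eq_mul, mul_assoc]

private theorem RkA_stab (𝔤 : Submodule ℂ (Matrix (Fin m) (Fin m) ℂ)) (Z : Matrix (Fin m) (Fin m) ℂ)
    (hst : ∀ Y ∈ 𝔤, Z * Y - Y * Z ∈ 𝔤) (R : Polynomial ℂ) : ∀ Y ∈ 𝔤, (Polynomial.aeval (adM Z) R) Y ∈ 𝔤 := by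
  intro Y hY
  induction R using Polynomial.induction_on' with
  | add R S hR hS =>
    rw [map_add, LinearMap.add_apply]
    exact 𝔤.add_mem hR hS
  | monomial n c =>
    have hn : ∀ n : ℕ, ((adM Z) ^ n) Y ∈ 𝔤 := by
      intro n
      induction n with
      | zero => exact hY
      | succ n ih =>
        rw [pow_succ', Module.End.mul_apply]
        exact hst _ ih
    rw [Polynomial.aeval_monomial, Module.End.mul_apply, Module.algebraMap_end_apply]
    exact 𝔤.smul_mem _ (hn n)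

/-- For a diagonalisable `Z` and a subspace `𝔤` stable under `ad Z`: every element of `𝔤` is `[Z, A] + C` with `A C ∈ 𝔤`, `[Z, C] = 0`. Proof. `ad Z` is diagonalisable on the matrices (eigenvectors: `p E_ab p⁻¹`, eigenvalue `z a - z b`), so its restriction to the stable subspace `𝔤` is (`Module.End.IsFinitelySemisimple` or
`Submodule.eq_iSup_inf_genEigenspace`: `𝔤` is the sum of its intersections with the eigenspaces). For an eigenvector `Y` with eigenvalue `μ ≠ 0` take `A = μ⁻¹ Y`, for `μ = 0` take `C = Y`. -/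
theorem exists_lie_add (𝔤 : Submodule ℂ (Matrix (Fin m) (Fin m) ℂ)) (p : GL (Fin m) ℂ) (z : Fin m → ℂ) (Z : Matrix (Fin m) (Fin m) ℂ)
    (hZ : Z = p.1 * Matrix.diagonal z * (p⁻¹).1) (hst : ∀ Y ∈ 𝔤, Z * Y - Y * Z ∈ 𝔤) (Y : Matrix (Fin m) (Fin m) ℂ) (hY : Y ∈ 𝔤) :
    ∃ A ∈ 𝔤, ∃ C ∈ 𝔤, Z * C = C * Z ∧ Y = (Z * A - A * Z) + C := by
  classical
  obtain ⟨Q, hQ⟩ : ∃ Q : Polynomial ℂ, Q = ∏ q ∈ Finset.univ.filter (fun q : Fin m × Fin m => z q.1 ≠ z q.2), (Polynomial.X - Polynomial.C (z q.1 - z q.2)) :=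
    ⟨_, rfl⟩
  have hQ0 : Q.coeff 0 ≠ 0 := by
    rw [Polynomial.coeff_zero_eq_eval_zero, hQ, Polynomial.eval_prod]
    refine Finset.prod_ne_zero_iff.2 fun q hq => ?_
    rw [Polynomial.eval_sub, Polynomial.eval_X, Polynomial.eval_C, zero_sub, neg_ne_zero]
    exact sub_ne_zero.2 (Finset.mem_filter.1 hq).2
  have hQz : ∀ a b, z a ≠ z b → Q.eval (z a - z b) = 0 := by
    intro a b hab
    rw [hQ, Polynomial.eval_prod]
    refine Finset.prod_eq_zero (i := (a, b)) (Finset.mem_filter.2 ⟨Finset.mem_univ _, hab⟩) ?_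
    rw [Polynomial.eval_sub, Polynomial.eval_X, Polynomial.eval_C, sub_self]
  have hXQ : (Polynomial.aeval (adM Z) (Polynomial.X * Q)) Y = 0 := by
    obtain ⟨Y', hY'⟩ : ∃ Y' : Matrix (Fin m) (Fin m) ℂ, Y = p.1 * Y' * (p⁻¹).1 := ⟨(p⁻¹).1 * Y * p.1, (RkA_cancel' p Y).symm⟩
    rw [hY', RkA_aeval p z Z hZ]
    have h1 : (Matrix.of fun a b => (Polynomial.X * Q).eval (z a - z b) * Y' a b) = 0 := by
      ext a b
      rw [Matrix.of_apply, Polynomial.eval_mul, Polynomial.eval_X, Matrix.zero_apply]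
      by_cases h2 : z a = z b
      · rw [h2, sub_self, zero_mul, zero_mul]
      · rw [hQz a b h2, mul_zero, zero_mul]
    rw [h1, Matrix.mul_zero, Matrix.zero_mul]
  have hdiv : (Polynomial.aeval (adM Z) Q) Y = adM Z ((Polynomial.aeval (adM Z) Q.divX) Y) + Q.coeff 0 • Y := by
    have h1 : Q = Polynomial.X * Q.divX + Polynomial.C (Q.coeff 0) := by
      rw [mul_comm]
      exact (Polynomial.divX_mul_X_add Q).symm
    have h2 := congrArg (fun R : Polynomial ℂ => (Polynomial.aeval (adM Z) R) Y) h1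
    simp only [map_add, map_mul, Polynomial.aeval_X, Polynomial.aeval_C, LinearMap.add_apply, Module.End.mul_apply,
      Module.algebraMap_end_apply] at h2
    exact h2
  refine ⟨-((Q.coeff 0)⁻¹ • (Polynomial.aeval (adM Z) Q.divX) Y), 𝔤.neg_mem (𝔤.smul_mem _ (RkA_stab 𝔤 Z hst _ Y hY)),
    (Q.coeff 0)⁻¹ • (Polynomial.aeval (adM Z) Q) Y, 𝔤.smul_mem _ (RkA_stab 𝔤 Z hst _ Y hY), ?_, ?_⟩
  · have h1 : adM Z ((Q.coeff 0)⁻¹ • (Polynomial.aeval (adM Z) Q) Y) = 0 := by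
      rw [map_smul]
      have h2 : adM Z ((Polynomial.aeval (adM Z) Q) Y) = 0 := by
        rw [map_mul, Polynomial.aeval_X, Module.End.mul_apply] at hXQ
        exact hXQ
      rw [h2, smul_zero]
    exact sub_eq_zero.1 h1
  · have h1 : Z * (-((Q.coeff 0)⁻¹ • (Polynomial.aeval (adM Z) Q.divX) Y)) - (-((Q.coeff 0)⁻¹ • (Polynomial.aeval (adM Z) Q.divX) Y)) * Z =
        -((Q.coeff 0)⁻¹ • adM Z ((Polynomial.aeval (adM Z) Q.divX) Y)) := by
      have h0 : ∀ W : Matrix (Fin m) (Fin m) ℂ, Z * W - W * Z = adM Z W := fun _ => rfl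
      rw [h0, map_neg, map_smul]
    rw [h1, hdiv, smul_add, smul_smul, inv_mul_cancel₀ hQ0, one_smul, neg_add_cancel_left]

end WCn
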