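import Pool.Agent.Lib.MP_c2b80f_alE.RkA

/-!
# A slice (job RkB)
-/

open Matrix

namespace WCn

variable {m : ℕ}

section RkB

open NormedSpace

theorem RkB_slice {𝔸 : Type*} [NormedRing 𝔸] [NormedAlgebra ℂ 𝔸] [CompleteSpace 𝔸] [FiniteDimensional ℂ 𝔸] (𝔤 𝔠 : Submodule ℂ 𝔸)
    (Z : 𝔸) (hZ : Z ∈ 𝔤) (h𝔠 : 𝔠 ≤ 𝔤) (hst : ∀ Y ∈ 𝔤, ∀ X ∈ 𝔤, exp Y * X * exp (-Y) ∈ 𝔤)
    (hdec : ∀ X ∈ 𝔤, ∃ Y ∈ 𝔤, ∃ C ∈ 𝔠, X = Y * Z - Z * Y + C) :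
    ∃ δ : ℝ, 0 < δ ∧ ∀ X ∈ 𝔤, ‖X - Z‖ < δ → ∃ Y ∈ 𝔤, ∃ C ∈ 𝔠, X = exp Y * (Z + C) * exp (-Y) := by
  classical
  obtain ⟨π₀, hπ₀⟩ := LinearMap.exists_leftInverse_of_injective 𝔤.subtype (Submodule.ker_subtype 𝔤)
  have hπ1 : ∀ X (hX : X ∈ 𝔤), π₀ X = ⟨X, hX⟩ := fun X hX => by
    have h1 := LinearMap.congr_fun hπ₀ ⟨X, hX⟩
    exact h1
  let π : 𝔸 →L[ℂ] 𝔤 := LinearMap.toContinuousLinearMap π₀
  have hπ : ∀ X (hX : X ∈ 𝔤), π X = ⟨X, hX⟩ := hπ1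
  let pY : (𝔤 × 𝔠) →L[ℂ] 𝔸 := 𝔤.subtypeL.comp (ContinuousLinearMap.fst ℂ 𝔤 𝔠)
  let pC : (𝔤 × 𝔠) →L[ℂ] 𝔸 := 𝔠.subtypeL.comp (ContinuousLinearMap.snd ℂ 𝔤 𝔠)
  have h1 : HasStrictFDerivAt (fun x : 𝔤 × 𝔠 => exp (x.1 : 𝔸)) pY 0 := by
    have h1 : HasStrictFDerivAt (exp : 𝔸 → 𝔸) (1 : 𝔸 →L[ℂ] 𝔸) (pY 0) := by
      rw [map_zero]
      exact hasStrictFDerivAt_exp_zero
    exact h1.comp (0 : 𝔤 × 𝔠) pY.hasStrictFDerivAt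
  have h2 : HasStrictFDerivAt (fun x : 𝔤 × 𝔠 => exp (-(x.1 : 𝔸))) (-pY) 0 := by
    have h1 : HasStrictFDerivAt (exp : 𝔸 → 𝔸) (1 : 𝔸 →L[ℂ] 𝔸) ((-pY) 0) := by
      rw [map_zero]
      exact hasStrictFDerivAt_exp_zero
    exact h1.comp (0 : 𝔤 × 𝔠) (-pY).hasStrictFDerivAt
  have h3 : HasStrictFDerivAt (fun x : 𝔤 × 𝔠 => Z + (x.2 : 𝔸)) pC 0 := pC.hasStrictFDerivAt.const_add Z
  have h4 := (h1.mul' h3).mul' h2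
  have h5 := π.hasStrictFDerivAt.comp (0 : 𝔤 × 𝔠) h4
  have hval : ∀ x : 𝔤 × 𝔠, exp (x.1 : 𝔸) * (Z + (x.2 : 𝔸)) * exp (-(x.1 : 𝔸)) ∈ 𝔤 := fun x =>
    hst _ x.1.2 _ (𝔤.add_mem hZ (h𝔠 x.2.2))
  have hF0 : π (exp (((0 : 𝔤 × 𝔠).1 : 𝔤) : 𝔸) * (Z + (((0 : 𝔤 × 𝔠).2 : 𝔠) : 𝔸)) * exp (-(((0 : 𝔤 × 𝔠).1 : 𝔤) : 𝔸))) = ⟨Z, hZ⟩ := by
    rw [hπ _ (hval 0)]
    apply Subtype.ext
    simp [exp_zero]
  have hnh := h5.map_nhds_eq_of_surj (by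
    rw [LinearMap.range_eq_top]
    rintro ⟨X, hX⟩
    obtain ⟨Y, hY, C, hC, hX1⟩ := hdec X hX
    refine ⟨(⟨Y, hY⟩, ⟨C, hC⟩), ?_⟩
    change π _ = _
    rw [← hπ X hX]
    congr 1
    rw [hX1]
    simp [pY, pC, exp_zero]
    abel)
  have h6 := Filter.image_mem_map (m := (⇑π ∘ fun x : 𝔤 × 𝔠 => exp (x.1 : 𝔸) * (Z + (x.2 : 𝔸)) * exp (-(x.1 : 𝔸)))) (Filter.univ_mem (f := nhds (0 : 𝔤 × 𝔠)))
  have hnh' : Filter.map (⇑π ∘ fun x : 𝔤 × 𝔠 => exp (x.1 : 𝔸) * (Z + (x.2 : 𝔸)) * exp (-(x.1 : 𝔸))) (nhds (0 : 𝔤 × 𝔠)) =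
      nhds ((⇑π ∘ fun x : 𝔤 × 𝔠 => exp (x.1 : 𝔸) * (Z + (x.2 : 𝔸)) * exp (-(x.1 : 𝔸))) 0) := hnh
  rw [hnh'] at h6
  have h7 : (⇑π ∘ fun x : 𝔤 × 𝔠 => exp (x.1 : 𝔸) * (Z + (x.2 : 𝔸)) * exp (-(x.1 : 𝔸))) 0 = ⟨Z, hZ⟩ := hF0
  rw [h7] at h6
  obtain ⟨δ, hδ, hsub⟩ := Metric.mem_nhds_iff.1 h6
  refine ⟨δ, hδ, fun X hX hn => ?_⟩
  have h8 : (⟨X, hX⟩ : 𝔤) ∈ Metric.ball (⟨Z, hZ⟩ : 𝔤) δ := by
    rw [Metric.mem_ball, dist_eq_norm]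
    exact hn
  obtain ⟨x, -, hx⟩ := hsub h8
  refine ⟨x.1, x.1.2, x.2, x.2.2, ?_⟩
  have h9 : π (exp (x.1 : 𝔸) * (Z + (x.2 : 𝔸)) * exp (-(x.1 : 𝔸))) = ⟨X, hX⟩ := hx
  rw [hπ _ (hval x)] at h9
  exact (congrArg Subtype.val h9).symm

end RkB

section RkB2

attribute [local instance] Matrix.linftyOpNormedRing Matrix.linftyOpNormedAlgebra
  Matrix.linftyOpNormedAddCommGroup Matrix.linftyOpNormedSpace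

private theorem RkB_main {G : Subgroup (SLC m)} (hG : ZClosed G) (hm : 0 < m) (p : GL (Fin m) ℂ) (z : Fin m → ℂ) (Z : Matrix (Fin m) (Fin m) ℂ) (hZ : Z ∈ tanG G)
    (hZp : Z = p.1 * Matrix.diagonal z * (p⁻¹).1) :
    ∃ δ : ℝ, 0 < δ ∧ ∀ X ∈ tanG G, (∀ i j, ‖(X - Z) i j‖ < δ) →
      ∃ g ∈ G, ∃ C ∈ tanG G, Z * C = C * Z ∧ X = g.1 * (Z + C) * (g⁻¹).1 := by
  have hm' : (0 : ℝ) < m := by exact_mod_cast hm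
  let 𝔠 : Submodule ℂ (Matrix (Fin m) (Fin m) ℂ) :=
    { carrier := {C | C ∈ tanG G ∧ Z * C = C * Z}
      add_mem' := fun {a b} ha hb => ⟨(tanG G).add_mem ha.1 hb.1, by rw [Matrix.mul_add, Matrix.add_mul, ha.2, hb.2]⟩
      zero_mem' := ⟨(tanG G).zero_mem, by rw [Matrix.mul_zero, Matrix.zero_mul]⟩
      smul_mem' := fun c a ha => ⟨(tanG G).smul_mem c ha.1, by rw [Matrix.mul_smul, Matrix.smul_mul, ha.2]⟩ }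
  have hexp : ∀ Y ∈ tanG G, ∃ g ∈ G, g.1 = NormedSpace.exp Y ∧ (g⁻¹).1 = NormedSpace.exp (-Y) := by
    intro Y hY
    obtain ⟨g, hg, hge⟩ := tanG_exp hG hY 1
    rw [one_smul] at hge
    exact ⟨g, hg, hge, coe_inv_of_exp hge⟩
  obtain ⟨δ, hδ, h⟩ := RkB_slice (𝔸 := Matrix (Fin m) (Fin m) ℂ) (tanG G) 𝔠 Z hZ (fun C hC => hC.1) (by
    intro Y hY X hX
    obtain ⟨g, hg, h1, h2⟩ := hexp Y hY
    have h3 := tanG_conj hX hg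
    rw [h1, h2] at h3
    exact h3) (by
    intro X hX
    obtain ⟨A, hA, C, hC, hZC, hX1⟩ := exists_lie_add (tanG G) p z Z hZp (fun Y hY => tanG_lie hG hZ hY) X hX
    refine ⟨-A, (tanG G).neg_mem hA, C, ⟨hC, hZC⟩, ?_⟩
    rw [hX1, Matrix.neg_mul, Matrix.mul_neg]
    abel)
  refine ⟨δ / m, by positivity, fun X hX hn => ?_⟩
  obtain ⟨Y, hY, C, hC, hXe⟩ := h X hX (cartA_norm_lt hm hδ _ hn)
  obtain ⟨g, hg, h1, h2⟩ := hexp Y hY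
  exact ⟨g, hg, C, hC.1, hC.2, by rw [h1, h2]; exact hXe⟩

end RkB2

/-- Let `Z ∈ tanG G` be diagonalisable. Every tangent vector close to `Z` is conjugate by an element of `G` to `Z + C` with `C ∈ tanG G`, `[Z, C] = 0`.
Proof. Let `𝔤 = tanG G`, `𝔠 = {C ∈ 𝔤 | [Z, C] = 0}`, finite dimensional complex normed spaces (local instances as in `MP_c2b80f_alD/CtA.lean`). The map `F : 𝔤 × 𝔠 → 𝔤`, `F(Y, C) = exp(Y) (Z + C) exp(-Y)` (in `𝔤` by `tanG_exp`, `tanG_conj`) has at `(0, 0)` the strict derivative `(Y, C) ↦ Y Z - Z Y + C` (`hasStrictFDerivAt_exp_zero`, product rule; compare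
`MP_c2b80f_alC/CartC.lean`), which is surjective by `exists_lie_add`. So `F` maps the neighbourhoods of `0` onto those of `Z` (`HasStrictFDerivAt.map_nhds_eq_of_surj`; to stay inside `𝔤`, either work with the map into the subspace `𝔤`, or compose with a linear projection of the matrices onto `𝔤`). -/
theorem exists_slice {G : Subgroup (SLC m)} (hG : ZClosed G) (p : GL (Fin m) ℂ) (z : Fin m → ℂ) (Z : Matrix (Fin m) (Fin m) ℂ) (hZ : Z ∈ tanG G)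
    (hZp : Z = p.1 * Matrix.diagonal z * (p⁻¹).1) :
    ∃ δ : ℝ, 0 < δ ∧ ∀ X ∈ tanG G, (∀ i j, ‖(X - Z) i j‖ < δ) →
      ∃ g ∈ G, ∃ C ∈ tanG G, Z * C = C * Z ∧ X = g.1 * (Z + C) * (g⁻¹).1 := by
  rcases Nat.eq_zero_or_pos m with rfl | hm
  · exact ⟨1, one_pos, fun X _ _ => ⟨1, one_mem _, 0, (tanG G).zero_mem, Subsingleton.elim _ _, Subsingleton.elim _ _⟩⟩
  · exact RkB_main hG hm p z Z hZ hZp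

end WCn
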