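import Pool.Agent.Lib.MP_c2b80f_alE.UDefs

/-!
# Automorphisms of `ℂ`: transport of elements and groups
-/

open Matrix

namespace WCn

variable {n m : ℕ}

/-- The map `SL_m(ℂ) → SL_m(ℂ)` given by an automorphism `σ` of the field `ℂ` (not continuous in general), applied to the entries. -/
def sgm (σ : ℂ ≃+* ℂ) : SLC m →* SLC m := Matrix.SpecialLinearGroup.map σ.toRingHom

theorem sgm_apply (σ : ℂ ≃+* ℂ) (g : SLC m) (i j : Fin m) : (sgm σ g).1 i j = σ (g.1 i j) := rfl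

theorem sgm_val (σ : ℂ ≃+* ℂ) (g : SLC m) : (sgm σ g).1 = g.1.map σ := rfl

theorem sgm_symm_sgm (σ : ℂ ≃+* ℂ) (g : SLC m) : sgm σ.symm (sgm σ g) = g := by
  ext i j
  rw [sgm_apply, sgm_apply, RingEquiv.symm_apply_apply]

theorem sgm_sgm_symm (σ : ℂ ≃+* ℂ) (g : SLC m) : sgm σ (sgm σ.symm g) = g := by
  ext i j
  rw [sgm_apply, sgm_apply, RingEquiv.apply_symm_apply]

theorem sgm_injective (σ : ℂ ≃+* ℂ) : Function.Injective (sgm (m := m) σ) := fun g h e => by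
  rw [← sgm_symm_sgm σ g, e, sgm_symm_sgm]

theorem sgm_inv_val (σ : ℂ ≃+* ℂ) (g : SLC m) : ((sgm σ g)⁻¹).1 = (g⁻¹).1.map σ := by
  rw [← map_inv]
  rfl

theorem map_sgm_symm (σ : ℂ ≃+* ℂ) (G : Subgroup (SLC m)) : (G.map (sgm σ)).map (sgm σ.symm) = G := by
  ext g
  constructor
  · rintro ⟨_, ⟨x, hx, rfl⟩, rfl⟩
    rw [sgm_symm_sgm]
    exact hx
  · intro hg
    exact ⟨sgm σ g, ⟨g, hg, rfl⟩, sgm_symm_sgm σ g⟩

theorem map_symm_sgm (σ : ℂ ≃+* ℂ) (G : Subgroup (SLC m)) : (G.map (sgm σ.symm)).map (sgm σ) = G := by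
  ext g
  constructor
  · rintro ⟨_, ⟨x, hx, rfl⟩, rfl⟩
    rw [sgm_sgm_symm]
    exact hx
  · intro hg
    exact ⟨sgm σ.symm g, ⟨g, hg, rfl⟩, sgm_sgm_symm σ g⟩

theorem isOfFinOrder_sgm (σ : ℂ ≃+* ℂ) (g : SLC m) : IsOfFinOrder (sgm σ g) ↔ IsOfFinOrder g :=
  (sgm_injective σ).isOfFinOrder_iff (f := sgm σ)

theorem DiagBy.sgm {g : SLC m} {p : GL (Fin m) ℂ} {t : Fin m → ℂˣ} (σ : ℂ ≃+* ℂ) (h : DiagBy g p t) :
    DiagBy (WCn.sgm σ g) (Matrix.GeneralLinearGroup.map σ.toRingHom p) (fun i => Units.map (σ : ℂ →* ℂ) (t i)) := by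
  unfold DiagBy at *
  have h1 : ((Matrix.GeneralLinearGroup.map σ.toRingHom p)⁻¹).1 = (p⁻¹).1.map σ := by
    rw [← map_inv]
    rfl
  rw [h1]
  have h2 : (Matrix.GeneralLinearGroup.map σ.toRingHom p).1 = p.1.map σ := rfl
  have h3 : (Matrix.diagonal fun i => ((Units.map (σ : ℂ →* ℂ) (t i) : ℂˣ) : ℂ)) = (Matrix.diagonal fun i => (t i : ℂ)).map σ := by
    rw [Matrix.diagonal_map (map_zero σ)]
    rfl
  rw [sgm_val, h, h2, h3]
  ext i j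
  simp only [Matrix.map_apply, Matrix.mul_apply, map_sum, map_mul]

theorem IsSs.sgm {g : SLC m} (σ : ℂ ≃+* ℂ) (h : IsSs g) : IsSs (WCn.sgm σ g) := by
  obtain ⟨p, t, h⟩ := h
  exact ⟨_, _, h.sgm σ⟩

theorem isSs_sgm (σ : ℂ ≃+* ℂ) (g : SLC m) : IsSs (sgm σ g) ↔ IsSs g := by
  refine ⟨fun h => ?_, fun h => h.sgm σ⟩
  have h1 := h.sgm σ.symm
  rwa [sgm_symm_sgm] at h1

theorem WComm.sgm {g : SLC n} {h : SLC m} (σ : ℂ ≃+* ℂ) (hw : WComm g h) : WComm (WCn.sgm σ g) (WCn.sgm σ h) := by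
  obtain ⟨p, t, q, s, a, b, h1, h2, h3, h4⟩ := hw
  refine ⟨_, _, _, _, a, b, h1.sgm σ, h2.sgm σ, ?_, ?_⟩
  · have h5 := congrArg (Units.map (σ : ℂ →* ℂ)) h3
    rw [map_prod, map_prod] at h5
    simpa only [map_zpow] using h5
  · intro h5
    apply h4
    have h6 : Units.map (σ : ℂ →* ℂ) (∏ i, t i ^ a i) = 1 := by
      rw [map_prod]
      simpa only [map_zpow] using h5
    have h7 : Function.Injective (Units.map (σ : ℂ →* ℂ)) := Units.map_injective σ.injective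
    exact h7 (by rw [h6, map_one])

theorem evM_sgm (σ : ℂ ≃+* ℂ) (X : Matrix (Fin m) (Fin m) ℂ) (P : MvPolynomial (Fin m × Fin m) ℂ) :
    evM (X.map σ) (MvPolynomial.map σ.toRingHom P) = σ (evM X P) := by
  unfold evM
  rw [MvPolynomial.eval_map]
  have h := MvPolynomial.eval₂_comp_left σ.toRingHom (RingHom.id ℂ) (fun ij : Fin m × Fin m => X ij.1 ij.2) P
  rw [RingHom.comp_id] at h
  rw [← MvPolynomial.eval₂_id]
  exact h.symm

theorem ZDenseIn.sgm {G Γ : Subgroup (SLC m)} (σ : ℂ ≃+* ℂ) (h : ZDenseIn G Γ) : ZDenseIn (G.map (WCn.sgm σ)) (Γ.map (WCn.sgm σ)) := by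
  refine ⟨Subgroup.map_mono h.1, ?_⟩
  intro P hP
  rintro _ ⟨g, hg, rfl⟩
  have h1 : ∀ g : SLC m, MvPolynomial.eval (fun ij : Fin m × Fin m => (WCn.sgm σ g).1 ij.1 ij.2) P =
      σ (MvPolynomial.eval (fun ij : Fin m × Fin m => g.1 ij.1 ij.2) (MvPolynomial.map σ.symm.toRingHom P)) := by
    intro g
    have h2 := evM_sgm σ g.1 (MvPolynomial.map σ.symm.toRingHom P)
    rw [MvPolynomial.map_map] at h2
    have h3 : σ.toRingHom.comp σ.symm.toRingHom = RingHom.id ℂ := by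
      ext z
      exact σ.apply_symm_apply z
    rw [h3, MvPolynomial.map_id] at h2
    exact h2
  have h2 := h.2 (MvPolynomial.map σ.symm.toRingHom P) (fun γ hγ => by
    have h3 := hP (WCn.sgm σ γ) ⟨γ, hγ, rfl⟩
    rw [h1] at h3
    exact (map_eq_zero_iff σ σ.injective).1 h3) g hg
  show MvPolynomial.eval (fun ij : Fin m × Fin m => (WCn.sgm σ g).1 ij.1 ij.2) P = 0
  rw [h1, h2, map_zero]

theorem vanI_sgm {G : Subgroup (SLC m)} (σ : ℂ ≃+* ℂ) {P : MvPolynomial (Fin m × Fin m) ℂ} (hP : P ∈ vanI G) :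
    MvPolynomial.map σ.toRingHom P ∈ vanI (G.map (sgm σ)) := by
  rintro _ ⟨g, hg, rfl⟩
  show evM (g.1.map σ) (MvPolynomial.map σ.toRingHom P) = 0
  have h : evM g.1 P = 0 := hP g hg
  rw [evM_sgm, h, map_zero]

theorem ZClosed.sgm {G : Subgroup (SLC m)} (σ : ℂ ≃+* ℂ) (hG : ZClosed G) : ZClosed (G.map (WCn.sgm σ)) := by
  intro g hg
  refine ⟨WCn.sgm σ.symm g, ?_, sgm_sgm_symm σ g⟩
  apply hG
  intro P hP
  have h1 := hg _ (vanI_sgm σ hP)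
  have h2 := evM_sgm σ (WCn.sgm σ.symm g).1 P
  rw [← sgm_val, sgm_sgm_symm, h1] at h2
  exact (map_eq_zero_iff σ σ.injective).1 h2.symm

end WCn
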