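import Pool.Agent.Lib.MP_c2b80f_alE.SgA

/-!
# Automorphisms of `ℂ`: algebraic properties of almost simple groups
-/

open Matrix

namespace WCn

variable {m : ℕ}

theorem finite_map_sgm (σ : ℂ ≃+* ℂ) {N : Subgroup (SLC m)} (h : (N : Set (SLC m)).Finite) : ((N.map (sgm σ) : Subgroup (SLC m)) : Set (SLC m)).Finite := by
  rw [Subgroup.coe_map]
  exact h.image _

theorem noncomm_sgm (σ : ℂ ≃+* ℂ) {G : Subgroup (SLC m)} (h : ∃ g ∈ G, ∃ h ∈ G, g * h ≠ h * g) :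
    ∃ g ∈ G.map (sgm σ), ∃ h ∈ G.map (sgm σ), g * h ≠ h * g := by
  obtain ⟨g, hg, k, hk, hne⟩ := h
  refine ⟨sgm σ g, ⟨g, hg, rfl⟩, sgm σ k, ⟨k, hk, rfl⟩, fun e => hne ?_⟩
  rw [← map_mul, ← map_mul] at e
  exact sgm_injective σ e

theorem simple_sgm (σ : ℂ ≃+* ℂ) {G : Subgroup (SLC m)}
    (hs : ∀ N : Subgroup (SLC m), N ≤ G → ZClosed N → (∀ g ∈ G, ∀ h ∈ N, g * h * g⁻¹ ∈ N) → N = G ∨ (N : Set (SLC m)).Finite)
    (N : Subgroup (SLC m)) (hN : N ≤ G.map (sgm σ)) (hNc : ZClosed N) (hNn : ∀ g ∈ G.map (sgm σ), ∀ h ∈ N, g * h * g⁻¹ ∈ N) :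
    N = G.map (sgm σ) ∨ (N : Set (SLC m)).Finite := by
  have h1 : N.map (sgm σ.symm) ≤ G := by
    rintro _ ⟨x, hx, rfl⟩
    obtain ⟨g, hg, rfl⟩ := hN hx
    rw [sgm_symm_sgm]
    exact hg
  have h2 : ∀ g ∈ G, ∀ h ∈ N.map (sgm σ.symm), g * h * g⁻¹ ∈ N.map (sgm σ.symm) := by
    rintro g hg _ ⟨x, hx, rfl⟩
    refine ⟨sgm σ g * x * (sgm σ g)⁻¹, hNn _ ⟨g, hg, rfl⟩ x hx, ?_⟩
    rw [map_mul, map_mul, map_inv, sgm_symm_sgm]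
  rcases hs (N.map (sgm σ.symm)) h1 (hNc.sgm σ.symm) h2 with h | h
  · left
    rw [← h, map_symm_sgm]
  · right
    have h3 := finite_map_sgm σ h
    rwa [map_symm_sgm] at h3

end WCn
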