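import Pool.Agent.Lib.MP_c2b80f_alE.SgD
import Pool.Agent.Lib.MP_c2b80f_alE.CpI
import Pool.Agent.Lib.MP_c2b80f_alE.KwD
import Pool.Agent.Lib.MP_c2b80f_alE.MtH
import Pool.Agent.Lib.MP_c2b80f_alE.TnJ

/-!
# Almost simple groups are generated by the exponentials of the nilpotent elements of the Lie algebra
-/

open Matrix

namespace WCn

variable {m : ℕ}

theorem exists_nil {G : Subgroup (SLC m)} (hG : AlmostSimple G) : ∃ N ∈ tanG G, IsNilpotent N ∧ N ≠ 0 := by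
  obtain ⟨P, r, ι, _, _, D, hG', hD⟩ := hG.exists_isRD
  obtain ⟨β, hβ⟩ : ∃ β : ι, β = D.simple ⟨0, hD.pos⟩ := ⟨_, rfl⟩
  have hmem : D.e β ∈ tanG (G.map (WCn.cj P).toMonoidHom) := by
    rw [hD.mem_iff]
    refine ⟨0, Pi.single β 1, ?_⟩
    have h1 : D.H (0 : Fin r → ℂ) = 0 := by
      unfold RD.H
      simp
    rw [h1, zero_add, Finset.sum_eq_single β]
    · rw [Pi.single_eq_same, one_smul]
    · intro γ _ hγ
      rw [Pi.single_eq_of_ne hγ, zero_smul]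
    · intro h
      exact absurd (Finset.mem_univ β) h
  have hne : D.e β ≠ 0 := by
    intro h0
    have h1 : D.H (0 : Fin r → ℂ) = 0 := by
      unfold RD.H
      simp
    have h2 := (hD.indep 0 (Pi.single β 1) (by
      rw [h1, zero_add, Finset.sum_eq_single β]
      · rw [Pi.single_eq_same, one_smul, h0]
      · intro γ _ hγ
        rw [Pi.single_eq_of_ne hγ, zero_smul]
      · intro h
        exact absurd (Finset.mem_univ β) h)).2
    have h3 := congrFun h2 β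
    rw [Pi.single_eq_same, Pi.zero_apply] at h3
    exact one_ne_zero h3
  rw [tanG_cj] at hmem
  refine ⟨(P⁻¹).1 * D.e β * P.1, hmem, ?_, fun h0 => hne ?_⟩
  · obtain ⟨k, hk⟩ := KwD_nil hD β
    refine ⟨k, ?_⟩
    rw [Units.conj_pow', hk, mul_zero, zero_mul]
  · have h1 : D.e β = P.1 * ((P⁻¹).1 * D.e β * P.1) * (P⁻¹).1 := by
      have h2 : P.1 * (P⁻¹).1 = 1 := by rw [← Units.val_mul, mul_inv_cancel, Units.val_one]
      calc D.e β = (P.1 * (P⁻¹).1) * D.e β * (P.1 * (P⁻¹).1) := by rw [h2, one_mul, mul_one]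
        _ = _ := by simp only [mul_assoc]
    rw [h1, h0, mul_zero, zero_mul]

theorem conj_pow_SLC (g : SLC m) (X : Matrix (Fin m) (Fin m) ℂ) (k : ℕ) : (g.1 * X * (g⁻¹).1) ^ k = g.1 * X ^ k * (g⁻¹).1 := by
  have h1 : (g⁻¹).1 * g.1 = 1 := by
    have h2 : (g⁻¹ * g).1 = 1 := by
      rw [inv_mul_cancel]
      rfl
    exact h2
  have h1' : g.1 * (g⁻¹).1 = 1 := by
    have h2 : (g * g⁻¹).1 = 1 := by
      rw [mul_inv_cancel]
      rfl
    exact h2
  induction k with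
  | zero => rw [pow_zero, pow_zero, mul_one, h1']
  | succ k ih =>
    rw [pow_succ, ih, pow_succ]
    calc g.1 * X ^ k * (g⁻¹).1 * (g.1 * X * (g⁻¹).1) = g.1 * X ^ k * ((g⁻¹).1 * g.1) * X * (g⁻¹).1 := by simp only [mul_assoc]
      _ = _ := by
        rw [h1]
        simp only [mul_assoc, one_mul]

theorem span_nil {G : Subgroup (SLC m)} (hG : AlmostSimple G) :
    Submodule.span ℂ {N : Matrix (Fin m) (Fin m) ℂ | N ∈ tanG G ∧ IsNilpotent N} = tanG G := by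
  refine hG.adIrr G ⟨le_rfl, fun P hP g hg => hP g hg⟩ _ ?_ ?_ ?_
  · rw [Submodule.span_le]
    intro N hN
    exact hN.1
  · obtain ⟨N, hN, hNn, hN0⟩ := exists_nil hG
    rw [Submodule.ne_bot_iff]
    exact ⟨N, Submodule.subset_span ⟨hN, hNn⟩, hN0⟩
  · intro g hg Y hY
    induction hY using Submodule.span_induction with
    | mem N hN =>
      refine Submodule.subset_span ⟨tanG_conj hN.1 hg, ?_⟩
      obtain ⟨k, hk⟩ := hN.2
      exact ⟨k, by rw [conj_pow_SLC, hk, mul_zero, zero_mul]⟩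
    | zero =>
      rw [mul_zero, zero_mul]
      exact Submodule.zero_mem _
    | add X Z _ _ h1 h2 =>
      rw [mul_add, add_mul]
      exact Submodule.add_mem _ h1 h2
    | smul c X _ h1 =>
      rw [Matrix.mul_smul, Matrix.smul_mul]
      exact Submodule.smul_mem _ c h1

theorem real_span_nil {G : Subgroup (SLC m)} (hG : AlmostSimple G) (X : Matrix (Fin m) (Fin m) ℂ) (hX : X ∈ tanG G) :
    X ∈ Submodule.span ℝ {N : Matrix (Fin m) (Fin m) ℂ | N ∈ tanG G ∧ IsNilpotent N} := by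
  rw [← span_nil hG] at hX
  have key : ∀ (c : ℂ) (Y : Matrix (Fin m) (Fin m) ℂ), Y ∈ Submodule.span ℝ {N : Matrix (Fin m) (Fin m) ℂ | N ∈ tanG G ∧ IsNilpotent N} →
      c • Y ∈ Submodule.span ℝ {N : Matrix (Fin m) (Fin m) ℂ | N ∈ tanG G ∧ IsNilpotent N} := by
    intro c Y hY
    induction hY using Submodule.span_induction with
    | mem N hN => exact Submodule.subset_span ⟨Submodule.smul_mem _ c hN.1, hN.2.smul c⟩
    | zero =>
      rw [smul_zero]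
      exact Submodule.zero_mem _
    | add A B _ _ h1 h2 =>
      rw [smul_add]
      exact Submodule.add_mem _ h1 h2
    | smul r A _ h1 =>
      have h2 : c • r • A = r • c • A := smul_comm c r A
      rw [h2]
      exact Submodule.smul_mem _ r h1
  induction hX using Submodule.span_induction with
  | mem N hN => exact Submodule.subset_span hN
  | zero => exact Submodule.zero_mem _
  | add A B _ _ h1 h2 => exact Submodule.add_mem _ h1 h2
  | smul c A _ h1 => exact key c A h1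

section SgE

attribute [local instance] Matrix.linftyOpNormedRing Matrix.linftyOpNormedAlgebra
  Matrix.linftyOpNormedAddCommGroup Matrix.linftyOpNormedSpace

private theorem SgE_main {m : ℕ} (hm : 0 < m) (S : Set (Matrix (Fin m) (Fin m) ℂ))
    (h1 : (1 : Matrix (Fin m) (Fin m) ℂ) ∈ S) (h2 : ∀ a ∈ S, ∀ b ∈ S, a * b ∈ S)
    (h3 : ∀ a ∈ S, ∃ b ∈ S, a * b = 1 ∧ b * a = 1) (hc : IsClosed S)
    (V : Submodule ℝ (Matrix (Fin m) (Fin m) ℂ)) (hV : ∀ X, X ∈ V ↔ ∀ t : ℝ, NormedSpace.exp (t • X) ∈ S)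
    (𝒩 : Set (Matrix (Fin m) (Fin m) ℂ)) (h𝒩 : 𝒩 ⊆ V) (hspan : V ≤ Submodule.span ℝ 𝒩)
    (H : Set (Matrix (Fin m) (Fin m) ℂ)) (hH1 : 1 ∈ H) (hmul : ∀ a ∈ H, ∀ N ∈ 𝒩, ∀ t : ℝ, a * NormedSpace.exp (t • N) ∈ H) :
    ∃ ε : ℝ, 0 < ε ∧ ∀ g ∈ S, (∀ i j, ‖(g - 1) i j‖ < ε) → g ∈ H := by
  have : Nonempty (Fin m) := ⟨⟨0, hm⟩⟩
  have hS : IsUnitGroup S := ⟨h1, h2, h3⟩
  have hm' : (0 : ℝ) < m := by exact_mod_cast hm
  obtain ⟨ε, hε, h⟩ := gen_near (𝔸 := Matrix (Fin m) (Fin m) ℂ) S hS hc V hV 𝒩 h𝒩 hspan H hH1 hmul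
  refine ⟨ε / m, by positivity, fun g hg hg1 => ?_⟩
  exact h g hg (cartA_norm_lt hm hε _ hg1)

end SgE

/-- The group generated by the exponentials of nilpotent elements of the Lie algebra contains a neighbourhood of `1`. -/
theorem near_closure_expN {G : Subgroup (SLC m)} (hG : AlmostSimple G) :
    ∃ ε : ℝ, 0 < ε ∧ ∀ g ∈ G, Near ε g → g ∈ Subgroup.closure {h : SLC m | ∃ N ∈ tanG G, IsNilpotent N ∧ h.1 = NormedSpace.exp N} := by
  rcases Nat.eq_zero_or_pos m with rfl | hm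
  · refine ⟨1, one_pos, fun g _ _ => ?_⟩
    have h1 : g = 1 := Subtype.ext (Subsingleton.elim _ _)
    rw [h1]
    exact Subgroup.one_mem _
  obtain ⟨K, hK⟩ : ∃ K : Subgroup (SLC m), K = Subgroup.closure {h : SLC m | ∃ N ∈ tanG G, IsNilpotent N ∧ h.1 = NormedSpace.exp N} := ⟨_, rfl⟩
  rw [← hK]
  obtain ⟨S, hSd⟩ : ∃ S : Set (Matrix (Fin m) (Fin m) ℂ),
      S = (Subtype.val : SLC m → Matrix (Fin m) (Fin m) ℂ) '' (G : Set (SLC m)) := ⟨_, rfl⟩
  have s1 : (1 : Matrix (Fin m) (Fin m) ℂ) ∈ S := by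
    rw [hSd]
    exact ⟨(1 : SLC m), G.one_mem, rfl⟩
  have s2 : ∀ a ∈ S, ∀ b ∈ S, a * b ∈ S := by
    rw [hSd]
    rintro _ ⟨(a : SLC m), ha, rfl⟩ _ ⟨(b : SLC m), hb, rfl⟩
    exact ⟨(a * b : SLC m), G.mul_mem ha hb, rfl⟩
  have s3 : ∀ a ∈ S, ∃ b ∈ S, a * b = 1 ∧ b * a = 1 := by
    rw [hSd]
    rintro _ ⟨(a : SLC m), ha, rfl⟩
    exact ⟨(a⁻¹ : SLC m).1, ⟨(a⁻¹ : SLC m), G.inv_mem ha, rfl⟩,
      congrArg Subtype.val (mul_inv_cancel a), congrArg Subtype.val (inv_mul_cancel a)⟩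
  have hc : IsClosed S := by
    have h1 : IsClosed {A : Matrix (Fin m) (Fin m) ℂ | A.det = 1} :=
      isClosed_eq (continuous_id.matrix_det) continuous_const
    rw [hSd]
    exact h1.isClosedEmbedding_subtypeVal.isClosedMap _ hG.closed.isClosed
  have hsm : ∀ (t : ℝ) (X : Matrix (Fin m) (Fin m) ℂ), (t : ℂ) • X = t • X := by
    intro t X
    ext i j
    simp
  have hV : ∀ X, X ∈ (tanG G).restrictScalars ℝ ↔ ∀ t : ℝ, NormedSpace.exp (t • X) ∈ S := by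
    intro X
    refine (mem_tanG_iff hG.closed X).trans ⟨fun h1 t => ?_, fun h1 t => ?_⟩
    · obtain ⟨g, hg, hg'⟩ := h1 t
      rw [hsm] at hg'
      rw [hSd]
      exact ⟨g, hg, hg'⟩
    · have h2 := h1 t
      rw [hSd] at h2
      obtain ⟨g, hg, hg'⟩ := h2
      refine ⟨g, hg, ?_⟩
      rw [hsm]
      exact hg'
  obtain ⟨H, hHd⟩ : ∃ H : Set (Matrix (Fin m) (Fin m) ℂ),
      H = (Subtype.val : SLC m → Matrix (Fin m) (Fin m) ℂ) '' (K : Set (SLC m)) := ⟨_, rfl⟩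
  have hH1 : (1 : Matrix (Fin m) (Fin m) ℂ) ∈ H := by
    rw [hHd]
    exact ⟨(1 : SLC m), K.one_mem, rfl⟩
  have hmul : ∀ a ∈ H, ∀ N ∈ {N : Matrix (Fin m) (Fin m) ℂ | N ∈ tanG G ∧ IsNilpotent N}, ∀ t : ℝ, a * NormedSpace.exp (t • N) ∈ H := by
    rw [hHd]
    rintro _ ⟨(a : SLC m), ha, rfl⟩ N hN t
    obtain ⟨g, hg, he⟩ := tanG_exp hG.closed hN.1 (t : ℂ)
    have hgK : g ∈ K := by
      rw [hK]
      exact Subgroup.subset_closure ⟨(t : ℂ) • N, Submodule.smul_mem _ _ hN.1, hN.2.smul _, he⟩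
    refine ⟨(a * g : SLC m), K.mul_mem ha hgK, ?_⟩
    rw [← hsm, ← he]
    rfl
  obtain ⟨ε, hε, h⟩ := SgE_main hm S s1 s2 s3 hc ((tanG G).restrictScalars ℝ) hV
    {N : Matrix (Fin m) (Fin m) ℂ | N ∈ tanG G ∧ IsNilpotent N} (fun N hN => hN.1) (fun X hX => real_span_nil hG X hX) H hH1 hmul
  refine ⟨ε, hε, fun g hg hn => ?_⟩
  have h1 : g.1 ∈ H := h g.1 (by rw [hSd]; exact ⟨g, hg, rfl⟩) fun i j => hn i j
  rw [hHd] at h1
  obtain ⟨k, hk, hkg⟩ := h1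
  have h2 : k = g := Subtype.ext hkg
  rwa [← h2]

/-- `G` is generated by the exponentials of the nilpotent elements of the Lie algebra. -/
theorem AlmostSimple.mem_closure_expN {G : Subgroup (SLC m)} (hG : AlmostSimple G) {g : SLC m} (hg : g ∈ G) :
    g ∈ Subgroup.closure {h : SLC m | ∃ N ∈ tanG G, IsNilpotent N ∧ h.1 = NormedSpace.exp N} := by
  obtain ⟨ε, hε, h⟩ := near_closure_expN hG
  obtain ⟨H, hH⟩ : ∃ H : Subgroup (SLC m), H = Subgroup.closure {h : SLC m | ∃ N ∈ tanG G, IsNilpotent N ∧ h.1 = NormedSpace.exp N} :=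
    ⟨_, rfl⟩
  rw [← hH]
  rw [← hH] at h
  have h1 : (H.subgroupOf G : Set ↥G) ∈ nhds (1 : ↥G) := by
    have h0 : {g : SLC m | Near ε g} ∈ nhds ((1 : ↥G) : SLC m) := near_mem_nhds ε hε
    have h2 : (Subtype.val : ↥G → SLC m) ⁻¹' {g : SLC m | Near ε g} ∈ nhds (1 : ↥G) :=
      continuous_subtype_val.continuousAt.preimage_mem_nhds h0
    refine Filter.mem_of_superset h2 ?_
    intro g hg
    exact h g.1 g.2 hg
  have h2 : IsOpen (H.subgroupOf G : Set ↥G) := Subgroup.isOpen_of_mem_nhds _ h1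
  have h3 : IsClosed (H.subgroupOf G : Set ↥G) := Subgroup.isClosed_of_isOpen _ h2
  have hcs : ConnectedSpace ↥G := isConnected_iff_connectedSpace.1 hG.conn
  have h4 : (H.subgroupOf G : Set ↥G) = Set.univ := IsClopen.eq_univ ⟨h3, h2⟩ ⟨1, (H.subgroupOf G).one_mem⟩
  have h5 : (⟨g, hg⟩ : ↥G) ∈ (H.subgroupOf G : Set ↥G) := by
    rw [h4]
    exact Set.mem_univ _
  exact h5

end WCn
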