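import Pool.Agent.Lib.MP_c2b80f_alE.SgB
import Pool.Agent.Lib.MP_c2b80f_alE.SgE

/-!
# Automorphisms of `ℂ` map almost simple groups to almost simple groups
-/

open Matrix

namespace WCn

variable {m : ℕ}

theorem exp_of_nil {N : Matrix (Fin m) (Fin m) ℂ} {k : ℕ} (h : N ^ k = 0) :
    NormedSpace.exp N = ∑ i ∈ Finset.range k, ((i.factorial : ℂ)⁻¹) • N ^ i := by
  rw [congrFun (NormedSpace.exp_eq_tsum ℂ) N]
  refine tsum_eq_sum fun i hi => ?_
  rw [Finset.mem_range, not_lt] at hi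
  rw [pow_eq_zero_of_le hi h, smul_zero]

theorem map_smul_sigma (σ : ℂ ≃+* ℂ) (c : ℂ) (M : Matrix (Fin m) (Fin m) ℂ) : (c • M).map σ = σ c • M.map σ := by
  ext i j
  simp only [Matrix.map_apply, Matrix.smul_apply, smul_eq_mul, map_mul]

theorem map_pow_sigma (σ : ℂ ≃+* ℂ) (M : Matrix (Fin m) (Fin m) ℂ) (k : ℕ) : (M ^ k).map σ = (M.map σ) ^ k := by
  have h := map_pow (σ.toRingHom.mapMatrix (m := Fin m)) M k
  exact h

/-- The exponential of a nilpotent matrix is a polynomial with rational coefficients. -/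
theorem map_exp_nil (σ : ℂ ≃+* ℂ) {N : Matrix (Fin m) (Fin m) ℂ} (hN : IsNilpotent N) :
    (NormedSpace.exp N).map σ = NormedSpace.exp (N.map σ) := by
  obtain ⟨k, hk⟩ := hN
  have hk' : (N.map σ) ^ k = 0 := by
    rw [← map_pow_sigma, hk]
    ext i j
    simp
  rw [exp_of_nil hk, exp_of_nil hk']
  have h := map_sum (σ.toRingHom.mapMatrix (m := Fin m)) (fun i => ((i.factorial : ℂ)⁻¹) • N ^ i) (Finset.range k)
  have h1 : (∑ i ∈ Finset.range k, ((i.factorial : ℂ)⁻¹) • N ^ i).map σ = ∑ i ∈ Finset.range k, (((i.factorial : ℂ)⁻¹) • N ^ i).map σ := h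
  rw [h1]
  refine Finset.sum_congr rfl fun i _ => ?_
  rw [map_smul_sigma, map_pow_sigma, map_inv₀, map_natCast]

theorem exists_curve_sgm {G : Subgroup (SLC m)} (hG : AlmostSimple G) (σ : ℂ ≃+* ℂ) {g : SLC m} (hg : g ∈ G) :
    ∃ c : ℂ → SLC m, c 0 = 1 ∧ c 1 = sgm σ g ∧ (∀ z, c z ∈ G.map (sgm σ)) ∧ Continuous c := by
  have key := hG.mem_closure_expN hg
  refine Subgroup.closure_induction (p := fun g _ => ∃ c : ℂ → SLC m, c 0 = 1 ∧ c 1 = sgm σ g ∧ (∀ z, c z ∈ G.map (sgm σ)) ∧ Continuous c)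
    ?_ ?_ ?_ ?_ key
  · rintro h ⟨N, hN, hNn, hh⟩
    choose c hcG hc1 using fun z : ℂ => tanG_exp hG.closed hN (σ.symm z)
    have hc2 : ∀ z, (sgm σ (c z)).1 = NormedSpace.exp (z • N.map σ) := by
      intro z
      rw [sgm_val, hc1, map_exp_nil σ (hNn.smul _), map_smul_sigma, σ.apply_symm_apply]
    refine ⟨fun z => sgm σ (c z), ?_, ?_, fun z => ⟨c z, hcG z, rfl⟩, ?_⟩
    · apply Subtype.ext
      show (sgm σ (c 0)).1 = 1
      rw [hc2, zero_smul, NormedSpace.exp_zero]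
    · apply Subtype.ext
      show (sgm σ (c 1)).1 = (sgm σ h).1
      rw [hc2, one_smul, sgm_val, hh, map_exp_nil σ hNn]
    · have h1 : Continuous fun z : ℂ => NormedSpace.exp (z • N.map σ) := by
        refine continuous_matrix fun i j => ?_
        exact continuous_iff_continuousAt.2 fun w => (hasDerivAt_exp_entry (N.map σ) w i j).continuousAt
      have h2 : Continuous fun z : ℂ => (sgm σ (c z)).1 := by
        have h3 : (fun z : ℂ => (sgm σ (c z)).1) = fun z : ℂ => NormedSpace.exp (z • N.map σ) := funext hc2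
        rw [h3]
        exact h1
      exact continuous_induced_rng.2 h2
  · refine ⟨fun _ => 1, rfl, ?_, fun _ => Subgroup.one_mem _, continuous_const⟩
    rw [map_one]
  · rintro g h _ _ ⟨c, c0, c1, cG, cc⟩ ⟨d, d0, d1, dG, dc⟩
    refine ⟨fun z => c z * d z, ?_, ?_, fun z => Subgroup.mul_mem _ (cG z) (dG z), cc.mul dc⟩
    · show c 0 * d 0 = 1
      rw [c0, d0, one_mul]
    · show c 1 * d 1 = sgm σ (g * h)
      rw [c1, d1, map_mul]
  · rintro g _ ⟨c, c0, c1, cG, cc⟩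
    refine ⟨fun z => (c z)⁻¹, ?_, ?_, fun z => Subgroup.inv_mem _ (cG z), cc.inv⟩
    · show (c 0)⁻¹ = 1
      rw [c0, inv_one]
    · show (c 1)⁻¹ = sgm σ g⁻¹
      rw [c1, map_inv]

theorem conn_sgm {G : Subgroup (SLC m)} (hG : AlmostSimple G) (σ : ℂ ≃+* ℂ) : IsConnected ((G.map (sgm σ) : Subgroup (SLC m)) : Set (SLC m)) := by
  refine ⟨⟨1, Subgroup.one_mem _⟩, isPreconnected_of_forall 1 ?_⟩
  rintro _ ⟨g, hg, rfl⟩
  obtain ⟨c, c0, c1, cG, cc⟩ := exists_curve_sgm hG σ hg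
  refine ⟨Set.range c, ?_, ⟨0, c0⟩, ⟨1, c1⟩, isPreconnected_range cc⟩
  rintro _ ⟨z, rfl⟩
  exact cG z

theorem AlmostSimple.sgm {G : Subgroup (SLC m)} (hG : AlmostSimple G) (σ : ℂ ≃+* ℂ) : AlmostSimple (G.map (WCn.sgm σ)) where
  closed := hG.closed.sgm σ
  conn := conn_sgm hG σ
  noncomm := noncomm_sgm σ hG.noncomm
  simple := simple_sgm σ hG.simple

end WCn
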