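import Pool.Agent.Lib.MP_c2b80f_alE.CpA

/-!
# A group containing enough one parameter groups contains a neighbourhood of the identity
-/

open NormedSpace

namespace WCn

variable {𝔸 : Type*} [NormedRing 𝔸] [NormedAlgebra ℝ 𝔸] [CompleteSpace 𝔸]

theorem exists_coordN [FiniteDimensional ℝ 𝔸] (V : Submodule ℝ 𝔸) (𝒩 : Set 𝔸) (h𝒩 : 𝒩 ⊆ V) (hspan : V ≤ Submodule.span ℝ 𝒩) :
    ∃ (k : ℕ) (N : Fin k → 𝔸) (φ : Fin k → (V →L[ℝ] ℝ)), (∀ i, N i ∈ 𝒩) ∧ ∀ x : V, (x : 𝔸) = ∑ i, φ i x • N i := by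
  classical
  obtain ⟨s, hs⟩ : ∃ s : Set V, s = {x : V | (x : 𝔸) ∈ 𝒩} := ⟨_, rfl⟩
  have h1 : (⊤ : Submodule ℝ V) ≤ Submodule.span ℝ s := by
    have h2 : (Submodule.span ℝ s).map V.subtype = Submodule.span ℝ 𝒩 := by
      rw [Submodule.map_span]
      congr 1
      ext x
      constructor
      · rintro ⟨y, hy, rfl⟩
        rw [hs] at hy
        exact hy
      · intro hx
        refine ⟨⟨x, h𝒩 hx⟩, ?_, rfl⟩
        rw [hs]
        exact hx
    intro x _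
    have h3 : (x : 𝔸) ∈ (Submodule.span ℝ s).map V.subtype := by
      rw [h2]
      exact hspan x.2
    obtain ⟨y, hy, hyx⟩ := h3
    have h4 : y = x := Subtype.ext hyx
    rwa [← h4]
  have hs' : ∀ x ∈ s, (x : 𝔸) ∈ 𝒩 := by
    intro x hx
    rw [hs] at hx
    exact hx
  have : Fintype ((linearIndepOn_empty ℝ (id : V → V)).extend (Set.empty_subset s)) :=
    FiniteDimensional.fintypeBasisIndex (Module.Basis.ofSpan h1)
  let b := (Module.Basis.ofSpan h1).reindex (Fintype.equivFin _)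
  refine ⟨_, fun i => (b i : 𝔸), fun i => LinearMap.toContinuousLinearMap (b.coord i), fun i => ?_, fun x => ?_⟩
  · have h2 : b i ∈ s := Module.Basis.ofSpan_subset h1 ⟨(Fintype.equivFin _).symm i, by rw [Module.Basis.reindex_apply]⟩
    exact hs' _ h2
  · have h2 := b.sum_repr x
    have h3 := congrArg V.subtype h2
    rw [map_sum] at h3
    simp only [map_smul] at h3
    exact h3.symm

theorem gen_near [NormOneClass 𝔸] [FiniteDimensional ℝ 𝔸] (S : Set 𝔸) (hS : IsUnitGroup S) (hc : IsClosed S)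
    (V : Submodule ℝ 𝔸) (hV : ∀ X, X ∈ V ↔ X ∈ tang S) (𝒩 : Set 𝔸) (h𝒩 : 𝒩 ⊆ V) (hspan : V ≤ Submodule.span ℝ 𝒩)
    (H : Set 𝔸) (h1 : 1 ∈ H) (hmul : ∀ a ∈ H, ∀ N ∈ 𝒩, ∀ t : ℝ, a * exp (t • N) ∈ H) :
    ∃ ε : ℝ, 0 < ε ∧ ∀ g ∈ S, ‖g - 1‖ < ε → g ∈ H := by
  classical
  let : NormedAlgebra ℚ 𝔸 := NormedAlgebra.restrictScalars ℚ ℝ 𝔸
  obtain ⟨W, hVW⟩ := V.exists_isCompl
  have hW0 : ∀ X ∈ W, X ∈ tang S → X = 0 := by
    intro X hX hXt
    have h1 : X ∈ V ⊓ W := ⟨(hV X).2 hXt, hX⟩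
    rw [hVW.inf_eq_bot] at h1
    exact (Submodule.mem_bot ℝ).1 h1
  obtain ⟨δ, hδ, hsmall⟩ := exp_small_eq_zero S hS hc W hW0
  obtain ⟨k, N, φ, hN, hφ⟩ := exists_coordN V 𝒩 h𝒩 hspan
  have hexp : ∀ p : (V × W) →L[ℝ] 𝔸, HasStrictFDerivAt (fun x : V × W => exp (p x)) p 0 := by
    intro p
    have h1 : HasStrictFDerivAt (exp : 𝔸 → 𝔸) (1 : 𝔸 →L[ℝ] 𝔸) (p 0) := by
      rw [map_zero]
      exact hasStrictFDerivAt_exp_zero
    have h2 := h1.comp (0 : V × W) p.hasStrictFDerivAt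
    exact h2
  have key : ∀ s : Finset (Fin k), ∃ F : V × W → 𝔸, (∀ x, F x ∈ H ∧ F x ∈ S) ∧ F 0 = 1 ∧
      HasStrictFDerivAt F (∑ i ∈ s, ((φ i).comp (ContinuousLinearMap.fst ℝ V W)).smulRight (N i)) 0 := by
    intro s
    induction s using Finset.induction_on with
    | empty =>
      refine ⟨fun _ => 1, fun _ => ⟨h1, hS.one⟩, rfl, ?_⟩
      rw [Finset.sum_empty]
      exact hasStrictFDerivAt_const 1 0
    | insert i s hi ih =>
      obtain ⟨F, hF, hF0, hFd⟩ := ih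
      refine ⟨fun x => F x * exp ((((φ i).comp (ContinuousLinearMap.fst ℝ V W)).smulRight (N i)) x), fun x => ⟨?_, ?_⟩, ?_, ?_⟩
      · exact hmul _ (hF x).1 _ (hN i) _
      · refine hS.mul _ (hF x).2 _ ?_
        have h2 : N i ∈ tang S := (hV _).1 (h𝒩 (hN i))
        exact h2 _
      · show F 0 * exp ((((φ i).comp (ContinuousLinearMap.fst ℝ V W)).smulRight (N i)) 0) = 1
        rw [hF0, map_zero, exp_zero, one_mul]
      · have h2 := hFd.mul' (hexp (((φ i).comp (ContinuousLinearMap.fst ℝ V W)).smulRight (N i)))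
        refine h2.congr_fderiv ?_
        rw [Finset.sum_insert hi]
        refine ContinuousLinearMap.ext fun x => ?_
        simp [hF0, exp_zero]
  obtain ⟨F, hF, hF0, hFd⟩ := key Finset.univ
  let pW : (V × W) →L[ℝ] 𝔸 := W.subtypeL.comp (ContinuousLinearMap.snd ℝ V W)
  let L : (V × W) →L[ℝ] 𝔸 := V.subtypeL.comp (ContinuousLinearMap.fst ℝ V W) + pW
  have hL : ∀ x : V × W, L x = (x.1 : 𝔸) + (x.2 : 𝔸) := fun x => rfl
  have hder : HasStrictFDerivAt (fun x : V × W => F x * exp (pW x)) L 0 := by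
    have h2 := hFd.mul' (hexp pW)
    refine h2.congr_fderiv ?_
    refine ContinuousLinearMap.ext fun x => ?_
    rw [hL x, hφ x.1]
    simp [hF0, pW, exp_zero, add_comm]
  have hrange : (L : (V × W) →ₗ[ℝ] 𝔸).range = ⊤ := by
    rw [LinearMap.range_eq_top]
    intro u
    have h2 : u ∈ V ⊔ W := by
      rw [hVW.sup_eq_top]
      exact Submodule.mem_top
    obtain ⟨X, hX, w, hw, hXw⟩ := Submodule.mem_sup.1 h2
    refine ⟨(⟨X, hX⟩, ⟨w, hw⟩), ?_⟩
    show L (⟨X, hX⟩, ⟨w, hw⟩) = u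
    rw [hL]
    exact hXw
  have hnh := hder.map_nhds_eq_of_surj hrange
  have hball : {x : V × W | ‖x.2‖ < δ} ∈ nhds (0 : V × W) := by
    have h1 : Metric.ball (0 : V × W) δ ∈ nhds (0 : V × W) := Metric.ball_mem_nhds _ hδ
    refine Filter.mem_of_superset h1 fun x hx => ?_
    rw [Metric.mem_ball, dist_zero_right, Prod.norm_def, max_lt_iff] at hx
    exact hx.2
  have h3 := Filter.image_mem_map (m := fun x : V × W => F x * exp (pW x)) hball
  rw [hnh] at h3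
  have h4 : F 0 * exp (pW 0) = 1 := by
    rw [hF0, map_zero, exp_zero, one_mul]
  rw [h4] at h3
  obtain ⟨ε, hε, hsub⟩ := Metric.mem_nhds_iff.1 h3
  refine ⟨ε, hε, fun g hg hgn => ?_⟩
  have hg' : g ∈ Metric.ball (1 : 𝔸) ε := by
    rw [Metric.mem_ball, dist_eq_norm]
    exact hgn
  obtain ⟨⟨v, ⟨w, hw⟩⟩, hx, hxg⟩ := hsub hg'
  have hwn : ‖w‖ < δ := hx
  have hxg2 : F (v, ⟨w, hw⟩) * exp w = g := hxg
  obtain ⟨hFH, hFS⟩ := hF (v, ⟨w, hw⟩)
  obtain ⟨b, hb, -, hb2⟩ := hS.inv _ hFS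
  have hwS : exp w ∈ S := by
    have h6 : exp w = b * g := by
      rw [← hxg2, ← mul_assoc, hb2, one_mul]
    rw [h6]
    exact hS.mul _ hb _ hg
  have hw0 : w = 0 := hsmall w hw hwn hwS
  have h7 : g = F (v, ⟨w, hw⟩) := by
    rw [← hxg2]
    conv_lhs => rw [show exp w = 1 by rw [hw0, exp_zero], mul_one]
  rw [h7]
  exact hFH

end WCn
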