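import Pool.Agent.Lib.MP_c2b80f_alE.UDefs
import Pool.Agent.Lib.MP_c2b80f_alD.CtA

/-!
# The Lie algebra of a Zariski closed group: definitions
-/

open Matrix

namespace WCn

variable {m : ℕ}

/-- The left invariant derivation of the polynomials in the entries given by `X`: its value at `g` is the derivative of `P (g exp (z X))` at `z = 0`. -/
noncomputable def lder (X : Matrix (Fin m) (Fin m) ℂ) (P : MvPolynomial (Fin m × Fin m) ℂ) : MvPolynomial (Fin m × Fin m) ℂ :=
  ∑ ij : Fin m × Fin m, (∑ k, MvPolynomial.C (X k ij.2) * MvPolynomial.X (ij.1, k)) * MvPolynomial.pderiv ij P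

end WCn
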