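import Pool.Agent.Lib.MP_c2b80f_alE.TnD

/-!
# The Lie algebra of `G` as a Lie subalgebra of the matrices
-/

open Matrix

namespace WCn

attribute [local instance 100] LieRing.ofAssociativeRing

variable {m : ℕ}

/-- The Lie algebra of `G`. -/
noncomputable def lieA {G : Subgroup (SLC m)} (hG : ZClosed G) : LieSubalgebra ℂ (Matrix (Fin m) (Fin m) ℂ) where
  toSubmodule := tanG G
  lie_mem' := by
    intro X Y hX hY
    rw [LieRing.of_associative_ring_bracket]
    exact tanG_lie hG hX hY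

theorem mem_lieA {G : Subgroup (SLC m)} (hG : ZClosed G) (X : Matrix (Fin m) (Fin m) ℂ) : X ∈ lieA hG ↔ X ∈ tanG G := Iff.rfl

theorem coe_lie {G : Subgroup (SLC m)} (hG : ZClosed G) (X Y : lieA hG) :
    ((⁅X, Y⁆ : lieA hG) : Matrix (Fin m) (Fin m) ℂ) = X.1 * Y.1 - Y.1 * X.1 := rfl

end WCn
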