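import Pool.Agent.Lib.MP_c2b80f_alE.TnG

/-!
# The centre and the centralisers (job TnH)
-/

open Matrix

namespace WCn

variable {m : ℕ}

private theorem TnH_mul_inv (g : SLC m) : g.1 * (g⁻¹).1 = 1 := by
  have h : (g * g⁻¹).1 = g.1 * (g⁻¹).1 := rfl
  rw [← h, mul_inv_cancel]
  rfl

/-- A tangent vector which commutes with all elements of `G` is zero. Proof. Otherwise let `N = comG G 𝒴` with `𝒴` the set of the matrices of the elements of `G` (the centre of `G`): Zariski closed (`comG_closed`), normal, and `X ∈ tanG N` (`mem_tan_comG`). So `N = G` by `eq_of_tan`, and `G` is commutative,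
against `noncomm`. -/
theorem AlmostSimple.tan_center {G : Subgroup (SLC m)} (hG : AlmostSimple G) (X : Matrix (Fin m) (Fin m) ℂ) (hX : X ∈ tanG G)
    (h : ∀ g ∈ G, g.1 * X = X * g.1) : X = 0 := by
  by_contra hX0
  have hN : comG G {Y | ∃ g ∈ G, Y = g.1} = G := by
    refine hG.eq_of_tan (comG G {Y | ∃ g ∈ G, Y = g.1}) (fun g hg => hg.1) (comG_closed hG.closed _) ?_ X ?_ hX0
    · intro g hg k hk
      have h1 : k * g = g * k := Subtype.ext (hk.2 g.1 ⟨g, hg, rfl⟩)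
      rw [← h1, mul_inv_cancel_right]
      exact hk
    · refine mem_tan_comG hG.closed _ X hX ?_
      rintro Y ⟨g, hg, rfl⟩
      exact (h g hg).symm
  obtain ⟨g, hg, k, hk, hgk⟩ := hG.noncomm
  rw [← hN] at hg
  exact hgk (Subtype.ext (hg.2 k.1 ⟨k, hk, rfl⟩))

/-- If `W ≤ tanG G` is stable under conjugation by `G`, `W ≠ ⊥`, and `X ∈ tanG G` commutes with `W` then `X = 0`. Proof. Otherwise `N = comG G W` is a normal (because `W` is stable) Zariski closed subgroup with the tangent vector `X`, so `N = G` and the elements of `W` commute with `G`; they are zero by `tan_center`. -/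
theorem AlmostSimple.tan_faithful {G : Subgroup (SLC m)} (hG : AlmostSimple G) (W : Submodule ℂ (Matrix (Fin m) (Fin m) ℂ)) (hW : W ≤ tanG G)
    (hW0 : W ≠ ⊥) (hst : ∀ g ∈ G, ∀ Y ∈ W, g.1 * Y * (g⁻¹).1 ∈ W) (X : Matrix (Fin m) (Fin m) ℂ) (hX : X ∈ tanG G)
    (h : ∀ Y ∈ W, X * Y = Y * X) : X = 0 := by
  by_contra hX0
  have hN : comG G (W : Set (Matrix (Fin m) (Fin m) ℂ)) = G := by
    refine hG.eq_of_tan (comG G (W : Set (Matrix (Fin m) (Fin m) ℂ))) (fun g hg => hg.1) (comG_closed hG.closed _) ?_ X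
      (mem_tan_comG hG.closed _ X hX h) hX0
    intro g hg k hk
    refine ⟨G.mul_mem (G.mul_mem hg hk.1) (G.inv_mem hg), fun Y hY => ?_⟩
    have h1 : g.1 * (g⁻¹).1 = 1 := TnH_mul_inv g
    have h3 : (g⁻¹).1 * Y * g.1 ∈ W := by
      have h4 := hst g⁻¹ (G.inv_mem hg) Y hY
      rw [inv_inv] at h4
      exact h4
    have h5 : k.1 * ((g⁻¹).1 * Y * g.1) = (g⁻¹).1 * Y * g.1 * k.1 := hk.2 _ h3
    have h6 : (g * k * g⁻¹).1 = g.1 * k.1 * (g⁻¹).1 := rfl
    rw [h6]
    calc g.1 * k.1 * (g⁻¹).1 * Y = g.1 * k.1 * (g⁻¹).1 * Y * (g.1 * (g⁻¹).1) := by rw [h1, Matrix.mul_one]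
      _ = g.1 * (k.1 * ((g⁻¹).1 * Y * g.1)) * (g⁻¹).1 := by simp only [Matrix.mul_assoc]
      _ = g.1 * ((g⁻¹).1 * Y * g.1 * k.1) * (g⁻¹).1 := by rw [h5]
      _ = (g.1 * (g⁻¹).1) * Y * (g.1 * k.1 * (g⁻¹).1) := by simp only [Matrix.mul_assoc]
      _ = Y * (g.1 * k.1 * (g⁻¹).1) := by rw [h1, Matrix.one_mul]
  obtain ⟨Y, hY, hY0⟩ := Submodule.exists_mem_ne_zero_of_ne_bot hW0
  refine hY0 (hG.tan_center Y (hW hY) fun g hg => ?_)
  rw [← hN] at hg
  exact hg.2 Y hY

/-- Proof. If `tanG G = ⊥` then `G` is trivial by `mem_closure_exp`, against `noncomm`. -/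
theorem AlmostSimple.tan_ne_bot {G : Subgroup (SLC m)} (hG : AlmostSimple G) : tanG G ≠ ⊥ := by
  intro h
  have h1 : Subgroup.closure {k : SLC m | ∃ X ∈ tanG G, k.1 = NormedSpace.exp X} ≤ ⊥ := by
    refine (Subgroup.closure_le _).2 ?_
    rintro k ⟨X, hX, hk⟩
    rw [h, Submodule.mem_bot] at hX
    rw [hX, NormedSpace.exp_zero] at hk
    exact Subgroup.mem_bot.2 (Subtype.ext hk)
  obtain ⟨g, hg, k, hk, hgk⟩ := hG.noncomm
  have h2 := Subgroup.mem_bot.1 (h1 (mem_closure_exp hG.closed hG.conn hg))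
  rw [h2, one_mul, mul_one] at hgk
  exact hgk rfl

/-- A subspace of the Lie algebra is stable under conjugation by `G` if it is stable under the brackets: `mem_closure_exp`, `Subgroup.closure_induction`, `conj_exp_mem` (`coe_inv_of_exp`); for the inverse note `-X ∈ tanG G`, or that a stable finite dimensional subspace is also stable under the inverse. -/
theorem AlmostSimple.conj_of_lie {G : Subgroup (SLC m)} (hG : AlmostSimple G) (W : Submodule ℂ (Matrix (Fin m) (Fin m) ℂ))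
    (h : ∀ X ∈ tanG G, ∀ Y ∈ W, X * Y - Y * X ∈ W) {g : SLC m} (hg : g ∈ G) {Y : Matrix (Fin m) (Fin m) ℂ} (hY : Y ∈ W) : g.1 * Y * (g⁻¹).1 ∈ W := by
  have h1 := mem_closure_exp hG.closed hG.conn hg
  have h2 : ∀ Y ∈ W, g.1 * Y * (g⁻¹).1 ∈ W ∧ (g⁻¹).1 * Y * g.1 ∈ W := by
    clear hY hg
    induction h1 using Subgroup.closure_induction with
    | mem k hk =>
      obtain ⟨X, hX, hk⟩ := hk
      intro Y hY
      rw [coe_inv_of_exp hk, hk]
      constructor
      · have h3 := conj_exp_mem W X (h X hX) 1 Y hY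
        rw [one_smul] at h3
        exact h3
      · have h3 := conj_exp_mem W (-X) (h (-X) ((tanG G).neg_mem hX)) 1 Y hY
        rw [one_smul, neg_neg] at h3
        exact h3
    | one =>
      intro Y hY
      have h3 : (1 : SLC m).1 = 1 := rfl
      rw [inv_one, h3, Matrix.one_mul, Matrix.mul_one]
      exact ⟨hY, hY⟩
    | mul x y _ _ hx hy =>
      intro Y hY
      have h3 : (x * y).1 = x.1 * y.1 := rfl
      have h4 : ((x * y)⁻¹).1 = (y⁻¹).1 * (x⁻¹).1 := by
        rw [_root_.mul_inv_rev]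
        rfl
      rw [h3, h4]
      constructor
      · have h5 := (hx _ (hy Y hY).1).1
        simp only [Matrix.mul_assoc] at h5 ⊢
        exact h5
      · have h5 := (hy _ (hx Y hY).2).2
        simp only [Matrix.mul_assoc] at h5 ⊢
        exact h5
    | inv x _ hx =>
      intro Y hY
      rw [inv_inv]
      exact ⟨(hx Y hY).2, (hx Y hY).1⟩
  exact (h2 Y hY).1

/-- The converse: `tanG_exp`, `coe_inv_of_exp`, `lie_mem_of_conj`. -/
theorem lie_of_conj {G : Subgroup (SLC m)} (hG : ZClosed G) (W : Submodule ℂ (Matrix (Fin m) (Fin m) ℂ))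
    (h : ∀ g ∈ G, ∀ Y ∈ W, g.1 * Y * (g⁻¹).1 ∈ W) {X Y : Matrix (Fin m) (Fin m) ℂ} (hX : X ∈ tanG G) (hY : Y ∈ W) : X * Y - Y * X ∈ W := by
  refine lie_mem_of_conj W X Y fun z => ?_
  obtain ⟨g, hg, he⟩ := tanG_exp hG hX z
  have h1 := h g hg Y hY
  rw [coe_inv_of_exp he, he] at h1
  exact h1

/-- There is an element of `G` of infinite order in the sense: for every `k > 0` there is `g ∈ G` with `g ^ k ≠ 1`. Proof. Let `0 ≠ X ∈ tanG G` (`tan_ne_bot`); if `exp (z X) ^ k = exp (k z X) = 1` for all `z` then `k X = 0` by `eq_zero_of_finite`. -/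
theorem AlmostSimple.exists_pow {G : Subgroup (SLC m)} (hG : AlmostSimple G) (k : ℕ) (hk : 0 < k) : ∃ g ∈ G, g ^ k ≠ 1 := by
  by_contra hcon
  push Not at hcon
  obtain ⟨X, hX, hX0⟩ := Submodule.exists_mem_ne_zero_of_ne_bot hG.tan_ne_bot
  have h1 : k • X = 0 := by
    refine eq_zero_of_finite {1} (Set.finite_singleton 1) (k • X) fun t => ⟨1, rfl, ?_⟩
    obtain ⟨g, hg, he⟩ := tanG_exp hG.closed hX (t : ℂ)
    have h2 : (g ^ k).1 = g.1 ^ k := rfl
    have h3 : (1 : SLC m).1 = 1 := rfl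
    rw [hcon g hg, h3, he, ← Matrix.exp_nsmul] at h2
    rw [h3, h2, smul_comm]
  rw [← Nat.cast_smul_eq_nsmul ℂ, smul_eq_zero] at h1
  exact hX0 (h1.resolve_left (Nat.cast_ne_zero.2 hk.ne'))

end WCn
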