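import Pool.Agent.Lib.MP_c2b80f_alE.TnDefsL
import Pool.Agent.Lib.MP_c2b80f_alE.TnH

/-!
# The Lie algebra of an almost simple group is simple (job TnI)
-/

open Matrix

namespace WCn

attribute [local instance 100] LieRing.ofAssociativeRing

variable {m : ℕ}

private theorem TnI_sub {G : Subgroup (SLC m)} (hG : ZClosed G) (I : LieIdeal ℂ (lieA hG)) :
    ∃ W : Submodule ℂ (Matrix (Fin m) (Fin m) ℂ), (∀ Y, Y ∈ W ↔ ∃ h : Y ∈ lieA hG, (⟨Y, h⟩ : lieA hG) ∈ I) ∧ W ≤ tanG G ∧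
      (I ≠ ⊥ → W ≠ ⊥) ∧ ∀ X ∈ tanG G, ∀ Y ∈ W, X * Y - Y * X ∈ W := by
  let W : Submodule ℂ (Matrix (Fin m) (Fin m) ℂ) :=
    { carrier := {Y | ∃ h : Y ∈ lieA hG, (⟨Y, h⟩ : lieA hG) ∈ I}
      add_mem' := by
        rintro Y Z ⟨hY, hY'⟩ ⟨hZ, hZ'⟩
        exact ⟨add_mem hY hZ, add_mem hY' hZ'⟩
      zero_mem' := ⟨zero_mem _, zero_mem I⟩
      smul_mem' := by
        rintro c Y ⟨hY, hY'⟩
        exact ⟨(lieA hG).smul_mem c hY, I.smul_mem c hY'⟩ }
  have hW : ∀ Y, Y ∈ W ↔ ∃ h : Y ∈ lieA hG, (⟨Y, h⟩ : lieA hG) ∈ I := fun Y => Iff.rfl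
  refine ⟨W, hW, fun Y hY => ?_, fun hI h0 => ?_, fun X hX Y hY => ?_⟩
  · obtain ⟨h, _⟩ := (hW Y).1 hY
    exact h
  · apply hI
    rw [LieSubmodule.eq_bot_iff]
    rintro ⟨Y, hY⟩ hYI
    have h1 : Y ∈ W := (hW Y).2 ⟨hY, hYI⟩
    rw [h0, Submodule.mem_bot] at h1
    exact Subtype.ext h1
  · obtain ⟨h, hYI⟩ := (hW Y).1 hY
    rw [hW]
    have h1 : ⁅(⟨X, hX⟩ : lieA hG), (⟨Y, h⟩ : lieA hG)⁆ ∈ I := I.lie_mem hYI
    exact ⟨(⁅(⟨X, hX⟩ : lieA hG), (⟨Y, h⟩ : lieA hG)⁆ : lieA hG).2, h1⟩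

/-- If an ideal `I ≠ ⊥` of the Lie algebra commutes with `X` then `X = 0`: `tan_faithful` for the subspace of the matrices of the elements of `I`, which is stable under conjugation by `conj_of_lie`. -/
theorem lieA_faithful {G : Subgroup (SLC m)} (hG : AlmostSimple G) (I : LieIdeal ℂ (lieA hG.closed)) (hI : I ≠ ⊥) (X : lieA hG.closed)
    (h : ∀ Y ∈ I, ⁅X, Y⁆ = 0) : X = 0 := by
  obtain ⟨W, hW, hW1, hW2, hW3⟩ := TnI_sub hG.closed I
  refine Subtype.ext (hG.tan_faithful W hW1 (hW2 hI) (fun g hg Y hY => hG.conj_of_lie W hW3 hg hY) X.1 X.2 fun Y hY => ?_)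
  obtain ⟨h1, h2⟩ := (hW Y).1 hY
  have h3 := congrArg Subtype.val (h ⟨Y, h1⟩ h2)
  rw [coe_lie] at h3
  exact sub_eq_zero.1 h3

private theorem TnI_top {G : Subgroup (SLC m)} (hG : AlmostSimple G) : (⊤ : LieIdeal ℂ (lieA hG.closed)) ≠ ⊥ := by
  intro h
  apply hG.tan_ne_bot
  rw [eq_bot_iff]
  intro X hX
  have h1 : (⟨X, hX⟩ : lieA hG.closed) ∈ (⊤ : LieIdeal ℂ (lieA hG.closed)) := LieSubmodule.mem_top _
  rw [h, LieSubmodule.mem_bot] at h1
  rw [Submodule.mem_bot]
  exact congrArg Subtype.val h1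

/-- The Killing form is nondegenerate. Proof. Let `I` be an atom of the lattice of ideals (`IsAtomic`, finite dimension; `⊤ ≠ ⊥` by `tan_ne_bot`). `I` is an irreducible module of the Lie algebra `L` (`LieModule.IsIrreducible`; Lie submodules of `I` correspond to ideals contained in `I`) and faithful by `lieA_faithful`.
`LieAlgebra.hasCentralRadical_and_of_isIrreducible_of_isFaithful`: the radical is central; central elements are zero by `lieA_faithful` for `I = ⊤`. So `HasTrivialRadical`, and `LieAlgebra.HasTrivialRadical.instIsKilling`. -/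
theorem lieA_isKilling {G : Subgroup (SLC m)} (hG : AlmostSimple G) : LieAlgebra.IsKilling ℂ (lieA hG.closed) := by
  have hfin : Module.Finite ℂ (lieA hG.closed) := inferInstanceAs (Module.Finite ℂ (tanG G))
  obtain ⟨I, hI, -⟩ := (IsAtomic.eq_bot_or_exists_atom_le (⊤ : LieIdeal ℂ (lieA hG.closed))).resolve_left (TnI_top hG)
  have hnt : Nontrivial I := (LieSubmodule.nontrivial_iff_ne_bot ℂ (lieA hG.closed) _).2 hI.1
  have hirr : LieModule.IsIrreducible ℂ (lieA hG.closed) I := by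
    refine LieModule.IsIrreducible.mk fun N hN => ?_
    have h1 : N.map (LieSubmodule.incl I) ≤ I := by
      rw [LieSubmodule.map_le_iff_le_comap]
      intro x _
      exact x.2
    have h2 : N.map (LieSubmodule.incl I) ≠ ⊥ := by
      intro h0
      apply hN
      rw [LieSubmodule.eq_bot_iff] at h0 ⊢
      intro x hx
      exact Subtype.ext (h0 _ (LieSubmodule.mem_map_of_mem hx))
    have h3 : N.map (LieSubmodule.incl I) = I := by
      rcases hI.le_iff.1 h1 with h | h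
      · exact absurd h h2
      · exact h
    rw [eq_top_iff]
    intro x _
    have h4 : (x : lieA hG.closed) ∈ N.map (LieSubmodule.incl I) := by rw [h3]; exact x.2
    obtain ⟨y, hy, hyx⟩ := (LieSubmodule.mem_map _).1 h4
    have h5 : y = x := Subtype.ext hyx
    rw [← h5]
    exact hy
  have hfa : LieModule.IsFaithful ℂ (lieA hG.closed) I := by
    rw [LieModule.isFaithful_iff']
    intro X hX
    refine lieA_faithful hG I hI.1 X fun Y hY => ?_
    exact congrArg Subtype.val (hX ⟨Y, hY⟩)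
  obtain ⟨hc, -⟩ := LieAlgebra.hasCentralRadical_and_of_isIrreducible_of_isFaithful ℂ (lieA hG.closed) I
  have htr : LieAlgebra.HasTrivialRadical ℂ (lieA hG.closed) := by
    refine ⟨?_⟩
    rw [hc.radical_eq_center, LieSubmodule.eq_bot_iff]
    intro X hX
    refine lieA_faithful hG ⊤ (TnI_top hG) X fun Y _ => ?_
    have h1 := (LieModule.mem_maxTrivSubmodule ℂ (lieA hG.closed) (lieA hG.closed) X).1 hX Y
    rw [← lie_skew, h1, neg_zero]
  infer_instance

/-- Proof. `L` is semisimple (`LieAlgebra.IsKilling.instSemisimple`), so its lattice of ideals is complemented. Let `I ≠ ⊥` be an ideal with complement `J`; `⁅J, I⁆ ≤ I ⊓ J = ⊥`, so `J = ⊥` by `lieA_faithful` and `I = ⊤`. `L` is not abelian, by `lieA_faithful` for `I = ⊤ ≠ ⊥`. -/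
theorem lieA_isSimple {G : Subgroup (SLC m)} (hG : AlmostSimple G) : LieAlgebra.IsSimple ℂ (lieA hG.closed) := by
  have hfin : Module.Finite ℂ (lieA hG.closed) := inferInstanceAs (Module.Finite ℂ (tanG G))
  have := lieA_isKilling hG
  refine ⟨fun I => ?_, fun hab => ?_⟩
  · by_cases hI : I = ⊥
    · exact Or.inl hI
    right
    obtain ⟨J, hJ⟩ := exists_isCompl I
    have h1 : J = ⊥ := by
      rw [LieSubmodule.eq_bot_iff]
      intro X hX
      refine lieA_faithful hG I hI X fun Y hY => ?_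
      have h2 : ⁅X, Y⁆ ∈ I ⊓ J := by
        refine ⟨I.lie_mem hY, ?_⟩
        rw [← lie_skew]
        exact neg_mem (J.lie_mem hX)
      rw [hJ.inf_eq_bot, LieSubmodule.mem_bot] at h2
      exact h2
    rw [← hJ.sup_eq_top, h1, sup_bot_eq]
  · apply TnI_top hG
    rw [LieSubmodule.eq_bot_iff]
    intro X _
    exact lieA_faithful hG ⊤ (TnI_top hG) X fun Y _ => hab.trivial X Y

/-- Subspaces of the Lie algebra which are stable under the brackets are zero or everything. -/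
theorem AlmostSimple.eq_of_lie {G : Subgroup (SLC m)} (hG : AlmostSimple G) (W : Submodule ℂ (Matrix (Fin m) (Fin m) ℂ)) (hW : W ≤ tanG G)
    (hW0 : W ≠ ⊥) (h : ∀ X ∈ tanG G, ∀ Y ∈ W, X * Y - Y * X ∈ W) : W = tanG G := by
  have := lieA_isSimple hG
  let I : LieIdeal ℂ (lieA hG.closed) :=
    { carrier := {X | X.1 ∈ W}
      add_mem' := fun {X Y} hX hY => W.add_mem hX hY
      zero_mem' := W.zero_mem
      smul_mem' := fun c X hX => W.smul_mem c hX
      lie_mem := fun {X Y} hY => h X.1 X.2 Y.1 hY }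
  have hI : ∀ X : lieA hG.closed, X ∈ I ↔ X.1 ∈ W := fun X => Iff.rfl
  rcases LieAlgebra.IsSimple.eq_bot_or_eq_top (R := ℂ) I with h1 | h1
  · exfalso
    apply hW0
    rw [eq_bot_iff]
    intro Y hY
    have h2 : (⟨Y, hW hY⟩ : lieA hG.closed) ∈ I := hY
    rw [h1, LieSubmodule.mem_bot] at h2
    rw [Submodule.mem_bot]
    exact congrArg Subtype.val h2
  · refine le_antisymm hW fun Y hY => ?_
    have h2 : (⟨Y, hY⟩ : lieA hG.closed) ∈ I := by
      rw [h1]
      exact LieSubmodule.mem_top _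
    exact h2

end WCn
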