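import Pool.Agent.Lib.MP_c2b80f_alD.GDefs

/-!
# Absolutely almost simple groups: definitions

`G` is a Zariski closed subgroup of `SL_m(ℂ)`. Everything is expressed by complex matrices and polynomials in the entries.
-/

open Matrix

namespace WCn

variable {m : ℕ}

/-- The value of a polynomial in the entries at the matrix `X`. -/
noncomputable def evM (X : Matrix (Fin m) (Fin m) ℂ) (P : MvPolynomial (Fin m × Fin m) ℂ) : ℂ :=
  MvPolynomial.eval (fun ij : Fin m × Fin m => X ij.1 ij.2) P

/-- The ideal of the polynomials in the entries which vanish on `G`. -/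
noncomputable def vanI (G : Subgroup (SLC m)) : Ideal (MvPolynomial (Fin m × Fin m) ℂ) where
  carrier := {P | ∀ g ∈ G, evM g.1 P = 0}
  add_mem' := by
    intro P Q hP hQ g hg
    have h1 := hP g hg
    have h2 := hQ g hg
    unfold evM at *
    rw [map_add, h1, h2, add_zero]
  zero_mem' := by
    intro g _
    unfold evM
    rw [map_zero]
  smul_mem' := by
    intro Q P hP g hg
    have h1 := hP g hg
    unfold evM at *
    rw [smul_eq_mul, map_mul, h1, mul_zero]

/-- `G` is Zariski closed in `SL_m(ℂ)`. -/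
def ZClosed (G : Subgroup (SLC m)) : Prop := ∀ g : SLC m, (∀ P ∈ vanI G, evM g.1 P = 0) → g ∈ G

/-- `G` is a connected absolutely almost simple algebraic group over `ℂ`, embedded in `SL_m`: it is Zariski closed and connected (a complex algebraic group is connected if
and only if it is connected in the complex topology), it is not commutative, and a Zariski closed normal subgroup of `G` is `G` or finite. -/
structure AlmostSimple (G : Subgroup (SLC m)) : Prop where
  closed : ZClosed G
  conn : IsConnected (G : Set (SLC m))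
  noncomm : ∃ g ∈ G, ∃ h ∈ G, g * h ≠ h * g
  simple : ∀ N : Subgroup (SLC m), N ≤ G → ZClosed N → (∀ g ∈ G, ∀ h ∈ N, g * h * g⁻¹ ∈ N) → N = G ∨ (N : Set (SLC m)).Finite

/-- The differential at `1` of the polynomial `P` in the direction `X`. -/
noncomputable def dP (P : MvPolynomial (Fin m × Fin m) ℂ) (X : Matrix (Fin m) (Fin m) ℂ) : ℂ :=
  ∑ ij : Fin m × Fin m, evM 1 (MvPolynomial.pderiv ij P) * X ij.1 ij.2

/-- The Lie algebra of `G`: the tangent space at `1`. -/
noncomputable def tanG (G : Subgroup (SLC m)) : Submodule ℂ (Matrix (Fin m) (Fin m) ℂ) where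
  carrier := {X | ∀ P ∈ vanI G, dP P X = 0}
  add_mem' := by
    intro X Y hX hY P hP
    have h1 := hX P hP
    have h2 := hY P hP
    unfold dP at *
    simp only [Matrix.add_apply, mul_add, Finset.sum_add_distrib]
    rw [h1, h2, add_zero]
  zero_mem' := by
    intro P _
    unfold dP
    simp
  smul_mem' := by
    intro c X hX P hP
    have h1 := hX P hP
    unfold dP at *
    simp only [Matrix.smul_apply, smul_eq_mul]
    have h2 : ∀ ij : Fin m × Fin m, evM 1 (MvPolynomial.pderiv ij P) * (c * X ij.1 ij.2) = c * (evM 1 (MvPolynomial.pderiv ij P) * X ij.1 ij.2) := by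
      intro ij
      ring
    simp only [h2]
    rw [← Finset.mul_sum, h1, mul_zero]

/-- `Y ↦ X Y - Y X`. -/
def adM (X : Matrix (Fin m) (Fin m) ℂ) : Module.End ℂ (Matrix (Fin m) (Fin m) ℂ) where
  toFun Y := X * Y - Y * X
  map_add' := by
    intro Y Z
    rw [Matrix.mul_add, Matrix.add_mul]
    abel
  map_smul' := by
    intro c Y
    rw [Matrix.mul_smul, Matrix.smul_mul, ← smul_sub, RingHom.id_apply]

/-- `Y ↦ g Y g⁻¹`. -/
def AdM (g : SLC m) : Module.End ℂ (Matrix (Fin m) (Fin m) ℂ) where
  toFun Y := g.1 * Y * (g⁻¹).1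
  map_add' := by
    intro Y Z
    rw [Matrix.mul_add, Matrix.add_mul]
  map_smul' := by
    intro c Y
    rw [Matrix.mul_smul, Matrix.smul_mul, RingHom.id_apply]

/-! ### Root data in coordinates -/

/-- A root datum in coordinates. `wt j i`: value of the weight of the `j`-th basis vector of `ℂ^m` at the `i`-th simple coroot. `e β`: root vectors. `root β i`: value of the root `β` at the `i`-th simple
coroot. `coroot β`: coordinates of the coroot `β^∨` in the basis of the simple coroots. `ht β`: height. -/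
structure RD (m r : ℕ) (ι : Type) where
  wt : Fin m → Fin r → ℤ
  e : ι → Matrix (Fin m) (Fin m) ℂ
  root : ι → Fin r → ℤ
  coroot : ι → Fin r → ℤ
  neg : ι → ι
  simple : Fin r → ι
  ht : ι → ℤ

namespace RD

variable {r : ℕ} {ι : Type}

/-- The element of the Cartan subalgebra with coordinates `t`, a diagonal matrix. -/
def H (D : RD m r ι) {R : Type*} [CommRing R] (t : Fin r → R) : Matrix (Fin m) (Fin m) R :=
  Matrix.diagonal fun j => ∑ i, (D.wt j i : R) * t i

/-- The value of the root `β` at `H t`. -/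
def rt (D : RD m r ι) {R : Type*} [CommRing R] (β : ι) (t : Fin r → R) : R := ∑ i, (D.root β i : R) * t i

/-- The sum of the simple root vectors. -/
def eS (D : RD m r ι) : Matrix (Fin m) (Fin m) ℂ := ∑ i, D.e (D.simple i)

/-- The matrix of the reflection `t ↦ t - β(t) β^∨`. -/
def s (D : RD m r ι) (β : ι) : Matrix (Fin r) (Fin r) ℤ := 1 - Matrix.vecMulVec (D.coroot β) (D.root β)

/-- The Weyl group, acting on the coordinates `t`. -/
def W (D : RD m r ι) : Subgroup (GL (Fin r) ℤ) := Subgroup.closure {w | ∃ β, w.1 = D.s β}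

end RD

/-- The action of an integral matrix on vectors over a ring. -/
def act {r : ℕ} {R : Type*} [CommRing R] (w : GL (Fin r) ℤ) (t : Fin r → R) : Fin r → R := fun i => ∑ j, (w.1 i j : R) * t j

/-- `D` is the root datum of `G ≤ SL_m(ℂ)`; the diagonal matrices in the Lie algebra of `G` are a Cartan subalgebra. -/
structure IsRD {r : ℕ} {ι : Type} [Fintype ι] [DecidableEq ι] (G : Subgroup (SLC m)) (D : RD m r ι) : Prop where
  /-- the Lie algebra -/
  mem_iff : ∀ X, X ∈ tanG G ↔ ∃ (t : Fin r → ℂ) (x : ι → ℂ), X = D.H t + ∑ β, x β • D.e β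
  indep : ∀ (t : Fin r → ℂ) (x : ι → ℂ), D.H t + ∑ β, x β • D.e β = 0 → t = 0 ∧ x = 0
  /-- the entry `a b` of `e β` is zero unless the difference of the weights of `a` and `b` is `β` -/
  supp : ∀ β a b, D.e β a b ≠ 0 → ∀ i, D.wt a i - D.wt b i = D.root β i
  root_inj : Function.Injective D.root
  root_ne : ∀ β, D.root β ≠ 0
  neg_neg : ∀ β, D.neg (D.neg β) = β
  root_neg : ∀ β, D.root (D.neg β) = - D.root β
  coroot_neg : ∀ β, D.coroot (D.neg β) = - D.coroot β
  /-- `[e β, e (-β)] = β^∨` -/
  bracket : ∀ β, D.e β * D.e (D.neg β) - D.e (D.neg β) * D.e β = D.H (fun i => (D.coroot β i : ℂ))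
  two : ∀ β, ∑ i, D.root β i * D.coroot β i = 2
  refl : ∀ β γ, ∃ δ, D.root δ = D.root γ - (∑ i, D.root γ i * D.coroot β i) • D.root β ∧
    D.coroot δ = D.coroot γ - (∑ i, D.root β i * D.coroot γ i) • D.coroot β
  /-- positive rank -/
  pos : 0 < r
  simple_coroot : ∀ i, D.coroot (D.simple i) = Pi.single i 1
  simple_diff : ∀ i j β, i ≠ j → D.root β ≠ D.root (D.simple i) - D.root (D.simple j)
  /-- the roots are integral linear combinations of the simple roots, with coefficients of the same sign, and the height is the sum of the coefficients -/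
  ht_sum : ∀ β, ∃ f : Fin r → ℤ, ((∀ i, 0 ≤ f i) ∨ (∀ i, f i ≤ 0)) ∧ D.root β = ∑ i, f i • D.root (D.simple i) ∧ D.ht β = ∑ i, f i
  ht_simple : ∀ i, D.ht (D.simple i) = 1
  ht_neg : ∀ β, D.ht (D.neg β) = - D.ht β
  ht_ne : ∀ β, D.ht β ≠ 0
  /-- the height is the value of the root at an element `c` of the Cartan subalgebra -/
  ht_lin : ∃ c : Fin r → ℚ, ∀ β, (D.ht β : ℚ) = ∑ i, (D.root β i : ℚ) * c i
  /-- the Weyl group is generated by the simple reflections -/
  gen : D.W = Subgroup.closure {w | ∃ i, w.1 = D.s (D.simple i)}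
  /-- the root system is irreducible -/
  irr : ∀ q : Submodule ℚ (Fin r → ℚ), (∀ β, ∀ v ∈ q, v - (∑ i, v i * (D.coroot β i : ℚ)) • (fun i => (D.root β i : ℚ)) ∈ q) → q = ⊥ ∨ q = ⊤
  /-- `r` is the rank: the generalised kernels of the operators `ad X` have dimension at least `r` -/
  rank : ∀ X ∈ tanG G, r ≤ Module.finrank ℂ ↥((adM X).maxGenEigenspace 0 ⊓ tanG G)

end WCn
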