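import Pool.Agent.Lib.MP_c2b80f_alE.NwG

/-!
# Places: definition
-/

open Matrix

namespace WCn

variable {m : ℕ}

/-- The datum at one place: an automorphism `τ` of `ℂ` which fixes `A`, an element `g ∈ G` which diagonalises `γ`, with eigenvalues `y j` which depend only on the weight of `j` (different for different weights),
satisfy the relations between the weights, and are permuted by `τ` like the weights by `w`. -/
def PlaceAt {r : ℕ} {ι : Type} (G : Subgroup (SLC m)) (D : RD m r ι) (A : Subring ℂ) (γ : SLC m) (w : GL (Fin r) ℤ) : Prop :=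
  ∃ (τ : ℂ ≃+* ℂ) (g : SLC m) (y : Fin m → ℂˣ), g ∈ G ∧ (∀ a ∈ A, τ a = a) ∧
    γ.1 = g.1 * Matrix.diagonal (fun j => (y j : ℂ)) * (g⁻¹).1 ∧
    (∀ a b, y a = y b ↔ D.wt a = D.wt b) ∧
    (∀ d : Fin m → ℤ, (∀ i, ∑ j, d j * D.wt j i = 0) → ∏ j, y j ^ d j = 1) ∧
    (∀ a b, (∀ i, D.wt b i = ∑ l, D.wt a l * w.1 l i) → τ (y a) = y b)

/-- Elements of `G` which normalise the Cartan subalgebra act on it by the Weyl group. -/
theorem normalizer_weyl {r : ℕ} {ι : Type} [Fintype ι] [DecidableEq ι] {G : Subgroup (SLC m)} {D : RD m r ι} (hG : AlmostSimple G) (hD : IsRD G D)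
    (n : SLC m) (hn : n ∈ G) (h : ∀ t : Fin r → ℂ, ∃ t' : Fin r → ℂ, n.1 * D.H t * (n⁻¹).1 = D.H t') :
    ∃ w ∈ D.W, ∀ t : Fin r → ℂ, n.1 * D.H t * (n⁻¹).1 = D.H (act w t) :=
  normalizer_weyl' hG hD n hn h

end WCn
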