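import Pool.Agent.Lib.MP_c2b80f_alE.ArDefs
import Pool.Agent.Lib.MP_c2b80f_alE.UPlace

/-!
# Witt vectors at a place: definitions
-/

open Matrix

namespace WCn

/-- A place of the ring `A ⊆ ℂ` above `σ : A → ℤ_p`: a complete ring `O` (Witt vectors of the field `k`) over `ℤ_p`, with Frobenius `φ`, an embedding `J` of `O` into `ℂ` over `A`, and an automorphism `τ` of `ℂ` which extends `φ`. -/
structure WD (p : ℕ) [Fact p.Prime] (A : Subring ℂ) (σ : A →+* ℤ_[p]) (O k : Type) [CommRing O] [IsDomain O] [Field k] [Algebra (ZMod p) k] where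
  f : ℤ_[p] →+* O
  res : O →+* k
  φ : O →+* O
  J : O →+* ℂ
  τ : ℂ ≃+* ℂ
  res_surj : Function.Surjective res
  res_ker : ∀ x, res x = 0 ↔ ∃ y, x = (p : O) * y
  res_unit : ∀ x, res x ≠ 0 → IsUnit x
  res_f : ∀ a, res (f a) = algebraMap (ZMod p) k (PadicInt.toZMod a)
  φ_f : ∀ a, φ (f a) = f a
  res_φ : ∀ x, res (φ x) = res x ^ p
  J_inj : Function.Injective J
  J_f : ∀ a : A, J (f (σ a)) = a
  τ_J : ∀ x, τ (J x) = J (φ x)
  compl : ∀ u : ℕ → O, (∀ n, ∃ y, u (n + 1) - u n = (p : O) ^ (n + 1) * y) → ∃ l, ∀ n, ∃ y, l - u n = (p : O) ^ (n + 1) * y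
  sep : ∀ x : O, (∀ n : ℕ, ∃ y, x = (p : O) ^ n * y) → x = 0

namespace WD

variable {p : ℕ} [Fact p.Prime] {A : Subring ℂ} {σ : A →+* ℤ_[p]} {O k : Type} [CommRing O] [IsDomain O] [Field k] [Algebra (ZMod p) k]

/-- `A → O`. -/
noncomputable def s (W : WD p A σ O k) : A →+* O := W.f.comp σ

/-- `A → k`. -/
noncomputable def q (W : WD p A σ O k) : A →+* k := W.res.comp W.s

/-- The group of the elements of `SL_m(O)` whose images in `SL_m(ℂ)` are in `G`. -/
def GO {m : ℕ} (W : WD p A σ O k) (G : Subgroup (SLC m)) : Subgroup (Matrix.SpecialLinearGroup (Fin m) O) :=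
  G.comap (Matrix.SpecialLinearGroup.map W.J)

end WD

/-- Congruence modulo `p ^ n` of matrices over `O`. -/
def Cg {m : ℕ} {O : Type} [CommRing O] (p n : ℕ) (X Y : Matrix (Fin m) (Fin m) O) : Prop :=
  ∃ Z : Matrix (Fin m) (Fin m) O, X = Y + (p : O) ^ n • Z

/-- The element of the torus with parameters `z`: the diagonal matrix with entries `∏ i, z i ^ wt a i`. -/
def RD.Tz {m r : ℕ} {ι : Type} (D : RD m r ι) {O : Type*} [CommRing O] (z : Fin r → Oˣ) : Matrix (Fin m) (Fin m) O :=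
  Matrix.diagonal fun a => ((∏ i, z i ^ D.wt a i : Oˣ) : O)

end WCn
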