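import Pool.Agent.Lib.MP_c2b80f_alC.CartA
import Pool.Agent.Lib.MP_c2b80f_alE.UDefs

/-!
# Commutators of elements close to the identity
-/

open Matrix

namespace WCn

variable {m : ℕ}

section ZaA

attribute [local instance] Matrix.linftyOpNormedRing Matrix.linftyOpNormedAlgebra
  Matrix.linftyOpNormedAddCommGroup Matrix.linftyOpNormedSpace

/-- The operator norm of a matrix (for the maximum norm on vectors). -/
noncomputable def dl (X : Matrix (Fin m) (Fin m) ℂ) : ℝ := ‖X‖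

theorem dl_nonneg (X : Matrix (Fin m) (Fin m) ℂ) : 0 ≤ dl X := norm_nonneg X

theorem dl_eq_zero {X : Matrix (Fin m) (Fin m) ℂ} : dl X = 0 ↔ X = 0 := norm_eq_zero

theorem dl_add_le (X Y : Matrix (Fin m) (Fin m) ℂ) : dl (X + Y) ≤ dl X + dl Y := norm_add_le X Y

theorem dl_mul_le (X Y : Matrix (Fin m) (Fin m) ℂ) : dl (X * Y) ≤ dl X * dl Y := norm_mul_le X Y

theorem dl_sub_le (X Y : Matrix (Fin m) (Fin m) ℂ) : dl (X - Y) ≤ dl X + dl Y := norm_sub_le X Y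

theorem dl_sub_comm (X Y : Matrix (Fin m) (Fin m) ℂ) : dl (X - Y) = dl (Y - X) := norm_sub_rev X Y

theorem dl_lt {ε : ℝ} (hε : 0 < ε) (X : Matrix (Fin m) (Fin m) ℂ) (h : ∀ i j, ‖X i j‖ < ε / (m + 1)) : dl X < ε := by
  rcases Nat.eq_zero_or_pos m with rfl | hm
  · have h1 : X = 0 := Subsingleton.elim _ _
    have h2 : dl X = 0 := dl_eq_zero.2 h1
    rw [h2]
    exact hε
  · have hm' : (0 : ℝ) < m := by exact_mod_cast hm
    refine cartA_norm_lt hm hε X fun i j => (h i j).trans ?_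
    exact div_lt_div_of_pos_left hε hm' (by linarith)

theorem dl_one_le : dl (1 : Matrix (Fin m) (Fin m) ℂ) ≤ 1 := by
  rcases Nat.eq_zero_or_pos m with rfl | hm
  · have h1 : (1 : Matrix (Fin 0) (Fin 0) ℂ) = 0 := Subsingleton.elim _ _
    have h2 : dl (1 : Matrix (Fin 0) (Fin 0) ℂ) = 0 := dl_eq_zero.2 h1
    rw [h2]
    exact zero_le_one
  · have : Nonempty (Fin m) := ⟨⟨0, hm⟩⟩
    exact norm_one.le

theorem norm_le_dl (X : Matrix (Fin m) (Fin m) ℂ) (i j : Fin m) : ‖X i j‖ ≤ dl X := by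
  have h1 : dl X = ((Finset.univ : Finset (Fin m)).sup fun i : Fin m => ∑ j : Fin m, ‖X i j‖₊ : NNReal) := Matrix.linfty_opNorm_def X
  have h2 : ‖X i j‖₊ ≤ (Finset.univ : Finset (Fin m)).sup fun i : Fin m => ∑ j : Fin m, ‖X i j‖₊ := by
    refine le_trans ?_ (Finset.le_sup (f := fun i : Fin m => ∑ j : Fin m, ‖X i j‖₊) (Finset.mem_univ i))
    exact Finset.single_le_sum (f := fun j => ‖X i j‖₊) (fun _ _ => zero_le) (Finset.mem_univ j)
  rw [h1]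
  exact_mod_cast h2

end ZaA

theorem SLC_mul_inv (g : SLC m) : g.1 * (g⁻¹).1 = 1 := by
  have h2 : (g * g⁻¹).1 = 1 := by
    rw [mul_inv_cancel]
    rfl
  exact h2

theorem SLC_inv_mul (g : SLC m) : (g⁻¹).1 * g.1 = 1 := by
  have h2 : (g⁻¹ * g).1 = 1 := by
    rw [inv_mul_cancel]
    rfl
  exact h2

/-- Commutators of elements close to `1` are much closer to `1`. -/
theorem dl_comm_le (g h : SLC m) (hg : dl (g.1 - 1) ≤ 1 / 8) (hh : dl (h.1 - 1) ≤ 1 / 8) :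
    dl ((g * h * (h * g)⁻¹).1 - 1) ≤ 1 / 2 * dl (g.1 - 1) := by
  obtain ⟨B, hB⟩ : ∃ B : Matrix (Fin m) (Fin m) ℂ, B = ((h * g)⁻¹).1 := ⟨_, rfl⟩
  have h1 : h.1 * g.1 * B = 1 := by
    rw [hB]
    exact SLC_mul_inv (h * g)
  have h2 : (g * h * (h * g)⁻¹).1 - 1 = ((g.1 - 1) * (h.1 - 1) - (h.1 - 1) * (g.1 - 1)) * B := by
    have h3 : (g * h * (h * g)⁻¹).1 = g.1 * h.1 * B := by
      rw [hB]
      rfl
    rw [h3]
    calc g.1 * h.1 * B - 1 = g.1 * h.1 * B - h.1 * g.1 * B := by rw [h1]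
      _ = _ := by noncomm_ring
  obtain ⟨a, ha⟩ : ∃ a, a = dl (g.1 - 1) := ⟨_, rfl⟩
  obtain ⟨b, hb⟩ : ∃ b, b = dl (h.1 - 1) := ⟨_, rfl⟩
  have ha0 : 0 ≤ a := by rw [ha]; exact dl_nonneg _
  have hb0 : 0 ≤ b := by rw [hb]; exact dl_nonneg _
  rw [← ha] at hg
  rw [← hb] at hh
  have h4 : dl (h.1 * g.1 - 1) ≤ 1 / 2 := by
    have h5 : h.1 * g.1 - 1 = (h.1 - 1) * (g.1 - 1) + ((h.1 - 1) + (g.1 - 1)) := by noncomm_ring
    rw [h5]
    refine (dl_add_le _ _).trans ?_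
    have h6 := dl_mul_le (h.1 - 1) (g.1 - 1)
    have h7 := dl_add_le (h.1 - 1) (g.1 - 1)
    rw [← ha, ← hb] at h6 h7
    nlinarith
  have h8 : dl B ≤ 2 := by
    have h9 : B = 1 - (h.1 * g.1 - 1) * B := by
      rw [sub_mul, h1, one_mul]
      abel
    have h10 : dl B ≤ 1 + 1 / 2 * dl B := by
      calc dl B = dl (1 - (h.1 * g.1 - 1) * B) := by rw [← h9]
        _ ≤ dl (1 : Matrix (Fin m) (Fin m) ℂ) + dl ((h.1 * g.1 - 1) * B) := dl_sub_le _ _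
        _ ≤ 1 + 1 / 2 * dl B := by
          refine add_le_add dl_one_le ((dl_mul_le _ _).trans ?_)
          exact mul_le_mul_of_nonneg_right h4 (dl_nonneg B)
    linarith
  rw [h2]
  refine (dl_mul_le _ _).trans ?_
  have h11 : dl ((g.1 - 1) * (h.1 - 1) - (h.1 - 1) * (g.1 - 1)) ≤ 2 * (a * b) := by
    refine (dl_sub_le _ _).trans ?_
    have h12 := dl_mul_le (g.1 - 1) (h.1 - 1)
    have h13 := dl_mul_le (h.1 - 1) (g.1 - 1)
    rw [← ha, ← hb] at h12 h13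
    linarith
  rw [← ha]
  have h14 : dl ((g.1 - 1) * (h.1 - 1) - (h.1 - 1) * (g.1 - 1)) * dl B ≤ 2 * (a * b) * 2 :=
    mul_le_mul h11 h8 (dl_nonneg _) (by positivity)
  refine h14.trans ?_
  nlinarith [mul_le_mul_of_nonneg_left hh ha0]

/-- Conjugation by a fixed element is continuous at `1`. -/
theorem dl_conj_le (g h : SLC m) : dl ((g * h * g⁻¹).1 - 1) ≤ dl g.1 * dl (g⁻¹).1 * dl (h.1 - 1) := by
  have h1 : (g * h * g⁻¹).1 - 1 = g.1 * (h.1 - 1) * (g⁻¹).1 := by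
    have h3 : (g * h * g⁻¹).1 = g.1 * h.1 * (g⁻¹).1 := rfl
    rw [h3, mul_sub, sub_mul, mul_one, SLC_mul_inv]
  rw [h1]
  refine (dl_mul_le _ _).trans ?_
  have h2 := mul_le_mul_of_nonneg_right (dl_mul_le g.1 (h.1 - 1)) (dl_nonneg (g⁻¹).1)
  refine h2.trans (le_of_eq ?_)
  ring

end WCn
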