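import Pool.Agent.Lib.MP_c2b80f_alE.ZaA
import Pool.Agent.Lib.MP_c2b80f_alE.TnJ
import Pool.Agent.Lib.MP_c2b80f_alC.CartN

/-!
# Small elements of non-discrete Zariski dense subgroups have a finite centraliser
-/

open Matrix

namespace WCn

variable {m : ℕ}

theorem conj_mem_of_zDenseIn {G Γ : Subgroup (SLC m)} (hz : ZDenseIn G Γ) (W : Submodule ℂ (Matrix (Fin m) (Fin m) ℂ))
    (hst : ∀ g ∈ Γ, ∀ Y ∈ W, g.1 * Y * (g⁻¹).1 ∈ W) : ∀ g ∈ G, ∀ Y ∈ W, g.1 * Y * (g⁻¹).1 ∈ W := by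
  have hall : ∀ T ∈ AdS (Γ : Set (SLC m)), ∀ Y ∈ W, T Y ∈ W := by
    intro T hT
    refine Submodule.span_induction (p := fun T _ => ∀ Y ∈ W, T Y ∈ W) ?_ ?_ ?_ ?_ hT
    · rintro _ ⟨g, hg, rfl⟩ Y hY
      exact hst g hg Y hY
    · intro Y _
      rw [LinearMap.zero_apply]
      exact W.zero_mem
    · intro T₁ T₂ _ _ h1 h2 Y hY
      rw [LinearMap.add_apply]
      exact W.add_mem (h1 Y hY) (h2 Y hY)
    · intro c T₁ _ h1 Y hY
      rw [LinearMap.smul_apply]
      exact W.smul_mem c (h1 Y hY)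
  intro g hg Y hY
  have h0 : ∃ T ∈ AdS (G : Set (SLC m)), ∀ Y, T Y = g.1 * Y * (g⁻¹).1 :=
    ⟨_, Submodule.subset_span ⟨g, hg, rfl⟩, fun _ => rfl⟩
  obtain ⟨T, hT, hTY⟩ := h0
  rw [← AdS_of_zDenseIn hz] at hT
  rw [← hTY]
  exact hall T hT Y hY

/-- The centre of an almost simple group is finite. -/
theorem AlmostSimple.center_finite {G : Subgroup (SLC m)} (hG : AlmostSimple G) :
    {g : SLC m | g ∈ G ∧ ∀ h ∈ G, g * h = h * g}.Finite := by
  have hN : ∀ g : SLC m, g ∈ comG G {Y | ∃ g ∈ G, Y = g.1} ↔ g ∈ G ∧ ∀ h ∈ G, g * h = h * g := by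
    intro g
    constructor
    · intro hg
      exact ⟨hg.1, fun h hh => Subtype.ext (hg.2 h.1 ⟨h, hh, rfl⟩)⟩
    · intro hg
      refine ⟨hg.1, ?_⟩
      rintro _ ⟨h, hh, rfl⟩
      exact congrArg Subtype.val (hg.2 h hh)
  have h1 : {g : SLC m | g ∈ G ∧ ∀ h ∈ G, g * h = h * g} = (comG G {Y | ∃ g ∈ G, Y = g.1} : Set (SLC m)) := by
    ext g
    exact (hN g).symm
  rw [h1]
  rcases hG.simple (comG G {Y | ∃ g ∈ G, Y = g.1}) (fun g hg => hg.1) (comG_closed hG.closed _) (fun g hg h hh => by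
    have h2 := ((hN h).1 hh).2 g hg
    have h3 : g * h * g⁻¹ = h := by
      rw [← h2, mul_assoc, mul_inv_cancel, mul_one]
    rw [h3]
    exact hh) with h | h
  · exfalso
    obtain ⟨g, hg, k, hk, hne⟩ := hG.noncomm
    have h2 : g ∈ comG G {Y | ∃ g ∈ G, Y = g.1} := by
      rw [h]
      exact hg
    exact hne (((hN g).1 h2).2 k hk)
  · exact h

/-- Finite normal subgroups of connected groups are central. -/
theorem central_of_finite {G N : Subgroup (SLC m)} (hc : IsConnected (G : Set (SLC m))) (hN : (N : Set (SLC m)).Finite)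
    (hn : ∀ g ∈ G, ∀ h ∈ N, g * h * g⁻¹ ∈ N) {h : SLC m} (hh : h ∈ N) {g : SLC m} (hg : g ∈ G) : h * g = g * h := by
  have hcont : Continuous fun g : SLC m => g * h * g⁻¹ := (continuous_id.mul continuous_const).mul continuous_inv
  have hpre : IsPreconnected ((fun g : SLC m => g * h * g⁻¹) '' (G : Set (SLC m))) :=
    hc.isPreconnected.image _ hcont.continuousOn
  have hfin : ((fun g : SLC m => g * h * g⁻¹) '' (G : Set (SLC m))).Finite := by
    refine hN.subset ?_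
    rintro _ ⟨k, hk, rfl⟩
    exact hn k hk h hh
  have hsub : ((fun g : SLC m => g * h * g⁻¹) '' (G : Set (SLC m))).Subsingleton := by
    by_contra hcon
    rw [Set.not_subsingleton_iff] at hcon
    exact hpre.infinite_of_nontrivial hcon hfin
  have h1 : g * h * g⁻¹ = 1 * h * 1⁻¹ := hsub ⟨g, hg, rfl⟩ ⟨1, G.one_mem, rfl⟩
  rw [one_mul, inv_one, mul_one] at h1
  calc h * g = (g * h * g⁻¹) * g := by rw [h1]
    _ = g * h := by rw [mul_assoc, inv_mul_cancel, mul_one]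

end WCn
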