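import Pool.Agent.Lib.MP_c2b80f_alE.ZaB

/-!
# Finitely many small elements with a finite centraliser
-/

open Matrix

namespace WCn

variable {m : ℕ}

/-- The span of the small elements of `Γ`. -/
noncomputable def smallSpan (Γ : Subgroup (SLC m)) (ε : ℝ) : Submodule ℂ (Matrix (Fin m) (Fin m) ℂ) :=
  Submodule.span ℂ {X | ∃ x ∈ Γ, dl (x.1 - 1) < ε ∧ X = x.1}

theorem smallSpan_mono (Γ : Subgroup (SLC m)) {ε δ : ℝ} (h : ε ≤ δ) : smallSpan Γ ε ≤ smallSpan Γ δ := by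
  refine Submodule.span_mono ?_
  rintro X ⟨x, hx, hd, rfl⟩
  exact ⟨x, hx, lt_of_lt_of_le hd h, rfl⟩

theorem exists_smallSpan (Γ : Subgroup (SLC m)) : ∃ ε₀ : ℝ, 0 < ε₀ ∧ ∀ ε, 0 < ε → ε ≤ ε₀ → smallSpan Γ ε = smallSpan Γ ε₀ := by
  classical
  have h0 : ∃ k : ℕ, ∃ ε : ℝ, 0 < ε ∧ Module.finrank ℂ (smallSpan Γ ε) = k := ⟨_, 1, one_pos, rfl⟩
  obtain ⟨ε₀, hε₀, hk⟩ := Nat.find_spec h0
  refine ⟨ε₀, hε₀, fun ε hε hle => ?_⟩
  refine Submodule.eq_of_le_of_finrank_le (smallSpan_mono Γ hle) ?_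
  rw [hk]
  exact Nat.find_min' h0 ⟨ε, hε, rfl⟩

theorem smallSpan_conj (Γ : Subgroup (SLC m)) (ε₀ : ℝ) (hε₀ : 0 < ε₀) (h : ∀ ε, 0 < ε → ε ≤ ε₀ → smallSpan Γ ε = smallSpan Γ ε₀)
    (g : SLC m) (hg : g ∈ Γ) (Y : Matrix (Fin m) (Fin m) ℂ) (hY : Y ∈ smallSpan Γ ε₀) : g.1 * Y * (g⁻¹).1 ∈ smallSpan Γ ε₀ := by
  obtain ⟨c, hc⟩ : ∃ c, c = dl g.1 * dl (g⁻¹).1 + 1 := ⟨_, rfl⟩
  have hc0 : 0 < c := by
    rw [hc]
    have h1 := mul_nonneg (dl_nonneg g.1) (dl_nonneg (g⁻¹).1)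
    linarith
  have hε' : 0 < min ε₀ (ε₀ / c) := lt_min hε₀ (by positivity)
  rw [← h _ hε' (min_le_left _ _)] at hY
  unfold smallSpan at hY
  induction hY using Submodule.span_induction with
  | mem X hX =>
    obtain ⟨x, hx, hd, rfl⟩ := hX
    refine Submodule.subset_span ⟨g * x * g⁻¹, Γ.mul_mem (Γ.mul_mem hg hx) (Γ.inv_mem hg), ?_, rfl⟩
    refine lt_of_le_of_lt (dl_conj_le g x) ?_
    have h1 : dl (x.1 - 1) < ε₀ / c := lt_of_lt_of_le hd (min_le_right _ _)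
    have h2 : dl g.1 * dl (g⁻¹).1 * dl (x.1 - 1) ≤ c * dl (x.1 - 1) := by
      refine mul_le_mul_of_nonneg_right ?_ (dl_nonneg _)
      rw [hc]
      linarith
    refine lt_of_le_of_lt h2 ?_
    calc c * dl (x.1 - 1) < c * (ε₀ / c) := mul_lt_mul_of_pos_left h1 hc0
      _ = ε₀ := by field_simp
  | zero =>
    rw [mul_zero, zero_mul]
    exact Submodule.zero_mem _
  | add A B _ _ h1 h2 =>
    rw [mul_add, add_mul]
    exact Submodule.add_mem _ h1 h2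
  | smul c A _ h1 =>
    rw [Matrix.mul_smul, Matrix.smul_mul]
    exact Submodule.smul_mem _ c h1

/-- The elements of a finite set which are close to `1` are `1`. -/
theorem exists_isolated (S : Set (SLC m)) (hS : S.Finite) : ∃ ε : ℝ, 0 < ε ∧ ∀ z ∈ S, dl (z.1 - 1) < ε → z = 1 := by
  induction S, hS using Set.Finite.induction_on with
  | empty => exact ⟨1, one_pos, fun z hz => absurd hz (Set.notMem_empty z)⟩
  | @insert a S _ _ ih =>
    obtain ⟨ε, hε, h⟩ := ih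
    by_cases ha : a = 1
    · refine ⟨ε, hε, fun z hz hd => ?_⟩
      rcases Set.mem_insert_iff.1 hz with rfl | hz
      · exact ha
      · exact h z hz hd
    · have h1 : 0 < dl (a.1 - 1) := by
        refine lt_of_le_of_ne (dl_nonneg _) fun h0 => ha ?_
        have h2 := dl_eq_zero.1 h0.symm
        exact Subtype.ext (sub_eq_zero.1 h2)
      refine ⟨min ε (dl (a.1 - 1)), lt_min hε h1, fun z hz hd => ?_⟩
      rcases Set.mem_insert_iff.1 hz with rfl | hz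
      · exact absurd (lt_of_lt_of_le hd (min_le_right _ _)) (lt_irrefl _)
      · exact h z hz (lt_of_lt_of_le hd (min_le_left _ _))

theorem near_dl {ε : ℝ} (hε : 0 < ε) {g : SLC m} (h : Near (ε / (m + 1)) g) : dl (g.1 - 1) < ε :=
  dl_lt hε _ fun i j => h i j

theorem exists_small_gens {G Γ : Subgroup (SLC m)} (hG : AlmostSimple G) (hz : ZDenseIn G Γ) (hnd : ¬ DiscreteTopology Γ)
    (δ : ℝ) (hδ : 0 < δ) :
    ∃ S₀ : Finset (SLC m), (∀ s ∈ S₀, s ∈ Γ ∧ dl (s.1 - 1) < δ) ∧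
      ∀ g ∈ G, (∀ s ∈ S₀, g * s = s * g) → ∀ h ∈ G, g * h = h * g := by
  classical
  obtain ⟨ε₀, hε₀, hst⟩ := exists_smallSpan Γ
  have hconj := conj_mem_of_zDenseIn hz (smallSpan Γ ε₀) (fun g hg Y hY => smallSpan_conj Γ ε₀ hε₀ hst g hg Y hY)
  have hnorm : ∀ g ∈ G, ∀ h ∈ comG G (smallSpan Γ ε₀ : Set (Matrix (Fin m) (Fin m) ℂ)), g * h * g⁻¹ ∈ comG G (smallSpan Γ ε₀ : Set (Matrix (Fin m) (Fin m) ℂ)) := by
    intro g hg k hk
    refine ⟨G.mul_mem (G.mul_mem hg hk.1) (G.inv_mem hg), fun Y hY => ?_⟩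
    have h1 : g.1 * (g⁻¹).1 = 1 := SLC_mul_inv g
    have h3 : (g⁻¹).1 * Y * g.1 ∈ smallSpan Γ ε₀ := by
      have h4 := hconj g⁻¹ (G.inv_mem hg) Y hY
      rw [inv_inv] at h4
      exact h4
    have h5 : k.1 * ((g⁻¹).1 * Y * g.1) = (g⁻¹).1 * Y * g.1 * k.1 := hk.2 _ h3
    have h6 : (g * k * g⁻¹).1 = g.1 * k.1 * (g⁻¹).1 := rfl
    rw [h6]
    calc g.1 * k.1 * (g⁻¹).1 * Y = g.1 * k.1 * (g⁻¹).1 * Y * (g.1 * (g⁻¹).1) := by rw [h1, Matrix.mul_one]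
      _ = g.1 * (k.1 * ((g⁻¹).1 * Y * g.1)) * (g⁻¹).1 := by simp only [Matrix.mul_assoc]
      _ = g.1 * ((g⁻¹).1 * Y * g.1 * k.1) * (g⁻¹).1 := by rw [h5]
      _ = (g.1 * (g⁻¹).1) * Y * (g.1 * k.1 * (g⁻¹).1) := by simp only [Matrix.mul_assoc]
      _ = Y * (g.1 * k.1 * (g⁻¹).1) := by rw [h1, Matrix.one_mul]
  rcases hG.simple (comG G (smallSpan Γ ε₀ : Set (Matrix (Fin m) (Fin m) ℂ))) (fun g hg => hg.1) (comG_closed hG.closed _) hnorm with h | h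
  · exfalso
    obtain ⟨ε₁, hε₁, h1⟩ := exists_isolated _ hG.center_finite
    have hpos : 0 < min ε₀ ε₁ := lt_min hε₀ hε₁
    obtain ⟨γ, hγ, hne, hnear⟩ := exists_near_of_not_discrete Γ hnd (min ε₀ ε₁ / (m + 1)) (by positivity)
    have hd := near_dl hpos hnear
    refine hne (h1 γ ⟨hz.1 hγ, fun k hk => ?_⟩ (lt_of_lt_of_le hd (min_le_right _ _)))
    have h2 : γ.1 ∈ smallSpan Γ ε₀ := Submodule.subset_span ⟨γ, hγ, lt_of_lt_of_le hd (min_le_left _ _), rfl⟩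
    rw [← h] at hk
    exact Subtype.ext (hk.2 γ.1 h2).symm
  · have hpos : 0 < min ε₀ δ := lt_min hε₀ hδ
    have hE : smallSpan Γ (min ε₀ δ) = smallSpan Γ ε₀ := hst _ hpos (min_le_left _ _)
    obtain ⟨s', hs', hspan⟩ := (Submodule.fg_span_iff_fg_span_finset_subset (R := ℂ)
      {X : Matrix (Fin m) (Fin m) ℂ | ∃ x ∈ Γ, dl (x.1 - 1) < min ε₀ δ ∧ X = x.1}).1 (IsNoetherian.noetherian _)
    choose f hf using fun X : s' => hs' X.2
    refine ⟨Finset.univ.image f, ?_, ?_⟩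
    · intro s hs
      obtain ⟨X, -, rfl⟩ := Finset.mem_image.1 hs
      exact ⟨(hf X).1, lt_of_lt_of_le (hf X).2.1 (min_le_right _ _)⟩
    · intro g hg hcomm k hk
      have hgC : g ∈ comG G (smallSpan Γ ε₀ : Set (Matrix (Fin m) (Fin m) ℂ)) := by
        refine ⟨hg, fun Y hY => ?_⟩
        have hY' : Y ∈ Submodule.span ℂ (s' : Set (Matrix (Fin m) (Fin m) ℂ)) := by
          rw [← hspan]
          have h2 : Y ∈ smallSpan Γ (min ε₀ δ) := by
            rw [hE]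
            exact hY
          exact h2
        clear hY
        induction hY' using Submodule.span_induction with
        | mem X hX =>
          have h2 := hcomm (f ⟨X, hX⟩) (Finset.mem_image.2 ⟨⟨X, hX⟩, Finset.mem_univ _, rfl⟩)
          have h3 : X = (f ⟨X, hX⟩).1 := (hf ⟨X, hX⟩).2.2
          rw [h3]
          exact congrArg Subtype.val h2
        | zero => rw [mul_zero, zero_mul]
        | add A B _ _ h1 h2 => rw [mul_add, add_mul, h1, h2]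
        | smul c A _ h1 => rw [Matrix.mul_smul, Matrix.smul_mul, h1]
      exact central_of_finite hG.conn h hnorm hgC hk

end WCn
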