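import Pool.Agent.Lib.MP_c2b80f_alE.ZaC
import Pool.Agent.Lib.MP_c2b80f_alE.SgC
import Pool.Agent.Lib.MP_c2b80f_alE.FnU

/-!
# Images of non-discrete groups under automorphisms of `ℂ` which move finitely many numbers little
-/

open Matrix

namespace WCn

variable {n m : ℕ}

theorem dl_sgm_sub {ε : ℝ} (hε : 0 < ε) (σ : ℂ ≃+* ℂ) (g : SLC m) (h : ∀ i j, ‖σ (g.1 i j) - g.1 i j‖ < ε / (m + 1)) :
    dl ((sgm σ g).1 - g.1) < ε :=
  dl_lt hε _ fun i j => h i j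

/-- A non-discrete Zariski dense subgroup of an almost simple group stays non-discrete under automorphisms of `ℂ` which move the elements of a suitable finite set little. -/
theorem not_discrete_sgm {G Γ : Subgroup (SLC m)} (hG : AlmostSimple G) (hz : ZDenseIn G Γ) (hnd : ¬ DiscreteTopology Γ) :
    ∃ (A : Finset ℂ) (ε : ℝ), 0 < ε ∧ ∀ σ : ℂ ≃+* ℂ, (∀ a ∈ A, ‖σ a - a‖ < ε) → ¬ DiscreteTopology (Γ.map (sgm σ)) := by
  classical
  obtain ⟨ε₁, hε₁, hiso⟩ := exists_isolated _ hG.center_finite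
  obtain ⟨δ, hδ⟩ : ∃ δ, δ = min (1 / 8) (ε₁ / 2) := ⟨_, rfl⟩
  have hδ0 : 0 < δ := by
    rw [hδ]
    exact lt_min (by norm_num) (by positivity)
  have hδ1 : δ ≤ 1 / 8 := by
    rw [hδ]
    exact min_le_left _ _
  have hδ2 : δ ≤ ε₁ / 2 := by
    rw [hδ]
    exact min_le_right _ _
  obtain ⟨S₀, hS₀, hcen⟩ := exists_small_gens hG hz hnd (δ / 2) (by positivity)
  obtain ⟨T, hT⟩ : ∃ T : Finset (SLC m), T = S₀ ∪ hG.center_finite.toFinset := ⟨_, rfl⟩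
  refine ⟨T.biUnion fun s => Finset.univ.image fun ij : Fin m × Fin m => s.1 ij.1 ij.2, δ / 2 / (m + 1), by positivity, fun σ hσ hd => ?_⟩
  have hnear : ∀ s ∈ T, dl ((sgm σ s).1 - s.1) < δ / 2 := by
    intro s hs
    refine dl_sgm_sub (by positivity) σ s fun i j => hσ _ ?_
    rw [Finset.mem_biUnion]
    exact ⟨s, hs, Finset.mem_image.2 ⟨(i, j), Finset.mem_univ _, rfl⟩⟩
  have hS₀' : ∀ s ∈ S₀, dl ((sgm σ s).1 - 1) < δ := by
    intro s hs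
    have h1 := hnear s (by rw [hT]; exact Finset.mem_union_left _ hs)
    have h2 := (hS₀ s hs).2
    have h3 : (sgm σ s).1 - 1 = ((sgm σ s).1 - s.1) + (s.1 - 1) := by abel
    rw [h3]
    refine lt_of_le_of_lt (dl_add_le _ _) ?_
    linarith
  have hZ : ∀ z : SLC m, z ∈ G → (∀ h ∈ G, z * h = h * z) → dl ((sgm σ z).1 - 1) < δ → z = 1 := by
    intro z hz1 hz2 hd
    refine hiso z ⟨hz1, hz2⟩ ?_
    have h1 := hnear z (by
      rw [hT]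
      refine Finset.mem_union_right _ ?_
      rw [Set.Finite.mem_toFinset]
      exact ⟨hz1, hz2⟩)
    have h3 : z.1 - 1 = ((sgm σ z).1 - 1) - ((sgm σ z).1 - z.1) := by abel
    rw [h3]
    refine lt_of_le_of_lt (dl_sub_le _ _) ?_
    linarith
  obtain ⟨D, hD⟩ : ∃ D : Set ℝ, D = {d | ∃ y ∈ Γ.map (sgm σ), y ≠ 1 ∧ dl (y.1 - 1) < δ ∧ d = dl (y.1 - 1)} := ⟨_, rfl⟩
  -- a nontrivial element of `S₀`
  have hne : D.Nonempty := by
    by_contra hemp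
    rw [Set.not_nonempty_iff_eq_empty] at hemp
    obtain ⟨g, hg, k, hk, hgk⟩ := hG.noncomm
    refine hgk (hcen g hg (fun s hs => ?_) k hk)
    have h1 : s = 1 := by
      by_contra hs1
      have h2 : dl ((sgm σ s).1 - 1) ∈ D := by
        rw [hD]
        refine ⟨sgm σ s, ⟨s, (hS₀ s hs).1, rfl⟩, fun h => hs1 ?_, hS₀' s hs, rfl⟩
        exact sgm_injective σ (by rw [h, map_one])
      rw [hemp] at h2
      exact h2
    rw [h1, mul_one, one_mul]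
  -- discreteness gives a positive lower bound
  obtain ⟨r, hr, hrD⟩ : ∃ r : ℝ, 0 < r ∧ ∀ d ∈ D, r ≤ d := by
    have h1 : IsOpen ({1} : Set (Γ.map (sgm σ))) := isOpen_discrete _
    obtain ⟨U, hU, hU1⟩ := isOpen_induced_iff.1 h1
    have h2 : U ∈ nhds (1 : SLC m) := by
      refine hU.mem_nhds ?_
      have h3 : (1 : Γ.map (sgm σ)) ∈ (Subtype.val ⁻¹' U : Set (Γ.map (sgm σ))) := by
        rw [hU1]
        rfl
      exact h3
    obtain ⟨r, hr, hrU⟩ := (mem_nhds_one_iff _).1 h2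
    refine ⟨r, hr, fun d hd => ?_⟩
    rw [hD] at hd
    obtain ⟨y, hy, hy1, -, rfl⟩ := hd
    by_contra hlt
    rw [not_le] at hlt
    refine hy1 ?_
    have h3 : Near r y := fun i j => lt_of_le_of_lt (norm_le_dl (y.1 - 1) i j) hlt
    have h4 : y ∈ U := hrU y h3
    have h5 : (⟨y, hy⟩ : Γ.map (sgm σ)) ∈ (Subtype.val ⁻¹' U : Set (Γ.map (sgm σ))) := h4
    rw [hU1, Set.mem_singleton_iff] at h5
    exact congrArg Subtype.val h5
  have hbdd : BddBelow D := ⟨r, fun d hd => hrD d hd⟩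
  have hI : r ≤ sInf D := le_csInf hne hrD
  have hI0 : 0 < sInf D := lt_of_lt_of_le hr hI
  obtain ⟨d, hd, hd2⟩ := exists_lt_of_csInf_lt hne (show sInf D < 2 * sInf D by linarith)
  rw [hD] at hd
  obtain ⟨y, hy, hy1, hyd, rfl⟩ := hd
  obtain ⟨x, hx, rfl⟩ := hy
  refine hy1 ?_
  have hxG : x ∈ G := hz.1 hx
  have hcomm : ∀ s ∈ S₀, x * s = s * x := by
    intro s hs
    by_contra hcon
    have h1 := dl_comm_le (sgm σ x) (sgm σ s) (by linarith) (by have h2 := hS₀' s hs; linarith)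
    have h2 : dl ((sgm σ x * sgm σ s * (sgm σ s * sgm σ x)⁻¹).1 - 1) ∈ D := by
      rw [hD]
      refine ⟨_, ?_, ?_, ?_, rfl⟩
      · refine ⟨x * s * (s * x)⁻¹, Γ.mul_mem (Γ.mul_mem hx (hS₀ s hs).1) (Γ.inv_mem (Γ.mul_mem (hS₀ s hs).1 hx)), ?_⟩
        rw [map_mul, map_mul, map_inv, map_mul]
      · intro h3
        refine hcon (sgm_injective σ ?_)
        rw [map_mul, map_mul]
        exact mul_inv_eq_one.1 h3
      · have h4 := dl_nonneg ((sgm σ x).1 - 1)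
        linarith
    have h3 := csInf_le hbdd h2
    linarith
  have h1 := hZ x hxG (hcen x hxG hcomm) hyd
  rw [h1, map_one]

/-- The main theorem for limits of groups with logarithmic expressions under automorphisms of `ℂ`. -/
theorem final_logLim (n m : ℕ) (G₁ : Subgroup (SLC n)) (G₂ : Subgroup (SLC m)) (hG₁ : AlmostSimple G₁) (hG₂ : AlmostSimple G₂)
    (Γ₁ : Subgroup (SLC n)) (Γ₂ : Subgroup (SLC m))
    (h₁ : ∀ (A : Finset ℂ) (ε : ℝ), 0 < ε → ∃ σ : ℂ ≃+* ℂ, (∀ a ∈ A, ‖σ a - a‖ < ε) ∧ ∃ Λ : Subgroup (SLC n), Γ₁.map (sgm σ) ≤ Λ ∧ LogExpr Λ)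
    (hz₁ : ZDenseIn G₁ Γ₁) (h₂ : Γ₂.FG) (hz₂ : ZDenseIn G₂ Γ₂)
    (hwc₁ : ∀ g ∈ Γ₁, IsSs g → ¬ IsOfFinOrder g → ∃ h ∈ Γ₂, IsSs h ∧ ¬ IsOfFinOrder h ∧ WComm g h)
    (hwc₂ : ∀ g ∈ Γ₂, IsSs g → ¬ IsOfFinOrder g → ∃ h ∈ Γ₁, IsSs h ∧ ¬ IsOfFinOrder h ∧ WComm g h) :
    DiscreteTopology Γ₂ := by
  by_contra hnd
  obtain ⟨A, ε, hε, hA⟩ := not_discrete_sgm hG₂ hz₂ hnd
  obtain ⟨σ, hσ, hΛ⟩ := h₁ A ε hε
  refine hA σ hσ ?_
  have hw : ∀ {a b : ℕ} (Γ : Subgroup (SLC a)) (Δ : Subgroup (SLC b)),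
      (∀ g ∈ Γ, IsSs g → ¬ IsOfFinOrder g → ∃ h ∈ Δ, IsSs h ∧ ¬ IsOfFinOrder h ∧ WComm g h) →
      ∀ g ∈ Γ.map (sgm σ), IsSs g → ¬ IsOfFinOrder g → ∃ h ∈ Δ.map (sgm σ), IsSs h ∧ ¬ IsOfFinOrder h ∧ WComm g h := by
    rintro a b Γ Δ h _ ⟨g, hg, rfl⟩ hs hf
    obtain ⟨k, hk, hks, hkf, hkw⟩ := h g hg ((isSs_sgm σ g).1 hs) (fun hf' => hf ((isOfFinOrder_sgm σ g).2 hf'))
    exact ⟨sgm σ k, ⟨k, hk, rfl⟩, hks.sgm σ, fun hf' => hkf ((isOfFinOrder_sgm σ k).1 hf'), hkw.sgm σ⟩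
  have hfg : (Γ₂.map (sgm σ)).FG := by
    classical
    obtain ⟨S, hS⟩ := h₂
    exact ⟨S.image (sgm σ), by rw [Finset.coe_image, ← MonoidHom.map_closure, hS]⟩
  exact final_logU n m (G₁.map (sgm σ)) (G₂.map (sgm σ)) (hG₁.sgm σ) (hG₂.sgm σ) (Γ₁.map (sgm σ)) (Γ₂.map (sgm σ)) hΛ
    (hz₁.sgm σ) hfg (hz₂.sgm σ) (hw Γ₁ Γ₂ hwc₁) (hw Γ₂ Γ₁ hwc₂)

end WCn
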